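import Pool.Agent.Lib.BV.SpecL

/-!
MP_00e23e_nt, BV, module Lpc: primitive characters on primes.
-/

namespace Pool.Agent.Lib.BV

open Finset Pool.Agent.Lib.EH3

private theorem Lpc_coprime {d n : ℕ} (χ : DirichletCharacter ℂ d) (h : n.Coprime d) :
    χ (n : ZMod d) = χ.primitiveCharacter (n : ZMod χ.conductor) := by
  have h1 := χ.primitiveCharacter_apply_of_isCoprime (a := (n : ℤ))
    (Nat.isCoprime_iff_coprime.mpr h)
  rw [Int.cast_natCast, Int.cast_natCast] at h1
  rw [h1]

private theorem Lpc_not {d n : ℕ} (χ : DirichletCharacter ℂ d) (h : ¬ n.Coprime d) :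
    χ (n : ZMod d) = 0 := by
  have h1 : χ ((n : ℤ) : ZMod d) = 0 := by
    rw [χ.apply_eq_zero_iff]
    intro h2
    exact h (Nat.isCoprime_iff_coprime.mp h2)
  rw [Int.cast_natCast] at h1
  exact h1

theorem tLpc : LpcStmt := by
  intro d u χ hd
  rw [← Finset.sum_sub_distrib]
  refine (norm_sum_le _ _).trans ?_
  have h1 : ∀ p ∈ (Icc 1 u).filter Nat.Prime,
      ‖χ (p : ZMod d) - χ.primitiveCharacter (p : ZMod χ.conductor)‖ ≤ if p ∈ d.primeFactors then 1 else 0 := by
    intro p hp
    have hpp : p.Prime := (mem_filter.1 hp).2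
    by_cases h : p ∣ d
    · rw [if_pos (Nat.mem_primeFactors.2 ⟨hpp, h, by omega⟩)]
      have h2 : ¬ p.Coprime d := by
        intro h3
        exact (Nat.Prime.coprime_iff_not_dvd hpp).1 h3 h
      rw [Lpc_not χ h2, zero_sub, norm_neg]
      exact χ.primitiveCharacter.norm_le_one _
    · have h2 : p.Coprime d := (Nat.Prime.coprime_iff_not_dvd hpp).2 h
      rw [Lpc_coprime χ h2, sub_self, norm_zero]
      split_ifs
      · exact zero_le_one
      · exact le_refl 0
  refine (Finset.sum_le_sum h1).trans ?_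
  have h2 : ∑ p ∈ (Icc 1 u).filter Nat.Prime, (if p ∈ d.primeFactors then (1 : ℝ) else 0) ≤
      d.primeFactors.card := by
    rw [← Finset.sum_filter, Finset.sum_const, nsmul_eq_mul, mul_one]
    exact_mod_cast Finset.card_le_card (fun p hp => (mem_filter.1 hp).2)
  exact h2.trans (EH.card_primeFactors_le hd)

end Pool.Agent.Lib.BV
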