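import Pool.Agent.Lib.BV.SpecA

/-!
MP_00e23e_nt, Lib/BV, module Spl: class sums by characters.
-/

namespace Pool.Agent.Lib.BV

open Finset Pool.Agent.Lib.EH3

theorem Spl_cs (f : ℕ → ℂ) (N : ℕ) {q : ℕ} (χ : DirichletCharacter ℂ q) :
    cs f N 1 χ = ∑ n ∈ Icc 1 N, f n * χ (n : ZMod q) := by
  unfold cs
  rw [filter_true_of_mem]
  intro n _
  exact Nat.coprime_one_right n

theorem Spl_all (f : ℕ → ℂ) (N d l : ℕ) (hd : 1 ≤ d) (hl : l.Coprime d) :
    ∑ χ : DirichletCharacter ℂ d, χ ((l : ZMod d)⁻¹) * cs f N 1 χ =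
      (d.totient : ℂ) * cls f N d l := by
  have : NeZero d := ⟨by omega⟩
  have hu : IsUnit (l : ZMod d) := (ZMod.isUnit_iff_coprime l d).2 hl
  simp only [Spl_cs, mul_sum]
  rw [sum_comm]
  unfold cls
  rw [mul_sum, sum_filter]
  refine sum_congr rfl fun n _ => ?_
  have h1 : ∑ χ : DirichletCharacter ℂ d, χ ((l : ZMod d)⁻¹) * (f n * χ (n : ZMod d)) =
      f n * ∑ χ : DirichletCharacter ℂ d, χ ((l : ZMod d)⁻¹) * χ (n : ZMod d) := by
    rw [mul_sum]
    refine sum_congr rfl fun χ _ => ?_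
    ring
  rw [h1, DirichletCharacter.sum_char_inv_mul_char_eq ℂ hu]
  have h2 : ((l : ZMod d) = (n : ZMod d)) ↔ n ≡ l [MOD d] := by
    rw [ZMod.natCast_eq_natCast_iff]
    exact ⟨fun h => h.symm, fun h => h.symm⟩
  by_cases h : n ≡ l [MOD d]
  · rw [if_pos h, if_pos (h2.2 h), mul_comm]
  · rw [if_neg h, if_neg (fun h' => h (h2.1 h')), mul_zero]

theorem Spl_one (f : ℕ → ℂ) (N d l : ℕ) (hd : 1 ≤ d) (hl : l.Coprime d) :
    (1 : DirichletCharacter ℂ d) ((l : ZMod d)⁻¹) * cs f N 1 (1 : DirichletCharacter ℂ d) =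
      ∑ n ∈ (Icc 1 N).filter (fun n => n.Coprime d), f n := by
  have : NeZero d := ⟨by omega⟩
  have hu : IsUnit (l : ZMod d) := (ZMod.isUnit_iff_coprime l d).2 hl
  have hu' : IsUnit ((l : ZMod d)⁻¹) := by
    obtain ⟨u, hu⟩ := hu
    rw [← hu, ZMod.inv_coe_unit]
    exact Units.isUnit _
  rw [MulChar.one_apply hu', one_mul, Spl_cs, sum_filter]
  refine sum_congr rfl fun n _ => ?_
  by_cases h : n.Coprime d
  · rw [if_pos h, MulChar.one_apply ((ZMod.isUnit_iff_coprime n d).2 h), mul_one]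
  · rw [if_neg h, MulChar.map_nonunit _ (fun h' => h ((ZMod.isUnit_iff_coprime n d).1 h')),
      mul_zero]

theorem tSpl : SplStmt := by
  classical
  intro f N d l Q hd hl hQ
  have : NeZero d := ⟨by omega⟩
  have hφ : (d.totient : ℂ) ≠ 0 := by
    have h := Nat.totient_pos.2 (show 0 < d by omega)
    exact_mod_cast h.ne'
  have h1 := Spl_all f N d l hd hl
  have h2 : ∑ χ : DirichletCharacter ℂ d, χ ((l : ZMod d)⁻¹) * cs f N 1 χ =
      (1 : DirichletCharacter ℂ d) ((l : ZMod d)⁻¹) * cs f N 1 (1 : DirichletCharacter ℂ d) +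
        (d.totient : ℂ) * del (fun c => 1 < c ∧ c ≤ Q) f N d l +
        (d.totient : ℂ) * del (fun c => Q < c) f N d l := by
    have h3 : (1 : DirichletCharacter ℂ d) ((l : ZMod d)⁻¹) *
        cs f N 1 (1 : DirichletCharacter ℂ d) =
        ∑ χ : DirichletCharacter ℂ d, if χ = 1 then χ ((l : ZMod d)⁻¹) * cs f N 1 χ else 0 := by
      rw [sum_ite_eq' univ (1 : DirichletCharacter ℂ d), if_pos (mem_univ _)]
    unfold del
    rw [h3, ← mul_assoc, ← mul_assoc, mul_one_div_cancel hφ, one_mul, one_mul, sum_filter,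
      sum_filter, ← sum_add_distrib, ← sum_add_distrib]
    refine sum_congr rfl fun χ _ => ?_
    have h0 := χ.conductor_ne_zero
    have h4 := DirichletCharacter.eq_one_iff_conductor_eq_one (χ := χ)
    by_cases c1 : χ = 1
    · have c2 := h4.1 c1
      rw [if_pos c1, if_neg (by rw [c2]; omega), if_neg (by rw [c2]; omega), add_zero, add_zero]
    · have c2 : χ.conductor ≠ 1 := fun h => c1 (h4.2 h)
      by_cases c3 : Q < χ.conductor
      · rw [if_neg c1, if_neg (by omega), if_pos c3, add_zero, zero_add]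
      · rw [if_neg c1, if_pos (by omega), if_neg c3, add_zero, zero_add]
  rw [h2, Spl_one f N d l hd hl] at h1
  have h5 : cls f N d l = (1 / (d.totient : ℂ)) * ((d.totient : ℂ) * cls f N d l) := by
    rw [← mul_assoc, one_div_mul_cancel hφ, one_mul]
  rw [h5, ← h1, mul_add, mul_add, ← mul_assoc, ← mul_assoc, one_div_mul_cancel hφ, one_mul,
    one_mul]

end Pool.Agent.Lib.BV
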