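import Pool.Agent.Lib.BV.SpecA

/-!
Module Smg: small functions.
-/

namespace Pool.Agent.Lib.BV

open Finset Pool.Agent.Lib.EH3

private theorem Smg_cs (g : ℕ → ℂ) (N d : ℕ) (G : ℝ) (hG : ∑ n ∈ Icc 1 N, ‖g n‖ ≤ G)
    (χ : DirichletCharacter ℂ d) : ‖cs g N 1 χ‖ ≤ G := by
  unfold cs
  refine (norm_sum_le _ _).trans (le_trans ?_ hG)
  refine (Finset.sum_le_sum (g := fun n => ‖g n‖) fun n _ => ?_).trans
    (Finset.sum_le_sum_of_subset_of_nonneg (Finset.filter_subset _ _)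
      fun n _ _ => norm_nonneg _)
  rw [norm_mul]
  exact mul_le_of_le_one_right (norm_nonneg _) (DirichletCharacter.norm_le_one χ _)

private theorem Smg_sum (g : ℕ → ℂ) (N d l Q : ℕ) (G : ℝ) (hG0 : 0 ≤ G)
    (hG : ∑ n ∈ Icc 1 N, ‖g n‖ ≤ G) (s : Finset (DirichletCharacter ℂ d))
    (hs : (s.card : ℝ) ≤ (Q : ℝ) ^ 2) :
    ‖∑ χ ∈ s, χ ((l : ZMod d)⁻¹) * cs g N 1 χ‖ ≤ (Q : ℝ) ^ 2 * G := by
  refine (norm_sum_le _ _).trans ?_
  have h5 : ∀ χ ∈ s, ‖χ ((l : ZMod d)⁻¹) * cs g N 1 χ‖ ≤ G := by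
    intro χ _
    rw [norm_mul]
    calc ‖χ ((l : ZMod d)⁻¹)‖ * ‖cs g N 1 χ‖ ≤ 1 * ‖cs g N 1 χ‖ :=
          mul_le_mul_of_nonneg_right (DirichletCharacter.norm_le_one χ _) (norm_nonneg _)
      _ ≤ G := by
          rw [one_mul]
          exact Smg_cs g N d G hG χ
  refine (Finset.sum_le_card_nsmul _ _ G h5).trans ?_
  rw [nsmul_eq_mul]
  exact mul_le_mul_of_nonneg_right hs hG0

private theorem Smg_del (h2 : CndStmt) (g : ℕ → ℂ) (N d l Q : ℕ) (G : ℝ) (hd : 1 ≤ d)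
    (hG0 : 0 ≤ G) (hG : ∑ n ∈ Icc 1 N, ‖g n‖ ≤ G) :
    ‖del (fun c => 1 < c ∧ c ≤ Q) g N d l‖ ≤ (Q : ℝ) ^ 2 * (G / (d.totient : ℝ)) := by
  unfold del
  rw [norm_mul]
  have h3 : ‖(1 / (d.totient : ℂ))‖ = 1 / (d.totient : ℝ) := by
    rw [norm_div, norm_one, Complex.norm_natCast]
  rw [h3]
  have h7 : (Q : ℝ) ^ 2 * (G / (d.totient : ℝ)) = 1 / (d.totient : ℝ) * ((Q : ℝ) ^ 2 * G) := by
    ring
  rw [h7]
  refine mul_le_mul_of_nonneg_left (Smg_sum g N d l Q G hG0 hG _ ?_) (by positivity)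
  refine le_trans ?_ (h2 d Q hd)
  refine Nat.cast_le.2 (Finset.card_le_card fun χ hχ => ?_)
  have h8 := (@Finset.mem_filter _ _ (_) _ _).1 hχ
  exact (@Finset.mem_filter _ _ (_) _ _).2 h8

theorem tSmg (h1 : SplStmt) (h2 : CndStmt) : SmgStmt := by
  intro g N d l Q E G hd hQ hl hE hG
  have hG0 : 0 ≤ G := le_trans (Finset.sum_nonneg fun n _ => norm_nonneg _) hG
  have hs := h1 g N d l Q hd hl hQ
  have hdel : del (fun c => Q < c) g N d l = cls g N d l -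
      (1 / (d.totient : ℂ)) * ∑ n ∈ (Icc 1 N).filter (fun n => n.Coprime d), g n -
      del (fun c => 1 < c ∧ c ≤ Q) g N d l := by
    rw [hs]
    ring
  have hcls : ‖cls g N d l‖ ≤ E := by
    unfold cls
    exact (norm_sum_le _ _).trans hE
  have hmean : ‖(1 / (d.totient : ℂ)) *
      ∑ n ∈ (Icc 1 N).filter (fun n => n.Coprime d), g n‖ ≤ G / (d.totient : ℝ) := by
    rw [norm_mul, norm_div, norm_one, Complex.norm_natCast]
    have h3 : ‖∑ n ∈ (Icc 1 N).filter (fun n => n.Coprime d), g n‖ ≤ G :=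
      ((norm_sum_le _ _).trans (Finset.sum_le_sum_of_subset_of_nonneg
        (Finset.filter_subset _ _) fun n _ _ => norm_nonneg _)).trans hG
    calc 1 / (d.totient : ℝ) * _ ≤ 1 / (d.totient : ℝ) * G :=
          mul_le_mul_of_nonneg_left h3 (by positivity)
      _ = G / (d.totient : ℝ) := by ring
  have h4 := Smg_del h2 g N d l Q G hd hG0 hG
  rw [hdel]
  have h5 := norm_sub_le (cls g N d l -
      (1 / (d.totient : ℂ)) * ∑ n ∈ (Icc 1 N).filter (fun n => n.Coprime d), g n)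
      (del (fun c => 1 < c ∧ c ≤ Q) g N d l)
  have h6 := norm_sub_le (cls g N d l)
      ((1 / (d.totient : ℂ)) * ∑ n ∈ (Icc 1 N).filter (fun n => n.Coprime d), g n)
  have h7 : E + (1 + (Q : ℝ) ^ 2) * (G / (d.totient : ℝ)) =
      E + G / (d.totient : ℝ) + (Q : ℝ) ^ 2 * (G / (d.totient : ℝ)) := by ring
  rw [h7]
  linarith

end Pool.Agent.Lib.BV
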