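import Pool.Agent.Lib.BV.SpecA

namespace Pool.Agent.Lib.BV

open Finset Pool.Agent.Lib.EH3

private lemma Uni_sum_zmod {q : ℕ} [NeZero q] (f : ZMod q → ℂ) :
    ∑ a : ZMod q, f a = ∑ b ∈ range q, f (b : ZMod q) := by
  refine Finset.sum_nbij' (fun a => a.val) (fun b => (b : ZMod q)) ?_ ?_ ?_ ?_ ?_
  · intro a _
    exact mem_range.mpr (ZMod.val_lt a)
  · intro b _
    exact mem_univ _
  · intro a _
    exact ZMod.natCast_zmod_val a
  · intro b hb
    exact ZMod.val_cast_of_lt (mem_range.mp hb)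
  · intro a _
    rw [ZMod.natCast_zmod_val]

private lemma Uni_card (q : ℕ) :
    (((range q).filter (fun b => b.Coprime q)).card : ℝ) = (q.totient : ℝ) := by
  rw [Nat.totient_eq_card_coprime]
  congr 2
  ext b
  simp only [mem_filter, mem_range]
  rw [Nat.coprime_comm]

private lemma Uni_part (f : ℕ → ℂ) (N d : ℕ) (hd : 1 ≤ d) (h : ZMod d → ℂ) :
    ∑ n ∈ (Icc 1 N).filter (fun n => n.Coprime d), f n * h (n : ZMod d) =
      ∑ l ∈ (range d).filter (fun b => b.Coprime d), h (l : ZMod d) * cls f N d l := by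
  have hmap : ∀ n ∈ (Icc 1 N).filter (fun n => n.Coprime d),
      n % d ∈ (range d).filter (fun b => b.Coprime d) := by
    intro n hn
    rw [mem_filter] at hn ⊢
    refine ⟨mem_range.mpr (Nat.mod_lt _ (by omega)), ?_⟩
    have h1 : n % d ≡ n [MOD d] := Nat.mod_modEq n d
    have h2 := h1.gcd_eq
    unfold Nat.Coprime at hn ⊢
    rw [h2]
    exact hn.2
  rw [← Finset.sum_fiberwise_of_maps_to hmap]
  refine Finset.sum_congr rfl fun l hl => ?_
  obtain ⟨hl1, hl2⟩ := mem_filter.mp hl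
  rw [mem_range] at hl1
  unfold cls
  rw [Finset.mul_sum]
  have hset : ((Icc 1 N).filter (fun n => n.Coprime d)).filter (fun n => n % d = l) =
      (Icc 1 N).filter (fun n => n ≡ l [MOD d]) := by
    ext n
    simp only [mem_filter]
    constructor
    · rintro ⟨⟨h1, _⟩, h3⟩
      refine ⟨h1, ?_⟩
      unfold Nat.ModEq
      rw [h3, Nat.mod_eq_of_lt hl1]
    · rintro ⟨h1, h2⟩
      refine ⟨⟨h1, ?_⟩, ?_⟩
      · have := h2.gcd_eq
        unfold Nat.Coprime at hl2 ⊢
        rw [this]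
        exact hl2
      · unfold Nat.ModEq at h2
        rw [h2, Nat.mod_eq_of_lt hl1]
  rw [hset]
  refine Finset.sum_congr rfl fun n hn => ?_
  have h1 : (n : ZMod d) = (l : ZMod d) :=
    (ZMod.natCast_eq_natCast_iff n l d).mpr (mem_filter.mp hn).2
  rw [h1, mul_comm]

private lemma Uni_cs (f : ℕ → ℂ) (N d : ℕ) (hd : 1 ≤ d) (χ : DirichletCharacter ℂ d) :
    cs f N 1 χ = ∑ l ∈ (range d).filter (fun b => b.Coprime d), χ (l : ZMod d) * cls f N d l := by
  rw [← Uni_part f N d hd (fun a => χ a)]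
  unfold cs
  have h1 : (Icc 1 N).filter (fun n => n.Coprime 1) = Icc 1 N := by
    refine Finset.filter_true_of_mem fun n _ => Nat.coprime_one_right n
  rw [h1, Finset.sum_filter]
  refine Finset.sum_congr rfl fun n _ => ?_
  split_ifs with h
  · rfl
  · rw [MulChar.map_nonunit, mul_zero]
    rwa [ZMod.isUnit_iff_coprime]

private lemma Uni_char_sum {d : ℕ} (hd : 1 ≤ d) (χ : DirichletCharacter ℂ d) (hχ : χ ≠ 1) :
    ∑ l ∈ (range d).filter (fun b => b.Coprime d), χ (l : ZMod d) = 0 := by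
  have : NeZero d := ⟨by omega⟩
  have h0 : ∑ a : ZMod d, χ a = 0 := MulChar.sum_eq_zero_of_ne_one hχ
  rw [Uni_sum_zmod] at h0
  rw [← h0, Finset.sum_filter]
  refine Finset.sum_congr rfl fun b _ => ?_
  split_ifs with h
  · rfl
  · rw [MulChar.map_nonunit]
    rwa [ZMod.isUnit_iff_coprime]

private lemma Uni_cs_bound (f : ℕ → ℂ) (N d : ℕ) (E : ℝ) (hd : 1 ≤ d)
    (hE : ∀ l₁ l₂ : ℕ, l₁.Coprime d → l₂.Coprime d → ‖cls f N d l₁ - cls f N d l₂‖ ≤ E)
    (χ : DirichletCharacter ℂ d) (hχ : χ ≠ 1) :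
    ‖cs f N 1 χ‖ ≤ (d.totient : ℝ) * E := by
  have h1 : cs f N 1 χ = ∑ l ∈ (range d).filter (fun b => b.Coprime d),
      χ (l : ZMod d) * (cls f N d l - cls f N d 1) := by
    rw [Uni_cs f N d hd χ]
    have h2 := Uni_char_sum hd χ hχ
    have h3 : ∑ l ∈ (range d).filter (fun b => b.Coprime d),
      χ (l : ZMod d) * (cls f N d l - cls f N d 1) =
      ∑ l ∈ (range d).filter (fun b => b.Coprime d), χ (l : ZMod d) * cls f N d l -
      (∑ l ∈ (range d).filter (fun b => b.Coprime d), χ (l : ZMod d)) * cls f N d 1 := by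
      rw [Finset.sum_mul, ← Finset.sum_sub_distrib]
      exact Finset.sum_congr rfl fun l _ => by ring
    rw [h3, h2, zero_mul, sub_zero]
  rw [h1]
  refine (norm_sum_le _ _).trans ?_
  have h4 : ∀ l ∈ (range d).filter (fun b => b.Coprime d),
      ‖χ (l : ZMod d) * (cls f N d l - cls f N d 1)‖ ≤ E := by
    intro l hl
    rw [norm_mul]
    have h5 : ‖χ (l : ZMod d)‖ ≤ 1 := DirichletCharacter.norm_le_one χ _
    have h6 := hE l 1 (mem_filter.mp hl).2 (Nat.coprime_one_left d)
    calc ‖χ (l : ZMod d)‖ * ‖cls f N d l - cls f N d 1‖ ≤ 1 * ‖cls f N d l - cls f N d 1‖ :=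
          mul_le_mul_of_nonneg_right h5 (norm_nonneg _)
      _ ≤ E := by rw [one_mul]; exact h6
  refine (Finset.sum_le_card_nsmul _ _ _ h4).trans (le_of_eq ?_)
  rw [nsmul_eq_mul, Uni_card]

theorem tUni (h1 : SplStmt) (h2 : CndStmt) : UniStmt := by
  intro f N d l Q E hd hQ hl hE
  have hφ : (0 : ℝ) < (d.totient : ℝ) := by exact_mod_cast Nat.totient_pos.mpr (by omega)
  have hφC : (d.totient : ℂ) ≠ 0 := by
    have : d.totient ≠ 0 := by
      have := Nat.totient_pos.mpr (show 0 < d by omega)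
      omega
    exact_mod_cast this
  have hE0 : 0 ≤ E := (norm_nonneg _).trans (hE l l hl hl)
  have hspl := h1 f N d l Q hd hl hQ
  have hmean : ∑ n ∈ (Icc 1 N).filter (fun n => n.Coprime d), f n =
      ∑ l ∈ (range d).filter (fun b => b.Coprime d), cls f N d l := by
    have := Uni_part f N d hd (fun _ => 1)
    simpa using this
  have hfirst : ‖cls f N d l - (1 / (d.totient : ℂ)) *
      ∑ n ∈ (Icc 1 N).filter (fun n => n.Coprime d), f n‖ ≤ E := by
    have e1 : cls f N d l - (1 / (d.totient : ℂ)) *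
        ∑ n ∈ (Icc 1 N).filter (fun n => n.Coprime d), f n =
        (1 / (d.totient : ℂ)) * ∑ l' ∈ (range d).filter (fun b => b.Coprime d),
          (cls f N d l - cls f N d l') := by
      rw [hmean, Finset.sum_sub_distrib, Finset.sum_const, nsmul_eq_mul]
      have hc : (((range d).filter (fun b => b.Coprime d)).card : ℂ) = (d.totient : ℂ) := by
        exact_mod_cast Uni_card d
      rw [hc]
      field_simp
    rw [e1, norm_mul]
    have e2 : ‖(1 / (d.totient : ℂ))‖ = 1 / (d.totient : ℝ) := by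
      rw [norm_div, norm_one, Complex.norm_natCast]
    rw [e2]
    have e3 : ‖∑ l' ∈ (range d).filter (fun b => b.Coprime d), (cls f N d l - cls f N d l')‖ ≤
        (d.totient : ℝ) * E := by
      refine (norm_sum_le _ _).trans ?_
      refine (Finset.sum_le_card_nsmul _ _ E fun l' hl' => hE l l' hl (mem_filter.mp hl').2).trans
        (le_of_eq ?_)
      rw [nsmul_eq_mul, Uni_card]
    calc 1 / (d.totient : ℝ) * ‖∑ l' ∈ (range d).filter (fun b => b.Coprime d),
          (cls f N d l - cls f N d l')‖ ≤ 1 / (d.totient : ℝ) * ((d.totient : ℝ) * E) :=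
          mul_le_mul_of_nonneg_left e3 (by positivity)
      _ = E := by field_simp
  have hdel : del (fun c => 1 < c ∧ c ≤ Q) f N d l = (1 / (d.totient : ℂ)) *
      ∑ χ ∈ Finset.univ.filter
        (fun χ : DirichletCharacter ℂ d => 1 < χ.conductor ∧ χ.conductor ≤ Q),
        χ ((l : ZMod d)⁻¹) * cs f N 1 χ := by
    unfold del
    congr 1
    refine Finset.sum_congr ?_ fun _ _ => rfl
    ext χ
    simp only [mem_filter]
  have hsecond : ‖del (fun c => 1 < c ∧ c ≤ Q) f N d l‖ ≤ (Q : ℝ) ^ 2 * E := by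
    rw [hdel, norm_mul]
    have e2 : ‖(1 / (d.totient : ℂ))‖ = 1 / (d.totient : ℝ) := by
      rw [norm_div, norm_one, Complex.norm_natCast]
    rw [e2]
    have hcard := h2 d Q hd
    set s := Finset.univ.filter
      (fun χ : DirichletCharacter ℂ d => 1 < χ.conductor ∧ χ.conductor ≤ Q) with hs
    have hbound : ‖∑ χ ∈ s, χ ((l : ZMod d)⁻¹) * cs f N 1 χ‖ ≤
        (s.card : ℝ) * ((d.totient : ℝ) * E) := by
      refine (norm_sum_le _ _).trans ?_
      refine (Finset.sum_le_card_nsmul _ _ ((d.totient : ℝ) * E) fun χ hχ => ?_).trans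
        (le_of_eq ?_)
      · rw [norm_mul]
        have hχ1 : χ ≠ 1 := by
          intro h
          have h3 := (mem_filter.mp hχ).2
          rw [h] at h3
          have : NeZero d := ⟨by omega⟩
          have h4 : (1 : DirichletCharacter ℂ d).conductor = 1 :=
            DirichletCharacter.conductor_one
          rw [h4] at h3
          omega
        have h5 := Uni_cs_bound f N d E hd hE χ hχ1
        have h6 : ‖χ ((l : ZMod d)⁻¹)‖ ≤ 1 := DirichletCharacter.norm_le_one χ _
        calc ‖χ ((l : ZMod d)⁻¹)‖ * ‖cs f N 1 χ‖ ≤ 1 * ‖cs f N 1 χ‖ :=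
              mul_le_mul_of_nonneg_right h6 (norm_nonneg _)
          _ ≤ _ := by rw [one_mul]; exact h5
      · rw [nsmul_eq_mul]
    calc 1 / (d.totient : ℝ) * ‖∑ χ ∈ s, χ ((l : ZMod d)⁻¹) * cs f N 1 χ‖ ≤
        1 / (d.totient : ℝ) * ((s.card : ℝ) * ((d.totient : ℝ) * E)) :=
          mul_le_mul_of_nonneg_left hbound (by positivity)
      _ = (s.card : ℝ) * E := by field_simp
      _ ≤ _ := mul_le_mul_of_nonneg_right hcard hE0
  have hfinal : del (fun c => Q < c) f N d l = (cls f N d l - (1 / (d.totient : ℂ)) *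
      ∑ n ∈ (Icc 1 N).filter (fun n => n.Coprime d), f n) -
      del (fun c => 1 < c ∧ c ≤ Q) f N d l := by
    rw [hspl]
    ring
  rw [hfinal]
  refine (norm_sub_le _ _).trans ?_
  linarith

end Pool.Agent.Lib.BV
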