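import Pool.Agent.Lib.BV.SpecH

/-!
MP_00e23e_nt, BV, module Uns: from the smoothed sums to the sums.
-/

namespace Pool.Agent.Lib.BV

open Finset

theorem Uns_log_lower {δ : ℝ} (h0 : 0 < δ) (h1 : δ ≤ 1) : δ / 2 ≤ Real.log (1 + δ) := by
  have h2 : 1 - (1 + δ)⁻¹ ≤ Real.log (1 + δ) := Real.one_sub_inv_le_log_of_pos (by linarith)
  have h3 : δ / 2 ≤ 1 - (1 + δ)⁻¹ := by
    have h4 : (1 + δ)⁻¹ * (1 + δ) = 1 := inv_mul_cancel₀ (by linarith)
    have h5 : 0 < (1 + δ)⁻¹ := by positivity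
    nlinarith
  linarith

/-- the difference of two smoothed sums -/
theorem Uns_diff (c : ℕ → ℂ) {u v : ℝ} (hu : 1 ≤ u) (huv : u ≤ v) :
    ∑ n ∈ Icc 1 ⌊v⌋₊, c n * ((Real.log (v / n) : ℝ) : ℂ) -
      ∑ n ∈ Icc 1 ⌊u⌋₊, c n * ((Real.log (u / n) : ℝ) : ℂ) =
    (∑ n ∈ Icc 1 ⌊u⌋₊, c n) * ((Real.log (v / u) : ℝ) : ℂ) +
      ∑ n ∈ Ioc ⌊u⌋₊ ⌊v⌋₊, c n * ((Real.log (v / n) : ℝ) : ℂ) := by
  have hfl : ⌊u⌋₊ ≤ ⌊v⌋₊ := Nat.floor_mono huv
  have h1 : Icc 1 ⌊v⌋₊ = Icc 1 ⌊u⌋₊ ∪ Ioc ⌊u⌋₊ ⌊v⌋₊ := by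
    ext n
    simp only [mem_union, mem_Icc, mem_Ioc]
    have : 1 ≤ ⌊u⌋₊ := (Nat.one_le_floor_iff u).2 hu
    omega
  have h2 : Disjoint (Icc 1 ⌊u⌋₊) (Ioc ⌊u⌋₊ ⌊v⌋₊) := by
    rw [Finset.disjoint_left]
    intro n hn hn2
    simp only [mem_Icc, mem_Ioc] at hn hn2
    omega
  rw [h1, sum_union h2, sum_mul]
  have h3 : ∑ n ∈ Icc 1 ⌊u⌋₊, c n * ((Real.log (v / n) : ℝ) : ℂ) =
      ∑ n ∈ Icc 1 ⌊u⌋₊, c n * ((Real.log (u / n) : ℝ) : ℂ) +
        ∑ n ∈ Icc 1 ⌊u⌋₊, c n * ((Real.log (v / u) : ℝ) : ℂ) := by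
    rw [← sum_add_distrib]
    refine sum_congr rfl fun n hn => ?_
    rw [mem_Icc] at hn
    have hn0 : (0 : ℝ) < n := by exact_mod_cast hn.1
    rw [← mul_add, ← Complex.ofReal_add]
    congr 2
    rw [Real.log_div (by linarith) hn0.ne', Real.log_div (by linarith) hn0.ne',
      Real.log_div (by linarith) (by linarith)]
    ring
  rw [h3]
  ring

theorem Uns_tail (c : ℕ → ℂ) {i : ℕ} (hc : ∀ n : ℕ, ‖c n‖ ≤ (1 + Real.log n) ^ (2 * i))
    {u v : ℝ} (hu : 1 ≤ u) (huv : u ≤ v) :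
    ‖∑ n ∈ Ioc ⌊u⌋₊ ⌊v⌋₊, c n * ((Real.log (v / n) : ℝ) : ℂ)‖ ≤
      (v - u + 1) * ((1 + Real.log v) ^ (2 * i) * Real.log (v / u)) := by
  have hv : 1 ≤ v := hu.trans huv
  have hlog : 0 ≤ Real.log (v / u) := Real.log_nonneg (by rw [le_div_iff₀ (by linarith)]; linarith)
  have hlogv : 0 ≤ Real.log v := Real.log_nonneg hv
  have h1 : ∀ n ∈ Ioc ⌊u⌋₊ ⌊v⌋₊, ‖c n * ((Real.log (v / n) : ℝ) : ℂ)‖ ≤
      (1 + Real.log v) ^ (2 * i) * Real.log (v / u) := by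
    intro n hn
    rw [mem_Ioc] at hn
    have hnu : u < n := (Nat.floor_lt (by linarith)).1 hn.1
    have hnv : (n : ℝ) ≤ v := (Nat.le_floor_iff (by linarith)).1 hn.2
    have hn0 : (0 : ℝ) < n := by linarith
    rw [norm_mul, Complex.norm_real, Real.norm_eq_abs]
    have h2 : 0 ≤ Real.log (v / n) := Real.log_nonneg (by rw [le_div_iff₀ hn0]; linarith)
    rw [abs_of_nonneg h2]
    have h3 : Real.log (v / n) ≤ Real.log (v / u) := by
      apply Real.log_le_log (by positivity)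
      exact div_le_div_of_nonneg_left (by linarith) (by linarith) hnu.le
    have h4 : (1 + Real.log n) ^ (2 * i) ≤ (1 + Real.log v) ^ (2 * i) := by
      apply pow_le_pow_left₀
      · have : 0 ≤ Real.log (n : ℝ) := Real.log_nonneg (by linarith)
        linarith
      · have := Real.log_le_log hn0 hnv
        linarith
    exact mul_le_mul ((hc n).trans h4) h3 h2 (by positivity)
  refine (norm_sum_le _ _).trans ((sum_le_sum h1).trans ?_)
  rw [sum_const, nsmul_eq_mul, Nat.card_Ioc]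
  apply mul_le_mul_of_nonneg_right _ (by positivity)
  rw [Nat.cast_sub (Nat.floor_mono huv)]
  have h5 : (⌊v⌋₊ : ℝ) ≤ v := Nat.floor_le (by linarith)
  have h6 : u < (⌊u⌋₊ : ℝ) + 1 := Nat.lt_floor_add_one u
  linarith

theorem tUns : UnsStmt := by
  intro i
  refine ⟨6 + 4 ^ i * (1 + i.factorial * Real.exp 1), by positivity, ?_⟩
  intro c K hK hc hW u hu
  have hlogu : 0 ≤ Real.log u := Real.log_nonneg hu
  set L : ℝ := 1 + Real.log u with hL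
  have hL1 : 1 ≤ L := by linarith
  have hLi : 1 ≤ L ^ i := one_le_pow₀ hL1
  set δ : ℝ := (L ^ i)⁻¹ with hδ
  have hδ0 : 0 < δ := by positivity
  have hδ1 : δ ≤ 1 := inv_le_one_of_one_le₀ hLi
  have hδL : δ * L ^ i = 1 := inv_mul_cancel₀ (by positivity)
  set v : ℝ := u * (1 + δ) with hv
  have huv : u ≤ v := by rw [hv]; nlinarith
  have hv2 : v ≤ 2 * u := by rw [hv]; nlinarith
  have hv1 : 1 ≤ v := hu.trans huv
  have hvu : v / u = 1 + δ := by rw [hv]; field_simp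
  have hlogδ : δ / 2 ≤ Real.log (1 + δ) := Uns_log_lower hδ0 hδ1
  have hlogpos : 0 < Real.log (1 + δ) := by linarith
  have hdiff := Uns_diff c hu huv
  have htail := Uns_tail c hc hu huv
  rw [hvu] at hdiff htail
  have hlogv : 1 + Real.log v ≤ 2 * L := by
    have h1 : Real.log v ≤ Real.log (2 * u) := Real.log_le_log (by linarith) hv2
    have h2 : Real.log (2 * u) = Real.log 2 + Real.log u :=
      Real.log_mul (by norm_num) (ne_of_gt (by linarith))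
    rw [h2] at h1
    have := Real.log_two_lt_d9
    linarith
  have hlogv0 : 0 ≤ Real.log v := Real.log_nonneg hv1
  have hpow : (1 + Real.log v) ^ (2 * i) ≤ 4 ^ i * (L ^ i * L ^ i) := by
    calc (1 + Real.log v) ^ (2 * i) ≤ (2 * L) ^ (2 * i) := pow_le_pow_left₀ (by linarith) hlogv _
      _ = 4 ^ i * (L ^ i * L ^ i) := by
        rw [mul_pow, pow_mul, pow_mul, ← mul_pow L L i, pow_two L]
        norm_num
  have hexp : L ^ i ≤ i.factorial * Real.exp 1 * u := by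
    have h1 := Real.pow_div_factorial_le_exp (x := L) (by linarith) i
    rw [div_le_iff₀ (by positivity)] at h1
    rw [hL, Real.exp_add, Real.exp_log (by linarith)] at h1
    calc L ^ i ≤ Real.exp 1 * u * i.factorial := h1
      _ = i.factorial * Real.exp 1 * u := by ring
  -- the main inequality
  have h1 : ‖∑ n ∈ Icc 1 ⌊u⌋₊, c n‖ * Real.log (1 + δ) ≤
      K * v + K * u + (v - u + 1) * ((1 + Real.log v) ^ (2 * i) * Real.log (1 + δ)) := by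
    have h2 : ‖∑ n ∈ Icc 1 ⌊u⌋₊, c n‖ * Real.log (1 + δ) =
        ‖(∑ n ∈ Icc 1 ⌊u⌋₊, c n) * ((Real.log (1 + δ) : ℝ) : ℂ)‖ := by
      rw [norm_mul, Complex.norm_real, Real.norm_eq_abs, abs_of_pos hlogpos]
    have h3 : (∑ n ∈ Icc 1 ⌊u⌋₊, c n) * ((Real.log (1 + δ) : ℝ) : ℂ) =
        (∑ n ∈ Icc 1 ⌊v⌋₊, c n * ((Real.log (v / n) : ℝ) : ℂ) -
          ∑ n ∈ Icc 1 ⌊u⌋₊, c n * ((Real.log (u / n) : ℝ) : ℂ)) -
        ∑ n ∈ Ioc ⌊u⌋₊ ⌊v⌋₊, c n * ((Real.log (v / n) : ℝ) : ℂ) := by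
      rw [hdiff]; ring
    rw [h2, h3]
    have h4 := norm_sub_le (∑ n ∈ Icc 1 ⌊v⌋₊, c n * ((Real.log (v / n) : ℝ) : ℂ) -
          ∑ n ∈ Icc 1 ⌊u⌋₊, c n * ((Real.log (u / n) : ℝ) : ℂ))
        (∑ n ∈ Ioc ⌊u⌋₊ ⌊v⌋₊, c n * ((Real.log (v / n) : ℝ) : ℂ))
    have h5 := norm_sub_le (∑ n ∈ Icc 1 ⌊v⌋₊, c n * ((Real.log (v / n) : ℝ) : ℂ))
        (∑ n ∈ Icc 1 ⌊u⌋₊, c n * ((Real.log (u / n) : ℝ) : ℂ))
    have h6 := hW v hv1
    have h7 := hW u hu
    linarith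
  have h2 : v - u = u * δ := by rw [hv]; ring
  -- divide by the logarithm
  have h3 : ‖∑ n ∈ Icc 1 ⌊u⌋₊, c n‖ ≤
      6 * K * u * L ^ i + (u * δ + 1) * (4 ^ i * (L ^ i * L ^ i)) := by
    by_contra hcon
    rw [not_le] at hcon
    have h4 : (6 * K * u * L ^ i + (u * δ + 1) * (4 ^ i * (L ^ i * L ^ i))) * Real.log (1 + δ) <
        ‖∑ n ∈ Icc 1 ⌊u⌋₊, c n‖ * Real.log (1 + δ) := mul_lt_mul_of_pos_right hcon hlogpos
    have h5 : K * v + K * u ≤ 6 * K * u * L ^ i * Real.log (1 + δ) := by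
      have h6 : 6 * K * u * L ^ i * (δ / 2) ≤ 6 * K * u * L ^ i * Real.log (1 + δ) :=
        mul_le_mul_of_nonneg_left hlogδ (by positivity)
      have h7 : 6 * K * u * L ^ i * (δ / 2) = 3 * K * u * (δ * L ^ i) := by ring
      rw [h7, hδL] at h6
      nlinarith
    have h8 : (v - u + 1) * ((1 + Real.log v) ^ (2 * i) * Real.log (1 + δ)) ≤
        (u * δ + 1) * (4 ^ i * (L ^ i * L ^ i)) * Real.log (1 + δ) := by
      rw [h2]
      have h9 : (1 + Real.log v) ^ (2 * i) * Real.log (1 + δ) ≤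
          4 ^ i * (L ^ i * L ^ i) * Real.log (1 + δ) :=
        mul_le_mul_of_nonneg_right hpow hlogpos.le
      calc (u * δ + 1) * ((1 + Real.log v) ^ (2 * i) * Real.log (1 + δ)) ≤
          (u * δ + 1) * (4 ^ i * (L ^ i * L ^ i) * Real.log (1 + δ)) :=
            mul_le_mul_of_nonneg_left h9 (by positivity)
        _ = _ := by ring
    have h10 : (6 * K * u * L ^ i + (u * δ + 1) * (4 ^ i * (L ^ i * L ^ i))) * Real.log (1 + δ) =
        6 * K * u * L ^ i * Real.log (1 + δ) +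
          (u * δ + 1) * (4 ^ i * (L ^ i * L ^ i)) * Real.log (1 + δ) := by ring
    linarith
  have h4 : (u * δ + 1) * (4 ^ i * (L ^ i * L ^ i)) ≤
      4 ^ i * (1 + i.factorial * Real.exp 1) * (u * L ^ i) := by
    have h5 : (u * δ + 1) * (4 ^ i * (L ^ i * L ^ i)) =
        4 ^ i * (u * (δ * L ^ i) * L ^ i + L ^ i * L ^ i) := by ring
    rw [h5, hδL]
    have h6 : L ^ i * L ^ i ≤ i.factorial * Real.exp 1 * u * L ^ i :=
      mul_le_mul_of_nonneg_right hexp (by positivity)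
    have h7 : 4 ^ i * (1 + i.factorial * Real.exp 1) * (u * L ^ i) =
        4 ^ i * (u * 1 * L ^ i + i.factorial * Real.exp 1 * u * L ^ i) := by ring
    rw [h7]
    exact mul_le_mul_of_nonneg_left (by linarith) (by positivity)
  have h5 : 0 ≤ u * L ^ i := by positivity
  have h6 : (0 : ℝ) ≤ 4 ^ i * (1 + i.factorial * Real.exp 1) := by positivity
  calc ‖∑ n ∈ Icc 1 ⌊u⌋₊, c n‖ ≤ 6 * K * u * L ^ i + (u * δ + 1) * (4 ^ i * (L ^ i * L ^ i)) := h3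
    _ ≤ 6 * K * (u * L ^ i) + 4 ^ i * (1 + i.factorial * Real.exp 1) * (u * L ^ i) := by
      have : 6 * K * u * L ^ i = 6 * K * (u * L ^ i) := by ring
      linarith
    _ ≤ (6 + 4 ^ i * (1 + i.factorial * Real.exp 1)) * (K + 1) * (u * L ^ i) := by
      have h7 : (6 + 4 ^ i * (1 + i.factorial * Real.exp 1)) * (K + 1) * (u * L ^ i) =
          6 * K * (u * L ^ i) + 4 ^ i * (1 + i.factorial * Real.exp 1) * (u * L ^ i) +
          (6 * (u * L ^ i) + 4 ^ i * (1 + i.factorial * Real.exp 1) * (K * (u * L ^ i))) := by ring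
      rw [h7]
      have h8 : 0 ≤ 6 * (u * L ^ i) +
          4 ^ i * (1 + i.factorial * Real.exp 1) * (K * (u * L ^ i)) := by positivity
      linarith

end Pool.Agent.Lib.BV
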