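import Pool.Agent.Lib.BV.SpecB

/-!
MP_00e23e_nt, Lib/BV, module Apc: integers in progressions.
-/

namespace Pool.Agent.Lib.BV

open Finset Pool.Agent.Lib.EH3

theorem Apc_card (a b m v : ℕ) (hm : 0 < m) (hab : a ≤ b) :
    |(((Ioc a b).filter (fun n => n ≡ v [MOD m])).card : ℝ) - ((b : ℝ) - a) / m| ≤ 1 := by
  have h := Nat.Ioc_filter_modEq_card a b hm v
  have hm' : (0 : ℚ) < m := by exact_mod_cast hm
  have hab' : (a : ℚ) ≤ b := by exact_mod_cast hab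
  have h1 := Int.floor_le (((b : ℚ) - v) / m)
  have h2 := Int.lt_floor_add_one (((b : ℚ) - v) / m)
  have h3 := Int.floor_le (((a : ℚ) - v) / m)
  have h4 := Int.lt_floor_add_one (((a : ℚ) - v) / m)
  have h5 : ⌊((a : ℚ) - v) / m⌋ ≤ ⌊((b : ℚ) - v) / m⌋ := by
    apply Int.floor_le_floor
    gcongr
  rw [max_eq_left (by omega)] at h
  have h6 : ((((Ioc a b).filter (fun n => n ≡ v [MOD m])).card : ℤ) : ℚ) =
      (⌊((b : ℚ) - v) / m⌋ : ℚ) - (⌊((a : ℚ) - v) / m⌋ : ℚ) := by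
    rw [h]
    push_cast
    ring
  have h7 : ((b : ℚ) - v) / m - ((a : ℚ) - v) / m = ((b : ℚ) - a) / m := by
    rw [← sub_div]
    congr 1
    ring
  have h8 : |((((Ioc a b).filter (fun n => n ≡ v [MOD m])).card : ℚ)) - ((b : ℚ) - a) / m| ≤
      1 := by
    rw [abs_le, ← h7]
    push_cast at h6
    rw [h6]
    constructor <;> linarith
  have h9 := (Rat.cast_le (K := ℝ)).2 h8
  push_cast at h9
  exact h9

theorem tApc : ApcStmt := by
  refine ⟨?_, ?_, ?_⟩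
  · intro N d l k hd hk hkd
    obtain ⟨x, hx1, hx2⟩ := Nat.chineseRemainder hkd.symm l 0
    have h1 : (Icc 1 N).filter (fun n => n ≡ l [MOD d] ∧ k ∣ n) =
        (Ioc 0 N).filter (fun n => n ≡ x [MOD d * k]) := by
      ext n
      simp only [Finset.mem_filter, Finset.mem_Icc, Finset.mem_Ioc]
      have h2 : n ≡ x [MOD d * k] ↔ n ≡ l [MOD d] ∧ k ∣ n := by
        rw [← Nat.modEq_and_modEq_iff_modEq_mul hkd.symm]
        constructor
        · rintro ⟨h3, h4⟩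
          exact ⟨h3.trans hx1, (Nat.modEq_zero_iff_dvd).1 (h4.trans hx2)⟩
        · rintro ⟨h3, h4⟩
          exact ⟨h3.trans hx1.symm, ((Nat.modEq_zero_iff_dvd).2 h4).trans hx2.symm⟩
      rw [h2]
      constructor
      · rintro ⟨⟨h3, h4⟩, h5⟩
        exact ⟨⟨by omega, h4⟩, h5⟩
      · rintro ⟨⟨h3, h4⟩, h5⟩
        exact ⟨⟨by omega, h4⟩, h5⟩
    rw [h1]
    have h3 := Apc_card 0 N (d * k) x (Nat.mul_pos hd hk) (Nat.zero_le N)
    push_cast at h3
    rwa [sub_zero] at h3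
  · intro N d l k hd hl hkd
    rw [Finset.filter_eq_empty_iff]
    rintro n - ⟨h1, h2⟩
    obtain ⟨p, hp, hpk, hpd⟩ := Nat.Prime.not_coprime_iff_dvd.1 hkd
    have h3 : p ∣ l := (Nat.ModEq.dvd_iff h1 hpd).1 (hpk.trans h2)
    exact (Nat.Prime.not_coprime_iff_dvd.2 ⟨p, hp, h3, hpd⟩) hl
  · intro N N' d l hd hN
    have h1 := (abs_le.1 (Apc_card N N' d l hd hN)).2
    linarith

end Pool.Agent.Lib.BV
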