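import Pool.Agent.Lib.BV.SpecD

/-!
MP_00e23e_nt, Lib/BV, module Asy: asymptotic inequalities.
-/

namespace Pool.Agent.Lib.BV

open Finset Pool.Agent.Lib.EH3

private theorem Asy_main {M : ℝ} (hM : 0 < M) :
    ∃ L0 : ℝ, ∀ L : ℝ, L0 ≤ L → M * Real.log L ≤ Real.sqrt L ∧ 100 ≤ L := by
  have h := (isLittleO_log_rpow_atTop (r := 1 / 2) (by norm_num)).bound
    (c := 1 / M) (by positivity)
  obtain ⟨L0, hL0⟩ :=
    (h.and (Filter.eventually_ge_atTop (100 : ℝ))).exists_forall_of_atTop
  refine ⟨L0, fun L hL => ?_⟩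
  obtain ⟨h1, h2⟩ := hL0 L hL
  refine ⟨?_, h2⟩
  have h3 : Real.log L ≤ 1 / M * Real.sqrt L := by
    rw [Real.sqrt_eq_rpow]
    refine le_trans (le_abs_self _) ?_
    rw [Real.norm_eq_abs, Real.norm_eq_abs, abs_of_nonneg (Real.rpow_nonneg (by linarith) _)] at h1
    exact h1
  calc M * Real.log L ≤ M * (1 / M * Real.sqrt L) := mul_le_mul_of_nonneg_left h3 hM.le
    _ = Real.sqrt L := by field_simp

theorem tAsy : AsyStmt := by
  intro A B hA hB
  have hM : 0 < max (400 * A) B := lt_max_of_lt_right hB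
  obtain ⟨L0, hL0⟩ := Asy_main hM
  refine ⟨max 16 (Real.exp L0), le_max_left _ _, fun x hx => ?_⟩
  have hx16 : (16 : ℝ) ≤ x := le_trans (le_max_left _ _) hx
  have hx0 : 0 < x := by linarith
  have hxL : L0 ≤ Real.log x := by
    rw [Real.le_log_iff_exp_le hx0]
    exact le_trans (le_max_right _ _) hx
  obtain ⟨h1, h2⟩ := hL0 _ hxL
  set L := Real.log x with hL
  have hLpos : 0 < L := by linarith
  have hlog : 0 ≤ Real.log L := Real.log_nonneg (by linarith)
  have h400 : 400 * A * Real.log L ≤ Real.sqrt L :=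
    le_trans (mul_le_mul_of_nonneg_right (le_max_left _ _) hlog) h1
  have hBl : B * Real.log L ≤ Real.sqrt L :=
    le_trans (mul_le_mul_of_nonneg_right (le_max_right _ _) hlog) h1
  have hexp : L ^ B ≤ Real.exp (Real.sqrt L) := by
    rw [Real.rpow_def_of_pos hLpos]
    apply Real.exp_le_exp.mpr
    rw [mul_comm]
    exact hBl
  refine ⟨?_, hexp, ?_, h2⟩
  · intro K0 hK hKA
    have h3 : Real.log K0 ≤ A * Real.log L := by
      rw [← Real.log_rpow hLpos]
      exact Real.log_le_log (by linarith) hKA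
    nlinarith
  · refine le_trans hexp ?_
    rw [Real.rpow_def_of_pos hx0]
    apply Real.exp_le_exp.mpr
    rw [← hL]
    have h4 : Real.sqrt L ≤ L * (1 / 8) := by
      rw [Real.sqrt_le_left (by positivity)]
      nlinarith
    exact h4

end Pool.Agent.Lib.BV
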