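import Pool.Agent.Lib.BV.SpecA

/-!
MP_00e23e_nt, module Bil: the bilinear large sieve, sum over dyadic blocks.
-/

namespace Pool.Agent.Lib.BV

open Finset Pool.Agent.Lib.EH3

/-- abstract dyadic summation -/
private lemma Bil_dyadic (F : ℕ → ℝ) (R : ℕ) (A P S : ℝ) (hA : 0 ≤ A) (hP : 0 ≤ P) (hS : 0 ≤ S)
    (h : ∀ Q1 R1 : ℕ, 1 ≤ Q1 → R1 ≤ 2 * Q1 →
      ∑ q ∈ Ioc Q1 R1, F q ≤ 20 * A * (P / Q1 + 2 * S + 2 * R1)) (n : ℕ) :
    ∀ Q0 : ℕ, R - Q0 ≤ n → 1 ≤ Q0 → Q0 < R →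
      ∑ q ∈ Ioc Q0 R, F q ≤ 20 * A * (2 * P / Q0 +
        2 * S * (1 + (Real.log R - Real.log Q0) / Real.log 2) + (6 * R - 4 * Q0)) := by
  have hl2 : 0 < Real.log 2 := Real.log_pos (by norm_num)
  induction n with
  | zero =>
    intro Q0 h1 _ h3
    omega
  | succ n ih =>
    intro Q0 h1 h2 h3
    have hQ0 : (1 : ℝ) ≤ (Q0 : ℝ) := by exact_mod_cast h2
    have hR0 : (Q0 : ℝ) < (R : ℝ) := by exact_mod_cast h3
    have hlog : Real.log (Q0 : ℝ) ≤ Real.log (R : ℝ) :=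
      Real.log_le_log (by linarith) hR0.le
    by_cases hc : R ≤ 2 * Q0
    · refine (h Q0 R h2 hc).trans ?_
      refine mul_le_mul_of_nonneg_left ?_ (by positivity)
      have e1 : P / (Q0 : ℝ) ≤ 2 * P / (Q0 : ℝ) := by
        refine div_le_div_of_nonneg_right (by linarith) (by linarith)
      have e2 : 0 ≤ (Real.log (R : ℝ) - Real.log (Q0 : ℝ)) / Real.log 2 :=
        div_nonneg (by linarith) hl2.le
      have e3 : 0 ≤ S * ((Real.log (R : ℝ) - Real.log (Q0 : ℝ)) / Real.log 2) :=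
        mul_nonneg hS e2
      nlinarith [e1, e3, hR0]
    · have hc' : 2 * Q0 < R := by omega
      have i1 := ih (2 * Q0) (by omega) (by omega) hc'
      have b1 := h Q0 (2 * Q0) h2 le_rfl
      have hsplit : ∑ q ∈ Ioc Q0 R, F q = ∑ q ∈ Ioc Q0 (2 * Q0), F q + ∑ q ∈ Ioc (2 * Q0) R, F q := by
        rw [← Finset.sum_Ioc_consecutive _ (by omega : Q0 ≤ 2 * Q0) hc'.le]
      rw [hsplit]
      refine (add_le_add b1 i1).trans (le_of_eq ?_)
      have hlm : Real.log ((2 * Q0 : ℕ) : ℝ) = Real.log 2 + Real.log (Q0 : ℝ) := by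
        push_cast
        rw [Real.log_mul (by norm_num) (by linarith)]
      rw [hlm]
      push_cast
      have hQne : (Q0 : ℝ) ≠ 0 := by linarith
      field_simp
      ring

theorem tBil (h : BlkStmt) : BilStmt := by
  intro Q0 R M N e a b hQ0
  have hA : 0 ≤ nrm a M * nrm b N := mul_nonneg (Real.sqrt_nonneg _) (Real.sqrt_nonneg _)
  have hP : 0 ≤ Real.sqrt ((M : ℝ) * N) := Real.sqrt_nonneg _
  have hS : 0 ≤ Real.sqrt M + Real.sqrt N := add_nonneg (Real.sqrt_nonneg _) (Real.sqrt_nonneg _)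
  set A := nrm a M * nrm b N with hAdef
  set P := Real.sqrt ((M : ℝ) * N) with hPdef
  set S := Real.sqrt M + Real.sqrt N with hSdef
  have hQ0r : (1 : ℝ) ≤ (Q0 : ℝ) := by exact_mod_cast hQ0
  rcases le_or_gt R Q0 with hR | hR
  · rw [Finset.Ioc_eq_empty_of_le hR, Finset.sum_empty]
    have hl : 0 ≤ Real.log (R : ℝ) := Real.log_natCast_nonneg R
    have hPQ : 0 ≤ P / (Q0 : ℝ) := div_nonneg hP (by linarith)
    have hRr : (0 : ℝ) ≤ (R : ℝ) := Nat.cast_nonneg R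
    have h2 : 0 ≤ S * (1 + Real.log (R : ℝ)) := mul_nonneg hS (by linarith)
    exact mul_nonneg (by linarith) (by linarith)
  · have key := Bil_dyadic
      (fun q => (1 / (q.totient : ℝ)) * ∑ χ ∈ prim q, ‖cs a M e χ‖ * ‖cs b N e χ‖) R A P S hA hP hS
      (fun Q1 R1 h1 h2 => h Q1 R1 M N e a b h1 h2) (R - Q0) Q0 le_rfl hQ0 hR
    refine key.trans ?_
    have hl2 : 0 < Real.log 2 := Real.log_pos (by norm_num)
    have hl2' : (0.6931471803 : ℝ) < Real.log 2 := Real.log_two_gt_d9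
    have hRr : (Q0 : ℝ) < (R : ℝ) := by exact_mod_cast hR
    have hlq : 0 ≤ Real.log (Q0 : ℝ) := Real.log_natCast_nonneg Q0
    have hlr : 0 ≤ Real.log (R : ℝ) := Real.log_natCast_nonneg R
    have e1 : (Real.log (R : ℝ) - Real.log (Q0 : ℝ)) / Real.log 2 ≤ 2 * Real.log (R : ℝ) := by
      rw [div_le_iff₀ hl2]
      nlinarith
    have e2 : S * ((Real.log (R : ℝ) - Real.log (Q0 : ℝ)) / Real.log 2) ≤
        S * (2 * Real.log (R : ℝ)) := mul_le_mul_of_nonneg_left e1 hS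
    have e3 : 0 ≤ S * Real.log (R : ℝ) := mul_nonneg hS hlr
    have hPQ : 0 ≤ P / (Q0 : ℝ) := div_nonneg hP (by linarith)
    have e4 : 2 * P / (Q0 : ℝ) = 2 * (P / (Q0 : ℝ)) := by ring
    have e5 : 2 * P / (Q0 : ℝ) + 2 * S * (1 + (Real.log (R : ℝ) - Real.log (Q0 : ℝ)) / Real.log 2) +
        (6 * (R : ℝ) - 4 * (Q0 : ℝ)) ≤ 10 * (P / (Q0 : ℝ) + S * (1 + Real.log (R : ℝ)) + R) := by
      rw [e4]
      nlinarith
    have e6 := mul_le_mul_of_nonneg_left e5 (by linarith : 0 ≤ 20 * A)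
    linarith

end Pool.Agent.Lib.BV
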