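import Pool.Agent.Lib.BV.SpecA

namespace Pool.Agent.Lib.BV

open Finset Pool.Agent.Lib.EH3

private lemma Blk_cs (a : ℕ → ℂ) (M e : ℕ) {q : ℕ} (χ : DirichletCharacter ℂ q) :
    cs a M e χ = ∑ n ∈ Icc 1 M, (if n.Coprime e then a n else 0) * χ (n : ZMod q) := by
  unfold cs
  rw [Finset.sum_filter]
  refine Finset.sum_congr rfl fun n _ => ?_
  split_ifs <;> simp

private lemma Blk_nrm_nonneg (a : ℕ → ℂ) (M : ℕ) : 0 ≤ nrm a M := Real.sqrt_nonneg _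

private lemma Blk_nrm_sq (a : ℕ → ℂ) (M : ℕ) : nrm a M ^ 2 = ∑ n ∈ Icc 1 M, ‖a n‖ ^ 2 := by
  unfold nrm
  exact Real.sq_sqrt (Finset.sum_nonneg fun n _ => by positivity)

private lemma Blk_one (h : LsmStmt) (Q1 R M e : ℕ) (a : ℕ → ℂ) (hQ1 : 1 ≤ Q1) (hR : 1 ≤ R) :
    ∑ q ∈ Ioc Q1 R, (q : ℝ) / (q.totient : ℝ) * ∑ χ ∈ prim q, ‖cs a M e χ‖ ^ 2 ≤
      20 * ((M : ℝ) + (R : ℝ) ^ 2) * nrm a M ^ 2 := by
  have h1 := h R M (fun n => if n.Coprime e then a n else 0) hR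
  have h2 : ∑ q ∈ Ioc Q1 R, (q : ℝ) / (q.totient : ℝ) * ∑ χ ∈ prim q, ‖cs a M e χ‖ ^ 2 ≤
      ∑ q ∈ Icc 2 R, (q : ℝ) / (q.totient : ℝ) *
      ∑ χ ∈ prim q, ‖∑ n ∈ Icc 1 M, (if n.Coprime e then a n else 0) * χ (n : ZMod q)‖ ^ 2 := by
    have h3 : ∀ q ∈ Ioc Q1 R, (q : ℝ) / (q.totient : ℝ) * ∑ χ ∈ prim q, ‖cs a M e χ‖ ^ 2 =
        (q : ℝ) / (q.totient : ℝ) *
      ∑ χ ∈ prim q, ‖∑ n ∈ Icc 1 M, (if n.Coprime e then a n else 0) * χ (n : ZMod q)‖ ^ 2 := by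
      intro q _
      congr 1
      exact Finset.sum_congr rfl fun χ _ => by rw [Blk_cs]
    rw [Finset.sum_congr rfl h3]
    refine Finset.sum_le_sum_of_subset_of_nonneg ?_ ?_
    · intro q hq
      rw [mem_Ioc] at hq
      rw [mem_Icc]
      omega
    · intro q _ _
      exact mul_nonneg (by positivity) (Finset.sum_nonneg fun χ _ => by positivity)
  refine h2.trans (h1.trans ?_)
  refine mul_le_mul_of_nonneg_left ?_ (by positivity)
  rw [Blk_nrm_sq]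
  refine Finset.sum_le_sum fun n _ => ?_
  split_ifs
  · exact le_refl _
  · simp

theorem tBlk (h : LsmStmt) : BlkStmt := by
  intro Q1 R M N e a b hQ1 hR2
  have hQ : (0 : ℝ) < Q1 := by exact_mod_cast hQ1
  have hQ1' : (1 : ℝ) ≤ Q1 := by exact_mod_cast hQ1
  have hRR : (R : ℝ) ≤ 2 * Q1 := by exact_mod_cast hR2
  have hR0 : (0 : ℝ) ≤ R := Nat.cast_nonneg R
  have hna := Blk_nrm_nonneg a M
  have hnb := Blk_nrm_nonneg b N
  by_cases hRQ : R ≤ Q1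
  · rw [Finset.Ioc_eq_empty (by omega), Finset.sum_empty]
    positivity
  have hR : 1 ≤ R := by omega
  set α : ℕ → ℝ := fun q => ∑ χ ∈ prim q, ‖cs a M e χ‖ ^ 2 with hα
  set β : ℕ → ℝ := fun q => ∑ χ ∈ prim q, ‖cs b N e χ‖ ^ 2 with hβ
  have hα0 : ∀ q, 0 ≤ α q := fun q => Finset.sum_nonneg fun χ _ => by positivity
  have hβ0 : ∀ q, 0 ≤ β q := fun q => Finset.sum_nonneg fun χ _ => by positivity
  set w : ℕ → ℝ := fun q => (q : ℝ) / (q.totient : ℝ) with hw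
  have hw0 : ∀ q, 0 ≤ w q := fun q => by positivity
  have hterm : ∀ q ∈ Ioc Q1 R, (1 / (q.totient : ℝ)) * ∑ χ ∈ prim q, ‖cs a M e χ‖ * ‖cs b N e χ‖ ≤
      (1 / Q1) * (Real.sqrt (w q * α q) * Real.sqrt (w q * β q)) := by
    intro q hq
    rw [mem_Ioc] at hq
    have hqQ : (Q1 : ℝ) ≤ q := by exact_mod_cast hq.1.le
    have h1 : ∑ χ ∈ prim q, ‖cs a M e χ‖ * ‖cs b N e χ‖ ≤ Real.sqrt (α q) * Real.sqrt (β q) :=
      Real.sum_mul_le_sqrt_mul_sqrt _ _ _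
    have h2 : Real.sqrt (w q * α q) * Real.sqrt (w q * β q) =
        w q * (Real.sqrt (α q) * Real.sqrt (β q)) := by
      rw [Real.sqrt_mul (hw0 q), Real.sqrt_mul (hw0 q)]
      have := Real.mul_self_sqrt (hw0 q)
      calc Real.sqrt (w q) * Real.sqrt (α q) * (Real.sqrt (w q) * Real.sqrt (β q)) =
          (Real.sqrt (w q) * Real.sqrt (w q)) * (Real.sqrt (α q) * Real.sqrt (β q)) := by ring
        _ = _ := by rw [this]
    rw [h2, ← mul_assoc]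
    refine mul_le_mul ?_ h1 (Finset.sum_nonneg fun χ _ => by positivity) (by positivity)
    have h3 : 1 / (Q1 : ℝ) * w q = (q / Q1) * (1 / (q.totient : ℝ)) := by
      simp only [hw]
      ring
    rw [h3]
    have h4 : (1 : ℝ) ≤ q / Q1 := by rwa [le_div_iff₀ hQ, one_mul]
    have h5 : (0 : ℝ) ≤ 1 / (q.totient : ℝ) := by positivity
    nlinarith
  have hsum : ∑ q ∈ Ioc Q1 R, (1 / (q.totient : ℝ)) *
      ∑ χ ∈ prim q, ‖cs a M e χ‖ * ‖cs b N e χ‖ ≤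
      (1 / Q1) * (Real.sqrt (∑ q ∈ Ioc Q1 R, w q * α q) *
        Real.sqrt (∑ q ∈ Ioc Q1 R, w q * β q)) := by
    refine (Finset.sum_le_sum hterm).trans ?_
    rw [← Finset.mul_sum]
    refine mul_le_mul_of_nonneg_left ?_ (by positivity)
    refine (Real.sum_mul_le_sqrt_mul_sqrt _ _ _).trans ?_
    have e1 : ∑ q ∈ Ioc Q1 R, Real.sqrt (w q * α q) ^ 2 = ∑ q ∈ Ioc Q1 R, w q * α q :=
      Finset.sum_congr rfl fun q _ => Real.sq_sqrt (mul_nonneg (hw0 q) (hα0 q))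
    have e2 : ∑ q ∈ Ioc Q1 R, Real.sqrt (w q * β q) ^ 2 = ∑ q ∈ Ioc Q1 R, w q * β q :=
      Finset.sum_congr rfl fun q _ => Real.sq_sqrt (mul_nonneg (hw0 q) (hβ0 q))
    rw [e1, e2]
  have hA : Real.sqrt (∑ q ∈ Ioc Q1 R, w q * α q) ≤
      Real.sqrt 20 * ((Real.sqrt M + R) * nrm a M) := by
    have h1 := Blk_one h Q1 R M e a hQ1 hR
    refine (Real.sqrt_le_sqrt h1).trans ?_
    rw [Real.sqrt_mul (by positivity), Real.sqrt_sq hna, Real.sqrt_mul (by norm_num), mul_assoc]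
    refine mul_le_mul_of_nonneg_left ?_ (Real.sqrt_nonneg _)
    refine mul_le_mul_of_nonneg_right ?_ hna
    refine Real.sqrt_le_iff.mpr ⟨by positivity, ?_⟩
    have h2 := Real.sq_sqrt (Nat.cast_nonneg (α := ℝ) M)
    have h3 := Real.sqrt_nonneg (M : ℝ)
    nlinarith [mul_nonneg h3 hR0]
  have hB : Real.sqrt (∑ q ∈ Ioc Q1 R, w q * β q) ≤
      Real.sqrt 20 * ((Real.sqrt N + R) * nrm b N) := by
    have h1 := Blk_one h Q1 R N e b hQ1 hR
    refine (Real.sqrt_le_sqrt h1).trans ?_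
    rw [Real.sqrt_mul (by positivity), Real.sqrt_sq hnb, Real.sqrt_mul (by norm_num), mul_assoc]
    refine mul_le_mul_of_nonneg_left ?_ (Real.sqrt_nonneg _)
    refine mul_le_mul_of_nonneg_right ?_ hnb
    refine Real.sqrt_le_iff.mpr ⟨by positivity, ?_⟩
    have h2 := Real.sq_sqrt (Nat.cast_nonneg (α := ℝ) N)
    have h3 := Real.sqrt_nonneg (N : ℝ)
    nlinarith [mul_nonneg h3 hR0]
  refine hsum.trans ?_
  have hprod : Real.sqrt (∑ q ∈ Ioc Q1 R, w q * α q) * Real.sqrt (∑ q ∈ Ioc Q1 R, w q * β q) ≤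
      20 * (nrm a M * nrm b N) * ((Real.sqrt M + R) * (Real.sqrt N + R)) := by
    refine (mul_le_mul hA hB (Real.sqrt_nonneg _) (by positivity)).trans (le_of_eq ?_)
    have h20 : Real.sqrt 20 * Real.sqrt 20 = (20 : ℝ) := Real.mul_self_sqrt (by norm_num)
    calc Real.sqrt 20 * ((Real.sqrt M + R) * nrm a M) * (Real.sqrt 20 * ((Real.sqrt N + R) * nrm b N))
        = (Real.sqrt 20 * Real.sqrt 20) * (nrm a M * nrm b N) *
          ((Real.sqrt M + R) * (Real.sqrt N + R)) := by ring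
      _ = _ := by rw [h20]
  refine (mul_le_mul_of_nonneg_left hprod (by positivity)).trans ?_
  have hMN : Real.sqrt ((M : ℝ) * N) = Real.sqrt M * Real.sqrt N :=
    Real.sqrt_mul (Nat.cast_nonneg M) _
  rw [hMN]
  have e1 : 1 / (Q1 : ℝ) * (20 * (nrm a M * nrm b N) * ((Real.sqrt M + R) * (Real.sqrt N + R))) =
      20 * (nrm a M * nrm b N) * (((Real.sqrt M + R) * (Real.sqrt N + R)) / Q1) := by ring
  rw [e1]
  refine mul_le_mul_of_nonneg_left ?_ (by positivity)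
  have hM0 := Real.sqrt_nonneg (M : ℝ)
  have hN0 := Real.sqrt_nonneg (N : ℝ)
  have e2 : ((Real.sqrt M + R) * (Real.sqrt N + R)) / Q1 =
      Real.sqrt M * Real.sqrt N / Q1 + (Real.sqrt M + Real.sqrt N) * (R / Q1) + R * (R / Q1) := by
    field_simp
    ring
  rw [e2]
  have h6 : (R : ℝ) / Q1 ≤ 2 := by rwa [div_le_iff₀ hQ]
  have h7 : (Real.sqrt M + Real.sqrt N) * (R / Q1) ≤ (Real.sqrt M + Real.sqrt N) * 2 :=
    mul_le_mul_of_nonneg_left h6 (by positivity)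
  have h8 : (R : ℝ) * (R / Q1) ≤ R * 2 := mul_le_mul_of_nonneg_left h6 hR0
  linarith

end Pool.Agent.Lib.BV
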