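import Pool.Agent.Lib.BV.SpecF

/-!
Bonferroni inequalities for real numbers (`BnfStmt`).
-/

namespace Pool.Agent.Lib.BV

open Finset Pool.Agent.Lib.EH3

private noncomputable def Bnf_S (r : ℕ) (Q : Finset ℕ) (x : ℕ → ℝ) : ℝ :=
  ∑ d ∈ Q.powerset, if d.card ≤ r then (-1 : ℝ) ^ d.card * ∏ q ∈ d, x q else 0

private noncomputable def Bnf_E (n : ℕ) (Q : Finset ℕ) (x : ℕ → ℝ) : ℝ :=
  ∑ d ∈ Q.powerset, if d.card = n then ∏ q ∈ d, x q else 0

private lemma Bnf_low (r : ℕ) (Q : Finset ℕ) (x : ℕ → ℝ) :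
    ∑ d ∈ lowS Q r, (-1 : ℝ) ^ d.card * ∏ q ∈ d, x q = Bnf_S r Q x := by
  unfold lowS Bnf_S
  rw [sum_filter]

private lemma Bnf_Ec (n : ℕ) (Q : Finset ℕ) (x : ℕ → ℝ) :
    ∑ d ∈ Q.powersetCard n, ∏ q ∈ d, x q = Bnf_E n Q x := by
  unfold Bnf_E
  rw [← sum_filter]
  refine sum_congr ?_ fun _ _ => rfl
  ext d
  rw [mem_powersetCard, mem_filter, mem_powerset]

private lemma Bnf_S_zero (Q : Finset ℕ) (x : ℕ → ℝ) : Bnf_S 0 Q x = 1 := by
  unfold Bnf_S
  rw [sum_eq_single ∅]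
  · simp
  · intro d _ hd
    rw [if_neg]
    rw [Nat.le_zero, card_eq_zero]
    exact hd
  · intro h
    exact absurd (empty_mem_powerset Q) h

private lemma Bnf_S_insert {r : ℕ} {Q : Finset ℕ} {x : ℕ → ℝ} {q : ℕ} (hq : q ∉ Q) :
    Bnf_S (r + 1) (insert q Q) x = Bnf_S (r + 1) Q x - x q * Bnf_S r Q x := by
  classical
  unfold Bnf_S
  rw [sum_powerset_insert hq, sub_eq_add_neg, mul_sum, ← sum_neg_distrib]
  congr 1
  apply sum_congr rfl
  intro d hd
  have hqd : q ∉ d := fun h => hq (mem_powerset.mp hd h)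
  rw [card_insert_of_notMem hqd, prod_insert hqd]
  by_cases h : d.card ≤ r
  · rw [if_pos (by omega), if_pos h, pow_succ]; ring
  · rw [if_neg (by omega), if_neg h]; simp

private lemma Bnf_alt (Q : Finset ℕ) (x : ℕ → ℝ) (hx : ∀ q ∈ Q, 0 ≤ x q ∧ x q ≤ 1) (r : ℕ) :
    0 ≤ (-1 : ℝ) ^ r * (Bnf_S r Q x - ∏ q ∈ Q, (1 - x q)) := by
  classical
  induction Q using Finset.induction_on generalizing r with
  | empty =>
    have : Bnf_S r ∅ x = 1 := by
      unfold Bnf_S
      simp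
    rw [this]; simp
  | insert q Q hq ih =>
    have hxQ : ∀ p ∈ Q, 0 ≤ x p ∧ x p ≤ 1 := fun p hp => hx p (mem_insert_of_mem hp)
    obtain ⟨hxq0, hxq1⟩ := hx q (mem_insert_self q Q)
    cases r with
    | zero =>
      rw [Bnf_S_zero, pow_zero, one_mul, sub_nonneg]
      apply prod_le_one
      · intro p hp; have := (hx p hp).2; linarith
      · intro p hp; have := (hx p hp).1; linarith
    | succ r =>
      rw [Bnf_S_insert hq, prod_insert hq]
      have h1 := ih hxQ (r + 1)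
      have h2 := mul_nonneg hxq0 (ih hxQ r)
      have h3 : (-1 : ℝ) ^ (r + 1) = -(-1) ^ r := by rw [pow_succ]; ring
      rw [h3] at h1 ⊢
      nlinarith

theorem tBnf : BnfStmt := by
  classical
  intro R Q x hx
  rw [Bnf_low, Bnf_Ec]
  constructor
  · have h := Bnf_alt Q x hx (2 * R)
    rw [pow_mul, neg_one_sq, one_pow, one_mul, sub_nonneg] at h
    exact h
  · have h := Bnf_alt Q x hx (2 * R + 1)
    rw [pow_succ, pow_mul, neg_one_sq, one_pow, one_mul] at h
    have h1 : Bnf_S (2 * R) Q x = Bnf_S (2 * R + 1) Q x + Bnf_E (2 * R + 1) Q x := by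
      unfold Bnf_S Bnf_E
      rw [← sum_add_distrib]
      apply sum_congr rfl
      intro d _
      rcases lt_trichotomy d.card (2 * R + 1) with h2 | h2 | h2
      · rw [if_pos (by omega), if_pos (by omega), if_neg (by omega), add_zero]
      · rw [if_neg (by omega), if_pos (by omega), if_pos h2, h2, pow_succ, pow_mul, neg_one_sq,
          one_pow]
        ring
      · rw [if_neg (by omega), if_neg (by omega), if_neg (by omega), add_zero]
    rw [h1]
    linarith

end Pool.Agent.Lib.BV
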