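import Pool.Agent.Lib.BV.SpecD

/-! Module Btt: Brun-Titchmarsh. -/

namespace Pool.Agent.Lib.BV

open Finset Pool.Agent.Lib.EH3 Pool.Agent.Results.MP_00e23e_nt

theorem Btt_int (a b : ℝ) (ha : 2 ≤ a) (hab : a ≤ b) :
    IntervalIntegrable (fun t : ℝ => (Real.log t)⁻¹) MeasureTheory.volume a b := by
  apply ContinuousOn.intervalIntegrable
  rw [Set.uIcc_of_le hab]
  apply ContinuousOn.inv₀
  · exact Real.continuousOn_log.mono (fun t ht => by
      have : 2 ≤ t := le_trans ha ht.1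
      simp only [Set.mem_compl_iff, Set.mem_singleton_iff]
      linarith)
  · intro t ht
    have : 2 ≤ t := le_trans ha ht.1
    exact (Real.log_pos (by linarith)).ne'

theorem Btt_li (x y : ℝ) (hx : 16 ≤ x) (hy : 2 ≤ y) (hyx : y ≤ x) :
    li y ≤ 8 * (x / Real.log x) := by
  have hxpos : 0 < x := by linarith
  have hL : 0 < Real.log x := Real.log_pos (by linarith)
  have hs4 : 4 ≤ Real.sqrt x := by
    rw [show (4 : ℝ) = Real.sqrt 16 by
      rw [show (16 : ℝ) = 4 ^ 2 by norm_num, Real.sqrt_sq (by norm_num)]]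
    exact Real.sqrt_le_sqrt hx
  have hspos : 0 < Real.sqrt x := by linarith
  have hss : Real.sqrt x * Real.sqrt x = x := Real.mul_self_sqrt hxpos.le
  have hlogs : Real.log (Real.sqrt x) = Real.log x / 2 := Real.log_sqrt hxpos.le
  have hlog2 : Real.log x ≤ 2 * Real.sqrt x := by
    have := Real.log_le_sub_one_of_pos hspos
    rw [hlogs] at this
    linarith
  have hsq : 2 * Real.sqrt x ≤ 4 * (x / Real.log x) := by
    rw [← mul_div_assoc, le_div_iff₀ hL]
    nlinarith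
  by_cases h : y ≤ Real.sqrt x
  · have h1 := Pool.Agent.Lib.EH.li_le hy
    have h2 : 0 ≤ x / Real.log x := by positivity
    linarith
  · have h' : Real.sqrt x ≤ y := by linarith
    have h1 : li y = li (Real.sqrt x) + ∫ t in (Real.sqrt x)..y, (Real.log t)⁻¹ := by
      unfold li
      rw [intervalIntegral.integral_add_adjacent_intervals
        (Btt_int 2 (Real.sqrt x) le_rfl (by linarith)) (Btt_int (Real.sqrt x) y (by linarith) h')]
    have h2 := Pool.Agent.Lib.EH.li_le (x := Real.sqrt x) (by linarith)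
    have h3 : ∫ t in (Real.sqrt x)..y, (Real.log t)⁻¹ ≤ (Real.log (Real.sqrt x))⁻¹ * |y - Real.sqrt x| := by
      have h4 := intervalIntegral.norm_integral_le_of_norm_le_const (a := Real.sqrt x) (b := y)
        (f := fun t => (Real.log t)⁻¹) (C := (Real.log (Real.sqrt x))⁻¹) (by
          intro t ht
          rw [Set.uIoc_of_le h'] at ht
          have hls : 0 < Real.log (Real.sqrt x) := Real.log_pos (by linarith)
          have hlt : Real.log (Real.sqrt x) ≤ Real.log t := Real.log_le_log hspos ht.1.le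
          rw [Real.norm_eq_abs, abs_of_nonneg (inv_nonneg.2 (by linarith))]
          exact inv_anti₀ hls hlt)
      exact le_trans (le_abs_self _) h4
    rw [h1, hlogs] at *
    have h5 : |y - Real.sqrt x| ≤ x := by
      rw [abs_of_nonneg (by linarith)]
      linarith
    have h6 : (Real.log x / 2)⁻¹ * |y - Real.sqrt x| ≤ 2 * (x / Real.log x) := by
      have h7 : (Real.log x / 2)⁻¹ * |y - Real.sqrt x| ≤ (Real.log x / 2)⁻¹ * x :=
        mul_le_mul_of_nonneg_left h5 (by positivity)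
      have h8 : (Real.log x / 2)⁻¹ * x = 2 * (x / Real.log x) := by
        field_simp
      rwa [h8] at h7
    have h9 : 0 ≤ x / Real.log x := by positivity
    linarith

theorem Btt_count (y : ℝ) (d l z : ℕ) :
    (primeCount y d l : ℝ) ≤ z + ∑ n ∈ (Ioc 0 ⌊y⌋₊).filter (fun n => n ≡ l [MOD d]), rr z n := by
  classical
  have h1 : (Icc 1 ⌊y⌋₊).filter (fun p => p.Prime ∧ p ≡ l [MOD d]) ⊆
      Icc 1 z ∪ ((Ioc 0 ⌊y⌋₊).filter (fun n => n ≡ l [MOD d])).filter (fun n => Rough z n) := by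
    intro p hp
    rw [Finset.mem_filter, Finset.mem_Icc] at hp
    rw [Finset.mem_union, Finset.mem_Icc, Finset.mem_filter, Finset.mem_filter, Finset.mem_Ioc]
    by_cases h : p ≤ z
    · exact Or.inl ⟨hp.1.1, h⟩
    · refine Or.inr ⟨⟨⟨hp.1.1, hp.1.2⟩, hp.2.2⟩, ?_⟩
      intro q hq hqp
      rw [(Nat.prime_dvd_prime_iff_eq hq hp.2.1).1 hqp]
      omega
  have h2 := le_trans (Finset.card_le_card h1) (Finset.card_union_le _ _)
  rw [Nat.card_Icc] at h2
  have h3 : ∑ n ∈ (Ioc 0 ⌊y⌋₊).filter (fun n => n ≡ l [MOD d]), rr z n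
      = ((((Ioc 0 ⌊y⌋₊).filter (fun n => n ≡ l [MOD d])).filter (fun n => Rough z n)).card : ℝ) := by
    unfold rr
    rw [Finset.card_filter]
    push_cast
    rfl
  rw [h3]
  unfold primeCount
  have h4 : z + 1 - 1 = z := by omega
  rw [h4] at h2
  exact_mod_cast h2

theorem Btt_z (x : ℝ) (hx : (2 : ℝ) ^ 128 ≤ x) :
    ∃ z : ℕ, 2 ≤ z ∧ Real.log x / 128 ≤ Real.log z ∧ (z : ℝ) ^ 16 ≤ x ^ ((1 : ℝ) / 4) ∧
      (z : ℝ) ≤ x ^ ((1 : ℝ) / 4) := by
  have hxpos : 0 < x := lt_of_lt_of_le (by positivity) hx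
  have hx1 : 1 ≤ x := le_trans (one_le_pow₀ (by norm_num)) hx
  have h1 : 2 ≤ x ^ ((1 : ℝ) / 128) := by
    have h2 : ((2 : ℝ) ^ 128) ^ ((1 : ℝ) / 128) ≤ x ^ ((1 : ℝ) / 128) :=
      Real.rpow_le_rpow (by positivity) hx (by norm_num)
    have h3 : ((2 : ℝ) ^ 128) ^ ((1 : ℝ) / 128) = 2 := by
      rw [← Real.rpow_natCast, ← Real.rpow_mul (by norm_num)]
      norm_num
    rwa [h3] at h2
  have h4 : x ^ ((1 : ℝ) / 64) = x ^ ((1 : ℝ) / 128) * x ^ ((1 : ℝ) / 128) := by
    rw [← Real.rpow_add hxpos]; norm_num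
  have h5 : 4 ≤ x ^ ((1 : ℝ) / 64) := by rw [h4]; nlinarith
  have h0 : 0 ≤ x ^ ((1 : ℝ) / 64) := by linarith
  refine ⟨⌊x ^ ((1 : ℝ) / 64)⌋₊, ?_, ?_, ?_, ?_⟩
  · apply Nat.le_floor
    push_cast
    linarith
  · have h6 : x ^ ((1 : ℝ) / 128) ≤ (⌊x ^ ((1 : ℝ) / 64)⌋₊ : ℝ) := by
      have h7 := Nat.lt_floor_add_one (x ^ ((1 : ℝ) / 64))
      have h8 : x ^ ((1 : ℝ) / 128) + 1 ≤ x ^ ((1 : ℝ) / 64) := by rw [h4]; nlinarith
      linarith
    have h9 := Real.log_le_log (by linarith) h6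
    rw [Real.log_rpow hxpos] at h9
    linarith
  · have h6 : (⌊x ^ ((1 : ℝ) / 64)⌋₊ : ℝ) ≤ x ^ ((1 : ℝ) / 64) := Nat.floor_le h0
    have h7 := pow_le_pow_left₀ (Nat.cast_nonneg _) h6 16
    have h8 : (x ^ ((1 : ℝ) / 64)) ^ 16 = x ^ ((1 : ℝ) / 4) := by
      rw [← Real.rpow_natCast, ← Real.rpow_mul hxpos.le]
      norm_num
    rwa [h8] at h7
  · refine le_trans (Nat.floor_le h0) ?_
    exact Real.rpow_le_rpow_of_exponent_le hx1 (by norm_num)

theorem tBtt (h : UbStmt) : BttStmt := by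
  obtain ⟨C, hC, hU⟩ := h
  refine ⟨128 * C + 16, (2 : ℝ) ^ 128, by positivity, by norm_num, ?_⟩
  intro x y d l hx hy hyx hd hdx hl
  have hxpos : 0 < x := lt_of_lt_of_le (by positivity) hx
  have hx16 : 16 ≤ x := le_trans (by norm_num) hx
  have hL : 0 < Real.log x := Real.log_pos (by linarith)
  have ht : (0 : ℝ) < d.totient := by exact_mod_cast Nat.totient_pos.2 hd
  have htd : (d.totient : ℝ) ≤ d := by exact_mod_cast Nat.totient_le d
  obtain ⟨z, hz2, hzlog, hz16, hz⟩ := Btt_z x hx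
  have hzl : 0 < Real.log (z : ℝ) := lt_of_lt_of_le (by positivity) hzlog
  have h1 := Btt_count y d l z
  have h2 := hU z d l 0 ⌊y⌋₊ hz2 hd hl (Nat.zero_le _)
  have hfl : ((⌊y⌋₊ : ℕ) : ℝ) ≤ x := le_trans (Nat.floor_le (by linarith)) hyx
  -- the quantity W = x / (phi log x)
  set W := x / ((d.totient : ℝ) * Real.log x) with hW
  have hWpos : 0 < W := by positivity
  have h3 : (((⌊y⌋₊ : ℕ) : ℝ) - ((0 : ℕ) : ℝ)) / ((d.totient : ℝ) * Real.log z) ≤ 128 * W := by
    rw [Nat.cast_zero, sub_zero]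
    have h4 : ((⌊y⌋₊ : ℕ) : ℝ) / ((d.totient : ℝ) * Real.log z)
        ≤ x / ((d.totient : ℝ) * (Real.log x / 128)) := by
      apply div_le_div₀ hxpos.le hfl (by positivity)
      exact mul_le_mul_of_nonneg_left hzlog ht.le
    have h5 : x / ((d.totient : ℝ) * (Real.log x / 128)) = 128 * W := by
      rw [hW]; field_simp
    rwa [h5] at h4
  have hq : 0 ≤ x ^ ((1 : ℝ) / 4) := Real.rpow_nonneg hxpos.le _
  have h6 : x ^ ((1 : ℝ) / 4) ≤ 4 * W := by
    have hqpos : 0 < x ^ ((1 : ℝ) / 4) := Real.rpow_pos_of_pos hxpos _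
    have h7 : Real.log x ≤ 4 * x ^ ((1 : ℝ) / 4) := by
      have h8 := Real.log_le_sub_one_of_pos hqpos
      rw [Real.log_rpow hxpos] at h8
      linarith
    have h9 : Real.sqrt x = x ^ ((1 : ℝ) / 4) * x ^ ((1 : ℝ) / 4) := by
      rw [Real.sqrt_eq_rpow, ← Real.rpow_add hxpos]; norm_num
    have h10 : x = Real.sqrt x * Real.sqrt x := (Real.mul_self_sqrt hxpos.le).symm
    have h11 : (d.totient : ℝ) ≤ Real.sqrt x := le_trans htd hdx
    have hspos : 0 < Real.sqrt x := Real.sqrt_pos.2 hxpos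
    have h12 : Real.sqrt x / Real.log x ≤ W := by
      rw [hW, div_le_div_iff₀ hL (by positivity)]
      have : Real.sqrt x * ((d.totient : ℝ) * Real.log x)
          ≤ Real.sqrt x * (Real.sqrt x * Real.log x) :=
        mul_le_mul_of_nonneg_left (mul_le_mul_of_nonneg_right h11 hL.le) hspos.le
      calc _ ≤ _ := this
        _ = (Real.sqrt x * Real.sqrt x) * Real.log x := by ring
        _ = x * Real.log x := by rw [← h10]
    have h13 : x ^ ((1 : ℝ) / 4) ≤ 4 * (Real.sqrt x / Real.log x) := by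
      rw [← mul_div_assoc, le_div_iff₀ hL, h9]
      have := mul_le_mul_of_nonneg_left h7 hq
      linarith
    linarith
  have h7 := mul_le_mul_of_nonneg_left h3 hC.le
  have h8 : (primeCount y d l : ℝ) ≤ (128 * C + 8) * W := by
    have : (primeCount y d l : ℝ) ≤ z + (C * (128 * W) + (z : ℝ) ^ 16) := by linarith
    linarith
  have h9 : li y / (d.totient : ℝ) ≤ 8 * W := by
    have h10 := div_le_div_of_nonneg_right (Btt_li x y hx16 hy hyx) ht.le
    have h11 : 8 * (x / Real.log x) / (d.totient : ℝ) = 8 * W := by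
      rw [hW]; field_simp
    rwa [h11] at h10
  have h10 : 0 ≤ li y / (d.totient : ℝ) :=
    div_nonneg (Pool.Agent.Lib.EH.li_nonneg hy) ht.le
  have h11 : (0 : ℝ) ≤ (primeCount y d l : ℝ) := Nat.cast_nonneg _
  have h12 : 0 < C * W := by positivity
  unfold err
  rw [abs_le]
  constructor
  · linarith
  · linarith

end Pool.Agent.Lib.BV
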