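import Pool.Agent.Lib.BV.SpecH

/-!
MP_00e23e_nt, Lib/BV, module Chb: partial sums of Dirichlet characters.
-/

namespace Pool.Agent.Lib.BV

open Finset

private theorem Chb_cons (f : ℕ → ℂ) (q : ℕ) (hp : ∀ n, f (n + q) = f n)
    (h0 : ∑ n ∈ range q, f n = 0) (a : ℕ) : ∑ n ∈ range q, f (a + n) = 0 := by
  induction a with
  | zero => simpa using h0
  | succ a ih =>
    have h1 : ∑ n ∈ range (q + 1), f (a + n) = ∑ n ∈ range q, f (a + n) + f (a + q) :=
      sum_range_succ _ _
    have h2 : ∑ n ∈ range (q + 1), f (a + n) = ∑ n ∈ range q, f (a + (n + 1)) + f (a + 0) :=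
      sum_range_succ' _ _
    have h3 : ∑ n ∈ range q, f (a + 1 + n) = ∑ n ∈ range q, f (a + (n + 1)) :=
      sum_congr rfl (fun n _ => by rw [show a + 1 + n = a + (n + 1) by ring])
    rw [h3]
    have h4 := hp a
    rw [h1, ih, h4, add_zero] at h2
    linear_combination -h2

private theorem Chb_per (f : ℕ → ℂ) (q : ℕ) (hq : 1 ≤ q) (hp : ∀ n, f (n + q) = f n)
    (h0 : ∑ n ∈ range q, f n = 0) (h1 : ∀ n, ‖f n‖ ≤ 1) (N : ℕ) :
    ‖∑ n ∈ Icc 1 N, f n‖ ≤ q := by
  have hI : ∀ N : ℕ, ∑ n ∈ Icc 1 N, f n = ∑ n ∈ range N, f (1 + n) := by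
    intro N
    have h := Finset.sum_Ico_eq_sum_range f 1 (N + 1)
    rw [Nat.add_sub_cancel] at h
    rw [← h]
    exact sum_congr (by ext n; simp [Nat.lt_succ_iff]) (fun _ _ => rfl)
  induction N using Nat.strong_induction_on with
  | _ N ih =>
    by_cases hN : N < q
    · calc ‖∑ n ∈ Icc 1 N, f n‖ ≤ ∑ n ∈ Icc 1 N, ‖f n‖ := norm_sum_le _ _
        _ ≤ ∑ n ∈ Icc 1 N, 1 := sum_le_sum (fun n _ => h1 n)
        _ = N := by simp
        _ ≤ q := by exact_mod_cast hN.le
    · have h2 := ih (N - q) (by omega)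
      have h3 : ∑ n ∈ Icc 1 N, f n = ∑ n ∈ Icc 1 (N - q), f n := by
        rw [hI, hI]
        have h4 : N = (N - q) + q := by omega
        conv_lhs => rw [h4]
        rw [sum_range_add]
        have h5 := Chb_cons f q hp h0 (1 + (N - q))
        have h6 : ∑ n ∈ range q, f (1 + (N - q + n)) = ∑ n ∈ range q, f (1 + (N - q) + n) :=
          sum_congr rfl (fun n _ => by rw [add_assoc])
        rw [h6, h5, add_zero]
      rw [h3]
      exact h2

private theorem Chb_zmod (q : ℕ) (hq : 1 ≤ q) (g : ZMod q → ℂ) [Fintype (ZMod q)] :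
    ∑ n ∈ range q, g (n : ZMod q) = ∑ a : ZMod q, g a := by
  haveI : NeZero q := ⟨by omega⟩
  refine Finset.sum_bij (fun n _ => (n : ZMod q)) (fun n _ => mem_univ _) ?_ ?_ (fun _ _ => rfl)
  · intro a ha b hb hab
    rw [ZMod.natCast_eq_natCast_iff] at hab
    have h1 := mem_range.mp ha
    have h2 := mem_range.mp hb
    exact Nat.ModEq.eq_of_lt_of_lt hab h1 h2
  · intro a _
    exact ⟨a.val, mem_range.mpr (ZMod.val_lt a), ZMod.natCast_zmod_val a⟩

theorem tChb : ChbStmt := by
  constructor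
  · intro q χ hq hχ
    haveI : NeZero q := ⟨by omega⟩
    have hn : ∀ n, ‖chf χ n‖ ≤ 1 := fun n => DirichletCharacter.norm_le_one χ _
    refine ⟨hn, fun N => Chb_per _ q hq ?_ ?_ hn N⟩
    · intro n
      unfold chf
      simp
    · have h := Chb_zmod q hq (fun a => χ a)
      have h2 : ∑ a : ZMod q, χ a = 0 := MulChar.sum_eq_zero_of_ne_one hχ
      unfold chf
      rw [h, h2]
  · intro q hq
    haveI : NeZero q := ⟨by omega⟩
    have hc : ∀ n : ℕ, chf (1 : DirichletCharacter ℂ q) n = if n.Coprime q then 1 else 0 := by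
      intro n
      unfold chf
      split_ifs with h
      · exact MulChar.one_apply ((ZMod.isUnit_iff_coprime n q).mpr h)
      · exact MulChar.map_nonunit _ (fun h' => h ((ZMod.isUnit_iff_coprime n q).mp h'))
    have hq0 : (0 : ℝ) < q := by exact_mod_cast hq
    have hφ0 : (0 : ℝ) ≤ (q.totient : ℝ) / q := by positivity
    have hφ1 : (q.totient : ℝ) / q ≤ 1 := by
      rw [div_le_one hq0]
      exact_mod_cast Nat.totient_le q
    have hcast : ((q.totient : ℂ) / q) = (((q.totient : ℝ) / q : ℝ) : ℂ) := by push_cast; rfl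
    have hn : ∀ n, ‖chf (1 : DirichletCharacter ℂ q) n - (q.totient : ℂ) / q‖ ≤ 1 := by
      intro n
      rw [hc, hcast]
      split_ifs with h
      · rw [show (1 : ℂ) - (((q.totient : ℝ) / q : ℝ) : ℂ) = ((1 - (q.totient : ℝ) / q : ℝ) : ℂ) by
          push_cast; rfl, Complex.norm_real, Real.norm_eq_abs, abs_le]
        constructor <;> linarith
      · rw [zero_sub, norm_neg, Complex.norm_real, Real.norm_eq_abs, abs_of_nonneg hφ0]
        exact hφ1
    refine ⟨hn, fun N => Chb_per _ q hq ?_ ?_ hn N⟩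
    · intro n
      simp only [hc]
      have : (n + q).Coprime q ↔ n.Coprime q := by simp
      simp only [this]
    · rw [sum_sub_distrib]
      simp only [hc]
      rw [← sum_filter, sum_const, sum_const, card_range]
      have h1 : ((range q).filter (fun n => n.Coprime q)).card = q.totient := by
        rw [Nat.totient_eq_card_coprime]
        congr 1
        ext n
        simp [Nat.coprime_comm]
      rw [h1]
      simp only [nsmul_eq_mul, mul_one]
      have hq' : (q : ℂ) ≠ 0 := by exact_mod_cast (by omega : q ≠ 0)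
      field_simp
      ring

end Pool.Agent.Lib.BV
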