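import Pool.Agent.Lib.BV.SpecF

/-!
Class sums of rough numbers (`ClfStmt`).
-/

namespace Pool.Agent.Lib.BV

open Finset Pool.Agent.Lib.EH3

theorem tClf (h1 : PwsStmt) (h2 : SmyStmt) : ClfStmt := by
  intro z d b l N N2 hz hd hl hN
  obtain ⟨hY, hW⟩ := h2 z d b l N N2 hz hd hl hN
  set K := (Ioc N N2).filter (fun n => n ≡ l [MOD d]) with hK
  have hpw : ∀ n ∈ K, rr z n ≤ ∏ j ∈ range z, yf z d b j n ∧
      ∏ j ∈ range z, yf z d b j n ≤
        rr z n + ∑ i ∈ range z, wf z d b i n * ∏ j ∈ (range z).erase i, yf z d b j n := by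
    intro n hn
    rw [hK, mem_filter, mem_Ioc] at hn
    exact h1 z d b l n hz hd hl (by omega) hn.2
  have hSY : ∑ n ∈ K, rr z n ≤ ∑ n ∈ K, ∏ j ∈ range z, yf z d b j n :=
    sum_le_sum fun n hn => (hpw n hn).1
  have hYE : ∑ n ∈ K, ∏ j ∈ range z, yf z d b j n ≤ ∑ n ∈ K, rr z n +
      ∑ n ∈ K, ∑ i ∈ range z, wf z d b i n * ∏ j ∈ (range z).erase i, yf z d b j n := by
    rw [← sum_add_distrib]
    exact sum_le_sum fun n hn => (hpw n hn).2
  have hE : ∑ n ∈ K, ∑ i ∈ range z, wf z d b i n * ∏ j ∈ (range z).erase i, yf z d b j n ≤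
      ((N2 : ℝ) - N) / d * ∑ i ∈ range z, Ud z d b i * ∏ j ∈ (range z).erase i, Yd z d b j +
        z * (2 * (z : ℝ) ^ (4 * b + 6)) := by
    rw [sum_comm, mul_sum]
    have h3 : (z : ℝ) * (2 * (z : ℝ) ^ (4 * b + 6)) = ∑ i ∈ range z, 2 * (z : ℝ) ^ (4 * b + 6) := by
      rw [sum_const, card_range, nsmul_eq_mul]
    rw [h3, ← sum_add_distrib]
    refine sum_le_sum fun i hi => ?_
    have h4 := (abs_le.mp (hW i hi)).2
    linarith
  obtain ⟨hY1, hY2⟩ := abs_le.mp hY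
  generalize (∑ n ∈ K, rr z n) = S at *
  generalize (∑ n ∈ K, ∏ j ∈ range z, yf z d b j n) = Y at *
  generalize (∑ n ∈ K, ∑ i ∈ range z, wf z d b i n * ∏ j ∈ (range z).erase i, yf z d b j n) = E at *
  generalize ((N2 : ℝ) - N) / d * ∏ j ∈ range z, Yd z d b j = P at *
  generalize ((N2 : ℝ) - N) / d * ∑ i ∈ range z, Ud z d b i * ∏ j ∈ (range z).erase i, Yd z d b j = Q at *
  generalize (z : ℝ) ^ (4 * b + 6) = A at *
  refine ⟨by linarith, ?_⟩
  rw [abs_le]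
  constructor
  · nlinarith
  · nlinarith

end Pool.Agent.Lib.BV
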