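import Pool.Agent.Lib.BV.SpecA

/-!
MP_00e23e_nt, Lib/BV, module Cnd: number of characters of small conductor.
-/

namespace Pool.Agent.Lib.BV

open Finset Pool.Agent.Lib.EH3

open Classical in
theorem Cnd_fiber (d q : ℕ) (hd : 1 ≤ d) (hq : 1 ≤ q) :
    (univ.filter (fun χ : DirichletCharacter ℂ d => χ.conductor = q)).card ≤ q := by
  have : NeZero d := ⟨by omega⟩
  have : NeZero q := ⟨by omega⟩
  have hcard : (univ : Finset (DirichletCharacter ℂ q)).card ≤ q := by
    rw [card_univ, ← Nat.card_eq_fintype_card,
      DirichletCharacter.card_eq_totient_of_hasEnoughRootsOfUnity]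
    exact Nat.totient_le q
  by_cases h : q ∣ d
  · have hsub : univ.filter (fun χ : DirichletCharacter ℂ d => χ.conductor = q) ⊆
        univ.image (DirichletCharacter.changeLevel (R := ℂ) h) := by
      intro χ hχ
      rw [mem_filter] at hχ
      obtain ⟨_, rfl⟩ := hχ
      rw [mem_image]
      exact ⟨χ.primitiveCharacter, mem_univ _, χ.changeLevel_primitiveCharacter⟩
    exact (card_le_card hsub).trans (card_image_le.trans hcard)
  · have h0 : univ.filter (fun χ : DirichletCharacter ℂ d => χ.conductor = q) = ∅ := by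
      rw [filter_eq_empty_iff]
      intro χ _ hχ
      exact h (hχ ▸ χ.conductor_dvd_level)
    rw [h0, card_empty]
    omega

theorem tCnd : CndStmt := by
  classical
  intro d Q hd
  have h1 : (univ.filter (fun χ : DirichletCharacter ℂ d =>
      1 < χ.conductor ∧ χ.conductor ≤ Q)).card ≤ Q ^ 2 := by
    have hmap : ∀ χ ∈ univ.filter (fun χ : DirichletCharacter ℂ d =>
        1 < χ.conductor ∧ χ.conductor ≤ Q), χ.conductor ∈ Icc 1 Q := by
      intro χ hχ
      rw [mem_filter] at hχ
      rw [mem_Icc]
      omega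
    rw [card_eq_sum_card_fiberwise hmap]
    refine (sum_le_card_nsmul _ _ Q ?_).trans ?_
    · intro q hq
      rw [mem_Icc] at hq
      refine le_trans (card_le_card ?_) ((Cnd_fiber d q hd hq.1).trans hq.2)
      intro χ hχ
      rw [mem_filter] at hχ
      rw [mem_filter]
      exact ⟨mem_univ _, hχ.2⟩
    · rw [Nat.card_Icc, smul_eq_mul, Nat.add_sub_cancel, pow_two]
  exact_mod_cast h1

end Pool.Agent.Lib.BV
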