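import Pool.Agent.Lib.BV.SpecH

/-!
MP_00e23e_nt, BV, module Cpt: the logarithmic derivative of zeta near 1.
-/

namespace Pool.Agent.Lib.BV

open Finset

/-- the function (s - 1) zeta(s) -/
noncomputable def Cpt_g (s : ℂ) : ℂ := DirichletCharacter.LFunctionTrivChar₁ 1 s

lemma Cpt_one : Cpt_g 1 = 1 := by
  unfold Cpt_g DirichletCharacter.LFunctionTrivChar₁
  rw [Function.update_self]
  simp

lemma Cpt_ne {s : ℂ} (hs : s ≠ 1) : Cpt_g s = (s - 1) * riemannZeta s := by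
  unfold Cpt_g DirichletCharacter.LFunctionTrivChar₁
  rw [Function.update_of_ne hs]
  have h1 : DirichletCharacter.LFunctionTrivChar 1 = riemannZeta :=
    DirichletCharacter.LFunction_modOne_eq
  rw [h1]

lemma Cpt_diff : Differentiable ℂ Cpt_g := DirichletCharacter.differentiable_LFunctionTrivChar₁ 1

/-- the function - g'/g - w -/
noncomputable def Cpt_h (s : ℂ) : ℂ := -deriv Cpt_g s / Cpt_g s - dslope Cpt_g 1 s

lemma Cpt_eq {s : ℂ} (hs : 1 < s.re) :
    Cpt_h s = -deriv riemannZeta s / riemannZeta s - riemannZeta s := by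
  have h1 : s ≠ 1 := by
    intro h
    rw [h, Complex.one_re] at hs
    exact lt_irrefl _ hs
  have h2 : s - 1 ≠ 0 := sub_ne_zero.2 h1
  have h3 : riemannZeta s ≠ 0 := riemannZeta_ne_zero_of_one_lt_re hs
  have h4 : deriv Cpt_g s = (s - 1) * deriv riemannZeta s + riemannZeta s := by
    have h5 : Cpt_g =ᶠ[nhds s] fun w => (w - 1) * riemannZeta w :=
      Filter.eventuallyEq_iff_exists_mem.2
        ⟨_, isOpen_ne.mem_nhds h1, fun w hw => Cpt_ne hw⟩
    have h7 : HasDerivAt (fun w : ℂ => w - 1) 1 s := (hasDerivAt_id s).sub_const 1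
    have h8 := h7.mul (differentiableAt_riemannZeta h1).hasDerivAt
    rw [h5.deriv_eq]
    have h9 : deriv (fun w : ℂ => (w - 1) * riemannZeta w) s = _ := h8.deriv
    rw [h9]
    ring
  have h6 : dslope Cpt_g 1 s = (s - 1)⁻¹ * ((s - 1) * riemannZeta s - 1) := by
    rw [dslope_of_ne _ h1, slope_def_module, smul_eq_mul, Cpt_ne h1, Cpt_one]
  unfold Cpt_h
  rw [h4, h6, Cpt_ne h1]
  field_simp
  ring

/-- the coefficients -/
noncomputable def Cpt_f (n : ℕ) : ℂ := ((ArithmeticFunction.vonMangoldt n : ℝ) : ℂ) - 1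

lemma Cpt_summ {s : ℂ} (hs : 1 < s.re) : LSeriesSummable Cpt_f s ∧ LSeries Cpt_f s = Cpt_h s := by
  have h1 := ArithmeticFunction.LSeriesSummable_vonMangoldt hs
  have h2 : LSeriesSummable 1 s := LSeriesSummable_one_iff.2 hs
  have h3 : Cpt_f = (fun n : ℕ => ((ArithmeticFunction.vonMangoldt n : ℝ) : ℂ)) - 1 := rfl
  rw [h3]
  refine ⟨h1.sub h2, ?_⟩
  rw [LSeries_sub h1 h2, LSeries_one_eq_riemannZeta hs, Cpt_eq hs,
    ArithmeticFunction.LSeries_vonMangoldt_eq_deriv_riemannZeta_div hs]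

lemma Cpt_iter (f : ℕ → ℂ) (k : ℕ) :
    LSeries.logMul^[k] f = fun n => f n * ((Real.log n : ℝ) : ℂ) ^ k := by
  induction k with
  | zero =>
    funext n
    simp
  | succ k ih =>
    rw [Function.iterate_succ_apply', ih]
    funext n
    show Complex.log n * (f n * ((Real.log n : ℝ) : ℂ) ^ k) = _
    rw [← Complex.natCast_log, pow_succ]
    ring

lemma Cpt_series (j : ℕ) {s : ℂ} (hs : 1 < s.re) :
    LSeries (fun n => Cpt_f n * ((Real.log n : ℝ) : ℂ) ^ j) s =
      (-1) ^ j * iteratedDeriv j Cpt_h s := by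
  have h1 : LSeries.abscissaOfAbsConv Cpt_f ≤ ((1 : ℝ) : EReal) :=
    LSeries.abscissaOfAbsConv_le_of_forall_lt_LSeriesSummable fun y hy =>
      (Cpt_summ (by rw [Complex.ofReal_re]; exact hy)).1
  have h2 : LSeries.abscissaOfAbsConv Cpt_f < s.re := h1.trans_lt (by exact_mod_cast hs)
  have h3 := LSeries_iteratedDeriv j h2
  rw [Cpt_iter] at h3
  have h4 : LSeries Cpt_f =ᶠ[nhds s] Cpt_h :=
    Filter.eventuallyEq_iff_exists_mem.2
      ⟨{z : ℂ | 1 < z.re}, (isOpen_lt continuous_const Complex.continuous_re).mem_nhds hs,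
        fun z hz => (Cpt_summ hz).2⟩
  rw [h4.iteratedDeriv_eq] at h3
  rw [h3, ← mul_assoc, ← mul_pow, neg_one_mul, neg_neg, one_pow, one_mul]

theorem tCpt : CptStmt := by
  intro j
  have hR : IsCompact (Set.Icc (1 : ℝ) 2 ×ℂ Set.Icc (-1 : ℝ) 1) :=
    isCompact_Icc.reProdIm isCompact_Icc
  have hne : ∀ s ∈ (Set.Icc (1 : ℝ) 2 ×ℂ Set.Icc (-1 : ℝ) 1), Cpt_g s ≠ 0 := by
    intro s hs
    by_cases h1 : s = 1
    · rw [h1, Cpt_one]
      exact one_ne_zero
    · rw [Cpt_ne h1]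
      exact mul_ne_zero (sub_ne_zero.2 h1)
        (riemannZeta_ne_zero_of_one_le_re (Complex.mem_reProdIm.1 hs).1.1)
  have hds : Differentiable ℂ (dslope Cpt_g 1) := by
    rw [← differentiableOn_univ, Complex.differentiableOn_dslope Filter.univ_mem]
    exact Cpt_diff.differentiableOn
  have han : AnalyticOnNhd ℂ Cpt_h (Set.Icc (1 : ℝ) 2 ×ℂ Set.Icc (-1 : ℝ) 1) := by
    intro s hs
    have e1 : AnalyticAt ℂ Cpt_g s := Cpt_diff.analyticAt s
    exact (e1.deriv.neg.div e1 (hne s hs)).sub (hds.analyticAt s)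
  obtain ⟨C, hC⟩ := hR.exists_bound_of_continuousOn (han.iterated_deriv j).continuousOn
  refine ⟨max C 1, lt_max_of_lt_right one_pos, fun s h1 h2 h3 => ?_⟩
  have h4 := Cpt_series j h1
  have h5 : LSeries (fun n => (((ArithmeticFunction.vonMangoldt n : ℝ) : ℂ) - 1) *
      ((Real.log n : ℝ) : ℂ) ^ j) s = (-1) ^ j * iteratedDeriv j Cpt_h s := h4
  rw [h5, norm_mul, norm_pow, norm_neg, norm_one, one_pow, one_mul, iteratedDeriv_eq_iterate]
  refine (hC s ?_).trans (le_max_left _ _)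
  exact Complex.mem_reProdIm.2 ⟨⟨h1.le, h2⟩, abs_le.1 h3⟩

end Pool.Agent.Lib.BV
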