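import Pool.Agent.Lib.BV.SpecF

namespace Pool.Agent.Lib.BV

open Finset Pool.Agent.Lib.EH3

private lemma Ctt_low (S : Finset ℕ) (r : ℕ) :
    ((lowS S r).card : ℝ) = ∑ j ∈ range (r + 1), (S.card.choose j : ℝ) := by
  have h1 : (lowS S r).card = ∑ j ∈ range (r + 1), ((lowS S r).filter (fun s => s.card = j)).card := by
    refine Finset.card_eq_sum_card_fiberwise fun s hs => ?_
    have h2 := (mem_filter.mp hs).2
    exact mem_range.mpr (by omega)
  rw [h1]
  push_cast
  refine Finset.sum_congr rfl fun j hj => ?_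
  have h3 : (lowS S r).filter (fun s => s.card = j) = S.powersetCard j := by
    ext s
    simp only [lowS, mem_filter, mem_powerset, mem_powersetCard]
    constructor
    · rintro ⟨⟨h4, _⟩, h5⟩
      exact ⟨h4, h5⟩
    · rintro ⟨h4, h5⟩
      have := mem_range.mp hj
      exact ⟨⟨h4, by omega⟩, h5⟩
  rw [h3, card_powersetCard]

theorem tCtt (h1 : EsyStmt) : CttStmt := by
  intro S t r ht
  have hpow : ((S.card : ℝ) + 1) ^ r ≤ (t : ℝ) ^ r := by
    refine pow_le_pow_left₀ (by positivity) ?_ r
    exact_mod_cast ht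
  have h2 := (h1.2 S.card r).trans hpow
  refine ⟨by rw [Ctt_low]; exact h2, ?_⟩
  rw [card_powersetCard]
  refine le_trans ?_ h2
  exact Finset.single_le_sum (f := fun j => (S.card.choose j : ℝ)) (fun j _ => by positivity)
    (mem_range.mpr (Nat.lt_succ_self r))

end Pool.Agent.Lib.BV
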