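import Pool.Agent.Lib.BV.SpecB

/-!
MP_00e23e_nt, BV, module Cv: the convolution blk * bb.
-/

namespace Pool.Agent.Lib.BV

open Finset Pool.Agent.Lib.EH3

/-- the divisors which are primes of the block -/
def Cv_S (P n : ℕ) : Finset ℕ := n.divisors.filter (fun p => p.Prime ∧ P < p ∧ p ≤ 2 * P)

open Classical in
/-- the common value of the terms -/
noncomputable def Cv_c (P n : ℕ) : ℝ := if Rough P n then 1 / (Om P n : ℝ) else 0

lemma Cv_om {P p m : ℕ} (hp : p.Prime) (h1 : P < p) (h2 : p ≤ 2 * P) (hm : m ≠ 0) :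
    Om P (p * m) = 1 + Om P m := by
  unfold Om
  have h3 := (Nat.perm_primeFactorsList_mul hp.ne_zero hm).filter
    (fun p => decide (P < p ∧ p ≤ 2 * P))
  rw [h3.length_eq, List.filter_append, List.length_append, Nat.primeFactorsList_prime hp]
  congr 1
  rw [List.filter_cons_of_pos (by simp [h1, h2]), List.filter_nil, List.length_singleton]

lemma Cv_rough {P p m : ℕ} (hp : p.Prime) (h1 : P < p) : Rough P (p * m) ↔ Rough P m := by
  constructor
  · intro h q hq hqm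
    exact h q hq (hqm.mul_left p)
  · intro h q hq hqm
    rcases (Nat.Prime.dvd_mul hq).1 hqm with h3 | h3
    · rw [(Nat.prime_dvd_prime_iff_eq hq hp).1 h3]
      exact h1
    · exact h q hq h3

lemma Cv_term (P n : ℕ) (w : ℕ × ℕ) (hw : w ∈ n.divisorsAntidiagonal) :
    blk P w.1 * bb P w.2 = if w.1.Prime ∧ P < w.1 ∧ w.1 ≤ 2 * P then Cv_c P n else 0 := by
  obtain ⟨h1, h2⟩ := Nat.mem_divisorsAntidiagonal.1 hw
  unfold blk
  by_cases h3 : w.1.Prime ∧ P < w.1 ∧ w.1 ≤ 2 * P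
  · rw [if_pos h3, if_pos h3, one_mul]
    have hm : w.2 ≠ 0 := by
      intro h4
      rw [h4, mul_zero] at h1
      exact h2 h1.symm
    unfold bb Cv_c
    rw [← h1, Cv_om h3.1 h3.2.1 h3.2.2 hm]
    by_cases h5 : Rough P w.2
    · rw [if_pos h5, if_pos ((Cv_rough h3.1 h3.2.1).2 h5)]
      push_cast
      rfl
    · rw [if_neg h5, if_neg (fun h6 => h5 ((Cv_rough h3.1 h3.2.1).1 h6))]
  · rw [if_neg h3, if_neg h3, zero_mul]

lemma Cv_eq (P n : ℕ) : cv P n = ((Cv_S P n).card : ℝ) * Cv_c P n := by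
  unfold cv Cv_S
  rw [Finset.sum_congr rfl (Cv_term P n),
    Nat.sum_divisorsAntidiagonal (fun a _ => if a.Prime ∧ P < a ∧ a ≤ 2 * P then Cv_c P n else 0),
    ← Finset.sum_filter, Finset.sum_const, nsmul_eq_mul]

lemma Cv_sub (P n : ℕ) : Cv_S P n =
    (n.primeFactorsList.filter (fun p => P < p ∧ p ≤ 2 * P)).toFinset := by
  ext p
  unfold Cv_S
  rw [mem_filter, List.mem_toFinset, List.mem_filter, Nat.mem_divisors, Nat.mem_primeFactorsList']
  simp only [decide_eq_true_eq]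
  constructor
  · rintro ⟨⟨h1, h2⟩, h3, h4⟩
    exact ⟨⟨h3, h1, h2⟩, h4⟩
  · rintro ⟨⟨h3, h1, h2⟩, h4⟩
    exact ⟨⟨h1, h2⟩, h3, h4⟩

lemma Cv_card_le (P n : ℕ) : (Cv_S P n).card ≤ Om P n := by
  rw [Cv_sub]
  exact List.toFinset_card_le _

lemma Cv_card_eq (P n : ℕ) (hn : n ≠ 0) (h : ∀ p : ℕ, p.Prime → P < p → ¬ p ^ 2 ∣ n) :
    (Cv_S P n).card = Om P n := by
  rw [Cv_sub]
  unfold Om
  refine List.toFinset_card_of_nodup ?_
  rw [List.nodup_iff_count_le_one]
  intro p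
  by_cases hp : p ∈ n.primeFactorsList.filter (fun p => P < p ∧ p ≤ 2 * P)
  · obtain ⟨h1, h2⟩ := List.mem_filter.1 hp
    have h3 : P < p ∧ p ≤ 2 * P := of_decide_eq_true h2
    have h4 := Nat.prime_of_mem_primeFactorsList h1
    have h6 : List.count p (n.primeFactorsList.filter (fun p => P < p ∧ p ≤ 2 * P)) =
        List.count p n.primeFactorsList := List.count_filter (by simpa using h3)
    rw [h6, Nat.primeFactorsList_count_eq]
    by_contra h5
    exact h p h4 h3.1 ((h4.pow_dvd_iff_le_factorization hn).2 (by omega))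
  · rw [List.count_eq_zero_of_not_mem hp]
    exact Nat.zero_le _

theorem tCv : CvStmt := by
  intro P n _ hn
  have hc0 : 0 ≤ Cv_c P n := by
    unfold Cv_c
    split_ifs
    · positivity
    · exact le_refl _
  have hle : ((Cv_S P n).card : ℝ) ≤ (Om P n : ℝ) := by exact_mod_cast Cv_card_le P n
  rw [Cv_eq]
  refine ⟨mul_nonneg (Nat.cast_nonneg _) hc0, ?_, ?_, ?_⟩
  · unfold Cv_c
    split_ifs
    · rw [mul_one_div]
      exact div_le_one_of_le₀ hle (Nat.cast_nonneg _)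
    · rw [mul_zero]
      exact zero_le_one
  · intro h
    have h1 : (Cv_S P n).card ≠ 0 := by
      intro h2
      rw [h2, Nat.cast_zero, zero_mul] at h
      exact h rfl
    have h2 : Cv_c P n ≠ 0 := right_ne_zero_of_mul h
    constructor
    · by_contra h3
      unfold Cv_c at h2
      rw [if_neg h3] at h2
      exact h2 rfl
    · obtain ⟨p, hp⟩ := Finset.card_pos.1 (Nat.pos_of_ne_zero h1)
      obtain ⟨h4, h5, h6, h7⟩ := mem_filter.1 hp
      exact ⟨p, h5, Nat.dvd_of_mem_divisors h4, h6, h7⟩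
  · rintro hr ⟨p, hp, hpn, h1, h2⟩ hsq
    have h3 := Cv_card_eq P n (by omega) hsq
    have h4 : 0 < (Cv_S P n).card :=
      Finset.card_pos.2 ⟨p, mem_filter.2 ⟨Nat.mem_divisors.2 ⟨hpn, by omega⟩, hp, h1, h2⟩⟩
    unfold Cv_c
    rw [if_pos hr, h3]
    have h5 : (Om P n : ℝ) ≠ 0 := by
      rw [← h3]
      exact_mod_cast h4.ne'
    field_simp

end Pool.Agent.Lib.BV
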