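import Pool.Agent.Lib.BV.SpecC

/-!
MP_00e23e_nt, BV, module Cww: the convolution with second variable at least 2.
-/

namespace Pool.Agent.Lib.BV

open Finset Pool.Agent.Lib.EH3

private theorem Cww_blk_nonneg (P n : ℕ) : 0 ≤ blk P n := by
  unfold blk
  split_ifs <;> norm_num

private theorem Cww_bb_nonneg (P n : ℕ) : 0 ≤ bb P n := by
  unfold bb
  split_ifs
  · positivity
  · exact le_refl _

private theorem Cww_sum (P J m : ℕ) (hP : 1 ≤ P) :
    ∑ j ∈ range J, bj P j m = if P < m ∧ m ≤ 2 ^ J * P then bb P m else 0 := by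
  induction J with
  | zero =>
    rw [Finset.sum_range_zero, if_neg]
    rw [pow_zero, one_mul]
    omega
  | succ J ih =>
    rw [Finset.sum_range_succ, ih]
    have h1 : P ≤ 2 ^ J * P := Nat.le_mul_of_pos_left P (by positivity)
    have h2 : 2 ^ J * P ≤ 2 ^ (J + 1) * P :=
      Nat.mul_le_mul_right P (Nat.pow_le_pow_right (by norm_num) (Nat.le_succ J))
    unfold bj
    by_cases h3 : P < m
    · by_cases h4 : m ≤ 2 ^ J * P
      · rw [if_pos ⟨h3, h4⟩, if_neg (by omega), if_pos ⟨h3, h4.trans h2⟩, add_zero]
      · by_cases h5 : m ≤ 2 ^ (J + 1) * P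
        · rw [if_neg (by omega), if_pos ⟨by omega, h5⟩, if_pos ⟨h3, h5⟩, zero_add]
        · rw [if_neg (by omega), if_neg (by omega), if_neg (by omega), add_zero]
    · rw [if_neg (by omega), if_neg (by omega), if_neg (by omega), add_zero]

theorem tCww (_h : CvStmt) : CwwStmt := by
  refine ⟨?_, ?_, ?_, ?_⟩
  · intro P n hP hn
    refine ⟨?_, ?_, ?_, ?_⟩
    · unfold cw
      refine Finset.sum_nonneg fun w _ => ?_
      split_ifs
      · exact mul_nonneg (Cww_blk_nonneg _ _) (Cww_bb_nonneg _ _)
      · exact le_refl _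
    · unfold cw cv
      refine Finset.sum_le_sum fun w _ => ?_
      split_ifs
      · exact le_refl _
      · exact mul_nonneg (Cww_blk_nonneg _ _) (Cww_bb_nonneg _ _)
    · intro hp
      unfold cw
      refine Finset.sum_eq_zero fun w hw => ?_
      obtain ⟨h1, _⟩ := Nat.mem_divisorsAntidiagonal.1 hw
      split_ifs with h2
      · have h3 : blk P w.1 = 0 := by
          unfold blk
          rw [if_neg]
          rintro ⟨h4, _⟩
          rw [← h1] at hp
          exact Nat.not_prime_mul (by have := h4.two_le; omega) (by omega) hp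
        rw [h3, zero_mul]
      · rfl
    · intro hp
      unfold cw cv
      refine Finset.sum_congr rfl fun w hw => ?_
      obtain ⟨h1, h0⟩ := Nat.mem_divisorsAntidiagonal.1 hw
      split_ifs with h2
      · rfl
      · have h4 : w.2 ≠ 0 := by
          intro h5
          rw [h5, mul_zero] at h1
          exact h0 h1.symm
        have h5 : w.2 = 1 := by omega
        rw [h5, mul_one] at h1
        have h3 : blk P w.1 = 0 := by
          unfold blk
          rw [if_neg]
          rintro ⟨h6, _⟩
          rw [h1] at h6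
          exact hp h6
        rw [h3, zero_mul]
  · intro P J m hP hm hmJ
    rw [Cww_sum P J m hP]
    by_cases h3 : P < m
    · rw [if_pos ⟨h3, hmJ⟩]
    · rw [if_neg (by omega)]
      unfold bb
      rw [if_neg]
      intro hr
      have h4 := hr m.minFac (Nat.minFac_prime (by omega)) (Nat.minFac_dvd m)
      have h5 := Nat.minFac_le (n := m) (by omega)
      omega
  · intro P J m hP
    rw [Cww_sum P J m hP]
    have := Cww_bb_nonneg P m
    split_ifs
    · exact ⟨this, le_refl _⟩
    · exact ⟨le_refl _, this⟩
  · intro P j m hP hm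
    unfold bj
    rw [if_neg]
    have h1 : P ≤ 2 ^ j * P := Nat.le_mul_of_pos_left P (by positivity)
    omega

end Pool.Agent.Lib.BV
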