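import Pool.Agent.Lib.BV.SpecD

/-! Module Dda: dyadic sum, rough part. -/

namespace Pool.Agent.Lib.BV

open Finset Pool.Agent.Lib.EH3 Pool.Agent.Results.MP_00e23e_nt

theorem Dda_kappa (K0 : ℝ) (hK : 16 ≤ K0) :
    1 ≤ Real.log K0 ∧ Real.log K0 ≤ K0 ∧ 1 ≤ Real.log K0 * Real.log (Real.log K0) := by
  have h16 : Real.log 16 = 4 * Real.log 2 := by
    rw [show (16 : ℝ) = 2 ^ (4 : ℕ) by norm_num, Real.log_pow]; norm_num
  have h2 := Real.log_two_gt_d9
  have h3 : Real.log 16 ≤ Real.log K0 := Real.log_le_log (by norm_num) hK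
  have he := Real.exp_one_lt_d9
  have h4 : Real.exp 1 ≤ Real.log K0 := by
    rw [h16] at h3
    linarith
  have hexp : (0 : ℝ) < Real.exp 1 := Real.exp_pos 1
  have h1e : (1 : ℝ) ≤ Real.exp 1 := Real.one_le_exp (by norm_num)
  have h5 : 1 ≤ Real.log (Real.log K0) := by
    have := Real.log_le_log hexp h4
    rwa [Real.log_exp] at this
  have h6 : 1 ≤ Real.log K0 := le_trans h1e h4
  refine ⟨h6, ?_, ?_⟩
  · have := Real.log_le_sub_one_of_pos (show 0 < K0 by linarith)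
    linarith
  · nlinarith

theorem Dda_term (x K0 z L κ b : ℝ) (hx : 0 ≤ x) (hK : 0 < K0) (hL : 0 < L) (hκ : 0 < κ)
    (hz : L / (400 * κ) ≤ Real.log z) (hb : Real.exp (-b) ≤ 1 / K0 ^ 2) :
    x * (Real.exp (-b) / Real.log z) ≤ x * (400 * κ / (K0 ^ 2 * L)) := by
  apply mul_le_mul_of_nonneg_left _ hx
  have h0 : 0 < L / (400 * κ) := by positivity
  calc Real.exp (-b) / Real.log z ≤ (1 / K0 ^ 2) / (L / (400 * κ)) :=
        div_le_div₀ (by positivity) hb h0 hz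
    _ = 400 * κ / (K0 ^ 2 * L) := by field_simp

theorem tDda (h1 : RyyStmt) (h2 : TdyStmt) (h3 : PmtStmt) : DdaStmt := by
  intro A hA
  obtain ⟨C, hC, hR⟩ := h1
  obtain ⟨x0, hx0, hP⟩ := h3 A hA
  refine ⟨3200 * C + 1, x0, by positivity, hx0, ?_⟩
  intro x K0 D y l hx hK hKA hD hDK hy hl
  obtain ⟨p1, p2, p3, p4, p5, p6, -, -, -, -⟩ := hP x K0 hx hK hKA
  obtain ⟨k1, k2, k3⟩ := Dda_kappa K0 hK
  have hx16 : 16 ≤ x := le_trans hx0 hx
  have hxpos : 0 < x := by linarith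
  have hK0 : 0 < K0 := by linarith
  have hL : 0 < Real.log x := Real.log_pos (by linarith)
  set L := Real.log x with hLdef
  set κ := Real.log K0 with hκdef
  set z := zz x K0 with hzdef
  set b := b0 K0 with hbdef
  have hκ : 0 < κ := by linarith
  have hterm : ∀ d ∈ Ioc (D / 2) D,
      ‖cls (fun n => (RY z (y d) n : ℂ)) (4 * ⌊x⌋₊) d (l d) -
        (1 / (d.totient : ℂ)) *
          ∑ n ∈ (Icc 1 (4 * ⌊x⌋₊)).filter (fun n => n.Coprime d), (RY z (y d) n : ℂ)‖ ≤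
      C * (x * (400 * κ / (K0 ^ 2 * L))) * (1 / (d.totient : ℝ)) + x ^ ((1 : ℝ) / 4) := by
    intro d hd
    rw [Finset.mem_Ioc] at hd
    have hd1 : 1 ≤ d := by omega
    have ht : (0 : ℝ) < d.totient := by exact_mod_cast Nat.totient_pos.2 hd1
    have hyd := hy d
    have hfl : ⌊y d⌋₊ ≤ 4 * ⌊x⌋₊ := by
      have : ⌊y d⌋₊ ≤ ⌊x⌋₊ := Nat.floor_le_floor hyd.2
      omega
    refine le_trans (hR (y d) z b d (l d) (4 * ⌊x⌋₊) (by linarith [hyd.1]) hfl p1 p2 hd1 (hl d)) ?_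
    have hzlog : 0 < Real.log (z : ℝ) := lt_of_lt_of_le (by positivity) p3
    have e1 : 0 ≤ Real.exp (-(b : ℝ)) / Real.log z := div_nonneg (Real.exp_pos _).le hzlog.le
    have e2 : y d / (d.totient : ℝ) * (Real.exp (-(b : ℝ)) / Real.log z)
        ≤ x * (400 * κ / (K0 ^ 2 * L)) * (1 / (d.totient : ℝ)) := by
      have e3 := Dda_term x K0 (z : ℝ) L κ (b : ℝ) hxpos.le hK0 hL hκ p3 p6
      have e4 : y d * (Real.exp (-(b : ℝ)) / Real.log z) ≤ x * (Real.exp (-(b : ℝ)) / Real.log z) :=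
        mul_le_mul_of_nonneg_right hyd.2 e1
      have e5 : y d / (d.totient : ℝ) * (Real.exp (-(b : ℝ)) / Real.log z)
          = y d * (Real.exp (-(b : ℝ)) / Real.log z) * (1 / (d.totient : ℝ)) := by ring
      rw [e5]
      exact mul_le_mul_of_nonneg_right (le_trans e4 e3) (by positivity)
    have e6 := mul_le_mul_of_nonneg_left e2 hC.le
    have e7 : C * (x * (400 * κ / (K0 ^ 2 * L)) * (1 / (d.totient : ℝ)))
        = C * (x * (400 * κ / (K0 ^ 2 * L))) * (1 / (d.totient : ℝ)) := by ring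
    rw [e7] at e6
    exact add_le_add e6 p5
  refine le_trans (Finset.sum_le_sum hterm) ?_
  rw [Finset.sum_add_distrib, ← Finset.mul_sum, Finset.sum_const, nsmul_eq_mul, Nat.card_Ioc]
  have hS := h2 D
  -- first part
  have f1 : C * (x * (400 * κ / (K0 ^ 2 * L))) * ∑ d ∈ Ioc (D / 2) D, 1 / (d.totient : ℝ)
      ≤ 3200 * C * (x / (K0 * L)) := by
    have g1 : C * (x * (400 * κ / (K0 ^ 2 * L))) * ∑ d ∈ Ioc (D / 2) D, 1 / (d.totient : ℝ)
        ≤ C * (x * (400 * κ / (K0 ^ 2 * L))) * 8 :=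
      mul_le_mul_of_nonneg_left hS (by positivity)
    have g2 : x * (400 * κ / (K0 ^ 2 * L)) ≤ 400 * (x / (K0 * L)) := by
      have g3 : x * (400 * κ / (K0 ^ 2 * L)) = 400 * (x / (K0 * L)) * (κ / K0) := by
        field_simp
      rw [g3]
      have g4 : κ / K0 ≤ 1 := by rw [div_le_one hK0]; exact k2
      have g5 : 0 ≤ 400 * (x / (K0 * L)) := by positivity
      exact mul_le_of_le_one_right g5 g4
    have g6 := mul_le_mul_of_nonneg_left g2 hC.le
    linarith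
  -- second part
  have f2 : ((D - D / 2 : ℕ) : ℝ) * x ^ ((1 : ℝ) / 4) ≤ x / (K0 * L) := by
    have g1 : ((D - D / 2 : ℕ) : ℝ) ≤ D := by
      exact_mod_cast Nat.sub_le _ _
    have g2 : (D : ℝ) ≤ Real.sqrt x / (K0 * L) := by
      rw [le_div_iff₀ (by positivity)]
      linarith
    have hxq : 0 ≤ x ^ ((1 : ℝ) / 4) := Real.rpow_nonneg hxpos.le _
    have g3 : ((D - D / 2 : ℕ) : ℝ) * x ^ ((1 : ℝ) / 4)
        ≤ Real.sqrt x / (K0 * L) * x ^ ((1 : ℝ) / 4) :=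
      mul_le_mul_of_nonneg_right (le_trans g1 g2) hxq
    have g4 : Real.sqrt x * x ^ ((1 : ℝ) / 4) ≤ x := by
      rw [Real.sqrt_eq_rpow, ← Real.rpow_add hxpos]
      have : x ^ ((1 : ℝ) / 2 + 1 / 4) ≤ x ^ (1 : ℝ) :=
        Real.rpow_le_rpow_of_exponent_le (by linarith) (by norm_num)
      rwa [Real.rpow_one] at this
    refine le_trans g3 ?_
    rw [div_mul_eq_mul_div]
    exact div_le_div_of_nonneg_right g4 (by positivity)
  have f3 : x / (K0 * L) ≤ MB A x K0 := by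
    unfold MB
    rw [← hLdef, ← hκdef]
    have g1 : 0 ≤ x / L ^ A := div_nonneg hxpos.le (Real.rpow_nonneg hL.le _)
    have g2 : 0 ≤ x / (K0 * L) := by positivity
    have g3 : x / (K0 * L) ≤ x / (K0 * L) * (κ * Real.log κ) := le_mul_of_one_le_right g2 k3
    linarith
  have f4 : (3200 * C + 1) * (x / (K0 * L)) ≤ (3200 * C + 1) * MB A x K0 :=
    mul_le_mul_of_nonneg_left f3 (by positivity)
  calc _ ≤ 3200 * C * (x / (K0 * L)) + x / (K0 * L) := add_le_add f1 f2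
    _ = (3200 * C + 1) * (x / (K0 * L)) := by ring
    _ ≤ _ := f4

end Pool.Agent.Lib.BV
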