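import Pool.Agent.Lib.BV.SpecD

/-!
MP_00e23e_nt, directory Lib/BV, module Ddb: the error function of the decomposition, summed over a dyadic
block of moduli.
-/

namespace Pool.Agent.Lib.BV

open Finset Pool.Agent.Lib.EH3 Pool.Agent.Results.MP_00e23e_nt

private theorem Ddb_log16 : (2.72 : ℝ) ≤ Real.log 16 := by
  have h : Real.log 16 = 4 * Real.log 2 := by
    rw [show (16 : ℝ) = 2 ^ 4 by norm_num, Real.log_pow]; norm_num
  rw [h]; have := Real.log_two_gt_d9; linarith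

private theorem Ddb_loglog (K : ℝ) (hK : 16 ≤ K) : 1 ≤ Real.log (Real.log K) := by
  have h16 := Real.log_le_log (by norm_num) hK
  have h2 := Ddb_log16
  rw [Real.le_log_iff_exp_le (by linarith)]
  have h1 : Real.exp 1 < 2.7182818286 := Real.exp_one_lt_d9
  linarith

theorem tDdb (h1 : GysStmt) (h2 : TdyStmt) (h3 : PmtStmt) (h4 : AsyStmt) : DdbStmt := by
  intro A hA
  obtain ⟨C1, hC1, hg⟩ := h1
  obtain ⟨xa, hxa16, hpm⟩ := h3 A hA
  obtain ⟨xb, hxb16, has⟩ := h4 A A hA hA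
  refine ⟨100 + 64000 * C1, max xa xb, by positivity, hxa16.trans (le_max_left _ _), ?_⟩
  intro x K0 D y l hx hK0 hK0' hD hDK hy hl
  have hxa : xa ≤ x := (le_max_left _ _).trans hx
  have hxb : xb ≤ x := (le_max_right _ _).trans hx
  obtain ⟨p1, p2, p3, p4, p5, p6, p7, p8, p9, p10⟩ := hpm x K0 hxa hK0 hK0'
  obtain ⟨a1, a2, a3, a4⟩ := has x hxb
  have hx16 : 16 ≤ x := hxa16.trans hxa
  have hx0 : 0 < x := by linarith
  have hx1 : 1 ≤ x := by linarith
  have hK0pos : 0 < K0 := by linarith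
  have hL0 : 0 < Real.log x := by linarith
  have hκ0 : 0 < Real.log K0 := Real.log_pos (by linarith)
  have hκ1 : 1 ≤ Real.log K0 := by
    have := Real.log_le_log (by norm_num) hK0
    linarith [Ddb_log16]
  have hll := Ddb_loglog K0 hK0
  have hLA : 0 < (Real.log x) ^ A := Real.rpow_pos_of_pos hL0 _
  have hZ2 : (2 : ℝ) ≤ (zz x K0 : ℝ) := by exact_mod_cast p1
  generalize hz : zz x K0 = z at *
  have hZ0 : (0 : ℝ) < (z : ℝ) := by linarith
  have hZ1 : (1 : ℝ) ≤ (z : ℝ) := by linarith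
  have hlz : 0 < Real.log (z : ℝ) := Real.log_pos (by linarith)
  have hsx : 0 < Real.sqrt x := Real.sqrt_pos.mpr hx0
  have hsx1 : 1 ≤ Real.sqrt x := by rw [Real.one_le_sqrt]; exact hx1
  have hss : Real.sqrt x * Real.sqrt x = x := Real.mul_self_sqrt hx0.le
  -- sizes
  have hquart : x ^ ((1 : ℝ) / 4) ≤ Real.sqrt x := by
    rw [Real.sqrt_eq_rpow]
    exact Real.rpow_le_rpow_of_exponent_le hx1 (by norm_num)
  have hz16 : (z : ℝ) ^ 16 ≤ Real.sqrt x := by
    refine le_trans ?_ (p5.trans hquart)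
    exact pow_le_pow_right₀ hZ1 (by omega)
  have hzs : (z : ℝ) ≤ Real.sqrt x := by
    refine le_trans ?_ hz16
    calc (z : ℝ) = (z : ℝ) ^ 1 := (pow_one _).symm
      _ ≤ (z : ℝ) ^ 16 := pow_le_pow_right₀ hZ1 (by norm_num)
  have hsA : Real.sqrt x ≤ x / (Real.log x) ^ A := by
    rw [le_div_iff₀ hLA]
    have h5 : (Real.log x) ^ A ≤ Real.sqrt x := by
      refine a3.trans ?_
      rw [Real.sqrt_eq_rpow]
      exact Real.rpow_le_rpow_of_exponent_le hx1 (by norm_num)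
    calc Real.sqrt x * (Real.log x) ^ A ≤ Real.sqrt x * Real.sqrt x :=
          mul_le_mul_of_nonneg_left h5 hsx.le
      _ = x := hss
  have hzA : x / (z : ℝ) ≤ x / (Real.log x) ^ A := by
    have h6 : (Real.log x) ^ A ≤ (z : ℝ) := by
      refine a2.trans ?_
      rw [← Real.exp_log hZ0]
      exact Real.exp_le_exp.mpr p4
    exact div_le_div_of_nonneg_left hx0.le hLA h6
  have hK0x : K0 ≤ x := by
    refine hK0'.trans (a3.trans ?_)
    calc x ^ ((1 : ℝ) / 8) ≤ x ^ (1 : ℝ) := Real.rpow_le_rpow_of_exponent_le hx1 (by norm_num)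
      _ = x := Real.rpow_one x
  have hw : 1 ≤ Real.log K0 * Real.log (Real.log K0) := one_le_mul_of_one_le_of_one_le hκ1 hll
  have hwκ : Real.log K0 ≤ Real.log K0 * Real.log (Real.log K0) :=
    le_mul_of_one_le_right hκ0.le hll
  have hxKL : 0 ≤ x / (K0 * Real.log x) := by positivity
  have hMB1 : x / (Real.log x) ^ A ≤ MB A x K0 := by
    unfold MB
    have := mul_nonneg hxKL (by linarith : (0 : ℝ) ≤ Real.log K0 * Real.log (Real.log K0))
    linarith
  have hMB2 : x / (K0 * Real.log x) * Real.log K0 ≤ MB A x K0 := by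
    unfold MB
    have h7 := mul_le_mul_of_nonneg_left hwκ hxKL
    have h8 : 0 ≤ x / (Real.log x) ^ A := by positivity
    linarith
  have hMB3 : x / (K0 * Real.log x) ≤ MB A x K0 :=
    (le_mul_of_one_le_right hxKL hκ1).trans hMB2
  have hMB0 : 0 ≤ MB A x K0 := hxKL.trans hMB3
  have hT : (4 * x / K0 + 1) / Real.log (z : ℝ) ≤ 2000 * MB A x K0 := by
    have h9 : 1 ≤ x / K0 := by rw [le_div_iff₀ hK0pos]; linarith
    have h10 : 4 * x / K0 + 1 ≤ 5 * (x / K0) := by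
      have : 4 * x / K0 = 4 * (x / K0) := by ring
      linarith
    have h11 : 0 < Real.log x / (400 * Real.log K0) := by positivity
    calc (4 * x / K0 + 1) / Real.log (z : ℝ) ≤ (5 * (x / K0)) / (Real.log x / (400 * Real.log K0)) := by
          refine div_le_div₀ (by positivity) h10 h11 p3
      _ = 2000 * (x / (K0 * Real.log x) * Real.log K0) := by field_simp; ring
      _ ≤ 2000 * MB A x K0 := by linarith
  have hDs : (D : ℝ) * Real.sqrt x ≤ MB A x K0 := by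
    refine le_trans ?_ hMB3
    rw [le_div_iff₀ (by positivity)]
    calc (D : ℝ) * Real.sqrt x * (K0 * Real.log x) = ((D : ℝ) * K0 * Real.log x) * Real.sqrt x := by ring
      _ ≤ Real.sqrt x * Real.sqrt x := mul_le_mul_of_nonneg_right hDK hsx.le
      _ = x := hss
  -- the bounds for one modulus
  have hη : (0 : ℝ) < 1 / K0 := by positivity
  have hη2 : 1 / K0 ≤ (1 : ℝ) / 2 := by
    apply one_div_le_one_div_of_le (by norm_num); linarith
  have hyJ : ∀ d, y d ≤ (2 : ℝ) ^ (JJ x) := fun d => (hy d).2.trans p10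
  have hyK : ∀ d, y d ≤ ((z : ℝ) * 2 ^ (KK x K0)) ^ 2 := fun d => (hy d).2.trans p7
  have hgen : ∀ d d' l' : ℕ, 1 ≤ d' → l'.Coprime d' →
      ∑ n ∈ (Icc 1 (4 * ⌊x⌋₊)).filter (fun n => n ≡ l' [MOD d']),
        |GY (1 / K0) z (KK x K0) (JJ x) (y d) n| ≤
      (1 / (d'.totient : ℝ)) * ((z : ℝ) + x / z + C1 * ((4 * x / K0 + 1) / Real.log z)) +
        (1 + Real.sqrt x + (z : ℝ) ^ 16) := by
    intro d d' l' hd' hl'
    refine (hg (1 / K0) (y d) z (KK x K0) (JJ x) d' l' (4 * ⌊x⌋₊) hη hη2 p1 (hy d).1 (hyJ d)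
      (hyK d) hd' hl').trans ?_
    have hdr : (0 : ℝ) < (d' : ℝ) := by exact_mod_cast hd'
    have hφ : (0 : ℝ) < (d'.totient : ℝ) := by exact_mod_cast Nat.totient_pos.mpr hd'
    have hφd : (1 : ℝ) / d' ≤ 1 / (d'.totient : ℝ) :=
      one_div_le_one_div_of_le hφ (by exact_mod_cast Nat.totient_le d')
    have hy0 : 0 ≤ y d := by linarith [(hy d).1]
    have e1 : (z : ℝ) / d' ≤ (1 / (d'.totient : ℝ)) * z := by
      calc (z : ℝ) / d' = (1 / d') * z := by ring
        _ ≤ _ := mul_le_mul_of_nonneg_right hφd hZ0.le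
    have e2 : y d / ((z : ℝ) * d') ≤ (1 / (d'.totient : ℝ)) * (x / z) := by
      calc y d / ((z : ℝ) * d') = (1 / d') * (y d / z) := by field_simp
        _ ≤ (1 / (d'.totient : ℝ)) * (x / z) :=
          mul_le_mul hφd (div_le_div_of_nonneg_right (hy d).2 hZ0.le) (by positivity) (by positivity)
    have e3 : Real.sqrt (y d) ≤ Real.sqrt x := Real.sqrt_le_sqrt (hy d).2
    have e4 : C1 * ((4 * (1 / K0) * y d + 1) / ((d'.totient : ℝ) * Real.log z)) ≤
        (1 / (d'.totient : ℝ)) * (C1 * ((4 * x / K0 + 1) / Real.log z)) := by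
      have e5 : 4 * (1 / K0) * y d + 1 ≤ 4 * x / K0 + 1 := by
        have := mul_le_mul_of_nonneg_left (hy d).2 (by positivity : (0 : ℝ) ≤ 4 * (1 / K0))
        have e6 : 4 * x / K0 = 4 * (1 / K0) * x := by ring
        linarith
      calc C1 * ((4 * (1 / K0) * y d + 1) / ((d'.totient : ℝ) * Real.log z))
          ≤ C1 * ((4 * x / K0 + 1) / ((d'.totient : ℝ) * Real.log z)) := by gcongr
        _ = _ := by field_simp
    calc _ ≤ ((1 / (d'.totient : ℝ)) * z + 1) + ((1 / (d'.totient : ℝ)) * (x / z) + Real.sqrt x) +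
          (1 / (d'.totient : ℝ)) * (C1 * ((4 * x / K0 + 1) / Real.log z)) + (z : ℝ) ^ 16 := by
          linarith
      _ = _ := by ring
  have hall : ∀ d : ℕ, ∑ n ∈ Icc 1 (4 * ⌊x⌋₊), |GY (1 / K0) z (KK x K0) (JJ x) (y d) n| ≤
      ((z : ℝ) + x / z + C1 * ((4 * x / K0 + 1) / Real.log z)) + (1 + Real.sqrt x + (z : ℝ) ^ 16) := by
    intro d
    have h12 := hgen d 1 0 le_rfl (Nat.coprime_one_right 0)
    have h13 : (Icc 1 (4 * ⌊x⌋₊)).filter (fun n => n ≡ 0 [MOD 1]) = Icc 1 (4 * ⌊x⌋₊) := by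
      apply filter_true_of_mem
      intro n _
      exact Nat.modEq_one
    rw [h13, Nat.totient_one, Nat.cast_one, one_div_one, one_mul] at h12
    exact h12
  set M1 : ℝ := (z : ℝ) + x / z + C1 * ((4 * x / K0 + 1) / Real.log z) with hM1
  set M2 : ℝ := 1 + Real.sqrt x + (z : ℝ) ^ 16 with hM2
  have hM1b : M1 ≤ 2 * MB A x K0 + C1 * (2000 * MB A x K0) := by
    have := mul_le_mul_of_nonneg_left hT hC1.le
    have h14 : (z : ℝ) ≤ MB A x K0 := hzs.trans (hsA.trans hMB1)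
    have h15 : x / (z : ℝ) ≤ MB A x K0 := hzA.trans hMB1
    rw [hM1]; linarith
  have hM2b : M2 ≤ 3 * Real.sqrt x := by rw [hM2]; linarith
  have hM20 : 0 ≤ M2 := by rw [hM2]; positivity
  have hM10 : 0 ≤ M1 := by
    rw [hM1]
    have : 0 ≤ (4 * x / K0 + 1) / Real.log (z : ℝ) := by positivity
    positivity
  have hsum : ∀ d ∈ Ioc (D / 2) D,
      (∑ n ∈ (Icc 1 (4 * ⌊x⌋₊)).filter (fun n => n ≡ l d [MOD d]),
          |GY (1 / K0) z (KK x K0) (JJ x) (y d) n| +
        (1 / (d.totient : ℝ)) * ∑ n ∈ Icc 1 (4 * ⌊x⌋₊),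
          |GY (1 / K0) z (KK x K0) (JJ x) (y d) n|) ≤
      (1 / (d.totient : ℝ)) * (2 * M1 + M2) + M2 := by
    intro d hd
    have hd1 : 1 ≤ d := by have := (mem_Ioc.mp hd).1; omega
    have h16 := hgen d d (l d) hd1 (hl d)
    have h17 := mul_le_mul_of_nonneg_left (hall d) (by positivity : (0 : ℝ) ≤ 1 / (d.totient : ℝ))
    calc _ ≤ ((1 / (d.totient : ℝ)) * M1 + M2) + (1 / (d.totient : ℝ)) * (M1 + M2) := add_le_add h16 h17
      _ = _ := by ring
  refine (sum_le_sum hsum).trans ?_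
  rw [sum_add_distrib, ← sum_mul, sum_const, nsmul_eq_mul, Nat.card_Ioc]
  have h18 := mul_le_mul_of_nonneg_right (h2 D) (by linarith : (0 : ℝ) ≤ 2 * M1 + M2)
  have h19 : ((D - D / 2 : ℕ) : ℝ) * M2 ≤ 3 * MB A x K0 := by
    have h20 : ((D - D / 2 : ℕ) : ℝ) ≤ D := by exact_mod_cast Nat.sub_le D (D / 2)
    calc ((D - D / 2 : ℕ) : ℝ) * M2 ≤ (D : ℝ) * (3 * Real.sqrt x) :=
          mul_le_mul h20 hM2b hM20 (Nat.cast_nonneg D)
      _ = 3 * ((D : ℝ) * Real.sqrt x) := by ring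
      _ ≤ _ := by linarith
  have h21 : M2 ≤ 3 * MB A x K0 := hM2b.trans (by linarith [hsA.trans hMB1])
  have h22 : 0 ≤ C1 * MB A x K0 := mul_nonneg hC1.le hMB0
  have h23 : C1 * (2000 * MB A x K0) = 2000 * (C1 * MB A x K0) := by ring
  have h24 : (100 + 64000 * C1) * MB A x K0 = 100 * MB A x K0 + 64000 * (C1 * MB A x K0) := by ring
  rw [h23] at hM1b
  calc _ ≤ 8 * (2 * M1 + M2) + 3 * MB A x K0 := add_le_add h18 h19
    _ ≤ (100 + 64000 * C1) * MB A x K0 := by rw [h24]; linarith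

end Pool.Agent.Lib.BV
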