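import Pool.Agent.Lib.BV.SpecD

/-!
MP_00e23e_nt, BV, module Ddc: dyadic sum, low conductors and main term.
-/

namespace Pool.Agent.Lib.BV

open Finset Pool.Agent.Lib.EH3 Pool.Agent.Results.MP_00e23e_nt

theorem tDdc (h1 : LowStmt) (h2 : MtmStmt) (h3 : TdyStmt) (h4 : PmtStmt) (h5 : AsyStmt) :
    DdcStmt := by
  intro A hA
  obtain ⟨C1, x1, hC1, hLow⟩ := h1 A (A + 4) hA (by linarith)
  obtain ⟨C2, hC2, hM⟩ := h2 A hA
  obtain ⟨x4, hx4, hP⟩ := h4 A hA
  obtain ⟨x5, hx5, hAs⟩ := h5 A (A + 1) hA (by linarith)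
  refine ⟨8 * (C1 + C2 + 2), max x1 (max x4 x5), by positivity,
    le_max_of_le_right (le_max_of_le_left hx4), ?_⟩
  intro x K0 D y l hx hK hKA hD hDx hy hl
  have hx1 : x1 ≤ x := (le_max_left _ _).trans hx
  have hx4' : x4 ≤ x := ((le_max_left _ _).trans (le_max_right _ _)).trans hx
  have hx5' : x5 ≤ x := ((le_max_right _ _).trans (le_max_right _ _)).trans hx
  have hx16 : 16 ≤ x := hx4.trans hx4'
  obtain ⟨-, -, -, hz, -, -, -, -, hKL, -⟩ := hP x K0 hx4' hK hKA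
  obtain ⟨-, -, hL8, hL100⟩ := hAs x hx5'
  obtain ⟨L, hL⟩ : ∃ L, L = Real.log x := ⟨_, rfl⟩
  rw [← hL] at hL8 hL100 hKL hz hKA hDx
  have hL0 : 0 < L := by linarith
  have hLA : 0 < L ^ A := Real.rpow_pos_of_pos hL0 A
  have hx0 : 0 < x := by linarith
  -- the size of D
  have hD1 : (1 : ℝ) ≤ D := by exact_mod_cast hD
  have hDx' : (D : ℝ) ≤ x := by
    have h6 : (D : ℝ) ≤ D * K0 * L := by
      have h7 : (1 : ℝ) ≤ K0 * L := by nlinarith
      calc (D : ℝ) = D * 1 := (mul_one _).symm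
        _ ≤ D * (K0 * L) := mul_le_mul_of_nonneg_left h7 (by linarith)
        _ = D * K0 * L := by ring
    have h8 : Real.sqrt x ≤ x := by
      rw [Real.sqrt_le_left hx0.le]
      nlinarith
    linarith
  -- 2 L
  have h2L : 2 * L ≤ 2 * (x / L ^ A) := by
    have h6 : L ^ (A + 1) = L ^ A * L := by
      rw [Real.rpow_add hL0, Real.rpow_one]
    have h7 : x ^ ((1 : ℝ) / 8) ≤ x := by
      have h8 : x ^ ((1 : ℝ) / 8) ≤ x ^ (1 : ℝ) :=
        Real.rpow_le_rpow_of_exponent_le (by linarith) (by norm_num)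
      rwa [Real.rpow_one] at h8
    have h9 : L ≤ x / L ^ A := by
      rw [le_div_iff₀ hLA]
      rw [h6] at hL8
      linarith
    linarith
  -- the terms
  have hterm : ∀ d ∈ Ioc (D / 2) D,
      (‖del (fun c => 1 < c ∧ c ≤ ⌊(Real.log x) ^ (A + 4)⌋₊)
          (fun n => (FY (1 / K0) (zz x K0) (KK x K0) (JJ x) (y d) n : ℂ)) (4 * ⌊x⌋₊) d (l d)‖ +
        (1 / (d.totient : ℝ)) * (|npr (y d) - li (y d)| + (d.primeFactors.card : ℝ))) ≤
      (C1 + C2 + 2) * (x / L ^ A) * (1 / (d.totient : ℝ)) := by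
    intro d hd
    obtain ⟨hd1, hd2⟩ := Finset.mem_Ioc.1 hd
    have hd0 : 1 ≤ d := by omega
    have hdD : (d : ℝ) ≤ D := by exact_mod_cast hd2
    have hd1' : (1 : ℝ) ≤ d := by exact_mod_cast hd0
    have h6 := hLow x (1 / K0) (zz x K0) (KK x K0) (JJ x) ⌊(Real.log x) ^ (A + 4)⌋₊ d (l d) (y d)
      hx1 (by positivity) (by
        apply one_div_le_one_div_of_le (by norm_num)
        linarith) (by rw [← hL]; exact hz) (by rw [← hL]; exact hKL) hd0 (hdD.trans hDx')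
      (Nat.floor_le (Real.rpow_nonneg (by rw [← hL]; linarith) _)) (hy d).2
    rw [← hL] at h6 ⊢
    have h7 := hM x (y d) hx16 (hy d).1 (hy d).2
    rw [← hL] at h7
    have h8 : (d.primeFactors.card : ℝ) ≤ 2 * L := by
      refine (Pool.Agent.Lib.EH.card_primeFactors_le hd0).trans ?_
      have : Real.log d ≤ Real.log x := Real.log_le_log (by linarith) (hdD.trans hDx')
      rw [hL]
      linarith
    have h9 : 0 ≤ 1 / (d.totient : ℝ) := by positivity
    have h10 : (1 / (d.totient : ℝ)) * (|npr (y d) - li (y d)| + (d.primeFactors.card : ℝ)) ≤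
        (1 / (d.totient : ℝ)) * (C2 * (x / L ^ A) + 2 * (x / L ^ A)) :=
      mul_le_mul_of_nonneg_left (add_le_add h7 (h8.trans h2L)) h9
    calc _ ≤ (1 / (d.totient : ℝ)) * (C1 * (x / L ^ A)) +
          (1 / (d.totient : ℝ)) * (C2 * (x / L ^ A) + 2 * (x / L ^ A)) := add_le_add h6 h10
      _ = (C1 + C2 + 2) * (x / L ^ A) * (1 / (d.totient : ℝ)) := by ring
  refine (Finset.sum_le_sum hterm).trans ?_
  rw [← Finset.mul_sum]
  have h11 : (C1 + C2 + 2) * (x / L ^ A) * ∑ d ∈ Ioc (D / 2) D, 1 / (d.totient : ℝ) ≤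
      (C1 + C2 + 2) * (x / L ^ A) * 8 :=
    mul_le_mul_of_nonneg_left (h3 D) (by positivity)
  refine h11.trans ?_
  have hlog16 : 1 ≤ Real.log K0 := by
    rw [Real.le_log_iff_exp_le (by linarith)]
    have := Real.exp_one_lt_d9
    linarith
  have h12 : x / L ^ A ≤ MB A x K0 := by
    unfold MB
    rw [← hL]
    have h13 : 0 ≤ x / (K0 * L) * (Real.log K0 * Real.log (Real.log K0)) := by
      have h14 : 0 ≤ Real.log (Real.log K0) := Real.log_nonneg hlog16
      have h15 : 0 ≤ Real.log K0 := by linarith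
      positivity
    linarith
  calc (C1 + C2 + 2) * (x / L ^ A) * 8 = 8 * (C1 + C2 + 2) * (x / L ^ A) := by ring
    _ ≤ 8 * (C1 + C2 + 2) * MB A x K0 := mul_le_mul_of_nonneg_left h12 (by positivity)

end Pool.Agent.Lib.BV
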