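import Pool.Agent.Lib.BV.SpecC

/-!
MP_00e23e_nt, BV, module Dew: decomposition of the primes (second variable at least 2).
-/

namespace Pool.Agent.Lib.BV

open Finset Pool.Agent.Lib.EH3

private theorem Dew_rough_mono {P Q n : ℕ} (h : P ≤ Q) (hr : Rough Q n) : Rough P n :=
  fun p hp hpn => lt_of_le_of_lt h (hr p hp hpn)

theorem tDew (h1 : CvStmt) (h2 : ScvStmt) (h3 : CwwStmt) : DewStmt := by
  classical
  intro z K n hz hn hnK
  have hpos : ∀ j : ℕ, 1 ≤ z * 2 ^ j := fun j => Nat.one_le_iff_ne_zero.mpr (by positivity)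
  have hzj : ∀ j : ℕ, z ≤ z * 2 ^ j := fun j => Nat.le_mul_of_pos_right z (by positivity)
  have hnn : ∀ k ∈ range K, 0 ≤ cv (z * 2 ^ k) n := fun k _ => (h1 (z * 2 ^ k) n (hpos k) hn).1
  have hS1 : ∑ k ∈ range K, cv (z * 2 ^ k) n ≤ 1 := h2 z K n hz hn
  have hA : (0 : ℝ) ≤ (if n ≤ z then (1 : ℝ) else 0) := by split_ifs <;> norm_num
  have hB : (0 : ℝ) ≤ (if ∃ p : ℕ, p.Prime ∧ z < p ∧ p ^ 2 ∣ n then (1 : ℝ) else 0) := by
    split_ifs <;> norm_num
  by_cases hprime : n.Prime
  · have hS : ∑ k ∈ range K, cw (z * 2 ^ k) n = 0 :=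
      Finset.sum_eq_zero fun k _ => (h3.1 (z * 2 ^ k) n (hpos k) hn).2.2.1 hprime
    rw [hS, if_pos hprime]
    by_cases hR : Rough z n
    · have hrr : rr z n = 1 := by
        unfold rr
        rw [if_pos hR]
      rw [hrr]
      have h7 : |(1 : ℝ) - 1 + 0| = 0 := by norm_num
      rw [h7]
      exact add_nonneg hA hB
    · have hrr : rr z n = 0 := by
        unfold rr
        rw [if_neg hR]
      have hle : n ≤ z := by
        by_contra hlt
        apply hR
        intro p hp hpn
        have h4 : p = n := (Nat.prime_dvd_prime_iff_eq hp hprime).mp hpn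
        omega
      rw [hrr, if_pos hle]
      have h7 : |(1 : ℝ) - 0 + 0| = 1 := by norm_num
      rw [h7]
      linarith
  · have hS : ∑ k ∈ range K, cw (z * 2 ^ k) n = ∑ k ∈ range K, cv (z * 2 ^ k) n :=
      Finset.sum_congr rfl fun k _ => (h3.1 (z * 2 ^ k) n (hpos k) hn).2.2.2 hprime
    rw [hS, if_neg hprime]
    have hS0 : 0 ≤ ∑ k ∈ range K, cv (z * 2 ^ k) n := Finset.sum_nonneg hnn
    by_cases hR : Rough z n
    · have hrr : rr z n = 1 := by
        unfold rr
        rw [if_pos hR]
      rw [hrr]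
      rcases Nat.lt_or_ge n 2 with hn2 | hn2
      · have hle : n ≤ z := by omega
        rw [if_pos hle]
        rw [abs_le]
        constructor <;> linarith
      · by_cases hq : ∃ p : ℕ, p.Prime ∧ z < p ∧ p ^ 2 ∣ n
        · rw [if_pos hq]
          rw [abs_le]
          constructor <;> linarith
        · have hmp : n.minFac.Prime := Nat.minFac_prime (by omega)
          have hzp : z < n.minFac := hR _ hmp (Nat.minFac_dvd n)
          have hpp : n.minFac ^ 2 ≤ n := Nat.minFac_sq_le_self (by omega) hprime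
          have hpK : n.minFac ≤ z * 2 ^ K := by
            have h4 : n.minFac ^ 2 ≤ (z * 2 ^ K) ^ 2 := hpp.trans hnK
            exact (Nat.pow_le_pow_iff_left (by norm_num)).mp h4
          have hex : ∃ j, n.minFac ≤ z * 2 ^ j := ⟨K, hpK⟩
          have hj1 : n.minFac ≤ z * 2 ^ (Nat.find hex) := Nat.find_spec hex
          have hjK : Nat.find hex ≤ K := Nat.find_min' hex hpK
          have hj0 : Nat.find hex ≠ 0 := by
            intro h0
            rw [h0, pow_zero, mul_one] at hj1
            omega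
          obtain ⟨k, hk⟩ := Nat.exists_eq_succ_of_ne_zero hj0
          have hk1 : z * 2 ^ k < n.minFac := by
            have h4 := Nat.find_min hex (m := k) (by omega)
            omega
          have hk2 : n.minFac ≤ 2 * (z * 2 ^ k) := by
            have h6 : z * 2 ^ (k + 1) = 2 * (z * 2 ^ k) := by ring
            rw [hk, Nat.succ_eq_add_one, h6] at hj1
            exact hj1
          have hkK : k < K := by omega
          have hRk : Rough (z * 2 ^ k) n := by
            intro q hq' hqn
            exact lt_of_lt_of_le hk1 (Nat.minFac_le_of_dvd hq'.two_le hqn)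
          have hcv : cv (z * 2 ^ k) n = 1 := by
            refine (h1 (z * 2 ^ k) n (hpos k) hn).2.2.2 hRk
              ⟨n.minFac, hmp, Nat.minFac_dvd n, hk1, hk2⟩ ?_
            intro q hqp hqz hqn
            exact hq ⟨q, hqp, lt_of_le_of_lt (hzj k) hqz, hqn⟩
          have hge : cv (z * 2 ^ k) n ≤ ∑ k ∈ range K, cv (z * 2 ^ k) n :=
            Finset.single_le_sum hnn (Finset.mem_range.mpr hkK)
          rw [hcv] at hge
          have hS2 : ∑ k ∈ range K, cv (z * 2 ^ k) n = 1 := le_antisymm hS1 hge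
          rw [hS2]
          have h7 : |(0 : ℝ) - 1 + 1| = 0 := by norm_num
          rw [h7]
          exact add_nonneg hA hB
    · have hrr : rr z n = 0 := by
        unfold rr
        rw [if_neg hR]
      have hS2 : ∑ k ∈ range K, cv (z * 2 ^ k) n = 0 := by
        apply Finset.sum_eq_zero
        intro k _
        by_contra hc
        obtain ⟨hr, _⟩ := (h1 (z * 2 ^ k) n (hpos k) hn).2.2.1 hc
        exact hR (Dew_rough_mono (hzj k) hr)
      rw [hrr, hS2]
      have h7 : |(0 : ℝ) - 0 + 0| = 0 := by norm_num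
      rw [h7]
      exact add_nonneg hA hB

end Pool.Agent.Lib.BV
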