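import Pool.Agent.Lib.BV.SpecD

/-!
MP_00e23e_nt, Lib/BV, module Dya: the dyadic theorem.
-/

namespace Pool.Agent.Lib.BV

open Finset Pool.Agent.Lib.EH3 Pool.Agent.Results.MP_00e23e_nt

theorem tDya (h1 : PtwStmt) (h2 : DdaStmt) (h3 : DdbStmt) (h4 : DdcStmt) (h5 : DddStmt) :
    DyaStmt := by
  intro A hA
  obtain ⟨C2, x2, hC2, hx2, H2⟩ := h2 A hA
  obtain ⟨C3, x3, hC3, hx3, H3⟩ := h3 A hA
  obtain ⟨C4, x4, hC4, hx4, H4⟩ := h4 A hA
  obtain ⟨C5, x5, hC5, hx5, H5⟩ := h5 A hA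
  refine ⟨C2 + C3 + C4 + C5, max (max x2 x3) (max x4 x5), by positivity,
    hx2.trans ((le_max_left _ _).trans (le_max_left _ _)), ?_⟩
  intro x K0 D y l hx hK hKA hD hDK hy hl
  have hxx2 : x2 ≤ x := ((le_max_left _ _).trans (le_max_left _ _)).trans hx
  have hxx3 : x3 ≤ x := ((le_max_right _ _).trans (le_max_left _ _)).trans hx
  have hxx4 : x4 ≤ x := ((le_max_left _ _).trans (le_max_right _ _)).trans hx
  have hxx5 : x5 ≤ x := ((le_max_right _ _).trans (le_max_right _ _)).trans hx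
  have hx16 : 16 ≤ x := hx2.trans hxx2
  have g2 := H2 x K0 D y l hxx2 hK hKA hD hDK hy hl
  have g3 := H3 x K0 D y l hxx3 hK hKA hD hDK hy hl
  have g4 := H4 x K0 D y l hxx4 hK hKA hD hDK hy hl
  have g5 := H5 x K0 D y l hxx5 hK hKA hD hDK hy hl
  have hlog : 1 ≤ Real.log x := by
    rw [Real.le_log_iff_exp_le (by linarith)]
    have := Real.exp_one_lt_d9
    linarith
  have hQ : 1 ≤ ⌊(Real.log x) ^ (A + 4)⌋₊ := by
    rw [Nat.one_le_floor_iff]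
    exact Real.one_le_rpow hlog (by linarith)
  have hK0 : 0 < 1 / K0 := by positivity
  have key : ∀ d ∈ Ioc (D / 2) D, |err (y d) d (l d)| ≤
      ‖cls (fun n => (RY (zz x K0) (y d) n : ℂ)) (4 * ⌊x⌋₊) d (l d) -
        (1 / (d.totient : ℂ)) *
          ∑ n ∈ (Icc 1 (4 * ⌊x⌋₊)).filter (fun n => n.Coprime d), (RY (zz x K0) (y d) n : ℂ)‖ +
      (∑ n ∈ (Icc 1 (4 * ⌊x⌋₊)).filter (fun n => n ≡ l d [MOD d]),
          |GY (1 / K0) (zz x K0) (KK x K0) (JJ x) (y d) n| +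
        (1 / (d.totient : ℝ)) * ∑ n ∈ Icc 1 (4 * ⌊x⌋₊),
          |GY (1 / K0) (zz x K0) (KK x K0) (JJ x) (y d) n|) +
      (‖del (fun c => 1 < c ∧ c ≤ ⌊(Real.log x) ^ (A + 4)⌋₊)
          (fun n => (FY (1 / K0) (zz x K0) (KK x K0) (JJ x) (y d) n : ℂ)) (4 * ⌊x⌋₊) d (l d)‖ +
        (1 / (d.totient : ℝ)) * (|npr (y d) - li (y d)| + (d.primeFactors.card : ℝ))) +
      ‖del (fun c => ⌊(Real.log x) ^ (A + 4)⌋₊ < c)
          (fun n => (FY (1 / K0) (zz x K0) (KK x K0) (JJ x) (y d) n : ℂ)) (4 * ⌊x⌋₊) d (l d)‖ := by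
    intro d hd
    have hd1 : 1 ≤ d := by
      rw [Finset.mem_Ioc] at hd
      omega
    have g1 := h1 x (1 / K0) (y d) (zz x K0) (KK x K0) (JJ x) ⌊(Real.log x) ^ (A + 4)⌋₊ d (l d)
      (by linarith) (hy d).1 (hy d).2 hd1 (hl d) hQ
    linarith
  refine (Finset.sum_le_sum key).trans ?_
  rw [Finset.sum_add_distrib, Finset.sum_add_distrib, Finset.sum_add_distrib]
  linarith

end Pool.Agent.Lib.BV
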