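import Pool.Agent.Lib.BV.SpecD

/-!
MP_00e23e_nt, Lib/BV, module Dyb: one dyadic block, uniform form.
-/

namespace Pool.Agent.Lib.BV

open Finset Pool.Agent.Lib.EH3 Pool.Agent.Results.MP_00e23e_nt

theorem Dyb_om (K : ℝ) (h : 16 ≤ K) : 1 ≤ Real.log K ∧ 1 ≤ Real.log (Real.log K) := by
  have h1 : Real.log 16 ≤ Real.log K := Real.log_le_log (by norm_num) h
  have h2 : Real.log 16 = 4 * Real.log 2 := by
    rw [show (16 : ℝ) = 2 ^ 4 by norm_num, Real.log_pow]
    norm_num
  have h3 := Real.log_two_gt_d9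
  have h4 := Real.exp_one_lt_d9
  have h5 : Real.exp 1 ≤ Real.log K := by
    rw [h2] at h1
    linarith
  have h6 := Real.exp_one_gt_d9
  refine ⟨by linarith, ?_⟩
  rw [Real.le_log_iff_exp_le (by linarith)]
  exact h5

theorem Dyb_mono (a b : ℝ) (ha : 16 ≤ a) (hab : a ≤ b) :
    Real.log a * Real.log (Real.log a) ≤ Real.log b * Real.log (Real.log b) := by
  obtain ⟨h1, h2⟩ := Dyb_om a ha
  have h3 : Real.log a ≤ Real.log b := Real.log_le_log (by linarith) hab
  have h4 : Real.log (Real.log a) ≤ Real.log (Real.log b) := Real.log_le_log (by linarith) h3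
  exact mul_le_mul h3 h4 (by linarith) (by linarith)

theorem Dyb_ev (A : ℝ) (hA : 0 < A) : ∃ x1 : ℝ, ∀ x, x1 ≤ x →
    4 ≤ Real.log x ∧ (A * Real.log (Real.log x)) ^ 2 ≤ Real.log x := by
  have h1 : (fun x : ℝ => Real.log x ^ 2) =o[Filter.atTop] id := Real.isLittleO_pow_log_id_atTop
  have h2 := h1.bound (c := 1 / A ^ 2) (by positivity)
  have h3 : ∀ᶠ x in Filter.atTop, 4 ≤ Real.log x :=
    Real.tendsto_log_atTop.eventually_ge_atTop 4
  have h4 := Real.tendsto_log_atTop.eventually h2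
  obtain ⟨x1, hx1⟩ := Filter.eventually_atTop.1 (h3.and h4)
  refine ⟨x1, fun x hx => ?_⟩
  obtain ⟨h5, h6⟩ := hx1 x hx
  refine ⟨h5, ?_⟩
  simp only [id, Real.norm_eq_abs] at h6
  rw [abs_of_nonneg (sq_nonneg _), abs_of_nonneg (by linarith)] at h6
  rw [mul_pow]
  calc A ^ 2 * Real.log (Real.log x) ^ 2 ≤ A ^ 2 * (1 / A ^ 2 * Real.log x) :=
        mul_le_mul_of_nonneg_left h6 (by positivity)
    _ = Real.log x := by field_simp

theorem tDyb (h1 : DyaStmt) (h2 : BttStmt) (h3 : TdyStmt) : DybStmt := by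
  intro A hA
  have hA2 : 0 < A + 2 := by linarith
  obtain ⟨C1, xa, hC1, hxa, hdya⟩ := h1 (A + 2) hA2
  obtain ⟨C2, xb, hC2, hxb, hbtt⟩ := h2
  obtain ⟨xc, hxc⟩ := Dyb_ev (A + 2) hA2
  refine ⟨128 * C2 + 2 * C1, max xa (max xb xc), by positivity, le_max_of_le_left hxa, ?_⟩
  intro x D y l hx hD hDx hy hl
  have hx1 : xa ≤ x := (le_max_left _ _).trans hx
  have hx2 : xb ≤ x := (le_max_left _ _).trans ((le_max_right _ _).trans hx)
  have hx3 : xc ≤ x := (le_max_right _ _).trans ((le_max_right _ _).trans hx)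
  obtain ⟨hL4, hLL⟩ := hxc x hx3
  have hx16 : 16 ≤ x := hxa.trans hx1
  have hx0 : 0 < x := by linarith
  have hD0 : (0 : ℝ) < D := by exact_mod_cast hD
  have hs0 : 0 < Real.sqrt x := Real.sqrt_pos.2 hx0
  have hss : Real.sqrt x * Real.sqrt x = x := Real.mul_self_sqrt hx0.le
  set L : ℝ := Real.log x with hL
  have hL0 : 0 < L := by linarith
  have hDL0 : 0 < (D : ℝ) * L := by positivity
  have hKf : Kf x D = 16 + Real.sqrt x / ((D : ℝ) * L) := rfl
  set K1 : ℝ := Real.sqrt x / ((D : ℝ) * L) with hK1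
  have hK10 : 0 < K1 := by positivity
  have hKD : K1 * ((D : ℝ) * L) = Real.sqrt x := div_mul_cancel₀ _ hDL0.ne'
  have hsD : Real.sqrt x * D = x / (K1 * L) := by
    rw [eq_div_iff (by positivity)]
    calc Real.sqrt x * D * (K1 * L) = Real.sqrt x * (K1 * ((D : ℝ) * L)) := by ring
      _ = x := by rw [hKD, hss]
  have hLA : 0 < L ^ (A + 2) := Real.rpow_pos_of_pos hL0 _
  have hKf16 : 16 ≤ Kf x D := by
    rw [hKf]
    linarith
  obtain ⟨ho1, ho2⟩ := Dyb_om (Kf x D) hKf16
  have hom : 1 ≤ Real.log (Kf x D) * Real.log (Real.log (Kf x D)) := by nlinarith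
  have hT1 : 0 ≤ x / L ^ (A + 2) := by positivity
  have hT2 : 0 ≤ Real.sqrt x * D * (Real.log (Kf x D) * Real.log (Real.log (Kf x D))) := by
    have : 0 ≤ Real.log (Kf x D) * Real.log (Real.log (Kf x D)) := by linarith
    positivity
  rcases lt_or_ge K1 16 with hc | hc
  · -- few moduli: Brun-Titchmarsh
    have hDs : (D : ℝ) ≤ Real.sqrt x := by nlinarith
    have e1 : ∑ d ∈ Ioc (D / 2) D, |err (y d) d (l d)| ≤
        ∑ d ∈ Ioc (D / 2) D, (C2 * (x / L)) * (1 / (d.totient : ℝ)) := by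
      refine Finset.sum_le_sum fun d hd => ?_
      rw [Finset.mem_Ioc] at hd
      have hd1 : 1 ≤ d := by omega
      have hd2 : (d : ℝ) ≤ Real.sqrt x := by
        have : (d : ℝ) ≤ D := by exact_mod_cast hd.2
        linarith
      refine (hbtt x (y d) d (l d) hx2 (hy d).1 (hy d).2 hd1 hd2 (hl d)).trans (le_of_eq ?_)
      have : (0 : ℝ) < d.totient := by exact_mod_cast Nat.totient_pos.2 hd1
      rw [← hL]
      field_simp
    rw [← Finset.mul_sum] at e1
    have e2 : (C2 * (x / L)) * ∑ d ∈ Ioc (D / 2) D, 1 / (d.totient : ℝ) ≤ (C2 * (x / L)) * 8 :=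
      mul_le_mul_of_nonneg_left (h3 D) (by positivity)
    have e3 : x / L ≤ 16 * (Real.sqrt x * D) := by
      rw [hsD, div_le_iff₀ hL0]
      have : 16 * (x / (K1 * L)) * L = 16 * x / K1 := by
        field_simp
      rw [this, le_div_iff₀ hK10]
      nlinarith
    have e4 : Real.sqrt x * D ≤
        Real.sqrt x * D * (Real.log (Kf x D) * Real.log (Real.log (Kf x D))) :=
      le_mul_of_one_le_right (by positivity) hom
    have e5 : (C2 * (x / L)) * 8 ≤ 128 * C2 *
        (Real.sqrt x * D * (Real.log (Kf x D) * Real.log (Real.log (Kf x D)))) := by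
      have : C2 * (x / L) ≤ C2 * (16 *
        (Real.sqrt x * D * (Real.log (Kf x D) * Real.log (Real.log (Kf x D))))) :=
        mul_le_mul_of_nonneg_left (by linarith) hC2.le
      linarith
    have e6 : 0 ≤ C1 * (x / L ^ (A + 2)) := by positivity
    have e7 : 0 ≤ C1 *
        (Real.sqrt x * D * (Real.log (Kf x D) * Real.log (Real.log (Kf x D)))) := by positivity
    have e8 : 0 ≤ C2 * (x / L ^ (A + 2)) := by positivity
    nlinarith
  · -- the dyadic theorem
    have hLA16 : 16 ≤ L ^ (A + 2) := by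
      have e1 : (16 : ℝ) ≤ L ^ (2 : ℝ) := by
        rw [Real.rpow_two]
        nlinarith
      exact e1.trans (Real.rpow_le_rpow_of_exponent_le (by linarith) (by linarith))
    have hK0a : 16 ≤ min K1 (L ^ (A + 2)) := le_min hc hLA16
    have hK0b : min K1 (L ^ (A + 2)) ≤ L ^ (A + 2) := min_le_right _ _
    have hK0c : (D : ℝ) * min K1 (L ^ (A + 2)) * L ≤ Real.sqrt x := by
      have : (D : ℝ) * min K1 (L ^ (A + 2)) * L ≤ (D : ℝ) * K1 * L := by
        gcongr
        exact min_le_left _ _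
      linarith
    refine (hdya x (min K1 (L ^ (A + 2))) D y l hx1 hK0a hK0b hD hK0c hy hl).trans ?_
    have e9 : 0 ≤ C2 * (x / L ^ (A + 2)) := by positivity
    have e10 : 0 ≤ C2 *
        (Real.sqrt x * D * (Real.log (Kf x D) * Real.log (Real.log (Kf x D)))) := by positivity
    have key : MB (A + 2) x (min K1 (L ^ (A + 2))) ≤ 2 * (x / L ^ (A + 2)) +
        Real.sqrt x * D * (Real.log (Kf x D) * Real.log (Real.log (Kf x D))) := by
      unfold MB
      rw [← hL]
      rcases le_total K1 (L ^ (A + 2)) with hm | hm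
      · rw [min_eq_left hm, ← hsD]
        have e1 := Dyb_mono K1 (Kf x D) hc (by rw [hKf]; linarith)
        have e2 : Real.sqrt x * D * (Real.log K1 * Real.log (Real.log K1)) ≤
            Real.sqrt x * D * (Real.log (Kf x D) * Real.log (Real.log (Kf x D))) :=
          mul_le_mul_of_nonneg_left e1 (by positivity)
        linarith
      · rw [min_eq_right hm]
        obtain ⟨e1, e2⟩ := Dyb_om (L ^ (A + 2)) hLA16
        have e3 : Real.log (L ^ (A + 2)) = (A + 2) * Real.log L := Real.log_rpow hL0 _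
        have e4 : Real.log (Real.log (L ^ (A + 2))) ≤ Real.log (L ^ (A + 2)) :=
          Real.log_le_self (by linarith)
        have e5 : Real.log (L ^ (A + 2)) * Real.log (Real.log (L ^ (A + 2))) ≤ L := by
          calc Real.log (L ^ (A + 2)) * Real.log (Real.log (L ^ (A + 2))) ≤
                Real.log (L ^ (A + 2)) * Real.log (L ^ (A + 2)) :=
                mul_le_mul_of_nonneg_left e4 (by linarith)
            _ = ((A + 2) * Real.log L) ^ 2 := by rw [e3, sq]
            _ ≤ L := hLL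
        have e6 : x / (L ^ (A + 2) * L) *
            (Real.log (L ^ (A + 2)) * Real.log (Real.log (L ^ (A + 2)))) ≤
            x / (L ^ (A + 2) * L) * L := mul_le_mul_of_nonneg_left e5 (by positivity)
        have e7 : x / (L ^ (A + 2) * L) * L = x / L ^ (A + 2) := by
          field_simp
        linarith
    have e11 := mul_le_mul_of_nonneg_left key hC1.le
    have e12 : 0 ≤ C1 *
        (Real.sqrt x * D * (Real.log (Kf x D) * Real.log (Real.log (Kf x D)))) := by positivity
    nlinarith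

end Pool.Agent.Lib.BV
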