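import Pool.Agent.Lib.BV.SpecD

/-!
MP_00e23e_nt, directory Lib/BV, module Dyc: summation over the dyadic blocks of moduli.
-/

namespace Pool.Agent.Lib.BV

open Finset Pool.Agent.Lib.EH3 Pool.Agent.Results.MP_00e23e_nt

private theorem Dyc_blocks (f g : ℕ → ℝ) (hg : ∀ E, 0 ≤ g E) (n : ℕ) :
    ∀ D : ℕ, D < 2 ^ n → (∀ E, 1 ≤ E → E ≤ D → ∑ d ∈ Ioc (E / 2) E, f d ≤ g E) →
      ∑ d ∈ Icc 1 D, f d ≤ ∑ i ∈ range n, g (D / 2 ^ i) := by
  induction n with
  | zero =>
    intro D hD _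
    have : D = 0 := by simpa using hD
    subst this; simp
  | succ n ih =>
    intro D hD h
    rw [sum_range_succ']
    have h1 : ∑ d ∈ Icc 1 (D / 2), f d ≤ ∑ i ∈ range n, g (D / 2 / 2 ^ i) := by
      apply ih
      · rw [pow_succ] at hD; omega
      · intro E h1 h2; exact h E h1 (by omega)
    have h2 : ∑ d ∈ Ioc (D / 2) D, f d ≤ g D := by
      rcases Nat.eq_zero_or_pos D with h0 | h0
      · subst h0; simpa using hg 0
      · exact h D h0 le_rfl
    have h3 : Icc 1 D = Icc 1 (D / 2) ∪ Ioc (D / 2) D := by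
      ext d; simp only [mem_Icc, mem_union, mem_Ioc]; omega
    have h4 : Disjoint (Icc 1 (D / 2)) (Ioc (D / 2) D) := by
      rw [Finset.disjoint_left]; intro d h5 h6; simp only [mem_Icc, mem_Ioc] at h5 h6; omega
    rw [h3, sum_union h4]
    have h5 : ∀ i ∈ range n, g (D / 2 / 2 ^ i) = g (D / 2 ^ (i + 1)) := by
      intro i _; rw [Nat.div_div_eq_div_mul, pow_succ, mul_comm]
    rw [sum_congr rfl h5] at h1
    simpa using add_le_add h1 h2

private theorem Dyc_log16 : (2.72 : ℝ) ≤ Real.log 16 := by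
  have h : Real.log 16 = 4 * Real.log 2 := by
    rw [show (16 : ℝ) = 2 ^ 4 by norm_num, Real.log_pow]; norm_num
  rw [h]; have := Real.log_two_gt_d9; linarith

private theorem Dyc_loglog (K : ℝ) (hK : 16 ≤ K) : 1 ≤ Real.log (Real.log K) := by
  have h16 := Real.log_le_log (by norm_num) hK
  have h2 := Dyc_log16
  rw [Real.le_log_iff_exp_le (by linarith)]
  have h1 : Real.exp 1 < 2.7182818286 := Real.exp_one_lt_d9
  linarith

private theorem Dyc_w (K K' : ℝ) (i : ℕ) (hK : 16 ≤ K) (hK' : 16 ≤ K') (h : K' ≤ 2 ^ (i + 1) * K) :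
    Real.log K' * Real.log (Real.log K') ≤
      ((i : ℝ) + 2) ^ 2 * (Real.log K * Real.log (Real.log K)) := by
  have hl : 0 < Real.log K := Real.log_pos (by linarith)
  have hl' : 0 < Real.log K' := Real.log_pos (by linarith)
  have hll := Dyc_loglog K hK
  have hll' := Dyc_loglog K' hK'
  have hi : (0 : ℝ) ≤ i := Nat.cast_nonneg i
  have hlog2 : Real.log 2 ≤ Real.log K := Real.log_le_log (by norm_num) (by linarith)
  have h1 : Real.log K' ≤ ((i : ℝ) + 2) * Real.log K := by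
    calc Real.log K' ≤ Real.log (2 ^ (i + 1) * K) := Real.log_le_log (by linarith) h
      _ = ((i : ℝ) + 1) * Real.log 2 + Real.log K := by
          rw [Real.log_mul (by positivity) (by linarith : K ≠ 0), Real.log_pow]; push_cast; ring
      _ ≤ ((i : ℝ) + 1) * Real.log K + Real.log K := by
          have := mul_le_mul_of_nonneg_left hlog2 (by linarith : (0 : ℝ) ≤ (i : ℝ) + 1)
          linarith
      _ = _ := by ring
  have h2 : Real.log (Real.log K') ≤ ((i : ℝ) + 2) * Real.log (Real.log K) := by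
    calc Real.log (Real.log K') ≤ Real.log (((i : ℝ) + 2) * Real.log K) := Real.log_le_log hl' h1
      _ = Real.log ((i : ℝ) + 2) + Real.log (Real.log K) := Real.log_mul (by positivity) hl.ne'
      _ ≤ ((i : ℝ) + 1) + Real.log (Real.log K) := by
          have := Real.log_le_sub_one_of_pos (show (0 : ℝ) < (i : ℝ) + 2 by positivity)
          linarith
      _ ≤ ((i : ℝ) + 1) * Real.log (Real.log K) + Real.log (Real.log K) := by
          have := mul_le_mul_of_nonneg_left hll (by linarith : (0 : ℝ) ≤ (i : ℝ) + 1)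
          linarith
      _ = _ := by ring
  calc Real.log K' * Real.log (Real.log K')
      ≤ (((i : ℝ) + 2) * Real.log K) * (((i : ℝ) + 2) * Real.log (Real.log K)) :=
        mul_le_mul h1 h2 (by linarith) (by positivity)
    _ = _ := by ring

private theorem Dyc_geo (n : ℕ) :
    ∑ i ∈ range n, ((i : ℝ) + 2) ^ 2 / 2 ^ i = 22 - (2 * (n : ℝ) ^ 2 + 12 * n + 22) / 2 ^ n := by
  induction n with
  | zero => simp
  | succ n ih =>
    rw [sum_range_succ, ih, pow_succ]
    push_cast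
    field_simp
    ring

theorem tDyc (h : DybStmt) : DycStmt := by
  intro A hA
  obtain ⟨C, x0, hC, hx0, hb⟩ := h A hA
  refine ⟨30 * C, x0, by positivity, hx0, ?_⟩
  intro x D y l hx hD hDx hy hl
  have hx16 : 16 ≤ x := hx0.trans hx
  have hxpos : 0 < x := by linarith
  have hL1 : 1 ≤ Real.log x := by
    have := Real.log_le_log (by norm_num) hx16
    linarith [Dyc_log16]
  have hL0 : 0 < Real.log x := by linarith
  have hsx : 0 ≤ Real.sqrt x := Real.sqrt_nonneg x
  have hDpos : (0 : ℝ) < D := by exact_mod_cast hD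
  have hK16 : ∀ E : ℕ, 16 ≤ Kf x E := by
    intro E
    unfold Kf
    have : 0 ≤ Real.sqrt x / ((E : ℝ) * Real.log x) := by positivity
    linarith
  have hW0 : ∀ E : ℕ, 0 ≤ Real.log (Kf x E) * Real.log (Real.log (Kf x E)) := fun E =>
    mul_nonneg (Real.log_nonneg (by linarith [hK16 E])) (by linarith [Dyc_loglog _ (hK16 E)])
  have hxA : ∀ B : ℝ, 0 ≤ x / (Real.log x) ^ B := fun B =>
    div_nonneg hxpos.le (Real.rpow_nonneg hL0.le _)
  have hg : ∀ E : ℕ, 0 ≤ C * (x / (Real.log x) ^ (A + 2) +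
        Real.sqrt x * E * (Real.log (Kf x E) * Real.log (Real.log (Kf x E)))) := fun E =>
    mul_nonneg hC.le (add_nonneg (hxA _) (mul_nonneg (by positivity) (hW0 E)))
  have hn : D < 2 ^ (Nat.log 2 D + 1) := Nat.lt_pow_succ_log_self (by norm_num) D
  have h1 := Dyc_blocks (fun d => |err (y d) d (l d)|) _ hg (Nat.log 2 D + 1) D hn (by
    intro E hE1 hE2
    apply hb x E y l hx hE1 _ hy hl
    refine le_trans (mul_le_mul_of_nonneg_right ?_ hL0.le) hDx
    exact_mod_cast hE2)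
  have h2 : ∀ i ∈ range (Nat.log 2 D + 1), C * (x / (Real.log x) ^ (A + 2) +
        Real.sqrt x * ((D / 2 ^ i : ℕ) : ℝ) * (Real.log (Kf x (D / 2 ^ i)) *
          Real.log (Real.log (Kf x (D / 2 ^ i))))) ≤
      C * (x / (Real.log x) ^ (A + 2)) + C * (Real.sqrt x * D *
        (Real.log (Kf x D) * Real.log (Real.log (Kf x D)))) * (((i : ℝ) + 2) ^ 2 / 2 ^ i) := by
    intro i hi
    have hi2 : i ≤ Nat.log 2 D := by have := mem_range.mp hi; omega
    have hpi : 2 ^ i ≤ D := Nat.pow_le_of_le_log (by omega) hi2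
    have hpos2 : (0 : ℝ) < 2 ^ i := by positivity
    have hE1 : 1 ≤ D / 2 ^ i := (Nat.one_le_div_iff (by positivity)).mpr hpi
    have hEr : (0 : ℝ) < ((D / 2 ^ i : ℕ) : ℝ) := by exact_mod_cast hE1
    have hE2 : ((D / 2 ^ i : ℕ) : ℝ) ≤ D / 2 ^ i := by
      have := @Nat.cast_div_le ℝ _ _ _ D (2 ^ i)
      simpa using this
    have hE3 : (D : ℝ) ≤ 2 ^ (i + 1) * ((D / 2 ^ i : ℕ) : ℝ) := by
      have h5 : D < 2 ^ i * (D / 2 ^ i + 1) := Nat.lt_mul_div_succ D (by positivity)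
      have h6 : D ≤ 2 ^ (i + 1) * (D / 2 ^ i) := by
        calc D ≤ 2 ^ i * (D / 2 ^ i + 1) := h5.le
          _ ≤ 2 ^ i * (D / 2 ^ i + D / 2 ^ i) := Nat.mul_le_mul_left _ (by omega)
          _ = 2 ^ (i + 1) * (D / 2 ^ i) := by rw [pow_succ]; ring
      exact_mod_cast h6
    have hKK : Kf x (D / 2 ^ i) ≤ 2 ^ (i + 1) * Kf x D := by
      unfold Kf
      have h7 : Real.sqrt x / (((D / 2 ^ i : ℕ) : ℝ) * Real.log x) ≤
          2 ^ (i + 1) * (Real.sqrt x / ((D : ℝ) * Real.log x)) := by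
        rw [← mul_div_assoc, div_le_div_iff₀ (by positivity) (by positivity)]
        have := mul_le_mul_of_nonneg_left hE3 (mul_nonneg hsx hL0.le)
        calc Real.sqrt x * ((D : ℝ) * Real.log x) = Real.sqrt x * Real.log x * D := by ring
          _ ≤ Real.sqrt x * Real.log x * (2 ^ (i + 1) * ((D / 2 ^ i : ℕ) : ℝ)) := this
          _ = _ := by ring
      have h8 : (1 : ℝ) ≤ 2 ^ (i + 1) := one_le_pow₀ (by norm_num)
      rw [mul_add]
      linarith
    have hw := Dyc_w _ _ i (hK16 D) (hK16 (D / 2 ^ i)) hKK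
    have h9 : Real.sqrt x * ((D / 2 ^ i : ℕ) : ℝ) * (Real.log (Kf x (D / 2 ^ i)) *
          Real.log (Real.log (Kf x (D / 2 ^ i)))) ≤
        (Real.sqrt x * (D / 2 ^ i)) * (((i : ℝ) + 2) ^ 2 *
          (Real.log (Kf x D) * Real.log (Real.log (Kf x D)))) :=
      mul_le_mul (mul_le_mul_of_nonneg_left hE2 hsx) hw (hW0 _) (by positivity)
    rw [mul_add]
    refine add_le_add le_rfl ?_
    rw [mul_assoc C]
    refine mul_le_mul_of_nonneg_left (h9.trans (le_of_eq ?_)) hC.le
    field_simp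
  have h3 := h1.trans (sum_le_sum h2)
  rw [sum_add_distrib, sum_const, card_range, nsmul_eq_mul, ← mul_sum, Dyc_geo] at h3
  refine h3.trans ?_
  have hlog : ((Nat.log 2 D + 1 : ℕ) : ℝ) ≤ 2 * Real.log x := by
    have hp : 2 ^ Nat.log 2 D ≤ D := Nat.pow_log_le_self 2 (by omega)
    have hp2 : ((2 : ℝ)) ^ Nat.log 2 D ≤ Real.sqrt x := by
      have h10 : ((2 : ℝ)) ^ Nat.log 2 D ≤ D := by exact_mod_cast hp
      have h11 : (D : ℝ) * 1 ≤ D * Real.log x := mul_le_mul_of_nonneg_left hL1 hDpos.le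
      linarith
    have hp3 := Real.log_le_log (by positivity) hp2
    rw [Real.log_pow, Real.log_sqrt hxpos.le] at hp3
    have h12 := Real.log_two_gt_d9
    have h13 : (0 : ℝ) ≤ (Nat.log 2 D : ℝ) := Nat.cast_nonneg _
    push_cast
    nlinarith
  have hA2 : Real.log x * (x / (Real.log x) ^ (A + 2)) ≤ x / (Real.log x) ^ A := by
    rw [Real.rpow_add hL0, ← mul_div_assoc, div_le_div_iff₀ (by positivity) (by positivity)]
    have h14 : Real.log x ^ (2 : ℝ) = Real.log x * Real.log x := by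
      rw [Real.rpow_two, sq]
    rw [h14]
    have h15 : 0 ≤ Real.log x ^ A := Real.rpow_nonneg hL0.le _
    have h16 : Real.log x * 1 ≤ Real.log x * Real.log x := mul_le_mul_of_nonneg_left hL1 hL0.le
    calc Real.log x * x * Real.log x ^ A = (x * Real.log x ^ A) * (Real.log x * 1) := by ring
      _ ≤ (x * Real.log x ^ A) * (Real.log x * Real.log x) :=
          mul_le_mul_of_nonneg_left h16 (by positivity)
      _ = _ := by ring
  have h20 : ((Nat.log 2 D + 1 : ℕ) : ℝ) * (C * (x / (Real.log x) ^ (A + 2))) ≤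
      C * (2 * (x / (Real.log x) ^ A)) := by
    calc ((Nat.log 2 D + 1 : ℕ) : ℝ) * (C * (x / (Real.log x) ^ (A + 2)))
        ≤ (2 * Real.log x) * (C * (x / (Real.log x) ^ (A + 2))) :=
          mul_le_mul_of_nonneg_right hlog (mul_nonneg hC.le (hxA _))
      _ = C * (2 * (Real.log x * (x / (Real.log x) ^ (A + 2)))) := by ring
      _ ≤ C * (2 * (x / (Real.log x) ^ A)) := by gcongr
  have h21 : 0 ≤ (2 * (((Nat.log 2 D + 1 : ℕ) : ℝ)) ^ 2 + 12 * ((Nat.log 2 D + 1 : ℕ) : ℝ) + 22) /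
      2 ^ (Nat.log 2 D + 1) := by positivity
  have h22 : 0 ≤ C * (Real.sqrt x * D * (Real.log (Kf x D) * Real.log (Real.log (Kf x D)))) :=
    mul_nonneg hC.le (mul_nonneg (by positivity) (hW0 D))
  have h23 : C * (Real.sqrt x * D * (Real.log (Kf x D) * Real.log (Real.log (Kf x D)))) *
      (22 - (2 * (((Nat.log 2 D + 1 : ℕ) : ℝ)) ^ 2 + 12 * ((Nat.log 2 D + 1 : ℕ) : ℝ) + 22) /
      2 ^ (Nat.log 2 D + 1)) ≤
      C * (Real.sqrt x * D * (Real.log (Kf x D) * Real.log (Real.log (Kf x D)))) * 22 :=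
    mul_le_mul_of_nonneg_left (by linarith) h22
  have h24 : 0 ≤ C * (x / (Real.log x) ^ A) := mul_nonneg hC.le (hxA _)
  linarith

end Pool.Agent.Lib.BV
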