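import Pool.Agent.Lib.BV.SpecB

namespace Pool.Agent.Lib.BV

open Finset Pool.Agent.Lib.EH3

private lemma Esy_pow {s x : ℝ} (hs : 0 ≤ s) (hx : 0 ≤ x) (r : ℕ) :
    s ^ (r + 1) + ((r : ℝ) + 1) * x * s ^ r ≤ (x + s) ^ (r + 1) := by
  induction r with
  | zero => simp; linarith
  | succ r ih =>
    have h1 : 0 ≤ s ^ r := pow_nonneg hs r
    have h2 : 0 ≤ x + s := add_nonneg hx hs
    have h3 := mul_le_mul_of_nonneg_left ih h2
    calc s ^ (r + 1 + 1) + (((r + 1 : ℕ) : ℝ) + 1) * x * s ^ (r + 1)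
        ≤ (x + s) * (s ^ (r + 1) + ((r : ℝ) + 1) * x * s ^ r) := by
          push_cast
          have : (x + s) * (s ^ (r + 1) + ((r : ℝ) + 1) * x * s ^ r) -
              (s ^ (r + 1 + 1) + (((r : ℝ) + 1) + 1) * x * s ^ (r + 1)) =
              ((r : ℝ) + 1) * x ^ 2 * s ^ r := by ring
          have h4 : 0 ≤ ((r : ℝ) + 1) * x ^ 2 * s ^ r := by positivity
          linarith
      _ ≤ (x + s) * (x + s) ^ (r + 1) := h3
      _ = (x + s) ^ (r + 1 + 1) := by ring

private lemma Esy_one (x : ℕ → ℝ) (hx : ∀ i, 0 ≤ x i) (S : Finset ℕ) :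
    ∀ r : ℕ, ∑ s ∈ S.powersetCard r, ∏ i ∈ s, x i ≤ (∑ i ∈ S, x i) ^ r / (r.factorial : ℝ) := by
  classical
  induction S using Finset.induction_on with
  | empty =>
    intro r
    cases r with
    | zero => simp
    | succ r => simp [Finset.powersetCard_eq_empty.2 (show (∅ : Finset ℕ).card < r + 1 by simp)]
  | insert a S ha ih =>
    intro r
    cases r with
    | zero => simp
    | succ r =>
      rw [Finset.powersetCard_succ_insert ha]
      have hdis : Disjoint (S.powersetCard (r + 1)) ((S.powersetCard r).image (insert a)) := by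
        rw [Finset.disjoint_left]
        intro s hs hs'
        rw [Finset.mem_image] at hs'
        obtain ⟨t, ht, rfl⟩ := hs'
        exact ha ((Finset.mem_powersetCard.1 hs).1 (Finset.mem_insert_self a t))
      rw [Finset.sum_union hdis, Finset.sum_image]
      · have e1 : ∑ t ∈ S.powersetCard r, ∏ i ∈ insert a t, x i =
            x a * ∑ t ∈ S.powersetCard r, ∏ i ∈ t, x i := by
          rw [Finset.mul_sum]
          refine Finset.sum_congr rfl fun t ht => ?_
          rw [Finset.prod_insert]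
          exact fun h => ha ((Finset.mem_powersetCard.1 ht).1 h)
        rw [e1, Finset.sum_insert ha]
        have h1 := ih (r + 1)
        have h2 := mul_le_mul_of_nonneg_left (ih r) (hx a)
        have hs : 0 ≤ ∑ i ∈ S, x i := Finset.sum_nonneg fun i _ => hx i
        have h3 := Esy_pow hs (hx a) r
        have hf : (0 : ℝ) < ((r + 1).factorial : ℝ) := by exact_mod_cast Nat.factorial_pos _
        have hf' : (0 : ℝ) < (r.factorial : ℝ) := by exact_mod_cast Nat.factorial_pos _
        have hfe : ((r + 1).factorial : ℝ) = ((r : ℝ) + 1) * (r.factorial : ℝ) := by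
          rw [Nat.factorial_succ]; push_cast; ring
        calc _ ≤ (∑ i ∈ S, x i) ^ (r + 1) / ((r + 1).factorial : ℝ) +
              x a * ((∑ i ∈ S, x i) ^ r / (r.factorial : ℝ)) := add_le_add h1 h2
          _ = ((∑ i ∈ S, x i) ^ (r + 1) + ((r : ℝ) + 1) * x a * (∑ i ∈ S, x i) ^ r) /
              ((r + 1).factorial : ℝ) := by
            rw [hfe]; field_simp
          _ ≤ _ := div_le_div_of_nonneg_right h3 hf.le
      · intro s hs t ht hst
        have has : a ∉ s := fun h => ha ((Finset.mem_powersetCard.1 hs).1 h)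
        have hat : a ∉ t := fun h => ha ((Finset.mem_powersetCard.1 ht).1 h)
        rw [← Finset.erase_insert has, ← Finset.erase_insert hat, hst]

private lemma Esy_two (m : ℕ) : ∀ r : ℕ,
    ∑ j ∈ range (r + 1), (m.choose j : ℝ) ≤ ((m : ℝ) + 1) ^ r := by
  intro r
  induction r with
  | zero => simp
  | succ r ih =>
    rw [Finset.sum_range_succ]
    have h1 : (m.choose (r + 1) : ℝ) ≤ (m : ℝ) ^ (r + 1) := by
      exact_mod_cast Nat.choose_le_pow m (r + 1)
    have hm : (0 : ℝ) ≤ (m : ℝ) := Nat.cast_nonneg m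
    have h2 : (m : ℝ) ^ (r + 1) ≤ (m : ℝ) * ((m : ℝ) + 1) ^ r := by
      rw [pow_succ, mul_comm]
      exact mul_le_mul_of_nonneg_left (pow_le_pow_left₀ hm (by linarith) r) hm
    calc _ ≤ ((m : ℝ) + 1) ^ r + (m : ℝ) * ((m : ℝ) + 1) ^ r := add_le_add ih (h1.trans h2)
      _ = ((m : ℝ) + 1) ^ (r + 1) := by ring

theorem tEsy : EsyStmt :=
  ⟨fun S x r hx => Esy_one x hx S r, fun m r => Esy_two m r⟩

end Pool.Agent.Lib.BV
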