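import Pool.Agent.Lib.BV.SpecE

/-!
MP_00e23e_nt, BV, module Exa: the moduli between sqrt x / log x and sqrt x.
-/

namespace Pool.Agent.Lib.BV

open Finset Pool.Agent.Lib.EH3 Pool.Agent.Results.MP_00e23e_nt

theorem tExa (h1 : BttStmt) (h2 : TdlStmt) : ExaStmt := by
  obtain ⟨C, x0, hC, hx0, hB⟩ := h1
  refine ⟨8 * C, x0, by positivity, hx0, fun x a D y hx ha hax hD hy => ?_⟩
  have hx16 : (16 : ℝ) ≤ x := hx0.trans hx
  have hlog : 0 < Real.log x := Real.log_pos (by linarith)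
  have ha' : (0 : ℝ) < a := by exact_mod_cast ha
  have hsq : 0 < Real.sqrt x := Real.sqrt_pos.2 (by linarith)
  have hss : Real.sqrt x * Real.sqrt x = x := Real.mul_self_sqrt (by linarith)
  have h3 : ∀ d ∈ Ioc a D, maxErr (y d) d ≤ C * (x / Real.log x) * (1 / (d.totient : ℝ)) := by
    intro d hd
    obtain ⟨hd1, hd2⟩ := mem_Ioc.1 hd
    have hd0 : 1 ≤ d := by omega
    obtain ⟨l, -, -, hl, he⟩ := EH.exists_maxErr (y d) hd0
    rw [he]
    have hdx : (d : ℝ) ≤ Real.sqrt x := by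
      have : (d : ℝ) ≤ D := by exact_mod_cast hd2
      linarith
    refine (hB x (y d) d l hx (hy d).1 (hy d).2 hd0 hdx hl).trans (le_of_eq ?_)
    rw [mul_assoc, div_mul_div_comm, mul_one, mul_comm (Real.log x)]
  refine (Finset.sum_le_sum h3).trans ?_
  rw [← Finset.mul_sum]
  have h4 := h2 a D ha
  have h5 : 0 ≤ C * (x / Real.log x) := by
    have : 0 ≤ x / Real.log x := div_nonneg (by linarith) hlog.le
    positivity
  refine (mul_le_mul_of_nonneg_left h4 h5).trans ?_
  have h6 : x / Real.log x / a ≤ 2 * Real.sqrt x := by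
    rw [div_div, div_le_iff₀ (by positivity)]
    have h7 : Real.sqrt x * Real.sqrt x ≤ Real.sqrt x * (2 * ((a : ℝ) * Real.log x)) :=
      mul_le_mul_of_nonneg_left hax hsq.le
    rw [hss] at h7
    linarith
  have h7 : C * (x / Real.log x) * (4 * ((D : ℝ) / a)) = 4 * C * D * (x / Real.log x / a) := by ring
  rw [h7]
  have h8 : 0 ≤ 4 * C * (D : ℝ) := by positivity
  refine (mul_le_mul_of_nonneg_left h6 h8).trans (le_of_eq ?_)
  ring

end Pool.Agent.Lib.BV
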