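import Pool.Agent.Lib.BV.SpecE

/-!
MP_00e23e_nt, Lib/BV, module Exb: moduli larger than √x.
-/

namespace Pool.Agent.Lib.BV

open Finset Pool.Agent.Lib.EH3 Pool.Agent.Results.MP_00e23e_nt

theorem Exb_pc {y : ℝ} (hy : 0 ≤ y) {d l : ℕ} (hd : 1 ≤ d) (hl : l ≤ d) :
    (primeCount y d l : ℝ) ≤ y / d + 1 := by
  rw [← Pool.Agent.Lib.EH.card_nn hy hd hl]
  unfold Pool.Agent.Lib.EH.nn
  have h1 := Finset.card_filter_le (range (⌊y / d⌋₊ + 1))
    (fun n => (l + d * n).Prime ∧ l + d * n ≤ ⌊y⌋₊)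
  rw [Finset.card_range] at h1
  have h2 : (((range (⌊y / d⌋₊ + 1)).filter
      (fun n => (l + d * n).Prime ∧ l + d * n ≤ ⌊y⌋₊)).card : ℝ) ≤ ((⌊y / d⌋₊ + 1 : ℕ) : ℝ) := by
    exact_mod_cast h1
  refine h2.trans ?_
  push_cast
  have := Nat.floor_le (by positivity : 0 ≤ y / (d : ℝ))
  linarith

theorem Exb_one {x y : ℝ} {a d : ℕ} (hx : 16 ≤ x) (ha : 1 ≤ a) (hxa : Real.sqrt x ≤ 2 * (a : ℝ))
    (hy : 2 ≤ y) (hyx : y ≤ x) (hd : a < d) :
    maxErr y d ≤ 3 * Real.sqrt x + 2 * x * (1 / (d.totient : ℝ)) := by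
  have hd1 : 1 ≤ d := by omega
  obtain ⟨l, _, hl2, _, hl4⟩ := Pool.Agent.Lib.EH.exists_maxErr y hd1
  rw [hl4]
  have h1 := Exb_pc (by linarith : (0 : ℝ) ≤ y) hd1 hl2
  have h2 := Pool.Agent.Lib.EH.li_nonneg hy
  have h3 := Pool.Agent.Lib.EH.li_le hy
  have hφ : (0 : ℝ) < d.totient := by exact_mod_cast Nat.totient_pos.mpr (by omega)
  have h4 : li y / (d.totient : ℝ) ≤ 2 * x * (1 / (d.totient : ℝ)) := by
    rw [mul_one_div]
    exact div_le_div_of_nonneg_right (by linarith) hφ.le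
  have h5 : 0 ≤ li y / (d.totient : ℝ) := div_nonneg h2 hφ.le
  have h6 : (0 : ℝ) ≤ (primeCount y d l : ℝ) := Nat.cast_nonneg _
  have hs4 : (4 : ℝ) ≤ Real.sqrt x := by
    rw [show (4 : ℝ) = Real.sqrt (4 ^ 2) by
      rw [Real.sqrt_sq (by norm_num)]]
    exact Real.sqrt_le_sqrt (by linarith)
  have had : (a : ℝ) ≤ d := by exact_mod_cast hd.le
  have hdpos : (0 : ℝ) < d := by exact_mod_cast (by omega : 0 < d)
  have h7 : y / (d : ℝ) ≤ 2 * Real.sqrt x := by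
    rw [div_le_iff₀ hdpos]
    have h8 : x = Real.sqrt x * Real.sqrt x := (Real.mul_self_sqrt (by linarith)).symm
    nlinarith
  unfold err
  rw [abs_le]
  constructor <;> linarith

theorem tExb (h : TdlStmt) : ExbStmt := by
  intro x a D y hx ha hxa hy
  have hs0 : 0 ≤ Real.sqrt x := Real.sqrt_nonneg x
  have hapos : (0 : ℝ) < a := by exact_mod_cast ha
  have h1 : ∑ d ∈ Ioc a D, maxErr (y d) d ≤
      ∑ d ∈ Ioc a D, (3 * Real.sqrt x + 2 * x * (1 / (d.totient : ℝ))) :=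
    Finset.sum_le_sum fun d hd =>
      Exb_one hx ha hxa (hy d).1 (hy d).2 (Finset.mem_Ioc.1 hd).1
  rw [Finset.sum_add_distrib, Finset.sum_const, ← Finset.mul_sum, nsmul_eq_mul, Nat.card_Ioc] at h1
  have h2 := h a D ha
  have h3 : ((D - a : ℕ) : ℝ) ≤ D := by exact_mod_cast Nat.sub_le D a
  have h4 : ((D - a : ℕ) : ℝ) * (3 * Real.sqrt x) ≤ D * (3 * Real.sqrt x) :=
    mul_le_mul_of_nonneg_right h3 (by positivity)
  have h5 : 2 * x * ∑ d ∈ Ioc a D, 1 / (d.totient : ℝ) ≤ 2 * x * (4 * ((D : ℝ) / a)) :=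
    mul_le_mul_of_nonneg_left h2 (by linarith)
  have h6 : x * ((D : ℝ) / a) ≤ 2 * Real.sqrt x * D := by
    rw [← mul_div_assoc, div_le_iff₀ hapos]
    have h8 : x = Real.sqrt x * Real.sqrt x := (Real.mul_self_sqrt (by linarith)).symm
    have h9 : x ≤ Real.sqrt x * (2 * a) := by
      calc x = Real.sqrt x * Real.sqrt x := h8
        _ ≤ Real.sqrt x * (2 * a) := mul_le_mul_of_nonneg_left hxa hs0
    have h10 : x * (D : ℝ) ≤ Real.sqrt x * (2 * a) * D :=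
      mul_le_mul_of_nonneg_right h9 (Nat.cast_nonneg D)
    linarith
  have h7 : (0 : ℝ) ≤ Real.sqrt x * D := by positivity
  linarith

end Pool.Agent.Lib.BV
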