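import Pool.Agent.Lib.BV.SpecE

/-!
MP_00e23e_nt, Lib/BV, module Ext: the final theorem for all D.
-/

namespace Pool.Agent.Lib.BV

open Finset Pool.Agent.Lib.EH3 Pool.Agent.Results.MP_00e23e_nt

theorem Ext_log16 (t : ℝ) (ht : 16 ≤ t) : 1 ≤ Real.log t := by
  rw [Real.le_log_iff_exp_le (by linarith)]
  have := Real.exp_one_lt_d9
  linarith

theorem Ext_log27 (t : ℝ) (ht : 16 ≤ t) : 2.76 ≤ Real.log t := by
  have h1 : Real.log 16 ≤ Real.log t := Real.log_le_log (by norm_num) ht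
  have h2 : Real.log 16 = 4 * Real.log 2 := by
    rw [show (16 : ℝ) = 2 ^ 4 by norm_num, Real.log_pow]
    norm_num
  have h3 := Real.log_two_gt_d9
  linarith

/-- ω(K) ≥ 1 for K ≥ 16 -/
theorem Ext_om (t : ℝ) (ht : 16 ≤ t) : 1 ≤ Real.log t * Real.log (Real.log t) := by
  have h1 := Ext_log27 t ht
  have h2 : 1 ≤ Real.log (Real.log t) := by
    rw [Real.le_log_iff_exp_le (by linarith)]
    have := Real.exp_one_lt_d9
    linarith
  nlinarith

/-- ω(K) ≤ 6 for 16 ≤ K ≤ 18 -/
theorem Ext_om2 (t : ℝ) (ht : 16 ≤ t) (ht2 : t ≤ 18) :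
    Real.log t * Real.log (Real.log t) ≤ 6 := by
  have h1 := Ext_log27 t ht
  have h3 : Real.log t ≤ 3 := by
    rw [Real.log_le_iff_le_exp (by linarith)]
    have h4 := Real.exp_one_gt_d9
    have h5 : Real.exp 3 = Real.exp 1 * Real.exp 1 * Real.exp 1 := by
      rw [← Real.exp_add, ← Real.exp_add]
      norm_num
    rw [h5]
    nlinarith [mul_pos (Real.exp_pos 1) (Real.exp_pos 1)]
  have h2 : Real.log (Real.log t) ≤ 2 := by
    have := Real.log_le_sub_one_of_pos (by linarith : 0 < Real.log t)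
    linarith
  have h6 : 0 ≤ Real.log (Real.log t) := Real.log_nonneg (by linarith)
  nlinarith

theorem Ext_sqrt_log (x : ℝ) (hx : 16 ≤ x) : Real.log x ≤ Real.sqrt x := by
  have hs : 0 < Real.sqrt x := Real.sqrt_pos.2 (by linarith)
  have h1 : Real.log x = 2 * Real.log (Real.sqrt x) := by
    rw [Real.log_sqrt (by linarith)]
    ring
  have h2 : Real.log (Real.sqrt x) = Real.log (Real.sqrt x / 2) + Real.log 2 := by
    rw [Real.log_div hs.ne' (by norm_num)]
    ring
  have h3 := Real.log_le_sub_one_of_pos (by positivity : 0 < Real.sqrt x / 2)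
  have h4 := Real.log_two_lt_d9
  linarith

theorem Ext_Kf (x : ℝ) (D : ℕ) (hx : 16 ≤ x) : 16 ≤ Kf x D := by
  unfold Kf
  have h1 : 1 ≤ Real.log x := Ext_log16 x hx
  have : 0 ≤ Real.sqrt x / ((D : ℝ) * Real.log x) := by positivity
  linarith

theorem tExt (h1 : FinStmt) (h2 : ExaStmt) (h3 : ExbStmt) : ExtStmt := by
  intro A hA
  obtain ⟨C1, hF⟩ := h1 A hA
  obtain ⟨C2, x0, hC2, hx0, hE⟩ := h2
  refine ⟨6 * |C1| + C2 + 20 + x0, ?_⟩
  intro x D y hx hD hy
  have hC1 : 0 ≤ |C1| := abs_nonneg C1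
  have hC1' : C1 ≤ |C1| := le_abs_self C1
  have hl : 1 ≤ Real.log x := Ext_log16 x hx
  have hxA : 0 < (Real.log x) ^ A := Real.rpow_pos_of_pos (by linarith) A
  have hT1 : 0 ≤ x / (Real.log x) ^ A := by positivity
  have hs0 : 0 ≤ Real.sqrt x := Real.sqrt_nonneg x
  have hs4 : (4 : ℝ) ≤ Real.sqrt x := by
    rw [show (4 : ℝ) = Real.sqrt (4 ^ 2) by
      rw [Real.sqrt_sq (by norm_num)]]
    exact Real.sqrt_le_sqrt (by linarith)
  have hom := Ext_om (Kf x D) (Ext_Kf x D hx)
  have hD0 : (0 : ℝ) ≤ D := Nat.cast_nonneg D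
  have hsD : 0 ≤ Real.sqrt x * D := by positivity
  have hT2 : Real.sqrt x * D ≤
      Real.sqrt x * D * (Real.log (Kf x D) * Real.log (Real.log (Kf x D))) :=
    le_mul_of_one_le_right hsD hom
  set T1 : ℝ := x / (Real.log x) ^ A with hT1def
  set T2 : ℝ := Real.sqrt x * D * (Real.log (Kf x D) * Real.log (Real.log (Kf x D))) with hT2def
  have hT2' : 0 ≤ T2 := le_trans hsD hT2
  rcases le_or_gt x0 x with hxx | hxx
  · -- large x
    have hsl := Ext_sqrt_log x hx
    set t : ℝ := Real.sqrt x / Real.log x with ht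
    have ht1 : 1 ≤ t := by
      rw [ht, le_div_iff₀ (by linarith)]
      linarith
    set D0 : ℕ := ⌊t⌋₊ with hD0def
    have hD01 : 1 ≤ D0 := Nat.le_floor (by simpa using ht1)
    have hD0t : (D0 : ℝ) ≤ t := Nat.floor_le (by linarith)
    have htD0 : t < D0 + 1 := Nat.lt_floor_add_one t
    have hD0r : (1 : ℝ) ≤ D0 := by exact_mod_cast hD01
    have hD0L : (D0 : ℝ) * Real.log x ≤ Real.sqrt x := by
      have := (le_div_iff₀ (by linarith : 0 < Real.log x)).1 hD0t
      exact this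
    have hD0L2 : Real.sqrt x ≤ 2 * ((D0 : ℝ) * Real.log x) := by
      have h4 : t ≤ 2 * D0 := by linarith
      have := (div_le_iff₀ (by linarith : 0 < Real.log x)).1 h4
      linarith
    rcases le_or_gt D D0 with hDD | hDD
    · have h4 : (D : ℝ) * Real.log x ≤ Real.sqrt x := by
        have h5 : (D : ℝ) ≤ D0 := by exact_mod_cast hDD
        exact (mul_le_mul_of_nonneg_right h5 (by linarith)).trans hD0L
      have h5 := hF x D y hx hD h4 hy
      refine h5.trans ?_
      apply mul_le_mul_of_nonneg_right _ (by linarith)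
      linarith
    · -- D > D0
      set D1 : ℕ := ⌊Real.sqrt x⌋₊ with hD1def
      have hD11 : 1 ≤ D1 := Nat.le_floor (by simp; linarith)
      have hD1s : (D1 : ℝ) ≤ Real.sqrt x := Nat.floor_le hs0
      have hsD1 : Real.sqrt x < D1 + 1 := Nat.lt_floor_add_one _
      have hD1r : (1 : ℝ) ≤ D1 := by exact_mod_cast hD11
      have hf := hF x D0 y hx hD01 hD0L hy
      have ha := hE x D0 (min D D1) y hxx hD01 hD0L2
        ((by exact_mod_cast min_le_right D D1 : ((min D D1 : ℕ) : ℝ) ≤ D1).trans hD1s) hy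
      have hb := h3 x D1 D y hx hD11 (by linarith) hy
      have hmin : ((min D D1 : ℕ) : ℝ) ≤ D := by exact_mod_cast min_le_left D D1
      have hK18 : Kf x D0 ≤ 18 := by
        unfold Kf
        have h6 : Real.sqrt x / ((D0 : ℝ) * Real.log x) ≤ 2 := by
          rw [div_le_iff₀ (by positivity)]
          exact hD0L2
        linarith
      have hom0 := Ext_om2 (Kf x D0) (Ext_Kf x D0 hx) hK18
      have hom0' := Ext_om (Kf x D0) (Ext_Kf x D0 hx)
      have hD0D : (D0 : ℝ) ≤ D := by exact_mod_cast hDD.le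
      have hnn : ∀ d, 0 ≤ maxErr (y d) d := fun d => Pool.Agent.Lib.EH.maxErr_nonneg (y d) d
      have hsub : Icc 1 D ⊆ (Icc 1 D0 ∪ Ioc D0 (min D D1)) ∪ Ioc D1 D := by
        intro d hd
        simp only [mem_union, mem_Icc, mem_Ioc, le_min_iff] at hd ⊢
        omega
      have hsum : ∑ d ∈ Icc 1 D, maxErr (y d) d ≤ ∑ d ∈ Icc 1 D0, maxErr (y d) d +
          ∑ d ∈ Ioc D0 (min D D1), maxErr (y d) d + ∑ d ∈ Ioc D1 D, maxErr (y d) d := by
        have e1 := Finset.sum_le_sum_of_subset_of_nonneg (f := fun d => maxErr (y d) d) hsub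
          fun d _ _ => hnn d
        have e2 := Finset.sum_union_inter (s₁ := Icc 1 D0 ∪ Ioc D0 (min D D1)) (s₂ := Ioc D1 D)
          (f := fun d => maxErr (y d) d)
        have e3 := Finset.sum_union_inter (s₁ := Icc 1 D0) (s₂ := Ioc D0 (min D D1))
          (f := fun d => maxErr (y d) d)
        have e4 : 0 ≤ ∑ d ∈ (Icc 1 D0 ∪ Ioc D0 (min D D1)) ∩ Ioc D1 D, maxErr (y d) d :=
          Finset.sum_nonneg fun d _ => hnn d
        have e5 : 0 ≤ ∑ d ∈ Icc 1 D0 ∩ Ioc D0 (min D D1), maxErr (y d) d :=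
          Finset.sum_nonneg fun d _ => hnn d
        linarith
      have hw0 : 0 ≤ Real.sqrt x * D0 * (Real.log (Kf x D0) * Real.log (Real.log (Kf x D0))) := by
        apply mul_nonneg (by positivity) (by linarith)
      have hw : Real.sqrt x * D0 * (Real.log (Kf x D0) * Real.log (Real.log (Kf x D0))) ≤
          6 * (Real.sqrt x * D) := by
        have h6 : Real.sqrt x * D0 ≤ Real.sqrt x * D := mul_le_mul_of_nonneg_left hD0D hs0
        calc Real.sqrt x * D0 * (Real.log (Kf x D0) * Real.log (Real.log (Kf x D0)))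
            ≤ (Real.sqrt x * D) * 6 := mul_le_mul h6 hom0 (by linarith) hsD
          _ = _ := by ring
      have h7 : C1 * (T1 + Real.sqrt x * D0 *
          (Real.log (Kf x D0) * Real.log (Real.log (Kf x D0)))) ≤
          |C1| * (T1 + 6 * T2) := by
        refine mul_le_mul hC1' (by linarith) (by linarith) hC1
      have h8 : C2 * (Real.sqrt x * ((min D D1 : ℕ) : ℝ)) ≤ C2 * T2 := by
        apply mul_le_mul_of_nonneg_left _ hC2.le
        exact (mul_le_mul_of_nonneg_left hmin hs0).trans hT2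
      have h9 : 0 ≤ |C1| * T1 := mul_nonneg hC1 hT1
      have h10 : 0 ≤ C2 * T1 := mul_nonneg hC2.le hT1
      have h11 : 0 ≤ x0 * T1 := mul_nonneg (by linarith) hT1
      have h12 : 0 ≤ x0 * T2 := mul_nonneg (by linarith) hT2'
      have h13 : (6 * |C1| + C2 + 20 + x0) * (T1 + T2) =
          6 * (|C1| * T1) + C2 * T1 + 20 * T1 + x0 * T1 + 6 * (|C1| * T2) + C2 * T2 + 20 * T2 +
            x0 * T2 := by ring
      have h14 : |C1| * (T1 + 6 * T2) = |C1| * T1 + 6 * (|C1| * T2) := by ring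
      rw [h13]
      linarith
  · -- small x
    have e1 : ∑ d ∈ Icc 1 D, maxErr (y d) d ≤ ∑ _d ∈ Icc 1 D, 2 * x := by
      refine Finset.sum_le_sum fun d hd => ?_
      have := Pool.Agent.Lib.EH.maxErr_le (hy d).1 d (Finset.mem_Icc.1 hd).1
      linarith [(hy d).2]
    rw [Finset.sum_const, Nat.card_Icc, nsmul_eq_mul, Nat.add_sub_cancel] at e1
    have e2 : (D : ℝ) * (2 * x) ≤ x0 * (Real.sqrt x * D) := by
      have e3 : 2 * x ≤ x0 * Real.sqrt x := by nlinarith
      calc (D : ℝ) * (2 * x) ≤ D * (x0 * Real.sqrt x) := mul_le_mul_of_nonneg_left e3 hD0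
        _ = _ := by ring
    have e4 : x0 * (Real.sqrt x * D) ≤ x0 * T2 := mul_le_mul_of_nonneg_left hT2 (by linarith)
    have e5 : x0 * T2 ≤ (6 * |C1| + C2 + 20 + x0) * (T1 + T2) := by
      apply mul_le_mul (by linarith) (by linarith) hT2' (by linarith)
    linarith

end Pool.Agent.Lib.BV
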