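import Pool.Agent.Lib.BV.SpecA
import Pool.Agent.Lib.EH4.Spc

/-! MP_00e23e_nt, BV: Farey large sieve from the dual form. -/

namespace Pool.Agent.Lib.BV

open Finset Pool.Agent.Lib.EH3

/-- the large sieve for well spaced points, from the dual form -/
lemma Far_ls {ι : Type*} [DecidableEq ι] (J : Finset ι) (θ : ι → ℝ) {δ : ℝ} (hδ : 0 < δ)
    (hsep : ∀ i ∈ J, ∀ j ∈ J, i ≠ j → δ ≤ |(θ i - θ j) - round (θ i - θ j)|) (h : ℕ)
    (hh : 0 < h) (hL : 1 ≤ (2 * h : ℕ) * δ) (N : ℕ) (hN : N < 2 * h) (a : ℕ → ℂ) :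
    ∑ j ∈ J, ‖∑ n ∈ Icc 1 N, a n * ee (n * θ j)‖ ^ 2 ≤
      20 * (h : ℝ) * ∑ n ∈ Icc 1 N, ‖a n‖ ^ 2 := by
  set S : ι → ℂ := fun j => ∑ n ∈ Icc 1 N, a n * ee (n * θ j) with hS
  set T : ℝ := ∑ j ∈ J, ‖S j‖ ^ 2 with hT
  set c : ι → ℂ := fun j => (starRingEnd ℂ) (S j) with hc
  have hcn : ∀ j, ‖c j‖ = ‖S j‖ := by
    intro j
    rw [hc]
    exact RCLike.norm_conj _
  have h1 := dual_ls J θ hδ hsep h hh hL c
  have h2 : ∑ j ∈ J, ‖c j‖ ^ 2 = T := by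
    rw [hT]
    exact Finset.sum_congr rfl fun j _ => by rw [hcn j]
  rw [h2] at h1
  have hT0 : 0 ≤ T := Finset.sum_nonneg fun j _ => by positivity
  have h3 : (T : ℂ) = ∑ n ∈ Icc 1 N, a n * ∑ j ∈ J, c j * ee (n * θ j) := by
    have e1 : (T : ℂ) = ∑ j ∈ J, c j * S j := by
      rw [hT, Complex.ofReal_sum]
      refine Finset.sum_congr rfl fun j _ => ?_
      rw [hc]
      dsimp only
      rw [mul_comm, Complex.mul_conj, Complex.normSq_eq_norm_sq]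
    rw [e1]
    have e2 : ∀ j ∈ J, c j * S j = ∑ n ∈ Icc 1 N, a n * (c j * ee (n * θ j)) := by
      intro j _
      rw [hS]
      dsimp only
      rw [Finset.mul_sum]
      exact Finset.sum_congr rfl fun n _ => by ring
    rw [Finset.sum_congr rfl e2, Finset.sum_comm]
    exact Finset.sum_congr rfl fun n _ => by rw [Finset.mul_sum]
  have h4 : T ≤ ∑ n ∈ Icc 1 N, ‖a n‖ * ‖∑ j ∈ J, c j * ee (n * θ j)‖ := by
    have e1 : ‖(T : ℂ)‖ = T := by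
      rw [Complex.norm_real, Real.norm_eq_abs, abs_of_nonneg hT0]
    rw [← e1, h3]
    refine (norm_sum_le _ _).trans ?_
    exact Finset.sum_le_sum fun n _ => by rw [norm_mul]
  have h5 : T ^ 2 ≤ (∑ n ∈ Icc 1 N, ‖a n‖ ^ 2) *
      ∑ n ∈ Icc 1 N, ‖∑ j ∈ J, c j * ee (n * θ j)‖ ^ 2 := by
    refine (pow_le_pow_left₀ hT0 h4 2).trans ?_
    exact Finset.sum_mul_sq_le_sq_mul_sq _ _ _
  have h6 : ∑ n ∈ Icc 1 N, ‖∑ j ∈ J, c j * ee (n * θ j)‖ ^ 2 ≤ 20 * (h : ℝ) * T := by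
    have e1 : ∑ n ∈ Icc 1 N, ‖∑ j ∈ J, c j * ee (n * θ j)‖ ^ 2 ≤
        ∑ n ∈ range (2 * h), ‖∑ j ∈ J, c j * ee (n * θ j)‖ ^ 2 := by
      apply Finset.sum_le_sum_of_subset_of_nonneg
      · intro n hn
        rw [mem_Icc] at hn
        rw [mem_range]
        omega
      · intro n _ _
        positivity
    refine e1.trans (h1.trans (le_of_eq ?_))
    push_cast
    ring
  have hA0 : 0 ≤ ∑ n ∈ Icc 1 N, ‖a n‖ ^ 2 := Finset.sum_nonneg fun n _ => by positivity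
  have h7 : T * T ≤ (20 * (h : ℝ) * ∑ n ∈ Icc 1 N, ‖a n‖ ^ 2) * T := by
    have e1 := h5.trans (mul_le_mul_of_nonneg_left h6 hA0)
    calc T * T = T ^ 2 := by ring
      _ ≤ _ := e1
      _ = _ := by ring
  rcases eq_or_lt_of_le hT0 with h8 | h8
  · rw [← h8]
    positivity
  · exact le_of_mul_le_mul_right h7 h8

theorem tFar : FarStmt := by
  classical
  intro Q N a hQ
  have hQR : (0 : ℝ) < Q := by exact_mod_cast hQ
  set h : ℕ := N + Q ^ 2 with hh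
  have hh0 : 0 < h := by positivity
  set J : Finset (Σ _ : ℕ, ℕ) :=
    (Icc 2 Q).sigma (fun q => (range q).filter (fun b => b.Coprime q)) with hJ
  set θ : (Σ _ : ℕ, ℕ) → ℝ := fun j => (j.2 : ℝ) / j.1 with hθ
  have hsep : ∀ i ∈ J, ∀ j ∈ J, i ≠ j →
      1 / (Q : ℝ) ^ 2 ≤ |(θ i - θ j) - round (θ i - θ j)| := by
    intro i hi j hj hij
    rw [hJ, mem_sigma, mem_filter, mem_Icc, mem_range] at hi hj
    apply Pool.Agent.Lib.EH4.tSpc Q i.1 i.2 j.1 j.2 hi.1.1 hi.1.2 hi.2.1 hi.2.2 hj.1.1 hj.1.2 hj.2.1 hj.2.2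
    rintro ⟨h1, h2⟩
    apply hij
    exact Sigma.ext h1 (heq_of_eq h2)
  have hL : 1 ≤ ((2 * h : ℕ) : ℝ) * (1 / (Q : ℝ) ^ 2) := by
    rw [mul_one_div, le_div_iff₀ (by positivity), one_mul]
    rw [hh]
    push_cast
    have : (0 : ℝ) ≤ (N : ℝ) := by positivity
    nlinarith [sq_nonneg (Q : ℝ)]
  have hN : N < 2 * h := by
    have : 0 < Q ^ 2 := by positivity
    omega
  have h1 := Far_ls J θ (δ := 1 / (Q : ℝ) ^ 2) (by positivity) hsep h hh0 hL N hN a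
  have h2 : ∑ j ∈ J, ‖∑ n ∈ Icc 1 N, a n * ee (n * θ j)‖ ^ 2 =
      ∑ q ∈ Icc 2 Q, ∑ b ∈ (range q).filter (fun b => b.Coprime q),
      ‖∑ n ∈ Icc 1 N, a n * ee (n * ((b : ℝ) / q))‖ ^ 2 := by
    rw [hJ, Finset.sum_sigma]
  rw [h2] at h1
  refine h1.trans (le_of_eq ?_)
  rw [hh]
  push_cast
  ring

end Pool.Agent.Lib.BV
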