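import Pool.Agent.Lib.BV.SpecD

/-!
MP_00e23e_nt, Lib/BV, module Fin: the final theorem.
-/

namespace Pool.Agent.Lib.BV

open Finset Pool.Agent.Lib.EH3 Pool.Agent.Results.MP_00e23e_nt

theorem Fin_log16 (t : ℝ) (ht : 16 ≤ t) : 1 ≤ Real.log t := by
  rw [Real.le_log_iff_exp_le (by linarith)]
  have := Real.exp_one_lt_d9
  linarith

theorem Fin_ker (x : ℝ) (D : ℕ) (hx : 16 ≤ x) :
    0 ≤ Real.log (Kf x D) * Real.log (Real.log (Kf x D)) := by
  have h1 : 1 ≤ Real.log x := Fin_log16 x hx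
  have h2 : 16 ≤ Kf x D := by
    unfold Kf
    have : 0 ≤ Real.sqrt x / ((D : ℝ) * Real.log x) := by positivity
    linarith
  have h3 : 1 ≤ Real.log (Kf x D) := Fin_log16 _ h2
  exact mul_nonneg (by linarith) (Real.log_nonneg h3)

theorem tFin (h : DycStmt) : FinStmt := by
  intro A hA
  obtain ⟨C, x0, hC, hx0, h1⟩ := h A hA
  have hl0 : 1 ≤ Real.log x0 := Fin_log16 x0 hx0
  have hlA : 0 < (Real.log x0) ^ A := Real.rpow_pos_of_pos (by linarith) A
  refine ⟨C + x0 ^ 2 * (Real.log x0) ^ A, ?_⟩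
  intro x D y hx hD hDx hy
  have hl : 1 ≤ Real.log x := Fin_log16 x hx
  have hxA : 0 < (Real.log x) ^ A := Real.rpow_pos_of_pos (by linarith) A
  have hker := Fin_ker x D hx
  have hs0 : 0 ≤ Real.sqrt x := Real.sqrt_nonneg x
  have hS : 0 ≤ x / (Real.log x) ^ A +
      Real.sqrt x * D * (Real.log (Kf x D) * Real.log (Real.log (Kf x D))) := by positivity
  rcases le_or_gt x0 x with hxx | hxx
  · have h2 : ∀ d : ℕ, ∃ l : ℕ, l.Coprime d ∧ (1 ≤ d → maxErr (y d) d = |err (y d) d l|) := by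
      intro d
      rcases Nat.eq_zero_or_pos d with hd | hd
      · exact ⟨1, Nat.coprime_one_left d, fun h => by omega⟩
      · obtain ⟨l, _, _, hl3, hl4⟩ := Pool.Agent.Lib.EH.exists_maxErr (y d) hd
        exact ⟨l, hl3, fun _ => hl4⟩
    choose l hl1 hl2 using h2
    have h3 : ∑ d ∈ Icc 1 D, maxErr (y d) d = ∑ d ∈ Icc 1 D, |err (y d) d (l d)| :=
      Finset.sum_congr rfl fun d hd => hl2 d (Finset.mem_Icc.1 hd).1
    rw [h3]
    refine (h1 x D y l hxx hD hDx hy hl1).trans ?_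
    refine mul_le_mul_of_nonneg_right ?_ hS
    have : 0 ≤ x0 ^ 2 * (Real.log x0) ^ A := by positivity
    linarith
  · have hDs : (D : ℝ) ≤ Real.sqrt x := by
      have : (D : ℝ) * 1 ≤ (D : ℝ) * Real.log x :=
        mul_le_mul_of_nonneg_left hl (Nat.cast_nonneg D)
      linarith
    have hsx : Real.sqrt x * 4 ≤ x := by
      have h4 : (4 : ℝ) ≤ Real.sqrt x := by
        rw [show (4 : ℝ) = Real.sqrt (4 ^ 2) by
          rw [Real.sqrt_sq (by norm_num)]]
        exact Real.sqrt_le_sqrt (by linarith)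
      nlinarith [Real.mul_self_sqrt (by linarith : (0 : ℝ) ≤ x)]
    have h2 : ∑ d ∈ Icc 1 D, maxErr (y d) d ≤ ∑ _d ∈ Icc 1 D, 2 * x := by
      refine Finset.sum_le_sum fun d hd => ?_
      have := Pool.Agent.Lib.EH.maxErr_le (hy d).1 d (Finset.mem_Icc.1 hd).1
      linarith [(hy d).2]
    rw [Finset.sum_const, Nat.card_Icc, nsmul_eq_mul, Nat.add_sub_cancel] at h2
    have h5 : (D : ℝ) * (2 * x) ≤ x0 ^ 2 := by nlinarith
    have h6 : (Real.log x) ^ A ≤ (Real.log x0) ^ A :=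
      Real.rpow_le_rpow (by linarith) (Real.log_le_log (by linarith) hxx.le) hA.le
    have h7 : 1 ≤ (Real.log x0) ^ A * (x / (Real.log x) ^ A) := by
      rw [← mul_div_assoc, le_div_iff₀ hxA]
      nlinarith
    have h8 : x0 ^ 2 ≤ (x0 ^ 2 * (Real.log x0) ^ A) * (x / (Real.log x) ^ A) := by
      rw [mul_assoc]
      exact le_mul_of_one_le_right (by positivity) h7
    have h9 : 0 ≤ Real.sqrt x * D * (Real.log (Kf x D) * Real.log (Real.log (Kf x D))) := by
      positivity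
    have h10 : 0 ≤ x0 ^ 2 * (Real.log x0) ^ A := by positivity
    have h11 : 0 ≤ x / (Real.log x) ^ A := by positivity
    calc ∑ d ∈ Icc 1 D, maxErr (y d) d ≤ (x0 ^ 2 * (Real.log x0) ^ A) * (x / (Real.log x) ^ A) := by
          linarith
      _ ≤ (C + x0 ^ 2 * (Real.log x0) ^ A) * (x / (Real.log x) ^ A +
          Real.sqrt x * D * (Real.log (Kf x D) * Real.log (Real.log (Kf x D)))) := by
          apply mul_le_mul
          · linarith
          · linarith
          · exact h11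
          · linarith

end Pool.Agent.Lib.BV
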