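import Pool.Agent.Lib.BV.SpecW

namespace Pool.Agent.Lib.BV

open Finset

/-- powers of logarithms against small powers -/
theorem Fkk_pow (K : ℕ) (hK : 0 < K) (δ : ℝ) (hδ : 0 < δ) :
    ∃ C : ℝ, 0 < C ∧ ∀ v : ℝ, 1 ≤ v → (1 + Real.log v) ^ K ≤ C * v ^ δ := by
  have hKr : (0 : ℝ) < K := by exact_mod_cast hK
  have hη : 0 < δ / K := div_pos hδ hKr
  refine ⟨(1 + 1 / (δ / K)) ^ K, by positivity, fun v hv => ?_⟩
  have hv0 : (0 : ℝ) ≤ v := by linarith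
  have h1 : Real.log v ≤ v ^ (δ / K) / (δ / K) := Real.log_le_rpow_div hv0 hη
  have h2 : (1 : ℝ) ≤ v ^ (δ / K) := Real.one_le_rpow hv hη.le
  have h3 : 1 + Real.log v ≤ (1 + 1 / (δ / K)) * v ^ (δ / K) := by
    have e : v ^ (δ / K) / (δ / K) = 1 / (δ / K) * v ^ (δ / K) := by ring
    rw [e] at h1
    rw [add_mul, one_mul]
    linarith
  have h4 : 0 ≤ 1 + Real.log v := by
    have := Real.log_nonneg hv
    linarith
  calc (1 + Real.log v) ^ K ≤ ((1 + 1 / (δ / K)) * v ^ (δ / K)) ^ K :=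
        pow_le_pow_left₀ h4 h3 K
    _ = (1 + 1 / (δ / K)) ^ K * v ^ δ := by
        rw [mul_pow]
        congr 1
        rw [← Real.rpow_natCast (v ^ (δ / K)) K, ← Real.rpow_mul hv0, div_mul_cancel₀ _ hKr.ne']

theorem Fkk_ne_one {q : ℕ} {χ : DirichletCharacter ℂ q} (hq : 2 ≤ q) (h : χ.IsPrimitive) :
    χ ≠ 1 := by
  rintro rfl
  have hq0 : NeZero q := ⟨by omega⟩
  rw [DirichletCharacter.isPrimitive_def, DirichletCharacter.conductor_one] at h
  omega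

theorem Fkk_ell {q : ℕ} (hq : 2 ≤ q) (t : ℝ) :
    1 ≤ ell q t ∧ ell q t ≤ (1 + Real.log q) * (1 + Real.log (|t| + 2)) := by
  have hqr : (2 : ℝ) ≤ q := by exact_mod_cast hq
  have ht : (2 : ℝ) ≤ |t| + 2 := by have := abs_nonneg t; linarith
  have h4 : (4 : ℝ) ≤ q * (|t| + 2) := by nlinarith
  constructor
  · have h5 : Real.exp 1 ≤ q * (|t| + 2) := by
      have := Real.exp_one_lt_d9
      linarith
    have h6 := Real.log_le_log (Real.exp_pos 1) h5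
    rw [Real.log_exp] at h6
    exact h6
  · unfold ell
    rw [Real.log_mul (by linarith) (by linarith)]
    have h7 : 0 ≤ Real.log q := Real.log_nonneg (by linarith)
    have h8 : 0 ≤ Real.log (|t| + 2) := Real.log_nonneg (by linarith)
    nlinarith [mul_nonneg h7 h8]

theorem tFkk (h1 : SerStmt) (h2 : ChbStmt) (h3 : RecStmt) (h4 : LoFStmt) : FkkStmt := by
  intro j ε hε
  have hj : (0 : ℝ) < 2 * ((j : ℝ) + 1) := by positivity
  obtain ⟨ε', hε'⟩ : ∃ ε' : ℝ, ε' = ε / (2 * ((j : ℝ) + 1)) := ⟨_, rfl⟩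
  have hε'0 : 0 < ε' := by rw [hε']; exact div_pos hε hj
  obtain ⟨c, hc, hLoF⟩ := h4 ε' hε'0
  choose Cm hCm hSer using h1
  obtain ⟨a, ha, hRec⟩ := h3 (fun m => Cm m / c) (fun m => (div_pos (hCm m) hc).le) j
  obtain ⟨C1, hC1, hp1⟩ := Fkk_pow (11 * (j + 1)) (by omega) (ε / 2) (by linarith)
  obtain ⟨C2, hC2, hp2⟩ := Fkk_pow (11 * (j + 1)) (by omega) ((1 : ℝ) / 2) (by norm_num)
  refine ⟨a * C1 * C2, by positivity, fun q χ s hq hχ hs1 hs2 => ?_⟩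
  have hqr : (2 : ℝ) ≤ q := by exact_mod_cast hq
  have hq0 : (0 : ℝ) ≤ q := by linarith
  have hbps : BPS (chf χ) q := h2.1 q χ (by omega) (Fkk_ne_one hq hχ)
  obtain ⟨hL1, hL2⟩ := Fkk_ell hq s.im
  obtain ⟨L, hL⟩ : ∃ L, L = ell q s.im := ⟨_, rfl⟩
  have hlow := hLoF q χ s hq hχ hs1 hs2
  rw [← hL] at hL1 hL2 hlow
  obtain ⟨Q, hQ⟩ : ∃ Q, Q = (q : ℝ) ^ ε' := ⟨_, rfl⟩
  have hQ1 : 1 ≤ Q := by rw [hQ]; exact Real.one_le_rpow (by linarith) hε'0.le
  rw [← hQ] at hlow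
  obtain ⟨D0, hD0⟩ : ∃ D0, D0 = ‖DS (chf χ) 0 s‖ := ⟨_, rfl⟩
  rw [← hD0] at hlow
  have hD0n : 0 ≤ D0 := by rw [hD0]; exact norm_nonneg _
  have hV : (0 : ℝ) ≤ L ^ 11 * Q := by positivity
  have hmain := hRec q χ s (L ^ 11 * Q) (by omega) hs1 hV (by
    intro m hm1 hm2
    have hm := hSer m (chf χ) q s hqr hbps hs1 hs2
    rw [← hL] at hm
    rw [← hD0]
    have e1 : Cm m * L ^ (m + 1) ≤ Cm m / c * (L ^ 11 * Q) ^ m * D0 := by
      have e2 : L ^ (m + 10) * Q ≤ (L ^ 11 * Q) ^ m := by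
        rw [mul_pow, ← pow_mul]
        apply mul_le_mul
        · exact pow_le_pow_right₀ hL1 (by omega)
        · calc Q = Q ^ 1 := (pow_one Q).symm
            _ ≤ Q ^ m := pow_le_pow_right₀ hQ1 hm1
        · linarith
        · positivity
      calc Cm m * L ^ (m + 1) = Cm m / c * L ^ (m + 1) * c := by field_simp
        _ ≤ Cm m / c * L ^ (m + 1) * (D0 * Q * L ^ 9) := by
            apply mul_le_mul_of_nonneg_left hlow
            have := (div_pos (hCm m) hc).le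
            positivity
        _ = Cm m / c * (L ^ (m + 10) * Q) * D0 := by ring
        _ ≤ Cm m / c * (L ^ 11 * Q) ^ m * D0 := by
            apply mul_le_mul_of_nonneg_right _ hD0n
            apply mul_le_mul_of_nonneg_left e2
            exact (div_pos (hCm m) hc).le
    exact le_trans hm e1)
  have hQj : Q ^ (j + 1) = (q : ℝ) ^ (ε / 2) := by
    rw [hQ, ← Real.rpow_natCast, ← Real.rpow_mul hq0]
    congr 1
    rw [hε']
    push_cast
    field_simp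
  have hLj : L ^ (11 * (j + 1)) ≤ C1 * (q : ℝ) ^ (ε / 2) * (C2 * (|s.im| + 2) ^ ((1 : ℝ) / 2)) := by
    have ht : (1 : ℝ) ≤ |s.im| + 2 := by have := abs_nonneg s.im; linarith
    calc L ^ (11 * (j + 1)) ≤ ((1 + Real.log q) * (1 + Real.log (|s.im| + 2))) ^ (11 * (j + 1)) :=
          pow_le_pow_left₀ (by linarith) hL2 _
      _ = (1 + Real.log q) ^ (11 * (j + 1)) * (1 + Real.log (|s.im| + 2)) ^ (11 * (j + 1)) :=
          mul_pow _ _ _
      _ ≤ C1 * (q : ℝ) ^ (ε / 2) * (C2 * (|s.im| + 2) ^ ((1 : ℝ) / 2)) := by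
          apply mul_le_mul (hp1 q (by linarith)) (hp2 _ ht)
          · have := Real.log_nonneg ht
            positivity
          · positivity
  have hqe : (q : ℝ) ^ (ε / 2) * (q : ℝ) ^ (ε / 2) = (q : ℝ) ^ ε := by
    rw [← Real.rpow_add (by linarith)]
    congr 1
    ring
  calc ‖LS (chf χ) j s‖ ≤ a * (L ^ 11 * Q) ^ (j + 1) := hmain
    _ = a * (L ^ (11 * (j + 1)) * (q : ℝ) ^ (ε / 2)) := by rw [mul_pow, ← pow_mul, hQj]
    _ ≤ a * (C1 * (q : ℝ) ^ (ε / 2) * (C2 * (|s.im| + 2) ^ ((1 : ℝ) / 2)) * (q : ℝ) ^ (ε / 2)) := by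
        apply mul_le_mul_of_nonneg_left _ ha.le
        apply mul_le_mul_of_nonneg_right hLj
        positivity
    _ = a * C1 * C2 * ((q : ℝ) ^ (ε / 2) * (q : ℝ) ^ (ε / 2)) * (|s.im| + 2) ^ ((1 : ℝ) / 2) := by
        ring
    _ = a * C1 * C2 * (q : ℝ) ^ ε * (|s.im| + 2) ^ ((1 : ℝ) / 2) := by rw [hqe]

end Pool.Agent.Lib.BV
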