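import Pool.Agent.Lib.BV.SpecF

/-!
The fundamental lemma, assembly (`FlStmt`).
-/

namespace Pool.Agent.Lib.BV

open Finset Pool.Agent.Lib.EH3

private lemma Fl_pow (z b : ℕ) (hz : 2 ≤ z) (hb : 1 ≤ b) :
    4 * ((z : ℝ) + 1) * (z : ℝ) ^ (4 * b + 6) ≤ (z : ℝ) ^ (16 * b) := by
  have hz' : (2 : ℝ) ≤ z := by exact_mod_cast hz
  have h1 : 4 * ((z : ℝ) + 1) ≤ (z : ℝ) ^ 4 := by
    have h2 : (4 : ℝ) ≤ (z : ℝ) ^ 2 := by nlinarith
    have h3 : (z : ℝ) ^ 4 = (z : ℝ) ^ 2 * (z : ℝ) ^ 2 := by ring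
    nlinarith
  have h4 : (z : ℝ) ^ (4 * b + 6) * (z : ℝ) ^ 4 ≤ (z : ℝ) ^ (16 * b) := by
    rw [← pow_add]
    exact pow_le_pow_right₀ (by linarith) (by omega)
  have h5 : (0 : ℝ) ≤ (z : ℝ) ^ (4 * b + 6) := by positivity
  calc 4 * ((z : ℝ) + 1) * (z : ℝ) ^ (4 * b + 6) ≤ (z : ℝ) ^ 4 * (z : ℝ) ^ (4 * b + 6) :=
        mul_le_mul_of_nonneg_right h1 h5
    _ = (z : ℝ) ^ (4 * b + 6) * (z : ℝ) ^ 4 := mul_comm _ _
    _ ≤ _ := h4

theorem tFl (h1 : ClfStmt) (h2 : MnsStmt) : FlStmt := by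
  obtain ⟨C, hC, hM⟩ := h2
  refine ⟨2 * C, by positivity, fun z b d l l2 N N2 hz hb hd hl hl2 hN => ?_⟩
  have a1 := (h1 z d b l N N2 hz hd hl hN).2
  have a2 := (h1 z d b l2 N N2 hz hd hl2 hN).2
  have a3 := (hM z d b hz hd).2.2
  have hX : (0 : ℝ) ≤ ((N2 : ℝ) - N) / d := by
    have : (N : ℝ) ≤ N2 := by exact_mod_cast hN
    exact div_nonneg (by linarith) (by positivity)
  have a4 := mul_le_mul_of_nonneg_left a3 hX
  have hd0 : (d : ℝ) ≠ 0 := by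
    have : 0 < d := by omega
    positivity
  have hphi : (d.totient : ℝ) ≠ 0 := by
    have : 0 < d.totient := Nat.totient_pos.2 (by omega)
    positivity
  have hlog : Real.log z ≠ 0 := by
    have : (2 : ℝ) ≤ z := by exact_mod_cast hz
    exact (Real.log_pos (by linarith)).ne'
  have a5 : ((N2 : ℝ) - N) / d * (C * Real.exp (-(b : ℝ)) * (((d : ℝ) / (d.totient : ℝ)) / Real.log z))
      = C * (((N2 : ℝ) - N) / (d.totient : ℝ) * (Real.exp (-(b : ℝ)) / Real.log z)) := by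
    field_simp
  rw [a5] at a4
  have a6 := Fl_pow z b hz hb
  have a7 : 2 * (2 * ((z : ℝ) + 1) * (z : ℝ) ^ (4 * b + 6)) = 4 * ((z : ℝ) + 1) * (z : ℝ) ^ (4 * b + 6) := by
    ring
  obtain ⟨b1, b2⟩ := abs_le.mp a1
  obtain ⟨c1, c2⟩ := abs_le.mp a2
  rw [abs_le]
  constructor
  · linarith
  · linarith

end Pool.Agent.Lib.BV
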