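import Pool.Agent.Lib.BV.SpecC

/-!
MP_00e23e_nt, BV, module Fyy: size and support of the bilinear part.
-/

namespace Pool.Agent.Lib.BV

open Finset Pool.Agent.Lib.EH3

private theorem Fyy_blk_nonneg (P n : ℕ) : 0 ≤ blk P n := by
  unfold blk
  split_ifs <;> norm_num

private theorem Fyy_bb_nonneg (P n : ℕ) : 0 ≤ bb P n := by
  unfold bb
  split_ifs
  · positivity
  · exact le_refl _

private theorem Fyy_bj_nonneg (P j n : ℕ) : 0 ≤ bj P j n := by
  unfold bj
  split_ifs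
  · exact Fyy_bb_nonneg _ _
  · exact le_refl _

private theorem Fyy_blk {P n : ℕ} (h : blk P n ≠ 0) : P < n ∧ n ≤ 2 * P := by
  unfold blk at h
  by_contra hc
  exact h (if_neg fun h1 => hc h1.2)

private theorem Fyy_bj {P j n : ℕ} (h : bj P j n ≠ 0) :
    2 ^ j * P < n ∧ n ≤ 2 ^ (j + 1) * P := by
  unfold bj at h
  by_contra hc
  exact h (if_neg hc)

private theorem Fyy_FJ_nonneg (η : ℝ) (T P j n : ℕ) : 0 ≤ FJ η T P j n := by
  unfold FJ
  refine Finset.sum_nonneg fun w _ => ?_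
  split_ifs
  · exact mul_nonneg (Fyy_blk_nonneg _ _) (Fyy_bj_nonneg _ _ _)
  · exact le_refl _

/-- the sum over j of the terms of one pair -/
private theorem Fyy_swap (η y : ℝ) (P J n : ℕ) :
    ∑ j ∈ range J, FJ η (cut η y P j) P j n =
      ∑ w ∈ n.divisorsAntidiagonal, blk P w.1 * ∑ j ∈ range J,
        if gi η P w.1 + gi η (2 ^ j * P) w.2 < cut η y P j then bj P j w.2 else 0 := by
  unfold FJ
  rw [Finset.sum_comm]
  refine Finset.sum_congr rfl fun w _ => ?_
  rw [Finset.mul_sum]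
  refine Finset.sum_congr rfl fun j _ => ?_
  split_ifs
  · rfl
  · rw [mul_zero]

private theorem Fyy_le (h3 : CwwStmt) (η y : ℝ) (P J n : ℕ) (hP : 1 ≤ P) :
    ∑ j ∈ range J, FJ η (cut η y P j) P j n ≤ cw P n := by
  rw [Fyy_swap]
  unfold cw
  refine Finset.sum_le_sum fun w _ => ?_
  have h5 : ∑ j ∈ range J, (if gi η P w.1 + gi η (2 ^ j * P) w.2 < cut η y P j then
      bj P j w.2 else 0) ≤ ∑ j ∈ range J, bj P j w.2 := by
    refine Finset.sum_le_sum fun j _ => ?_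
    split_ifs
    · exact le_refl _
    · exact Fyy_bj_nonneg _ _ _
  split_ifs with h6
  · exact mul_le_mul_of_nonneg_left (h5.trans (h3.2.2.1 P J w.2 hP).2) (Fyy_blk_nonneg _ _)
  · have h7 : ∑ j ∈ range J, bj P j w.2 = 0 :=
      Finset.sum_eq_zero fun j _ => h3.2.2.2 P j w.2 hP (by omega)
    rw [h7] at h5
    exact mul_nonpos_of_nonneg_of_nonpos (Fyy_blk_nonneg _ _) h5

private theorem Fyy_eq (h3 : CwwStmt) (h4 : GriStmt) (η y : ℝ) (P J n : ℕ) (hη : 0 < η)
    (hP : 1 ≤ P) (hy : y ≤ (2 : ℝ) ^ J) (hn : (n : ℝ) ≤ y) :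
    ∑ j ∈ range J, FJ η (cut η y P j) P j n = cw P n := by
  rw [Fyy_swap]
  unfold cw
  refine Finset.sum_congr rfl fun w hw => ?_
  obtain ⟨h1, h0⟩ := Nat.mem_divisorsAntidiagonal.1 hw
  by_cases hb : blk P w.1 = 0
  · rw [hb, zero_mul, zero_mul, ite_self]
  · obtain ⟨hb1, hb2⟩ := Fyy_blk hb
    have h5 : ∑ j ∈ range J, (if gi η P w.1 + gi η (2 ^ j * P) w.2 < cut η y P j then
        bj P j w.2 else 0) = ∑ j ∈ range J, bj P j w.2 := by
      refine Finset.sum_congr rfl fun j _ => ?_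
      by_cases h6 : bj P j w.2 = 0
      · rw [h6, ite_self]
      · obtain ⟨h7, h8⟩ := Fyy_bj h6
        rw [if_pos]
        refine (h4 η y P j w.1 w.2 hη hP hb1 hb2 h7 h8).1 ?_
        have h9 : ((w.1 : ℝ) * w.2) = n := by exact_mod_cast h1
        rw [h9]
        exact hn
    rw [h5]
    split_ifs with h6
    · congr 1
      refine h3.2.1 P J w.2 hP h6 ?_
      have h7 : w.2 ≤ n := Nat.le_of_dvd (Nat.pos_of_ne_zero h0) ⟨w.1, by rw [← h1, mul_comm]⟩
      have h8 : n ≤ 2 ^ J := by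
        have : (n : ℝ) ≤ ((2 ^ J : ℕ) : ℝ) := by
          push_cast
          exact hn.trans hy
        exact_mod_cast this
      have h9 : 2 ^ J ≤ 2 ^ J * P := Nat.le_mul_of_pos_right _ hP
      omega
    · have h7 : ∑ j ∈ range J, bj P j w.2 = 0 :=
        Finset.sum_eq_zero fun j _ => h3.2.2.2 P j w.2 hP (by omega)
      rw [h7, mul_zero]

theorem tFyy (h1 : CvStmt) (h2 : ScvStmt) (h3 : CwwStmt) (h4 : GriStmt) : FyyStmt := by
  intro η y z K J n hη hz hn hy
  have hpos : ∀ j : ℕ, 1 ≤ z * 2 ^ j := fun j => Nat.one_le_iff_ne_zero.mpr (by positivity)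
  have hzj : ∀ j : ℕ, z ≤ z * 2 ^ j := fun j => Nat.le_mul_of_pos_right z (by positivity)
  have hle : FY η z K J y n ≤ ∑ k ∈ range K, cw (z * 2 ^ k) n :=
    Finset.sum_le_sum fun k _ => Fyy_le h3 η y (z * 2 ^ k) J n (hpos k)
  have hcw : ∀ k, cw (z * 2 ^ k) n ≤ cv (z * 2 ^ k) n :=
    fun k => (h3.1 (z * 2 ^ k) n (hpos k) hn).2.1
  refine ⟨?_, ?_, ?_, ?_⟩
  · exact Finset.sum_nonneg fun k _ => Finset.sum_nonneg fun j _ => Fyy_FJ_nonneg _ _ _ _ _
  · by_cases hR : Rough z n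
    · have hrr : rr z n = 1 := by
        unfold rr
        rw [if_pos hR]
      rw [hrr]
      exact (hle.trans (Finset.sum_le_sum fun k _ => hcw k)).trans (h2 z K n hz hn)
    · have hrr : rr z n = 0 := by
        unfold rr
        rw [if_neg hR]
      rw [hrr]
      refine hle.trans (Finset.sum_nonpos fun k _ => (hcw k).trans ?_)
      by_contra hc
      obtain ⟨hr, _⟩ := (h1 (z * 2 ^ k) n (hpos k) hn).2.2.1 (fun h5 => hc (le_of_eq h5))
      exact hR fun p hp hpn => lt_of_le_of_lt (hzj k) (hr p hp hpn)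
  · intro hny
    exact Finset.sum_congr rfl fun k _ => Fyy_eq h3 h4 η y (z * 2 ^ k) J n hη (hpos k) hy hny
  · intro hne
    by_contra hc
    apply hne
    refine Finset.sum_eq_zero fun k _ => Finset.sum_eq_zero fun j _ => ?_
    unfold FJ
    refine Finset.sum_eq_zero fun w hw => ?_
    obtain ⟨h5, _⟩ := Nat.mem_divisorsAntidiagonal.1 hw
    split_ifs with h6
    · by_contra h7
      obtain ⟨hb1, hb2⟩ := Fyy_blk (left_ne_zero_of_mul h7)
      obtain ⟨h8, h9⟩ := Fyy_bj (right_ne_zero_of_mul h7)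
      apply hc
      have h10 := (h4 η y (z * 2 ^ k) j w.1 w.2 hη (hpos k) hb1 hb2 h8 h9).2.1 h6
      have h11 : ((w.1 : ℝ) * w.2) = n := by exact_mod_cast h5
      rw [h11] at h10
      exact h10
    · rfl

end Pool.Agent.Lib.BV
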