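import Pool.Agent.Lib.BV.SpecA

namespace Pool.Agent.Lib.BV

open Finset Pool.Agent.Lib.EH3

private lemma Gau_sum_zmod {q : ℕ} [NeZero q] (f : ZMod q → ℂ) :
    ∑ a : ZMod q, f a = ∑ b ∈ range q, f (b : ZMod q) := by
  refine Finset.sum_nbij' (fun a => a.val) (fun b => (b : ZMod q)) ?_ ?_ ?_ ?_ ?_
  · intro a _
    exact mem_range.mpr (ZMod.val_lt a)
  · intro b _
    exact mem_univ _
  · intro a _
    exact ZMod.natCast_zmod_val a
  · intro b hb
    exact ZMod.val_cast_of_lt (mem_range.mp hb)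
  · intro a _
    rw [ZMod.natCast_zmod_val]

private lemma Gau_filter {q : ℕ} (χ : DirichletCharacter ℂ q) (g : ℕ → ℂ) :
    ∑ b ∈ (range q).filter (fun b => b.Coprime q), χ (b : ZMod q) * g b =
      ∑ b ∈ range q, χ (b : ZMod q) * g b := by
  rw [Finset.sum_filter]
  refine Finset.sum_congr rfl fun b _ => ?_
  split_ifs with h
  · rfl
  · rw [MulChar.map_nonunit, zero_mul]
    rwa [ZMod.isUnit_iff_coprime]

private lemma Gau_std {q : ℕ} [NeZero q] (n b : ℕ) :
    (ZMod.stdAddChar : AddChar (ZMod q) ℂ) ((n : ZMod q) * (b : ZMod q)) =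
      ee (n * ((b : ℝ) / q)) := by
  have h : ((n : ZMod q) * (b : ZMod q)) = (((n * b : ℕ) : ℤ) : ZMod q) := by
    push_cast
    rfl
  rw [h, ZMod.stdAddChar_coe]
  unfold ee
  congr 1
  push_cast
  ring

private lemma Gau_norm_char {q : ℕ} (χ : DirichletCharacter ℂ q) {b : ℕ} (h : b.Coprime q) :
    ‖χ (b : ZMod q)‖ = 1 := by
  have hu : IsUnit (b : ZMod q) := (ZMod.isUnit_iff_coprime b q).mpr h
  have := DirichletCharacter.unit_norm_eq_one χ hu.unit
  simpa using this

private lemma Gau_card (q : ℕ) :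
    (((range q).filter (fun b => b.Coprime q)).card : ℝ) = (q.totient : ℝ) := by
  rw [Nat.totient_eq_card_coprime]
  congr 2
  ext b
  simp only [mem_filter, mem_range]
  rw [Nat.coprime_comm]

private lemma Gau_parseval {q : ℕ} (hq : 1 ≤ q) (χ : DirichletCharacter ℂ q) :
    ∑ n ∈ range q, ‖∑ b ∈ (range q).filter (fun b => b.Coprime q),
      χ (b : ZMod q) * ee (n * ((b : ℝ) / q))‖ ^ 2 = (q : ℝ) * (q.totient : ℝ) := by
  have hqR : (0 : ℝ) < q := by exact_mod_cast hq
  have h0 : ((∑ n ∈ range q, ‖∑ b ∈ (range q).filter (fun b => b.Coprime q),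
      χ (b : ZMod q) * ee (n * ((b : ℝ) / q))‖ ^ 2 : ℝ) : ℂ) =
      (((q : ℝ) * (q.totient : ℝ) : ℝ) : ℂ) := by
    rw [Complex.ofReal_sum]
    have h1 : ∀ n ∈ range q, ((‖∑ b ∈ (range q).filter (fun b => b.Coprime q),
      χ (b : ZMod q) * ee (n * ((b : ℝ) / q))‖ ^ 2 : ℝ) : ℂ) =
        ∑ b ∈ (range q).filter (fun b => b.Coprime q), ∑ c ∈ (range q).filter (fun b => b.Coprime q),
          (χ (b : ZMod q) * (starRingEnd ℂ) (χ (c : ZMod q))) *
            ee (n * ((((b : ℤ) - (c : ℤ) : ℤ) : ℝ) / q)) := by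
      intro n _
      rw [Complex.ofReal_pow, ← Complex.mul_conj', map_sum, Finset.sum_mul_sum]
      refine Finset.sum_congr rfl fun b _ => Finset.sum_congr rfl fun c _ => ?_
      rw [map_mul, conj_ee]
      have h2 : ee (n * ((((b : ℤ) - (c : ℤ) : ℤ) : ℝ) / q)) =
          ee (n * ((b : ℝ) / q)) * ee (-(n * ((c : ℝ) / q))) := by
        rw [← ee_add]
        congr 1
        push_cast
        ring
      rw [h2]
      ring
    rw [Finset.sum_congr rfl h1, Finset.sum_comm]
    have h3 : ∀ b ∈ (range q).filter (fun b => b.Coprime q),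
        ∑ n ∈ range q, ∑ c ∈ (range q).filter (fun b => b.Coprime q),
          (χ (b : ZMod q) * (starRingEnd ℂ) (χ (c : ZMod q))) *
            ee (n * ((((b : ℤ) - (c : ℤ) : ℤ) : ℝ) / q)) = (q : ℂ) := by
      intro b hb
      obtain ⟨hb1, hb2⟩ := mem_filter.mp hb
      rw [mem_range] at hb1
      rw [Finset.sum_comm]
      rw [Finset.sum_eq_single_of_mem b hb]
      · rw [← Finset.mul_sum, orth (by omega : 0 < q)]
        rw [if_pos (by simp), Complex.mul_conj', Gau_norm_char χ hb2]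
        simp
      · intro c hc hcb
        obtain ⟨hc1, hc2⟩ := mem_filter.mp hc
        rw [mem_range] at hc1
        rw [← Finset.mul_sum, orth (by omega : 0 < q), if_neg, mul_zero]
        rintro ⟨k, hk⟩
        have hk0 : k = 0 := by
          by_contra hne
          have hle : (1 : ℤ) ≤ |k| := Int.one_le_abs hne
          have : (q : ℤ) * |k| = |(b : ℤ) - c| := by rw [hk, abs_mul, Nat.abs_cast]
          have h5 : |(b : ℤ) - c| < q := by rw [abs_lt]; constructor <;> omega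
          nlinarith
        rw [hk0, mul_zero] at hk
        exact hcb (by omega)
    rw [Finset.sum_congr rfl h3, Finset.sum_const, nsmul_eq_mul]
    have h4 := Gau_card q
    push_cast
    rw [mul_comm (q : ℂ)]
    congr 1
    exact_mod_cast h4
  exact_mod_cast h0

theorem tGau : GauStmt := by
  intro q χ hq hχ
  haveI : NeZero q := ⟨by omega⟩
  have hqR : (0 : ℝ) < q := by exact_mod_cast hq
  have hφ : (0 : ℝ) < (q.totient : ℝ) := by exact_mod_cast Nat.totient_pos.mpr (by omega)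
  have hχ' : (χ⁻¹).IsPrimitive := by
    rw [DirichletCharacter.isPrimitive_def] at hχ ⊢
    rw [DirichletCharacter.conductor_inv, hχ]
  set G : ℂ := gaussSum χ⁻¹ (ZMod.stdAddChar : AddChar (ZMod q) ℂ) with hG
  have key : ∀ n : ℕ, χ (n : ZMod q) * G =
      ∑ b ∈ (range q).filter (fun b => b.Coprime q), χ⁻¹ (b : ZMod q) * ee (n * ((b : ℝ) / q)) := by
    intro n
    have h1 := gaussSum_mulShift_of_isPrimitive (ZMod.stdAddChar : AddChar (ZMod q) ℂ) hχ'
      (n : ZMod q)
    rw [inv_inv, ← hG] at h1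
    rw [← h1, gaussSum, Gau_sum_zmod, Gau_filter χ⁻¹ (fun b => ee (n * ((b : ℝ) / q)))]
    refine Finset.sum_congr rfl fun b _ => ?_
    rw [AddChar.mulShift_apply, Gau_std]
  refine ⟨G, ?_, key⟩
  have h2 := Gau_parseval hq χ⁻¹
  have h3 : ∑ n ∈ range q, ‖∑ b ∈ (range q).filter (fun b => b.Coprime q),
      χ⁻¹ (b : ZMod q) * ee (n * ((b : ℝ) / q))‖ ^ 2 = (q.totient : ℝ) * ‖G‖ ^ 2 := by
    have h4 : ∀ n ∈ range q, ‖∑ b ∈ (range q).filter (fun b => b.Coprime q),
        χ⁻¹ (b : ZMod q) * ee (n * ((b : ℝ) / q))‖ ^ 2 =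
        if n.Coprime q then ‖G‖ ^ 2 else 0 := by
      intro n _
      rw [← key n, norm_mul]
      split_ifs with h
      · rw [Gau_norm_char χ h, one_mul]
      · rw [MulChar.map_nonunit]
        · simp
        · rwa [ZMod.isUnit_iff_coprime]
    rw [Finset.sum_congr rfl h4, ← Finset.sum_filter, Finset.sum_const, nsmul_eq_mul, Gau_card]
  rw [h3] at h2
  have h5 : (q.totient : ℝ) * ‖G‖ ^ 2 = (q.totient : ℝ) * q := by rw [h2]; ring
  exact mul_left_cancel₀ hφ.ne' h5

end Pool.Agent.Lib.BV
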