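import Pool.Agent.Lib.BV.SpecH

/-!
MP_00e23e_nt, Lib/BV, module Gdi: differences of (log u)^j u^(-s).
-/

namespace Pool.Agent.Lib.BV

open Finset

private theorem Gdi_deriv (j : ℕ) (s : ℂ) {v : ℝ} (hv : 0 < v) :
    HasDerivAt (gg j s)
      (((j : ℂ) * ((Real.log v : ℝ) : ℂ) ^ (j - 1) * ((v⁻¹ : ℝ) : ℂ)) * (v : ℂ) ^ (-s) +
        ((Real.log v : ℝ) : ℂ) ^ j * (-s * (v : ℂ) ^ (-s - 1))) v := by
  have h1 : HasDerivAt (fun y : ℝ => ((Real.log y : ℝ) : ℂ)) ((v⁻¹ : ℝ) : ℂ) v :=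
    (Real.hasDerivAt_log (ne_of_gt hv)).ofReal_comp
  have h2 := h1.fun_pow j
  have h3 : HasDerivAt (fun z : ℂ => z ^ (-s)) (-s * (v : ℂ) ^ (-s - 1) * 1) (v : ℂ) :=
    (hasDerivAt_id (v : ℂ)).cpow_const (Or.inl (by simpa using hv))
  have h4 := h3.comp_ofReal
  rw [mul_one] at h4
  exact h2.mul h4

private theorem Gdi_bound (j n : ℕ) (s : ℂ) {v : ℝ} (hn : 1 ≤ n) (hnv : (n : ℝ) ≤ v)
    (hv1 : v ≤ (n : ℝ) + 1) (hs1 : 1 ≤ s.re) (hs2 : s.re ≤ 2) :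
    ‖((j : ℂ) * ((Real.log v : ℝ) : ℂ) ^ (j - 1) * ((v⁻¹ : ℝ) : ℂ)) * (v : ℂ) ^ (-s) +
        ((Real.log v : ℝ) : ℂ) ^ j * (-s * (v : ℂ) ^ (-s - 1))‖ ≤
      (2 * j + 1) * ((|s.im| + 2) * (Real.log ((n : ℝ) + 1)) ^ j / (n : ℝ) ^ 2) := by
  have hn1 : (1 : ℝ) ≤ (n : ℝ) := by exact_mod_cast hn
  have hn0 : (0 : ℝ) < (n : ℝ) := by linarith
  have hv1' : 1 ≤ v := by linarith
  have hv0 : 0 < v := by linarith
  set L := Real.log ((n : ℝ) + 1) with hL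
  have hL2 : Real.log 2 ≤ L := Real.log_le_log (by norm_num) (by linarith)
  have hL3 : (1 : ℝ) / 2 ≤ L := by
    have := Real.log_two_gt_d9
    linarith
  have hL0 : 0 ≤ L := by linarith
  have hlv0 : 0 ≤ Real.log v := Real.log_nonneg hv1'
  have hlvL : Real.log v ≤ L := Real.log_le_log hv0 hv1
  have hnn : (1 : ℝ) / v ^ 2 ≤ 1 / (n : ℝ) ^ 2 := by
    apply one_div_le_one_div_of_le (by positivity)
    exact pow_le_pow_left₀ hn0.le hnv 2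
  -- the two powers of v
  have hp1 : ‖(v : ℂ) ^ (-s)‖ ≤ v⁻¹ := by
    rw [Complex.norm_cpow_eq_rpow_re_of_pos hv0, Complex.neg_re]
    calc v ^ (-s.re) ≤ v ^ (-1 : ℝ) :=
          Real.rpow_le_rpow_of_exponent_le hv1' (by linarith)
      _ = v⁻¹ := Real.rpow_neg_one v
  have hp2 : ‖(v : ℂ) ^ (-s - 1)‖ ≤ 1 / (n : ℝ) ^ 2 := by
    rw [Complex.norm_cpow_eq_rpow_re_of_pos hv0, Complex.sub_re, Complex.neg_re, Complex.one_re]
    calc v ^ (-s.re - 1) ≤ v ^ (-2 : ℝ) :=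
          Real.rpow_le_rpow_of_exponent_le hv1' (by linarith)
      _ = 1 / v ^ 2 := by
          rw [Real.rpow_neg hv0.le, Real.rpow_two, one_div]
      _ ≤ 1 / (n : ℝ) ^ 2 := hnn
  have hs : ‖s‖ ≤ |s.im| + 2 := by
    have h1 := Complex.norm_le_abs_re_add_abs_im s
    have h2 : |s.re| ≤ 2 := abs_le.mpr ⟨by linarith, hs2⟩
    linarith
  have hinv : (0 : ℝ) ≤ v⁻¹ := inv_nonneg.mpr hv0.le
  have hvv : v⁻¹ * v⁻¹ ≤ 1 / (n : ℝ) ^ 2 := by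
    have h1 : v⁻¹ * v⁻¹ = 1 / v ^ 2 := by
      rw [one_div, pow_two, mul_inv]
    rw [h1]
    exact hnn
  -- the first term
  have hA : ‖((j : ℂ) * ((Real.log v : ℝ) : ℂ) ^ (j - 1) * ((v⁻¹ : ℝ) : ℂ)) * (v : ℂ) ^ (-s)‖ ≤
      2 * j * L ^ j * (1 / (n : ℝ) ^ 2) := by
    rw [norm_mul, norm_mul, norm_mul, norm_pow, Complex.norm_real, Complex.norm_real,
      Complex.norm_natCast, Real.norm_of_nonneg hlv0, Real.norm_of_nonneg hinv]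
    have h1 : (j : ℝ) * Real.log v ^ (j - 1) ≤ 2 * j * L ^ j := by
      rcases Nat.eq_zero_or_pos j with hj | hj
      · subst hj
        simp
      · obtain ⟨i, rfl⟩ : ∃ i, j = i + 1 := ⟨j - 1, by omega⟩
        rw [Nat.add_sub_cancel]
        have h2 : Real.log v ^ i ≤ L ^ i := pow_le_pow_left₀ hlv0 hlvL i
        have h3 : L ^ i ≤ 2 * L ^ (i + 1) := by
          rw [pow_succ]
          have h4 : 0 ≤ L ^ i := pow_nonneg hL0 i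
          nlinarith
        have h5 : (0 : ℝ) ≤ ((i + 1 : ℕ) : ℝ) := Nat.cast_nonneg _
        calc ((i + 1 : ℕ) : ℝ) * Real.log v ^ i ≤ ((i + 1 : ℕ) : ℝ) * (2 * L ^ (i + 1)) :=
              mul_le_mul_of_nonneg_left (le_trans h2 h3) h5
          _ = 2 * ((i + 1 : ℕ) : ℝ) * L ^ (i + 1) := by ring
    have h0 : 0 ≤ (j : ℝ) * Real.log v ^ (j - 1) :=
      mul_nonneg (Nat.cast_nonneg _) (pow_nonneg hlv0 _)
    calc (j : ℝ) * Real.log v ^ (j - 1) * v⁻¹ * ‖(v : ℂ) ^ (-s)‖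
        ≤ (j : ℝ) * Real.log v ^ (j - 1) * v⁻¹ * v⁻¹ :=
          mul_le_mul_of_nonneg_left hp1 (mul_nonneg h0 hinv)
      _ = ((j : ℝ) * Real.log v ^ (j - 1)) * (v⁻¹ * v⁻¹) := by ring
      _ ≤ (2 * j * L ^ j) * (1 / (n : ℝ) ^ 2) :=
          mul_le_mul h1 hvv (mul_nonneg hinv hinv) (le_trans h0 h1)
  -- the second term
  have hB : ‖((Real.log v : ℝ) : ℂ) ^ j * (-s * (v : ℂ) ^ (-s - 1))‖ ≤
      (|s.im| + 2) * L ^ j * (1 / (n : ℝ) ^ 2) := by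
    rw [norm_mul, norm_mul, norm_pow, Complex.norm_real, Real.norm_of_nonneg hlv0, norm_neg]
    have h1 : Real.log v ^ j ≤ L ^ j := pow_le_pow_left₀ hlv0 hlvL j
    have h2 : ‖s‖ * ‖(v : ℂ) ^ (-s - 1)‖ ≤ (|s.im| + 2) * (1 / (n : ℝ) ^ 2) :=
      mul_le_mul hs hp2 (norm_nonneg _) (by positivity)
    calc Real.log v ^ j * (‖s‖ * ‖(v : ℂ) ^ (-s - 1)‖)
        ≤ L ^ j * ((|s.im| + 2) * (1 / (n : ℝ) ^ 2)) :=
          mul_le_mul h1 h2 (mul_nonneg (norm_nonneg _) (norm_nonneg _)) (pow_nonneg hL0 j)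
      _ = (|s.im| + 2) * L ^ j * (1 / (n : ℝ) ^ 2) := by ring
  have hLj : 0 ≤ L ^ j * (1 / (n : ℝ) ^ 2) := mul_nonneg (pow_nonneg hL0 j) (by positivity)
  have hT : (2 : ℝ) * j * (L ^ j * (1 / (n : ℝ) ^ 2)) ≤
      2 * j * (|s.im| + 2) * (L ^ j * (1 / (n : ℝ) ^ 2)) := by
    apply mul_le_mul_of_nonneg_right _ hLj
    have h1 : (0 : ℝ) ≤ 2 * j := by positivity
    have h2 : (1 : ℝ) ≤ |s.im| + 2 := by
      have := abs_nonneg s.im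
      linarith
    calc (2 : ℝ) * j = 2 * j * 1 := (mul_one _).symm
      _ ≤ 2 * j * (|s.im| + 2) := mul_le_mul_of_nonneg_left h2 h1
  refine le_trans (norm_add_le _ _) (le_trans (add_le_add hA hB) ?_)
  have hE : (2 * (j : ℝ) + 1) * ((|s.im| + 2) * L ^ j / (n : ℝ) ^ 2) =
      2 * j * (|s.im| + 2) * (L ^ j * (1 / (n : ℝ) ^ 2)) +
        (|s.im| + 2) * L ^ j * (1 / (n : ℝ) ^ 2) := by ring
  rw [hE]
  have hE2 : (2 : ℝ) * j * L ^ j * (1 / (n : ℝ) ^ 2) = 2 * j * (L ^ j * (1 / (n : ℝ) ^ 2)) := by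
    ring
  rw [hE2]
  linarith

theorem tGdi : GdiStmt := by
  intro j
  refine ⟨2 * j + 1, by positivity, ?_⟩
  intro n u s hn hnu hu hs1 hs2
  have hn1 : (1 : ℝ) ≤ (n : ℝ) := by exact_mod_cast hn
  have h1 := Convex.norm_image_sub_le_of_norm_hasDerivWithin_le (f := gg j s)
    (f' := fun v : ℝ => ((j : ℂ) * ((Real.log v : ℝ) : ℂ) ^ (j - 1) * ((v⁻¹ : ℝ) : ℂ)) *
      (v : ℂ) ^ (-s) + ((Real.log v : ℝ) : ℂ) ^ j * (-s * (v : ℂ) ^ (-s - 1)))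
    (s := Set.Icc (n : ℝ) ((n : ℝ) + 1)) (x := (n : ℝ)) (y := u)
    (C := (2 * j + 1) * ((|s.im| + 2) * (Real.log ((n : ℝ) + 1)) ^ j / (n : ℝ) ^ 2))
    (fun v hv => (Gdi_deriv j s (by linarith [hv.1])).hasDerivWithinAt)
    (fun v hv => Gdi_bound j n s hn hv.1 hv.2 hs1 hs2)
    (convex_Icc _ _) ⟨le_rfl, by linarith⟩ ⟨hnu, hu⟩
  refine le_trans h1 ?_
  have hL0 : 0 ≤ Real.log ((n : ℝ) + 1) := Real.log_nonneg (by linarith)
  have hC : 0 ≤ (2 * (j : ℝ) + 1) *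
      ((|s.im| + 2) * (Real.log ((n : ℝ) + 1)) ^ j / (n : ℝ) ^ 2) := by
    apply mul_nonneg (by positivity)
    apply div_nonneg _ (by positivity)
    exact mul_nonneg (by positivity) (pow_nonneg hL0 j)
  have h2 : ‖u - (n : ℝ)‖ ≤ 1 := by
    rw [Real.norm_eq_abs, abs_le]
    constructor <;> linarith
  calc _ ≤ (2 * (j : ℝ) + 1) *
      ((|s.im| + 2) * (Real.log ((n : ℝ) + 1)) ^ j / (n : ℝ) ^ 2) * 1 :=
        mul_le_mul_of_nonneg_left h2 hC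
    _ = _ := mul_one _

end Pool.Agent.Lib.BV
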