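import Pool.Agent.Lib.BV.SpecH

namespace Pool.Agent.Lib.BV

open Finset MeasureTheory

private theorem Gin_image : Real.exp '' Set.Ioi (0 : ℝ) = Set.Ioi 1 := by
  ext x
  constructor
  · rintro ⟨v, hv, rfl⟩
    exact Real.one_lt_exp_iff.mpr hv
  · intro hx
    have h1 : (1 : ℝ) < x := hx
    exact ⟨Real.log x, Real.log_pos h1, Real.exp_log (by linarith)⟩

private theorem Gin_fun (j : ℕ) (s : ℂ) (v : ℝ) :
    |Real.exp v| • gg j s (Real.exp v) = (v : ℂ) ^ j * Complex.exp (-((s - 1) * v)) := by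
  unfold gg
  rw [Real.log_exp, abs_of_pos (Real.exp_pos v), Complex.real_smul,
    Complex.cpow_def_of_ne_zero (by exact_mod_cast (Real.exp_pos v).ne'),
    ← Complex.ofReal_log (Real.exp_pos v).le, Real.log_exp, Complex.ofReal_exp,
    mul_left_comm, ← Complex.exp_add]
  congr 2
  ring

private theorem Gin_re (r : ℂ) (v : ℝ) : (-(r * (v : ℂ))).re = -(r.re * v) := by
  simp

private theorem Gin_int (j : ℕ) (r : ℂ) (hr : 0 < r.re) :
    IntegrableOn (fun v : ℝ => (v : ℂ) ^ j * Complex.exp (-(r * v))) (Set.Ioi 0) := by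
  have h1 : IntegrableOn (fun x : ℝ => x ^ (j : ℝ) * Real.exp (-r.re * x ^ (1 : ℝ)))
      (Set.Ioi 0) :=
    integrableOn_rpow_mul_exp_neg_mul_rpow (by have := Nat.cast_nonneg (α := ℝ) j; linarith)
      one_pos hr
  refine Integrable.mono' h1 (Continuous.aestronglyMeasurable (by fun_prop)) ?_
  rw [ae_restrict_iff' measurableSet_Ioi]
  refine Filter.Eventually.of_forall fun v hv => ?_
  have hv0 : (0 : ℝ) < v := hv
  rw [norm_mul, norm_pow, Complex.norm_real, Real.norm_eq_abs, abs_of_pos hv0,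
    Complex.norm_exp, Real.rpow_natCast, Real.rpow_one, Gin_re, neg_mul]

private theorem Gin_lim (k : ℕ) (r : ℂ) (hr : 0 < r.re) :
    Filter.Tendsto (fun v : ℝ => -((v : ℂ) ^ k * Complex.exp (-(r * v))) / r)
      Filter.atTop (nhds 0) := by
  have h1 : Filter.Tendsto (fun v : ℝ => v ^ k / Real.exp (r.re * v)) Filter.atTop
      (nhds 0) := (isLittleO_pow_exp_pos_mul_atTop k hr).tendsto_div_nhds_zero
  have h2 : Filter.Tendsto (fun v : ℝ => (v : ℂ) ^ k * Complex.exp (-(r * v)))
      Filter.atTop (nhds 0) := by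
    rw [tendsto_zero_iff_norm_tendsto_zero]
    refine h1.congr' ?_
    filter_upwards [Filter.eventually_ge_atTop 0] with v hv
    rw [norm_mul, norm_pow, Complex.norm_real, Real.norm_eq_abs, abs_of_nonneg hv,
      Complex.norm_exp, div_eq_mul_inv, ← Real.exp_neg, Gin_re]
  have h3 := (h2.neg).div_const r
  rw [neg_zero, zero_div] at h3
  exact h3

private theorem Gin_der (r : ℂ) (v : ℝ) :
    HasDerivAt (fun v : ℝ => Complex.exp (-(r * v))) (-r * Complex.exp (-(r * v))) v := by
  have h0 : HasDerivAt (fun v : ℝ => (v : ℂ)) 1 v := by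
    simpa using (hasDerivAt_id v).ofReal_comp
  have h1 : HasDerivAt (fun v : ℝ => -(r * (v : ℂ))) (-(r * 1)) v := (h0.const_mul r).neg
  have h3 := h1.cexp
  rw [mul_one, mul_comm] at h3
  exact h3

private theorem Gin_pow (j : ℕ) (v : ℝ) :
    HasDerivAt (fun v : ℝ => (v : ℂ) ^ (j + 1)) (((j : ℂ) + 1) * (v : ℂ) ^ j) v := by
  have h0 : HasDerivAt (fun v : ℝ => (v : ℂ)) 1 v := by
    simpa using (hasDerivAt_id v).ofReal_comp
  have h4 := h0.pow (j + 1)
  rw [mul_one, Nat.add_sub_cancel] at h4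
  push_cast at h4
  exact h4

private theorem Gin_val (r : ℂ) (hr : 0 < r.re) (j : ℕ) :
    ∫ v in Set.Ioi (0 : ℝ), (v : ℂ) ^ j * Complex.exp (-(r * v)) =
      (j.factorial : ℂ) / r ^ (j + 1) := by
  have hr0 : r ≠ 0 := by
    intro h
    rw [h] at hr
    simp at hr
  induction j with
  | zero =>
    have h1 := integral_Ioi_of_hasDerivAt_of_tendsto' (a := (0 : ℝ))
      (f := fun v : ℝ => -((v : ℂ) ^ 0 * Complex.exp (-(r * v))) / r)
      (f' := fun v : ℝ => (v : ℂ) ^ 0 * Complex.exp (-(r * v))) (m := 0)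
      (by
        intro v _
        have h2 : HasDerivAt (fun v : ℝ => -Complex.exp (-(r * v)) / r)
          (-(-r * Complex.exp (-(r * v))) / r) v := ((Gin_der r v).neg).div_const r
        have h3 : -(-r * Complex.exp (-(r * v))) / r = (v : ℂ) ^ 0 * Complex.exp (-(r * v)) := by
          field_simp
        rw [h3] at h2
        simpa only [pow_zero, one_mul] using h2)
      (Gin_int 0 r hr) (Gin_lim 0 r hr)
    rw [h1]
    simp [neg_div]
  | succ j ih =>
    have h1 := integral_Ioi_of_hasDerivAt_of_tendsto' (a := (0 : ℝ))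
      (f := fun v : ℝ => -((v : ℂ) ^ (j + 1) * Complex.exp (-(r * v))) / r)
      (f' := fun v : ℝ => (v : ℂ) ^ (j + 1) * Complex.exp (-(r * v)) -
        (((j : ℂ) + 1) / r) * ((v : ℂ) ^ j * Complex.exp (-(r * v)))) (m := 0)
      (by
        intro v _
        have h2 : HasDerivAt (fun v : ℝ => -((v : ℂ) ^ (j + 1) * Complex.exp (-(r * v))) / r)
          (-(((j : ℂ) + 1) * (v : ℂ) ^ j * Complex.exp (-(r * v)) +
            (v : ℂ) ^ (j + 1) * (-r * Complex.exp (-(r * v)))) / r) v :=
          (((Gin_pow j v).mul (Gin_der r v)).neg).div_const r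
        have h3 : -(((j : ℂ) + 1) * (v : ℂ) ^ j * Complex.exp (-(r * v)) +
            (v : ℂ) ^ (j + 1) * (-r * Complex.exp (-(r * v)))) / r =
            (v : ℂ) ^ (j + 1) * Complex.exp (-(r * v)) -
              (((j : ℂ) + 1) / r) * ((v : ℂ) ^ j * Complex.exp (-(r * v))) := by
          generalize Complex.exp (-(r * v)) = E
          field_simp
          ring
        rw [h3] at h2
        exact h2)
      ((Gin_int (j + 1) r hr).sub ((Gin_int j r hr).const_mul _)) (Gin_lim (j + 1) r hr)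
    rw [integral_sub (Gin_int (j + 1) r hr) ((Gin_int j r hr).const_mul _),
      integral_const_mul, ih] at h1
    have h6 : (0 : ℂ) - -(((0 : ℝ) : ℂ) ^ (j + 1) * Complex.exp (-(r * ((0 : ℝ) : ℂ)))) /
        r = 0 := by
      simp
    rw [h6] at h1
    rw [sub_eq_zero.1 h1, Nat.factorial_succ]
    push_cast
    rw [div_mul_div_comm, pow_succ' r (j + 1)]

theorem tGin : GinStmt := by
  intro j s hs
  have hr : 0 < (s - 1).re := by
    simp
    linarith
  have hd : ∀ x ∈ Set.Ioi (0 : ℝ), HasDerivWithinAt Real.exp (Real.exp x) (Set.Ioi 0) x :=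
    fun x _ => (Real.hasDerivAt_exp x).hasDerivWithinAt
  have hinj : Set.InjOn Real.exp (Set.Ioi (0 : ℝ)) := Real.exp_injective.injOn
  constructor
  · rw [← Gin_image, integrableOn_image_iff_integrableOn_abs_deriv_smul measurableSet_Ioi hd hinj]
    simp only [Gin_fun]
    exact Gin_int j (s - 1) hr
  · rw [← Gin_image, integral_image_eq_integral_abs_deriv_smul measurableSet_Ioi hd hinj]
    simp only [Gin_fun]
    exact Gin_val (s - 1) hr j

end Pool.Agent.Lib.BV
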