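import Pool.Agent.Lib.BV.SpecH

/-!
MP_00e23e_nt, BV, module Glo: general lower bound for Dirichlet series from the 3-4-1 inequality.
-/

namespace Pool.Agent.Lib.BV

open Finset

/-- trivial bound for an L-series with coefficients bounded by 1 -/
lemma Glo_triv (f : ℕ → ℂ) (hf : ∀ n, ‖f n‖ ≤ 1) (s : ℂ) (hs : 1 < s.re) :
    ‖LSeries f s‖ ≤ 1 + 1 / (s.re - 1) := by
  have hsum : LSeriesSummable f s := LSeriesSummable_of_bounded_of_one_lt_re (fun n _ => hf n) hs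
  have h1 : ‖LSeries f s‖ ≤ ∑' n, ‖LSeries.term f s n‖ := norm_tsum_le_tsum_norm hsum.norm
  have h2 : ∑' n, ‖LSeries.term f s n‖ = ∑' n : ℕ, ‖LSeries.term f s (n + 1)‖ := by
    rw [hsum.norm.tsum_eq_zero_add, LSeries.term_zero, norm_zero, zero_add]
  have h3 : ∀ n : ℕ, ‖LSeries.term f s (n + 1)‖ ≤ 1 / ((n : ℝ) + 1) ^ s.re := by
    intro n
    rw [LSeries.norm_term_eq, if_neg (Nat.succ_ne_zero n)]
    push_cast
    exact div_le_div_of_nonneg_right (hf _) (by positivity)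
  have h4 : Summable (fun n : ℕ => 1 / ((n : ℝ) + 1) ^ s.re) := by
    have h := (summable_nat_add_iff 1).2 (Real.summable_one_div_nat_rpow.2 hs)
    refine h.congr fun n => ?_
    push_cast
    rfl
  have h5 := ZetaAsymptotics.zeta_limit_aux1 hs
  have h6 : 0 ≤ ZetaAsymptotics.termTSum s.re :=
    tsum_nonneg fun n => ZetaAsymptotics.term_nonneg _ _
  have h7 : ∑' n : ℕ, ‖LSeries.term f s (n + 1)‖ ≤ ∑' n : ℕ, 1 / ((n : ℝ) + 1) ^ s.re :=
    Summable.tsum_le_tsum h3 ((summable_nat_add_iff 1).2 hsum.norm) h4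
  have h8 : 0 ≤ s.re * ZetaAsymptotics.termTSum s.re := mul_nonneg (by linarith) h6
  linarith

lemma Glo_DS0 {q : ℕ} (χ : DirichletCharacter ℂ q) (s : ℂ) :
    DS (chf χ) 0 s = LSeries (fun n => χ (n : ZMod q)) s := by
  unfold DS chf
  simp only [pow_zero, mul_one]

lemma Glo_DS1 {q : ℕ} (χ : DirichletCharacter ℂ q) (s : ℂ) :
    DS (chf χ) 1 s = LSeries (LSeries.logMul (fun n => χ (n : ZMod q))) s := by
  unfold DS chf
  refine LSeries_congr (fun {n} _ => ?_) s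
  simp only [pow_one, LSeries.logMul]
  rw [Complex.natCast_log, mul_comm]

lemma Glo_prod (q : ℕ) (χ : DirichletCharacter ℂ q) (t W : ℝ) (hq : 1 ≤ q)
    (hW : ∀ σ : ℝ, 1 < σ → σ ≤ 2 → ‖DS (chf (χ ^ 2)) 0 (σ + 2 * t * Complex.I)‖ ≤ W)
    (v : ℝ) (hv : 0 < v) (hv1 : v ≤ 1) :
    v ^ 3 ≤ 8 * ‖DS (chf χ) 0 ((1 + v : ℝ) + t * Complex.I)‖ ^ 4 * W := by
  haveI : NeZero q := ⟨by omega⟩
  have h1 := DirichletCharacter.norm_LSeries_product_ge_one χ hv t
  have e1 : (1 : ℂ) + v + Complex.I * t = ((1 + v : ℝ) : ℂ) + t * Complex.I := by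
    push_cast
    ring
  have e2 : (1 : ℂ) + v + 2 * Complex.I * t = ((1 + v : ℝ) : ℂ) + 2 * t * Complex.I := by
    push_cast
    ring
  rw [e1, e2, norm_mul, norm_mul, norm_pow, norm_pow, ← Glo_DS0 χ, ← Glo_DS0 (χ ^ 2)] at h1
  have h2 := hW (1 + v) (by linarith) (by linarith)
  have h3 : ‖LSeries (fun n => (1 : DirichletCharacter ℂ q) (n : ZMod q)) (1 + v)‖ ≤ 2 / v := by
    have h4 := Glo_triv (fun n => (1 : DirichletCharacter ℂ q) (n : ZMod q))
      (fun n => DirichletCharacter.norm_le_one _ _) (1 + v) (by simp [hv])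
    have h5 : ((1 : ℂ) + v).re - 1 = v := by simp
    rw [h5] at h4
    refine h4.trans ?_
    rw [le_div_iff₀ hv]
    have : (1 + 1 / v) * v = v + 1 := by field_simp
    rw [this]
    linarith
  set A := ‖DS (chf χ) 0 ((1 + v : ℝ) + t * Complex.I)‖ with hA
  set B := ‖LSeries (fun n => (1 : DirichletCharacter ℂ q) (n : ZMod q)) (1 + v)‖ with hB
  have h6 : 0 ≤ W := (norm_nonneg _).trans h2
  have h7 : B ^ 3 * A ^ 4 * ‖DS (chf (χ ^ 2)) 0 ((1 + v : ℝ) + 2 * t * Complex.I)‖ ≤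
      (2 / v) ^ 3 * A ^ 4 * W := by
    refine mul_le_mul ?_ h2 (norm_nonneg _) (by positivity)
    exact mul_le_mul_of_nonneg_right (pow_le_pow_left₀ (norm_nonneg _) h3 3) (by positivity)
  have h8 : 1 ≤ (2 / v) ^ 3 * A ^ 4 * W := le_trans h1 h7
  have h9 : v ^ 3 * 1 ≤ v ^ 3 * ((2 / v) ^ 3 * A ^ 4 * W) :=
    mul_le_mul_of_nonneg_left h8 (by positivity)
  have h10 : v ^ 3 * ((2 / v) ^ 3 * A ^ 4 * W) = 8 * A ^ 4 * W := by
    field_simp
    ring
  rw [h10, mul_one] at h9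
  exact h9

lemma Glo_lip (q : ℕ) (χ : DirichletCharacter ℂ q) (t V : ℝ)
    (hV : ∀ σ : ℝ, 1 < σ → σ ≤ 2 → ‖DS (chf χ) 1 (σ + t * Complex.I)‖ ≤ V)
    (σ τ : ℝ) (h1 : 1 < σ) (h2 : σ ≤ 2) (h3 : 1 < τ) (h4 : τ ≤ 2) :
    ‖DS (chf χ) 0 (τ + t * Complex.I) - DS (chf χ) 0 (σ + t * Complex.I)‖ ≤ V * |τ - σ| := by
  have hd : ∀ x ∈ Set.Ioc (1 : ℝ) 2,
      HasDerivWithinAt (fun y : ℝ => DS (chf χ) 0 (y + t * Complex.I))
        (-DS (chf χ) 1 (x + t * Complex.I)) (Set.Ioc (1 : ℝ) 2) x := by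
    intro x hx
    have hab : LSeries.abscissaOfAbsConv (fun n => χ (n : ZMod q)) <
        ((((x : ℝ) : ℂ) + t * Complex.I).re : EReal) := by
      refine lt_of_le_of_lt
        (LSeries.abscissaOfAbsConv_le_of_le_const (f := fun n => χ (n : ZMod q))
          ⟨1, fun n _ => DirichletCharacter.norm_le_one _ _⟩) ?_
      simp only [Complex.add_re, Complex.ofReal_re, Complex.mul_re, Complex.I_re, mul_zero,
        Complex.ofReal_im, Complex.I_im, mul_one, sub_self, add_zero]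
      exact_mod_cast hx.1
    have h5 := LSeries_hasDerivAt hab
    have h6 : HasDerivAt (fun z : ℂ => LSeries (fun n => χ (n : ZMod q)) (z + t * Complex.I))
        (-LSeries (LSeries.logMul (fun n => χ (n : ZMod q))) (((x : ℝ) : ℂ) + t * Complex.I))
        ((x : ℝ) : ℂ) := by
      have h7 := HasDerivAt.comp_add_const ((x : ℝ) : ℂ) (t * Complex.I) h5
      exact h7
    have h8 := h6.comp_ofReal
    rw [← Glo_DS1] at h8
    have h9 : (fun y : ℝ => DS (chf χ) 0 (y + t * Complex.I)) =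
        fun y : ℝ => LSeries (fun n => χ (n : ZMod q)) (y + t * Complex.I) :=
      funext fun y => Glo_DS0 χ _
    rw [h9]
    exact h8.hasDerivWithinAt
  have h5 := Convex.norm_image_sub_le_of_norm_hasDerivWithin_le (C := V) hd
    (fun x hx => by rw [norm_neg]; exact hV x hx.1 hx.2) (convex_Ioc 1 2)
    (x := σ) (y := τ) ⟨h1, h2⟩ ⟨h3, h4⟩
  rw [Real.norm_eq_abs] at h5
  exact h5

theorem tGlo : GloStmt := by
  intro q χ t V W hq hV1 hW1 hV hW σ hσ1 hσ2
  have hV0 : 0 < V := by linarith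
  have hW0 : 0 < W := by linarith
  set u : ℝ := 1 / (128 * V ^ 4 * W) with hu
  have hden : 1 ≤ 128 * V ^ 4 * W := by
    have h1 : 1 ≤ V ^ 4 := one_le_pow₀ hV1
    have h2 : 1 * 1 ≤ V ^ 4 * W := mul_le_mul h1 hW1 (by norm_num) (by positivity)
    linarith
  have hu0 : 0 < u := by positivity
  have hu1 : u ≤ 1 := by
    rw [hu, div_le_one (by positivity)]
    exact hden
  have huV : 128 * V ^ 4 * W * u = 1 := by
    rw [hu]
    field_simp
  -- lower bound at 1 + v for v ≥ u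
  have key : ∀ v : ℝ, u ≤ v → v ≤ 1 →
      2 * u * V ≤ ‖DS (chf χ) 0 ((1 + v : ℝ) + t * Complex.I)‖ := by
    intro v hv hv1
    have h1 := Glo_prod q χ t W hq hW v (hu0.trans_le hv) hv1
    have h2 : u ^ 3 ≤ v ^ 3 := pow_le_pow_left₀ hu0.le hv 3
    have h3 : 8 * (2 * u * V) ^ 4 * W = u ^ 3 := by
      calc 8 * (2 * u * V) ^ 4 * W = u ^ 3 * (128 * V ^ 4 * W * u) := by ring
        _ = u ^ 3 := by rw [huV, mul_one]
    have h4 : 8 * (2 * u * V) ^ 4 * W ≤
        8 * ‖DS (chf χ) 0 ((1 + v : ℝ) + t * Complex.I)‖ ^ 4 * W := by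
      rw [h3]
      exact h2.trans h1
    have h5 : (2 * u * V) ^ 4 ≤ ‖DS (chf χ) 0 ((1 + v : ℝ) + t * Complex.I)‖ ^ 4 := by
      have h6 := le_of_mul_le_mul_right h4 hW0
      linarith
    exact le_of_pow_le_pow_left₀ (by norm_num) (norm_nonneg _) h5
  have h128 : 128 * (u * V) * V ^ 3 * W = 1 := by
    calc 128 * (u * V) * V ^ 3 * W = 128 * V ^ 4 * W * u := by ring
      _ = 1 := huV
  have hfin : u * V ≤ ‖DS (chf χ) 0 (σ + t * Complex.I)‖ := by
    rcases le_or_gt (1 + u) σ with h | h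
    · have h1 := key (σ - 1) (by linarith) (by linarith)
      rw [show (1 + (σ - 1) : ℝ) = σ by ring] at h1
      have : 0 ≤ u * V := by positivity
      linarith
    · have h1 := key u le_rfl hu1
      have h2 := Glo_lip q χ t V hV σ (1 + u) hσ1 hσ2 (by linarith) (by linarith)
      have h3 : |1 + u - σ| ≤ u := by
        rw [abs_of_pos (by linarith)]
        linarith
      have h4 : ‖DS (chf χ) 0 ((1 + u : ℝ) + t * Complex.I)‖ -
          ‖DS (chf χ) 0 (σ + t * Complex.I)‖ ≤ V * u :=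
        (norm_sub_norm_le _ _).trans (h2.trans (mul_le_mul_of_nonneg_left h3 hV0.le))
      linarith
  calc (1 : ℝ) = 128 * (u * V) * V ^ 3 * W := h128.symm
    _ ≤ 128 * ‖DS (chf χ) 0 (σ + t * Complex.I)‖ * V ^ 3 * W := by
        refine mul_le_mul_of_nonneg_right ?_ hW0.le
        refine mul_le_mul_of_nonneg_right ?_ (by positivity)
        exact mul_le_mul_of_nonneg_left hfin (by norm_num)

end Pool.Agent.Lib.BV
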