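import Pool.Agent.Lib.BV.SpecC

/-!
MP_00e23e_nt, module Gri: the local logarithmic grid.
-/

namespace Pool.Agent.Lib.BV

open Finset Pool.Agent.Lib.EH3

private lemma Gri_main (η y P Q p m : ℝ) (hη : 0 < η) (hP : 0 < P) (hQ : 0 < Q) (hp : P < p)
    (hm : Q < m) (hy : Q * P ≤ y) :
    (p * m ≤ y → ⌊Real.log (p / P) / η⌋₊ + ⌊Real.log (m / Q) / η⌋₊ ≤
        ⌊Real.log (y / (Q * P)) / η⌋₊) ∧
      (⌊Real.log (p / P) / η⌋₊ + ⌊Real.log (m / Q) / η⌋₊ ≤
        ⌊Real.log (y / (Q * P)) / η⌋₊ → p * m ≤ y * Real.exp (2 * η)) := by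
  have hp0 : 0 < p := hP.trans hp
  have hm0 : 0 < m := hQ.trans hm
  have hQP : 0 < Q * P := mul_pos hQ hP
  have hy0 : 0 < y := lt_of_lt_of_le hQP hy
  have hu : 0 ≤ Real.log (p / P) := Real.log_nonneg ((one_le_div hP).2 hp.le)
  have hv : 0 ≤ Real.log (m / Q) := Real.log_nonneg ((one_le_div hQ).2 hm.le)
  have hw : 0 ≤ Real.log (y / (Q * P)) := Real.log_nonneg ((one_le_div hQP).2 hy)
  have huv : Real.log (p / P) + Real.log (m / Q) = Real.log (p * m / (Q * P)) := by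
    rw [← Real.log_mul (div_pos hp0 hP).ne' (div_pos hm0 hQ).ne', div_mul_div_comm, mul_comm P Q]
  constructor
  · intro h
    refine Nat.le_floor ?_
    rw [Nat.cast_add]
    have h1 := Nat.floor_le (div_nonneg hu hη.le)
    have h2 := Nat.floor_le (div_nonneg hv hη.le)
    have h3 : Real.log (p * m / (Q * P)) ≤ Real.log (y / (Q * P)) :=
      Real.log_le_log (div_pos (mul_pos hp0 hm0) hQP) (div_le_div_of_nonneg_right h hQP.le)
    calc ((⌊Real.log (p / P) / η⌋₊ : ℕ) : ℝ) + ((⌊Real.log (m / Q) / η⌋₊ : ℕ) : ℝ)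
        ≤ Real.log (p / P) / η + Real.log (m / Q) / η := add_le_add h1 h2
      _ = Real.log (p * m / (Q * P)) / η := by rw [← add_div, huv]
      _ ≤ Real.log (y / (Q * P)) / η := div_le_div_of_nonneg_right h3 hη.le
  · intro h
    have h1 := Nat.lt_floor_add_one (Real.log (p / P) / η)
    have h2 := Nat.lt_floor_add_one (Real.log (m / Q) / η)
    have h3 := Nat.floor_le (div_nonneg hw hη.le)
    have h4 : ((⌊Real.log (p / P) / η⌋₊ : ℕ) : ℝ) + ((⌊Real.log (m / Q) / η⌋₊ : ℕ) : ℝ) ≤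
        ((⌊Real.log (y / (Q * P)) / η⌋₊ : ℕ) : ℝ) := by
      exact_mod_cast h
    have h5 : Real.log (p * m / (Q * P)) / η ≤ Real.log (y / (Q * P)) / η + 2 := by
      rw [← huv, add_div]
      linarith
    have h6 : Real.log (p * m / (Q * P)) ≤ Real.log (y / (Q * P)) + 2 * η := by
      have h7 := mul_le_mul_of_nonneg_right h5 hη.le
      rw [add_mul, div_mul_cancel₀ _ hη.ne', div_mul_cancel₀ _ hη.ne'] at h7
      exact h7
    have h8 := Real.exp_le_exp.2 h6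
    rw [Real.exp_add, Real.exp_log (div_pos (mul_pos hp0 hm0) hQP),
      Real.exp_log (div_pos hy0 hQP), div_mul_eq_mul_div] at h8
    exact (div_le_div_iff_of_pos_right hQP).1 h8

private lemma Gri_two (η P p : ℝ) (hη : 0 < η) (hP : 0 < P) (hp : P < p) (hp2 : p ≤ 2 * P) :
    ⌊Real.log (p / P) / η⌋₊ ≤ ⌊Real.log 2 / η⌋₊ := by
  refine Nat.floor_le_floor ?_
  refine div_le_div_of_nonneg_right ?_ hη.le
  exact Real.log_le_log (div_pos (hP.trans hp) hP) ((div_le_iff₀ hP).2 hp2)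

theorem tGri : GriStmt := by
  intro η y P j p m hη hP hp hp2 hm hm2
  have hP' : (0 : ℝ) < P := by exact_mod_cast hP
  have hp' : (P : ℝ) < p := by exact_mod_cast hp
  have hp2' : (p : ℝ) ≤ 2 * P := by exact_mod_cast hp2
  have hm' : ((2 ^ j * P : ℕ) : ℝ) < m := by exact_mod_cast hm
  have hm2' : (m : ℝ) ≤ 2 * ((2 ^ j * P : ℕ) : ℝ) := by
    have h : m ≤ 2 * (2 ^ j * P) := by
      rw [← mul_assoc, ← pow_succ']
      exact hm2
    exact_mod_cast h
  have hQ : (0 : ℝ) < ((2 ^ j * P : ℕ) : ℝ) := by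
    have h : 0 < 2 ^ j * P := Nat.mul_pos (by positivity) hP
    exact_mod_cast h
  have hQP : ((2 ^ j * P : ℕ) : ℝ) * (P : ℝ) = (2 : ℝ) ^ j * (P : ℝ) ^ 2 := by
    push_cast
    ring
  refine ⟨fun h => ?_, fun h => ?_, Gri_two η P p hη hP' hp' hp2', Gri_two η _ m hη hQ hm' hm2'⟩
  · have hy : ((2 ^ j * P : ℕ) : ℝ) * (P : ℝ) ≤ y := by
      refine le_trans ?_ h
      rw [mul_comm]
      exact mul_le_mul hp'.le hm'.le hQ.le (hP'.le.trans hp'.le)
    have h1 := (Gri_main η y P _ p m hη hP' hQ hp' hm' hy).1 h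
    rw [cut, if_pos (by rw [← hQP]; exact hy), ← hQP]
    exact Nat.lt_succ_of_le h1
  · by_cases hc : (2 : ℝ) ^ j * (P : ℝ) ^ 2 ≤ y
    · rw [cut, if_pos hc, ← hQP] at h
      rw [← hQP] at hc
      exact (Gri_main η y P _ p m hη hP' hQ hp' hm' hc).2 (Nat.le_of_lt_succ h)
    · rw [cut, if_neg hc] at h
      exact absurd h (Nat.not_lt_zero _)

end Pool.Agent.Lib.BV
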