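import Pool.Agent.Lib.BV.SpecD

namespace Pool.Agent.Lib.BV

open Finset Pool.Agent.Lib.EH3

private lemma Gys_exp (η y : ℝ) (h0 : 0 < η) (h1 : η ≤ 1 / 2) (hy : 2 ≤ y) :
    y * Real.exp (2 * η) - y ≤ 4 * η * y := by
  have habs : |2 * η| ≤ 1 := by rw [abs_of_pos (by linarith)]; linarith
  have h := Real.abs_exp_sub_one_le habs
  rw [abs_of_pos (by linarith : (0 : ℝ) < 2 * η)] at h
  have h' := (abs_le.mp h).2
  nlinarith

private lemma Gys_count (z d l : ℕ) (hd : 1 ≤ d) :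
    (((Icc 1 z).filter (fun n => n ≡ l [MOD d])).card : ℝ) ≤ (z : ℝ) / d + 1 := by
  have hI : Icc 1 z = Ioc 0 z := by ext n; simp [Nat.succ_le_iff, Nat.pos_iff_ne_zero]
  rw [hI]
  have h := Nat.Ioc_filter_modEq_card 0 z (r := d) (by omega) l
  have hd' : (0 : ℝ) < d := by exact_mod_cast hd
  have h2 : (((((Ioc 0 z).filter (fun n => n ≡ l [MOD d])).card : ℤ)) : ℝ) ≤ (z : ℝ) / d + 1 := by
    rw [h]
    have hf1 : ((⌊(((z : ℕ) : ℚ) - l) / d⌋ : ℤ) : ℚ) ≤ (((z : ℕ) : ℚ) - l) / d := Int.floor_le _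
    have hf2 : (((0 : ℕ) : ℚ) - l) / d < (⌊(((0 : ℕ) : ℚ) - l) / d⌋ : ℤ) + 1 := Int.lt_floor_add_one _
    have hkey : (((⌊(((z : ℕ) : ℚ) - l) / d⌋ - ⌊(((0 : ℕ) : ℚ) - l) / d⌋ : ℤ)) : ℚ) ≤ (z : ℚ) / d + 1 := by
      push_cast
      have e1 : (((z : ℕ) : ℚ) - l) / d - (((0 : ℕ) : ℚ) - l) / d = (z : ℚ) / d := by
        rw [← sub_div]; congr 1; push_cast; ring
      push_cast at hf1 hf2 e1 ⊢
      linarith
    have hkey' : (((⌊(((z : ℕ) : ℚ) - l) / d⌋ - ⌊(((0 : ℕ) : ℚ) - l) / d⌋ : ℤ)) : ℝ) ≤ (z : ℝ) / d + 1 := by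
      have h3 := (Rat.cast_le (K := ℝ)).mpr hkey
      rw [Rat.cast_intCast] at h3
      refine h3.trans (le_of_eq ?_)
      push_cast
      rfl
    have hpos : (0 : ℝ) ≤ (z : ℝ) / d + 1 := by positivity
    rw [Int.cast_max]
    apply max_le
    · exact hkey'
    · simpa using hpos
  exact_mod_cast h2

theorem tGys (h1 : GyyStmt) (h2 : SqrStmt) (h3 : UbStmt) : GysStmt := by
  classical
  obtain ⟨C, hC, hU⟩ := h3
  refine ⟨C, hC, ?_⟩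
  intro η y z K J d l N hη hη2 hz hy hyJ hyK hd hl
  have hz1 : 1 ≤ z := by omega
  have hzR : (2 : ℝ) ≤ z := by exact_mod_cast hz
  have hlog : 0 < Real.log z := Real.log_pos (by linarith)
  have hφ : (0 : ℝ) < d.totient := by exact_mod_cast Nat.totient_pos.mpr (by omega)
  have hdR : (0 : ℝ) < d := by exact_mod_cast hd
  set S := (Icc 1 N).filter (fun n => n ≡ l [MOD d]) with hS
  have hsum : ∑ n ∈ S, |GY η z K J y n| ≤
      ∑ n ∈ S, (if n ≤ z then (1 : ℝ) else 0) +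
      ∑ n ∈ S, (if (n : ℝ) ≤ y ∧ ∃ p : ℕ, p.Prime ∧ z < p ∧ p ^ 2 ∣ n then (1 : ℝ) else 0) +
      ∑ n ∈ S, (if y < (n : ℝ) ∧ (n : ℝ) ≤ y * Real.exp (2 * η) then rr z n else 0) := by
    rw [← Finset.sum_add_distrib, ← Finset.sum_add_distrib]
    apply Finset.sum_le_sum
    intro n hn
    rw [hS, Finset.mem_filter, Finset.mem_Icc] at hn
    have := h1 η y z K J n hη hz1 hn.1.1 hyJ hyK
    unfold GY
    refine this.trans (le_of_eq ?_)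
    congr
  have hA : ∑ n ∈ S, (if n ≤ z then (1 : ℝ) else 0) ≤ (z : ℝ) / d + 1 := by
    rw [Finset.sum_boole]
    refine le_trans ?_ (Gys_count z d l hd)
    exact_mod_cast Finset.card_le_card (fun n hn => by
      rw [Finset.mem_filter, hS, Finset.mem_filter, Finset.mem_Icc] at hn
      rw [Finset.mem_filter, Finset.mem_Icc]
      exact ⟨⟨hn.1.1.1, hn.2⟩, hn.1.2⟩)
  have hy0 : (0 : ℝ) ≤ y := by linarith
  have hfl : ((⌊y⌋₊ : ℕ) : ℝ) ≤ y := Nat.floor_le hy0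
  have hB : ∑ n ∈ S, (if (n : ℝ) ≤ y ∧ ∃ p : ℕ, p.Prime ∧ z < p ∧ p ^ 2 ∣ n then (1 : ℝ) else 0) ≤
      y / (z * d) + Real.sqrt y := by
    rw [Finset.sum_boole]
    have hsq := h2 ⌊y⌋₊ z d l hz1 hd hl
    have hb : ((⌊y⌋₊ : ℕ) : ℝ) / (z * d) + Real.sqrt ((⌊y⌋₊ : ℕ) : ℝ) ≤ y / (z * d) + Real.sqrt y := by
      gcongr
    refine le_trans ?_ (hsq.trans hb)
    exact_mod_cast Finset.card_le_card (fun n hn => by
      rw [Finset.mem_filter, hS, Finset.mem_filter, Finset.mem_Icc] at hn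
      rw [Finset.mem_filter, Finset.mem_Icc]
      exact ⟨⟨hn.1.1.1, Nat.le_floor hn.2.1⟩, hn.1.2, hn.2.2⟩)
  have hrr : ∀ n, 0 ≤ rr z n := by
    intro n; unfold rr; split_ifs <;> norm_num
  have hye : y ≤ y * Real.exp (2 * η) := by
    have : 1 ≤ Real.exp (2 * η) := Real.one_le_exp (by linarith)
    nlinarith
  have hC3 : ∑ n ∈ S, (if y < (n : ℝ) ∧ (n : ℝ) ≤ y * Real.exp (2 * η) then rr z n else 0) ≤
      C * ((4 * η * y + 1) / ((d.totient : ℝ) * Real.log z)) + (z : ℝ) ^ 16 := by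
    rw [← Finset.sum_filter]
    have hsub : S.filter (fun n : ℕ => y < (n : ℝ) ∧ (n : ℝ) ≤ y * Real.exp (2 * η)) ⊆
        (Ioc ⌊y⌋₊ ⌊y * Real.exp (2 * η)⌋₊).filter (fun n => n ≡ l [MOD d]) := by
      intro n hn
      rw [Finset.mem_filter, hS, Finset.mem_filter, Finset.mem_Icc] at hn
      rw [Finset.mem_filter, Finset.mem_Ioc]
      exact ⟨⟨(Nat.floor_lt hy0).mpr hn.2.1, Nat.le_floor hn.2.2⟩, hn.1.2⟩
    refine (Finset.sum_le_sum_of_subset_of_nonneg hsub (fun n _ _ => hrr n)).trans ?_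
    refine (hU z d l ⌊y⌋₊ ⌊y * Real.exp (2 * η)⌋₊ hz hd hl (Nat.floor_mono hye)).trans ?_
    have h5 : ((⌊y * Real.exp (2 * η)⌋₊ : ℕ) : ℝ) ≤ y * Real.exp (2 * η) :=
      Nat.floor_le (by linarith)
    have h6 : y < ((⌊y⌋₊ : ℕ) : ℝ) + 1 := Nat.lt_floor_add_one y
    have h7 := Gys_exp η y hη hη2 hy
    have h8 : ((⌊y * Real.exp (2 * η)⌋₊ : ℕ) : ℝ) - ((⌊y⌋₊ : ℕ) : ℝ) ≤ 4 * η * y + 1 := by linarith
    gcongr
  linarith

end Pool.Agent.Lib.BV
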