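import Pool.Agent.Lib.BV.SpecC

/-!
MP_00e23e_nt, Lib/BV, module Gyy: the error function of the decomposition.
-/

namespace Pool.Agent.Lib.BV

open Finset Pool.Agent.Lib.EH3

private theorem Gyy_rr (z n : ℕ) : 0 ≤ rr z n := by
  unfold rr
  split_ifs <;> norm_num

open Classical in
theorem tGyy (h1 : DewStmt) (h2 : FyyStmt) : GyyStmt := by
  intro η y z K J n hη hz hn hyJ hyK
  obtain ⟨hF0, hF1, hF2, hF3⟩ := h2 η y z K J n hη hz hn hyJ
  by_cases hny : (n : ℝ) ≤ y
  · have hnK : n ≤ (z * 2 ^ K) ^ 2 := by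
      have h0 : (n : ℝ) ≤ ((z : ℝ) * 2 ^ K) ^ 2 := le_trans hny hyK
      exact_mod_cast h0
    have hd := h1 z K n hz hn hnK
    have hP : PY y n = if n.Prime then (1 : ℝ) else 0 := by
      unfold PY
      by_cases hp : n.Prime
      · rw [if_pos ⟨hp, hny⟩, if_pos hp]
      · rw [if_neg (fun h => hp h.1), if_neg hp]
    have hR : RY z y n = rr z n := by
      unfold RY
      rw [if_pos hny]
    rw [hP, hR, hF2 hny]
    have h3 : ¬ (y < (n : ℝ) ∧ (n : ℝ) ≤ y * Real.exp (2 * η)) :=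
      fun h => absurd hny (not_le.mpr h.1)
    rw [if_neg h3, add_zero]
    refine le_trans hd ?_
    apply add_le_add le_rfl
    by_cases hsq : ∃ p : ℕ, p.Prime ∧ z < p ∧ p ^ 2 ∣ n
    · rw [if_pos hsq, if_pos ⟨hny, hsq⟩]
    · rw [if_neg hsq, if_neg (fun h => hsq h.2)]
  · have hP : PY y n = 0 := by
      unfold PY
      rw [if_neg (fun h => hny h.2)]
    have hR : RY z y n = 0 := by
      unfold RY
      rw [if_neg hny]
    rw [hP, hR, sub_zero, zero_add, abs_of_nonneg hF0]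
    have h4 : (0 : ℝ) ≤ (if n ≤ z then (1 : ℝ) else 0) := by
      split_ifs <;> norm_num
    have h5 : (0 : ℝ) ≤
        (if (n : ℝ) ≤ y ∧ ∃ p : ℕ, p.Prime ∧ z < p ∧ p ^ 2 ∣ n then (1 : ℝ) else 0) := by
      split_ifs <;> norm_num
    by_cases hF : FY η z K J y n = 0
    · rw [hF]
      have h6 : (0 : ℝ) ≤
          (if y < (n : ℝ) ∧ (n : ℝ) ≤ y * Real.exp (2 * η) then rr z n else 0) := by
        split_ifs
        · exact Gyy_rr z n
        · exact le_rfl
      linarith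
    · have h6 := hF3 hF
      rw [if_pos (show y < (n : ℝ) ∧ (n : ℝ) ≤ y * Real.exp (2 * η) from ⟨not_le.mp hny, h6⟩)]
      linarith

end Pool.Agent.Lib.BV
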