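import Pool.Agent.Lib.BV.SpecF

/-!
MP_00e23e_nt, Lib/BV, module Hly: the inequality of Hooley for products.
-/

namespace Pool.Agent.Lib.BV

open Finset Pool.Agent.Lib.EH3

private theorem Hly_erase_lt {J i : ℕ} (hi : i ∈ range J) (y : ℕ → ℝ) :
    ∏ j ∈ (range (J + 1)).erase i, y j = (∏ j ∈ (range J).erase i, y j) * y J := by
  have hne : J ≠ i := by
    intro h
    rw [← h] at hi
    simp at hi
  rw [Finset.range_add_one, Finset.erase_insert_of_ne hne, Finset.prod_insert, mul_comm]
  intro h
  have := Finset.mem_of_mem_erase h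
  simp at this

private theorem Hly_erase_self (J : ℕ) (y : ℕ → ℝ) :
    ∏ j ∈ (range (J + 1)).erase J, y j = ∏ j ∈ range J, y j := by
  rw [Finset.range_add_one, Finset.erase_insert (by simp)]

private theorem Hly_sum (J : ℕ) (y w : ℕ → ℝ) :
    ∑ i ∈ range (J + 1), w i * ∏ j ∈ (range (J + 1)).erase i, y j =
      (∑ i ∈ range J, w i * ∏ j ∈ (range J).erase i, y j) * y J +
        w J * ∏ j ∈ range J, y j := by
  rw [Finset.sum_range_succ, Hly_erase_self, Finset.sum_mul]
  congr 1
  apply Finset.sum_congr rfl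
  intro i hi
  rw [Hly_erase_lt hi, mul_assoc]

theorem tHly : HlyStmt := by
  intro J x y w h
  refine ⟨Finset.prod_le_prod (fun j hj => (h j hj).1) (fun j hj => (h j hj).2.1), ?_⟩
  induction J with
  | zero => simp
  | succ J ih =>
    have h' : ∀ j ∈ range J, 0 ≤ x j ∧ x j ≤ y j ∧ y j ≤ x j + w j := fun j hj =>
      h j (Finset.mem_range.mpr (lt_trans (Finset.mem_range.mp hj) (Nat.lt_succ_self J)))
    have ih' := ih h'
    obtain ⟨hx, hxy, hyw⟩ := h J (Finset.self_mem_range_succ J)
    have hX : 0 ≤ ∏ j ∈ range J, x j := Finset.prod_nonneg (fun j hj => (h' j hj).1)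
    have hY : 0 ≤ ∏ j ∈ range J, y j :=
      Finset.prod_nonneg (fun j hj => le_trans (h' j hj).1 (h' j hj).2.1)
    have hE : 0 ≤ ∑ i ∈ range J, w i * ∏ j ∈ (range J).erase i, y j := by
      apply Finset.sum_nonneg
      intro i hi
      apply mul_nonneg
      · have h1 := h' i hi
        linarith [h1.2.1, h1.2.2]
      · apply Finset.prod_nonneg
        intro j hj
        have h1 := h' j (Finset.mem_of_mem_erase hj)
        exact le_trans h1.1 h1.2.1
    rw [Hly_sum, Finset.prod_range_succ, Finset.prod_range_succ]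
    have h1 : (∏ j ∈ range J, y j) * y J ≤
        (∏ j ∈ range J, y j) * x J + (∏ j ∈ range J, y j) * w J := by
      rw [← mul_add]
      exact mul_le_mul_of_nonneg_left hyw hY
    have h2 : (∏ j ∈ range J, y j) * x J ≤
        (∏ j ∈ range J, x j) * x J +
          (∑ i ∈ range J, w i * ∏ j ∈ (range J).erase i, y j) * x J := by
      rw [← add_mul]
      exact mul_le_mul_of_nonneg_right ih' hx
    have h3 : (∑ i ∈ range J, w i * ∏ j ∈ (range J).erase i, y j) * x J ≤
        (∑ i ∈ range J, w i * ∏ j ∈ (range J).erase i, y j) * y J :=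
      mul_le_mul_of_nonneg_left hxy hE
    have h4 : w J * ∏ j ∈ range J, y j = (∏ j ∈ range J, y j) * w J := mul_comm _ _
    linarith

end Pool.Agent.Lib.BV
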