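import Pool.Agent.Lib.BV.SpecH

/-!
MP_00e23e_nt, BV, module Idr: recursion for the derivatives of the logarithmic derivative.
-/

namespace Pool.Agent.Lib.BV

open Finset

lemma Idr_iter (f : ℕ → ℂ) (k : ℕ) :
    LSeries.logMul^[k] f = fun n => f n * ((Real.log n : ℝ) : ℂ) ^ k := by
  induction k with
  | zero =>
    funext n
    simp
  | succ k ih =>
    rw [Function.iterate_succ_apply', ih]
    funext n
    show Complex.log n * (f n * ((Real.log n : ℝ) : ℂ) ^ k) = _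
    rw [← Complex.natCast_log, pow_succ]
    ring

lemma Idr_summ {f : ℕ → ℂ} (hf : ∀ s : ℂ, 1 < s.re → LSeriesSummable f s) (k : ℕ) {s : ℂ}
    (hs : 1 < s.re) : LSeriesSummable (fun n => f n * ((Real.log n : ℝ) : ℂ) ^ k) s := by
  have h1 : LSeries.abscissaOfAbsConv f ≤ ((1 : ℝ) : EReal) :=
    LSeries.abscissaOfAbsConv_le_of_forall_lt_LSeriesSummable fun y hy =>
      hf y (by rw [Complex.ofReal_re]; exact hy)
  rw [← Idr_iter]
  refine LSeriesSummable_of_abscissaOfAbsConv_lt_re ?_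
  rw [LSeries.absicssaOfAbsConv_logPowMul]
  exact h1.trans_lt (by exact_mod_cast hs)

lemma Idr_sum1 {q : ℕ} (χ : DirichletCharacter ℂ q) (i : ℕ) {s : ℂ} (hs : 1 < s.re) :
    LSeriesSummable (fun n => ((ArithmeticFunction.vonMangoldt n : ℝ) : ℂ) * chf χ n *
      ((Real.log n : ℝ) : ℂ) ^ i) s := by
  refine Idr_summ (f := fun n => ((ArithmeticFunction.vonMangoldt n : ℝ) : ℂ) * chf χ n)
    (fun s hs => ?_) i hs
  have h1 := DirichletCharacter.LSeriesSummable_twist_vonMangoldt χ hs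
  have h2 : (fun n : ℕ => ((ArithmeticFunction.vonMangoldt n : ℝ) : ℂ) * chf χ n) =
      (fun n : ℕ => (χ (n : ZMod q) : ℂ)) * (fun n : ℕ => ((ArithmeticFunction.vonMangoldt n : ℝ) : ℂ)) := by
    funext n
    exact mul_comm _ _
  rw [h2]
  exact h1

lemma Idr_sum2 {q : ℕ} (χ : DirichletCharacter ℂ q) (i : ℕ) {s : ℂ} (hs : 1 < s.re) :
    LSeriesSummable (fun n => chf χ n * ((Real.log n : ℝ) : ℂ) ^ i) s :=
  Idr_summ (f := chf χ) (fun _ hs => DirichletCharacter.LSeriesSummable_of_one_lt_re χ hs) i hs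

lemma Idr_pt {q : ℕ} (χ : DirichletCharacter ℂ q) (j n : ℕ) (hn : n ≠ 0) :
    chf χ n * ((Real.log n : ℝ) : ℂ) ^ (j + 1) = ∑ i ∈ range (j + 1), (j.choose i : ℂ) *
      ∑ p ∈ n.divisorsAntidiagonal, (((ArithmeticFunction.vonMangoldt p.1 : ℝ) : ℂ) * chf χ p.1 *
        ((Real.log p.1 : ℝ) : ℂ) ^ i) * (chf χ p.2 * ((Real.log p.2 : ℝ) : ℂ) ^ (j - i)) := by
  simp only [Finset.mul_sum]
  rw [Finset.sum_comm]
  have h1 : ∀ p ∈ n.divisorsAntidiagonal, ∑ i ∈ range (j + 1), (j.choose i : ℂ) *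
      ((((ArithmeticFunction.vonMangoldt p.1 : ℝ) : ℂ) * chf χ p.1 *
        ((Real.log p.1 : ℝ) : ℂ) ^ i) * (chf χ p.2 * ((Real.log p.2 : ℝ) : ℂ) ^ (j - i))) =
      ((ArithmeticFunction.vonMangoldt p.1 : ℝ) : ℂ) *
        (chf χ n * ((Real.log n : ℝ) : ℂ) ^ j) := by
    intro p hp
    obtain ⟨h2, _⟩ := Nat.mem_divisorsAntidiagonal.1 hp
    have h3 : p.1 ≠ 0 := by
      intro h
      rw [h, zero_mul] at h2
      exact hn h2.symm
    have h4 : p.2 ≠ 0 := by
      intro h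
      rw [h, mul_zero] at h2
      exact hn h2.symm
    have h5 : chf χ n = chf χ p.1 * chf χ p.2 := by
      unfold chf
      rw [← h2, Nat.cast_mul, map_mul]
    have h6 : ((Real.log n : ℝ) : ℂ) = ((Real.log p.1 : ℝ) : ℂ) + ((Real.log p.2 : ℝ) : ℂ) := by
      rw [← h2, Nat.cast_mul, Real.log_mul (by exact_mod_cast h3) (by exact_mod_cast h4),
        Complex.ofReal_add]
    rw [h5, h6, add_pow, Finset.mul_sum, Finset.mul_sum]
    refine Finset.sum_congr rfl fun i _ => ?_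
    ring
  rw [Finset.sum_congr rfl h1, ← Finset.sum_mul,
    Nat.sum_divisorsAntidiagonal (fun a _ => ((ArithmeticFunction.vonMangoldt a : ℝ) : ℂ)),
    ← Complex.ofReal_sum, ArithmeticFunction.vonMangoldt_sum, pow_succ]
  ring

theorem tIdr : IdrStmt := by
  intro q χ j s _ hs
  have h1 : ∀ i, LS (chf χ) i s * DS (chf χ) (j - i) s = LSeries (LSeries.convolution
      (fun n => ((ArithmeticFunction.vonMangoldt n : ℝ) : ℂ) * chf χ n *
        ((Real.log n : ℝ) : ℂ) ^ i) (fun n => chf χ n * ((Real.log n : ℝ) : ℂ) ^ (j - i))) s := by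
    intro i
    rw [LSeries_convolution' (Idr_sum1 χ i hs) (Idr_sum2 χ (j - i) hs)]
    rfl
  have h2 : ∑ i ∈ range (j + 1), (j.choose i : ℂ) * (LS (chf χ) i s * DS (chf χ) (j - i) s) =
      LSeries (∑ i ∈ range (j + 1), (j.choose i : ℂ) • LSeries.convolution
      (fun n => ((ArithmeticFunction.vonMangoldt n : ℝ) : ℂ) * chf χ n *
        ((Real.log n : ℝ) : ℂ) ^ i) (fun n => chf χ n * ((Real.log n : ℝ) : ℂ) ^ (j - i))) s := by
    rw [LSeries_sum fun i _ =>
      ((Idr_sum1 χ i hs).convolution (Idr_sum2 χ (j - i) hs)).smul _]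
    refine Finset.sum_congr rfl fun i _ => ?_
    rw [h1, LSeries_smul]
  rw [h2]
  unfold DS
  refine LSeries_congr (fun {n} hn => ?_) s
  rw [Idr_pt χ j n hn, Finset.sum_apply]
  refine Finset.sum_congr rfl fun i _ => ?_
  rw [Pi.smul_apply, smul_eq_mul, LSeries.convolution_def]

end Pool.Agent.Lib.BV
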