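import Pool.Agent.Lib.BV.SpecA

/-!
MP_00e23e_nt, Lib/BV, module Inj: reduction of the characters mod d to primitive characters.
-/

namespace Pool.Agent.Lib.BV

open Finset Pool.Agent.Lib.EH3

/-- the character sum of a character and of its primitive character -/
private theorem Inj_cs (f : ℕ → ℂ) (N d : ℕ) (χ : DirichletCharacter ℂ d) :
    cs f N 1 χ = cs f N d χ.primitiveCharacter := by
  unfold cs
  rw [Finset.sum_filter, Finset.sum_filter]
  apply Finset.sum_congr rfl
  intro n _
  rw [if_pos (Nat.coprime_one_right n)]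
  by_cases h : n.Coprime d
  · rw [if_pos h]
    have h1 := χ.primitiveCharacter_apply_of_isCoprime (a := (n : ℤ))
      (Nat.isCoprime_iff_coprime.mpr h)
    rw [Int.cast_natCast, Int.cast_natCast] at h1
    rw [h1]
  · rw [if_neg h]
    have h1 : χ ((n : ℤ) : ZMod d) = 0 := by
      rw [χ.apply_eq_zero_iff]
      intro h2
      exact h (Nat.isCoprime_iff_coprime.mp h2)
    rw [Int.cast_natCast] at h1
    rw [h1, mul_zero]

open Classical in
/-- back from the primitive characters to the characters mod d -/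
private noncomputable def Inj_back (d : ℕ) (p : Σ q : ℕ, DirichletCharacter ℂ q) :
    DirichletCharacter ℂ d :=
  if h : p.1 ∣ d then DirichletCharacter.changeLevel h p.2 else 1

private theorem Inj_back_eq {d : ℕ} (χ : DirichletCharacter ℂ d) :
    Inj_back d ⟨χ.conductor, χ.primitiveCharacter⟩ = χ := by
  unfold Inj_back
  rw [dif_pos χ.conductor_dvd_level]
  exact χ.changeLevel_primitiveCharacter

theorem tInj : InjStmt := by
  classical
  intro c f N d l hd
  unfold del
  rw [norm_mul]
  have h1 : ‖(1 / (d.totient : ℂ))‖ = 1 / (d.totient : ℝ) := by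
    rw [norm_div, norm_one, Complex.norm_natCast]
  rw [h1]
  apply mul_le_mul_of_nonneg_left _ (by positivity)
  refine le_trans (norm_sum_le _ _) ?_
  have h2 : ∀ χ ∈ univ.filter (fun χ : DirichletCharacter ℂ d => c χ.conductor),
      ‖χ ((l : ZMod d)⁻¹) * cs f N 1 χ‖ ≤ ‖cs f N d χ.primitiveCharacter‖ := by
    intro χ _
    rw [norm_mul, Inj_cs]
    have h3 := χ.norm_le_one ((l : ZMod d)⁻¹)
    calc ‖χ ((l : ZMod d)⁻¹)‖ * ‖cs f N d χ.primitiveCharacter‖
        ≤ 1 * ‖cs f N d χ.primitiveCharacter‖ :=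
          mul_le_mul_of_nonneg_right h3 (norm_nonneg _)
      _ = _ := one_mul _
  refine le_trans (Finset.sum_le_sum h2) ?_
  have h4 : ∑ χ ∈ univ.filter (fun χ : DirichletCharacter ℂ d => c χ.conductor),
      ‖cs f N d χ.primitiveCharacter‖ =
      ∑ p ∈ (univ.filter (fun χ : DirichletCharacter ℂ d => c χ.conductor)).image
        (fun χ => (⟨χ.conductor, χ.primitiveCharacter⟩ : Σ q : ℕ, DirichletCharacter ℂ q)),
        ‖cs f N d p.2‖ := by
    rw [Finset.sum_image]
    intro χ _ ψ _ h
    have h5 := congrArg (Inj_back d) h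
    rw [Inj_back_eq, Inj_back_eq] at h5
    exact h5
  rw [h4, ← Finset.sum_sigma (d.divisors.filter c) (fun q => prim q)
    (fun p : Σ q : ℕ, DirichletCharacter ℂ q => ‖cs f N d p.2‖)]
  apply Finset.sum_le_sum_of_subset_of_nonneg
  · intro p hp
    obtain ⟨χ, hχ, rfl⟩ := Finset.mem_image.mp hp
    rw [Finset.mem_sigma]
    refine ⟨?_, ?_⟩
    · rw [Finset.mem_filter, Nat.mem_divisors]
      exact ⟨⟨χ.conductor_dvd_level, by omega⟩, (Finset.mem_filter.mp hχ).2⟩
    · unfold prim
      rw [Finset.mem_filter]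
      exact ⟨Finset.mem_univ _, χ.primitiveCharacter_isPrimitive⟩
  · intro p _ _
    exact norm_nonneg _

end Pool.Agent.Lib.BV
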