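import Pool.Agent.Lib.BV.SpecH

/-!
MP_00e23e_nt, module Ker (theorem tKer): the Perron kernel by Fourier inversion.
-/

namespace Pool.Agent.Lib.BV

open Finset MeasureTheory Filter Topology FourierTransform

private noncomputable def Ker_g (σ u : ℝ) : ℂ := ((max u 0 * Real.exp (-σ * u) : ℝ) : ℂ)

private lemma Ker_cont (σ : ℝ) : Continuous (Ker_g σ) := by
  unfold Ker_g
  fun_prop

private lemma Ker_real_int {σ : ℝ} (hσ : 0 < σ) :
    IntegrableOn (fun x : ℝ => x * Real.exp (-σ * x)) (Set.Ioi 0) := by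
  have h := integrableOn_rpow_mul_exp_neg_mul_rpow (p := 1) (s := 1) (b := σ) (by norm_num)
    (by norm_num) hσ
  simpa using h

private lemma Ker_g_int {σ : ℝ} (hσ : 0 < σ) : Integrable (Ker_g σ) := by
  have h1 : IntegrableOn (Ker_g σ) (Set.Ioi 0) := by
    have h : IntegrableOn (fun x : ℝ => ((x * Real.exp (-σ * x) : ℝ) : ℂ)) (Set.Ioi 0) :=
      Integrable.ofReal (Ker_real_int hσ)
    refine h.congr_fun ?_ measurableSet_Ioi
    intro x hx
    have hx' : (0 : ℝ) < x := hx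
    simp [Ker_g, max_eq_left hx'.le]
  have h2 : Function.support (Ker_g σ) ⊆ Set.Ioi 0 := by
    intro x hx
    by_contra hx'
    have : x ≤ 0 := not_lt.mp hx'
    apply hx
    simp [Ker_g, max_eq_right this]
  exact (integrableOn_iff_integrable_of_support_subset h2).mp h1

private lemma Ker_tendsto {z : ℂ} (hz : 0 < z.re) :
    Tendsto (fun v : ℝ => -(((v : ℂ) / z + 1 / z ^ 2) * Complex.exp (-(z * v)))) atTop (𝓝 0) := by
  have h0 : Tendsto (fun v : ℝ => v ^ (0 : ℝ) * Real.exp (-z.re * v)) atTop (𝓝 0) :=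
    tendsto_rpow_mul_exp_neg_mul_atTop_nhds_zero 0 z.re hz
  have h1 : Tendsto (fun v : ℝ => v ^ (1 : ℝ) * Real.exp (-z.re * v)) atTop (𝓝 0) :=
    tendsto_rpow_mul_exp_neg_mul_atTop_nhds_zero 1 z.re hz
  have h2 : Tendsto (fun v : ℝ => (1 / ‖z‖) * (v ^ (1 : ℝ) * Real.exp (-z.re * v)) +
      (1 / ‖z‖ ^ 2) * (v ^ (0 : ℝ) * Real.exp (-z.re * v))) atTop (𝓝 0) := by
    have h5 := (h1.const_mul (1 / ‖z‖)).add (h0.const_mul (1 / ‖z‖ ^ 2))
    rwa [mul_zero, mul_zero, add_zero] at h5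
  refine squeeze_zero_norm' ?_ h2
  filter_upwards [eventually_gt_atTop (0 : ℝ)] with v hv
  rw [norm_neg, norm_mul, Complex.norm_exp]
  have h3 : (-(z * (v : ℂ))).re = -z.re * v := by simp
  rw [h3]
  have h4 : ‖(v : ℂ) / z + 1 / z ^ 2‖ ≤ v / ‖z‖ + 1 / ‖z‖ ^ 2 := by
    refine (norm_add_le _ _).trans ?_
    simp [norm_div, norm_pow, abs_of_pos hv]
  calc ‖(v : ℂ) / z + 1 / z ^ 2‖ * Real.exp (-z.re * v)
      ≤ (v / ‖z‖ + 1 / ‖z‖ ^ 2) * Real.exp (-z.re * v) :=
        mul_le_mul_of_nonneg_right h4 (Real.exp_pos _).le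
    _ = _ := by
        rw [Real.rpow_one, Real.rpow_zero]
        ring

private lemma Ker_cint {z : ℂ} (hz : 0 < z.re) :
    IntegrableOn (fun v : ℝ => (v : ℂ) * Complex.exp (-(z * v))) (Set.Ioi 0) := by
  refine Integrable.mono' (Ker_real_int hz) ?_ ?_
  · exact (by fun_prop : Continuous fun v : ℝ => (v : ℂ) * Complex.exp (-(z * v))).aestronglyMeasurable
  · filter_upwards [ae_restrict_mem measurableSet_Ioi] with v hv
    have hv' : (0 : ℝ) < v := hv
    rw [norm_mul, Complex.norm_exp]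
    have h3 : (-(z * (v : ℂ))).re = -z.re * v := by simp
    rw [h3]
    simp [abs_of_pos hv']

private lemma Ker_laplace {z : ℂ} (hz : 0 < z.re) :
    ∫ v : ℝ in Set.Ioi 0, (v : ℂ) * Complex.exp (-(z * v)) = 1 / z ^ 2 := by
  have hz0 : z ≠ 0 := by
    intro h
    rw [h] at hz
    simp at hz
  have hd : ∀ x ∈ Set.Ici (0 : ℝ), HasDerivAt
      (fun v : ℝ => -(((v : ℂ) / z + 1 / z ^ 2) * Complex.exp (-(z * v))))
      ((x : ℂ) * Complex.exp (-(z * x))) x := by
    intro x _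
    have h1 : HasDerivAt (fun v : ℝ => ((v : ℂ) / z + 1 / z ^ 2)) (1 / z) x :=
      ((Complex.ofRealCLM.hasDerivAt (x := x)).div_const z).add_const _
    have h2 : HasDerivAt (fun v : ℝ => Complex.exp (-(z * v)))
        (Complex.exp (-(z * x)) * (-(z * 1))) x :=
      (((Complex.ofRealCLM.hasDerivAt (x := x)).const_mul z).neg).cexp
    have h3 := (h1.mul h2).neg
    convert! h3 using 1
    field_simp
    ring
  have h := integral_Ioi_of_hasDerivAt_of_tendsto' hd (Ker_cint hz) (Ker_tendsto hz)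
  rw [h]
  simp

private lemma Ker_fourier {σ : ℝ} (hσ : 0 < σ) (ξ : ℝ) :
    𝓕 (Ker_g σ) ξ = 1 / ((σ : ℂ) + 2 * Real.pi * ξ * Complex.I) ^ 2 := by
  rw [Real.fourier_real_eq_integral_exp_smul]
  have hz : 0 < ((σ : ℂ) + 2 * Real.pi * ξ * Complex.I).re := by
    simpa using hσ
  rw [← Ker_laplace hz]
  have hs : ∫ v : ℝ in Set.Ioi 0, Complex.exp (↑(-2 * Real.pi * v * ξ) * Complex.I) • Ker_g σ v =
      ∫ v : ℝ, Complex.exp (↑(-2 * Real.pi * v * ξ) * Complex.I) • Ker_g σ v := by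
    apply setIntegral_eq_integral_of_forall_compl_eq_zero
    intro x hx
    have : x ≤ 0 := not_lt.mp hx
    simp [Ker_g, max_eq_right this]
  rw [← hs]
  refine setIntegral_congr_fun measurableSet_Ioi ?_
  intro v hv
  have hv' : (0 : ℝ) < v := hv
  simp only [Ker_g, max_eq_left hv'.le, smul_eq_mul]
  push_cast
  rw [mul_left_comm, ← Complex.exp_add]
  congr 2
  ring

private lemma Ker_four_int {σ : ℝ} (hσ : 0 < σ) : Integrable (𝓕 (Ker_g σ)) := by
  have he : 𝓕 (Ker_g σ) = fun ξ : ℝ => 1 / ((σ : ℂ) + 2 * Real.pi * ξ * Complex.I) ^ 2 := by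
    ext ξ
    exact Ker_fourier hσ ξ
  rw [he]
  have hpi := Real.pi_pos
  have hc : (2 * Real.pi / σ) ≠ 0 := by positivity
  have h1 : Integrable (fun ξ : ℝ => (σ ^ 2)⁻¹ * (1 + (2 * Real.pi / σ * ξ) ^ 2)⁻¹) :=
    (integrable_inv_one_add_sq.comp_mul_left' hc).const_mul _
  have hne : ∀ ξ : ℝ, ((σ : ℂ) + 2 * Real.pi * ξ * Complex.I) ≠ 0 := by
    intro ξ h
    have := congrArg Complex.re h
    simp at this
    exact hσ.ne' this
  refine h1.mono' ?_ ?_
  · apply Continuous.aestronglyMeasurable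
    refine continuous_const.div (by fun_prop) ?_
    intro ξ
    exact pow_ne_zero 2 (hne ξ)
  · refine Eventually.of_forall ?_
    intro ξ
    rw [norm_div, norm_one, norm_pow, ← Complex.normSq_eq_norm_sq]
    have h2 : Complex.normSq ((σ : ℂ) + 2 * Real.pi * ξ * Complex.I) =
        σ ^ 2 * (1 + (2 * Real.pi / σ * ξ) ^ 2) := by
      rw [Complex.normSq_apply]
      simp
      field_simp
    rw [h2, one_div, mul_inv]

theorem tKer : KerStmt := by
  intro σ hσ u
  have h := congrFun ((Ker_cont σ).fourierInv_fourier_eq (Ker_g_int hσ) (Ker_four_int hσ)) u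
  rw [Real.fourierInv_eq'] at h
  have h1 : ∫ ξ : ℝ, Complex.exp (2 * Real.pi * ξ * u * Complex.I) /
      ((σ : ℂ) + 2 * Real.pi * ξ * Complex.I) ^ 2 =
      ∫ v : ℝ, Complex.exp (↑(2 * Real.pi * (inner ℝ v u)) * Complex.I) • 𝓕 (Ker_g σ) v := by
    congr 1
    ext ξ
    rw [Ker_fourier hσ]
    simp only [smul_eq_mul, RCLike.inner_apply, conj_trivial]
    push_cast
    rw [div_eq_mul_one_div]
    congr 2
    ring
  rw [h1, h]
  unfold Ker_g
  split_ifs with hu
  · rw [max_eq_left hu]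
  · rw [max_eq_right (not_le.mp hu).le]
    simp

end Pool.Agent.Lib.BV
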