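import Pool.Agent.Lib.BV.SpecD

/-!
MP_00e23e_nt, module Ksm (theorem tKsm): the sum of 1/log P over the blocks.
-/

namespace Pool.Agent.Lib.BV

open Finset

private lemma Ksm_step (a h : ℝ) (ha : 0 < a) (hh : 0 < h) (K : ℕ) :
    1 / (a + ((K : ℝ) + 1) * h) ≤
      (1 / h) * (Real.log ((a + ((K : ℝ) + 1) * h) / a) - Real.log ((a + (K : ℝ) * h) / a)) := by
  have h1 : 0 < a + (K : ℝ) * h := by positivity
  have h2 : 0 < a + ((K : ℝ) + 1) * h := by positivity
  rw [Real.log_div h2.ne' ha.ne', Real.log_div h1.ne' ha.ne']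
  have h3 : Real.log ((a + (K : ℝ) * h) / (a + ((K : ℝ) + 1) * h)) ≤
      (a + (K : ℝ) * h) / (a + ((K : ℝ) + 1) * h) - 1 :=
    Real.log_le_sub_one_of_pos (by positivity)
  rw [Real.log_div h1.ne' h2.ne'] at h3
  have h4 : (a + (K : ℝ) * h) / (a + ((K : ℝ) + 1) * h) - 1 = -(h * (1 / (a + ((K : ℝ) + 1) * h))) := by
    field_simp
    ring
  rw [h4] at h3
  have h5 : h * (1 / (a + ((K : ℝ) + 1) * h)) ≤
      Real.log (a + ((K : ℝ) + 1) * h) - Real.log (a + (K : ℝ) * h) := by linarith
  have h6 : 1 / (a + ((K : ℝ) + 1) * h) = (1 / h) * (h * (1 / (a + ((K : ℝ) + 1) * h))) := by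
    field_simp
  rw [h6]
  refine mul_le_mul_of_nonneg_left ?_ (by positivity)
  linarith

private lemma Ksm_sum (a h : ℝ) (ha : 0 < a) (hh : 0 < h) (K : ℕ) :
    ∑ k ∈ range (K + 1), 1 / (a + (k : ℝ) * h) ≤
      1 / a + (1 / h) * Real.log ((a + (K : ℝ) * h) / a) := by
  induction K with
  | zero =>
    simp [ha.ne']
  | succ K ih =>
    rw [Finset.sum_range_succ]
    have h1 := Ksm_step a h ha hh K
    push_cast
    push_cast at h1
    linarith

theorem tKsm : KsmStmt := by
  intro z K hz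
  have hz' : (2 : ℝ) ≤ z := by exact_mod_cast hz
  have hz0 : (0 : ℝ) < z := by linarith
  have hh : 0 < Real.log 2 := Real.log_pos (by norm_num)
  have hh2 : (1 / 2 : ℝ) ≤ Real.log 2 := by
    have := Real.log_two_gt_d9
    linarith
  have hha : Real.log 2 ≤ Real.log z := Real.log_le_log (by norm_num) hz'
  have ha : 0 < Real.log z := by linarith
  have hlog : ∀ k : ℕ, Real.log ((z : ℝ) * 2 ^ k) = Real.log z + (k : ℝ) * Real.log 2 := by
    intro k
    rw [Real.log_mul hz0.ne' (by positivity), Real.log_pow]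
  simp only [hlog]
  rcases Nat.eq_zero_or_pos K with hK | hK
  · subst hK
    simp [ha.ne']
  · obtain ⟨m, rfl⟩ : ∃ m, K = m + 1 := ⟨K - 1, by omega⟩
    have h1 := Ksm_sum (Real.log z) (Real.log 2) ha hh m
    refine h1.trans ?_
    have h2 : 1 / Real.log z ≤ 2 := by
      rw [div_le_iff₀ ha]
      linarith
    have h3 : 1 / Real.log 2 ≤ 2 := by
      rw [div_le_iff₀ hh]
      linarith
    have h4 : 0 ≤ Real.log ((Real.log z + (m : ℝ) * Real.log 2) / Real.log z) := by
      apply Real.log_nonneg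
      rw [le_div_iff₀ ha]
      have : 0 ≤ (m : ℝ) * Real.log 2 := by positivity
      linarith
    have h5 : Real.log ((Real.log z + (m : ℝ) * Real.log 2) / Real.log z) ≤
        Real.log ((Real.log z + ((m + 1 : ℕ) : ℝ) * Real.log 2) / Real.log z) := by
      apply Real.log_le_log
      · positivity
      · refine div_le_div_of_nonneg_right ?_ ha.le
        push_cast
        nlinarith
    have h6 : (1 / Real.log 2) * Real.log ((Real.log z + (m : ℝ) * Real.log 2) / Real.log z) ≤
        2 * Real.log ((Real.log z + (m : ℝ) * Real.log 2) / Real.log z) :=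
      mul_le_mul_of_nonneg_right h3 h4
    linarith

end Pool.Agent.Lib.BV
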