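import Pool.Agent.Lib.BV.SpecL

/-!
MP_00e23e_nt, Lib/BV, module Lbl: one block as a double sum.
-/

namespace Pool.Agent.Lib.BV

open Finset Pool.Agent.Lib.EH3

/-- the term of a pair -/
private noncomputable def Lbl_G (η : ℝ) (T P j : ℕ) {q : ℕ} (χ : DirichletCharacter ℂ q)
    (w : ℕ × ℕ) : ℂ :=
  if gi η P w.1 + gi η (2 ^ j * P) w.2 < T then
    (blk P w.1 : ℂ) * (bj P j w.2 : ℂ) * (χ (w.1 : ZMod q) * χ (w.2 : ZMod q)) else 0

private theorem Lbl_blk_nonneg (P n : ℕ) : 0 ≤ blk P n := by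
  unfold blk
  split_ifs
  · exact zero_le_one
  · exact le_rfl

private theorem Lbl_bb_nonneg (P n : ℕ) : 0 ≤ bb P n := by
  unfold bb
  split_ifs
  · positivity
  · exact le_rfl

private theorem Lbl_bj_nonneg (P j n : ℕ) : 0 ≤ bj P j n := by
  unfold bj
  split_ifs
  · exact Lbl_bb_nonneg P n
  · exact le_rfl

private theorem Lbl_blk_ne {P n : ℕ} (h : blk P n ≠ 0) : P < n ∧ n ≤ 2 * P := by
  unfold blk at h
  split_ifs at h with h1
  · exact h1.2
  · exact absurd rfl h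

private theorem Lbl_bj_ne {P j n : ℕ} (h : bj P j n ≠ 0) :
    2 ^ j * P < n ∧ n ≤ 2 ^ (j + 1) * P := by
  unfold bj at h
  split_ifs at h with h1
  · exact h1
  · exact absurd rfl h

private theorem Lbl_FJ_ne (η : ℝ) {T P j a b : ℕ} (hT : gi η P a + gi η (2 ^ j * P) b < T)
    (ha : blk P a ≠ 0) (hb : bj P j b ≠ 0) : FJ η T P j (a * b) ≠ 0 := by
  have ha1 := (Lbl_blk_ne ha).1
  have hb1 := (Lbl_bj_ne hb).1
  have hab : 1 ≤ a * b := Nat.mul_pos (by omega) (by omega)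
  have hmem : ((a, b) : ℕ × ℕ) ∈ (a * b).divisorsAntidiagonal :=
    Nat.mem_divisorsAntidiagonal.2 ⟨rfl, by omega⟩
  have h1 : (if gi η P ((a, b) : ℕ × ℕ).1 + gi η (2 ^ j * P) ((a, b) : ℕ × ℕ).2 < T then
      blk P ((a, b) : ℕ × ℕ).1 * bj P j ((a, b) : ℕ × ℕ).2 else 0) ≤ FJ η T P j (a * b) := by
    refine Finset.single_le_sum (f := fun w : ℕ × ℕ =>
      if gi η P w.1 + gi η (2 ^ j * P) w.2 < T then blk P w.1 * bj P j w.2 else 0) ?_ hmem
    intro w _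
    split_ifs
    · exact mul_nonneg (Lbl_blk_nonneg _ _) (Lbl_bj_nonneg _ _ _)
    · exact le_rfl
  rw [if_pos hT] at h1
  have h2 : 0 < blk P a * bj P j b :=
    mul_pos (lt_of_le_of_ne (Lbl_blk_nonneg _ _) ha.symm)
      (lt_of_le_of_ne (Lbl_bj_nonneg _ _ _) hb.symm)
  exact (lt_of_lt_of_le h2 h1).ne'

private theorem Lbl_G_ne {η : ℝ} {T P j : ℕ} {q : ℕ} {χ : DirichletCharacter ℂ q} {w : ℕ × ℕ}
    (h : Lbl_G η T P j χ w ≠ 0) : gi η P w.1 + gi η (2 ^ j * P) w.2 < T ∧ blk P w.1 ≠ 0 ∧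
      bj P j w.2 ≠ 0 := by
  unfold Lbl_G at h
  split_ifs at h with h1
  · refine ⟨h1, fun h2 => h ?_, fun h2 => h ?_⟩
    · rw [h2, Complex.ofReal_zero, zero_mul, zero_mul]
    · rw [h2, Complex.ofReal_zero, mul_zero, zero_mul]
  · exact absurd rfl h

private theorem Lbl_divs (N n : ℕ) (hn : n ∈ Icc 1 N) (G : ℕ × ℕ → ℂ) :
    ∑ w ∈ n.divisorsAntidiagonal, G w =
      ∑ w ∈ Icc 1 N ×ˢ Icc 1 N, if w.1 * w.2 = n then G w else 0 := by
  rw [← Finset.sum_filter]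
  refine Finset.sum_congr ?_ fun _ _ => rfl
  rw [Finset.mem_Icc] at hn
  ext ⟨a, b⟩
  simp only [Nat.mem_divisorsAntidiagonal, Finset.mem_filter, Finset.mem_product, Finset.mem_Icc]
  constructor
  · rintro ⟨h, -⟩
    have ha : 1 ≤ a := Nat.one_le_iff_ne_zero.2 fun h0 => by
      rw [h0, zero_mul] at h
      omega
    have hb : 1 ≤ b := Nat.one_le_iff_ne_zero.2 fun h0 => by
      rw [h0, mul_zero] at h
      omega
    have ha' : a ≤ a * b := Nat.le_mul_of_pos_right a hb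
    have hb' : b ≤ a * b := Nat.le_mul_of_pos_left b ha
    exact ⟨⟨⟨ha, by omega⟩, hb, by omega⟩, h⟩
  · rintro ⟨-, h⟩
    exact ⟨h, by omega⟩

private theorem Lbl_left (η : ℝ) (T P j N e : ℕ) {q : ℕ} (χ : DirichletCharacter ℂ q) :
    cs (fun n => (FJ η T P j n : ℂ)) N e χ =
      ∑ w ∈ Icc 1 N ×ˢ Icc 1 N, if w.1 * w.2 ≤ N ∧ (w.1 * w.2).Coprime e then
        Lbl_G η T P j χ w else 0 := by
  unfold cs
  have h1 : ∀ n ∈ (Icc 1 N).filter (fun n => n.Coprime e),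
      (FJ η T P j n : ℂ) * χ (n : ZMod q) =
        ∑ w ∈ Icc 1 N ×ˢ Icc 1 N, if w.1 * w.2 = n then Lbl_G η T P j χ w else 0 := by
    intro n hn
    rw [← Lbl_divs N n (Finset.mem_filter.1 hn).1]
    unfold FJ
    rw [Complex.ofReal_sum, Finset.sum_mul]
    refine Finset.sum_congr rfl fun w hw => ?_
    have h2 := (Nat.mem_divisorsAntidiagonal.1 hw).1
    unfold Lbl_G
    rw [← h2, Nat.cast_mul, map_mul]
    split_ifs
    · rw [Complex.ofReal_mul]
    · rw [Complex.ofReal_zero, zero_mul]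
  rw [Finset.sum_congr rfl h1, Finset.sum_comm]
  refine Finset.sum_congr rfl fun w hw => ?_
  rw [Finset.mem_product, Finset.mem_Icc, Finset.mem_Icc] at hw
  have h3 : 1 ≤ w.1 * w.2 := Nat.mul_pos hw.1.1 hw.2.1
  by_cases hc : w.1 * w.2 ≤ N ∧ (w.1 * w.2).Coprime e
  · rw [if_pos hc, Finset.sum_eq_single (w.1 * w.2)]
    · rw [if_pos rfl]
    · intro n _ hne
      exact if_neg fun h => hne h.symm
    · intro hnot
      exact absurd (Finset.mem_filter.2 ⟨Finset.mem_Icc.2 ⟨h3, hc.1⟩, hc.2⟩) hnot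
  · rw [if_neg hc]
    refine Finset.sum_eq_zero fun n hn => ?_
    rw [Finset.mem_filter, Finset.mem_Icc] at hn
    refine if_neg fun h => hc ?_
    rw [h]
    exact ⟨hn.1.2, hn.2⟩

private theorem Lbl_eq (η : ℝ) (T P j N e : ℕ) {q : ℕ} (χ : DirichletCharacter ℂ q)
    (hN : ∀ n : ℕ, FJ η T P j n ≠ 0 → n ≤ N) :
    (∑ w ∈ Icc 1 N ×ˢ Icc 1 N, if w.1 * w.2 ≤ N ∧ (w.1 * w.2).Coprime e then
        Lbl_G η T P j χ w else 0) =
      ∑ w ∈ (Icc 1 (2 * P)).filter (fun n => n.Coprime e) ×ˢ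
        (Icc 1 (2 ^ (j + 1) * P)).filter (fun n => n.Coprime e), Lbl_G η T P j χ w := by
  classical
  set S1 := Icc 1 N ×ˢ Icc 1 N with hS1
  set S2 := (Icc 1 (2 * P)).filter (fun n => n.Coprime e) ×ˢ
        (Icc 1 (2 ^ (j + 1) * P)).filter (fun n => n.Coprime e) with hS2
  have hr : ∑ w ∈ S2, Lbl_G η T P j χ w = ∑ w ∈ S2,
      if w.1 * w.2 ≤ N ∧ (w.1 * w.2).Coprime e then Lbl_G η T P j χ w else 0 := by
    refine Finset.sum_congr rfl fun w hw => ?_
    rw [hS2, Finset.mem_product, Finset.mem_filter, Finset.mem_filter, Finset.mem_Icc,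
      Finset.mem_Icc] at hw
    by_cases hG : Lbl_G η T P j χ w = 0
    · rw [hG, ite_self]
    · have h1 := Lbl_G_ne hG
      rw [if_pos ⟨hN _ (Lbl_FJ_ne η h1.1 h1.2.1 h1.2.2), Nat.Coprime.mul_left hw.1.2 hw.2.2⟩]
  rw [hr]
  have e1 : ∑ w ∈ S1, (if w.1 * w.2 ≤ N ∧ (w.1 * w.2).Coprime e then
      Lbl_G η T P j χ w else 0) = ∑ w ∈ S1 ∪ S2, if w.1 * w.2 ≤ N ∧ (w.1 * w.2).Coprime e then
      Lbl_G η T P j χ w else 0 := by
    refine Finset.sum_subset subset_union_left fun w hw hn => ?_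
    refine if_neg fun h => hn ?_
    have hw' : w ∈ S2 := (Finset.mem_union.1 hw).resolve_left hn
    rw [hS2, Finset.mem_product, Finset.mem_filter, Finset.mem_filter, Finset.mem_Icc,
      Finset.mem_Icc] at hw'
    rw [hS1, Finset.mem_product, Finset.mem_Icc, Finset.mem_Icc]
    have h1 : w.1 ≤ w.1 * w.2 := Nat.le_mul_of_pos_right _ hw'.2.1.1
    have h2 : w.2 ≤ w.1 * w.2 := Nat.le_mul_of_pos_left _ hw'.1.1.1
    exact ⟨⟨hw'.1.1.1, h1.trans h.1⟩, hw'.2.1.1, h2.trans h.1⟩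
  have e2 : ∑ w ∈ S2, (if w.1 * w.2 ≤ N ∧ (w.1 * w.2).Coprime e then
      Lbl_G η T P j χ w else 0) = ∑ w ∈ S1 ∪ S2, if w.1 * w.2 ≤ N ∧ (w.1 * w.2).Coprime e then
      Lbl_G η T P j χ w else 0 := by
    refine Finset.sum_subset subset_union_right fun w hw hn => ?_
    by_contra hcon
    rw [ite_eq_right_iff, Classical.not_imp] at hcon
    obtain ⟨⟨_, hcop⟩, hG⟩ := hcon
    have h1 := Lbl_G_ne hG
    have h2 := Lbl_blk_ne h1.2.1
    have h3 := Lbl_bj_ne h1.2.2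
    apply hn
    rw [hS2, Finset.mem_product, Finset.mem_filter, Finset.mem_filter, Finset.mem_Icc,
      Finset.mem_Icc]
    exact ⟨⟨⟨by omega, h2.2⟩, (Nat.coprime_mul_iff_left.1 hcop).1⟩,
      ⟨by omega, h3.2⟩, (Nat.coprime_mul_iff_left.1 hcop).2⟩
  rw [e1, e2]


private theorem Lbl_bb_le (P n : ℕ) : bb P n ≤ 1 := by
  unfold bb
  split_ifs
  · rw [div_le_one (by positivity)]
    have : (0 : ℝ) ≤ (Om P n : ℝ) := Nat.cast_nonneg _
    linarith
  · exact zero_le_one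

private theorem Lbl_bj_le (P j n : ℕ) : bj P j n ≤ 1 := by
  unfold bj
  split_ifs
  · exact Lbl_bb_le P n
  · exact zero_le_one

/-- the inner sum -/
private theorem Lbl_inner (h1 : LmoStmt) (η E : ℝ) (T P j m : ℕ) {q : ℕ}
    (χ : DirichletCharacter ℂ q) (hη : 0 < η) (hP : 1 ≤ P)
    (hE : ∀ u : ℕ, P ≤ u → u ≤ 2 * P → ‖∑ p ∈ (Ioc P u).filter Nat.Prime, χ (p : ZMod q)‖ ≤ E) :
    ‖∑ p ∈ Icc 1 (2 * P), Lbl_G η T P j χ (p, m)‖ ≤ if 2 ^ j * P < m then E else 0 := by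
  classical
  have hE0 : 0 ≤ E := (norm_nonneg _).trans (hE P le_rfl (by omega))
  by_cases hb : bj P j m = 0
  · have e1 : ∑ p ∈ Icc 1 (2 * P), Lbl_G η T P j χ (p, m) = 0 := by
      refine Finset.sum_eq_zero fun p _ => ?_
      unfold Lbl_G
      rw [hb, Complex.ofReal_zero, mul_zero, zero_mul, ite_self]
    rw [e1, norm_zero]
    split_ifs
    · exact hE0
    · exact le_rfl
  · rw [if_pos (Lbl_bj_ne hb).1]
    obtain ⟨u, hu1, hu2, hu⟩ := h1 η P T (gi η (2 ^ j * P) m) hη hP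
    have e1 : ∑ p ∈ Icc 1 (2 * P), Lbl_G η T P j χ (p, m) =
        ((bj P j m : ℂ) * χ (m : ZMod q)) * ∑ p ∈ (Ioc P u).filter Nat.Prime, χ (p : ZMod q) := by
      rw [Finset.mul_sum]
      have e2 : (Ioc P u).filter Nat.Prime ⊆ Icc 1 (2 * P) := by
        intro p hp
        rw [Finset.mem_filter, Finset.mem_Ioc] at hp
        rw [Finset.mem_Icc]
        omega
      rw [← Finset.sum_subset e2 (f := fun p => Lbl_G η T P j χ (p, m))]
      · refine Finset.sum_congr rfl fun p hp => ?_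
        rw [Finset.mem_filter, Finset.mem_Ioc] at hp
        have e3 : gi η P p + gi η (2 ^ j * P) m < T :=
          (hu p hp.1.1 (by omega)).2 hp.1.2
        unfold Lbl_G
        rw [if_pos e3]
        have e4 : blk P p = 1 := by
          unfold blk
          rw [if_pos ⟨hp.2, hp.1.1, by omega⟩]
        rw [e4, Complex.ofReal_one]
        ring
      · intro p hp hn
        rw [Finset.mem_Icc] at hp
        by_contra hG
        have e5 := Lbl_G_ne hG
        apply hn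
        have e6 : p.Prime ∧ P < p ∧ p ≤ 2 * P := by
          have e7 := e5.2.1
          unfold blk at e7
          split_ifs at e7 with h
          · exact h
          · exact absurd rfl e7
        rw [Finset.mem_filter, Finset.mem_Ioc]
        exact ⟨⟨e6.2.1, (hu p e6.2.1 e6.2.2).1 e5.1⟩, e6.1⟩
    rw [e1, norm_mul]
    have e8 : ‖(bj P j m : ℂ) * χ (m : ZMod q)‖ ≤ 1 := by
      rw [norm_mul, Complex.norm_real, Real.norm_eq_abs, abs_of_nonneg (Lbl_bj_nonneg P j m)]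
      exact mul_le_one₀ (Lbl_bj_le P j m) (norm_nonneg _) (χ.norm_le_one _)
    calc ‖(bj P j m : ℂ) * χ (m : ZMod q)‖ * ‖∑ p ∈ (Ioc P u).filter Nat.Prime, χ (p : ZMod q)‖
        ≤ 1 * E := mul_le_mul e8 (hE u hu1 hu2) (norm_nonneg _) zero_le_one
      _ = E := one_mul E

theorem tLbl (h1 : LmoStmt) : LblStmt := by
  classical
  intro η E T P j N q χ hη hP hN hE
  rw [Lbl_left, Lbl_eq η T P j N 1 χ hN]
  have e0 : ∀ K : ℕ, (Icc 1 K).filter (fun n => n.Coprime 1) = Icc 1 K := by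
    intro K
    refine Finset.filter_true_of_mem fun n _ => Nat.coprime_one_right n
  rw [e0, e0, Finset.sum_product_right]
  refine (norm_sum_le _ _).trans ?_
  refine (Finset.sum_le_sum fun m _ => Lbl_inner h1 η E T P j m χ hη hP hE).trans ?_
  rw [← Finset.sum_filter, Finset.sum_const, nsmul_eq_mul]
  have hE0 : 0 ≤ E := (norm_nonneg _).trans (hE P le_rfl (by omega))
  refine mul_le_mul_of_nonneg_right ?_ hE0
  have e9 : (Icc 1 (2 ^ (j + 1) * P)).filter (fun m => 2 ^ j * P < m) ⊆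
      Ioc (2 ^ j * P) (2 ^ (j + 1) * P) := by
    intro m hm
    rw [Finset.mem_filter, Finset.mem_Icc] at hm
    rw [Finset.mem_Ioc]
    exact ⟨hm.2, hm.1.2⟩
  have e10 := Finset.card_le_card e9
  rw [Nat.card_Ioc] at e10
  have e11 : 2 ^ (j + 1) * P - 2 ^ j * P = 2 ^ j * P := by
    have e12 : 2 ^ (j + 1) * P = 2 ^ j * P + 2 ^ j * P := by ring
    omega
  rw [e11] at e10
  calc (((Icc 1 (2 ^ (j + 1) * P)).filter (fun m => 2 ^ j * P < m)).card : ℝ)
      ≤ ((2 ^ j * P : ℕ) : ℝ) := by exact_mod_cast e10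
    _ = (2 : ℝ) ^ j * (P : ℝ) := by push_cast; ring

end Pool.Agent.Lib.BV
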