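import Pool.Agent.Lib.BV.SpecL

namespace Pool.Agent.Lib.BV

open Finset Pool.Agent.Lib.EH3

private lemma Lct_pow (x : ℝ) (hx : 1 ≤ x) (k : ℕ) (h : (2 : ℝ) ^ k ≤ x) :
    k ≤ ⌊2 * Real.log x⌋₊ := by
  have h1 : Real.log ((2 : ℝ) ^ k) ≤ Real.log x := Real.log_le_log (by positivity) h
  rw [Real.log_pow] at h1
  have h2 : (1 : ℝ) / 2 ≤ Real.log 2 := by
    have := Real.log_two_gt_d9
    linarith
  have h3 : 0 ≤ Real.log x := Real.log_nonneg hx
  apply Nat.le_floor
  have h4 : (k : ℝ) * (1 / 2) ≤ k * Real.log 2 := by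
    apply mul_le_mul_of_nonneg_left h2 (by positivity)
  linarith

private lemma Lct_card (n K : ℕ) : ∑ k ∈ range K, (if k ≤ n then (1 : ℝ) else 0) ≤ (n : ℝ) + 1 := by
  rw [← Finset.sum_filter, Finset.sum_const, nsmul_eq_mul, mul_one]
  have h : ((range K).filter (fun k => k ≤ n)).card ≤ (range (n + 1)).card := by
    apply Finset.card_le_card
    intro k hk
    simp only [mem_filter, mem_range] at hk ⊢
    omega
  rw [card_range] at h
  exact_mod_cast h

theorem tLct : LctStmt := by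
  intro x E z K J b hx hz hE hb hb0
  set n : ℕ := ⌊2 * Real.log x⌋₊ with hn
  have hlog : 0 ≤ Real.log x := Real.log_nonneg hx
  have hnle : (n : ℝ) ≤ 2 * Real.log x := Nat.floor_le (by linarith)
  have hz' : (1 : ℝ) ≤ z := by exact_mod_cast hz
  have hterm : ∀ k j, b k j ≤ (if k ≤ n then (1 : ℝ) else 0) * ((if j ≤ n then (1 : ℝ) else 0) * E) := by
    intro k j
    by_cases h : x < (2 : ℝ) ^ j * ((z : ℝ) * 2 ^ k) ^ 2
    · refine (hb0 k j h).trans ?_
      apply mul_nonneg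
      · split_ifs <;> norm_num
      · apply mul_nonneg _ hE
        split_ifs <;> norm_num
    · rw [not_lt] at h
      have h2k : (1 : ℝ) ≤ 2 ^ k := one_le_pow₀ (by norm_num)
      have h2j : (1 : ℝ) ≤ 2 ^ j := one_le_pow₀ (by norm_num)
      have h1 : (2 : ℝ) ^ k ≤ ((z : ℝ) * 2 ^ k) := by nlinarith
      have h1' : (1 : ℝ) ≤ ((z : ℝ) * 2 ^ k) := h2k.trans h1
      have h2 : ((z : ℝ) * 2 ^ k) ≤ ((z : ℝ) * 2 ^ k) ^ 2 := by nlinarith
      have h3 : ((z : ℝ) * 2 ^ k) ^ 2 ≤ (2 : ℝ) ^ j * ((z : ℝ) * 2 ^ k) ^ 2 := by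
        have : (0 : ℝ) ≤ ((z : ℝ) * 2 ^ k) ^ 2 := by positivity
        nlinarith
      have hk : k ≤ n := Lct_pow x hx k (by linarith)
      have h4 : (2 : ℝ) ^ j ≤ (2 : ℝ) ^ j * ((z : ℝ) * 2 ^ k) ^ 2 := by
        have : (1 : ℝ) ≤ ((z : ℝ) * 2 ^ k) ^ 2 := h1'.trans h2
        nlinarith
      have hj : j ≤ n := Lct_pow x hx j (by linarith)
      rw [if_pos hk, if_pos hj, one_mul, one_mul]
      exact hb k j
  calc ∑ k ∈ range K, ∑ j ∈ range J, b k j
      ≤ ∑ k ∈ range K, ∑ j ∈ range J,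
        (if k ≤ n then (1 : ℝ) else 0) * ((if j ≤ n then (1 : ℝ) else 0) * E) :=
        Finset.sum_le_sum fun k _ => Finset.sum_le_sum fun j _ => hterm k j
    _ = (∑ k ∈ range K, (if k ≤ n then (1 : ℝ) else 0)) *
        ((∑ j ∈ range J, (if j ≤ n then (1 : ℝ) else 0)) * E) := by
        rw [Finset.sum_mul, Finset.sum_mul]
        apply Finset.sum_congr rfl
        intro k _
        rw [Finset.mul_sum]
    _ ≤ ((n : ℝ) + 1) * (((n : ℝ) + 1) * E) := by
        apply mul_le_mul (Lct_card n K)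
        · apply mul_le_mul_of_nonneg_right (Lct_card n J) hE
        · apply mul_nonneg _ hE
          apply Finset.sum_nonneg
          intro j _
          split_ifs <;> norm_num
        · positivity
    _ ≤ (1 + 2 * Real.log x) * ((1 + 2 * Real.log x) * E) := by
        have h5 : (n : ℝ) + 1 ≤ 1 + 2 * Real.log x := by linarith
        have h6 : (0 : ℝ) ≤ (n : ℝ) + 1 := by positivity
        apply mul_le_mul h5 (mul_le_mul_of_nonneg_right h5 hE) (by positivity) (by linarith)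
    _ = (1 + 2 * Real.log x) ^ 2 * E := by ring

end Pool.Agent.Lib.BV
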