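import Pool.Agent.Lib.BV.SpecL

/-!
MP_00e23e_nt, Lib/BV, module Lft: character sums of FY.
-/

namespace Pool.Agent.Lib.BV

open Finset Pool.Agent.Lib.EH3

private theorem Lft_cs_sum {ι : Type} (s : Finset ι) (F : ι → ℕ → ℂ) (N e : ℕ) {q : ℕ}
    (χ : DirichletCharacter ℂ q) :
    cs (fun n => ∑ i ∈ s, F i n) N e χ = ∑ i ∈ s, cs (F i) N e χ := by
  unfold cs
  rw [Finset.sum_comm]
  exact Finset.sum_congr rfl fun n _ => Finset.sum_mul _ _ _

private theorem Lft_blk_ne {P n : ℕ} (h : blk P n ≠ 0) : P < n ∧ n ≤ 2 * P := by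
  unfold blk at h
  split_ifs at h with h1
  · exact h1.2
  · exact absurd rfl h

private theorem Lft_bj_ne {P j n : ℕ} (h : bj P j n ≠ 0) :
    2 ^ j * P < n ∧ n ≤ 2 ^ (j + 1) * P := by
  unfold bj at h
  split_ifs at h with h1
  · exact h1
  · exact absurd rfl h

/-- the support of one block -/
private theorem Lft_supp (h2 : GriStmt) (x η y : ℝ) (P j n : ℕ) (hx : 4 ≤ x) (hη : 0 < η)
    (hη2 : η ≤ 1 / 2) (hP : 1 ≤ P) (hy : y ≤ x) (hn : FJ η (cut η y P j) P j n ≠ 0) :
    n ≤ 4 * ⌊x⌋₊ := by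
  have h1 : ∃ w ∈ n.divisorsAntidiagonal, (if gi η P w.1 + gi η (2 ^ j * P) w.2 < cut η y P j then
      blk P w.1 * bj P j w.2 else 0) ≠ 0 := by
    by_contra hcon
    push Not at hcon
    exact hn (Finset.sum_eq_zero hcon)
  obtain ⟨w, hw, hne⟩ := h1
  have hw1 := (Nat.mem_divisorsAntidiagonal.1 hw).1
  by_cases hT : gi η P w.1 + gi η (2 ^ j * P) w.2 < cut η y P j
  · rw [if_pos hT] at hne
    have ha := Lft_blk_ne (left_ne_zero_of_mul hne)
    have hb := Lft_bj_ne (right_ne_zero_of_mul hne)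
    have h3 := (h2 η y P j w.1 w.2 hη hP ha.1 ha.2 hb.1 hb.2).2.1 hT
    have h4 : (n : ℝ) = (w.1 : ℝ) * w.2 := by
      rw [← hw1]
      push_cast
      rfl
    have h5 : Real.exp (2 * η) ≤ 3 := by
      have e1 : Real.exp (2 * η) ≤ Real.exp 1 := Real.exp_le_exp.2 (by linarith)
      have e2 := Real.exp_one_lt_d9
      linarith
    have h6 : (n : ℝ) ≤ x * 3 := by
      rw [h4]
      refine h3.trans ?_
      calc y * Real.exp (2 * η) ≤ x * Real.exp (2 * η) :=
            mul_le_mul_of_nonneg_right hy (Real.exp_pos _).le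
        _ ≤ x * 3 := mul_le_mul_of_nonneg_left h5 (by linarith)
    have h7 : x < (⌊x⌋₊ : ℝ) + 1 := Nat.lt_floor_add_one x
    have h8 : (n : ℝ) ≤ ((4 * ⌊x⌋₊ : ℕ) : ℝ) := by
      push_cast
      linarith
    exact_mod_cast h8
  · rw [if_neg hT] at hne
    exact absurd rfl hne

theorem tLft (h1 : GriStmt) (h2 : LblStmt) : LftStmt := by
  intro x η y z K J q χ E hx hη hη2 hy hz hE
  have e1 : (fun n => (FY η z K J y n : ℂ)) = fun n => ∑ k ∈ range K,
      (fun k n => ∑ j ∈ range J, (fun j n =>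
        (FJ η (cut η y (z * 2 ^ k) j) (z * 2 ^ k) j n : ℂ)) j n) k n := by
    funext n
    unfold FY
    rw [Complex.ofReal_sum]
    exact Finset.sum_congr rfl fun k _ => Complex.ofReal_sum _ _
  rw [e1, Lft_cs_sum]
  refine (norm_sum_le _ _).trans (Finset.sum_le_sum fun k _ => ?_)
  dsimp only
  rw [Lft_cs_sum (range J) (fun j n =>
    (FJ η (cut η y (z * 2 ^ k) j) (z * 2 ^ k) j n : ℂ))]
  refine (norm_sum_le _ _).trans (Finset.sum_le_sum fun j _ => ?_)
  have hP : 1 ≤ z * 2 ^ k := Nat.mul_pos (by omega) (by positivity)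
  split_ifs with hc
  · have h3 := h2 η (E k) (cut η y (z * 2 ^ k) j) (z * 2 ^ k) j (4 * ⌊x⌋₊) q χ hη hP
      (fun n hn => Lft_supp h1 x η y (z * 2 ^ k) j n hx hη hη2 hP hy hn) (hE k)
    refine h3.trans (le_of_eq ?_)
    push_cast
    ring
  · have e2 : cut η y (z * 2 ^ k) j = 0 := by
      unfold cut
      rw [if_neg]
      intro h
      apply hc
      push_cast at h
      exact h.trans hy
    have e3 : (fun n => (FJ η (cut η y (z * 2 ^ k) j) (z * 2 ^ k) j n : ℂ)) = fun _ => 0 := by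
      funext n
      rw [e2]
      unfold FJ
      rw [Finset.sum_eq_zero]
      · exact Complex.ofReal_zero
      · intro w _
        exact if_neg (Nat.not_lt_zero _)
    rw [e3]
    unfold cs
    simp

end Pool.Agent.Lib.BV
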