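import Pool.Agent.Lib.BV.SpecF

/-!
MP_00e23e_nt, module Lif: class sums of a product of linear forms.
-/

namespace Pool.Agent.Lib.BV

open Finset Pool.Agent.Lib.EH3

private lemma Lif_base (h1 : ApcStmt) (N N2 d l k : ℕ) (hd : 1 ≤ d) (hN : N ≤ N2) (hk : 1 ≤ k)
    (hkd : k.Coprime d) :
    |(((Ioc N N2).filter (fun n => n ≡ l [MOD d] ∧ k ∣ n)).card : ℝ) -
      ((N2 : ℝ) - N) / (d * k)| ≤ 2 := by
  have ha := h1.1 N d l k hd hk hkd
  have hb := h1.1 N2 d l k hd hk hkd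
  have hc : (Icc 1 N2).filter (fun n => n ≡ l [MOD d] ∧ k ∣ n) =
      (Icc 1 N).filter (fun n => n ≡ l [MOD d] ∧ k ∣ n) ∪
        (Ioc N N2).filter (fun n => n ≡ l [MOD d] ∧ k ∣ n) := by
    rw [← filter_union]
    congr 1
    ext n
    simp only [mem_Icc, mem_union, mem_Ioc]
    omega
  have hdis : Disjoint ((Icc 1 N).filter (fun n => n ≡ l [MOD d] ∧ k ∣ n))
      ((Ioc N N2).filter (fun n => n ≡ l [MOD d] ∧ k ∣ n)) := by
    refine disjoint_filter_filter ?_
    rw [disjoint_left]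
    intro n hn hn'
    simp only [mem_Icc, mem_Ioc] at hn hn'
    omega
  have hcard := card_union_of_disjoint hdis
  rw [← hc] at hcard
  rw [hcard] at hb
  push_cast at hb
  have e1 : ((N2 : ℝ) - N) / (d * k) = (N2 : ℝ) / (d * k) - (N : ℝ) / (d * k) := sub_div _ _ _
  rw [e1]
  rw [abs_le] at ha hb ⊢
  constructor <;> linarith [ha.1, ha.2, hb.1, hb.2]

theorem tLif (h1 : ApcStmt) : LifStmt := by
  intro J
  induction J with
  | zero =>
    intro B T c N N2 d l k hd hl hN hk hkd _ _ _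
    simp only [range_zero, prod_empty, sum_const, nsmul_eq_mul, mul_one]
    exact Lif_base h1 N N2 d l k hd hN hk hkd
  | succ J ih =>
    intro B T c N N2 d l k hd hl hN hk hkd hB hdis hT
    have hJ : J ∈ range (J + 1) := mem_range.2 (Nat.lt_succ_self J)
    have hsub : ∀ i, i ∈ range J → i ∈ range (J + 1) := fun i hi =>
      mem_range.2 (lt_trans (mem_range.1 hi) (Nat.lt_succ_self J))
    set M : ℝ := ∏ i ∈ range J, ∑ s ∈ T i, c i s / ((∏ p ∈ s, p : ℕ) : ℝ) with hM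
    set A : ℝ := ∏ i ∈ range J, ∑ s ∈ T i, |c i s| with hA
    have key : ∀ s ∈ T J,
        |∑ n ∈ (Ioc N N2).filter (fun n => n ≡ l [MOD d] ∧ k * (∏ p ∈ s, p) ∣ n),
          ∏ i ∈ range J, ∑ s ∈ T i, c i s * dvi (∏ p ∈ s, p) n -
        ((N2 : ℝ) - N) / (d * (k * (∏ p ∈ s, p) : ℕ)) * M| ≤ 2 * A := by
      intro s hs
      have hsB := hT J hJ s hs
      refine ih B T c N N2 d l (k * ∏ p ∈ s, p) hd hl hN ?_ ?_ ?_ ?_ ?_
      · exact Nat.mul_pos hk (prod_pos fun p hp => (hB J hJ p (hsB hp)).1.pos)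
      · refine Nat.Coprime.mul_left hkd (Nat.Coprime.prod_left fun p hp => ?_)
        exact ((hB J hJ p (hsB hp)).1.coprime_iff_not_dvd).2 (hB J hJ p (hsB hp)).2.1
      · intro i hi p hp
        obtain ⟨hp1, hp2, hp3⟩ := hB i (hsub i hi) p hp
        refine ⟨hp1, hp2, fun hdv => ?_⟩
        rcases hp1.dvd_mul.1 hdv with h | h
        · exact hp3 h
        · obtain ⟨q, hq, hpq⟩ := (hp1.prime.dvd_finsetProd_iff _).1 h
          have hq1 := (hB J hJ q (hsB hq)).1
          have e : p = q := (Nat.prime_dvd_prime_iff_eq hp1 hq1).1 hpq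
          have hne : i ≠ J := (mem_range.1 hi).ne
          have := disjoint_left.1 (hdis i (hsub i hi) J hJ hne) hp
          exact this (e ▸ hsB hq)
      · intro i hi j hj
        exact hdis i (hsub i hi) j (hsub j hj)
      · intro i hi
        exact hT i (hsub i hi)
    have hswap : ∑ n ∈ (Ioc N N2).filter (fun n => n ≡ l [MOD d] ∧ k ∣ n),
        ∏ i ∈ range (J + 1), ∑ s ∈ T i, c i s * dvi (∏ p ∈ s, p) n =
        ∑ s ∈ T J, c J s *
          ∑ n ∈ (Ioc N N2).filter (fun n => n ≡ l [MOD d] ∧ k * (∏ p ∈ s, p) ∣ n),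
            ∏ i ∈ range J, ∑ s ∈ T i, c i s * dvi (∏ p ∈ s, p) n := by
      have e1 : ∀ n ∈ (Ioc N N2).filter (fun n => n ≡ l [MOD d] ∧ k ∣ n),
          ∏ i ∈ range (J + 1), ∑ s ∈ T i, c i s * dvi (∏ p ∈ s, p) n =
          ∑ s ∈ T J, c J s * (dvi (∏ p ∈ s, p) n *
            ∏ i ∈ range J, ∑ s ∈ T i, c i s * dvi (∏ p ∈ s, p) n) := by
        intro n _
        rw [prod_range_succ, mul_comm, sum_mul]
        exact sum_congr rfl fun s _ => by ring
      rw [sum_congr rfl e1, sum_comm]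
      refine sum_congr rfl fun s hs => ?_
      rw [← mul_sum]
      congr 1
      have hsB := hT J hJ s hs
      have hcop : k.Coprime (∏ p ∈ s, p) := by
        refine Nat.Coprime.prod_right fun p hp => ?_
        exact (((hB J hJ p (hsB hp)).1.coprime_iff_not_dvd).2 (hB J hJ p (hsB hp)).2.2).symm
      have e2 : (Ioc N N2).filter (fun n => n ≡ l [MOD d] ∧ k * (∏ p ∈ s, p) ∣ n) =
          ((Ioc N N2).filter (fun n => n ≡ l [MOD d] ∧ k ∣ n)).filter
            (fun n => (∏ p ∈ s, p) ∣ n) := by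
        rw [filter_filter]
        refine filter_congr fun n _ => ?_
        constructor
        · rintro ⟨h2, h3⟩
          exact ⟨⟨h2, dvd_trans (dvd_mul_right _ _) h3⟩, dvd_trans (dvd_mul_left _ _) h3⟩
        · rintro ⟨⟨h2, h3⟩, h4⟩
          exact ⟨h2, hcop.mul_dvd_of_dvd_of_dvd h3 h4⟩
      rw [e2]
      conv_rhs => rw [sum_filter]
      refine sum_congr rfl fun n _ => ?_
      unfold dvi
      by_cases h : (∏ p ∈ s, p) ∣ n
      · rw [if_pos h, if_pos h, one_mul]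
      · rw [if_neg h, if_neg h, zero_mul]
    have hmain : ((N2 : ℝ) - N) / (d * k) *
        ∏ i ∈ range (J + 1), ∑ s ∈ T i, c i s / ((∏ p ∈ s, p : ℕ) : ℝ) =
        ∑ s ∈ T J, c J s * (((N2 : ℝ) - N) / (d * (k * (∏ p ∈ s, p) : ℕ)) * M) := by
      rw [prod_range_succ, ← hM, mul_sum, mul_sum]
      refine sum_congr rfl fun s _ => ?_
      rw [Nat.cast_mul]
      rw [← mul_assoc (d : ℝ) (k : ℝ)]
      rw [div_mul_eq_div_div ((N2 : ℝ) - N) ((d : ℝ) * k)]
      ring
    rw [hswap, hmain, ← sum_sub_distrib]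
    have e3 : ∀ s ∈ T J, |c J s *
          ∑ n ∈ (Ioc N N2).filter (fun n => n ≡ l [MOD d] ∧ k * (∏ p ∈ s, p) ∣ n),
            ∏ i ∈ range J, ∑ s ∈ T i, c i s * dvi (∏ p ∈ s, p) n -
        c J s * (((N2 : ℝ) - N) / (d * (k * (∏ p ∈ s, p) : ℕ)) * M)| ≤ |c J s| * (2 * A) := by
      intro s hs
      rw [← mul_sub, abs_mul]
      exact mul_le_mul_of_nonneg_left (key s hs) (abs_nonneg _)
    refine (abs_sum_le_sum_abs _ _).trans ((sum_le_sum e3).trans ?_)
    rw [← sum_mul, prod_range_succ, ← hA]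
    apply le_of_eq
    ring

end Pool.Agent.Lib.BV
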