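import Pool.Agent.Lib.BV.SpecW

/-!
MP_00e23e_nt, BV, module Lir: the sum of 1/log n against the logarithmic integral.
-/

namespace Pool.Agent.Lib.BV

open Finset

theorem Lir_anti : AntitoneOn (fun t : ℝ => 1 / Real.log t) (Set.Ici 2) := by
  intro s hs t ht hst
  rw [Set.mem_Ici] at hs ht
  have h1 : 0 < Real.log s := Real.log_pos (by linarith)
  exact one_div_le_one_div_of_le h1 (Real.log_le_log (by linarith) hst)

theorem Lir_int {p q : ℝ} (hp : 2 ≤ p) (hpq : p ≤ q) :
    IntervalIntegrable (fun t : ℝ => 1 / Real.log t) MeasureTheory.volume p q := by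
  apply AntitoneOn.intervalIntegrable
  apply Lir_anti.mono
  rw [Set.uIcc_of_le hpq]
  intro t ht
  exact hp.trans ht.1

theorem Lir_le_two {t : ℝ} (ht : 2 ≤ t) : 1 / Real.log t ≤ 2 := by
  have h1 : Real.log 2 ≤ Real.log t := Real.log_le_log (by norm_num) ht
  have h2 := Real.log_two_gt_d9
  rw [div_le_iff₀ (by linarith)]
  linarith

theorem Lir_bounds {p q : ℝ} (hp : 2 ≤ p) (hpq : p ≤ q) :
    0 ≤ ∫ t in p..q, 1 / Real.log t ∧ ∫ t in p..q, 1 / Real.log t ≤ 2 * (q - p) := by
  constructor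
  · apply intervalIntegral.integral_nonneg hpq
    intro t ht
    have : 0 < Real.log t := Real.log_pos (by linarith [ht.1])
    positivity
  · have h1 : ∫ t in p..q, 1 / Real.log t ≤ ∫ _t in p..q, (2 : ℝ) := by
      apply intervalIntegral.integral_mono_on hpq (Lir_int hp hpq) (by simp)
      intro t ht
      exact Lir_le_two (hp.trans ht.1)
    rw [intervalIntegral.integral_const, smul_eq_mul] at h1
    linarith

theorem tLir : LirStmt := by
  intro x hx
  have hsq : 2 ≤ Real.sqrt x := by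
    rw [Real.le_sqrt (by norm_num) (by linarith)]
    linarith
  have hsx : Real.sqrt x ≤ x := by
    rw [Real.sqrt_le_left (by linarith)]
    nlinarith
  set a : ℕ := ⌊Real.sqrt x⌋₊ with ha
  set b : ℕ := ⌊x⌋₊ with hb
  have ha2 : 2 ≤ a := Nat.le_floor (by exact_mod_cast hsq)
  have hab : a ≤ b := Nat.floor_mono hsx
  have haR : (2 : ℝ) ≤ a := by exact_mod_cast ha2
  have habR : (a : ℝ) ≤ b := by exact_mod_cast hab
  have has : (a : ℝ) ≤ Real.sqrt x := Nat.floor_le (Real.sqrt_nonneg x)
  have hbx : (b : ℝ) ≤ x := Nat.floor_le (by linarith)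
  have hbx1 : x < (b : ℝ) + 1 := Nat.lt_floor_add_one x
  have hli : Pool.Agent.Results.MP_00e23e_nt.li x =
      (∫ t in (2 : ℝ)..a, 1 / Real.log t) + (∫ t in (a : ℝ)..b, 1 / Real.log t) +
        ∫ t in (b : ℝ)..x, 1 / Real.log t := by
    rw [intervalIntegral.integral_add_adjacent_intervals (Lir_int le_rfl haR) (Lir_int haR habR),
      intervalIntegral.integral_add_adjacent_intervals
        (Lir_int le_rfl (haR.trans habR)) (Lir_int (haR.trans habR) hbx)]
    unfold Pool.Agent.Results.MP_00e23e_nt.li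
    simp only [one_div]
  have hIoc : Ioc a b = Ico (a + 1) (b + 1) := by
    ext n
    simp only [mem_Ioc, mem_Ico]
    omega
  have hup : ∑ n ∈ Ioc a b, (1 / Real.log (n : ℝ)) ≤ ∫ t in (a : ℝ)..b, 1 / Real.log t := by
    have h1 := AntitoneOn.sum_le_integral_Ico (f := fun t : ℝ => 1 / Real.log t) hab
      (Lir_anti.mono (fun t ht => haR.trans ht.1))
    refine le_trans (le_of_eq ?_) h1
    rw [hIoc, ← Finset.sum_Ico_add' (fun n : ℕ => 1 / Real.log (n : ℝ)) a b 1]
  have hlow : (∫ t in (a : ℝ)..b, 1 / Real.log t) - 2 ≤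
      ∑ n ∈ Ioc a b, (1 / Real.log (n : ℝ)) := by
    have h1 := AntitoneOn.integral_le_sum_Ico (f := fun t : ℝ => 1 / Real.log t)
      (Nat.succ_le_succ hab) (Lir_anti.mono (fun t ht => by
        have h2 : ((a + 1 : ℕ) : ℝ) ≤ t := ht.1
        push_cast at h2
        exact le_trans (by linarith) h2))
    rw [hIoc]
    refine le_trans ?_ h1
    push_cast
    have h3 : (∫ t in (a : ℝ)..(a + 1 : ℝ), 1 / Real.log t) +
        (∫ t in (a + 1 : ℝ)..(b + 1 : ℝ), 1 / Real.log t) =
        (∫ t in (a : ℝ)..b, 1 / Real.log t) + ∫ t in (b : ℝ)..(b + 1 : ℝ), 1 / Real.log t := by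
      rw [intervalIntegral.integral_add_adjacent_intervals (Lir_int haR (by linarith))
        (Lir_int (by linarith) (by linarith)),
        intervalIntegral.integral_add_adjacent_intervals (Lir_int haR habR)
        (Lir_int (haR.trans habR) (by linarith))]
    have h4 := (Lir_bounds haR (by linarith : (a : ℝ) ≤ a + 1)).2
    have h5 := (Lir_bounds (haR.trans habR) (by linarith : (b : ℝ) ≤ b + 1)).1
    linarith
  have h6 := Lir_bounds (le_refl (2 : ℝ)) haR
  have h7 := Lir_bounds (haR.trans habR) hbx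
  rw [hli, abs_le]
  constructor <;> linarith [h6.1, h6.2, h7.1, h7.2]

end Pool.Agent.Lib.BV
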