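import Pool.Agent.Lib.BV.SpecL

namespace Pool.Agent.Lib.BV

open Finset Pool.Agent.Lib.EH3

private theorem Lmo_mono (η : ℝ) (P p q : ℕ) (hη : 0 < η) (hP : 1 ≤ P) (hp : P < p) (hpq : p ≤ q) :
    gi η P p ≤ gi η P q := by
  unfold gi
  have hP0 : (0 : ℝ) < P := by exact_mod_cast hP
  have hp0 : (0 : ℝ) < p := by exact_mod_cast (lt_of_le_of_lt (Nat.zero_le _) hp)
  have hpq' : (p : ℝ) ≤ q := by exact_mod_cast hpq
  gcongr

private theorem Lmo_gen (f : ℕ → Prop) (P : ℕ) (hf : ∀ p q, P < p → p ≤ q → f q → f p) (n : ℕ) :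
    ∃ u : ℕ, P ≤ u ∧ u ≤ P + n ∧ ∀ p : ℕ, P < p → p ≤ P + n → (f p ↔ p ≤ u) := by
  classical
  induction n with
  | zero => exact ⟨P, le_refl _, le_refl _, fun p h1 h2 => by omega⟩
  | succ n ih =>
    obtain ⟨u, hu1, hu2, hu3⟩ := ih
    by_cases h : f (P + (n + 1))
    · refine ⟨P + (n + 1), by omega, le_refl _, fun p h1 h2 => ?_⟩
      exact ⟨fun _ => h2, fun _ => hf p (P + (n + 1)) h1 h2 h⟩
    · refine ⟨u, hu1, by omega, fun p h1 h2 => ?_⟩
      rcases Nat.lt_or_ge p (P + (n + 1)) with h3 | h3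
      · exact hu3 p h1 (by omega)
      · have h4 : p = P + (n + 1) := by omega
        subst h4
        exact ⟨fun h5 => absurd h5 h, fun h5 => by omega⟩

theorem tLmo : LmoStmt := by
  intro η P T g hη hP
  obtain ⟨u, hu1, hu2, hu3⟩ := Lmo_gen (fun p => gi η P p + g < T) P
    (fun p q hp hpq hq => lt_of_le_of_lt (Nat.add_le_add_right (Lmo_mono η P p q hη hP hp hpq) g) hq) P
  exact ⟨u, hu1, by omega, fun p h1 h2 => hu3 p h1 (by omega)⟩

end Pool.Agent.Lib.BV
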