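import Pool.Agent.Lib.BV.SpecW

/-!
MP_00e23e_nt, directory Lib/BV, module Lnk: difference of L(s) and L(1), by the mean value
inequality.
-/

namespace Pool.Agent.Lib.BV

open Finset

private theorem Lnk_DS0 {q : ℕ} [NeZero q] (χ : DirichletCharacter ℂ q) {s : ℂ} (hs : 1 < s.re) :
    DS (chf χ) 0 s = DirichletCharacter.LFunction χ s := by
  rw [DirichletCharacter.LFunction_eq_LSeries χ hs]
  unfold DS chf
  simp only [pow_zero, mul_one]

private theorem Lnk_logMul {q : ℕ} (χ : DirichletCharacter ℂ q) (s : ℂ) :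
    LSeries (LSeries.logMul (fun n => χ (n : ZMod q))) s = DS (chf χ) 1 s := by
  unfold DS chf
  congr 1
  funext n
  rw [LSeries.logMul, pow_one, Complex.natCast_log, mul_comm]

private theorem Lnk_deriv {q : ℕ} [NeZero q] (χ : DirichletCharacter ℂ q) {s : ℂ} (hs : 1 < s.re) :
    HasDerivAt (DirichletCharacter.LFunction χ) (-DS (chf χ) 1 s) s := by
  have h1 : HasDerivAt (LSeries (fun n => χ (n : ZMod q)))
      (-LSeries (LSeries.logMul (fun n => χ (n : ZMod q))) s) s := by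
    apply LSeries_hasDerivAt
    rw [DirichletCharacter.absicssaOfAbsConv_eq_one (NeZero.ne q) χ]
    exact_mod_cast hs
  rw [Lnk_logMul] at h1
  refine h1.congr_of_eventuallyEq ?_
  have h2 : {z : ℂ | 1 < z.re} ∈ nhds s := (isOpen_lt continuous_const Complex.continuous_re).mem_nhds hs
  filter_upwards [h2] with z hz
  exact DirichletCharacter.LFunction_eq_LSeries χ hz

private theorem Lnk_ell {q t : ℝ} (hq : 2 ≤ q) (ht : |t| ≤ 1) : ell q t ≤ ell q 1 ∧ 0 ≤ ell q t := by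
  unfold ell
  have h0 : 0 ≤ |t| := abs_nonneg t
  have h1 : (1 : ℝ) ≤ q * (|t| + 2) := by nlinarith
  refine ⟨Real.log_le_log (by linarith) ?_, Real.log_nonneg h1⟩
  rw [abs_one]
  nlinarith

private theorem Lnk_convex : Convex ℝ {z : ℂ | (1 < z.re ∧ z.re ≤ 2) ∧ |z.im| ≤ 1} := by
  have h1 : Convex ℝ {z : ℂ | 1 < z.re} := convex_halfSpace_re_gt 1
  have h2 : Convex ℝ {z : ℂ | z.re ≤ 2} := convex_halfSpace_re_le 2
  have h3 : Convex ℝ {z : ℂ | z.im ≤ 1} := convex_halfSpace_im_le 1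
  have h4 : Convex ℝ {z : ℂ | -1 ≤ z.im} := convex_halfSpace_im_ge (-1)
  have e : {z : ℂ | (1 < z.re ∧ z.re ≤ 2) ∧ |z.im| ≤ 1} =
      (({z : ℂ | 1 < z.re} ∩ {z : ℂ | z.re ≤ 2}) ∩ {z : ℂ | z.im ≤ 1}) ∩ {z : ℂ | -1 ≤ z.im} := by
    ext z
    simp only [Set.mem_ofPred_eq, Set.mem_inter_iff, abs_le]
    tauto
  rw [e]
  exact ((h1.inter h2).inter h3).inter h4

theorem tLnk (h1 : SerStmt) (h2 : ChbStmt) : LnkStmt := by
  obtain ⟨C, hC, hS⟩ := h1 1
  refine ⟨C, hC, ?_⟩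
  intro q _ χ s hq hχ hs1 hs2 hs3
  have hq' : (2 : ℝ) ≤ (q : ℝ) := by exact_mod_cast hq
  have hB := h2.1 q χ (by omega) hχ
  rw [Lnk_DS0 χ hs1]
  have hbound : ∀ z ∈ {z : ℂ | (1 < z.re ∧ z.re ≤ 2) ∧ |z.im| ≤ 1},
      ‖-DS (chf χ) 1 z‖ ≤ C * (ell q 1) ^ 2 := by
    intro z hz
    rw [norm_neg]
    refine (hS (chf χ) q z hq' hB hz.1.1 hz.1.2).trans ?_
    have := Lnk_ell hq' hz.2
    exact mul_le_mul_of_nonneg_left (pow_le_pow_left₀ this.2 this.1 _) hC.le
  have hmv : ∀ η : ℝ, 0 < η → η ≤ 1 →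
      ‖DirichletCharacter.LFunction χ s - DirichletCharacter.LFunction χ (1 + (η : ℂ))‖ ≤
        C * (ell q 1) ^ 2 * ‖s - (1 + (η : ℂ))‖ := by
    intro η h0 h1
    refine Lnk_convex.norm_image_sub_le_of_norm_hasDerivWithin_le
      (f' := fun z => -DS (chf χ) 1 z) (fun z hz => (Lnk_deriv χ hz.1.1).hasDerivWithinAt) hbound
      ?_ ⟨⟨hs1, hs2⟩, hs3⟩
    simp only [Set.mem_ofPred_eq, Complex.add_re, Complex.one_re, Complex.ofReal_re, Complex.add_im,
      Complex.one_im, Complex.ofReal_im, add_zero, abs_zero, zero_le_one, and_true]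
    constructor <;> linarith
  have hcont : Continuous (DirichletCharacter.LFunction χ) :=
    (DirichletCharacter.differentiable_LFunction hχ).continuous
  have hl1 : Filter.Tendsto (fun η : ℝ => ‖DirichletCharacter.LFunction χ s -
      DirichletCharacter.LFunction χ (1 + (η : ℂ))‖) (nhdsWithin 0 (Set.Ioi 0))
      (nhds ‖DirichletCharacter.LFunction χ s - DirichletCharacter.LFunction χ 1‖) := by
    have hc : Continuous (fun η : ℝ => ‖DirichletCharacter.LFunction χ s -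
      DirichletCharacter.LFunction χ (1 + (η : ℂ))‖) := by fun_prop
    have := (hc.tendsto 0).mono_left (nhdsWithin_le_nhds (s := Set.Ioi (0 : ℝ)))
    simpa using this
  have hl2 : Filter.Tendsto (fun η : ℝ => C * (ell q 1) ^ 2 * ‖s - (1 + (η : ℂ))‖)
      (nhdsWithin 0 (Set.Ioi 0)) (nhds (C * (ell q 1) ^ 2 * ‖s - 1‖)) := by
    have hc : Continuous (fun η : ℝ => C * (ell q 1) ^ 2 * ‖s - (1 + (η : ℂ))‖) := by fun_prop
    have := (hc.tendsto 0).mono_left (nhdsWithin_le_nhds (s := Set.Ioi (0 : ℝ)))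
    simpa using this
  have hfin := le_of_tendsto_of_tendsto hl1 hl2 (by
    have h3 : Set.Iic (1 : ℝ) ∈ nhds (0 : ℝ) := Iic_mem_nhds one_pos
    filter_upwards [self_mem_nhdsWithin, mem_nhdsWithin_of_mem_nhds h3] with η h4 h5
    exact hmv η h4 h5)
  calc _ ≤ C * (ell q 1) ^ 2 * ‖s - 1‖ := hfin
    _ = C * ‖s - 1‖ * (ell q 1) ^ 2 := by ring

end Pool.Agent.Lib.BV
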