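import Pool.Agent.Lib.BV.SpecH

namespace Pool.Agent.Lib.BV

open Finset

private lemma Lo1_one_le_ell (q : ℕ) (t : ℝ) (hq : 2 ≤ q) : 1 ≤ ell q t := by
  unfold ell
  have hq' : (2 : ℝ) ≤ q := by exact_mod_cast hq
  have ht : 0 ≤ |t| := abs_nonneg t
  have h4 : (4 : ℝ) ≤ (q : ℝ) * (|t| + 2) := by nlinarith
  have he : Real.exp 1 ≤ (q : ℝ) * (|t| + 2) := by
    have := Real.exp_one_lt_d9
    linarith
  have := Real.log_le_log (Real.exp_pos 1) he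
  rwa [Real.log_exp] at this

private lemma Lo1_ell_two (q : ℕ) (t : ℝ) (hq : 2 ≤ q) : ell q (2 * t) ≤ 2 * ell q t := by
  unfold ell
  have hq' : (2 : ℝ) ≤ q := by exact_mod_cast hq
  have ht : 0 ≤ |t| := abs_nonneg t
  have h4 : (4 : ℝ) ≤ (q : ℝ) * (|t| + 2) := by nlinarith
  have h2t : |2 * t| = 2 * |t| := by rw [abs_mul]; norm_num
  have hle : (q : ℝ) * (|2 * t| + 2) ≤ ((q : ℝ) * (|t| + 2)) ^ 2 := by
    rw [h2t]
    have : (q : ℝ) * (2 * |t| + 2) ≤ 2 * ((q : ℝ) * (|t| + 2)) := by nlinarith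
    nlinarith
  have hpos : (0 : ℝ) < (q : ℝ) * (|2 * t| + 2) := by positivity
  have := Real.log_le_log hpos hle
  rw [Real.log_pow] at this
  exact_mod_cast this

theorem tLo1 (h1 : GloStmt) (h2 : SerStmt) (h3 : ChbStmt) : Lo1Stmt := by
  obtain ⟨C1, hC1, hS1⟩ := h2 1
  obtain ⟨C0, hC0, hS0⟩ := h2 0
  have hK : 0 < 128 * (1 + C1) ^ 3 * (1 + 2 * C0) := by positivity
  refine ⟨1 / (128 * (1 + C1) ^ 3 * (1 + 2 * C0)), by positivity, ?_⟩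
  intro q χ s hq hχ hs1 hs2
  have hq' : (2 : ℝ) ≤ (q : ℝ) := by exact_mod_cast hq
  have hq1 : 1 ≤ q := by omega
  have hχ1 : χ ≠ 1 := by
    rintro rfl
    exact hχ (one_pow 2)
  set e : ℝ := ell q s.im with he
  have he1 : 1 ≤ e := Lo1_one_le_ell q s.im hq
  have he2 : ell q (2 * s.im) ≤ 2 * e := Lo1_ell_two q s.im hq
  have hesq : 1 ≤ e ^ 2 := one_le_pow₀ he1
  have hV : 1 ≤ (1 + C1) * e ^ 2 := by nlinarith
  have hW : 1 ≤ (1 + 2 * C0) * e := by nlinarith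
  have hb1 := h3.1 q χ hq1 hχ1
  have hb2 := h3.1 q (χ ^ 2) hq1 hχ
  have hVb : ∀ σ : ℝ, 1 < σ → σ ≤ 2 →
      ‖DS (chf χ) 1 (σ + (s.im : ℝ) * Complex.I)‖ ≤ (1 + C1) * e ^ 2 := by
    intro σ hσ1 hσ2
    have hre : ((σ : ℂ) + (s.im : ℝ) * Complex.I).re = σ := by simp
    have him : ((σ : ℂ) + (s.im : ℝ) * Complex.I).im = s.im := by simp
    have := hS1 (chf χ) q ((σ : ℂ) + (s.im : ℝ) * Complex.I) hq' hb1 (by rw [hre]; exact hσ1)
      (by rw [hre]; exact hσ2)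
    rw [him] at this
    have h' : C1 * ell (q : ℝ) s.im ^ (1 + 1) ≤ (1 + C1) * e ^ 2 := by
      rw [← he]
      norm_num
      nlinarith
    exact this.trans h'
  have hWb : ∀ σ : ℝ, 1 < σ → σ ≤ 2 →
      ‖DS (chf (χ ^ 2)) 0 (σ + 2 * (s.im : ℝ) * Complex.I)‖ ≤ (1 + 2 * C0) * e := by
    intro σ hσ1 hσ2
    have hre : ((σ : ℂ) + 2 * (s.im : ℝ) * Complex.I).re = σ := by simp
    have him : ((σ : ℂ) + 2 * (s.im : ℝ) * Complex.I).im = 2 * s.im := by simp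
    have := hS0 (chf (χ ^ 2)) q ((σ : ℂ) + 2 * (s.im : ℝ) * Complex.I) hq' hb2
      (by rw [hre]; exact hσ1) (by rw [hre]; exact hσ2)
    rw [him] at this
    have h' : C0 * ell (q : ℝ) (2 * s.im) ^ (0 + 1) ≤ (1 + 2 * C0) * e := by
      rw [zero_add, pow_one]
      nlinarith
    exact this.trans h'
  have key := h1 q χ s.im ((1 + C1) * e ^ 2) ((1 + 2 * C0) * e) hq1 hV hW hVb hWb s.re hs1 hs2
  rw [Complex.re_add_im] at key
  rw [div_le_iff₀ hK]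
  calc (1 : ℝ) ≤ 128 * ‖DS (chf χ) 0 s‖ * ((1 + C1) * e ^ 2) ^ 3 * ((1 + 2 * C0) * e) := key
    _ = ‖DS (chf χ) 0 s‖ * e ^ 7 * (128 * (1 + C1) ^ 3 * (1 + 2 * C0)) := by ring

end Pool.Agent.Lib.BV
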