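import Pool.Agent.Lib.BV.SpecW

/-!
MP_00e23e_nt, Lib/BV: lower bound for L(s, χ) in Re s > 1 with Siegel's theorem (module LoF).
-/

namespace Pool.Agent.Lib.BV

open Finset

private lemma LoF_ell_ge (q : ℕ) (t : ℝ) (hq : 2 ≤ q) : 1 ≤ ell q t := by
  unfold ell
  have hq' : (2 : ℝ) ≤ q := by exact_mod_cast hq
  have h1 : (4 : ℝ) ≤ q * (|t| + 2) := by nlinarith [abs_nonneg t]
  have h2 : Real.log 4 ≤ Real.log (q * (|t| + 2)) := Real.log_le_log (by norm_num) h1
  have h3 : (1 : ℝ) ≤ Real.log 4 := by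
    have : Real.log 4 = 2 * Real.log 2 := by
      rw [show (4 : ℝ) = 2 ^ 2 by norm_num, Real.log_pow]; norm_num
    rw [this]; linarith [Real.log_two_gt_d9]
  linarith

private lemma LoF_ell_one (q : ℕ) (t : ℝ) (hq : 2 ≤ q) : ell q 1 ≤ 2 * ell q t := by
  unfold ell
  have hq' : (2 : ℝ) ≤ q := by exact_mod_cast hq
  have h0 : (0 : ℝ) ≤ |t| := abs_nonneg t
  rw [show (2 : ℝ) * Real.log (q * (|t| + 2)) = Real.log ((q * (|t| + 2)) ^ 2) by
    rw [Real.log_pow]; norm_num]
  apply Real.log_le_log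
  · simp only [abs_one]; positivity
  · simp only [abs_one]
    nlinarith [mul_nonneg (by linarith : (0:ℝ) ≤ q) h0, sq_nonneg ((q : ℝ) * |t|)]

private lemma LoF_ne_one (q : ℕ) (χ : DirichletCharacter ℂ q) (hq : 2 ≤ q) (hχ : χ.IsPrimitive) :
    χ ≠ 1 := by
  haveI : NeZero q := ⟨by omega⟩
  rintro rfl
  have h1 : (1 : DirichletCharacter ℂ q).conductor = q := hχ
  rw [DirichletCharacter.conductor_one] at h1
  omega

theorem tLoF (h1 : Lo1Stmt) (h2 : Lo2Stmt) (h3 : TrlStmt) (h4 : LnkStmt) (h5 : SieWStmt) :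
    LoFStmt := by
  intro ε hε
  obtain ⟨c1, hc1, H1⟩ := h1
  obtain ⟨c2, hc2, H2⟩ := h2
  obtain ⟨C, hC, H4⟩ := h4
  obtain ⟨c3, hc3, H5⟩ := h5 ε hε
  set κ : ℝ := min 1 (c3 / (2 * C)) with hκ
  have hκ0 : 0 < κ := lt_min one_pos (by positivity)
  have hκ1 : κ ≤ 1 := min_le_left _ _
  have hκC : C * κ ≤ c3 / 2 := by
    have : κ ≤ c3 / (2 * C) := min_le_right _ _
    calc C * κ ≤ C * (c3 / (2 * C)) := by gcongr
      _ = c3 / 2 := by field_simp
  refine ⟨min (min c1 (c3 / 2)) (min (c2 * κ / 12) (κ / 16)), ?_, ?_⟩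
  · apply lt_min (lt_min hc1 (by positivity)) (lt_min (by positivity) (by positivity))
  intro q χ s hq hχ hs1 hs2
  have hq' : (2 : ℝ) ≤ q := by exact_mod_cast hq
  have hq0 : (0 : ℝ) < q := by linarith
  have hne := LoF_ne_one q χ hq hχ
  set e := ell q s.im with he
  have he1 : 1 ≤ e := LoF_ell_ge q s.im hq
  have he0 : 0 < e := by linarith
  set E := ell q 1 with hE
  have hE1 : 1 ≤ E := LoF_ell_ge q 1 hq
  have hE0 : 0 < E := by linarith
  have hEe : E ≤ 2 * e := LoF_ell_one q s.im hq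
  set Q := (q : ℝ) ^ ε with hQ
  have hQ1 : 1 ≤ Q := Real.one_le_rpow (by linarith) hε.le
  have hQ0 : 0 < Q := by linarith
  have hQi : (q : ℝ) ^ (-ε) = 1 / Q := by rw [Real.rpow_neg hq0.le, hQ, one_div]
  set N := ‖DS (chf χ) 0 s‖ with hN
  have hN0 : 0 ≤ N := norm_nonneg _
  have hep : ∀ a b : ℕ, a ≤ b → e ^ a ≤ e ^ b := fun a b hab => pow_le_pow_right₀ he1 hab
  by_cases hsq : χ ^ 2 = 1
  · -- quadratic
    haveI : NeZero q := ⟨by omega⟩
    have hSie := H5 q χ (by omega) hχ hsq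
    rw [hQi] at hSie
    have hL1 : c3 / Q ≤ ‖DirichletCharacter.LFunction χ 1‖ := by
      calc c3 / Q = c3 * (1 / Q) := by ring
        _ ≤ _ := hSie
        _ ≤ _ := Complex.re_le_norm _
    set d0 : ℝ := κ / (Q * E ^ 2) with hd0
    have hd0p : 0 < d0 := by positivity
    have hd01 : d0 ≤ 1 := by
      rw [hd0, div_le_one (by positivity)]
      calc κ ≤ 1 := hκ1
        _ = 1 * 1 ^ 2 := by norm_num
        _ ≤ Q * E ^ 2 := by gcongr
    by_cases hcase : ‖s - 1‖ ≤ d0
    · -- B1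
      have him : |s.im| ≤ 1 := by
        have : |(s - 1).im| ≤ ‖s - 1‖ := Complex.abs_im_le_norm _
        simp only [Complex.sub_im, Complex.one_im, sub_zero] at this
        linarith
      have hk := H4 q χ s hq hne hs1 hs2 him
      have hk2 : ‖DirichletCharacter.LFunction χ 1‖ - N ≤ C * ‖s - 1‖ * E ^ 2 := by
        calc ‖DirichletCharacter.LFunction χ 1‖ - N ≤ ‖DirichletCharacter.LFunction χ 1 - DS (chf χ) 0 s‖ :=
              norm_sub_norm_le _ _
          _ = ‖DS (chf χ) 0 s - DirichletCharacter.LFunction χ 1‖ := norm_sub_rev _ _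
          _ ≤ _ := hk
      have hk3 : C * ‖s - 1‖ * E ^ 2 ≤ (c3 / 2) / Q := by
        calc C * ‖s - 1‖ * E ^ 2 ≤ C * d0 * E ^ 2 := by gcongr
          _ = (C * κ) / Q := by rw [hd0]; field_simp
          _ ≤ (c3 / 2) / Q := by gcongr
      have hNQ : c3 / 2 / Q ≤ N := by
        have : c3 / Q = c3 / 2 / Q + c3 / 2 / Q := by ring
        linarith
      have hNQ2 : c3 / 2 ≤ N * Q := by rwa [div_le_iff₀ hQ0] at hNQ
      calc min (min c1 (c3 / 2)) (min (c2 * κ / 12) (κ / 16)) ≤ c3 / 2 :=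
            le_trans (min_le_left _ _) (min_le_right _ _)
        _ ≤ N * Q := hNQ2
        _ = N * Q * e ^ 0 := by ring
        _ ≤ N * Q * e ^ 9 := by
            apply mul_le_mul_of_nonneg_left (hep 0 9 (by norm_num)) (by positivity)
    · push Not at hcase
      by_cases him : d0 / 2 ≤ |s.im|
      · -- B2
        have him0 : 0 < |s.im| := by linarith
        have hne0 : s.im ≠ 0 := abs_pos.mp him0
        have hlo := H2 q χ s hq hne hne0 hs1 hs2
        have hb : 1 + 1 / |s.im| ≤ 3 / d0 := by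
          have h1 : 1 / |s.im| ≤ 2 / d0 := by
            rw [div_le_div_iff₀ him0 hd0p]; linarith
          have h2 : (1 : ℝ) ≤ 1 / d0 := by rw [le_div_iff₀ hd0p]; linarith
          calc 1 + 1 / |s.im| ≤ 1 / d0 + 2 / d0 := by linarith
            _ = 3 / d0 := by ring
        have hb2 : 3 / d0 ≤ 12 * Q * e ^ 2 / κ := by
          have : 3 / d0 = 3 * Q * E ^ 2 / κ := by rw [hd0]; field_simp
          rw [this]
          have hE2 : E ^ 2 ≤ 4 * e ^ 2 := by
            calc E ^ 2 ≤ (2 * e) ^ 2 := by gcongr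
              _ = 4 * e ^ 2 := by ring
          gcongr ?_ / κ
          calc 3 * Q * E ^ 2 ≤ 3 * Q * (4 * e ^ 2) := by gcongr
            _ = 12 * Q * e ^ 2 := by ring
        have hfin : c2 ≤ N * e ^ 7 * (12 * Q * e ^ 2 / κ) := by
          calc c2 ≤ N * e ^ 7 * (1 + 1 / |s.im|) := hlo
            _ ≤ N * e ^ 7 * (12 * Q * e ^ 2 / κ) := by
                apply mul_le_mul_of_nonneg_left (le_trans hb hb2) (by positivity)
        have hfin2 : c2 * κ / 12 ≤ N * Q * e ^ 9 := by
          have : N * e ^ 7 * (12 * Q * e ^ 2 / κ) = 12 / κ * (N * Q * e ^ 9) := by ring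
          rw [this] at hfin
          rw [div_le_iff₀ (by norm_num : (0:ℝ) < 12)]
          calc c2 * κ ≤ (12 / κ * (N * Q * e ^ 9)) * κ := by gcongr
            _ = N * Q * e ^ 9 * 12 := by field_simp
        exact le_trans (le_trans (min_le_right _ _) (min_le_left _ _)) hfin2
      · -- B3
        push Not at him
        have hre : ‖s - 1‖ ≤ (s.re - 1) + |s.im| := by
          have := Complex.norm_le_abs_re_add_abs_im (s - 1)
          simp only [Complex.sub_re, Complex.one_re, Complex.sub_im, Complex.one_im, sub_zero] at this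
          rwa [abs_of_pos (by linarith : 0 < s.re - 1)] at this
        have hre2 : d0 / 2 < s.re - 1 := by linarith
        have htr := h3 q χ s (by omega) hs1 hs2
        have hNd : d0 / 4 ≤ N := by
          calc d0 / 4 ≤ (s.re - 1) / 2 := by linarith
            _ ≤ N := htr
        have hd0e : κ / 16 ≤ (d0 / 4) * Q * e ^ 2 := by
          have : (d0 / 4) * Q * e ^ 2 = κ * e ^ 2 / (4 * E ^ 2) := by rw [hd0]; field_simp
          rw [this, div_le_div_iff₀ (by norm_num) (by positivity)]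
          have hE2 : E ^ 2 ≤ 4 * e ^ 2 := by
            calc E ^ 2 ≤ (2 * e) ^ 2 := by gcongr
              _ = 4 * e ^ 2 := by ring
          nlinarith [mul_le_mul_of_nonneg_left hE2 hκ0.le]
        calc min (min c1 (c3 / 2)) (min (c2 * κ / 12) (κ / 16)) ≤ κ / 16 :=
              le_trans (min_le_right _ _) (min_le_right _ _)
          _ ≤ (d0 / 4) * Q * e ^ 2 := hd0e
          _ ≤ N * Q * e ^ 2 := by gcongr
          _ ≤ N * Q * e ^ 9 := by
              apply mul_le_mul_of_nonneg_left (hep 2 9 (by norm_num)) (by positivity)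
  · have hlo := H1 q χ s hq hsq hs1 hs2
    calc min (min c1 (c3 / 2)) (min (c2 * κ / 12) (κ / 16)) ≤ c1 :=
          le_trans (min_le_left _ _) (min_le_left _ _)
      _ ≤ N * e ^ 7 := hlo
      _ = N * 1 * e ^ 7 := by ring
      _ ≤ N * Q * e ^ 9 := by
          apply mul_le_mul (by gcongr) (hep 7 9 (by norm_num)) (by positivity) (by positivity)

end Pool.Agent.Lib.BV
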