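import Pool.Agent.Lib.BV.SpecL

/-!
MP_00e23e_nt, Lib/BV, module Low: low conductors of the bilinear part, assembly.
-/

namespace Pool.Agent.Lib.BV

open Finset Pool.Agent.Lib.EH3

/-- norm of del by the norms of the character sums -/
private theorem Low_del (c : ℕ → Prop) (f : ℕ → ℂ) (N d l : ℕ) (M : ℝ) (T : ℝ) (hM : 0 ≤ M)
    (hd : 1 ≤ d)
    (hcard : ∀ S : Finset (DirichletCharacter ℂ d), (∀ χ ∈ S, c χ.conductor) → (S.card : ℝ) ≤ T)
    (hcs : ∀ χ : DirichletCharacter ℂ d, c χ.conductor → ‖cs f N 1 χ‖ ≤ M) :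
    ‖del c f N d l‖ ≤ 1 / (d.totient : ℝ) * (T * M) := by
  classical
  haveI : NeZero d := ⟨by omega⟩
  unfold del
  rw [norm_mul]
  have h1 : ‖(1 / (d.totient : ℂ))‖ = 1 / (d.totient : ℝ) := by
    rw [norm_div, norm_one, Complex.norm_natCast]
  rw [h1]
  apply mul_le_mul_of_nonneg_left _ (by positivity)
  refine le_trans (norm_sum_le _ _) ?_
  refine le_trans (Finset.sum_le_card_nsmul _ _ M ?_) ?_
  · intro χ hχ
    have h3 := (Finset.mem_filter.mp hχ).2
    rw [norm_mul]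
    have h4 : ‖χ ((l : ZMod d)⁻¹)‖ ≤ 1 := DirichletCharacter.norm_le_one χ _
    calc ‖χ ((l : ZMod d)⁻¹)‖ * ‖cs f N 1 χ‖ ≤ 1 * M :=
          mul_le_mul h4 (hcs χ h3) (norm_nonneg _) zero_le_one
      _ = M := one_mul M
  · rw [nsmul_eq_mul]
    apply mul_le_mul_of_nonneg_right _ hM
    exact hcard _ (fun χ hχ => (Finset.mem_filter.mp hχ).2)

theorem tLow (h1 : CndStmt) (h2 : LswStmt) (h3 : LctStmt) (h4 : LftStmt) : LowStmt := by
  intro A B hA hB
  obtain ⟨C1, x1, hC1, hx1, H⟩ := h2 (A + 2 * B + 2) B (by linarith) hB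
  refine ⟨9 * C1, max x1 4, by positivity, ?_⟩
  intro x η z K J Q d l y hx hη hη2 hz _ hd hdx hQ hy
  have hxx1 : x1 ≤ x := le_trans (le_max_left _ _) hx
  have hx4 : 4 ≤ x := le_trans (le_max_right _ _) hx
  have hxpos : 0 < x := by linarith
  set L : ℝ := Real.log x with hL
  have hL1 : 1 ≤ L := by
    have h5 : Real.exp 1 ≤ x := by
      have := Real.exp_one_lt_d9
      linarith
    have h6 := Real.log_le_log (Real.exp_pos 1) h5
    rw [Real.log_exp] at h6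
    exact h6
  have hLpos : 0 < L := by linarith
  have hlogz : 1 ≤ Real.log z := by
    have h7 : (1 : ℝ) ≤ Real.sqrt L := Real.one_le_sqrt.mpr hL1
    linarith
  have hz1 : 1 ≤ z := by
    rcases Nat.eq_zero_or_pos z with h0 | h0
    · rw [h0] at hlogz
      simp at hlogz
      linarith
    · exact h0
  have hz1' : (1 : ℝ) ≤ (z : ℝ) := by exact_mod_cast hz1
  set D : ℝ := L ^ (A + 2 * B + 2) with hD
  have hDpos : 0 < D := Real.rpow_pos_of_pos hLpos _
  have hM0 : 0 ≤ (1 + 2 * L) ^ 2 * (C1 * (x / D)) := by positivity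
  have hcs : ∀ χ : DirichletCharacter ℂ d, (1 < χ.conductor ∧ χ.conductor ≤ Q) →
      ‖cs (fun n => (FY η z K J y n : ℂ)) (4 * ⌊x⌋₊) 1 χ‖ ≤ (1 + 2 * L) ^ 2 * (C1 * (x / D)) := by
    intro χ hχ
    have hcond : (χ.conductor : ℝ) ≤ L ^ B := le_trans (by exact_mod_cast hχ.2) hQ
    have h5 := h4 x η y z K J d χ (fun k => C1 * (((z * 2 ^ k : ℕ) : ℝ) / D)) hx4 hη hη2 hy hz1 (by
      intro k u hu1 hu2
      refine H x (z * 2 ^ k) d u χ hxx1 ?_ hd hdx hχ.1 hcond hu1 hu2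
      refine le_trans hz ?_
      apply Real.log_le_log (by linarith)
      push_cast
      have : (1 : ℝ) ≤ 2 ^ k := one_le_pow₀ (by norm_num)
      nlinarith)
    refine le_trans h5 ?_
    refine h3 x (C1 * (x / D)) z K J _ (by linarith) hz1 (by positivity) ?_ ?_
    · intro k j
      split_ifs with hc
      · have h6 : (2 : ℝ) ^ j * ((z : ℝ) * 2 ^ k) * (C1 * (((z * 2 ^ k : ℕ) : ℝ) / D)) =
            C1 * (((2 : ℝ) ^ j * ((z : ℝ) * 2 ^ k) ^ 2) / D) := by
          push_cast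
          ring
        rw [h6]
        gcongr
      · positivity
    · intro k j hc
      rw [if_neg (not_le.mpr hc)]
  have hfin := Low_del (fun c => 1 < c ∧ c ≤ Q) (fun n => (FY η z K J y n : ℂ)) (4 * ⌊x⌋₊) d l
    ((1 + 2 * L) ^ 2 * (C1 * (x / D))) ((Q : ℝ) ^ 2) hM0 hd (by
      intro S hS
      refine le_trans ?_ (h1 d Q hd)
      exact_mod_cast Finset.card_le_card (fun χ hχ => Finset.mem_filter.mpr ⟨Finset.mem_univ _, hS χ hχ⟩)) hcs
  refine le_trans hfin ?_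
  apply mul_le_mul_of_nonneg_left _ (by positivity)
  have hQ2 : (Q : ℝ) ^ 2 ≤ L ^ (2 * B) := by
    have h8 : L ^ (2 * B) = (L ^ B) ^ 2 := by
      rw [mul_comm, Real.rpow_mul hLpos.le, Real.rpow_two]
    rw [h8]
    exact pow_le_pow_left₀ (Nat.cast_nonneg _) hQ 2
  have hDeq : D = L ^ A * (L ^ (2 * B) * L ^ 2) := by
    rw [hD, Real.rpow_add hLpos, Real.rpow_add hLpos, Real.rpow_two]
    ring
  have hLA : 0 < L ^ A := Real.rpow_pos_of_pos hLpos _
  have hLB : 0 < L ^ (2 * B) := Real.rpow_pos_of_pos hLpos _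
  have h9 : (1 + 2 * L) ^ 2 ≤ 9 * L ^ 2 := by nlinarith
  calc (Q : ℝ) ^ 2 * ((1 + 2 * L) ^ 2 * (C1 * (x / D)))
      ≤ L ^ (2 * B) * (9 * L ^ 2 * (C1 * (x / D))) := by
        apply mul_le_mul hQ2 _ (by positivity) hLB.le
        apply mul_le_mul_of_nonneg_right h9 (by positivity)
    _ = 9 * C1 * (x / L ^ A) := by
        rw [hDeq]
        have hLne : L ≠ 0 := hLpos.ne'
        field_simp

end Pool.Agent.Lib.BV
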