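import Pool.Agent.Lib.BV.SpecA

/-!
MP_00e23e_nt, Lib/BV, module Lsm: multiplicative large sieve.
-/

namespace Pool.Agent.Lib.BV

open Finset Pool.Agent.Lib.EH3

theorem Lsm_prim (h2 : GauStmt) (q N : ℕ) (a : ℕ → ℂ) (hq : 1 ≤ q) (χ : DirichletCharacter ℂ q)
    (hχ : χ.IsPrimitive) :
    (q : ℝ) * ‖∑ n ∈ Icc 1 N, a n * χ (n : ZMod q)‖ ^ 2 =
      ‖∑ b ∈ (range q).filter (fun b => b.Coprime q), χ⁻¹ (b : ZMod q) *
        ∑ n ∈ Icc 1 N, a n * ee (n * ((b : ℝ) / q))‖ ^ 2 := by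
  obtain ⟨G, hG, hG'⟩ := h2 q χ hq hχ
  have h : (∑ n ∈ Icc 1 N, a n * χ (n : ZMod q)) * G =
      ∑ b ∈ (range q).filter (fun b => b.Coprime q), χ⁻¹ (b : ZMod q) *
        ∑ n ∈ Icc 1 N, a n * ee (n * ((b : ℝ) / q)) := by
    simp only [mul_sum]
    rw [sum_comm, sum_mul]
    refine sum_congr rfl fun n _ => ?_
    rw [mul_assoc, hG' n, mul_sum]
    refine sum_congr rfl fun b _ => ?_
    ring
  rw [← h, norm_mul, mul_pow, hG, mul_comm]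

theorem Lsm_q (h2 : GauStmt) (h3 : OrtStmt) (q N : ℕ) (a : ℕ → ℂ) (hq : 1 ≤ q) :
    (q : ℝ) / (q.totient : ℝ) * ∑ χ ∈ prim q, ‖∑ n ∈ Icc 1 N, a n * χ (n : ZMod q)‖ ^ 2 ≤
      ∑ b ∈ (range q).filter (fun b => b.Coprime q),
        ‖∑ n ∈ Icc 1 N, a n * ee (n * ((b : ℝ) / q))‖ ^ 2 := by
  have hφ : (0 : ℝ) < (q.totient : ℝ) := by
    have h := Nat.totient_pos.2 (show 0 < q by omega)
    exact_mod_cast h
  rw [div_mul_eq_mul_div, div_le_iff₀ hφ, mul_comm _ (q.totient : ℝ), ← h3 q _ hq, mul_sum]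
  have h : ∑ χ ∈ prim q, (q : ℝ) * ‖∑ n ∈ Icc 1 N, a n * χ (n : ZMod q)‖ ^ 2 =
      ∑ χ ∈ prim q, ‖∑ b ∈ (range q).filter (fun b => b.Coprime q), χ⁻¹ (b : ZMod q) *
        ∑ n ∈ Icc 1 N, a n * ee (n * ((b : ℝ) / q))‖ ^ 2 := by
    refine sum_congr rfl fun χ hχ => ?_
    unfold prim at hχ
    exact Lsm_prim h2 q N a hq χ (by simpa using hχ)
  rw [h]
  exact sum_le_sum_of_subset_of_nonneg (subset_univ _) (fun χ _ _ => sq_nonneg _)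

theorem tLsm (h1 : FarStmt) (h2 : GauStmt) (h3 : OrtStmt) : LsmStmt := by
  intro Q N a hQ
  refine le_trans (sum_le_sum fun q hq => ?_) (h1 Q N a hQ)
  rw [mem_Icc] at hq
  exact Lsm_q h2 h3 q N a (by omega)

end Pool.Agent.Lib.BV
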