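import Pool.Agent.Lib.BV.SpecL

/-!
MP_00e23e_nt, Lib/BV, module Lsw: Siegel-Walfisz on a block.
-/

namespace Pool.Agent.Lib.BV

open Finset Pool.Agent.Lib.EH3

private theorem Lsw_asy (A : ℝ) (hA : 0 < A) :
    ∃ x0 : ℝ, 3 ≤ x0 ∧ ∀ x : ℝ, x0 ≤ x → 100 ≤ Real.log x ∧
      (Real.log x) ^ (A + 1) ≤ Real.exp (Real.sqrt (Real.log x)) := by
  have h := (isLittleO_log_rpow_atTop (r := 1 / 2) (by norm_num)).bound
    (c := 1 / (A + 1)) (by positivity)
  obtain ⟨L0, hL0⟩ :=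
    (h.and (Filter.eventually_ge_atTop (100 : ℝ))).exists_forall_of_atTop
  refine ⟨max 3 (Real.exp L0), le_max_left _ _, fun x hx => ?_⟩
  have hx3 : (3 : ℝ) ≤ x := le_trans (le_max_left _ _) hx
  have hxL : L0 ≤ Real.log x := by
    rw [Real.le_log_iff_exp_le (by linarith)]
    exact le_trans (le_max_right _ _) hx
  obtain ⟨h1, h2⟩ := hL0 _ hxL
  refine ⟨h2, ?_⟩
  have hLpos : 0 < Real.log x := by linarith
  rw [Real.rpow_def_of_pos hLpos]
  apply Real.exp_le_exp.mpr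
  have h3 : Real.log (Real.log x) ≤ 1 / (A + 1) * Real.sqrt (Real.log x) := by
    rw [Real.sqrt_eq_rpow]
    refine le_trans (le_abs_self _) ?_
    rw [Real.norm_eq_abs, Real.norm_eq_abs,
      abs_of_nonneg (Real.rpow_nonneg (by linarith) _)] at h1
    exact h1
  calc Real.log (Real.log x) * (A + 1) ≤ (1 / (A + 1) * Real.sqrt (Real.log x)) * (A + 1) :=
        mul_le_mul_of_nonneg_right h3 (by linarith)
    _ = Real.sqrt (Real.log x) := by field_simp

theorem tLsw (h1 : SwStmt) (h2 : LpcStmt) : LswStmt := by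
  intro A B hA hB
  obtain ⟨C1, hC1, hSw⟩ := h1 (2 * A) (2 * B) (by linarith) (by linarith)
  obtain ⟨x0, hx0, hasy⟩ := Lsw_asy A hA
  refine ⟨4 * C1 + 4, x0, by linarith, hx0, ?_⟩
  intro x P d u χ hx hP hd hdx hc1 hc hPu hu2
  obtain ⟨hL100, hexp⟩ := hasy x hx
  set L := Real.log x with hL
  have hL0 : 0 < L := by linarith
  set v := Real.sqrt L with hv
  have hv0 : 0 < v := Real.sqrt_pos.2 hL0
  have hv2 : 2 ≤ v := by
    apply Real.le_sqrt_of_sq_le
    linarith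
  have hP0 : (0 : ℝ) < P := by
    by_contra hcon
    have e1 : (P : ℝ) = 0 := le_antisymm (not_lt.1 hcon) (Nat.cast_nonneg _)
    rw [e1, Real.log_zero] at hP
    linarith
  have hPv : Real.exp v ≤ P := by
    rw [← Real.le_log_iff_exp_le hP0]
    exact hP
  have hP3 : (3 : ℝ) ≤ P := by
    have e1 : v + 1 ≤ Real.exp v := Real.add_one_le_exp v
    linarith
  have hvv : v ^ (2 * A) = L ^ A := by
    rw [hv, Real.sqrt_eq_rpow, ← Real.rpow_mul hL0.le]
    congr 1
    ring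
  have hvB : v ^ (2 * B) = L ^ B := by
    rw [hv, Real.sqrt_eq_rpow, ← Real.rpow_mul hL0.le]
    congr 1
    ring
  have hLA : 0 < L ^ A := Real.rpow_pos_of_pos hL0 A
  -- the primitive character
  have hprim : ∀ w : ℕ, P ≤ w → w ≤ 2 * P →
      ‖∑ p ∈ (Icc 1 w).filter Nat.Prime, χ.primitiveCharacter (p : ZMod χ.conductor)‖ ≤
        2 * C1 * (P / L ^ A) := by
    intro w hw hw2
    have hwP : (P : ℝ) ≤ w := by exact_mod_cast hw
    have hw2P : (w : ℝ) ≤ 2 * P := by exact_mod_cast hw2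
    have hlw : v ≤ Real.log w := hP.trans (Real.log_le_log hP0 hwP)
    have hq : (χ.conductor : ℝ) ≤ (Real.log (w : ℝ)) ^ (2 * B) := by
      refine hc.trans ?_
      rw [← hvB]
      exact Real.rpow_le_rpow hv0.le hlw (by linarith)
    have h3 := hSw (w : ℝ) χ.conductor χ.primitiveCharacter (by linarith) (by omega) hq
      χ.primitiveCharacter_isPrimitive
    rw [Nat.floor_natCast] at h3
    refine h3.trans ?_
    have h4 : L ^ A ≤ (Real.log (w : ℝ)) ^ (2 * A) := by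
      rw [← hvv]
      exact Real.rpow_le_rpow hv0.le hlw (by linarith)
    have h5 : (w : ℝ) / (Real.log (w : ℝ)) ^ (2 * A) ≤ 2 * P / L ^ A :=
      div_le_div₀ (by linarith) hw2P hLA h4
    calc C1 * ((w : ℝ) / (Real.log (w : ℝ)) ^ (2 * A)) ≤ C1 * (2 * P / L ^ A) :=
          mul_le_mul_of_nonneg_left h5 hC1.le
      _ = 2 * C1 * (P / L ^ A) := by ring
  have hlogd : 2 * Real.log d ≤ 2 * (P / L ^ A) := by
    have hx3 : 3 ≤ x := hx0.trans hx
    have e1 : Real.log d ≤ L := Real.log_le_log (by exact_mod_cast hd) hdx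
    have e2 : L * L ^ A ≤ P := by
      calc L * L ^ A = L ^ (A + 1) := by
            rw [Real.rpow_add hL0, Real.rpow_one]
            ring
        _ ≤ P := hexp.trans hPv
    have e3 : L ≤ P / L ^ A := by
      rw [le_div_iff₀ hLA]
      exact e2
    linarith
  have hall : ∀ w : ℕ, P ≤ w → w ≤ 2 * P →
      ‖∑ p ∈ (Icc 1 w).filter Nat.Prime, χ (p : ZMod d)‖ ≤ (2 * C1 + 2) * (P / L ^ A) := by
    intro w hw hw2
    have e1 := hprim w hw hw2
    have e2 := h2 d w χ hd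
    have e3 := norm_sub_norm_le (∑ p ∈ (Icc 1 w).filter Nat.Prime, χ (p : ZMod d))
      (∑ p ∈ (Icc 1 w).filter Nat.Prime, χ.primitiveCharacter (p : ZMod χ.conductor))
    linarith
  have hsplit : ∑ p ∈ (Ioc P u).filter Nat.Prime, χ (p : ZMod d) =
      ∑ p ∈ (Icc 1 u).filter Nat.Prime, χ (p : ZMod d) -
        ∑ p ∈ (Icc 1 P).filter Nat.Prime, χ (p : ZMod d) := by
    rw [eq_sub_iff_add_eq, ← Finset.sum_union]
    · refine Finset.sum_congr ?_ fun _ _ => rfl
      ext p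
      simp only [Finset.mem_union, Finset.mem_filter, Finset.mem_Ioc, Finset.mem_Icc]
      constructor
      · rintro (⟨⟨h3, h4⟩, h5⟩ | ⟨⟨h3, h4⟩, h5⟩)
        · exact ⟨⟨by omega, h4⟩, h5⟩
        · exact ⟨⟨h3, by omega⟩, h5⟩
      · rintro ⟨⟨h3, h4⟩, h5⟩
        by_cases h6 : P < p
        · exact Or.inl ⟨⟨h6, h4⟩, h5⟩
        · exact Or.inr ⟨⟨h3, by omega⟩, h5⟩
    · rw [Finset.disjoint_left]
      intro p h3 h4
      rw [Finset.mem_filter, Finset.mem_Ioc] at h3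
      rw [Finset.mem_filter, Finset.mem_Icc] at h4
      omega
  rw [hsplit]
  refine (norm_sub_le _ _).trans ?_
  have e1 := hall u hPu hu2
  have e2 := hall P le_rfl (by omega)
  calc _ ≤ (2 * C1 + 2) * (P / L ^ A) + (2 * C1 + 2) * (P / L ^ A) := add_le_add e1 e2
    _ = (4 * C1 + 4) * (P / L ^ A) := by ring

end Pool.Agent.Lib.BV
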