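import Pool.Agent.Lib.BV.SpecF

/-!
MP_00e23e_nt, Lib/BV, module Lvl: the level of the sieve.
-/

namespace Pool.Agent.Lib.BV

open Finset Pool.Agent.Lib.EH3

private lemma Lvl_pos {z : ℕ} (hz : 1 ≤ z) (j : ℕ) : 1 ≤ thr z j := by
  induction j with
  | zero => exact hz
  | succ j ih => exact Nat.sqrt_pos.mpr ih

private lemma Lvl_sum (b : ℝ) (J : ℕ) :
    ∑ j ∈ range J, (2 * (b + (j : ℝ)) + 1) / 2 ^ j = 4 * b + 6 - (4 * b + 6 + 4 * J) / 2 ^ J := by
  induction J with
  | zero => simp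
  | succ J ih =>
    rw [Finset.sum_range_succ, ih, pow_succ]
    have h : (2 : ℝ) ^ J ≠ 0 := by positivity
    push_cast
    field_simp
    ring

theorem tLvl (h1 : PbsStmt) : LvlStmt := by
  intro z b hz
  have hz' : (0 : ℝ) < z := by exact_mod_cast hz
  have hL : 0 ≤ Real.log z := Real.log_nonneg (by exact_mod_cast hz)
  have hp : ∀ j, (0 : ℝ) < thr z j := fun j => by exact_mod_cast Lvl_pos hz j
  have hlog : ∀ j, Real.log (thr z j) ≤ Real.log z / 2 ^ j := by
    intro j
    rw [le_div_iff₀ (by positivity)]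
    have h2 : ((thr z j : ℝ)) ^ 2 ^ j ≤ z := by exact_mod_cast h1.2.2.2 z j
    have h3 := Real.log_le_log (pow_pos (hp j) _) h2
    rw [Real.log_pow] at h3
    push_cast at h3
    linarith
  calc ∏ j ∈ range z, (thr z j : ℝ) ^ (2 * (b + j) + 1)
      ≤ ∏ j ∈ range z, Real.exp (Real.log z * ((2 * ((b : ℝ) + (j : ℝ)) + 1) / 2 ^ j)) := by
        refine Finset.prod_le_prod (fun j _ => (pow_pos (hp j) _).le) fun j _ => ?_
        rw [← Real.log_le_iff_le_exp (pow_pos (hp j) _), Real.log_pow]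
        push_cast
        calc (2 * ((b : ℝ) + (j : ℝ)) + 1) * Real.log (thr z j)
            ≤ (2 * ((b : ℝ) + (j : ℝ)) + 1) * (Real.log z / 2 ^ j) :=
              mul_le_mul_of_nonneg_left (hlog j) (by positivity)
          _ = Real.log z * ((2 * ((b : ℝ) + (j : ℝ)) + 1) / 2 ^ j) := by ring
    _ = Real.exp (Real.log z *
          ∑ j ∈ range z, (2 * ((b : ℝ) + (j : ℝ)) + 1) / 2 ^ j) := by
        rw [← Real.exp_sum, Finset.mul_sum]
    _ ≤ Real.exp (Real.log z * (4 * b + 6)) := by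
        apply Real.exp_le_exp.mpr
        apply mul_le_mul_of_nonneg_left _ hL
        rw [Lvl_sum]
        have h3 : (0 : ℝ) ≤ (4 * b + 6 + 4 * z) / 2 ^ z := by positivity
        linarith
    _ = (z : ℝ) ^ (4 * b + 6) := by
        have h4 : Real.log z * (4 * b + 6) = Real.log ((z : ℝ) ^ (4 * b + 6)) := by
          rw [Real.log_pow]
          push_cast
          ring
        rw [h4, Real.exp_log (pow_pos hz' _)]

end Pool.Agent.Lib.BV
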