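import Pool.Agent.Lib.BV.SpecC

namespace Pool.Agent.Lib.BV

open Finset Pool.Agent.Lib.EH3

private lemma Mea_card (q : ℕ) :
    (((range q).filter (fun b => b.Coprime q)).card : ℝ) = (q.totient : ℝ) := by
  rw [Nat.totient_eq_card_coprime]
  congr 2
  ext b
  simp only [mem_filter, mem_range]
  rw [Nat.coprime_comm]

private lemma Mea_part (f : ℕ → ℂ) (N d : ℕ) (hd : 1 ≤ d) :
    ∑ n ∈ (Icc 1 N).filter (fun n => n.Coprime d), f n =
      ∑ l ∈ (range d).filter (fun b => b.Coprime d), cls f N d l := by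
  have hmap : ∀ n ∈ (Icc 1 N).filter (fun n => n.Coprime d),
      n % d ∈ (range d).filter (fun b => b.Coprime d) := by
    intro n hn
    rw [mem_filter] at hn ⊢
    refine ⟨mem_range.mpr (Nat.mod_lt _ (by omega)), ?_⟩
    have h1 : n % d ≡ n [MOD d] := Nat.mod_modEq n d
    have h2 := h1.gcd_eq
    unfold Nat.Coprime at hn ⊢
    rw [h2]
    exact hn.2
  rw [← Finset.sum_fiberwise_of_maps_to hmap]
  refine Finset.sum_congr rfl fun l hl => ?_
  obtain ⟨hl1, hl2⟩ := mem_filter.mp hl
  rw [mem_range] at hl1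
  unfold cls
  have hset : ((Icc 1 N).filter (fun n => n.Coprime d)).filter (fun n => n % d = l) =
      (Icc 1 N).filter (fun n => n ≡ l [MOD d]) := by
    ext n
    simp only [mem_filter]
    constructor
    · rintro ⟨⟨h1, _⟩, h3⟩
      refine ⟨h1, ?_⟩
      unfold Nat.ModEq
      rw [h3, Nat.mod_eq_of_lt hl1]
    · rintro ⟨h1, h2⟩
      refine ⟨⟨h1, ?_⟩, ?_⟩
      · have := h2.gcd_eq
        unfold Nat.Coprime at hl2 ⊢
        rw [this]
        exact hl2
      · unfold Nat.ModEq at h2
        rw [h2, Nat.mod_eq_of_lt hl1]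
  rw [hset]

theorem tMea : MeaStmt := by
  intro f N d l E hd hl hE
  have hφ : (0 : ℝ) < (d.totient : ℝ) := by exact_mod_cast Nat.totient_pos.mpr (by omega)
  have hφC : (d.totient : ℂ) ≠ 0 := by
    have : d.totient ≠ 0 := by
      have := Nat.totient_pos.mpr (show 0 < d by omega)
      omega
    exact_mod_cast this
  have e1 : cls f N d l - (1 / (d.totient : ℂ)) *
      ∑ n ∈ (Icc 1 N).filter (fun n => n.Coprime d), f n =
      (1 / (d.totient : ℂ)) * ∑ l' ∈ (range d).filter (fun b => b.Coprime d),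
        (cls f N d l - cls f N d l') := by
    rw [Mea_part f N d hd, Finset.sum_sub_distrib, Finset.sum_const, nsmul_eq_mul]
    have hc : (((range d).filter (fun b => b.Coprime d)).card : ℂ) = (d.totient : ℂ) := by
      exact_mod_cast Mea_card d
    rw [hc]
    field_simp
  rw [e1, norm_mul]
  have e2 : ‖(1 / (d.totient : ℂ))‖ = 1 / (d.totient : ℝ) := by
    rw [norm_div, norm_one, Complex.norm_natCast]
  rw [e2]
  have e3 : ‖∑ l' ∈ (range d).filter (fun b => b.Coprime d), (cls f N d l - cls f N d l')‖ ≤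
      (d.totient : ℝ) * E := by
    refine (norm_sum_le _ _).trans ?_
    refine (Finset.sum_le_card_nsmul _ _ E fun l' hl' => hE l l' hl (mem_filter.mp hl').2).trans
      (le_of_eq ?_)
    rw [nsmul_eq_mul, Mea_card]
  calc 1 / (d.totient : ℝ) * ‖∑ l' ∈ (range d).filter (fun b => b.Coprime d),
        (cls f N d l - cls f N d l')‖ ≤ 1 / (d.totient : ℝ) * ((d.totient : ℝ) * E) :=
        mul_le_mul_of_nonneg_left e3 (by positivity)
    _ = E := by field_simp

end Pool.Agent.Lib.BV
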