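import Pool.Agent.Lib.BV.SpecF

/-! Module Mpr: upper bound for the Mertens product over the primes not dividing d. -/

namespace Pool.Agent.Lib.BV

open Finset Pool.Agent.Lib.EH3

/-- the completely multiplicative function 1/n -/
noncomputable def Mpr_f : ℕ →* ℝ where
  toFun n := (n : ℝ)⁻¹
  map_one' := by simp
  map_mul' m n := by rw [Nat.cast_mul, mul_inv]

theorem Mpr_f_apply (n : ℕ) : Mpr_f n = (n : ℝ)⁻¹ := rfl

theorem Mpr_norm {p : ℕ} (hp : p.Prime) : ‖Mpr_f p‖ < 1 := by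
  rw [Mpr_f_apply, norm_inv, Real.norm_natCast]
  apply inv_lt_one_of_one_lt₀
  exact_mod_cast hp.one_lt

theorem Mpr_log (z : ℕ) : Real.log z ≤ ∑ n ∈ Icc 1 z, (n : ℝ)⁻¹ := by
  rcases Nat.eq_zero_or_pos z with h | h
  · subst h; simp
  have h1 := log_add_one_le_harmonic z
  have h2 : ((harmonic z : ℚ) : ℝ) = ∑ n ∈ Icc 1 z, (n : ℝ)⁻¹ := by
    rw [harmonic_eq_sum_Icc]
    push_cast
    rfl
  rw [h2] at h1
  refine le_trans (Real.log_le_log (by exact_mod_cast h) ?_) h1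
  push_cast
  linarith

theorem Mpr_sum (z : ℕ) :
    ∑ n ∈ Icc 1 z, (n : ℝ)⁻¹ ≤ ∏ p ∈ (z + 1).primesBelow, (1 - (p : ℝ)⁻¹)⁻¹ := by
  classical
  have h := (EulerProduct.summable_and_hasSum_smoothNumbers_prod_primesBelow_geometric
    (f := Mpr_f) (fun {p} hp => Mpr_norm hp) (z + 1)).2
  have h1 := sum_le_hasSum ((Icc 1 z).subtype (fun m => m ∈ Nat.smoothNumbers (z + 1)))
    (fun m _ => by
      show 0 ≤ Mpr_f (m : ℕ)
      rw [Mpr_f_apply]; positivity) h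
  have h2 : ∑ m ∈ (Icc 1 z).subtype (fun m => m ∈ Nat.smoothNumbers (z + 1)), Mpr_f (m : ℕ)
      = ∑ n ∈ Icc 1 z, Mpr_f n := by
    apply Finset.sum_subtype_of_mem
    intro n hn
    rw [Finset.mem_Icc] at hn
    rw [Nat.mem_smoothNumbers]
    refine ⟨by omega, fun p hp => ?_⟩
    have := Nat.le_of_mem_primeFactorsList hp
    omega
  rw [h2] at h1
  exact h1

theorem Mpr_full (z : ℕ) (hz : 2 ≤ z) :
    ∏ p ∈ (Icc 1 z).filter Nat.Prime, (1 - 1 / (p : ℝ)) ≤ 1 / Real.log z := by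
  have hlog : 0 < Real.log z := Real.log_pos (by exact_mod_cast hz)
  have hs : (Icc 1 z).filter Nat.Prime = (z + 1).primesBelow := by
    ext p
    rw [Finset.mem_filter, Finset.mem_Icc, Nat.mem_primesBelow]
    constructor
    · rintro ⟨⟨h1, h2⟩, h3⟩; exact ⟨by omega, h3⟩
    · rintro ⟨h1, h2⟩; exact ⟨⟨h2.one_lt.le, by omega⟩, h2⟩
  have h1 := le_trans (Mpr_log z) (Mpr_sum z)
  rw [Finset.prod_inv_distrib] at h1
  have h2 : ∏ p ∈ (Icc 1 z).filter Nat.Prime, (1 - 1 / (p : ℝ))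
      = ∏ p ∈ (z + 1).primesBelow, (1 - (p : ℝ)⁻¹) := by
    rw [hs]
    refine Finset.prod_congr rfl (fun p _ => ?_)
    rw [one_div]
  rw [h2]
  have hpos : 0 < ∏ p ∈ (z + 1).primesBelow, (1 - (p : ℝ)⁻¹) := by
    apply Finset.prod_pos
    intro p hp
    have hp1 : (1 : ℝ) < p := by exact_mod_cast (Nat.prime_of_mem_primesBelow hp).one_lt
    have := inv_lt_one_of_one_lt₀ hp1
    linarith
  rw [le_div_iff₀ hlog]
  calc (∏ p ∈ (z + 1).primesBelow, (1 - (p : ℝ)⁻¹)) * Real.log z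
      ≤ (∏ p ∈ (z + 1).primesBelow, (1 - (p : ℝ)⁻¹))
        * (∏ p ∈ (z + 1).primesBelow, (1 - (p : ℝ)⁻¹))⁻¹ :=
        mul_le_mul_of_nonneg_left h1 hpos.le
    _ = 1 := mul_inv_cancel₀ hpos.ne'

theorem Mpr_fac {p : ℕ} (hp : p.Prime) : 0 < 1 - 1 / (p : ℝ) ∧ 1 - 1 / (p : ℝ) ≤ 1 := by
  have hp1 : (1 : ℝ) < p := by exact_mod_cast hp.one_lt
  have h1 : 1 / (p : ℝ) < 1 := by
    rw [div_lt_one (by linarith)]; exact hp1
  have h2 : 0 < 1 / (p : ℝ) := by positivity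
  constructor <;> linarith

theorem Mpr_tot (z d : ℕ) (hd : 1 ≤ d) :
    (d.totient : ℝ) / d ≤ ∏ p ∈ (Icc 1 z).filter (fun p => p.Prime ∧ p ∣ d), (1 - 1 / (p : ℝ)) := by
  have h0 : (d.totient : ℝ) = d * ∏ p ∈ d.primeFactors, (1 - (p : ℝ)⁻¹) := by
    have := Nat.totient_eq_mul_prod_factors d
    have h : ((d.totient : ℚ) : ℝ) = ((d * ∏ p ∈ d.primeFactors, (1 - (p : ℚ)⁻¹) : ℚ) : ℝ) := by
      rw [this]
    push_cast at h
    exact h
  have hd0 : (0 : ℝ) < d := by exact_mod_cast hd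
  rw [h0, mul_div_assoc, mul_comm, div_mul_cancel₀ _ hd0.ne']
  have hsub : (Icc 1 z).filter (fun p => p.Prime ∧ p ∣ d) ⊆ d.primeFactors := by
    intro p hp
    rw [Finset.mem_filter] at hp
    exact Nat.mem_primeFactors.2 ⟨hp.2.1, hp.2.2, by omega⟩
  rw [← Finset.prod_sdiff hsub]
  have e1 : ∀ S : Finset ℕ, ∏ p ∈ S, (1 - (p : ℝ)⁻¹) = ∏ p ∈ S, (1 - 1 / (p : ℝ)) := by
    intro S
    refine Finset.prod_congr rfl (fun p _ => ?_)
    rw [one_div]
  rw [e1, e1]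
  have h1 : ∏ p ∈ d.primeFactors \ (Icc 1 z).filter (fun p => p.Prime ∧ p ∣ d),
      (1 - 1 / (p : ℝ)) ≤ 1 := by
    apply Finset.prod_le_one
    · intro p hp
      exact (Mpr_fac (Nat.prime_of_mem_primeFactors (Finset.mem_sdiff.1 hp).1)).1.le
    · intro p hp
      exact (Mpr_fac (Nat.prime_of_mem_primeFactors (Finset.mem_sdiff.1 hp).1)).2
  have h2 : 0 ≤ ∏ p ∈ (Icc 1 z).filter (fun p => p.Prime ∧ p ∣ d), (1 - 1 / (p : ℝ)) := by
    apply Finset.prod_nonneg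
    intro p hp
    exact (Mpr_fac (Finset.mem_filter.1 hp).2.1).1.le
  calc _ ≤ 1 * ∏ p ∈ (Icc 1 z).filter (fun p => p.Prime ∧ p ∣ d), (1 - 1 / (p : ℝ)) :=
        mul_le_mul_of_nonneg_right h1 h2
    _ = _ := one_mul _

theorem tMpr : MprStmt := by
  intro z d hz hd
  have hlog : 0 < Real.log z := Real.log_pos (by exact_mod_cast hz)
  have hd0 : (0 : ℝ) < d := by exact_mod_cast hd
  have ht0 : (0 : ℝ) < d.totient := by exact_mod_cast Nat.totient_pos.2 hd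
  have hfull := Mpr_full z hz
  have htot := Mpr_tot z d hd
  have hsplit : (∏ p ∈ (Icc 1 z).filter (fun p => p.Prime ∧ ¬ p ∣ d), (1 - 1 / (p : ℝ)))
      * ∏ p ∈ (Icc 1 z).filter (fun p => p.Prime ∧ p ∣ d), (1 - 1 / (p : ℝ))
      = ∏ p ∈ (Icc 1 z).filter Nat.Prime, (1 - 1 / (p : ℝ)) := by
    rw [← Finset.prod_filter_mul_prod_filter_not ((Icc 1 z).filter Nat.Prime) (fun p => p ∣ d),
      Finset.filter_filter, Finset.filter_filter, mul_comm]
  set A := ∏ p ∈ (Icc 1 z).filter (fun p => p.Prime ∧ ¬ p ∣ d), (1 - 1 / (p : ℝ)) with hA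
  have hA0 : 0 ≤ A := by
    apply Finset.prod_nonneg
    intro p hp
    exact (Mpr_fac (Finset.mem_filter.1 hp).2.1).1.le
  have h1 : A * ((d.totient : ℝ) / d) ≤ 1 / Real.log z :=
    le_trans (mul_le_mul_of_nonneg_left htot hA0) (by rw [hsplit]; exact hfull)
  rw [le_div_iff₀ hlog]
  have h2 : A * ((d.totient : ℝ) / d) * Real.log z ≤ 1 := by
    rwa [le_div_iff₀ hlog] at h1
  rw [le_div_iff₀ ht0]
  have h3 : A * ((d.totient : ℝ) / d) * Real.log z * d ≤ 1 * d :=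
    mul_le_mul_of_nonneg_right h2 hd0.le
  have h4 : A * ((d.totient : ℝ) / d) * Real.log z * d = A * Real.log z * d.totient := by
    field_simp
  rw [h4, one_mul] at h3
  exact h3

end Pool.Agent.Lib.BV
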