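import Pool.Agent.Lib.BV.SpecF
import Pool.Agent.Lib.MP_9f2731_nt.BT.Mert

/-!
MP_00e23e_nt, Lib/BV, module Msb: Mertens upper bound for one block.
-/

namespace Pool.Agent.Lib.BV

open Finset Pool.Agent.Lib.EH3

theorem tMsb : MsbStmt := by
  obtain ⟨z₀, hz₀, hM⟩ := MP_9f2731_nt.BT.tMert 1 one_pos
  refine ⟨z₀ ^ 2, by nlinarith, fun t => ?_⟩
  by_cases ht : z₀ ^ 2 ≤ (t : ℝ)
  · have h1 : z₀ ≤ Real.sqrt t := Real.le_sqrt_of_sq_le ht
    have h2 := (hM _ h1).2
    rw [Real.sq_sqrt (Nat.cast_nonneg t), Nat.floor_natCast, Real.nat_floor_real_sqrt_eq_nat_sqrt]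
      at h2
    refine h2.trans ?_
    have h3 := Real.log_two_lt_d9
    nlinarith
  · rw [not_le] at ht
    have h1 : ∑ p ∈ (Ioc (Nat.sqrt t) t).filter Nat.Prime, 1 / (p : ℝ) ≤
        ((Ioc (Nat.sqrt t) t).filter Nat.Prime).card • (1 : ℝ) := by
      refine Finset.sum_le_card_nsmul _ _ _ fun p hp => ?_
      have h2 : 1 ≤ p := (Finset.mem_filter.mp hp).2.one_lt.le
      have h3 : (1 : ℝ) ≤ p := by exact_mod_cast h2
      exact (div_le_one (by linarith)).mpr h3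
    refine h1.trans ?_
    rw [nsmul_eq_mul, mul_one]
    have h2 : ((Ioc (Nat.sqrt t) t).filter Nat.Prime).card ≤ t := by
      refine (Finset.card_filter_le _ _).trans ?_
      rw [Nat.card_Ioc]
      exact Nat.sub_le _ _
    have h3 : ((((Ioc (Nat.sqrt t) t).filter Nat.Prime).card : ℕ) : ℝ) ≤ t := by
      exact_mod_cast h2
    linarith

end Pool.Agent.Lib.BV
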