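import Pool.Agent.Lib.BV.SpecD

/-!
MP_00e23e_nt, Lib/BV, module Mtm: the main term.
-/

namespace Pool.Agent.Lib.BV

open Finset Pool.Agent.Lib.EH3 Pool.Agent.Results.MP_00e23e_nt

private lemma Mtm_npr {y : ℝ} (hy : 0 ≤ y) : npr y ≤ y := by
  unfold npr
  have h1 := Finset.card_filter_le (Icc 1 ⌊y⌋₊) Nat.Prime
  rw [Nat.card_Icc] at h1
  have h2 : (((Icc 1 ⌊y⌋₊).filter Nat.Prime).card : ℝ) ≤ (⌊y⌋₊ : ℝ) := by
    exact_mod_cast (by omega)
  exact h2.trans (Nat.floor_le hy)

theorem tMtm (h : PntStmt) : MtmStmt := by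
  intro A hA
  obtain ⟨C, hC, H⟩ := h A hA
  refine ⟨3 * (2 * A) ^ A + C * 2 ^ A, by positivity, fun x y hx hy hyx => ?_⟩
  have hL : 1 ≤ Real.log x := by
    rw [Real.le_log_iff_exp_le (by linarith)]
    have := Real.exp_one_lt_d9
    linarith
  have hLA : 0 < (Real.log x) ^ A := Real.rpow_pos_of_pos (by linarith) A
  have hsq : 4 ≤ Real.sqrt x := Real.le_sqrt_of_sq_le (by linarith)
  rcases le_or_gt y (Real.sqrt x) with h1 | h1
  · have h2 : |npr y - li y| ≤ 3 * y := by
      have a1 := Mtm_npr (by linarith : 0 ≤ y)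
      have a2 : 0 ≤ npr y := by
        unfold npr
        positivity
      have a3 := EH.li_le hy
      have a4 := EH.li_nonneg hy
      rw [abs_le]
      constructor <;> linarith
    have h3 : Real.sqrt x * (Real.log x) ^ A ≤ (2 * A) ^ A * x := by
      have b1 : Real.log x ≤ 2 * A * x ^ (1 / (2 * A)) := by
        have b2 := Real.log_le_rpow_div (by linarith : 0 ≤ x) (by positivity : 0 < 1 / (2 * A))
        have b3 : x ^ (1 / (2 * A)) / (1 / (2 * A)) = 2 * A * x ^ (1 / (2 * A)) := by
          field_simp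
        rw [b3] at b2
        exact b2
      have b4 : (Real.log x) ^ A ≤ (2 * A) ^ A * Real.sqrt x := by
        calc (Real.log x) ^ A ≤ (2 * A * x ^ (1 / (2 * A))) ^ A :=
              Real.rpow_le_rpow (by linarith) b1 hA.le
          _ = (2 * A) ^ A * (x ^ (1 / (2 * A))) ^ A :=
              Real.mul_rpow (by positivity) (Real.rpow_nonneg (by linarith) _)
          _ = (2 * A) ^ A * Real.sqrt x := by
              rw [← Real.rpow_mul (by linarith), Real.sqrt_eq_rpow]
              congr 2
              field_simp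
      calc Real.sqrt x * (Real.log x) ^ A ≤ Real.sqrt x * ((2 * A) ^ A * Real.sqrt x) :=
            mul_le_mul_of_nonneg_left b4 (Real.sqrt_nonneg x)
        _ = (2 * A) ^ A * (Real.sqrt x * Real.sqrt x) := by ring
        _ = (2 * A) ^ A * x := by rw [Real.mul_self_sqrt (by linarith)]
    have h4 : Real.sqrt x ≤ (2 * A) ^ A * (x / (Real.log x) ^ A) := by
      rw [← mul_div_assoc, le_div_iff₀ hLA]
      exact h3
    have h5 : 0 ≤ C * 2 ^ A * (x / (Real.log x) ^ A) := by
      have : 0 ≤ x := by linarith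
      positivity
    calc |npr y - li y| ≤ 3 * y := h2
      _ ≤ 3 * Real.sqrt x := by linarith
      _ ≤ 3 * ((2 * A) ^ A * (x / (Real.log x) ^ A)) := by linarith
      _ ≤ (3 * (2 * A) ^ A + C * 2 ^ A) * (x / (Real.log x) ^ A) := by
          rw [add_mul, mul_assoc 3]
          linarith
  · have h2 := H y (by linarith)
    have h3 : Real.log x / 2 ≤ Real.log y := by
      have c1 := Real.log_le_log (by linarith) h1.le
      rw [Real.log_sqrt (by linarith)] at c1
      exact c1
    have h4 : (Real.log x) ^ A / 2 ^ A ≤ (Real.log y) ^ A := by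
      rw [← Real.div_rpow (by linarith) (by norm_num)]
      exact Real.rpow_le_rpow (by linarith) h3 hA.le
    have h5 : y / (Real.log y) ^ A ≤ 2 ^ A * (x / (Real.log x) ^ A) := by
      have h6 : 0 < (Real.log x) ^ A / 2 ^ A := by positivity
      calc y / (Real.log y) ^ A ≤ x / ((Real.log x) ^ A / 2 ^ A) :=
            div_le_div₀ (by linarith) hyx h6 h4
        _ = 2 ^ A * (x / (Real.log x) ^ A) := by field_simp
    have h7 : 0 ≤ 3 * (2 * A) ^ A * (x / (Real.log x) ^ A) := by
      have : 0 ≤ x := by linarith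
      positivity
    calc |npr y - li y| ≤ C * (y / (Real.log y) ^ A) := h2
      _ ≤ C * (2 ^ A * (x / (Real.log x) ^ A)) := mul_le_mul_of_nonneg_left h5 hC.le
      _ ≤ (3 * (2 * A) ^ A + C * 2 ^ A) * (x / (Real.log x) ^ A) := by
          rw [add_mul, mul_assoc C]
          linarith

end Pool.Agent.Lib.BV
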