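import Pool.Agent.Lib.BV.SpecC

/-! MP_00e23e_nt, BV: norms of the factors of one block. -/

namespace Pool.Agent.Lib.BV

open Finset Pool.Agent.Lib.EH3

private lemma Nrw_aw (η : ℝ) (N1 P h n : ℕ) : ‖aw η N1 P h n‖ ^ 2 = blk P n := by
  unfold aw
  rw [norm_mul, norm_ee, mul_one, Complex.norm_real, Real.norm_eq_abs, sq_abs]
  unfold blk
  split_ifs <;> norm_num

private lemma Nrw_bb (P n : ℕ) : bb P n ^ 2 ≤ rr P n := by
  unfold bb rr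
  split_ifs with hr
  · have h1 : (0:ℝ) ≤ (Om P n : ℝ) := Nat.cast_nonneg _
    have h2 : 1 / (1 + (Om P n : ℝ)) ≤ 1 := by
      rw [div_le_one (by linarith)]; linarith
    have h3 : 0 ≤ 1 / (1 + (Om P n : ℝ)) := by positivity
    nlinarith
  · norm_num

private lemma Nrw_rr (P n : ℕ) : 0 ≤ rr P n := by
  unfold rr
  split_ifs <;> norm_num

private lemma Nrw_bw (η : ℝ) (N1 P j h n : ℕ) : ‖bw η N1 P j h n‖ ^ 2 ≤ rr P n := by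
  unfold bw
  rw [norm_mul, norm_ee, mul_one, Complex.norm_real, Real.norm_eq_abs, sq_abs]
  unfold bj
  split_ifs with hr
  · exact Nrw_bb P n
  · have := Nrw_rr P n
    simpa using this

theorem tNrw (h1 : RouStmt) (h2 : PriStmt) : NrwStmt := by
  obtain ⟨C0, hC0, hR⟩ := h1
  refine ⟨Real.sqrt (8 * C0), Real.sqrt_pos.mpr (by linarith), ?_⟩
  intro η N1 P j h hP
  set Y : ℕ := 2 ^ (j + 1) * P with hY
  have hP1 : (2 : ℝ) ≤ (P : ℝ) := by exact_mod_cast hP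
  have hP0 : (0 : ℝ) < (P : ℝ) := by linarith
  have hlog : 0 < Real.log (P : ℝ) := Real.log_pos (by linarith)
  have hPY : P ≤ Y := by
    rw [hY]
    exact Nat.le_mul_of_pos_left P (by positivity)
  have hYR : (Y : ℝ) = 2 * ((2 : ℝ) ^ j * P) := by
    rw [hY]
    push_cast
    ring
  have ha : ∑ n ∈ Icc 1 (2 * P), ‖aw η N1 P h n‖ ^ 2 ≤ 4 * ((P : ℝ) / Real.log P) := by
    have h6 := h2 P hP
    calc ∑ n ∈ Icc 1 (2 * P), ‖aw η N1 P h n‖ ^ 2 = ∑ n ∈ Icc 1 (2 * P), blk P n :=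
          Finset.sum_congr rfl (fun n _ => Nrw_aw η N1 P h n)
      _ ≤ _ := h6
  have hb : ∑ n ∈ Icc 1 Y, ‖bw η N1 P j h n‖ ^ 2 ≤ C0 * ((Y : ℝ) / Real.log P) :=
    le_trans (Finset.sum_le_sum (fun n _ => Nrw_bw η N1 P j h n)) (hR P Y hP hPY)
  have ha0 : 0 ≤ ∑ n ∈ Icc 1 (2 * P), ‖aw η N1 P h n‖ ^ 2 :=
    Finset.sum_nonneg (fun n _ => by positivity)
  have hb0 : 0 ≤ ∑ n ∈ Icc 1 Y, ‖bw η N1 P j h n‖ ^ 2 :=
    Finset.sum_nonneg (fun n _ => by positivity)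
  unfold nrm
  rw [← Real.sqrt_mul ha0]
  have hprod : (∑ n ∈ Icc 1 (2 * P), ‖aw η N1 P h n‖ ^ 2) * ∑ n ∈ Icc 1 Y, ‖bw η N1 P j h n‖ ^ 2 ≤
      (8 * C0) * ((2 : ℝ) ^ j * (P : ℝ) ^ 2) / (Real.log P) ^ 2 := by
    calc (∑ n ∈ Icc 1 (2 * P), ‖aw η N1 P h n‖ ^ 2) * ∑ n ∈ Icc 1 Y, ‖bw η N1 P j h n‖ ^ 2
        ≤ (4 * ((P : ℝ) / Real.log P)) * (C0 * ((Y : ℝ) / Real.log P)) :=
          mul_le_mul ha hb hb0 (le_trans ha0 ha)
      _ = (8 * C0) * ((2 : ℝ) ^ j * (P : ℝ) ^ 2) / (Real.log P) ^ 2 := by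
          rw [hYR]
          field_simp
          ring
  calc Real.sqrt ((∑ n ∈ Icc 1 (2 * P), ‖aw η N1 P h n‖ ^ 2) * ∑ n ∈ Icc 1 Y, ‖bw η N1 P j h n‖ ^ 2)
      ≤ Real.sqrt ((8 * C0) * ((2 : ℝ) ^ j * (P : ℝ) ^ 2) / (Real.log P) ^ 2) := Real.sqrt_le_sqrt hprod
    _ = Real.sqrt (8 * C0) * (Real.sqrt ((2 : ℝ) ^ j) * (P : ℝ) / Real.log P) := by
        have e1 : Real.sqrt ((2 : ℝ) ^ j * (P : ℝ) ^ 2) = Real.sqrt ((2 : ℝ) ^ j) * (P : ℝ) := by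
          rw [Real.sqrt_mul (by positivity), Real.sqrt_sq hP0.le]
        have e2 : Real.sqrt ((8 * C0) * ((2 : ℝ) ^ j * (P : ℝ) ^ 2)) =
            Real.sqrt (8 * C0) * Real.sqrt ((2 : ℝ) ^ j * (P : ℝ) ^ 2) :=
          Real.sqrt_mul (by positivity) _
        rw [Real.sqrt_div (by positivity), Real.sqrt_sq hlog.le, e2, e1, mul_div_assoc]

end Pool.Agent.Lib.BV
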