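import Pool.Agent.Lib.BV.SpecA

/-!
MP_00e23e_nt, module Ort: orthogonality of the Dirichlet characters.
-/

namespace Pool.Agent.Lib.BV

open Finset Pool.Agent.Lib.EH3

private lemma Ort_char {q : ℕ} [NeZero q] {b b' : ℕ} (hb : b ∈ (range q).filter (fun b => b.Coprime q))
    (hb' : b' ∈ (range q).filter (fun b => b.Coprime q)) :
    ∑ χ : DirichletCharacter ℂ q, χ⁻¹ (b : ZMod q) * (starRingEnd ℂ) (χ⁻¹ (b' : ZMod q)) =
      if b = b' then (q.totient : ℂ) else 0 := by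
  simp only [mem_filter, mem_range] at hb hb'
  have hu : IsUnit (b : ZMod q) := (ZMod.isUnit_iff_coprime b q).2 hb.2
  have h1 : ∀ χ : DirichletCharacter ℂ q,
      χ⁻¹ (b : ZMod q) * (starRingEnd ℂ) (χ⁻¹ (b' : ZMod q)) =
        χ ((b : ZMod q)⁻¹) * χ (b' : ZMod q) := by
    intro χ
    have h2 : (starRingEnd ℂ) (χ⁻¹ (b' : ZMod q)) = χ (b' : ZMod q) := by
      have h3 := MulChar.star_apply' χ⁻¹ (b' : ZMod q)
      rw [inv_inv] at h3
      exact h3
    have h4 : χ⁻¹ (b : ZMod q) = χ ((b : ZMod q)⁻¹) := by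
      obtain ⟨u, hu'⟩ := hu
      rw [MulChar.inv_apply, ← hu', Ring.inverse_unit, ZMod.inv_coe_unit]
    rw [h2, h4]
  rw [sum_congr rfl (fun χ _ => h1 χ), DirichletCharacter.sum_char_inv_mul_char_eq ℂ hu]
  have h5 : ((b : ZMod q) = (b' : ZMod q)) ↔ b = b' := by
    constructor
    · intro h
      have h6 := (ZMod.natCast_eq_natCast_iff' b b' q).1 h
      rwa [Nat.mod_eq_of_lt hb.1, Nat.mod_eq_of_lt hb'.1] at h6
    · intro h
      rw [h]
  by_cases hbb : b = b'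
  · rw [if_pos (h5.2 hbb), if_pos hbb]
  · rw [if_neg (fun h => hbb (h5.1 h)), if_neg hbb]

theorem tOrt : OrtStmt := by
  intro q S hq
  have : NeZero q := ⟨by omega⟩
  set B := (range q).filter (fun b => b.Coprime q) with hB
  have key : ((∑ χ : DirichletCharacter ℂ q, ‖∑ b ∈ B, χ⁻¹ (b : ZMod q) * S b‖ ^ 2 : ℝ) : ℂ) =
      ((((q.totient : ℝ) * ∑ b ∈ B, ‖S b‖ ^ 2 : ℝ)) : ℂ) := by
    push_cast
    have h1 : ∀ χ : DirichletCharacter ℂ q,
        ((‖∑ b ∈ B, χ⁻¹ (b : ZMod q) * S b‖ : ℝ) : ℂ) ^ 2 =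
          ∑ b ∈ B, ∑ b' ∈ B, (χ⁻¹ (b : ZMod q) * (starRingEnd ℂ) (χ⁻¹ (b' : ZMod q))) *
            (S b * (starRingEnd ℂ) (S b')) := by
      intro χ
      rw [← Complex.mul_conj', map_sum, sum_mul_sum]
      refine sum_congr rfl (fun b _ => sum_congr rfl (fun b' _ => ?_))
      rw [map_mul]
      ring
    rw [sum_congr rfl (fun χ _ => h1 χ), sum_comm, mul_sum]
    refine sum_congr rfl (fun b hb => ?_)
    rw [sum_comm]
    have h2 : ∀ b' ∈ B, ∑ χ : DirichletCharacter ℂ q,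
        (χ⁻¹ (b : ZMod q) * (starRingEnd ℂ) (χ⁻¹ (b' : ZMod q))) * (S b * (starRingEnd ℂ) (S b')) =
        if b = b' then (q.totient : ℂ) * (S b * (starRingEnd ℂ) (S b')) else 0 := by
      intro b' hb'
      rw [← sum_mul, Ort_char hb hb']
      by_cases hbb : b = b'
      · rw [if_pos hbb, if_pos hbb]
      · rw [if_neg hbb, if_neg hbb, zero_mul]
    rw [sum_congr rfl h2, sum_ite_eq, if_pos hb, Complex.mul_conj']
  exact_mod_cast key

end Pool.Agent.Lib.BV
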