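import Pool.Agent.Lib.BV.SpecF

/-! Module Pbs: blocks of primes by iterated square roots. -/

namespace Pool.Agent.Lib.BV

open Finset Pool.Agent.Lib.EH3

theorem Pbs_zero (z : ℕ) : thr z 0 = z := rfl

theorem Pbs_succ (z j : ℕ) : thr z (j + 1) = Nat.sqrt (thr z j) := rfl

theorem Pbs_anti (z : ℕ) : Antitone (thr z) :=
  antitone_nat_of_succ_le (fun j => by rw [Pbs_succ]; exact Nat.sqrt_le_self _)

theorem Pbs_mem (z d j p : ℕ) :
    p ∈ pbl z d j ↔ (thr z (j + 1) < p ∧ p ≤ thr z j) ∧ p.Prime ∧ ¬ p ∣ d := by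
  unfold pbl
  rw [Finset.mem_filter, Finset.mem_Ioc]

theorem Pbs_disj_lt (z d i j : ℕ) (h : i < j) : Disjoint (pbl z d i) (pbl z d j) := by
  rw [Finset.disjoint_left]
  intro p h1 h2
  rw [Pbs_mem] at h1 h2
  have h3 : thr z j ≤ thr z (i + 1) := Pbs_anti z (by omega)
  omega

theorem Pbs_disj (z d i j : ℕ) (h : i ≠ j) : Disjoint (pbl z d i) (pbl z d j) := by
  rcases Nat.lt_or_gt_of_ne h with h | h
  · exact Pbs_disj_lt z d i j h
  · exact (Pbs_disj_lt z d j i h).symm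

theorem Pbs_dec (z : ℕ) : ∀ j, thr z j + j ≤ z ∨ thr z j ≤ 1 := by
  intro j
  induction j with
  | zero => left; rw [Pbs_zero]; omega
  | succ j ih =>
    rw [Pbs_succ]
    rcases ih with h | h
    · by_cases h2 : thr z j ≤ 1
      · right; exact le_trans (Nat.sqrt_le_self _) h2
      · left
        have := Nat.sqrt_lt_self (n := thr z j) (by omega)
        omega
    · right; exact le_trans (Nat.sqrt_le_self _) h

theorem Pbs_last (z : ℕ) : thr z z ≤ 1 := by
  rcases Pbs_dec z z with h | h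
  · omega
  · exact h

theorem Pbs_cover (z p : ℕ) (hp : 2 ≤ p) (hpz : p ≤ z) :
    ∃ j < z, thr z (j + 1) < p ∧ p ≤ thr z j := by
  have hex : ∃ j, thr z (j + 1) < p := by
    refine ⟨z - 1, ?_⟩
    rw [show z - 1 + 1 = z by omega]
    have := Pbs_last z
    omega
  classical
  refine ⟨Nat.find hex, ?_, Nat.find_spec hex, ?_⟩
  · have : Nat.find hex ≤ z - 1 := by
      apply Nat.find_min'
      rw [show z - 1 + 1 = z by omega]
      have := Pbs_last z
      omega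
    omega
  · rcases h : Nat.find hex with _ | k
    · rw [Pbs_zero]; exact hpz
    · have := Nat.find_min hex (m := k) (by omega)
      omega

theorem Pbs_two (z d : ℕ) (f : ℕ → ℝ) : ∏ j ∈ range z, ∏ p ∈ pbl z d j, f p =
      ∏ p ∈ (Icc 1 z).filter (fun p => p.Prime ∧ ¬ p ∣ d), f p := by
  rw [← Finset.prod_biUnion (fun i _ j _ h => Pbs_disj z d i j h)]
  refine Finset.prod_congr ?_ (fun _ _ => rfl)
  ext p
  rw [Finset.mem_biUnion, Finset.mem_filter, Finset.mem_Icc]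
  constructor
  · rintro ⟨j, -, hp⟩
    rw [Pbs_mem] at hp
    have h1 : thr z j ≤ thr z 0 := Pbs_anti z (Nat.zero_le j)
    rw [Pbs_zero] at h1
    exact ⟨⟨hp.2.1.one_lt.le, by omega⟩, hp.2⟩
  · rintro ⟨⟨-, h2⟩, h3, h4⟩
    obtain ⟨j, hj, h5⟩ := Pbs_cover z p h3.two_le h2
    exact ⟨j, Finset.mem_range.2 hj, (Pbs_mem z d j p).2 ⟨h5, h3, h4⟩⟩

theorem Pbs_pos (z : ℕ) (hz : 1 ≤ z) : ∀ j, 1 ≤ thr z j := by
  intro j
  induction j with
  | zero => exact hz
  | succ j ih => rw [Pbs_succ]; exact Nat.sqrt_pos.2 ih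

theorem Pbs_three (z d j : ℕ) (hz : 1 ≤ z) : (pbl z d j).card + 1 ≤ thr z j := by
  have h1 : pbl z d j ⊆ Icc 2 (thr z j) := by
    intro p hp
    rw [Pbs_mem] at hp
    rw [Finset.mem_Icc]
    exact ⟨hp.2.1.two_le, hp.1.2⟩
  have h2 := Finset.card_le_card h1
  rw [Nat.card_Icc] at h2
  have h3 := Pbs_pos z hz j
  omega

theorem Pbs_four (z : ℕ) : ∀ j, thr z j ^ 2 ^ j ≤ z := by
  intro j
  induction j with
  | zero => rw [Pbs_zero, pow_zero, pow_one]
  | succ j ih =>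
    rw [Pbs_succ, pow_succ, mul_comm, pow_mul]
    exact le_trans (Nat.pow_le_pow_left (Nat.sqrt_le' _) _) ih

theorem tPbs : PbsStmt :=
  ⟨fun z d i j h => Pbs_disj z d i j h, fun z d f _ => Pbs_two z d f,
    fun z d j hz => Pbs_three z d j hz, fun z j => Pbs_four z j⟩

end Pool.Agent.Lib.BV
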