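import Pool.Agent.Lib.BV.SpecH

/-!
MP_00e23e_nt, BV, module Per: Perron bound.
-/

namespace Pool.Agent.Lib.BV

open Finset MeasureTheory

/-- the point on the vertical line -/
noncomputable def Per_z (σ ξ : ℝ) : ℂ := (σ : ℂ) + 2 * Real.pi * ξ * Complex.I

lemma Per_re (σ ξ : ℝ) : (Per_z σ ξ).re = σ := by
  unfold Per_z
  have h : (2 * Real.pi * ξ * Complex.I : ℂ) = ((2 * Real.pi * ξ : ℝ) : ℂ) * Complex.I := by
    push_cast
    ring
  rw [h]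
  simp

lemma Per_im (σ ξ : ℝ) : (Per_z σ ξ).im = 2 * Real.pi * ξ := by
  unfold Per_z
  have h : (2 * Real.pi * ξ * Complex.I : ℂ) = ((2 * Real.pi * ξ : ℝ) : ℂ) * Complex.I := by
    push_cast
    ring
  rw [h]
  simp

lemma Per_normsq (σ ξ : ℝ) : ‖Per_z σ ξ‖ ^ 2 = σ ^ 2 + (2 * Real.pi * ξ) ^ 2 := by
  rw [← Complex.normSq_eq_norm_sq, Complex.normSq_apply, Per_re, Per_im]
  ring

lemma Per_lower {σ : ℝ} (hσ : 1 < σ) (ξ : ℝ) : 1 + ξ ^ 2 ≤ ‖Per_z σ ξ ^ 2‖ := by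
  rw [norm_pow, Per_normsq]
  have h1 : (1 : ℝ) ≤ (2 * Real.pi) ^ 2 := by
    have := Real.pi_gt_three
    nlinarith
  have h2 : 1 ≤ σ ^ 2 := by nlinarith
  have h3 : (2 * Real.pi * ξ) ^ 2 = (2 * Real.pi) ^ 2 * ξ ^ 2 := by ring
  rw [h3]
  nlinarith [sq_nonneg ξ]

lemma Per_ne {σ : ℝ} (hσ : 1 < σ) (ξ : ℝ) : Per_z σ ξ ^ 2 ≠ 0 := by
  intro h
  have h1 := Per_lower hσ ξ
  rw [h, norm_zero] at h1
  nlinarith [sq_nonneg ξ]

lemma Per_cont (σ : ℝ) : Continuous (Per_z σ) := by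
  unfold Per_z
  fun_prop

lemma Per_term (c : ℕ → ℂ) (y σ : ℝ) (hy : 1 ≤ y) (n : ℕ) (hn : n ≠ 0) (ξ : ℝ) :
    LSeries.term c (Per_z σ ξ) n * (y : ℂ) ^ (Per_z σ ξ) / (Per_z σ ξ) ^ 2 =
      c n * ((Real.exp (σ * Real.log (y / n)) : ℝ) : ℂ) *
        (Complex.exp (2 * Real.pi * ξ * ((Real.log (y / n) : ℝ) : ℂ) * Complex.I) /
          (Per_z σ ξ) ^ 2) := by
  have hy0 : (y : ℂ) ≠ 0 := by
    have : y ≠ 0 := by linarith
    exact_mod_cast this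
  have hn0 : (n : ℂ) ≠ 0 := by exact_mod_cast hn
  have hnR : (n : ℝ) ≠ 0 := by exact_mod_cast hn
  have hyR : y ≠ 0 := by linarith
  have h1 : ((Real.log (y / n) : ℝ) : ℂ) = Complex.log y - Complex.log n := by
    rw [Real.log_div hyR hnR, Complex.ofReal_sub, Complex.ofReal_log (by linarith),
      Complex.natCast_log]
  have h2 : c n / Complex.exp (Complex.log n * Per_z σ ξ) *
      Complex.exp (Complex.log y * Per_z σ ξ) =
      c n * (((Real.exp (σ * Real.log (y / n)) : ℝ) : ℂ) *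
        Complex.exp (2 * Real.pi * ξ * ((Real.log (y / n) : ℝ) : ℂ) * Complex.I)) := by
    rw [div_mul_eq_mul_div, mul_div_assoc, ← Complex.exp_sub, Complex.ofReal_exp,
      ← Complex.exp_add]
    congr 2
    rw [Complex.ofReal_mul, h1]
    unfold Per_z
    ring
  rw [LSeries.term_of_ne_zero hn, Complex.cpow_def_of_ne_zero hy0, Complex.cpow_def_of_ne_zero hn0,
    h2]
  ring

lemma Per_norm_term (c : ℕ → ℂ) (y σ : ℝ) (hy : 1 ≤ y) (hσ : 1 < σ) (n : ℕ) (ξ : ℝ) :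
    ‖LSeries.term c (Per_z σ ξ) n * (y : ℂ) ^ (Per_z σ ξ) / (Per_z σ ξ) ^ 2‖ ≤
      (‖LSeries.term c (σ : ℂ) n‖ * y ^ σ) * (1 + ξ ^ 2)⁻¹ := by
  have h1 : ‖LSeries.term c (Per_z σ ξ) n‖ = ‖LSeries.term c (σ : ℂ) n‖ := by
    rw [LSeries.norm_term_eq, LSeries.norm_term_eq, Per_re, Complex.ofReal_re]
  have h2 : ‖(y : ℂ) ^ (Per_z σ ξ)‖ = y ^ σ := by
    rw [Complex.norm_cpow_eq_rpow_re_of_pos (by linarith), Per_re]
  rw [norm_div, norm_mul, h1, h2, div_eq_mul_inv]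
  have h3 : 0 < 1 + ξ ^ 2 := by positivity
  refine mul_le_mul_of_nonneg_left (inv_anti₀ h3 (Per_lower hσ ξ)) ?_
  exact mul_nonneg (norm_nonneg _) (Real.rpow_nonneg (by linarith) _)

lemma Per_int (c : ℕ → ℂ) (y σ : ℝ) (hy : 1 ≤ y) (hσ : 1 < σ) (n : ℕ) :
    Integrable (fun ξ : ℝ =>
      LSeries.term c (Per_z σ ξ) n * (y : ℂ) ^ (Per_z σ ξ) / (Per_z σ ξ) ^ 2) := by
  refine Integrable.mono' (integrable_inv_one_add_sq.const_mul
    (‖LSeries.term c (σ : ℂ) n‖ * y ^ σ)) ?_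
    (Filter.Eventually.of_forall fun ξ => Per_norm_term c y σ hy hσ n ξ)
  refine Continuous.aestronglyMeasurable ?_
  rcases eq_or_ne n 0 with h | h
  · subst h
    simp only [LSeries.term_zero, zero_mul, zero_div]
    exact continuous_const
  · have h1 : (fun ξ : ℝ => LSeries.term c (Per_z σ ξ) n * (y : ℂ) ^ (Per_z σ ξ) /
        (Per_z σ ξ) ^ 2) = fun ξ : ℝ => c n * ((Real.exp (σ * Real.log (y / n)) : ℝ) : ℂ) *
        (Complex.exp (2 * Real.pi * ξ * ((Real.log (y / n) : ℝ) : ℂ) * Complex.I) /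
          (Per_z σ ξ) ^ 2) := by
      funext ξ
      exact Per_term c y σ hy n h ξ
    rw [h1]
    refine continuous_const.mul (Continuous.div ?_ ((Per_cont σ).pow 2) fun ξ => Per_ne hσ ξ)
    fun_prop

lemma Per_hasSum (c : ℕ → ℂ) (y σ : ℝ) (hy : 1 ≤ y) (hσ : 1 < σ)
    (hc : LSeriesSummable c (σ : ℂ)) :
    HasSum (fun n => ∫ ξ : ℝ, LSeries.term c (Per_z σ ξ) n * (y : ℂ) ^ (Per_z σ ξ) /
      (Per_z σ ξ) ^ 2)
      (∫ ξ : ℝ, LSeries c (Per_z σ ξ) * (y : ℂ) ^ (Per_z σ ξ) / (Per_z σ ξ) ^ 2) := by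
  have h1 := hasSum_integral_of_summable_integral_norm (μ := volume)
    (F := fun (n : ℕ) (ξ : ℝ) => LSeries.term c (Per_z σ ξ) n * (y : ℂ) ^ (Per_z σ ξ) /
      (Per_z σ ξ) ^ 2) (fun n => Per_int c y σ hy hσ n) (by
        have h2 : Summable fun n => (‖LSeries.term c (σ : ℂ) n‖ * y ^ σ) *
            ∫ ξ : ℝ, (1 + ξ ^ 2)⁻¹ := (hc.norm.mul_right _).mul_right _
        refine Summable.of_nonneg_of_le (fun n => integral_nonneg fun ξ => norm_nonneg _)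
          (fun n => ?_) h2
        rw [← integral_const_mul]
        exact integral_mono (Per_int c y σ hy hσ n).norm
          (integrable_inv_one_add_sq.const_mul _) fun ξ => Per_norm_term c y σ hy hσ n ξ)
  have h3 : (fun ξ : ℝ => ∑' n : ℕ, LSeries.term c (Per_z σ ξ) n * (y : ℂ) ^ (Per_z σ ξ) /
      (Per_z σ ξ) ^ 2) = fun ξ : ℝ => LSeries c (Per_z σ ξ) * (y : ℂ) ^ (Per_z σ ξ) /
        (Per_z σ ξ) ^ 2 := by
    funext ξ
    rw [tsum_div_const, tsum_mul_right]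
    rfl
  rw [h3] at h1
  exact h1

lemma Per_formula (h : KerStmt) (c : ℕ → ℂ) (y σ : ℝ) (hy : 1 ≤ y) (hσ : 1 < σ)
    (hc : LSeriesSummable c (σ : ℂ)) :
    ∑ n ∈ Icc 1 ⌊y⌋₊, c n * ((Real.log (y / n) : ℝ) : ℂ) =
      ∫ ξ : ℝ, LSeries c (Per_z σ ξ) * (y : ℂ) ^ (Per_z σ ξ) / (Per_z σ ξ) ^ 2 := by
  have hs := Per_hasSum c y σ hy hσ hc
  have h1 : ∀ n : ℕ, n ≠ 0 → ∫ ξ : ℝ, LSeries.term c (Per_z σ ξ) n * (y : ℂ) ^ (Per_z σ ξ) /
      (Per_z σ ξ) ^ 2 = if 0 ≤ Real.log (y / n) then c n * ((Real.log (y / n) : ℝ) : ℂ) else 0 := by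
    intro n hn
    have h2 := h σ (by linarith) (Real.log (y / n))
    have h3 : (fun ξ : ℝ => LSeries.term c (Per_z σ ξ) n * (y : ℂ) ^ (Per_z σ ξ) /
        (Per_z σ ξ) ^ 2) = fun ξ : ℝ => c n * ((Real.exp (σ * Real.log (y / n)) : ℝ) : ℂ) *
        (Complex.exp (2 * Real.pi * ξ * ((Real.log (y / n) : ℝ) : ℂ) * Complex.I) /
          ((σ : ℂ) + 2 * Real.pi * ξ * Complex.I) ^ 2) := by
      funext ξ
      exact Per_term c y σ hy n hn ξ
    rw [h3, integral_const_mul, h2]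
    split_ifs with h4
    · rw [mul_assoc, ← Complex.ofReal_mul]
      congr 2
      have h5 : Real.exp (σ * Real.log (y / n)) * Real.exp (-σ * Real.log (y / n)) = 1 := by
        rw [← Real.exp_add]
        have h6 : σ * Real.log (y / n) + -σ * Real.log (y / n) = 0 := by ring
        rw [h6, Real.exp_zero]
      calc Real.exp (σ * Real.log (y / n)) * (Real.log (y / n) * Real.exp (-σ * Real.log (y / n)))
          = Real.log (y / n) * (Real.exp (σ * Real.log (y / n)) *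
            Real.exp (-σ * Real.log (y / n))) := by ring
        _ = Real.log (y / n) := by rw [h5, mul_one]
    · rw [mul_zero]
  rw [← hs.tsum_eq]
  symm
  rw [tsum_eq_sum (s := Icc 1 ⌊y⌋₊)]
  · refine Finset.sum_congr rfl fun n hn => ?_
    obtain ⟨h2, h3⟩ := mem_Icc.1 hn
    rw [h1 n (by omega), if_pos]
    have h4 : (n : ℝ) ≤ y := (Nat.le_floor_iff (by linarith)).1 h3
    have h5 : (0 : ℝ) < n := by exact_mod_cast h2
    exact Real.log_nonneg ((one_le_div h5).2 h4)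
  · intro n hn
    rcases eq_or_ne n 0 with h2 | h2
    · subst h2
      simp only [LSeries.term_zero, zero_mul, zero_div, integral_zero]
    · rw [h1 n h2, if_neg]
      intro h3
      have h4 : ¬ n ≤ ⌊y⌋₊ := fun h4 => hn (mem_Icc.2 ⟨by omega, h4⟩)
      have h5 : y < n := by
        by_contra h6
        exact h4 ((Nat.le_floor_iff (by linarith)).2 (by linarith))
      have h6 : (0 : ℝ) < n := by linarith
      have h7 : y / n < 1 := (div_lt_one h6).2 h5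
      have h8 := Real.log_neg (by positivity) h7
      linarith

lemma Per_pow (y : ℝ) (hy : 1 ≤ y) : ∃ σ : ℝ, 1 < σ ∧ σ ≤ 2 ∧ y ^ σ ≤ Real.exp 2 * y := by
  have hy0 : 0 < y := by linarith
  have he : (1 : ℝ) ≤ Real.exp 1 := Real.one_le_exp (by norm_num)
  have h2 : Real.exp 2 = Real.exp 1 * Real.exp 1 := by
    rw [← Real.exp_add]
    norm_num
  by_cases h : Real.exp 1 ≤ y
  · have hl : 1 ≤ Real.log y := by
      rw [Real.le_log_iff_exp_le hy0]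
      exact h
    refine ⟨1 + 1 / Real.log y, ?_, ?_, ?_⟩
    · have : 0 < 1 / Real.log y := by positivity
      linarith
    · have : 1 / Real.log y ≤ 1 := by
        rw [div_le_one (by linarith)]
        exact hl
      linarith
    · rw [Real.rpow_add hy0, Real.rpow_one]
      have h3 : y ^ (1 / Real.log y) = Real.exp 1 := by
        rw [Real.rpow_def_of_pos hy0, mul_one_div_cancel (by linarith)]
      rw [h3, h2]
      nlinarith [mul_pos hy0 (Real.exp_pos 1)]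
  · refine ⟨2, by norm_num, le_refl _, ?_⟩
    rw [not_le] at h
    have h3 : y ^ (2 : ℝ) = y * y := by
      rw [Real.rpow_two]
      ring
    rw [h3, h2]
    nlinarith [mul_pos hy0 (Real.exp_pos 1)]

lemma Per_bound {σ K y : ℝ} (hσ : 1 < σ) (hK : 0 ≤ K) (hy : 1 ≤ y) (ξ : ℝ)
    (hp : y ^ σ ≤ Real.exp 2 * y) (w : ℂ) (hw : ‖w‖ ≤ K * (|(Per_z σ ξ).im| + 2) ^ ((1 : ℝ) / 2)) :
    ‖w * (y : ℂ) ^ (Per_z σ ξ) / (Per_z σ ξ) ^ 2‖ ≤
      (K * (Real.exp 2 * y) * 6) * (1 + ‖ξ‖) ^ (-(3 / 2 : ℝ)) := by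
  have h2 : ‖(y : ℂ) ^ (Per_z σ ξ)‖ = y ^ σ := by
    rw [Complex.norm_cpow_eq_rpow_re_of_pos (by linarith), Per_re]
  have hx : 0 ≤ |ξ| := abs_nonneg ξ
  have h3 : (1 + |ξ|) ^ 2 / 2 ≤ ‖Per_z σ ξ ^ 2‖ := by
    refine le_trans ?_ (Per_lower hσ ξ)
    nlinarith [sq_nonneg (1 - |ξ|), sq_abs ξ]
  have h4 : (|(Per_z σ ξ).im| + 2) ^ ((1 : ℝ) / 2) ≤ 3 * (1 + |ξ|) ^ ((1 : ℝ) / 2) := by
    have h5 : |(Per_z σ ξ).im| + 2 ≤ 3 ^ 2 * (1 + |ξ|) := by
      rw [Per_im, abs_mul, abs_of_pos (by positivity : 0 < 2 * Real.pi)]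
      have := Real.pi_lt_four
      nlinarith
    have h6 : (3 ^ 2 : ℝ) ^ ((1 : ℝ) / 2) = 3 := by
      rw [← Real.sqrt_eq_rpow, Real.sqrt_sq (by norm_num)]
    have h6' : (3 ^ 2 * (1 + |ξ|)) ^ ((1 : ℝ) / 2) = 3 * (1 + |ξ|) ^ ((1 : ℝ) / 2) := by
      rw [Real.mul_rpow (by norm_num) (by positivity), h6]
    rw [← h6']
    exact Real.rpow_le_rpow (by positivity) h5 (by norm_num)
  have h7 : (1 + |ξ|) ^ (-(3 / 2 : ℝ)) = (1 + |ξ|) ^ ((1 : ℝ) / 2) / (1 + |ξ|) ^ 2 := by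
    rw [← Real.rpow_natCast (1 + |ξ|) 2, ← Real.rpow_sub (by positivity)]
    norm_num
  have h8 : 0 < (1 + |ξ|) ^ ((1 : ℝ) / 2) := Real.rpow_pos_of_pos (by positivity) _
  rw [norm_div, norm_mul, h2, Real.norm_eq_abs, h7]
  have h9 : ‖w‖ * y ^ σ ≤ K * (3 * (1 + |ξ|) ^ ((1 : ℝ) / 2)) * (Real.exp 2 * y) := by
    refine mul_le_mul (hw.trans (mul_le_mul_of_nonneg_left h4 hK)) hp
      (Real.rpow_nonneg (by linarith) _) (by positivity)
  have h10 : 0 < (1 + |ξ|) ^ 2 / 2 := by positivity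
  refine (div_le_div₀ (by positivity) h9 h10 h3).trans (le_of_eq ?_)
  field_simp
  ring

theorem tPer (h : KerStmt) : PerStmt := by
  have hint : Integrable (fun ξ : ℝ => (1 + ‖ξ‖) ^ (-(3 / 2 : ℝ))) :=
    integrable_one_add_norm (by
      rw [Module.finrank_self]
      norm_num)
  have hJ : 0 ≤ ∫ ξ : ℝ, (1 + ‖ξ‖) ^ (-(3 / 2 : ℝ)) :=
    integral_nonneg fun ξ => Real.rpow_nonneg (by positivity) _
  refine ⟨Real.exp 2 * 6 * (∫ ξ : ℝ, (1 + ‖ξ‖) ^ (-(3 / 2 : ℝ))) + 1, by positivity, ?_⟩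
  intro c K hK hc hL y hy
  obtain ⟨σ, h1, h2, h3⟩ := Per_pow y hy
  rw [Per_formula h c y σ hy h1 (hc _ (by rw [Complex.ofReal_re]; exact h1))]
  have h4 := norm_integral_le_of_norm_le (hint.const_mul (K * (Real.exp 2 * y) * 6))
    (Filter.Eventually.of_forall fun ξ => Per_bound h1 hK hy ξ h3 (LSeries c (Per_z σ ξ))
      (hL (Per_z σ ξ) (by rw [Per_re]; exact h1) (by rw [Per_re]; exact h2)))
  refine h4.trans ?_
  rw [integral_const_mul]
  have h5 : 0 ≤ K * y := mul_nonneg hK (by linarith)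
  nlinarith

end Pool.Agent.Lib.BV
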