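import Pool.Agent.Lib.BV.SpecD

/-!
MP_00e23e_nt, Lib/BV, module Pmt: the parameters.
-/

namespace Pool.Agent.Lib.BV

open Finset Pool.Agent.Lib.EH3

private theorem Pmt_two_pow (n : ℕ) : (2 : ℝ) ^ n = Real.exp ((n : ℝ) * Real.log 2) := by
  rw [mul_comm, Real.exp_mul, Real.exp_log (by norm_num), Real.rpow_natCast]

theorem tPmt (h : AsyStmt) : PmtStmt := by
  intro A hA
  obtain ⟨x0, hx0, H⟩ := h A 1 hA one_pos
  refine ⟨x0, hx0, ?_⟩
  intro x K0 hx hK0 hKA
  obtain ⟨h1, _, _, h4⟩ := H x hx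
  have hx16 : (16 : ℝ) ≤ x := le_trans hx0 hx
  have hxpos : 0 < x := by linarith
  have h400 := h1 K0 hK0 hKA
  set L : ℝ := Real.log x with hL
  set κ : ℝ := Real.log K0 with hκ
  set s : ℝ := Real.sqrt L with hs
  have hK0pos : 0 < K0 := by linarith
  have hl2 : (0.69 : ℝ) < Real.log 2 := by
    have := Real.log_two_gt_d9; linarith
  have hl2' : Real.log 2 < 0.7 := by
    have := Real.log_two_lt_d9; linarith
  have hκ1 : 2.7 ≤ κ := by
    have h16 : Real.log 16 ≤ κ := Real.log_le_log (by norm_num) hK0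
    have h16' : Real.log 16 = 4 * Real.log 2 := by
      rw [show (16 : ℝ) = 2 ^ 4 by norm_num, Real.log_pow]; norm_num
    rw [h16'] at h16
    linarith
  have hκpos : 0 < κ := by linarith
  have hLpos : 0 < L := by linarith
  have hs0 : 0 ≤ s := Real.sqrt_nonneg _
  have hss : s * s = L := Real.mul_self_sqrt hLpos.le
  have hs10 : 10 ≤ s := by
    have h100 : Real.sqrt (10 * 10) ≤ Real.sqrt L := Real.sqrt_le_sqrt (by linarith)
    rw [Real.sqrt_mul_self (by norm_num)] at h100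
    exact h100
  have hspos : 0 < s := by linarith
  set w : ℝ := L / (200 * κ) with hw
  have hwκ : w * (200 * κ) = L := by
    rw [hw]; field_simp
  have hw2s : 2 * s ≤ w := by
    rw [hw, le_div_iff₀ (by positivity)]
    have h5 := mul_le_mul_of_nonneg_left h400 hs0
    linarith
  have hw20 : 20 ≤ w := by linarith
  have hexpw : w + 1 ≤ Real.exp w := Real.add_one_le_exp w
  have hexpL : Real.exp L = x := Real.exp_log hxpos
  have hzz : zz x K0 = ⌊Real.exp w⌋₊ := rfl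
  have hz2 : 2 ≤ zz x K0 := by
    rw [hzz]
    apply Nat.le_floor
    push_cast
    linarith
  have hz2' : (2 : ℝ) ≤ (zz x K0 : ℝ) := by exact_mod_cast hz2
  have hzpos : (0 : ℝ) < (zz x K0 : ℝ) := by linarith
  have hzle : (zz x K0 : ℝ) ≤ Real.exp w := by
    rw [hzz]; exact Nat.floor_le (Real.exp_pos w).le
  have hzge : Real.exp w / 2 ≤ (zz x K0 : ℝ) := by
    have := Nat.sub_one_lt_floor (Real.exp w)
    rw [← hzz] at this
    linarith
  have hlogz : w - Real.log 2 ≤ Real.log (zz x K0) := by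
    have h5 : Real.log (Real.exp w / 2) ≤ Real.log (zz x K0) :=
      Real.log_le_log (by positivity) hzge
    rw [Real.log_div (Real.exp_pos w).ne' (by norm_num), Real.log_exp] at h5
    exact h5
  have hwhalf : w / 2 ≤ Real.log (zz x K0) := by linarith
  have hL400 : L / (400 * κ) = w / 2 := by
    rw [hw]; field_simp; norm_num
  have hlogzs : s ≤ Real.log (zz x K0) := by linarith
  have hb1 : 2 * κ ≤ (b0 K0 : ℝ) := Nat.le_ceil _
  have hb2 : (b0 K0 : ℝ) < 2 * κ + 1 := Nat.ceil_lt_add_one (by positivity)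
  have hb0 : 1 ≤ b0 K0 := by
    have : (0 : ℝ) < (b0 K0 : ℝ) := by linarith
    exact_mod_cast this
  have hb3 : (b0 K0 : ℝ) ≤ 3 * κ := by linarith
  have hpw : (zz x K0 : ℝ) ^ (16 * b0 K0) ≤ x ^ ((1 : ℝ) / 4) := by
    have h6 : (zz x K0 : ℝ) ^ (16 * b0 K0) ≤ (Real.exp w) ^ (16 * b0 K0) :=
      pow_le_pow_left₀ hzpos.le hzle _
    have h7 : (Real.exp w) ^ (16 * b0 K0) = Real.exp (w * ((16 * b0 K0 : ℕ) : ℝ)) := by
      rw [Real.exp_mul, Real.rpow_natCast]
    have h8 : x ^ ((1 : ℝ) / 4) = Real.exp (L * (1 / 4)) := by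
      rw [Real.exp_mul, hexpL]
    rw [h7] at h6
    rw [h8]
    refine le_trans h6 (Real.exp_le_exp.mpr ?_)
    push_cast
    have hwpos : 0 < w := by linarith
    have h9 : w * (16 * (b0 K0 : ℝ)) ≤ w * (16 * (3 * κ)) :=
      mul_le_mul_of_nonneg_left (by linarith) hwpos.le
    have h9' : w * (16 * (3 * κ)) = 48 / 200 * (w * (200 * κ)) := by ring
    linarith
  have hexpb : Real.exp (-(b0 K0 : ℝ)) ≤ 1 / K0 ^ 2 := by
    have h10 : Real.exp (-(b0 K0 : ℝ)) ≤ Real.exp (-(2 * κ)) := Real.exp_le_exp.mpr (by linarith)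
    have h11 : Real.exp (-(2 * κ)) = 1 / K0 ^ 2 := by
      rw [Real.exp_neg, show 2 * κ = κ + κ by ring, Real.exp_add, hκ, Real.exp_log hK0pos, one_div, sq]
    rw [← h11]; exact h10
  set r : ℝ := Real.log (Real.sqrt x / (zz x K0 : ℝ)) / Real.log 2 with hr
  have hKK : KK x K0 = ⌈r⌉₊ := rfl
  have hsx : Real.sqrt x = Real.exp (L / 2) := by
    rw [← hexpL, ← Real.exp_half]
  have hsxpos : 0 < Real.sqrt x := Real.sqrt_pos.mpr hxpos
  have hzsx : (zz x K0 : ℝ) ≤ Real.sqrt x := by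
    refine le_trans hzle ?_
    rw [hsx]
    apply Real.exp_le_exp.mpr
    rw [hw, div_le_div_iff₀ (by positivity) (by norm_num)]
    exact mul_le_mul_of_nonneg_left (by linarith) hLpos.le
  have hquo : 1 ≤ Real.sqrt x / (zz x K0 : ℝ) := by
    rw [le_div_iff₀ hzpos]; linarith
  have hlquo : 0 ≤ Real.log (Real.sqrt x / (zz x K0 : ℝ)) := Real.log_nonneg hquo
  have hr0 : 0 ≤ r := div_nonneg hlquo (by linarith)
  have hrl : r * Real.log 2 = Real.log (Real.sqrt x / (zz x K0 : ℝ)) := by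
    rw [hr]; field_simp
  have hK1 : r ≤ (KK x K0 : ℝ) := by rw [hKK]; exact Nat.le_ceil _
  have hK2 : (KK x K0 : ℝ) < r + 1 := by rw [hKK]; exact Nat.ceil_lt_add_one hr0
  have hexpr : Real.exp (r * Real.log 2) = Real.sqrt x / (zz x K0 : ℝ) := by
    rw [hrl, Real.exp_log (by positivity)]
  have h2K1 : Real.sqrt x / (zz x K0 : ℝ) ≤ (2 : ℝ) ^ (KK x K0) := by
    rw [Pmt_two_pow, ← hexpr]
    apply Real.exp_le_exp.mpr
    exact mul_le_mul_of_nonneg_right hK1 (by linarith)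
  have h2K2 : (2 : ℝ) ^ (KK x K0) ≤ 2 * (Real.sqrt x / (zz x K0 : ℝ)) := by
    rw [Pmt_two_pow, ← hexpr]
    have h12 : 2 * Real.exp (r * Real.log 2) = Real.exp ((r + 1) * Real.log 2) := by
      rw [add_mul, Real.exp_add, one_mul, Real.exp_log (by norm_num : (0 : ℝ) < 2), mul_comm]
    rw [h12]
    apply Real.exp_le_exp.mpr
    exact mul_le_mul_of_nonneg_right hK2.le (by linarith)
  have hzK1 : Real.sqrt x ≤ (zz x K0 : ℝ) * 2 ^ (KK x K0) := by
    rw [div_le_iff₀ hzpos] at h2K1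
    linarith
  have hzK2 : (zz x K0 : ℝ) * 2 ^ (KK x K0) ≤ 2 * Real.sqrt x := by
    have h13 := mul_le_mul_of_nonneg_left h2K2 hzpos.le
    have h14 : (zz x K0 : ℝ) * (2 * (Real.sqrt x / (zz x K0 : ℝ))) = 2 * Real.sqrt x := by
      field_simp
    linarith
  have hsq : Real.sqrt x * Real.sqrt x = x := Real.mul_self_sqrt hxpos.le
  have hs4 : 4 ≤ Real.sqrt x := by
    have h100 : Real.sqrt (4 * 4) ≤ Real.sqrt x := Real.sqrt_le_sqrt (by linarith)
    rw [Real.sqrt_mul_self (by norm_num)] at h100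
    exact h100
  refine ⟨hz2, hb0, ?_, hlogzs, hpw, hexpb, ?_, ?_, ?_, ?_⟩
  · rw [hL400]; exact hwhalf
  · calc x = Real.sqrt x ^ 2 := by rw [sq, hsq]
      _ ≤ _ := pow_le_pow_left₀ hsxpos.le hzK1 2
  · have h18 := mul_le_mul_of_nonneg_right hs4 hsxpos.le
    linarith
  · have h15 : Real.log (Real.sqrt x / (zz x K0 : ℝ)) ≤ L / 2 := by
      have h16 : Real.sqrt x / (zz x K0 : ℝ) ≤ Real.sqrt x := div_le_self hsxpos.le (by linarith)
      have h17 := Real.log_le_log (by positivity) h16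
      rw [hsx, Real.log_exp] at h17
      rw [hsx]
      exact h17
    rw [← hrl] at h15
    have h19 : r * 0.69 ≤ r * Real.log 2 := mul_le_mul_of_nonneg_left hl2.le hr0
    linarith
  · have hJ : 2 * L ≤ (JJ x : ℝ) := Nat.le_ceil _
    rw [Pmt_two_pow]
    calc x = Real.exp L := hexpL.symm
      _ ≤ _ := by
        apply Real.exp_le_exp.mpr
        have h20 : 2 * L * Real.log 2 ≤ (JJ x : ℝ) * Real.log 2 :=
          mul_le_mul_of_nonneg_right hJ (by linarith)
        have h21 : L * 0.69 ≤ L * Real.log 2 := mul_le_mul_of_nonneg_left hl2.le hLpos.le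
        linarith

end Pool.Agent.Lib.BV
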