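import Pool.Agent.Lib.BV.SpecW

namespace Pool.Agent.Lib.BV

open Finset

private theorem Pnt_norm (n : ℕ) :
    ‖((ArithmeticFunction.vonMangoldt n : ℝ) : ℂ) - 1‖ ≤ 1 + Real.log n := by
  have h0 : (0 : ℝ) ≤ ArithmeticFunction.vonMangoldt n := ArithmeticFunction.vonMangoldt_nonneg
  have h1 : ArithmeticFunction.vonMangoldt n ≤ Real.log n := ArithmeticFunction.vonMangoldt_le_log
  have h2 : ((ArithmeticFunction.vonMangoldt n : ℝ) : ℂ) - 1 =
      ((ArithmeticFunction.vonMangoldt n - 1 : ℝ) : ℂ) := by push_cast; ring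
  rw [h2, Complex.norm_real, Real.norm_eq_abs, abs_le]
  constructor <;> linarith

private theorem Pnt_pow {A x : ℝ} (hA : 0 < A) (hx : 4 ≤ x) :
    Real.sqrt x * Real.log x ≤
      (2 * (A + 1)) ^ (A + 1) * (x / (Real.log x) ^ A) := by
  have hx0 : 0 < x := by linarith
  have hl : 1 < Real.log x := by
    have h1 : Real.log 4 ≤ Real.log x := Real.log_le_log (by norm_num) hx
    have h2 : Real.log 4 = 2 * Real.log 2 := by
      rw [show (4 : ℝ) = 2 ^ 2 by norm_num, Real.log_pow]; push_cast; ring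
    have := Real.log_two_gt_d9
    linarith
  have hl0 : 0 < Real.log x := by linarith
  have hε : 0 < 1 / (2 * (A + 1)) := by positivity
  have h1 := Real.log_le_rpow_div hx0.le hε
  have h2 : (Real.log x) ^ (A + 1) ≤ (x ^ (1 / (2 * (A + 1))) / (1 / (2 * (A + 1)))) ^ (A + 1) :=
    Real.rpow_le_rpow hl0.le h1 (by linarith)
  have h3 : (x ^ (1 / (2 * (A + 1))) / (1 / (2 * (A + 1)))) ^ (A + 1) =
      (2 * (A + 1)) ^ (A + 1) * Real.sqrt x := by
    rw [div_div_eq_mul_div, div_one, Real.mul_rpow (by positivity) (by positivity),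
      ← Real.rpow_mul hx0.le, Real.sqrt_eq_rpow, mul_comm]
    congr 2
    field_simp
  rw [h3, Real.rpow_add hl0, Real.rpow_one] at h2
  have hLA : 0 < (Real.log x) ^ A := by positivity
  rw [← mul_div_assoc, le_div_iff₀ hLA]
  have hs : Real.sqrt x * Real.sqrt x = x := Real.mul_self_sqrt hx0.le
  have hs0 : 0 ≤ Real.sqrt x := Real.sqrt_nonneg x
  calc Real.sqrt x * Real.log x * (Real.log x) ^ A
      = Real.sqrt x * ((Real.log x) ^ A * Real.log x) := by ring
    _ ≤ Real.sqrt x * ((2 * (A + 1)) ^ (A + 1) * Real.sqrt x) :=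
        mul_le_mul_of_nonneg_left h2 hs0
    _ = (2 * (A + 1)) ^ (A + 1) * (Real.sqrt x * Real.sqrt x) := by ring
    _ = (2 * (A + 1)) ^ (A + 1) * x := by rw [hs]

private theorem Pnt_npr_le {x : ℝ} (hx : 0 ≤ x) : npr x ≤ x := by
  unfold npr
  have h1 := Finset.card_filter_le (Icc 1 ⌊x⌋₊) Nat.Prime
  rw [Nat.card_Icc] at h1
  have h2 : (((Icc 1 ⌊x⌋₊).filter Nat.Prime).card : ℝ) ≤ (⌊x⌋₊ : ℝ) := by
    exact_mod_cast (by omega)
  exact h2.trans (Nat.floor_le hx)

private theorem Pnt_large (A : ℝ) (hA : 0 < A) (h1 : ZkkStmt) (h2 : SmbStmt) (h3 : PrsStmt)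
    (h4 : PpsStmt) (h5 : LirStmt) :
    ∃ C : ℝ, 0 < C ∧ ∀ x : ℝ, 4 ≤ x →
      |npr x - Pool.Agent.Results.MP_00e23e_nt.li x| ≤ C * (x / (Real.log x) ^ A) := by
  set i : ℕ := ⌈A⌉₊ with hi
  have hi1 : 1 ≤ i := Nat.one_le_iff_ne_zero.mpr (by
    rw [hi]; exact (Nat.ceil_pos.mpr hA).ne')
  have hAi : A ≤ (i : ℝ) := Nat.le_ceil A
  obtain ⟨j, hj⟩ : ∃ j : ℕ, j + 1 = 2 * i := ⟨2 * i - 1, by omega⟩
  obtain ⟨C1, hC1, hz⟩ := h1 j
  obtain ⟨C2, hC2, hp⟩ := h3 i hi1
  obtain ⟨C4, hC4, hq⟩ := h4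
  set c : ℕ → ℂ := fun n => (((ArithmeticFunction.vonMangoldt n : ℝ) : ℂ) - 1) *
      ((Real.log n : ℝ) : ℂ) ^ j with hc
  have hcn : ∀ n : ℕ, ‖c n‖ ≤ (1 + Real.log n) ^ (2 * i) := by
    intro n
    have hl0 : 0 ≤ Real.log (n : ℝ) := Real.log_natCast_nonneg n
    rw [hc, ← hj, pow_succ, mul_comm ((1 + Real.log (n : ℝ)) ^ j)]
    simp only [norm_mul, norm_pow]
    rw [Complex.norm_real, Real.norm_eq_abs, abs_of_nonneg hl0]
    exact mul_le_mul (Pnt_norm n) (pow_le_pow_left₀ hl0 (by linarith) j) (by positivity)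
      (by positivity)
  have hsum : ∀ s : ℂ, 1 < s.re → LSeriesSummable c s := fun s hs =>
    h2 (fun n => ((ArithmeticFunction.vonMangoldt n : ℝ) : ℂ) - 1) j s
      (fun n _ => Pnt_norm n) hs
  have key := hp c C1 hC1.le hcn hsum hz
  refine ⟨(C4 + 10) * (2 * (A + 1)) ^ (A + 1) + C2 * (C1 + 1), by positivity, ?_⟩
  intro x hx
  have hx0 : 0 < x := by linarith
  have hl : 1 < Real.log x := by
    have h1 : Real.log 4 ≤ Real.log x := Real.log_le_log (by norm_num) hx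
    have h2 : Real.log 4 = 2 * Real.log 2 := by
      rw [show (4 : ℝ) = 2 ^ 2 by norm_num, Real.log_pow]; push_cast; ring
    have := Real.log_two_gt_d9
    linarith
  have hl0 : 0 < Real.log x := by linarith
  set M := ⌊Real.sqrt x⌋₊ with hM
  set N := ⌊x⌋₊ with hN
  have hM2 : 2 ≤ M := by
    apply Nat.le_floor
    push_cast
    rw [show (2 : ℝ) = Real.sqrt 4 by
      rw [show (4 : ℝ) = 2 ^ 2 by norm_num, Real.sqrt_sq (by norm_num)]]
    exact Real.sqrt_le_sqrt hx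
  have k1 := key x hx
  have k2 := hq (fun _ => 1) x hx (fun _ => by simp)
  have k3 := h5 x hx
  -- identities
  have e1 : ∑ n ∈ Ioc M N, c n / ((Real.log n : ℝ) : ℂ) ^ (2 * i) =
      (((∑ n ∈ Ioc M N, ArithmeticFunction.vonMangoldt n / Real.log n) -
        ∑ n ∈ Ioc M N, 1 / Real.log (n : ℝ) : ℝ) : ℂ) := by
    rw [← Finset.sum_sub_distrib, Complex.ofReal_sum]
    apply Finset.sum_congr rfl
    intro n hn
    rw [mem_Ioc] at hn
    have hn2 : (2 : ℝ) ≤ n := by exact_mod_cast (by omega : 2 ≤ n)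
    have hln : Real.log (n : ℝ) ≠ 0 := (Real.log_pos (by linarith)).ne'
    have hln' : ((Real.log (n : ℝ) : ℝ) : ℂ) ≠ 0 := by exact_mod_cast hln
    rw [hc, ← hj]
    simp only [Complex.ofReal_sub, Complex.ofReal_div, Complex.ofReal_one]
    field_simp
    rw [pow_succ, mul_assoc]
  have e2 : ∑ n ∈ Ioc M N, ((ArithmeticFunction.vonMangoldt n / Real.log n : ℝ) : ℂ) *
      (fun _ : ℕ => (1 : ℂ)) n - ∑ n ∈ (Icc 1 N).filter Nat.Prime, (fun _ : ℕ => (1 : ℂ)) n =
      (((∑ n ∈ Ioc M N, ArithmeticFunction.vonMangoldt n / Real.log n) - npr x : ℝ) : ℂ) := by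
    unfold npr
    rw [← hN]
    push_cast
    simp
  rw [e1, Complex.norm_real, Real.norm_eq_abs] at k1
  rw [e2, Complex.norm_real, Real.norm_eq_abs] at k2
  have hLA : 0 < (Real.log x) ^ A := by positivity
  have b1 : x / (Real.log x) ^ i ≤ x / (Real.log x) ^ A := by
    apply div_le_div_of_nonneg_left hx0.le hLA
    rw [← Real.rpow_natCast]
    exact Real.rpow_le_rpow_of_exponent_le hl.le hAi
  have b2 := Pnt_pow hA hx
  have hs0 : 0 ≤ Real.sqrt x := Real.sqrt_nonneg x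
  have b3 : Real.sqrt x ≤ Real.sqrt x * Real.log x := by nlinarith
  have hT : 0 < x / (Real.log x) ^ A := by positivity
  have b4 : C2 * (C1 + 1) * (x / (Real.log x) ^ i) ≤
      C2 * (C1 + 1) * (x / (Real.log x) ^ A) :=
    mul_le_mul_of_nonneg_left b1 (by positivity)
  have b5 : C4 * (Real.sqrt x * Real.log x) ≤
      C4 * ((2 * (A + 1)) ^ (A + 1) * (x / (Real.log x) ^ A)) :=
    mul_le_mul_of_nonneg_left b2 hC4.le
  rw [abs_le] at k1 k2 k3 ⊢
  constructor
  · nlinarith [k1.1, k1.2, k2.1, k2.2, k3.1, k3.2]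
  · nlinarith [k1.1, k1.2, k2.1, k2.2, k3.1, k3.2]

/-- the prime number theorem with error x (log x)^-A -/
theorem tPnt (h1 : ZkkStmt) (h2 : SmbStmt) (h3 : PrsStmt) (h4 : PpsStmt) (h5 : LirStmt) :
    PntStmt := by
  intro A hA
  obtain ⟨C, hC, h⟩ := Pnt_large A hA h1 h2 h3 h4 h5
  refine ⟨C + 8 * 2 ^ A, by positivity, ?_⟩
  intro x hx
  have hx0 : 0 < x := by linarith
  have hl : 0 < Real.log x := Real.log_pos (by linarith)
  have hT : 0 < x / (Real.log x) ^ A := by positivity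
  have h2A : (0 : ℝ) < 2 ^ A := by positivity
  rcases le_or_gt 4 x with h4x | h4x
  · refine (h x h4x).trans ?_
    nlinarith [mul_pos h2A hT]
  · have a1 := Pnt_npr_le hx0.le
    have a2 := Pool.Agent.Lib.EH.li_nonneg (x := x) (by linarith)
    have a3 := Pool.Agent.Lib.EH.li_le (x := x) (by linarith)
    have a4 : 0 ≤ npr x := by unfold npr; positivity
    have a5 : Real.log x ≤ 2 := by
      have h1 := Real.log_le_sub_one_of_pos (x := x / 2) (by linarith)
      have h2 : Real.log x = Real.log (x / 2) + Real.log 2 := by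
        rw [← Real.log_mul (by linarith) (by norm_num)]; ring_nf
      have := Real.log_two_lt_d9
      linarith
    have a6 : (Real.log x) ^ A ≤ 2 ^ A := Real.rpow_le_rpow hl.le a5 hA.le
    have a7 : 1 ≤ 2 ^ A * (x / (Real.log x) ^ A) := by
      have hLA : 0 < (Real.log x) ^ A := by positivity
      rw [← mul_div_assoc, le_div_iff₀ hLA]
      nlinarith
    have a8 : |npr x - Pool.Agent.Results.MP_00e23e_nt.li x| ≤ 8 := by
      rw [abs_le]
      constructor <;> linarith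
    nlinarith [mul_pos hC hT]

end Pool.Agent.Lib.BV
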