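import Pool.Agent.Lib.BV.SpecC

/-!
MP_00e23e_nt, Lib/BV, module Pr2: the sum over the moduli by cofactor and conductor, for products of two sums.
-/

namespace Pool.Agent.Lib.BV

open Finset Pool.Agent.Lib.EH3

/-- a character mod q vanishes outside the n coprime to q -/
private theorem Pr2_cs (f : ℕ → ℂ) (N q e : ℕ) (χ : DirichletCharacter ℂ q) :
    cs f N (q * e) χ = cs f N e χ := by
  unfold cs
  rw [Finset.sum_filter, Finset.sum_filter]
  apply Finset.sum_congr rfl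
  intro n _
  by_cases h : n.Coprime e
  · rw [if_pos h]
    by_cases h' : n.Coprime q
    · rw [if_pos (Nat.Coprime.mul_right h' h)]
    · rw [if_neg (fun h2 => h' (Nat.Coprime.coprime_mul_right_right h2))]
      have h1 : χ ((n : ℤ) : ZMod q) = 0 := by
        rw [χ.apply_eq_zero_iff]
        intro h2
        exact h' (Nat.isCoprime_iff_coprime.mp h2)
      rw [Int.cast_natCast] at h1
      rw [h1, mul_zero]
  · rw [if_neg h, if_neg (fun h2 => h (Nat.Coprime.coprime_mul_left_right h2))]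

/-- the term of the pair (e, q) -/
private noncomputable def Pr2_G (a b : ℕ → ℂ) (M N e q : ℕ) : ℝ :=
  (1 / (e.totient : ℝ)) * ((1 / (q.totient : ℝ)) * ∑ χ ∈ prim q, ‖cs a M e χ‖ * ‖cs b N e χ‖)

private theorem Pr2_term (a b : ℕ → ℂ) (M N d q : ℕ) (hd : 1 ≤ d) (hq : q ∣ d) :
    (1 / (d.totient : ℝ)) * ∑ χ ∈ prim q, ‖cs a M d χ‖ * ‖cs b N d χ‖ ≤
      Pr2_G a b M N (d / q) q := by
  obtain ⟨e, rfl⟩ := hq
  have hq0 : 0 < q := Nat.pos_of_ne_zero (by rintro rfl; simp at hd)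
  have he0 : 0 < e := Nat.pos_of_ne_zero (by rintro rfl; simp at hd)
  rw [Nat.mul_div_cancel_left e hq0]
  unfold Pr2_G
  have h1 : ∑ χ ∈ prim q, ‖cs a M (q * e) χ‖ * ‖cs b N (q * e) χ‖ =
      ∑ χ ∈ prim q, ‖cs a M e χ‖ * ‖cs b N e χ‖ :=
    Finset.sum_congr rfl (fun χ _ => by rw [Pr2_cs, Pr2_cs])
  rw [h1, ← mul_assoc]
  apply mul_le_mul_of_nonneg_right _
    (Finset.sum_nonneg (fun χ _ => mul_nonneg (norm_nonneg _) (norm_nonneg _)))
  have h3 : (0 : ℝ) < (q.totient : ℝ) := by exact_mod_cast Nat.totient_pos.mpr hq0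
  have h4 : (0 : ℝ) < (e.totient : ℝ) := by exact_mod_cast Nat.totient_pos.mpr he0
  have h2 : ((q.totient * e.totient : ℕ) : ℝ) ≤ ((q * e).totient : ℝ) := by
    exact_mod_cast Nat.totient_super_multiplicative q e
  have h6 : 1 / (e.totient : ℝ) * (1 / (q.totient : ℝ)) =
      1 / ((q.totient : ℝ) * (e.totient : ℝ)) := one_div_mul_one_div_rev _ _
  rw [h6]
  have h5 : (q.totient : ℝ) * (e.totient : ℝ) ≤ ((q * e).totient : ℝ) := by
    rw [← Nat.cast_mul]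
    exact h2
  exact one_div_le_one_div_of_le (mul_pos h3 h4) h5

theorem tPr2 : Pr2Stmt := by
  classical
  intro a b M N D Q
  have h1 : ∀ d ∈ Icc 1 D, (1 / (d.totient : ℝ)) * ∑ q ∈ d.divisors.filter (fun q => Q < q),
        ∑ χ ∈ prim q, ‖cs a M d χ‖ * ‖cs b N d χ‖ ≤
      ∑ q ∈ d.divisors.filter (fun c => Q < c), Pr2_G a b M N (d / q) q := by
    intro d hd
    have hd1 : 1 ≤ d := (Finset.mem_Icc.mp hd).1
    rw [Finset.mul_sum]
    apply Finset.sum_le_sum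
    intro q hq
    exact Pr2_term a b M N d q hd1 (Nat.dvd_of_mem_divisors (Finset.mem_filter.mp hq).1)
  refine le_trans (Finset.sum_le_sum h1) (le_of_eq ?_)
  have h4 : ∑ e ∈ Icc 1 D, (1 / (e.totient : ℝ)) * ∑ q ∈ Ioc Q (D / e), (1 / (q.totient : ℝ)) *
        ∑ χ ∈ prim q, ‖cs a M e χ‖ * ‖cs b N e χ‖ =
      ∑ e ∈ Icc 1 D, ∑ q ∈ Ioc Q (D / e), Pr2_G a b M N e q := by
    apply Finset.sum_congr rfl
    intro e _
    rw [Finset.mul_sum]
    rfl
  rw [h4, Finset.sum_sigma', Finset.sum_sigma']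
  apply Finset.sum_nbij' (i := fun p => (⟨p.1 / p.2, p.2⟩ : Σ _ : ℕ, ℕ))
    (j := fun p => (⟨p.1 * p.2, p.2⟩ : Σ _ : ℕ, ℕ))
  · rintro ⟨d, q⟩ hp
    simp only [Finset.mem_sigma, Finset.mem_Icc, Finset.mem_filter, Nat.mem_divisors,
      Finset.mem_Ioc] at hp ⊢
    obtain ⟨⟨hd1, hd2⟩, ⟨hqd, hd0⟩, hQ⟩ := hp
    have hq0 : 0 < q := by omega
    have hqle : q ≤ d := Nat.le_of_dvd hd1 hqd
    have he : 0 < d / q := Nat.div_pos hqle hq0
    refine ⟨⟨he, le_trans (Nat.div_le_self d q) hd2⟩, hQ, ?_⟩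
    rw [Nat.le_div_iff_mul_le he, Nat.mul_div_cancel' hqd]
    exact hd2
  · rintro ⟨e, q⟩ hp
    simp only [Finset.mem_sigma, Finset.mem_Icc, Finset.mem_filter, Nat.mem_divisors,
      Finset.mem_Ioc] at hp ⊢
    obtain ⟨⟨he1, he2⟩, hQ, hq2⟩ := hp
    have hq0 : 0 < q := by omega
    rw [Nat.le_div_iff_mul_le he1] at hq2
    have hpos : 0 < e * q := Nat.mul_pos he1 hq0
    refine ⟨⟨hpos, ?_⟩, ⟨dvd_mul_left q e, by omega⟩, hQ⟩
    rw [mul_comm]
    exact hq2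
  · rintro ⟨d, q⟩ hp
    simp only [Finset.mem_sigma, Finset.mem_Icc, Finset.mem_filter, Nat.mem_divisors] at hp
    simp only [Nat.div_mul_cancel hp.2.1.1]
  · rintro ⟨e, q⟩ hp
    simp only [Finset.mem_sigma, Finset.mem_Icc, Finset.mem_Ioc] at hp
    have hq0 : 0 < q := by omega
    simp only [Nat.mul_div_cancel e hq0]
  · rintro ⟨d, q⟩ _
    rfl

end Pool.Agent.Lib.BV
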