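import Pool.Agent.Lib.BV.SpecB

/-!
MP_00e23e_nt, Lib/BV, module Pri: primes in (P, 2P].
-/

namespace Pool.Agent.Lib.BV

open Finset Pool.Agent.Lib.EH3

theorem tPri : PriStmt := by
  intro P hP
  have hP0 : (0 : ℝ) < P := by
    have : 0 < P := by omega
    exact_mod_cast this
  have hlP : 0 < Real.log P := Real.log_pos (by exact_mod_cast (show 1 < P by omega))
  have hcast : ((2 * P : ℕ) : ℝ) = 2 * (P : ℝ) := by push_cast; ring
  have h1 : Real.log P * ∑ n ∈ Icc 1 (2 * P), blk P n ≤ Chebyshev.theta ((2 * P : ℕ) : ℝ) := by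
    have hIoc : Ioc 0 (2 * P) = Icc 1 (2 * P) := by
      ext n
      rw [mem_Ioc, mem_Icc]
      omega
    unfold Chebyshev.theta
    rw [Nat.floor_natCast, hIoc, mul_sum, sum_filter]
    refine sum_le_sum fun n _ => ?_
    unfold blk
    by_cases h : n.Prime
    · rw [if_pos h]
      by_cases h' : n.Prime ∧ P < n ∧ n ≤ 2 * P
      · rw [if_pos h', mul_one]
        exact Real.log_le_log hP0 (by exact_mod_cast h'.2.1.le)
      · rw [if_neg h', mul_zero]
        exact Real.log_nonneg (by exact_mod_cast h.one_le)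
    · rw [if_neg h, if_neg (fun h' => h h'.1), mul_zero]
  have h2 : Chebyshev.theta ((2 * P : ℕ) : ℝ) ≤ Real.log 4 * ((2 * P : ℕ) : ℝ) :=
    Chebyshev.theta_le_log4_mul_x (Nat.cast_nonneg _)
  have h3 : Real.log 4 ≤ 2 := by
    have h4 : (4 : ℝ) = 2 ^ 2 := by norm_num
    rw [h4, Real.log_pow]
    have := Real.log_two_lt_d9
    norm_num
    linarith
  have h5 : Real.log P * ∑ n ∈ Icc 1 (2 * P), blk P n ≤ 4 * P := by
    rw [hcast] at h1 h2
    nlinarith
  rw [← mul_div_assoc, le_div_iff₀ hlP, mul_comm]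
  exact h5

end Pool.Agent.Lib.BV
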