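import Pool.Agent.Lib.BV.SpecW

/-!
MP_00e23e_nt, BV, module Prs: from bounds for the series to bounds for the sums.
-/

namespace Pool.Agent.Lib.BV

open Finset

theorem tPrs (h1 : PerStmt) (h2 : UnsStmt) (h3 : PasStmt) : PrsStmt := by
  intro i hi
  obtain ⟨C1, hC1, hper⟩ := h1
  obtain ⟨C2, hC2, huns⟩ := h2 i
  obtain ⟨C3, hC3, hpas⟩ := h3 i hi
  refine ⟨C3 * (C2 * (C1 + 1)), by positivity, ?_⟩
  intro c K hK hc hsum hL x hx
  have hA : ∀ y : ℝ, 1 ≤ y →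
      ‖∑ n ∈ Icc 1 ⌊y⌋₊, c n * ((Real.log (y / n) : ℝ) : ℂ)‖ ≤ C1 * K * y :=
    hper c K hK hsum hL
  have hB : ∀ u : ℝ, 1 ≤ u →
      ‖∑ n ∈ Icc 1 ⌊u⌋₊, c n‖ ≤ C2 * (C1 * K + 1) * (u * (1 + Real.log u) ^ i) :=
    huns c (C1 * K) (by positivity) hc hA
  have hC := hpas c (C2 * (C1 * K + 1)) (by positivity) hB x hx
  have hlog : 0 ≤ Real.log x := Real.log_nonneg (by linarith)
  refine hC.trans ?_
  apply mul_le_mul_of_nonneg_right _ (by positivity)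
  have h4 : C1 * K + 1 ≤ (C1 + 1) * (K + 1) := by nlinarith
  calc C3 * (C2 * (C1 * K + 1)) ≤ C3 * (C2 * ((C1 + 1) * (K + 1))) :=
        mul_le_mul_of_nonneg_left (mul_le_mul_of_nonneg_left h4 hC2.le) hC3.le
    _ = C3 * (C2 * (C1 + 1)) * (K + 1) := by ring

end Pool.Agent.Lib.BV
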