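import Pool.Agent.Lib.BV.SpecD

/-!
MP_00e23e_nt, Lib/BV, module Ptw: the pointwise inequality.
-/

namespace Pool.Agent.Lib.BV

open Finset Pool.Agent.Lib.EH3 Pool.Agent.Results.MP_00e23e_nt

private lemma Ptw_count {y : ℝ} (hy : 2 ≤ y) {N d l : ℕ} (hN : ⌊y⌋₊ ≤ N) :
    ((primeCount y d l : ℕ) : ℂ) = cls (fun n => (PY y n : ℂ)) N d l := by
  unfold cls primeCount
  have h1 : ∀ n : ℕ, ((PY y n : ℝ) : ℂ) = if n.Prime ∧ (n : ℝ) ≤ y then 1 else 0 := by
    intro n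
    unfold PY
    split_ifs <;> simp
  rw [Finset.sum_congr rfl fun n _ => h1 n, Finset.sum_boole]
  congr 2
  ext n
  simp only [Finset.mem_filter, Finset.mem_Icc]
  rw [Nat.le_floor_iff (by linarith)]
  constructor
  · rintro ⟨⟨h2, h3⟩, h4, h5⟩
    exact ⟨⟨⟨h2, (Nat.le_floor h3).trans hN⟩, h5⟩, h4, h3⟩
  · rintro ⟨⟨⟨h2, h3⟩, h5⟩, h4, h6⟩
    exact ⟨⟨h2, h6⟩, h4, h5⟩

private lemma Ptw_mean {y : ℝ} (hy : 2 ≤ y) {N d : ℕ} (hd : 1 ≤ d) (hN : ⌊y⌋₊ ≤ N) :
    ∃ c : ℕ, c ≤ d.primeFactors.card ∧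
      ∑ n ∈ (Icc 1 N).filter (fun n => n.Coprime d), (PY y n : ℂ) = (npr y : ℂ) - (c : ℂ) := by
  refine ⟨(((Icc 1 ⌊y⌋₊).filter Nat.Prime).filter fun n => ¬ n.Coprime d).card, ?_, ?_⟩
  · refine Finset.card_le_card fun n hn => ?_
    simp only [Finset.mem_filter] at hn
    rw [Nat.mem_primeFactors]
    refine ⟨hn.1.2, ?_, by omega⟩
    by_contra h2
    exact hn.2 (hn.1.2.coprime_iff_not_dvd.mpr h2)
  · have h1 : ∀ n : ℕ, ((PY y n : ℝ) : ℂ) = if n.Prime ∧ (n : ℝ) ≤ y then 1 else 0 := by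
      intro n
      unfold PY
      split_ifs <;> simp
    rw [Finset.sum_congr rfl fun n _ => h1 n, Finset.sum_boole]
    have h2 := Finset.card_filter_add_card_filter_not (s := (Icc 1 ⌊y⌋₊).filter Nat.Prime)
      (fun n => n.Coprime d)
    have h3 : (((Icc 1 N).filter (fun n => n.Coprime d)).filter
        (fun n : ℕ => n.Prime ∧ (n : ℝ) ≤ y)).card =
        (((Icc 1 ⌊y⌋₊).filter Nat.Prime).filter fun n => n.Coprime d).card := by
      congr 1
      ext n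
      simp only [Finset.mem_filter, Finset.mem_Icc]
      rw [Nat.le_floor_iff (by linarith)]
      constructor
      · rintro ⟨⟨⟨h2, h3⟩, h5⟩, h4, h6⟩
        exact ⟨⟨⟨h2, h6⟩, h4⟩, h5⟩
      · rintro ⟨⟨⟨h2, h3⟩, h4⟩, h5⟩
        exact ⟨⟨⟨h2, (Nat.le_floor h3).trans hN⟩, h5⟩, h4, h3⟩
    rw [h3, eq_sub_iff_add_eq]
    unfold npr
    rw [← h2]
    push_cast
    rfl

private lemma Ptw_norm (φ g l : ℝ) (hφ : 0 < φ) (c : ℕ) (n : ℝ) (hc : (c : ℝ) ≤ n) :
    ‖(1 / (φ : ℂ)) * ((g : ℂ) - (c : ℂ) - (l : ℂ))‖ ≤ (1 / φ) * (|g - l| + n) := by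
  have h1 : (1 / (φ : ℂ)) * ((g : ℂ) - (c : ℂ) - (l : ℂ)) =
      (((1 / φ) * (g - c - l) : ℝ) : ℂ) := by
    push_cast
    ring
  rw [h1, Complex.norm_real, Real.norm_eq_abs, abs_mul, abs_of_pos (by positivity : 0 < 1 / φ)]
  refine mul_le_mul_of_nonneg_left ?_ (by positivity)
  have h2 : g - c - l = (g - l) - c := by ring
  rw [h2]
  refine (abs_sub _ _).trans ?_
  rw [abs_of_nonneg (Nat.cast_nonneg c : (0 : ℝ) ≤ c)]
  linarith

theorem tPtw (h : SplStmt) : PtwStmt := by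
  intro x η y z K J Q d l hx hy hyx hd hl hQ
  have hNy : ⌊y⌋₊ ≤ 4 * ⌊x⌋₊ := by
    have h1 := Nat.floor_le_floor hyx
    omega
  generalize 4 * ⌊x⌋₊ = N at *
  have hφ : (0 : ℝ) < (d.totient : ℝ) := by exact_mod_cast Nat.totient_pos.mpr hd
  have e1 := Ptw_count (d := d) (l := l) hy hNy
  obtain ⟨c, hc, e2⟩ := Ptw_mean hy hd hNy
  have hsplit : ∀ n, ((PY y n : ℝ) : ℂ) = (RY z y n : ℂ) - (FY η z K J y n : ℂ) +
      (GY η z K J y n : ℂ) := by
    intro n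
    unfold GY
    push_cast
    ring
  have e3 : cls (fun n => (PY y n : ℂ)) N d l = cls (fun n => (RY z y n : ℂ)) N d l -
      cls (fun n => (FY η z K J y n : ℂ)) N d l + cls (fun n => (GY η z K J y n : ℂ)) N d l := by
    unfold cls
    rw [← Finset.sum_sub_distrib, ← Finset.sum_add_distrib]
    exact Finset.sum_congr rfl fun n _ => hsplit n
  have e4 : ∑ n ∈ (Icc 1 N).filter (fun n => n.Coprime d), (PY y n : ℂ) =
      ∑ n ∈ (Icc 1 N).filter (fun n => n.Coprime d), (RY z y n : ℂ) -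
      ∑ n ∈ (Icc 1 N).filter (fun n => n.Coprime d), (FY η z K J y n : ℂ) +
      ∑ n ∈ (Icc 1 N).filter (fun n => n.Coprime d), (GY η z K J y n : ℂ) := by
    rw [← Finset.sum_sub_distrib, ← Finset.sum_add_distrib]
    exact Finset.sum_congr rfl fun n _ => hsplit n
  have e5 := h (fun n => (FY η z K J y n : ℂ)) N d l Q hd hl hQ
  have key : ((err y d l : ℝ) : ℂ) =
      (cls (fun n => (RY z y n : ℂ)) N d l -
        (1 / (d.totient : ℂ)) * ∑ n ∈ (Icc 1 N).filter (fun n => n.Coprime d), (RY z y n : ℂ)) +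
      cls (fun n => (GY η z K J y n : ℂ)) N d l -
      (1 / (d.totient : ℂ)) *
        ∑ n ∈ (Icc 1 N).filter (fun n => n.Coprime d), (GY η z K J y n : ℂ) -
      del (fun c => 1 < c ∧ c ≤ Q) (fun n => (FY η z K J y n : ℂ)) N d l -
      del (fun c => Q < c) (fun n => (FY η z K J y n : ℂ)) N d l +
      (1 / ((d.totient : ℝ) : ℂ)) * ((npr y : ℂ) - (c : ℂ) - (li y : ℂ)) := by
    unfold err
    push_cast
    rw [e1, e3, e5]
    have e6 := e4
    rw [e2] at e6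
    linear_combination -(1 / (d.totient : ℂ)) * e6
  have n1 : |err y d l| = ‖((err y d l : ℝ) : ℂ)‖ := by
    rw [Complex.norm_real, Real.norm_eq_abs]
  have n2 : ‖cls (fun n => (GY η z K J y n : ℂ)) N d l‖ ≤
      ∑ n ∈ (Icc 1 N).filter (fun n => n ≡ l [MOD d]), |GY η z K J y n| := by
    unfold cls
    refine (norm_sum_le _ _).trans (le_of_eq ?_)
    exact Finset.sum_congr rfl fun n _ => by rw [Complex.norm_real, Real.norm_eq_abs]
  have n3 : ‖(1 / (d.totient : ℂ)) *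
      ∑ n ∈ (Icc 1 N).filter (fun n => n.Coprime d), (GY η z K J y n : ℂ)‖ ≤
      (1 / (d.totient : ℝ)) * ∑ n ∈ Icc 1 N, |GY η z K J y n| := by
    rw [norm_mul]
    have h1 : ‖(1 / (d.totient : ℂ))‖ = 1 / (d.totient : ℝ) := by
      rw [norm_div, norm_one, Complex.norm_natCast]
    rw [h1]
    refine mul_le_mul_of_nonneg_left ?_ (by positivity)
    calc ‖∑ n ∈ (Icc 1 N).filter (fun n => n.Coprime d), (GY η z K J y n : ℂ)‖
        ≤ ∑ n ∈ (Icc 1 N).filter (fun n => n.Coprime d), |GY η z K J y n| := by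
          refine (norm_sum_le _ _).trans (le_of_eq ?_)
          exact Finset.sum_congr rfl fun n _ => by rw [Complex.norm_real, Real.norm_eq_abs]
      _ ≤ ∑ n ∈ Icc 1 N, |GY η z K J y n| :=
          Finset.sum_le_sum_of_subset_of_nonneg (Finset.filter_subset _ _)
            fun n _ _ => abs_nonneg _
  have n4 := Ptw_norm (d.totient : ℝ) (npr y) (li y) hφ c (d.primeFactors.card : ℝ)
    (by exact_mod_cast hc)
  rw [n1, key]
  have t1 := norm_add_le
    ((cls (fun n => (RY z y n : ℂ)) N d l -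
        (1 / (d.totient : ℂ)) * ∑ n ∈ (Icc 1 N).filter (fun n => n.Coprime d), (RY z y n : ℂ)) +
      cls (fun n => (GY η z K J y n : ℂ)) N d l -
      (1 / (d.totient : ℂ)) *
        ∑ n ∈ (Icc 1 N).filter (fun n => n.Coprime d), (GY η z K J y n : ℂ) -
      del (fun c => 1 < c ∧ c ≤ Q) (fun n => (FY η z K J y n : ℂ)) N d l -
      del (fun c => Q < c) (fun n => (FY η z K J y n : ℂ)) N d l)
    ((1 / ((d.totient : ℝ) : ℂ)) * ((npr y : ℂ) - (c : ℂ) - (li y : ℂ)))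
  have t2 := norm_sub_le
    ((cls (fun n => (RY z y n : ℂ)) N d l -
        (1 / (d.totient : ℂ)) * ∑ n ∈ (Icc 1 N).filter (fun n => n.Coprime d), (RY z y n : ℂ)) +
      cls (fun n => (GY η z K J y n : ℂ)) N d l -
      (1 / (d.totient : ℂ)) *
        ∑ n ∈ (Icc 1 N).filter (fun n => n.Coprime d), (GY η z K J y n : ℂ) -
      del (fun c => 1 < c ∧ c ≤ Q) (fun n => (FY η z K J y n : ℂ)) N d l)
    (del (fun c => Q < c) (fun n => (FY η z K J y n : ℂ)) N d l)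
  have t3 := norm_sub_le
    ((cls (fun n => (RY z y n : ℂ)) N d l -
        (1 / (d.totient : ℂ)) * ∑ n ∈ (Icc 1 N).filter (fun n => n.Coprime d), (RY z y n : ℂ)) +
      cls (fun n => (GY η z K J y n : ℂ)) N d l -
      (1 / (d.totient : ℂ)) *
        ∑ n ∈ (Icc 1 N).filter (fun n => n.Coprime d), (GY η z K J y n : ℂ))
    (del (fun c => 1 < c ∧ c ≤ Q) (fun n => (FY η z K J y n : ℂ)) N d l)
  have t4 := norm_sub_le
    ((cls (fun n => (RY z y n : ℂ)) N d l -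
        (1 / (d.totient : ℂ)) * ∑ n ∈ (Icc 1 N).filter (fun n => n.Coprime d), (RY z y n : ℂ)) +
      cls (fun n => (GY η z K J y n : ℂ)) N d l)
    ((1 / (d.totient : ℂ)) *
        ∑ n ∈ (Icc 1 N).filter (fun n => n.Coprime d), (GY η z K J y n : ℂ))
  have t5 := norm_add_le
    (cls (fun n => (RY z y n : ℂ)) N d l -
        (1 / (d.totient : ℂ)) * ∑ n ∈ (Icc 1 N).filter (fun n => n.Coprime d), (RY z y n : ℂ))
    (cls (fun n => (GY η z K J y n : ℂ)) N d l)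
  linarith

end Pool.Agent.Lib.BV
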