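import Pool.Agent.Lib.BV.SpecF

/-! Module Pws: pointwise inequalities of the Brun-Hooley sieve. -/

namespace Pool.Agent.Lib.BV

open Finset Pool.Agent.Lib.EH3

theorem Pws_dvi (p n : ℕ) : 0 ≤ dvi p n ∧ dvi p n ≤ 1 := by
  unfold dvi
  split_ifs <;> norm_num

theorem Pws_prod (s : Finset ℕ) (n : ℕ) (hs : ∀ p ∈ s, p.Prime) :
    ∏ p ∈ s, dvi p n = dvi (∏ p ∈ s, p) n := by
  by_cases h : ∀ p ∈ s, p ∣ n
  · have h1 : (∏ p ∈ s, p) ∣ n :=
      Finset.prod_primes_dvd n (fun p hp => (hs p hp).prime) h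
    have h2 : dvi (∏ p ∈ s, p) n = 1 := by unfold dvi; rw [if_pos h1]
    rw [h2]
    refine Finset.prod_eq_one (fun p hp => ?_)
    unfold dvi
    rw [if_pos (h p hp)]
  · push Not at h
    obtain ⟨p, hp, hpn⟩ := h
    have h1 : ¬ (∏ p ∈ s, p) ∣ n := fun h => hpn (dvd_trans (Finset.dvd_prod_of_mem _ hp) h)
    have h2 : dvi (∏ p ∈ s, p) n = 0 := by unfold dvi; rw [if_neg h1]
    rw [h2]
    refine Finset.prod_eq_zero hp ?_
    unfold dvi
    rw [if_neg hpn]

theorem Pws_prime (z d j p : ℕ) (hp : p ∈ pbl z d j) : p.Prime := by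
  unfold pbl at hp
  exact (Finset.mem_filter.1 hp).2.1

theorem Pws_rr (z d l n : ℕ) (hl : l.Coprime d) (hn : n ≡ l [MOD d]) :
    ∏ p ∈ (Icc 1 z).filter (fun p => p.Prime ∧ ¬ p ∣ d), (1 - dvi p n) = rr z n := by
  classical
  by_cases h : Rough z n
  · have h1 : rr z n = 1 := by unfold rr; rw [if_pos h]
    rw [h1]
    refine Finset.prod_eq_one (fun p hp => ?_)
    rw [Finset.mem_filter, Finset.mem_Icc] at hp
    have h2 : ¬ p ∣ n := by
      intro hpn
      have := h p hp.2.1 hpn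
      omega
    unfold dvi
    rw [if_neg h2, sub_zero]
  · have h1 : rr z n = 0 := by unfold rr; rw [if_neg h]
    rw [h1]
    unfold Rough at h
    push Not at h
    obtain ⟨p, hp, hpn, hpz⟩ := h
    have hpd : ¬ p ∣ d := by
      intro hpd
      have h2 : p ∣ l := (hn.dvd_iff hpd).1 hpn
      have h3 : p ∣ Nat.gcd l d := Nat.dvd_gcd h2 hpd
      rw [hl] at h3
      exact hp.one_lt.ne' (Nat.dvd_one.1 h3)
    refine Finset.prod_eq_zero (Finset.mem_filter.2 ⟨Finset.mem_Icc.2 ⟨hp.one_lt.le, hpz⟩, hp, hpd⟩) ?_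
    unfold dvi
    rw [if_pos hpn, sub_self]

theorem Pws_y (z d b j n : ℕ) : ∑ s ∈ lowS (pbl z d j) (2 * (b + j)),
    (-1 : ℝ) ^ s.card * ∏ p ∈ s, dvi p n = yf z d b j n := by
  unfold yf
  refine Finset.sum_congr rfl (fun s hs => ?_)
  unfold lowS at hs
  rw [Finset.mem_filter, Finset.mem_powerset] at hs
  rw [Pws_prod s n (fun p hp => Pws_prime z d j p (hs.1 hp))]

theorem Pws_w (z d b j n : ℕ) : ∑ s ∈ (pbl z d j).powersetCard (2 * (b + j) + 1),
    ∏ p ∈ s, dvi p n = wf z d b j n := by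
  unfold wf
  refine Finset.sum_congr rfl (fun s hs => ?_)
  rw [Finset.mem_powersetCard] at hs
  rw [Pws_prod s n (fun p hp => Pws_prime z d j p (hs.1 hp))]

theorem tPws (hBnf : BnfStmt) (hHly : HlyStmt) (hPbs : PbsStmt) : PwsStmt := by
  intro z d b l n hz hd hl hn hmod
  have hmain := hHly z (fun j => ∏ p ∈ pbl z d j, (1 - dvi p n)) (fun j => yf z d b j n)
    (fun j => wf z d b j n) (fun j _ => by
      have h1 := hBnf (b + j) (pbl z d j) (fun p => dvi p n) (fun p _ => Pws_dvi p n)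
      rw [Pws_y, Pws_w] at h1
      refine ⟨?_, h1.1, h1.2⟩
      apply Finset.prod_nonneg
      intro p _
      have := (Pws_dvi p n).2
      linarith)
  have h2 := hPbs.2.1 z d (fun p => 1 - dvi p n) (by omega)
  rw [Pws_rr z d l n hl hmod] at h2
  rw [h2] at hmain
  exact hmain

end Pool.Agent.Lib.BV
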