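import Pool.Agent.Lib.BV.SpecH

/-!
MP_00e23e_nt, directory Lib/BV, module Rec: bounds for the derivatives of the logarithmic derivative from
bounds for the derivatives of an L-series, by recursion.
-/

namespace Pool.Agent.Lib.BV

open Finset

private theorem Rec_DS0 {q : ℕ} (χ : DirichletCharacter ℂ q) (s : ℂ) (hs : 1 < s.re) :
    0 < ‖DS (chf χ) 0 s‖ := by
  have h : DS (chf χ) 0 s = LSeries (fun n : ℕ => χ (n : ZMod q)) s := by
    unfold DS
    apply LSeries_congr
    intro n hn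
    simp [chf]
  rw [h, norm_pos_iff]
  exact DirichletCharacter.LSeries_ne_zero_of_one_lt_re χ hs

theorem tRec (h : IdrStmt) : RecStmt := by
  intro Cf hCf j
  induction j using Nat.strong_induction_on with
  | _ j ih =>
    choose! a ha ih2 using ih
    refine ⟨Cf (j + 1) + ∑ i ∈ range j, (j.choose i : ℝ) * (a i * Cf (j - i)) + 1, ?_, ?_⟩
    · have h0 : 0 ≤ ∑ i ∈ range j, (j.choose i : ℝ) * (a i * Cf (j - i)) :=
        sum_nonneg fun i hi => mul_nonneg (Nat.cast_nonneg _)
          (mul_nonneg (ha i (mem_range.mp hi)).le (hCf _))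
      have := hCf (j + 1)
      linarith
    · intro q χ s V hq hs hV hD
      have hpos := Rec_DS0 χ s hs
      have hid := h q χ j s hq hs
      rw [sum_range_succ, Nat.choose_self, Nat.cast_one, one_mul, Nat.sub_self] at hid
      have hLS : LS (chf χ) j s * DS (chf χ) 0 s = DS (chf χ) (j + 1) s -
          ∑ i ∈ range j, (j.choose i : ℂ) * (LS (chf χ) i s * DS (chf χ) (j - i) s) := by
        rw [hid]; ring
      have h1 : ‖LS (chf χ) j s‖ * ‖DS (chf χ) 0 s‖ ≤ ‖DS (chf χ) (j + 1) s‖ +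
          ∑ i ∈ range j, (j.choose i : ℝ) * (‖LS (chf χ) i s‖ * ‖DS (chf χ) (j - i) s‖) := by
        rw [← norm_mul, hLS]
        refine (norm_sub_le _ _).trans (add_le_add le_rfl ?_)
        refine (norm_sum_le _ _).trans (sum_le_sum fun i _ => ?_)
        rw [norm_mul, norm_mul, Complex.norm_natCast]
      have h2 : ‖DS (chf χ) (j + 1) s‖ ≤ Cf (j + 1) * V ^ (j + 1) * ‖DS (chf χ) 0 s‖ :=
        hD (j + 1) (by omega) le_rfl
      have h3 : ∀ i ∈ range j, (j.choose i : ℝ) * (‖LS (chf χ) i s‖ * ‖DS (chf χ) (j - i) s‖) ≤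
          ((j.choose i : ℝ) * (a i * Cf (j - i))) * (V ^ (j + 1) * ‖DS (chf χ) 0 s‖) := by
        intro i hi
        have hij : i < j := mem_range.mp hi
        have e1 : ‖LS (chf χ) i s‖ ≤ a i * V ^ (i + 1) :=
          ih2 i hij q χ s V hq hs hV fun m hm1 hm2 => hD m hm1 (by omega)
        have e2 : ‖DS (chf χ) (j - i) s‖ ≤ Cf (j - i) * V ^ (j - i) * ‖DS (chf χ) 0 s‖ :=
          hD (j - i) (by omega) (by omega)
        have e3 : V ^ (j + 1) = V ^ (i + 1) * V ^ (j - i) := by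
          rw [← pow_add]; congr 1; omega
        have e4 : ‖LS (chf χ) i s‖ * ‖DS (chf χ) (j - i) s‖ ≤
            (a i * V ^ (i + 1)) * (Cf (j - i) * V ^ (j - i) * ‖DS (chf χ) 0 s‖) :=
          mul_le_mul e1 e2 (norm_nonneg _) ((norm_nonneg _).trans e1)
        calc (j.choose i : ℝ) * (‖LS (chf χ) i s‖ * ‖DS (chf χ) (j - i) s‖)
            ≤ (j.choose i : ℝ) *
              ((a i * V ^ (i + 1)) * (Cf (j - i) * V ^ (j - i) * ‖DS (chf χ) 0 s‖)) :=
              mul_le_mul_of_nonneg_left e4 (Nat.cast_nonneg _)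
          _ = _ := by rw [e3]; ring
      have h4 : ‖LS (chf χ) j s‖ * ‖DS (chf χ) 0 s‖ ≤
          (Cf (j + 1) + ∑ i ∈ range j, (j.choose i : ℝ) * (a i * Cf (j - i))) * V ^ (j + 1) *
            ‖DS (chf χ) 0 s‖ := by
        refine h1.trans ((add_le_add h2 (sum_le_sum h3)).trans (le_of_eq ?_))
        rw [← sum_mul]; ring
      have h5 : ‖LS (chf χ) j s‖ ≤
          (Cf (j + 1) + ∑ i ∈ range j, (j.choose i : ℝ) * (a i * Cf (j - i))) * V ^ (j + 1) :=
        le_of_mul_le_mul_right h4 hpos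
      refine h5.trans (mul_le_mul_of_nonneg_right ?_ (pow_nonneg hV _))
      linarith

end Pool.Agent.Lib.BV
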