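import Pool.Agent.Lib.BV.SpecB

/-!
MP_00e23e_nt, Lib/BV, module Rou: the number of rough integers.
-/

namespace Pool.Agent.Lib.BV

open Finset Pool.Agent.Lib.EH3

private theorem Rou_nonneg (P m : ℕ) : 0 ≤ rr P m := by
  unfold rr
  split_ifs <;> norm_num

private theorem Rou_div (P m q : ℕ) (h : q ∣ m) : rr P m ≤ rr P (m / q) := by
  unfold rr
  by_cases h1 : Rough P m
  · have h2 : Rough P (m / q) := fun p hp hd => h1 p hp (hd.trans (Nat.div_dvd_of_dvd h))
    rw [if_pos h1, if_pos h2]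
  · rw [if_neg h1]
    split_ifs <;> norm_num

private theorem Rou_harm (n : ℕ) : ∑ k ∈ Icc 1 n, 1 / (k : ℝ) = (harmonic n : ℝ) := by
  rw [harmonic_eq_sum_Icc]
  push_cast
  simp only [one_div]

/-- the pairs with product at most `M` -/
private def Rou_T (M : ℕ) : Finset (ℕ × ℕ) :=
  ((Icc 1 M) ×ˢ (Icc 1 M)).filter fun x => x.1 * x.2 ≤ M

private theorem Rou_sum (M : ℕ) (F : ℕ → ℕ → ℝ) :
    ∑ m ∈ Icc 1 M, ∑ q ∈ m.divisors, F q (m / q) = ∑ x ∈ Rou_T M, F x.1 x.2 := by
  rw [Finset.sum_sigma']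
  refine Finset.sum_nbij' (fun s => (s.2, s.1 / s.2)) (fun x => ⟨x.1 * x.2, x.1⟩) ?_ ?_ ?_ ?_ ?_
  · rintro ⟨m, q⟩ h
    simp only [mem_sigma, mem_Icc, Nat.mem_divisors] at h
    obtain ⟨⟨h1, h2⟩, h3, h4⟩ := h
    have hq : 0 < q := Nat.pos_of_dvd_of_pos h3 h1
    have hm : q * (m / q) = m := Nat.mul_div_cancel' h3
    have h5 : 0 < m / q := Nat.div_pos (Nat.le_of_dvd h1 h3) hq
    simp only [Rou_T, mem_filter, mem_product, mem_Icc, hm]
    exact ⟨⟨⟨hq, (Nat.le_of_dvd h1 h3).trans h2⟩, h5, (Nat.div_le_self _ _).trans h2⟩, h2⟩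
  · rintro ⟨a, b⟩ h
    simp only [Rou_T, mem_filter, mem_product, mem_Icc] at h
    obtain ⟨⟨⟨h1, h2⟩, h3, h4⟩, h5⟩ := h
    simp only [mem_sigma, mem_Icc, Nat.mem_divisors]
    have h6 : 0 < a * b := Nat.mul_pos h1 h3
    exact ⟨⟨h6, h5⟩, Dvd.intro _ rfl, h6.ne'⟩
  · rintro ⟨m, q⟩ h
    simp only [mem_sigma, mem_Icc, Nat.mem_divisors] at h
    simp only [Nat.mul_div_cancel' h.2.1]
  · rintro ⟨a, b⟩ h
    simp only [Rou_T, mem_filter, mem_product, mem_Icc] at h
    simp only [Nat.mul_div_cancel_left b h.1.1.1]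
  · rintro ⟨m, q⟩ _
    rfl

private theorem Rou_log (P M : ℕ) :
    ∑ m ∈ Icc 1 M, rr P m * Real.log m ≤
      (Real.log 4 + 4) * M * ∑ m ∈ Icc 1 M, rr P m / m := by
  have h1 : ∑ m ∈ Icc 1 M, rr P m * Real.log m ≤
      ∑ m ∈ Icc 1 M, ∑ q ∈ m.divisors, ArithmeticFunction.vonMangoldt q * rr P (m / q) := by
    refine Finset.sum_le_sum fun m _ => ?_
    rw [← ArithmeticFunction.vonMangoldt_sum, Finset.mul_sum]
    refine Finset.sum_le_sum fun q hq => ?_
    rw [mul_comm]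
    exact mul_le_mul_of_nonneg_left (Rou_div P m q (Nat.dvd_of_mem_divisors hq))
      ArithmeticFunction.vonMangoldt_nonneg
  refine h1.trans ?_
  rw [Rou_sum M fun q b => ArithmeticFunction.vonMangoldt q * rr P b, Rou_T, Finset.sum_filter,
    Finset.sum_product_right, Finset.mul_sum]
  refine Finset.sum_le_sum fun b hb => ?_
  have hb1 : 1 ≤ b := (mem_Icc.1 hb).1
  have hb0 : (0 : ℝ) < b := by exact_mod_cast hb1
  have h2 : ∑ a ∈ Icc 1 M, (if a * b ≤ M then ArithmeticFunction.vonMangoldt a * rr P b else 0) =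
      (∑ a ∈ (Icc 1 M).filter (fun a => a * b ≤ M), ArithmeticFunction.vonMangoldt a) * rr P b := by
    rw [Finset.sum_mul, Finset.sum_filter]
  have h3 : ∑ a ∈ (Icc 1 M).filter (fun a => a * b ≤ M), ArithmeticFunction.vonMangoldt a ≤
      (Real.log 4 + 4) * ((M : ℝ) / b) := by
    refine le_trans ?_ (Chebyshev.psi_le_const_mul_self (x := (M : ℝ) / b) (by positivity))
    rw [Chebyshev.psi_eq_sum_Icc]
    refine Finset.sum_le_sum_of_subset_of_nonneg ?_ fun _ _ _ =>
      ArithmeticFunction.vonMangoldt_nonneg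
    intro a ha
    simp only [mem_filter, mem_Icc] at ha
    rw [mem_Icc]
    refine ⟨Nat.zero_le _, Nat.le_floor ?_⟩
    rw [le_div_iff₀ hb0]
    exact_mod_cast ha.2
  calc _ = (∑ a ∈ (Icc 1 M).filter (fun a => a * b ≤ M), ArithmeticFunction.vonMangoldt a) *
        rr P b := h2
    _ ≤ (Real.log 4 + 4) * ((M : ℝ) / b) * rr P b :=
        mul_le_mul_of_nonneg_right h3 (Rou_nonneg P b)
    _ = (Real.log 4 + 4) * M * (rr P b / b) := by ring

private theorem Rou_prod (P M : ℕ) :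
    (∑ m ∈ Icc 1 M, rr P m / m) * ∑ k ∈ Icc 1 P, 1 / (k : ℝ) ≤
      ∑ n ∈ Icc 1 (M * P), 1 / (n : ℝ) := by
  classical
  have h1 : ∑ m ∈ Icc 1 M, rr P m / (m : ℝ) =
      ∑ m ∈ (Icc 1 M).filter (fun m => Rough P m), 1 / (m : ℝ) := by
    rw [Finset.sum_filter]
    refine Finset.sum_congr rfl fun m _ => ?_
    unfold rr
    split_ifs <;> simp
  rw [h1, Finset.sum_mul_sum, ← Finset.sum_product']
  have h2 : ∀ m m' k k' : ℕ, 1 ≤ m → 1 ≤ k' → k' ≤ P → Rough P m →
      m * k = m' * k' → m ∣ m' := by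
    intro m m' k k' hm hk' hk'P hr he
    have hc : m.Coprime k' := by
      refine Nat.Coprime.symm (Nat.coprime_of_dvd fun p hp h4 h5 => ?_)
      exact absurd (hr p hp h5) (not_lt.2 ((Nat.le_of_dvd hk' h4).trans hk'P))
    exact hc.dvd_of_dvd_mul_right (he ▸ Dvd.intro _ rfl)
  have h3 : Set.InjOn (fun x : ℕ × ℕ => x.1 * x.2)
      (((Icc 1 M).filter (fun m => Rough P m) ×ˢ Icc 1 P : Finset (ℕ × ℕ)) : Set (ℕ × ℕ)) := by
    rintro ⟨m, k⟩ hx ⟨m', k'⟩ hy he
    simp only [coe_product, Set.mem_prod, mem_coe, mem_filter, mem_Icc] at hx hy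
    simp only at he
    have e1 := h2 m m' k k' hx.1.1.1 hy.2.1 hy.2.2 hx.1.2 he
    have e2 := h2 m' m k' k hy.1.1.1 hx.2.1 hx.2.2 hy.1.2 he.symm
    have e3 := Nat.dvd_antisymm e1 e2
    subst e3
    have e4 := Nat.eq_of_mul_eq_mul_left (hx.1.1.1 : 0 < m) he
    rw [e4]
  have h4 : ∑ x ∈ (Icc 1 M).filter (fun m => Rough P m) ×ˢ Icc 1 P,
      1 / (x.1 : ℝ) * (1 / (x.2 : ℝ)) =
      ∑ n ∈ ((Icc 1 M).filter (fun m => Rough P m) ×ˢ Icc 1 P).image (fun x : ℕ × ℕ => x.1 * x.2),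
        1 / (n : ℝ) := by
    rw [Finset.sum_image h3]
    refine Finset.sum_congr rfl fun x _ => ?_
    rw [Nat.cast_mul, one_div_mul_one_div]
  rw [h4]
  refine Finset.sum_le_sum_of_subset_of_nonneg ?_ fun n _ _ => by positivity
  intro n hn
  simp only [mem_image, mem_product, mem_filter, mem_Icc, Prod.exists] at hn
  obtain ⟨a, b, ⟨⟨⟨h5, h6⟩, _⟩, h7, h8⟩, rfl⟩ := hn
  rw [mem_Icc]
  exact ⟨Nat.mul_pos h5 h7, Nat.mul_le_mul h6 h8⟩

theorem tRou : RouStmt := by
  have hl4 : 0 < Real.log 4 := Real.log_pos (by norm_num)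
  refine ⟨4 * (Real.log 4 + 5), by positivity, fun P M hP hPM => ?_⟩
  have hM : 2 ≤ M := hP.trans hPM
  have hM0 : (0 : ℝ) < M := by exact_mod_cast (by omega : 0 < M)
  have hP0 : (0 : ℝ) < P := by exact_mod_cast (by omega : 0 < P)
  have hl2 : (1 : ℝ) / 2 ≤ Real.log 2 := by
    have := Real.log_two_gt_d9
    linarith
  have hlM : Real.log 2 ≤ Real.log M := Real.log_le_log (by norm_num) (by exact_mod_cast hM)
  have hlM0 : 0 < Real.log M := by linarith
  have hlP : 0 < Real.log P := Real.log_pos (by exact_mod_cast (by omega : 1 < P))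
  have hlPM : Real.log P ≤ Real.log M := Real.log_le_log hP0 (by exact_mod_cast hPM)
  set S : ℝ := ∑ m ∈ Icc 1 M, rr P m with hS
  set H : ℝ := ∑ m ∈ Icc 1 M, rr P m / m with hH
  have hH0 : 0 ≤ H := Finset.sum_nonneg fun m _ => div_nonneg (Rou_nonneg P m) (Nat.cast_nonneg m)
  -- step 1
  have h1 : S * Real.log M ≤ (Real.log 4 + 5) * M * H := by
    have e1 : S * Real.log M ≤ ∑ m ∈ Icc 1 M, (rr P m * Real.log m + M * (rr P m / m)) := by
      rw [hS, Finset.sum_mul]
      refine Finset.sum_le_sum fun m hm => ?_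
      have hm1 : 1 ≤ m := (mem_Icc.1 hm).1
      have hm0 : (0 : ℝ) < m := by exact_mod_cast hm1
      have e2 : Real.log M ≤ Real.log m + M / m := by
        have e3 : Real.log M = Real.log m + Real.log (M / m) := by
          rw [Real.log_div hM0.ne' hm0.ne']
          ring
        rw [e3]
        have e4 : Real.log ((M : ℝ) / m) ≤ M / m := by
          have := Real.log_le_sub_one_of_pos (div_pos hM0 hm0)
          linarith
        linarith
      calc rr P m * Real.log M ≤ rr P m * (Real.log m + M / m) :=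
            mul_le_mul_of_nonneg_left e2 (Rou_nonneg P m)
        _ = rr P m * Real.log m + M * (rr P m / m) := by ring
    rw [Finset.sum_add_distrib, ← Finset.mul_sum] at e1
    have e5 := Rou_log P M
    calc S * Real.log M ≤ _ := e1
      _ ≤ (Real.log 4 + 4) * M * H + M * H := by
          rw [← hH]
          rw [← hH] at e5
          linarith
      _ = (Real.log 4 + 5) * M * H := by ring
  -- step 2
  have h2 : H * Real.log P ≤ 4 * Real.log M := by
    have e1 := Rou_prod P M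
    rw [Rou_harm, Rou_harm, ← hH] at e1
    have e2 : Real.log P ≤ (harmonic P : ℝ) := by
      refine le_trans ?_ (log_add_one_le_harmonic P)
      exact Real.log_le_log hP0 (by push_cast; linarith)
    have e3 := harmonic_le_one_add_log (M * P)
    rw [Nat.cast_mul, Real.log_mul hM0.ne' hP0.ne'] at e3
    calc H * Real.log P ≤ H * (harmonic P : ℝ) := mul_le_mul_of_nonneg_left e2 hH0
      _ ≤ (harmonic (M * P) : ℝ) := e1
      _ ≤ 1 + (Real.log M + Real.log P) := e3
      _ ≤ 4 * Real.log M := by linarith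
  -- conclusion
  have h3 : S * Real.log M * Real.log P ≤ 4 * (Real.log 4 + 5) * M * Real.log M := by
    calc S * Real.log M * Real.log P ≤ (Real.log 4 + 5) * M * H * Real.log P :=
          mul_le_mul_of_nonneg_right h1 hlP.le
      _ = (Real.log 4 + 5) * M * (H * Real.log P) := by ring
      _ ≤ (Real.log 4 + 5) * M * (4 * Real.log M) :=
          mul_le_mul_of_nonneg_left h2 (by positivity)
      _ = 4 * (Real.log 4 + 5) * M * Real.log M := by ring
  have h4 : S * Real.log P ≤ 4 * (Real.log 4 + 5) * M := by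
    refine le_of_mul_le_mul_right ?_ hlM0
    calc S * Real.log P * Real.log M = S * Real.log M * Real.log P := by ring
      _ ≤ _ := h3
  rw [← mul_div_assoc, le_div_iff₀ hlP]
  exact h4

end Pool.Agent.Lib.BV
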