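import Pool.Agent.Lib.BV.SpecD

/-! Module Ryy: the rough part. -/

namespace Pool.Agent.Lib.BV

open Finset Pool.Agent.Lib.EH3

theorem Ryy_cls (y : ℝ) (z d l N : ℕ) (hy : 0 ≤ y) (hN : ⌊y⌋₊ ≤ N) :
    cls (fun n => (RY z y n : ℂ)) N d l =
      ((∑ n ∈ (Ioc 0 ⌊y⌋₊).filter (fun n => n ≡ l [MOD d]), rr z n : ℝ) : ℂ) := by
  classical
  unfold cls
  rw [Complex.ofReal_sum]
  symm
  apply Finset.sum_subset_zero_on_sdiff
  · intro n hn
    rw [Finset.mem_filter, Finset.mem_Ioc] at hn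
    rw [Finset.mem_filter, Finset.mem_Icc]
    exact ⟨⟨hn.1.1, le_trans hn.1.2 hN⟩, hn.2⟩
  · intro n hn
    rw [Finset.mem_sdiff, Finset.mem_filter, Finset.mem_filter, Finset.mem_Icc, Finset.mem_Ioc] at hn
    have h1 : ¬ (n : ℝ) ≤ y := by
      intro h
      exact hn.2 ⟨⟨hn.1.1.1, Nat.le_floor h⟩, hn.1.2⟩
    have h2 : RY z y n = 0 := by unfold RY; rw [if_neg h1]
    rw [h2, Complex.ofReal_zero]
  · intro n hn
    rw [Finset.mem_filter, Finset.mem_Ioc] at hn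
    have h1 : (n : ℝ) ≤ y := (Nat.le_floor_iff hy).1 hn.1.2
    have h2 : RY z y n = rr z n := by unfold RY; rw [if_pos h1]
    rw [h2]

theorem tRyy (h1 : FlStmt) (h2 : MeaStmt) : RyyStmt := by
  obtain ⟨C, hC, hF⟩ := h1
  refine ⟨C, hC, ?_⟩
  intro y z b d l N hy hN hz hb hd hl
  apply h2 _ N d l _ hd hl
  intro l1 l2 hl1 hl2
  rw [Ryy_cls y z d l1 N hy hN, Ryy_cls y z d l2 N hy hN, ← Complex.ofReal_sub, Complex.norm_real,
    Real.norm_eq_abs]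
  refine le_trans (hF z b d l1 l2 0 ⌊y⌋₊ hz hb hd hl1 hl2 (Nat.zero_le _)) ?_
  have hlog : 0 < Real.log z := Real.log_pos (by exact_mod_cast hz)
  have hfl : ((⌊y⌋₊ : ℕ) : ℝ) ≤ y := Nat.floor_le hy
  have ht : (0 : ℝ) < d.totient := by exact_mod_cast Nat.totient_pos.2 hd
  have h3 : (((⌊y⌋₊ : ℕ) : ℝ) - ((0 : ℕ) : ℝ)) / (d.totient : ℝ) ≤ y / (d.totient : ℝ) := by
    rw [Nat.cast_zero, sub_zero]
    exact div_le_div_of_nonneg_right hfl ht.le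
  have h4 : 0 ≤ Real.exp (-(b : ℝ)) / Real.log z := div_nonneg (Real.exp_pos _).le hlog.le
  have h5 := mul_le_mul_of_nonneg_left (mul_le_mul_of_nonneg_right h3 h4) hC.le
  linarith

end Pool.Agent.Lib.BV
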