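import Pool.Agent.Lib.BV.SpecB

namespace Pool.Agent.Lib.BV

open Finset Pool.Agent.Lib.EH3

private theorem Scv_lt (h : CvStmt) {z n : ℕ} (hz : 1 ≤ z) (hn : 1 ≤ n) {k k' : ℕ}
    (h1 : cv (z * 2 ^ k) n ≠ 0) (h2 : cv (z * 2 ^ k') n ≠ 0) : ¬ k < k' := by
  intro hlt
  have hpos : ∀ j : ℕ, 1 ≤ z * 2 ^ j := fun j => Nat.one_le_iff_ne_zero.mpr (by positivity)
  obtain ⟨_, p, hp, hpn, _, hp2⟩ := (h (z * 2 ^ k) n (hpos k) hn).2.2.1 h1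
  obtain ⟨hr, _⟩ := (h (z * 2 ^ k') n (hpos k') hn).2.2.1 h2
  have h3 := hr p hp hpn
  have h4 : 2 ^ (k + 1) ≤ 2 ^ k' := Nat.pow_le_pow_right (by norm_num) hlt
  have h5 : z * 2 ^ (k + 1) ≤ z * 2 ^ k' := Nat.mul_le_mul_left z h4
  have h6 : z * 2 ^ (k + 1) = 2 * (z * 2 ^ k) := by ring
  omega

theorem tScv (h : CvStmt) : ScvStmt := by
  intro z K n hz hn
  have hpos : ∀ j : ℕ, 1 ≤ z * 2 ^ j := fun j => Nat.one_le_iff_ne_zero.mpr (by positivity)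
  by_cases h0 : ∀ k ∈ range K, cv (z * 2 ^ k) n = 0
  · rw [Finset.sum_eq_zero h0]
    norm_num
  · push Not at h0
    obtain ⟨k, hk, hk0⟩ := h0
    rw [Finset.sum_eq_single_of_mem k hk]
    · exact (h (z * 2 ^ k) n (hpos k) hn).2.1
    · intro j _ hjk
      by_contra hj0
      rcases Nat.lt_or_gt_of_ne hjk with hlt | hlt
      · exact Scv_lt h hz hn hj0 hk0 hlt
      · exact Scv_lt h hz hn hk0 hj0 hlt

end Pool.Agent.Lib.BV
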