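import Pool.Agent.Lib.BV.SpecH

/-!
MP_00e23e_nt, BV, module Ser: bounds for Dirichlet series with bounded partial sums.
-/

namespace Pool.Agent.Lib.BV

open Finset

private theorem Ser_norm_gg (j : ℕ) (s : ℂ) (hs : 1 ≤ s.re) (n : ℕ) (hn : 1 ≤ n) :
    ‖gg j s (n : ℝ)‖ ≤ (Real.log n) ^ j / n := by
  have hn' : (1 : ℝ) ≤ n := by exact_mod_cast hn
  have h0 : (0 : ℝ) < n := by linarith
  have hL : 0 ≤ Real.log n := Real.log_nonneg hn'
  unfold gg
  rw [norm_mul, norm_pow, Complex.norm_real, Real.norm_of_nonneg hL,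
    Complex.norm_cpow_eq_rpow_re_of_pos h0, div_eq_mul_inv]
  apply mul_le_mul_of_nonneg_left _ (by positivity)
  rw [Complex.neg_re, ← Real.rpow_neg_one]
  exact Real.rpow_le_rpow_of_exponent_le hn' (by linarith)

private theorem Ser_partial (f : ℕ → ℂ) (j : ℕ) (s : ℂ) (M : ℕ) :
    ∑ n ∈ range (M + 1), LSeries.term (fun n => f n * ((Real.log n : ℝ) : ℂ) ^ j) s n =
      ∑ n ∈ Icc 1 M, f n * gg j s n := by
  induction M with
  | zero => simp
  | succ M ih =>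
    rw [Finset.sum_range_succ, ih, Finset.sum_Icc_succ_top (by omega),
      LSeries.term_of_ne_zero (Nat.succ_ne_zero M)]
    congr 1
    unfold gg
    rw [Complex.cpow_neg, div_eq_mul_inv, mul_assoc]
    push_cast
    rfl

private theorem Ser_abel (f g : ℕ → ℂ) (N k : ℕ) :
    ∑ n ∈ Icc 1 (N + k), f n * g n = ∑ n ∈ Icc 1 N, f n * g n +
      (∑ n ∈ Icc 1 (N + k), f n) * (g (N + 1) + ∑ i ∈ range k, (g (N + 1 + i + 1) - g (N + 1 + i))) -
      (∑ n ∈ Icc 1 N, f n) * g (N + 1) -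
      ∑ i ∈ range k, (∑ n ∈ Icc 1 (N + 1 + i), f n) * (g (N + 1 + i + 1) - g (N + 1 + i)) := by
  have htel : ∀ k, g (N + 1) + ∑ i ∈ range k, (g (N + 1 + i + 1) - g (N + 1 + i)) =
      g (N + 1 + k) := by
    intro k
    induction k with
    | zero => simp
    | succ k ih =>
      rw [Finset.sum_range_succ, ← add_assoc, ih]
      ring_nf
  rw [htel]
  induction k with
  | zero => simp
  | succ k ih =>
    have e1 : N + (k + 1) = N + k + 1 := by omega
    have e2 : N + 1 + k = N + k + 1 := by omega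
    rw [e1, Finset.sum_Icc_succ_top (by omega), ih, Finset.sum_range_succ, e2,
      Finset.sum_Icc_succ_top (by omega)]
    have e3 : N + 1 + (k + 1) = N + k + 1 + 1 := by omega
    rw [e3]
    ring

theorem tSer (h1 : TaiStmt) (h2 : GdiStmt) : SerStmt := by
  intro j
  obtain ⟨C2, hC2, hT⟩ := h1 j
  obtain ⟨C1, hC1, hG⟩ := h2 j
  refine ⟨2 ^ j * (5 + 2 * (C1 * C2)), by positivity, ?_⟩
  intro f Q s hQ hf hs1 hs2
  obtain ⟨hf1, hf2⟩ := hf
  obtain ⟨X, hX⟩ : ∃ X : ℝ, X = Q * (|s.im| + 2) := ⟨_, rfl⟩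
  have ht0 : 0 ≤ |s.im| := abs_nonneg _
  have hX4 : 4 ≤ X := by rw [hX]; nlinarith
  have hQX : Q ≤ X := by rw [hX]; nlinarith
  obtain ⟨E, hE⟩ : ∃ E : ℝ, E = Real.log X := ⟨_, rfl⟩
  have hell : ell Q s.im = E := by
    unfold ell
    rw [hE, hX]
  have hE1 : 1 ≤ E := by
    have h3 : Real.log 4 ≤ Real.log X := Real.log_le_log (by norm_num) hX4
    have h4 : Real.log 4 = 2 * Real.log 2 := by
      rw [show (4 : ℝ) = 2 ^ 2 by norm_num, Real.log_pow]
      norm_num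
    have h5 := Real.log_two_gt_d9
    rw [hE]
    linarith
  rw [hell]
  obtain ⟨N, hN⟩ : ∃ N : ℕ, N = ⌈X⌉₊ := ⟨_, rfl⟩
  have hXN : X ≤ N := by rw [hN]; exact Nat.le_ceil X
  have hNX : (N : ℝ) < X + 1 := by rw [hN]; exact Nat.ceil_lt_add_one (by linarith)
  have hN1 : 1 ≤ N := by
    have : (1 : ℝ) ≤ N := by linarith
    exact_mod_cast this
  -- the logarithm
  obtain ⟨Y, hY⟩ : ∃ Y : ℝ, Y = Real.log ((N : ℝ) + 2) := ⟨_, rfl⟩
  have hY0 : 0 ≤ Y := by rw [hY]; exact Real.log_nonneg (by linarith)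
  have hYE : Y ≤ 2 * E := by
    have h3 : Real.log ((N : ℝ) + 2) ≤ Real.log (X ^ 2) := by
      apply Real.log_le_log (by linarith)
      nlinarith
    rw [Real.log_pow] at h3
    rw [hY, hE]
    push_cast at h3
    exact h3
  -- the head
  have hhead : ‖∑ n ∈ Icc 1 N, f n * gg j s n‖ ≤ Y ^ j * (1 + Y) := by
    have h3 : ∀ n ∈ Icc 1 N, ‖f n * gg j s n‖ ≤ Y ^ j * (n : ℝ)⁻¹ := by
      intro n hn
      obtain ⟨hn1, hn2⟩ := Finset.mem_Icc.mp hn
      have hn1' : (1 : ℝ) ≤ n := by exact_mod_cast hn1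
      have hn2' : (n : ℝ) ≤ N := by exact_mod_cast hn2
      have h4 := Ser_norm_gg j s hs1.le n hn1
      have h5 : 0 ≤ Real.log n := Real.log_nonneg hn1'
      have h6 : Real.log n ≤ Y := by
        rw [hY]
        exact Real.log_le_log (by linarith) (by linarith)
      have h7 : (Real.log n) ^ j / n ≤ Y ^ j * (n : ℝ)⁻¹ := by
        rw [div_eq_mul_inv]
        exact mul_le_mul_of_nonneg_right (pow_le_pow_left₀ h5 h6 j) (by positivity)
      rw [norm_mul]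
      calc ‖f n‖ * ‖gg j s n‖ ≤ 1 * ‖gg j s n‖ :=
            mul_le_mul_of_nonneg_right (hf1 n) (norm_nonneg _)
        _ ≤ Y ^ j * (n : ℝ)⁻¹ := by rw [one_mul]; exact h4.trans h7
    refine (norm_sum_le_of_le _ h3).trans ?_
    rw [← Finset.mul_sum]
    apply mul_le_mul_of_nonneg_left _ (by positivity)
    have h8 : ∑ n ∈ Icc 1 N, (n : ℝ)⁻¹ = ((harmonic N : ℚ) : ℝ) := by
      rw [harmonic_eq_sum_Icc]
      push_cast
      rfl
    rw [h8]
    have h9 := harmonic_le_one_add_log N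
    have h10 : Real.log N ≤ Y := by
      rw [hY]
      exact Real.log_le_log (by linarith) (by linarith)
    linarith
  -- the differences
  have hdiff : ∀ k : ℕ, ∑ i ∈ range k,
      ‖gg j s ((N + 1 + i + 1 : ℕ) : ℝ) - gg j s ((N + 1 + i : ℕ) : ℝ)‖ ≤
      C1 * (|s.im| + 2) * (C2 * (Y ^ j / ((N : ℝ) + 1))) := by
    intro k
    have h3 : ∀ i ∈ range k, ‖gg j s ((N + 1 + i + 1 : ℕ) : ℝ) - gg j s ((N + 1 + i : ℕ) : ℝ)‖ ≤
        C1 * (|s.im| + 2) * ((Real.log (((N + 1 + i : ℕ) : ℝ) + 1)) ^ j /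
          ((N + 1 + i : ℕ) : ℝ) ^ 2) := by
      intro i _
      have h4 := hG (N + 1 + i) ((N + 1 + i + 1 : ℕ) : ℝ) s (by omega)
        (by push_cast; linarith) (by push_cast; linarith) hs1.le hs2
      refine h4.trans (le_of_eq ?_)
      ring
    refine (Finset.sum_le_sum h3).trans ?_
    rw [← Finset.mul_sum]
    apply mul_le_mul_of_nonneg_left _ (by positivity)
    have h5 := hT (N + 1) (N + k) (by omega)
    have h6 : ∑ i ∈ range k, (Real.log (((N + 1 + i : ℕ) : ℝ) + 1)) ^ j /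
        ((N + 1 + i : ℕ) : ℝ) ^ 2 =
        ∑ n ∈ Icc (N + 1) (N + k), (Real.log ((n : ℝ) + 1)) ^ j / (n : ℝ) ^ 2 := by
      have h7 : Icc (N + 1) (N + k) = Ico (N + 1) (N + 1 + k) := by
        ext n
        rw [Finset.mem_Icc, Finset.mem_Ico]
        omega
      rw [h7, Finset.sum_Ico_eq_sum_range]
      have h8 : N + 1 + k - (N + 1) = k := by omega
      rw [h8]
    rw [h6]
    refine h5.trans (le_of_eq ?_)
    rw [hY]
    push_cast
    rw [show (N : ℝ) + 1 + 1 = (N : ℝ) + 2 by ring]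
  have hg1 : ‖gg j s ((N + 1 : ℕ) : ℝ)‖ ≤ Y ^ j / ((N : ℝ) + 1) := by
    have h3 := Ser_norm_gg j s hs1.le (N + 1) (by omega)
    refine h3.trans ?_
    push_cast
    apply div_le_div_of_nonneg_right _ (by linarith)
    apply pow_le_pow_left₀ (Real.log_nonneg (by linarith))
    rw [hY]
    exact Real.log_le_log (by linarith) (by linarith)
  -- all partial sums
  have hall : ∀ k : ℕ, ‖∑ n ∈ Icc 1 (N + k), f n * gg j s n‖ ≤
      2 ^ j * (5 + 2 * (C1 * C2)) * E ^ (j + 1) := by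
    intro k
    have h3 := Ser_abel f (fun n => gg j s (n : ℝ)) N k
    rw [h3]
    have hD := hdiff k
    set D : ℝ := ∑ i ∈ range k,
      ‖gg j s ((N + 1 + i + 1 : ℕ) : ℝ) - gg j s ((N + 1 + i : ℕ) : ℝ)‖ with hDdef
    have hQ0 : 0 ≤ Q := by linarith
    have h4 : ‖∑ i ∈ range k, (gg j s ((N + 1 + i + 1 : ℕ) : ℝ) -
        gg j s ((N + 1 + i : ℕ) : ℝ))‖ ≤ D := norm_sum_le _ _
    have h5 : ‖(∑ n ∈ Icc 1 (N + k), f n) * (gg j s ((N + 1 : ℕ) : ℝ) +
        ∑ i ∈ range k, (gg j s ((N + 1 + i + 1 : ℕ) : ℝ) - gg j s ((N + 1 + i : ℕ) : ℝ)))‖ ≤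
        Q * (Y ^ j / ((N : ℝ) + 1) + D) := by
      rw [norm_mul]
      apply mul_le_mul (hf2 _) _ (norm_nonneg _) hQ0
      exact (norm_add_le _ _).trans (add_le_add hg1 h4)
    have h6 : ‖(∑ n ∈ Icc 1 N, f n) * gg j s ((N + 1 : ℕ) : ℝ)‖ ≤
        Q * (Y ^ j / ((N : ℝ) + 1)) := by
      rw [norm_mul]
      exact mul_le_mul (hf2 _) hg1 (norm_nonneg _) hQ0
    have h7 : ‖∑ i ∈ range k, (∑ n ∈ Icc 1 (N + 1 + i), f n) *
        (gg j s ((N + 1 + i + 1 : ℕ) : ℝ) - gg j s ((N + 1 + i : ℕ) : ℝ))‖ ≤ Q * D := by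
      rw [hDdef, Finset.mul_sum]
      refine norm_sum_le_of_le _ fun i _ => ?_
      rw [norm_mul]
      exact mul_le_mul_of_nonneg_right (hf2 _) (norm_nonneg _)
    have hN1p : (0 : ℝ) < (N : ℝ) + 1 := by linarith
    have hYj : 0 ≤ Y ^ j := by positivity
    have h8 : Q * (Y ^ j / ((N : ℝ) + 1)) ≤ Y ^ j := by
      rw [← mul_div_assoc, div_le_iff₀ hN1p]
      nlinarith
    have h9 : Q * D ≤ C1 * C2 * Y ^ j := by
      have h10 : Q * D ≤ Q * (C1 * (|s.im| + 2) * (C2 * (Y ^ j / ((N : ℝ) + 1)))) :=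
        mul_le_mul_of_nonneg_left hD hQ0
      have h11 : Q * (C1 * (|s.im| + 2) * (C2 * (Y ^ j / ((N : ℝ) + 1)))) =
          (C1 * C2 * Y ^ j) * (X / ((N : ℝ) + 1)) := by
        rw [hX]
        ring
      have h12 : X / ((N : ℝ) + 1) ≤ 1 := by
        rw [div_le_one hN1p]
        linarith
      have h13 : (C1 * C2 * Y ^ j) * (X / ((N : ℝ) + 1)) ≤ (C1 * C2 * Y ^ j) * 1 :=
        mul_le_mul_of_nonneg_left h12 (by positivity)
      linarith
    have h14 : ‖∑ n ∈ Icc 1 N, f n * gg j s n +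
        (∑ n ∈ Icc 1 (N + k), f n) * (gg j s ((N + 1 : ℕ) : ℝ) +
          ∑ i ∈ range k, (gg j s ((N + 1 + i + 1 : ℕ) : ℝ) - gg j s ((N + 1 + i : ℕ) : ℝ))) -
        (∑ n ∈ Icc 1 N, f n) * gg j s ((N + 1 : ℕ) : ℝ) -
        ∑ i ∈ range k, (∑ n ∈ Icc 1 (N + 1 + i), f n) *
          (gg j s ((N + 1 + i + 1 : ℕ) : ℝ) - gg j s ((N + 1 + i : ℕ) : ℝ))‖ ≤
        Y ^ j * (1 + Y) + Q * (Y ^ j / ((N : ℝ) + 1) + D) + Q * (Y ^ j / ((N : ℝ) + 1)) + Q * D := by
      refine (norm_sub_le _ _).trans ?_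
      refine add_le_add ?_ h7
      refine (norm_sub_le _ _).trans ?_
      refine add_le_add ?_ h6
      refine (norm_add_le _ _).trans ?_
      exact add_le_add hhead h5
    refine h14.trans ?_
    have h15 : Y ^ j ≤ 2 ^ j * E ^ j := by
      rw [← mul_pow]
      exact pow_le_pow_left₀ hY0 hYE j
    have h16 : Y ^ j * (1 + Y) + Q * (Y ^ j / ((N : ℝ) + 1) + D) +
        Q * (Y ^ j / ((N : ℝ) + 1)) + Q * D ≤ Y ^ j * ((1 + Y) + 2 + 2 * (C1 * C2)) := by
      nlinarith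
    have h17 : (1 + Y) + 2 + 2 * (C1 * C2) ≤ E * (5 + 2 * (C1 * C2)) := by
      have : 0 ≤ C1 * C2 := by positivity
      nlinarith
    calc _ ≤ Y ^ j * ((1 + Y) + 2 + 2 * (C1 * C2)) := h16
      _ ≤ (2 ^ j * E ^ j) * (E * (5 + 2 * (C1 * C2))) :=
        mul_le_mul h15 h17 (by positivity) (by positivity)
      _ = 2 ^ j * (5 + 2 * (C1 * C2)) * E ^ (j + 1) := by ring
  -- the limit
  unfold DS LSeries
  by_cases hsum : Summable (LSeries.term (fun n => f n * ((Real.log n : ℝ) : ℂ) ^ j) s)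
  · have hlim := (hsum.hasSum.tendsto_sum_nat).norm
    refine le_of_tendsto hlim (Filter.eventually_atTop.mpr ⟨N + 1, fun M hM => ?_⟩)
    obtain ⟨k, hk⟩ := Nat.exists_eq_add_of_le hM
    have h3 : M = (N + k) + 1 := by omega
    rw [h3, Ser_partial]
    exact hall k
  · rw [tsum_eq_zero_of_not_summable hsum, norm_zero]
    positivity

end Pool.Agent.Lib.BV
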