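import Pool.Agent.Lib.BV.SpecC

/-!
MP_00e23e_nt, Lib/BV, module Sew: separation of variables in one block.
-/

namespace Pool.Agent.Lib.BV

open Finset Pool.Agent.Lib.EH3

/-- the term of a pair -/
private noncomputable def Sew_G (η : ℝ) (T P j : ℕ) {q : ℕ} (χ : DirichletCharacter ℂ q)
    (w : ℕ × ℕ) : ℂ :=
  if gi η P w.1 + gi η (2 ^ j * P) w.2 < T then
    (blk P w.1 : ℂ) * (bj P j w.2 : ℂ) * (χ (w.1 : ZMod q) * χ (w.2 : ZMod q)) else 0

private theorem Sew_blk_nonneg (P n : ℕ) : 0 ≤ blk P n := by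
  unfold blk
  split_ifs
  · exact zero_le_one
  · exact le_rfl

private theorem Sew_bb_nonneg (P n : ℕ) : 0 ≤ bb P n := by
  unfold bb
  split_ifs
  · positivity
  · exact le_rfl

private theorem Sew_bj_nonneg (P j n : ℕ) : 0 ≤ bj P j n := by
  unfold bj
  split_ifs
  · exact Sew_bb_nonneg P n
  · exact le_rfl

private theorem Sew_blk_ne {P n : ℕ} (h : blk P n ≠ 0) : P < n ∧ n ≤ 2 * P := by
  unfold blk at h
  split_ifs at h with h1
  · exact h1.2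
  · exact absurd rfl h

private theorem Sew_bj_ne {P j n : ℕ} (h : bj P j n ≠ 0) :
    2 ^ j * P < n ∧ n ≤ 2 ^ (j + 1) * P := by
  unfold bj at h
  split_ifs at h with h1
  · exact h1
  · exact absurd rfl h

private theorem Sew_FJ_ne (η : ℝ) {T P j a b : ℕ} (hT : gi η P a + gi η (2 ^ j * P) b < T)
    (ha : blk P a ≠ 0) (hb : bj P j b ≠ 0) : FJ η T P j (a * b) ≠ 0 := by
  have ha1 := (Sew_blk_ne ha).1
  have hb1 := (Sew_bj_ne hb).1
  have hab : 1 ≤ a * b := Nat.mul_pos (by omega) (by omega)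
  have hmem : ((a, b) : ℕ × ℕ) ∈ (a * b).divisorsAntidiagonal :=
    Nat.mem_divisorsAntidiagonal.2 ⟨rfl, by omega⟩
  have h1 : (if gi η P ((a, b) : ℕ × ℕ).1 + gi η (2 ^ j * P) ((a, b) : ℕ × ℕ).2 < T then
      blk P ((a, b) : ℕ × ℕ).1 * bj P j ((a, b) : ℕ × ℕ).2 else 0) ≤ FJ η T P j (a * b) := by
    refine Finset.single_le_sum (f := fun w : ℕ × ℕ =>
      if gi η P w.1 + gi η (2 ^ j * P) w.2 < T then blk P w.1 * bj P j w.2 else 0) ?_ hmem
    intro w _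
    split_ifs
    · exact mul_nonneg (Sew_blk_nonneg _ _) (Sew_bj_nonneg _ _ _)
    · exact le_rfl
  rw [if_pos hT] at h1
  have h2 : 0 < blk P a * bj P j b :=
    mul_pos (lt_of_le_of_ne (Sew_blk_nonneg _ _) ha.symm)
      (lt_of_le_of_ne (Sew_bj_nonneg _ _ _) hb.symm)
  exact (lt_of_lt_of_le h2 h1).ne'

private theorem Sew_G_ne {η : ℝ} {T P j : ℕ} {q : ℕ} {χ : DirichletCharacter ℂ q} {w : ℕ × ℕ}
    (h : Sew_G η T P j χ w ≠ 0) : gi η P w.1 + gi η (2 ^ j * P) w.2 < T ∧ blk P w.1 ≠ 0 ∧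
      bj P j w.2 ≠ 0 := by
  unfold Sew_G at h
  split_ifs at h with h1
  · refine ⟨h1, fun h2 => h ?_, fun h2 => h ?_⟩
    · rw [h2, Complex.ofReal_zero, zero_mul, zero_mul]
    · rw [h2, Complex.ofReal_zero, mul_zero, zero_mul]
  · exact absurd rfl h

private theorem Sew_divs (N n : ℕ) (hn : n ∈ Icc 1 N) (G : ℕ × ℕ → ℂ) :
    ∑ w ∈ n.divisorsAntidiagonal, G w =
      ∑ w ∈ Icc 1 N ×ˢ Icc 1 N, if w.1 * w.2 = n then G w else 0 := by
  rw [← Finset.sum_filter]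
  refine Finset.sum_congr ?_ fun _ _ => rfl
  rw [Finset.mem_Icc] at hn
  ext ⟨a, b⟩
  simp only [Nat.mem_divisorsAntidiagonal, Finset.mem_filter, Finset.mem_product, Finset.mem_Icc]
  constructor
  · rintro ⟨h, -⟩
    have ha : 1 ≤ a := Nat.one_le_iff_ne_zero.2 fun h0 => by
      rw [h0, zero_mul] at h
      omega
    have hb : 1 ≤ b := Nat.one_le_iff_ne_zero.2 fun h0 => by
      rw [h0, mul_zero] at h
      omega
    have ha' : a ≤ a * b := Nat.le_mul_of_pos_right a hb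
    have hb' : b ≤ a * b := Nat.le_mul_of_pos_left b ha
    exact ⟨⟨⟨ha, by omega⟩, hb, by omega⟩, h⟩
  · rintro ⟨-, h⟩
    exact ⟨h, by omega⟩

private theorem Sew_left (η : ℝ) (T P j N e : ℕ) {q : ℕ} (χ : DirichletCharacter ℂ q) :
    cs (fun n => (FJ η T P j n : ℂ)) N e χ =
      ∑ w ∈ Icc 1 N ×ˢ Icc 1 N, if w.1 * w.2 ≤ N ∧ (w.1 * w.2).Coprime e then
        Sew_G η T P j χ w else 0 := by
  unfold cs
  have h1 : ∀ n ∈ (Icc 1 N).filter (fun n => n.Coprime e),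
      (FJ η T P j n : ℂ) * χ (n : ZMod q) =
        ∑ w ∈ Icc 1 N ×ˢ Icc 1 N, if w.1 * w.2 = n then Sew_G η T P j χ w else 0 := by
    intro n hn
    rw [← Sew_divs N n (Finset.mem_filter.1 hn).1]
    unfold FJ
    rw [Complex.ofReal_sum, Finset.sum_mul]
    refine Finset.sum_congr rfl fun w hw => ?_
    have h2 := (Nat.mem_divisorsAntidiagonal.1 hw).1
    unfold Sew_G
    rw [← h2, Nat.cast_mul, map_mul]
    split_ifs
    · rw [Complex.ofReal_mul]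
    · rw [Complex.ofReal_zero, zero_mul]
  rw [Finset.sum_congr rfl h1, Finset.sum_comm]
  refine Finset.sum_congr rfl fun w hw => ?_
  rw [Finset.mem_product, Finset.mem_Icc, Finset.mem_Icc] at hw
  have h3 : 1 ≤ w.1 * w.2 := Nat.mul_pos hw.1.1 hw.2.1
  by_cases hc : w.1 * w.2 ≤ N ∧ (w.1 * w.2).Coprime e
  · rw [if_pos hc, Finset.sum_eq_single (w.1 * w.2)]
    · rw [if_pos rfl]
    · intro n _ hne
      exact if_neg fun h => hne h.symm
    · intro hnot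
      exact absurd (Finset.mem_filter.2 ⟨Finset.mem_Icc.2 ⟨h3, hc.1⟩, hc.2⟩) hnot
  · rw [if_neg hc]
    refine Finset.sum_eq_zero fun n hn => ?_
    rw [Finset.mem_filter, Finset.mem_Icc] at hn
    refine if_neg fun h => hc ?_
    rw [h]
    exact ⟨hn.1.2, hn.2⟩

private theorem Sew_right (η : ℝ) (N1 T P j e : ℕ) {q : ℕ} (χ : DirichletCharacter ℂ q)
    (c : ℕ → ℂ)
    (hg : ∀ p m : ℕ, P < p → p ≤ 2 * P → 2 ^ j * P < m → m ≤ 2 ^ (j + 1) * P →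
      gi η P p ≤ N1 ∧ gi η (2 ^ j * P) m ≤ N1)
    (hc : ∀ i k : ℕ, i ≤ N1 → k ≤ N1 →
      ∑ h ∈ range (2 * N1 + 2), c h * ee ((h : ℝ) * ((i : ℝ) + k) / (2 * (N1 : ℝ) + 2)) =
        if i + k < T then 1 else 0) :
    ∑ h ∈ range (2 * N1 + 2), c h * (cs (aw η N1 P h) (2 * P) e χ *
        cs (bw η N1 P j h) (2 ^ (j + 1) * P) e χ) =
      ∑ w ∈ (Icc 1 (2 * P)).filter (fun n => n.Coprime e) ×ˢ
        (Icc 1 (2 ^ (j + 1) * P)).filter (fun n => n.Coprime e), Sew_G η T P j χ w := by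
  have h1 : ∀ h : ℕ, c h * (cs (aw η N1 P h) (2 * P) e χ *
        cs (bw η N1 P j h) (2 ^ (j + 1) * P) e χ) =
      ∑ w ∈ (Icc 1 (2 * P)).filter (fun n => n.Coprime e) ×ˢ
        (Icc 1 (2 ^ (j + 1) * P)).filter (fun n => n.Coprime e),
        (blk P w.1 : ℂ) * (bj P j w.2 : ℂ) * (χ (w.1 : ZMod q) * χ (w.2 : ZMod q)) *
          (c h * ee ((h : ℝ) * ((gi η P w.1 : ℝ) + (gi η (2 ^ j * P) w.2 : ℝ)) /
            (2 * (N1 : ℝ) + 2))) := by
    intro h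
    unfold cs
    rw [Finset.sum_mul_sum, ← Finset.sum_product', Finset.mul_sum]
    refine Finset.sum_congr rfl fun w _ => ?_
    unfold aw bw
    have h2 : (h : ℝ) * ((gi η P w.1 : ℝ) + (gi η (2 ^ j * P) w.2 : ℝ)) / (2 * (N1 : ℝ) + 2) =
        (h : ℝ) * (gi η P w.1 : ℝ) / (2 * (N1 : ℝ) + 2) +
          (h : ℝ) * (gi η (2 ^ j * P) w.2 : ℝ) / (2 * (N1 : ℝ) + 2) := by ring
    rw [h2, ee_add]
    ring
  rw [Finset.sum_congr rfl fun h _ => h1 h, Finset.sum_comm]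
  refine Finset.sum_congr rfl fun w _ => ?_
  rw [← Finset.mul_sum]
  by_cases ha : blk P w.1 = 0
  · unfold Sew_G
    rw [ha, Complex.ofReal_zero, zero_mul, zero_mul, zero_mul, ite_self]
  by_cases hb : bj P j w.2 = 0
  · unfold Sew_G
    rw [hb, Complex.ofReal_zero, mul_zero, zero_mul, zero_mul, ite_self]
  have h3 := Sew_blk_ne ha
  have h4 := Sew_bj_ne hb
  have h5 := hg w.1 w.2 h3.1 h3.2 h4.1 h4.2
  rw [hc _ _ h5.1 h5.2]
  unfold Sew_G
  split_ifs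
  · rw [mul_one]
  · rw [mul_zero]

private theorem Sew_eq (η : ℝ) (T P j N e : ℕ) {q : ℕ} (χ : DirichletCharacter ℂ q)
    (hN : ∀ n : ℕ, FJ η T P j n ≠ 0 → n ≤ N) :
    (∑ w ∈ Icc 1 N ×ˢ Icc 1 N, if w.1 * w.2 ≤ N ∧ (w.1 * w.2).Coprime e then
        Sew_G η T P j χ w else 0) =
      ∑ w ∈ (Icc 1 (2 * P)).filter (fun n => n.Coprime e) ×ˢ
        (Icc 1 (2 ^ (j + 1) * P)).filter (fun n => n.Coprime e), Sew_G η T P j χ w := by
  classical
  set S1 := Icc 1 N ×ˢ Icc 1 N with hS1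
  set S2 := (Icc 1 (2 * P)).filter (fun n => n.Coprime e) ×ˢ
        (Icc 1 (2 ^ (j + 1) * P)).filter (fun n => n.Coprime e) with hS2
  have hr : ∑ w ∈ S2, Sew_G η T P j χ w = ∑ w ∈ S2,
      if w.1 * w.2 ≤ N ∧ (w.1 * w.2).Coprime e then Sew_G η T P j χ w else 0 := by
    refine Finset.sum_congr rfl fun w hw => ?_
    rw [hS2, Finset.mem_product, Finset.mem_filter, Finset.mem_filter, Finset.mem_Icc,
      Finset.mem_Icc] at hw
    by_cases hG : Sew_G η T P j χ w = 0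
    · rw [hG, ite_self]
    · have h1 := Sew_G_ne hG
      rw [if_pos ⟨hN _ (Sew_FJ_ne η h1.1 h1.2.1 h1.2.2), Nat.Coprime.mul_left hw.1.2 hw.2.2⟩]
  rw [hr]
  have e1 : ∑ w ∈ S1, (if w.1 * w.2 ≤ N ∧ (w.1 * w.2).Coprime e then
      Sew_G η T P j χ w else 0) = ∑ w ∈ S1 ∪ S2, if w.1 * w.2 ≤ N ∧ (w.1 * w.2).Coprime e then
      Sew_G η T P j χ w else 0 := by
    refine Finset.sum_subset subset_union_left fun w hw hn => ?_
    refine if_neg fun h => hn ?_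
    have hw' : w ∈ S2 := (Finset.mem_union.1 hw).resolve_left hn
    rw [hS2, Finset.mem_product, Finset.mem_filter, Finset.mem_filter, Finset.mem_Icc,
      Finset.mem_Icc] at hw'
    rw [hS1, Finset.mem_product, Finset.mem_Icc, Finset.mem_Icc]
    have h1 : w.1 ≤ w.1 * w.2 := Nat.le_mul_of_pos_right _ hw'.2.1.1
    have h2 : w.2 ≤ w.1 * w.2 := Nat.le_mul_of_pos_left _ hw'.1.1.1
    exact ⟨⟨hw'.1.1.1, h1.trans h.1⟩, hw'.2.1.1, h2.trans h.1⟩
  have e2 : ∑ w ∈ S2, (if w.1 * w.2 ≤ N ∧ (w.1 * w.2).Coprime e then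
      Sew_G η T P j χ w else 0) = ∑ w ∈ S1 ∪ S2, if w.1 * w.2 ≤ N ∧ (w.1 * w.2).Coprime e then
      Sew_G η T P j χ w else 0 := by
    refine Finset.sum_subset subset_union_right fun w hw hn => ?_
    by_contra hcon
    rw [ite_eq_right_iff, Classical.not_imp] at hcon
    obtain ⟨⟨_, hcop⟩, hG⟩ := hcon
    have h1 := Sew_G_ne hG
    have h2 := Sew_blk_ne h1.2.1
    have h3 := Sew_bj_ne h1.2.2
    apply hn
    rw [hS2, Finset.mem_product, Finset.mem_filter, Finset.mem_filter, Finset.mem_Icc,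
      Finset.mem_Icc]
    exact ⟨⟨⟨by omega, h2.2⟩, (Nat.coprime_mul_iff_left.1 hcop).1⟩,
      ⟨by omega, h3.2⟩, (Nat.coprime_mul_iff_left.1 hcop).2⟩
  rw [e1, e2]

theorem tSew (h1 : GriStmt) (h2 : DfuStmt) : SewStmt := by
  intro η P j hη hP
  obtain ⟨g, hg0, hg1, hg2⟩ := h2 ⌊Real.log 2 / η⌋₊
  refine ⟨g, hg0, hg1, fun T N' hN => ?_⟩
  obtain ⟨c, hc1, hc2⟩ := hg2 T
  refine ⟨c, hc1, fun e q χ => ?_⟩
  rw [Sew_left, Sew_right η _ T P j e χ c ?_ hc2, Sew_eq η T P j N' e χ hN]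
  intro p m hp hp' hm hm'
  exact (h1 η 1 P j p m hη hP hp hp' hm hm').2.2

end Pool.Agent.Lib.BV
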