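import Pool.Agent.Lib.BV.SpecS

/-!
MP_00e23e_nt, Lib/BV, module SgAb: summation by parts.
-/

namespace Pool.Agent.Lib.BV

open Finset

private theorem SgAb_step (f w : ℕ → ℝ) (Q : ℝ) (M : ℕ) (hf : SgPB f Q)
    (hd : ∀ m n, M < m → m ≤ n → w n ≤ w m) (k : ℕ) :
    |∑ n ∈ Ioc M (M + k + 1), f n * w n - (∑ n ∈ Ioc M (M + k + 1), f n) * w (M + k + 1)| ≤
      Q * (w (M + 1) - w (M + k + 1)) := by
  induction k with
  | zero =>
    rw [Finset.sum_Ioc_succ_top (by omega), Finset.sum_Ioc_succ_top (by omega)]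
    simp
  | succ k ih =>
    have hS := hf M (M + k + 1)
    have hw : 0 ≤ w (M + k + 1) - w (M + (k + 1) + 1) := by
      have := hd (M + k + 1) (M + (k + 1) + 1) (by omega) (by omega)
      linarith
    have e : M + (k + 1) + 1 = (M + k + 1) + 1 := by omega
    rw [e] at hw ⊢
    rw [Finset.sum_Ioc_succ_top (show M ≤ M + k + 1 by omega) (fun n => f n * w n),
      Finset.sum_Ioc_succ_top (show M ≤ M + k + 1 by omega) f]
    have h1 : ∑ n ∈ Ioc M (M + k + 1), f n * w n + f (M + k + 1 + 1) * w (M + k + 1 + 1) -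
        (∑ n ∈ Ioc M (M + k + 1), f n + f (M + k + 1 + 1)) * w (M + k + 1 + 1) =
        (∑ n ∈ Ioc M (M + k + 1), f n * w n -
          (∑ n ∈ Ioc M (M + k + 1), f n) * w (M + k + 1)) +
        (∑ n ∈ Ioc M (M + k + 1), f n) * (w (M + k + 1) - w (M + k + 1 + 1)) := by ring
    rw [h1]
    have h2 : |(∑ n ∈ Ioc M (M + k + 1), f n) * (w (M + k + 1) - w (M + k + 1 + 1))| ≤
        Q * (w (M + k + 1) - w (M + k + 1 + 1)) := by
      rw [abs_mul, abs_of_nonneg hw]
      exact mul_le_mul_of_nonneg_right hS hw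
    refine le_trans (abs_add_le _ _) (le_trans (add_le_add ih h2) (le_of_eq ?_))
    ring

theorem tSgAb : SgAbStmt := by
  intro f w Q M N hf hw hd
  have hQ : 0 ≤ Q := le_trans (abs_nonneg _) (hf M M)
  have hw1 : 0 ≤ w (M + 1) := hw _ (by omega)
  by_cases hN : N ≤ M
  · rw [Finset.Ioc_eq_empty_of_le hN, Finset.sum_empty, abs_zero]
    exact mul_nonneg hQ hw1
  · obtain ⟨k, rfl⟩ : ∃ k, N = M + k + 1 := ⟨N - M - 1, by omega⟩
    have h1 := SgAb_step f w Q M hf hd k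
    have hwN : 0 ≤ w (M + k + 1) := hw _ (by omega)
    have h2 : |(∑ n ∈ Ioc M (M + k + 1), f n) * w (M + k + 1)| ≤ Q * w (M + k + 1) := by
      rw [abs_mul, abs_of_nonneg hwN]
      exact mul_le_mul_of_nonneg_right (hf M (M + k + 1)) hwN
    have h3 : ∑ n ∈ Ioc M (M + k + 1), f n * w n =
        (∑ n ∈ Ioc M (M + k + 1), f n * w n -
          (∑ n ∈ Ioc M (M + k + 1), f n) * w (M + k + 1)) +
        (∑ n ∈ Ioc M (M + k + 1), f n) * w (M + k + 1) := by ring
    rw [h3]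
    refine le_trans (abs_add_le _ _) (le_trans (add_le_add h1 h2) (le_of_eq ?_))
    ring

end Pool.Agent.Lib.BV
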