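import Pool.Agent.Lib.BV.SpecS

/-!
MP_00e23e_nt, Lib/BV, module SgCa: case A of Siegel.
-/

namespace Pool.Agent.Lib.BV

open Finset

private theorem SgCa_abs {f : ℕ → ℝ} (hf : SgCM f) (n : ℕ) : |f n| ≤ 1 := by
  rcases hf.val n with h | h | h <;> rw [h] <;> norm_num

private theorem SgCa_one {f : ℕ → ℝ} (h2 : SgNaStmt) (hf : SgCM f) (β : ℝ) {N : ℕ} (hN : 1 ≤ N) :
    1 ≤ sgp (sgc f (fun _ => 1)) β N := by
  obtain ⟨h3, h4, -⟩ := h2 f hf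
  unfold sgp
  have h5 : sgc f (fun _ => 1) 1 * ((1 : ℕ) : ℝ) ^ (-β) ≤
      ∑ n ∈ Icc 1 N, sgc f (fun _ => 1) n * (n : ℝ) ^ (-β) :=
    Finset.single_le_sum (f := fun n => sgc f (fun _ => 1) n * (n : ℝ) ^ (-β))
      (fun n _ => mul_nonneg (h3 n) (Real.rpow_nonneg (Nat.cast_nonneg n) _))
      (Finset.mem_Icc.2 ⟨le_rfl, hN⟩)
  rw [h4] at h5
  simpa using h5

theorem tSgCa (h1 : SgOnStmt) (h2 : SgNaStmt) : SgCaStmt := by
  intro f Q β hf hPB hQ hβ hβ1 hpos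
  have hb : 0 < 1 - β := by linarith
  obtain ⟨z, hz, h3⟩ := h1 β (by linarith) hβ1
  set w : ℝ := 40 * Q / (1 - β) with hw
  have hw1 : 320 ≤ w := by
    rw [hw, le_div_iff₀ hb]
    nlinarith
  have hw0 : 0 < w := by linarith
  set N : ℕ := ⌈w ^ 3⌉₊ with hN
  have hN1 : w ^ 3 ≤ (N : ℝ) := Nat.le_ceil _
  have hw3 : 1 ≤ w ^ 3 := one_le_pow₀ (by linarith)
  have hN2 : (N : ℝ) ≤ w ^ 4 := by
    have h4 := Nat.ceil_lt_add_one (show (0 : ℝ) ≤ w ^ 3 by positivity)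
    have h5 : w ^ 4 = w ^ 3 * w := by ring
    have h6 : w ^ 3 + 1 ≤ w ^ 3 * w := by nlinarith
    rw [h5]
    linarith
  have hN3 : 1 ≤ N := by
    have : (1 : ℝ) ≤ N := le_trans hw3 hN1
    exact_mod_cast this
  have hN0 : (0 : ℝ) < N := by exact_mod_cast hN3
  have h4 := h3 f Q (SgCa_abs hf) hPB hQ 1 N le_rfl hN3
  rw [Nat.div_one, Nat.cast_one, div_one] at h4
  have h5 := (abs_le.1 h4).2
  have h6 := SgCa_one h2 hf β hN3
  have h7 : z * sgl f β ≤ 0 := mul_nonpos_of_nonpos_of_nonneg hz hpos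
  have h8 : 20 / (1 - β) * Q * (N : ℝ) ^ (1 / 2 - β) ≤ 1 / 2 := by
    have e1 : 20 / (1 - β) * Q = w / 2 := by rw [hw]; ring
    have e2 : (N : ℝ) ^ (1 / 2 - β) ≤ (w ^ 3) ^ (1 / 2 - β) :=
      Real.rpow_le_rpow_of_nonpos (by positivity) hN1 (by linarith)
    have e3 : (w ^ 3 : ℝ) ^ (1 / 2 - β) = w ^ (3 * (1 / 2 - β)) := by
      rw [← Real.rpow_natCast w 3, ← Real.rpow_mul hw0.le]
      norm_num
    have e4 : w ^ (3 * (1 / 2 - β)) ≤ w ^ (-1 : ℝ) :=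
      Real.rpow_le_rpow_of_exponent_le (by linarith) (by linarith)
    rw [Real.rpow_neg_one] at e4
    rw [e1]
    calc w / 2 * (N : ℝ) ^ (1 / 2 - β) ≤ w / 2 * w⁻¹ :=
          mul_le_mul_of_nonneg_left (by linarith) (by positivity)
      _ = 1 / 2 := by field_simp
  have h9 : 1 / 2 ≤ sgl f 1 * ((N : ℝ) ^ (1 - β) / (1 - β)) := by linarith
  have h10 : 0 < (N : ℝ) ^ (1 - β) := Real.rpow_pos_of_pos hN0 _
  have h11 : (1 - β) / 2 * (N : ℝ) ^ (-(1 - β)) ≤ sgl f 1 := by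
    rw [Real.rpow_neg hN0.le, ← div_eq_mul_inv, div_le_iff₀ h10]
    have h13 := mul_le_mul_of_nonneg_right h9 hb.le
    rw [mul_assoc, div_mul_cancel₀ _ hb.ne'] at h13
    linarith
  have h12 : w ^ (-(4 * (1 - β))) ≤ (N : ℝ) ^ (-(1 - β)) := by
    have e1 : w ^ (-(4 * (1 - β))) = (w ^ 4) ^ (-(1 - β)) := by
      rw [← Real.rpow_natCast w 4, ← Real.rpow_mul hw0.le]
      congr 1
      push_cast
      ring
    rw [e1]
    exact Real.rpow_le_rpow_of_nonpos hN0 hN2 (by linarith)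
  calc (1 - β) / 2 * w ^ (-(4 * (1 - β))) ≤ (1 - β) / 2 * (N : ℝ) ^ (-(1 - β)) :=
        mul_le_mul_of_nonneg_left h12 (by linarith)
    _ ≤ sgl f 1 := h11

end Pool.Agent.Lib.BV
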