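import Pool.Agent.Lib.BV.SpecS

namespace Pool.Agent.Lib.BV

open Finset

private theorem SgCb_prod (f g : ℕ → ℝ) (hf : SgCM f) (hg : SgCM g) :
    SgCM (fun n => f n * g n) := by
  refine ⟨?_, ?_, ?_, ?_⟩
  · simp [hf.zero]
  · simp [hf.one, hg.one]
  · intro m n
    simp only [hf.mul, hg.mul]
    ring
  · intro n
    rcases hf.val n with h1 | h1 | h1 <;> rcases hg.val n with h2 | h2 | h2 <;> simp [h1, h2]

private theorem SgCb_abs (f : ℕ → ℝ) (hf : SgCM f) (n : ℕ) : |f n| ≤ 1 := by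
  rcases hf.val n with h1 | h1 | h1 <;> simp [h1]

private theorem SgCb_one (lam : ℕ → ℝ) (h0 : ∀ n, 0 ≤ lam n) (h1 : lam 1 = 1) (s : ℝ) (N : ℕ)
    (hN : 1 ≤ N) : 1 ≤ sgp lam s N := by
  unfold sgp
  have h2 : (fun n : ℕ => lam n * (n : ℝ) ^ (-s)) 1 ≤ ∑ n ∈ Icc 1 N, lam n * (n : ℝ) ^ (-s) := by
    apply Finset.single_le_sum (f := fun n : ℕ => lam n * (n : ℝ) ^ (-s))
    · intro i _
      exact mul_nonneg (h0 i) (Real.rpow_nonneg (Nat.cast_nonneg _) _)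
    · exact Finset.mem_Icc.2 ⟨le_rfl, hN⟩
  have h3 : (fun n : ℕ => lam n * (n : ℝ) ^ (-s)) 1 = 1 := by simp [h1]
  rw [h3] at h2
  exact h2

private theorem SgCb_err (A β w : ℝ) (N : ℕ) (hA : 0 ≤ A) (hb : 7 / 8 ≤ β) (hw : 1 ≤ w)
    (hwA : (10 : ℝ) ^ 7 * A ≤ w / 2) (hN : w ^ (16 : ℕ) ≤ (N : ℝ)) :
    60 * A * (N : ℝ) ^ (3 / 4 - β) * (1 + Real.log N) ^ 3 ≤ 1 / 2 := by
  have hN1 : (1 : ℝ) ≤ N := le_trans (one_le_pow₀ hw) hN
  have hN0 : (0 : ℝ) < N := by linarith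
  have e1 : (N : ℝ) ^ (3 / 4 - β) ≤ (N : ℝ) ^ (-(1 / 8) : ℝ) :=
    Real.rpow_le_rpow_of_exponent_le hN1 (by linarith)
  have e2 : Real.log N ≤ 48 * (N : ℝ) ^ (1 / 48 : ℝ) := by
    have := Real.log_le_rpow_div hN0.le (show (0 : ℝ) < 1 / 48 by norm_num)
    linarith
  have e3 : (1 : ℝ) ≤ (N : ℝ) ^ (1 / 48 : ℝ) := Real.one_le_rpow hN1 (by norm_num)
  have hlog : 0 ≤ Real.log N := Real.log_nonneg hN1
  have e4 : (1 + Real.log N) ^ 3 ≤ 117649 * (N : ℝ) ^ (1 / 16 : ℝ) := by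
    have h1 : 1 + Real.log N ≤ 49 * (N : ℝ) ^ (1 / 48 : ℝ) := by linarith
    have h2 : (1 + Real.log N) ^ 3 ≤ (49 * (N : ℝ) ^ (1 / 48 : ℝ)) ^ 3 :=
      pow_le_pow_left₀ (by linarith) h1 3
    have h3 : (49 * (N : ℝ) ^ (1 / 48 : ℝ)) ^ 3 = 117649 * (N : ℝ) ^ (1 / 16 : ℝ) := by
      rw [mul_pow]
      have h4 : ((N : ℝ) ^ (1 / 48 : ℝ)) ^ 3 = (N : ℝ) ^ (1 / 16 : ℝ) := by
        rw [← Real.rpow_natCast, ← Real.rpow_mul hN0.le]
        norm_num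
      rw [h4]; norm_num
    rw [← h3]; exact h2
  have e5 : w ≤ (N : ℝ) ^ (1 / 16 : ℝ) := by
    have h1 : (w ^ (16 : ℕ)) ^ (1 / 16 : ℝ) ≤ (N : ℝ) ^ (1 / 16 : ℝ) :=
      Real.rpow_le_rpow (by positivity) hN (by norm_num)
    have h2 : (w ^ (16 : ℕ)) ^ (1 / 16 : ℝ) = w := by
      rw [← Real.rpow_natCast, ← Real.rpow_mul (by linarith)]
      norm_num
    rwa [h2] at h1
  have e6 : (N : ℝ) ^ (-(1 / 8) : ℝ) * (N : ℝ) ^ (1 / 16 : ℝ) * (N : ℝ) ^ (1 / 16 : ℝ) = 1 := by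
    rw [← Real.rpow_add hN0, ← Real.rpow_add hN0]
    norm_num
  set X := (N : ℝ) ^ (-(1 / 8) : ℝ) with hX
  set Y := (N : ℝ) ^ (1 / 16 : ℝ) with hY
  have hX0 : 0 ≤ X := Real.rpow_nonneg hN0.le _
  have hY0 : 0 < Y := Real.rpow_pos_of_pos hN0 _
  have e7 : 60 * A * (N : ℝ) ^ (3 / 4 - β) * (1 + Real.log N) ^ 3 ≤
      60 * A * X * (117649 * Y) := by
    apply mul_le_mul
    · exact mul_le_mul_of_nonneg_left e1 (by positivity)
    · exact e4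
    · exact pow_nonneg (by linarith) 3
    · positivity
  have e8 : 60 * A * X * (117649 * Y) ≤ (w / 2) * (X * Y) := by
    have h1 : 60 * A * 117649 ≤ w / 2 := by
      have h10 : (10 : ℝ) ^ 7 = 10000000 := by norm_num
      rw [h10] at hwA
      linarith
    have h2 : 0 ≤ X * Y := by positivity
    calc 60 * A * X * (117649 * Y) = (60 * A * 117649) * (X * Y) := by ring
      _ ≤ (w / 2) * (X * Y) := mul_le_mul_of_nonneg_right h1 h2
  have e9 : w * (X * Y) ≤ 1 := by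
    calc w * (X * Y) ≤ Y * (X * Y) := mul_le_mul_of_nonneg_right e5 (by positivity)
      _ = X * Y * Y := by ring
      _ = 1 := e6
  linarith

theorem tSgCb (h1 : SgFoStmt) (h2 : SgNbStmt) (h3 : SgUpStmt) (h4 : SgPoStmt) : SgCbStmt := by
  intro f g Q R S β hf hg hgQ hfR hfgS hQ hR hS hb hb1 hz
  have hfg := SgCb_prod f g hf hg
  have h1b : 0 < 1 - β := by linarith
  have hQRS : 1 ≤ Q * R * S := by
    have := one_le_mul_of_one_le_of_one_le hQ hR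
    exact one_le_mul_of_one_le_of_one_le this hS
  set A := Q * R * S / (1 - β) with hA
  have hA0 : 0 ≤ A := by positivity
  have hA8 : 1 ≤ A := by
    rw [hA, le_div_iff₀ h1b]
    linarith
  have hwA : 2 * (10 : ℝ) ^ 7 * Q * R * S / (1 - β) = 2 * (10 : ℝ) ^ 7 * A := by
    rw [hA]; ring
  rw [hwA]
  set w := 2 * (10 : ℝ) ^ 7 * A with hw
  have hw2 : 2 ≤ w := by
    rw [hw]
    have : (1 : ℝ) ≤ (10 : ℝ) ^ 7 := by norm_num
    nlinarith
  have hw0 : 0 < w := by linarith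
  set N := ⌈w ^ (16 : ℕ)⌉₊ with hN
  have hNle : w ^ (16 : ℕ) ≤ (N : ℝ) := Nat.le_ceil _
  have hw16 : (1 : ℝ) ≤ w ^ (16 : ℕ) := one_le_pow₀ (by linarith)
  have hN1 : (1 : ℝ) ≤ N := hw16.trans hNle
  have hN1' : 1 ≤ N := by exact_mod_cast hN1
  have hNlt : (N : ℝ) < w ^ (16 : ℕ) + 1 := Nat.ceil_lt_add_one (by positivity)
  have hN17 : (N : ℝ) ≤ w ^ (17 : ℝ) := by
    have h5 : w ^ (17 : ℝ) = w ^ (16 : ℕ) * w := by
      have : (17 : ℝ) = ((17 : ℕ) : ℝ) := by norm_num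
      rw [this, Real.rpow_natCast, pow_succ]
    rw [h5]
    nlinarith
  have hFo := h1 f g Q R S β N (SgCb_abs f hf) (SgCb_abs g hg) hgQ hfR hfgS hQ hR hS
    (by linarith) hb1 hz hN1'
  obtain ⟨hlam0, hlam1⟩ := h2 f g hf hg
  have hone := SgCb_one _ hlam0 hlam1 β N hN1'
  have herr := SgCb_err A β w N hA0 hb (by linarith) (by rw [hw]; linarith) hNle
  have herr2 : (60 / (1 - β)) * Q * R * S * (N : ℝ) ^ (3 / 4 - β) * (1 + Real.log N) ^ 3 =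
      60 * A * (N : ℝ) ^ (3 / 4 - β) * (1 + Real.log N) ^ 3 := by
    rw [hA]; ring
  rw [herr2] at hFo
  have hge := (abs_le.1 (hFo.trans herr)).2
  have hf0 := h4 f R hf hfR
  have hg0 := h4 g Q hg hgQ
  have hfg0 := h4 _ S hfg hfgS
  have hgu := (abs_le.1 (h3 g Q (SgCb_abs g hg) hgQ hQ)).2
  have hfgu := (abs_le.1 (h3 _ S (SgCb_abs _ hfg) hfgS hS)).2
  have hNpow : (N : ℝ) ^ (1 - β) ≤ w ^ (17 * (1 - β)) := by
    rw [Real.rpow_mul hw0.le]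
    exact Real.rpow_le_rpow (by linarith) hN17 h1b.le
  set a := sgl g 1 with ha
  set b := sgl f 1 with hbdef
  set c := sgl (fun n => f n * g n) 1 with hc
  set q := 3 + Real.log Q with hq
  set s := 3 + Real.log S with hs
  have hq0 : 0 < q := by
    have := Real.log_nonneg hQ
    linarith
  have hs0 : 0 < s := by
    have := Real.log_nonneg hS
    linarith
  set W := w ^ (17 * (1 - β)) with hW
  have hW0 : 0 < W := Real.rpow_pos_of_pos hw0 _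
  have hinv : w ^ (-(17 * (1 - β))) = W⁻¹ := Real.rpow_neg hw0.le _
  rw [hinv]
  have hmain : 1 / 2 ≤ q * b * s * (W / (1 - β)) := by
    have h5 : 1 / 2 ≤ a * b * c * ((N : ℝ) ^ (1 - β) / (1 - β)) := by linarith
    have h6 : a * b * c ≤ q * b * s := by
      apply mul_le_mul (mul_le_mul_of_nonneg_right hgu hf0) hfgu hfg0
      exact mul_nonneg hq0.le hf0
    have h7 : (N : ℝ) ^ (1 - β) / (1 - β) ≤ W / (1 - β) := by
      exact div_le_div_of_nonneg_right hNpow h1b.le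
    have h8 : 0 ≤ (N : ℝ) ^ (1 - β) / (1 - β) :=
      div_nonneg (Real.rpow_nonneg (Nat.cast_nonneg _) _) h1b.le
    refine h5.trans (mul_le_mul h6 h7 h8 ?_)
    exact mul_nonneg (mul_nonneg hq0.le hf0) hs0.le
  have h9 : q * b * s * (W / (1 - β)) = b * (q * s * W / (1 - β)) := by ring
  rw [h9] at hmain
  have h10 : 0 < q * s * W / (1 - β) := by positivity
  have h11 : (1 - β) / (2 * q * s) * W⁻¹ = (1 / 2) / (q * s * W / (1 - β)) := by
    field_simp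
  rw [h11, div_le_iff₀ h10]
  exact hmain

end Pool.Agent.Lib.BV
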