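import Pool.Agent.Lib.BV.SpecS

/-!
MP_00e23e_nt, Lib/BV, module SgCh: real characters.
-/

namespace Pool.Agent.Lib.BV

open Finset

private lemma SgCh_val {q : ℕ} (χ : DirichletCharacter ℂ q) (h : χ ^ 2 = 1) (a : ZMod q) :
    χ a = 0 ∨ χ a = 1 ∨ χ a = -1 := by
  by_cases ha : IsUnit a
  · right
    have h1 : (χ a) ^ 2 = 1 := by
      rw [← MulChar.pow_apply' χ two_ne_zero, h, MulChar.one_apply ha]
    have h2 : (χ a - 1) * (χ a + 1) = 0 := by linear_combination h1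
    rcases mul_eq_zero.mp h2 with h3 | h3
    · exact Or.inl (sub_eq_zero.mp h3)
    · exact Or.inr (eq_neg_of_add_eq_zero_left h3)
  · exact Or.inl (MulChar.map_nonunit χ ha)

private lemma SgCh_re {q : ℕ} (χ : DirichletCharacter ℂ q) (h : χ ^ 2 = 1) (a : ZMod q) :
    (((χ a).re : ℝ) : ℂ) = χ a := by
  rcases SgCh_val χ h a with h1 | h1 | h1 <;> rw [h1] <;> simp

theorem tSgCh (h1 : SgPcStmt) : SgChStmt := by
  intro q χ hq hχ h
  have : Fact (1 < q) := ⟨hq⟩
  refine ⟨⟨?_, ?_, fun m n => ?_, fun n => ?_⟩, fun M N => ?_, fun n => SgCh_re χ h _⟩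
  · show (χ ((0 : ℕ) : ZMod q)).re = 0
    rw [Nat.cast_zero, MulChar.map_nonunit χ not_isUnit_zero, Complex.zero_re]
  · show (χ ((1 : ℕ) : ZMod q)).re = 1
    rw [Nat.cast_one, map_one, Complex.one_re]
  · show (χ ((m * n : ℕ) : ZMod q)).re = (χ (m : ZMod q)).re * (χ (n : ZMod q)).re
    apply Complex.ofReal_injective
    rw [Complex.ofReal_mul, SgCh_re χ h, SgCh_re χ h, SgCh_re χ h, Nat.cast_mul, map_mul]
  · show (χ (n : ZMod q)).re = 0 ∨ (χ (n : ZMod q)).re = 1 ∨ (χ (n : ZMod q)).re = -1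
    rcases SgCh_val χ h (n : ZMod q) with h2 | h2 | h2
    · left
      rw [h2, Complex.zero_re]
    · right
      left
      rw [h2, Complex.one_re]
    · right
      right
      rw [h2, Complex.neg_re, Complex.one_re]
  · show |∑ n ∈ Ioc M N, (χ (n : ZMod q)).re| ≤ q
    rw [← Complex.re_sum]
    exact (Complex.abs_re_le_norm _).trans (h1 q χ M N hq.le hχ)

end Pool.Agent.Lib.BV
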