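import Pool.Agent.Lib.BV.SpecS

/-!
MP_00e23e_nt, module SgCt: continuity of the limit.
-/

namespace Pool.Agent.Lib.BV

open Finset

private lemma SgCt_cont (f : ℕ → ℝ) (N : ℕ) : Continuous fun s : ℝ => sgp f s N := by
  unfold sgp
  refine continuous_finsetSum _ fun n hn => ?_
  refine continuous_const.mul ?_
  refine Continuous.rpow continuous_const continuous_neg fun s => Or.inl ?_
  have h := (mem_Icc.1 hn).1
  have h' : n ≠ 0 := by omega
  exact Nat.cast_ne_zero.2 h'

theorem tSgCt (h1 : SgElStmt) : SgCtStmt := by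
  intro f Q hQ s₀ hs₀
  have hs₀' : (0 : ℝ) < s₀ := hs₀
  have hQ0 : 0 ≤ Q := by
    have h := hQ 0 0
    simpa using h
  have hb : 0 < s₀ / 2 := half_pos hs₀'
  have hlim : Filter.Tendsto (fun N : ℕ => Q * ((N : ℝ) + 1) ^ (-(s₀ / 2))) Filter.atTop
      (nhds 0) := by
    have h2 : Filter.Tendsto (fun N : ℕ => ((N : ℝ) + 1) ^ (-(s₀ / 2))) Filter.atTop (nhds 0) :=
      (tendsto_rpow_neg_atTop hb).comp
        (Filter.tendsto_atTop_add_const_right _ 1 tendsto_natCast_atTop_atTop)
    have h3 := h2.const_mul Q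
    rwa [mul_zero] at h3
  have huni : TendstoUniformlyOn (fun (N : ℕ) (s : ℝ) => sgp f s N) (sgl f) Filter.atTop
      (Set.Ici (s₀ / 2)) := by
    rw [Metric.tendstoUniformlyOn_iff]
    intro ε hε
    filter_upwards [hlim.eventually (gt_mem_nhds hε)] with N hN s hs
    have hs' : s₀ / 2 ≤ s := hs
    rw [Real.dist_eq]
    refine lt_of_le_of_lt ((h1 f Q s hQ (hb.trans_le hs')).1 N) (lt_of_le_of_lt ?_ hN)
    refine mul_le_mul_of_nonneg_left ?_ hQ0
    refine Real.rpow_le_rpow_of_exponent_le ?_ (neg_le_neg hs')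
    have : (0 : ℝ) ≤ N := Nat.cast_nonneg N
    linarith
  have hcont : ContinuousOn (sgl f) (Set.Ici (s₀ / 2)) :=
    huni.continuousOn (Filter.Frequently.of_forall fun N => (SgCt_cont f N).continuousOn)
  exact (hcont.continuousAt (Ici_mem_nhds (half_lt_self hs₀'))).continuousWithinAt

end Pool.Agent.Lib.BV
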