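import Pool.Agent.Lib.BV.SpecS

/-!
MP_00e23e_nt, BV, module SgEl: limits and tails.
-/

namespace Pool.Agent.Lib.BV

open Finset

lemma SgEl_diff (f : ℕ → ℝ) (s : ℝ) (M N : ℕ) (h : M ≤ N) :
    sgp f s N - sgp f s M = ∑ n ∈ Ioc M N, f n * (n : ℝ) ^ (-s) := by
  have e : ∀ K : ℕ, sgp f s K = ∑ n ∈ Ioc 0 K, f n * (n : ℝ) ^ (-s) := by
    intro K
    unfold sgp
    refine Finset.sum_congr ?_ fun _ _ => rfl
    ext n
    simp only [mem_Icc, mem_Ioc]
    omega
  rw [e N, e M, ← Finset.sum_Ioc_consecutive _ (Nat.zero_le M) h]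
  ring

theorem tSgEl (h1 : SgAbStmt) : SgElStmt := by
  intro f Q s hf hs
  have h2 : ∀ M N : ℕ, |∑ n ∈ Ioc M N, f n * (n : ℝ) ^ (-s)| ≤ Q * ((M : ℝ) + 1) ^ (-s) := by
    intro M N
    have h3 := h1 f (fun n => (n : ℝ) ^ (-s)) Q M N hf (fun n _ => by positivity)
      (fun m n hm hmn => by
        refine Real.rpow_le_rpow_of_nonpos ?_ (Nat.cast_le.2 hmn) (by linarith)
        exact_mod_cast (by omega : 0 < m))
    push_cast at h3
    exact h3
  have hb : Filter.Tendsto (fun n : ℕ => Q * ((n : ℝ) + 1) ^ (-s)) Filter.atTop (nhds 0) := by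
    have h4 : Filter.Tendsto (fun n : ℕ => (n : ℝ) + 1) Filter.atTop Filter.atTop :=
      Filter.tendsto_atTop_add_const_right _ 1 tendsto_natCast_atTop_atTop
    have h5 := ((tendsto_rpow_neg_atTop hs).comp h4).const_mul Q
    rw [mul_zero] at h5
    exact h5
  have hc : CauchySeq (sgp f s) := by
    refine cauchySeq_of_le_tendsto_0' (fun n : ℕ => Q * ((n : ℝ) + 1) ^ (-s)) ?_ hb
    intro n m hnm
    rw [dist_comm, Real.dist_eq, SgEl_diff f s n m hnm]
    exact h2 n m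
  have hl : Filter.Tendsto (sgp f s) Filter.atTop (nhds (sgl f s)) := hc.tendsto_limUnder
  refine ⟨fun N => ?_, h2, hl⟩
  have h6 : Filter.Tendsto (fun M => |sgp f s M - sgp f s N|) Filter.atTop
      (nhds |sgl f s - sgp f s N|) := (hl.sub_const _).abs
  refine le_of_tendsto h6 ?_
  filter_upwards [Filter.eventually_ge_atTop N] with M hM
  rw [SgEl_diff f s N M hM]
  exact h2 N M

end Pool.Agent.Lib.BV
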