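import Pool.Agent.Lib.BV.SpecS

/-!
MP_00e23e_nt, BV, module SgFo: fourfold convolution.
-/

namespace Pool.Agent.Lib.BV

open Finset

/-- bounds for the square root -/
lemma SgFo_sqrt (M : ℕ) (hM : 1 ≤ M) : 1 ≤ Nat.sqrt M ∧ M < (Nat.sqrt M + 1) * (Nat.sqrt M + 1) ∧
    ((Nat.sqrt M : ℕ) : ℝ) ≤ (M : ℝ) ^ ((1 : ℝ) / 2) ∧
    (M : ℝ) ^ ((1 : ℝ) / 2) / 2 ≤ ((Nat.sqrt M : ℕ) : ℝ) ∧ Nat.sqrt M * Nat.sqrt M ≤ M := by
  refine ⟨Nat.sqrt_pos.2 hM, Nat.lt_succ_sqrt M, ?_, ?_, Nat.sqrt_le M⟩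
  · rw [← Real.sqrt_eq_rpow]
    exact Real.nat_sqrt_le_real_sqrt
  · rw [← Real.sqrt_eq_rpow]
    have h1 := Real.real_sqrt_le_nat_sqrt_succ (a := M)
    have h2 : (1 : ℝ) ≤ ((Nat.sqrt M : ℕ) : ℝ) := by exact_mod_cast Nat.sqrt_pos.2 hM
    linarith

/-- powers of the square root -/
lemma SgFo_pw {N A e : ℝ} (hN : 1 ≤ N) (h : N ^ ((1 : ℝ) / 2) / 2 ≤ A) (he : -(1 / 2) ≤ e)
    (he0 : e ≤ 0) : A ^ e ≤ 3 / 2 * N ^ (e / 2) := by
  have h0 : 0 < N ^ ((1 : ℝ) / 2) := Real.rpow_pos_of_pos (by linarith) _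
  have h1 := Real.rpow_le_rpow_of_nonpos (by positivity) h he0
  refine h1.trans ?_
  rw [Real.div_rpow h0.le (by norm_num), ← Real.rpow_mul (by linarith)]
  have h2 : (1 : ℝ) / 2 * e = e / 2 := by ring
  rw [h2]
  have h3 : (2 : ℝ) ^ e = ((2 : ℝ) ^ (-e))⁻¹ := by
    rw [← Real.rpow_neg (by norm_num), neg_neg]
  rw [h3, div_inv_eq_mul, mul_comm]
  have h4 : (2 : ℝ) ^ (-e) ≤ 3 / 2 := by
    have h5 := Real.rpow_le_rpow_of_exponent_le (by norm_num : (1 : ℝ) ≤ 2)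
      (show -e ≤ 1 / 2 by linarith)
    refine h5.trans ?_
    rw [← Real.sqrt_eq_rpow]
    rw [Real.sqrt_le_left (by norm_num)]
    norm_num
  exact mul_le_mul_of_nonneg_right h4 (Real.rpow_nonneg (by linarith) _)

/-- the divisor bound -/
lemma SgFo_div {u v : ℕ → ℝ} (hu : ∀ n, |u n| ≤ 1) (hv : ∀ n, |v n| ≤ 1) (n : ℕ) :
    |sgc u v n| ≤ (n.divisors.card : ℝ) := by
  unfold sgc
  refine (Finset.abs_sum_le_sum_abs _ _).trans ?_
  have h1 : ∑ w ∈ n.divisorsAntidiagonal, |u w.1 * v w.2| ≤ ∑ w ∈ n.divisorsAntidiagonal, (1 : ℝ) := by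
    refine Finset.sum_le_sum fun w _ => ?_
    rw [abs_mul]
    have h2 := hu w.1
    have h3 := hv w.2
    have h4 := abs_nonneg (u w.1)
    have h5 := abs_nonneg (v w.2)
    nlinarith
  refine h1.trans ?_
  rw [Nat.sum_divisorsAntidiagonal (fun _ _ => (1 : ℝ)), Finset.sum_const, nsmul_eq_mul, mul_one]

/-- the first part of the hyperbola -/
lemma SgFo_first (h2 : SgHaStmt) {h r : ℕ → ℝ} {C Q G β : ℝ} (N A : ℕ) (hb1 : 3 / 4 < β)
    (hb2 : β < 1) (hN : 1 ≤ N) (hA : 1 ≤ A) (hAN : A ≤ N)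
    (hA3 : (A : ℝ) ≤ (N : ℝ) ^ ((1 : ℝ) / 2)) (hC : 0 ≤ C) (hQ : 0 ≤ Q)
    (hh : ∀ n, |h n| ≤ (n.divisors.card : ℝ))
    (hr : ∀ a, 1 ≤ a → a ≤ N → |sgp r β (N / a) - G * (((N : ℝ) / (a : ℝ)) ^ (1 - β) / (1 - β))| ≤
      C * Q * ((N : ℝ) / (a : ℝ)) ^ (1 / 2 - β)) :
    |∑ a ∈ Icc 1 A, h a * (a : ℝ) ^ (-β) * sgp r β (N / a) -
      G * ((N : ℝ) ^ (1 - β) / (1 - β)) * sgp h 1 A| ≤
      C * Q * (N : ℝ) ^ (3 / 4 - β) * (1 + Real.log N) ^ 2 := by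
  have hN1 : (1 : ℝ) ≤ N := by exact_mod_cast hN
  have hN0 : (0 : ℝ) < N := by linarith
  have hA1 : (1 : ℝ) ≤ A := by exact_mod_cast hA
  have e1 : G * ((N : ℝ) ^ (1 - β) / (1 - β)) * sgp h 1 A = ∑ a ∈ Icc 1 A,
      h a * (a : ℝ) ^ (-β) * (G * (((N : ℝ) / (a : ℝ)) ^ (1 - β) / (1 - β))) := by
    unfold sgp
    rw [Finset.mul_sum]
    refine Finset.sum_congr rfl fun c hc => ?_
    have hc0 : (0 : ℝ) < c := by exact_mod_cast (mem_Icc.1 hc).1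
    have e3 : (c : ℝ) ^ (-(1 : ℝ)) = (c : ℝ) ^ (-β) / (c : ℝ) ^ (1 - β) := by
      rw [← Real.rpow_sub hc0]
      congr 1
      ring
    rw [e3, Real.div_rpow hN0.le hc0.le]
    ring
  rw [e1, ← Finset.sum_sub_distrib]
  have e2 : ∀ a ∈ Icc 1 A, |h a * (a : ℝ) ^ (-β) * sgp r β (N / a) -
      h a * (a : ℝ) ^ (-β) * (G * (((N : ℝ) / (a : ℝ)) ^ (1 - β) / (1 - β)))| ≤
      (C * Q * (N : ℝ) ^ (1 / 2 - β)) * ((a.divisors.card : ℝ) * (a : ℝ) ^ (-((1 : ℝ) / 2))) := by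
    intro a ha
    obtain ⟨ha1, ha2⟩ := mem_Icc.1 ha
    have ha0 : (0 : ℝ) < a := by exact_mod_cast ha1
    rw [← mul_sub, abs_mul, abs_mul]
    have e7 : 0 < (a : ℝ) ^ (-β) := Real.rpow_pos_of_pos ha0 _
    rw [abs_of_pos e7]
    have e8 : |h a| * (a : ℝ) ^ (-β) ≤ (a.divisors.card : ℝ) * (a : ℝ) ^ (-β) :=
      mul_le_mul_of_nonneg_right (hh a) e7.le
    refine (mul_le_mul e8 (hr a ha1 (ha2.trans hAN)) (abs_nonneg _) (by positivity)).trans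
      (le_of_eq ?_)
    have e9 : (a : ℝ) ^ (-((1 : ℝ) / 2)) = (a : ℝ) ^ (-β) / (a : ℝ) ^ (1 / 2 - β) := by
      rw [← Real.rpow_sub ha0]
      congr 1
      ring
    rw [e9, Real.div_rpow hN0.le ha0.le]
    ring
  refine (Finset.abs_sum_le_sum_abs _ _).trans ((Finset.sum_le_sum e2).trans ?_)
  rw [← Finset.mul_sum]
  have e3 := (h2 (1 / 2) A (by norm_num) hA).2
  have e4 : (A : ℝ) ^ (1 - (1 : ℝ) / 2) ≤ (N : ℝ) ^ ((1 : ℝ) / 4) := by
    have e5 := Real.rpow_le_rpow (by linarith) hA3 (by norm_num : (0 : ℝ) ≤ 1 - (1 : ℝ) / 2)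
    rw [← Real.rpow_mul hN0.le] at e5
    have e6 : (1 : ℝ) / 2 * (1 - 1 / 2) = 1 / 4 := by norm_num
    rwa [e6] at e5
  have e5 : (1 + Real.log A) ^ 2 ≤ (1 + Real.log N) ^ 2 := by
    have e6 : 0 ≤ Real.log A := Real.log_nonneg hA1
    have e7 : Real.log A ≤ Real.log N := Real.log_le_log (by linarith) (by exact_mod_cast hAN)
    exact pow_le_pow_left₀ (by linarith) (by linarith) 2
  have e6 : (N : ℝ) ^ (3 / 4 - β) = (N : ℝ) ^ (1 / 2 - β) * (N : ℝ) ^ ((1 : ℝ) / 4) := by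
    rw [← Real.rpow_add hN0]
    congr 1
    ring
  rw [e6]
  have e7 : C * Q * ((N : ℝ) ^ (1 / 2 - β) * (N : ℝ) ^ ((1 : ℝ) / 4)) * (1 + Real.log N) ^ 2 =
      C * Q * (N : ℝ) ^ (1 / 2 - β) * ((N : ℝ) ^ ((1 : ℝ) / 4) * (1 + Real.log N) ^ 2) := by ring
  rw [e7]
  refine mul_le_mul_of_nonneg_left (e3.trans ?_) (by positivity)
  exact mul_le_mul e4 e5 (by positivity) (by positivity)

/-- the second part of the hyperbola -/
lemma SgFo_second (h2 : SgHaStmt) {h r : ℕ → ℝ} {R β w : ℝ} (N A : ℕ) (hb1 : 3 / 4 < β)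
    (hb2 : β < 1) (hN : 1 ≤ N) (hA : 1 ≤ A) (hAN : A ≤ N) (hAA : A * A ≤ N)
    (hA4 : (N : ℝ) ^ ((1 : ℝ) / 2) / 2 ≤ (A : ℝ)) (hR : 0 ≤ R)
    (hr : ∀ n, |r n| ≤ (n.divisors.card : ℝ))
    (hh : ∀ M : ℕ, 1 ≤ M → |sgp h β M - w| ≤ 4 * R * (M : ℝ) ^ (1 / 2 - β) * (1 + Real.log M)) :
    |∑ b ∈ Icc 1 A, r b * (b : ℝ) ^ (-β) * ∑ a ∈ Ioc A (N / b), h a * (a : ℝ) ^ (-β)| ≤
      12 * R * (N : ℝ) ^ (3 / 4 - β) * (1 + Real.log N) ^ 3 := by
  have hN1 : (1 : ℝ) ≤ N := by exact_mod_cast hN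
  have hN0 : (0 : ℝ) < N := by linarith
  have hA1 : (1 : ℝ) ≤ A := by exact_mod_cast hA
  have hA0 : (0 : ℝ) < A := by linarith
  have hlogN : 0 ≤ Real.log N := Real.log_nonneg hN1
  have k1 : ∀ M : ℕ, A ≤ M → M ≤ N → |sgp h β M - w| ≤
      4 * R * (A : ℝ) ^ (1 / 2 - β) * (1 + Real.log N) := by
    intro M hM1 hM2
    have hM0 : (A : ℝ) ≤ M := by exact_mod_cast hM1
    refine (hh M (hA.trans hM1)).trans ?_
    have e1 : (M : ℝ) ^ (1 / 2 - β) ≤ (A : ℝ) ^ (1 / 2 - β) :=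
      Real.rpow_le_rpow_of_nonpos hA0 hM0 (by linarith)
    have e2 : Real.log M ≤ Real.log N := Real.log_le_log (by linarith) (by exact_mod_cast hM2)
    have e3 : 0 ≤ Real.log M := Real.log_nonneg (by linarith)
    have e4 : 0 ≤ (M : ℝ) ^ (1 / 2 - β) := Real.rpow_nonneg (by linarith) _
    have e5 : 0 ≤ (A : ℝ) ^ (1 / 2 - β) := Real.rpow_nonneg (by linarith) _
    exact mul_le_mul (mul_le_mul_of_nonneg_left e1 (by linarith)) (by linarith) (by linarith)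
      (by positivity)
  have k2 : ∀ b ∈ Icc 1 A, |r b * (b : ℝ) ^ (-β) * ∑ a ∈ Ioc A (N / b), h a * (a : ℝ) ^ (-β)| ≤
      ((b.divisors.card : ℝ) * (b : ℝ) ^ (-β)) *
        (8 * R * (A : ℝ) ^ (1 / 2 - β) * (1 + Real.log N)) := by
    intro b hb
    obtain ⟨hb1', hb2'⟩ := mem_Icc.1 hb
    have hb0 : (0 : ℝ) < b := by exact_mod_cast hb1'
    have hAb : A ≤ N / b := by
      rw [Nat.le_div_iff_mul_le (by omega)]
      exact (Nat.mul_le_mul_left A hb2').trans hAA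
    have hbN : N / b ≤ N := Nat.div_le_self _ _
    have e1 : ∑ a ∈ Ioc A (N / b), h a * (a : ℝ) ^ (-β) = sgp h β (N / b) - sgp h β A := by
      unfold sgp
      rw [eq_sub_iff_add_eq, add_comm]
      have e2 : Icc 1 (N / b) = Icc 1 A ∪ Ioc A (N / b) := by
        ext x
        rw [mem_union, mem_Icc, mem_Icc, mem_Ioc]
        omega
      rw [e2, Finset.sum_union]
      rw [Finset.disjoint_left]
      intro x hx hx'
      have := (mem_Icc.1 hx).2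
      have := (mem_Ioc.1 hx').1
      omega
    have e2 : |sgp h β (N / b) - sgp h β A| ≤
        8 * R * (A : ℝ) ^ (1 / 2 - β) * (1 + Real.log N) := by
      have e3 := k1 (N / b) hAb hbN
      have e4 := k1 A (le_refl A) hAN
      rw [abs_le] at e3 e4 ⊢
      constructor <;> linarith [e3.1, e3.2, e4.1, e4.2]
    rw [e1, abs_mul, abs_mul]
    have e7 : 0 < (b : ℝ) ^ (-β) := Real.rpow_pos_of_pos hb0 _
    rw [abs_of_pos e7]
    exact mul_le_mul (mul_le_mul_of_nonneg_right (hr b) e7.le) e2 (abs_nonneg _) (by positivity)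
  refine (Finset.abs_sum_le_sum_abs _ _).trans ((Finset.sum_le_sum k2).trans ?_)
  rw [← Finset.sum_mul]
  have e3 := (h2 β A hb2.le hA).2
  have e5 : (1 + Real.log A) ^ 2 ≤ (1 + Real.log N) ^ 2 := by
    have e6 : 0 ≤ Real.log A := Real.log_nonneg hA1
    have e7 : Real.log A ≤ Real.log N := Real.log_le_log (by linarith) (by exact_mod_cast hAN)
    exact pow_le_pow_left₀ (by linarith) (by linarith) 2
  have e6 : 0 < (A : ℝ) ^ (1 - β) := Real.rpow_pos_of_pos hA0 _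
  have e7 : 0 < (A : ℝ) ^ (1 / 2 - β) := Real.rpow_pos_of_pos hA0 _
  have e8 : ∑ n ∈ Icc 1 A, (n.divisors.card : ℝ) * (n : ℝ) ^ (-β) ≤
      (A : ℝ) ^ (1 - β) * (1 + Real.log N) ^ 2 :=
    e3.trans (mul_le_mul_of_nonneg_left e5 e6.le)
  refine (mul_le_mul_of_nonneg_right e8 (by positivity)).trans ?_
  have e9 : (A : ℝ) ^ (1 - β) * (A : ℝ) ^ (1 / 2 - β) = (A : ℝ) ^ (3 / 2 - 2 * β) := by
    rw [← Real.rpow_add hA0]
    congr 1
    ring
  have e10 := SgFo_pw (e := 3 / 2 - 2 * β) hN1 hA4 (by linarith) (by linarith)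
  have e11 : (3 / 2 - 2 * β) / 2 = 3 / 4 - β := by ring
  rw [e11] at e10
  have e12 : (A : ℝ) ^ (1 - β) * (1 + Real.log N) ^ 2 *
      (8 * R * (A : ℝ) ^ (1 / 2 - β) * (1 + Real.log N)) =
      8 * R * (1 + Real.log N) ^ 3 * (A : ℝ) ^ (3 / 2 - 2 * β) := by
    rw [← e9]
    ring
  have e13 : 12 * R * (N : ℝ) ^ (3 / 4 - β) * (1 + Real.log N) ^ 3 =
      8 * R * (1 + Real.log N) ^ 3 * (3 / 2 * (N : ℝ) ^ (3 / 4 - β)) := by ring
  rw [e12, e13]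
  exact mul_le_mul_of_nonneg_left e10 (by positivity)

theorem tSgFo (h1 : SgElStmt) (h2 : SgHaStmt) (h3 : SgHyStmt) (h4 : SgOnStmt) (h5 : SgMuStmt) :
    SgFoStmt := by
  intro f g Q R S β N hf hg hgQ hfR hS hQ1 hR1 hS1 hb1 hb2 hL hN
  have hb : 0 < 1 - β := by linarith
  have hN1 : (1 : ℝ) ≤ N := by exact_mod_cast hN
  have hN0 : (0 : ℝ) < N := by linarith
  have hlogN : 0 ≤ Real.log N := Real.log_nonneg hN1
  have hu : ∀ n, |f n * g n| ≤ 1 := by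
    intro n
    rw [abs_mul]
    have e1 := hf n
    have e2 := hg n
    have e3 := abs_nonneg (f n)
    have e4 := abs_nonneg (g n)
    nlinarith
  obtain ⟨a1, a2, a3, a4, a5⟩ := SgFo_sqrt N hN
  have a6 : Nat.sqrt N ≤ N := Nat.sqrt_le_self N
  have hy := h3 (sgc f (fun n => f n * g n)) (sgc g (fun _ => 1)) β N (Nat.sqrt N) (Nat.sqrt N) a2
  generalize Nat.sqrt N = A at a1 a2 a3 a4 a5 a6 hy
  rw [hy]
  have hA1 : (1 : ℝ) ≤ A := by exact_mod_cast a1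
  -- first part
  obtain ⟨z, _, hz⟩ := h4 β (by linarith) hb2
  have p1 := SgFo_first h2 (h := sgc f (fun n => f n * g n)) (r := sgc g (fun _ => 1))
    (C := 20 / (1 - β)) (Q := Q) (G := sgl g 1) N A hb1 hb2 hN a1 a6 a3 (by positivity)
    (by linarith) (SgFo_div hf hu) (fun a ha haN => by
      have e1 := hz g Q hg hgQ hQ1 a N ha haN
      rw [hL, mul_zero, sub_zero] at e1
      exact e1)
  -- the value at 1
  have p2 := h5 f (fun n => f n * g n) R S 1 A hf hu hfR hS hR1 hS1 (by norm_num) (le_refl _) a1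
  have e1 := SgFo_pw (e := 1 / 2 - 1) hN1 a4 (by norm_num) (by norm_num)
  have e2 : ((1 : ℝ) / 2 - 1) / 2 = -(1 / 4) := by norm_num
  rw [e2] at e1
  have hlogA : 0 ≤ Real.log A := Real.log_nonneg hA1
  have hlogAN : Real.log A ≤ Real.log N := Real.log_le_log (by linarith) (by exact_mod_cast a6)
  have p3 : |sgp (sgc f (fun n => f n * g n)) 1 A - sgl f 1 * sgl (fun n => f n * g n) 1| ≤
      6 * R * S * (N : ℝ) ^ (-((1 : ℝ) / 4)) * (1 + Real.log N) := by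
    refine p2.trans ?_
    have e3 : 6 * R * S * (N : ℝ) ^ (-((1 : ℝ) / 4)) * (1 + Real.log N) =
        4 * R * S * (3 / 2 * (N : ℝ) ^ (-((1 : ℝ) / 4))) * (1 + Real.log N) := by ring
    rw [e3]
    have e4 : 0 < (N : ℝ) ^ (-((1 : ℝ) / 4)) := Real.rpow_pos_of_pos hN0 _
    refine mul_le_mul (mul_le_mul_of_nonneg_left e1 (by positivity)) (by linarith) (by linarith)
      (by positivity)
  have hLg : |sgl g 1| ≤ Q := by
    have e1 := (h1 g Q 1 hgQ one_pos).1 0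
    have e2 : sgp g 1 0 = 0 := by
      unfold sgp
      simp
    rw [e2, sub_zero, Nat.cast_zero, zero_add, Real.one_rpow, mul_one] at e1
    exact e1
  have hNb : 0 < (N : ℝ) ^ (1 - β) := Real.rpow_pos_of_pos hN0 _
  have hN34 : 0 < (N : ℝ) ^ (3 / 4 - β) := Real.rpow_pos_of_pos hN0 _
  have p4 : |sgl g 1 * ((N : ℝ) ^ (1 - β) / (1 - β)) * (sgp (sgc f (fun n => f n * g n)) 1 A -
      sgl f 1 * sgl (fun n => f n * g n) 1)| ≤
      6 * (Q * R * S * (N : ℝ) ^ (3 / 4 - β) / (1 - β)) * (1 + Real.log N) := by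
    rw [abs_mul, abs_mul, abs_of_pos (by positivity : 0 < (N : ℝ) ^ (1 - β) / (1 - β))]
    have e3 : |sgl g 1| * ((N : ℝ) ^ (1 - β) / (1 - β)) ≤ Q * ((N : ℝ) ^ (1 - β) / (1 - β)) :=
      mul_le_mul_of_nonneg_right hLg (by positivity)
    refine (mul_le_mul e3 p3 (abs_nonneg _) (by positivity)).trans (le_of_eq ?_)
    have e4 : (N : ℝ) ^ (3 / 4 - β) = (N : ℝ) ^ (1 - β) * (N : ℝ) ^ (-((1 : ℝ) / 4)) := by
      rw [← Real.rpow_add hN0]
      congr 1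
      ring
    rw [e4]
    ring
  -- second part
  have p5 := SgFo_second h2 (h := sgc f (fun n => f n * g n)) (r := sgc g (fun _ => 1))
    (R := R * S) (w := sgl f β * sgl (fun n => f n * g n) β) N A hb1 hb2 hN a1 a6 a5 a4
    (by positivity) (SgFo_div hg (fun _ => by rw [abs_one])) (fun M hM => by
      have e1 := h5 f (fun n => f n * g n) R S β M hf hu hfR hS hR1 hS1 (by linarith) hb2.le hM
      have e2 : 4 * (R * S) * (M : ℝ) ^ (1 / 2 - β) * (1 + Real.log M) =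
        4 * R * S * (M : ℝ) ^ (1 / 2 - β) * (1 + Real.log M) := by ring
      rw [e2]
      exact e1)
  -- combine
  generalize ∑ a ∈ Icc 1 A, sgc f (fun n => f n * g n) a * (a : ℝ) ^ (-β) *
    sgp (sgc g (fun _ => 1)) β (N / a) = S1 at p1 ⊢
  generalize ∑ b ∈ Icc 1 A, sgc g (fun _ => 1) b * (b : ℝ) ^ (-β) *
    ∑ a ∈ Ioc A (N / b), sgc f (fun n => f n * g n) a * (a : ℝ) ^ (-β) = S2 at p5 ⊢
  generalize sgp (sgc f (fun n => f n * g n)) 1 A = H at p1 p4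
  generalize sgl f 1 = F1 at p4 ⊢
  generalize sgl (fun n => f n * g n) 1 = F2 at p4 ⊢
  generalize sgl g 1 = G at p1 p4 ⊢
  set L : ℝ := 1 + Real.log N with hLdef
  have hL1 : 1 ≤ L := by linarith
  set T : ℝ := Q * R * S * (N : ℝ) ^ (3 / 4 - β) / (1 - β) with hT
  have hT0 : 0 < T := by positivity
  have q1 : 20 / (1 - β) * Q * (N : ℝ) ^ (3 / 4 - β) * L ^ 2 ≤ 20 * T * L ^ 3 := by
    have e1 : 20 / (1 - β) * Q * (N : ℝ) ^ (3 / 4 - β) = 20 * (Q * (N : ℝ) ^ (3 / 4 - β) / (1 - β)) := by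
      ring
    have e2 : Q * (N : ℝ) ^ (3 / 4 - β) / (1 - β) ≤ T := by
      rw [hT]
      refine div_le_div_of_nonneg_right ?_ hb.le
      refine mul_le_mul_of_nonneg_right ?_ hN34.le
      have e3 : 1 ≤ R * S := by nlinarith
      have e4 : Q * R * S = Q * (R * S) := by ring
      rw [e4]
      nlinarith
    have e3 : L ^ 2 ≤ L ^ 3 := pow_le_pow_right₀ hL1 (by norm_num)
    rw [e1]
    exact mul_le_mul (by linarith) e3 (by positivity) (by positivity)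
  have q2 : 6 * T * L ≤ 6 * T * L ^ 3 := by
    have e3 : L ≤ L ^ 3 := by
      calc L = L ^ 1 := (pow_one L).symm
        _ ≤ L ^ 3 := pow_le_pow_right₀ hL1 (by norm_num)
    exact mul_le_mul_of_nonneg_left e3 (by positivity)
  have q3 : 12 * (R * S) * (N : ℝ) ^ (3 / 4 - β) * L ^ 3 ≤ 12 * T * L ^ 3 := by
    have e2 : (R * S) * (N : ℝ) ^ (3 / 4 - β) ≤ T := by
      rw [hT, le_div_iff₀ hb]
      have e3 : Q * R * S * (N : ℝ) ^ (3 / 4 - β) = Q * ((R * S) * (N : ℝ) ^ (3 / 4 - β)) := by ring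
      rw [e3]
      have e4 : 0 < (R * S) * (N : ℝ) ^ (3 / 4 - β) := by positivity
      have e5 : 0 < β := by linarith
      nlinarith
    have e3 : 12 * (R * S) * (N : ℝ) ^ (3 / 4 - β) = 12 * ((R * S) * (N : ℝ) ^ (3 / 4 - β)) := by ring
    rw [e3]
    exact mul_le_mul_of_nonneg_right (by linarith) (by positivity)
  have q4 : 60 / (1 - β) * Q * R * S * (N : ℝ) ^ (3 / 4 - β) * L ^ 3 = 60 * T * L ^ 3 := by
    rw [hT]
    ring
  rw [q4]
  have q5 : 0 < T * L ^ 3 := by positivity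
  have q6 : G * ((N : ℝ) ^ (1 - β) / (1 - β)) * (H - F1 * F2) =
      G * ((N : ℝ) ^ (1 - β) / (1 - β)) * H - G * F1 * F2 * ((N : ℝ) ^ (1 - β) / (1 - β)) := by ring
  rw [q6] at p4
  rw [abs_le] at p1 p4 p5 ⊢
  constructor <;> linarith [p1.1, p1.2, p4.1, p4.2, p5.1, p5.2]

end Pool.Agent.Lib.BV
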