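import Pool.Agent.Lib.BV.SpecS

/-!
MP_00e23e_nt, Lib/BV, module SgHa: harmonic sums and divisor sums.
-/

namespace Pool.Agent.Lib.BV

open Finset

/-- a sum over the factorizations of the numbers up to D is at most the square of the sum -/
private theorem SgHa_sq (G : ℕ → ℝ) (hG : ∀ a, 0 ≤ G a) (D : ℕ) :
    ∑ d ∈ Icc 1 D, ∑ w ∈ d.divisorsAntidiagonal, G w.1 * G w.2 ≤ (∑ a ∈ Icc 1 D, G a) ^ 2 := by
  classical
  have h1 : (∑ a ∈ Icc 1 D, G a) ^ 2 = ∑ w ∈ Icc 1 D ×ˢ Icc 1 D, G w.1 * G w.2 := by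
    rw [sq, Finset.sum_mul_sum, Finset.sum_product]
  rw [h1]
  have h2 : ∑ w ∈ (Icc 1 D ×ˢ Icc 1 D).filter (fun w => w.1 * w.2 ≤ D), G w.1 * G w.2 ≤
      ∑ w ∈ Icc 1 D ×ˢ Icc 1 D, G w.1 * G w.2 :=
    Finset.sum_le_sum_of_subset_of_nonneg (Finset.filter_subset _ _)
      (fun w _ _ => mul_nonneg (hG _) (hG _))
  refine le_trans (le_of_eq ?_) h2
  rw [← Finset.sum_fiberwise_of_maps_to (t := Icc 1 D) (g := fun w : ℕ × ℕ => w.1 * w.2)]
  · refine Finset.sum_congr rfl fun d hd => ?_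
    rw [Finset.mem_Icc] at hd
    refine Finset.sum_congr ?_ fun _ _ => rfl
    ext ⟨a, b⟩
    simp only [Nat.mem_divisorsAntidiagonal, Finset.mem_filter, Finset.mem_product,
      Finset.mem_Icc]
    constructor
    · rintro ⟨h, h0⟩
      have ha : 0 < a := Nat.pos_of_ne_zero (by rintro rfl; omega)
      have hb : 0 < b := Nat.pos_of_ne_zero (by rintro rfl; omega)
      have ha' : a ≤ a * b := Nat.le_mul_of_pos_right a hb
      have hb' : b ≤ a * b := Nat.le_mul_of_pos_left b ha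
      omega
    · rintro ⟨-, h⟩
      omega
  · intro w hw
    simp only [Finset.mem_filter, Finset.mem_product, Finset.mem_Icc] at hw
    rw [Finset.mem_Icc]
    exact ⟨Nat.mul_pos hw.1.1.1 hw.1.2.1, hw.2⟩

private theorem SgHa_card (d : ℕ) :
    (d.divisors.card : ℝ) = ∑ _w ∈ d.divisorsAntidiagonal, (1 : ℝ) := by
  rw [Nat.sum_divisorsAntidiagonal (fun _ _ => (1 : ℝ)), Finset.sum_const, nsmul_eq_mul, mul_one]

private theorem SgHa_harm (N : ℕ) : ∑ a ∈ Icc 1 N, 1 / (a : ℝ) ≤ 1 + Real.log N := by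
  have h2 := harmonic_le_one_add_log N
  rw [harmonic_eq_sum_Icc] at h2
  push_cast at h2
  refine le_trans (le_of_eq ?_) h2
  refine Finset.sum_congr rfl fun a _ => ?_
  rw [one_div]

private theorem SgHa_div (N : ℕ) :
    ∑ n ∈ Icc 1 N, (n.divisors.card : ℝ) * (1 / (n : ℝ)) ≤ (1 + Real.log N) ^ 2 := by
  have h0 : 0 ≤ ∑ a ∈ Icc 1 N, 1 / (a : ℝ) := Finset.sum_nonneg fun a _ => by positivity
  refine le_trans ?_ (pow_le_pow_left₀ h0 (SgHa_harm N) 2)
  refine le_trans (le_of_eq ?_) (SgHa_sq (fun a => 1 / (a : ℝ)) (fun a => by positivity) N)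
  refine Finset.sum_congr rfl fun d hd => ?_
  rw [Finset.mem_Icc] at hd
  rw [SgHa_card, Finset.sum_mul]
  refine Finset.sum_congr rfl fun w hw => ?_
  rw [Nat.mem_divisorsAntidiagonal] at hw
  rw [← hw.1, one_mul]
  push_cast
  rw [one_div_mul_one_div]

private theorem SgHa_pt (s : ℝ) (N n : ℕ) (hs : s ≤ 1) (hn : n ∈ Icc 1 N) :
    (n : ℝ) ^ (-s) ≤ (N : ℝ) ^ (1 - s) * (1 / (n : ℝ)) := by
  rw [Finset.mem_Icc] at hn
  have hn0 : (0 : ℝ) < (n : ℝ) := by exact_mod_cast hn.1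
  have hnN : (n : ℝ) ≤ (N : ℝ) := by exact_mod_cast hn.2
  have h1 : (n : ℝ) ^ (-s) = (n : ℝ) ^ (1 - s) * (1 / (n : ℝ)) := by
    have h2 : -s = (1 - s) + (-1) := by ring
    rw [h2, Real.rpow_add hn0, Real.rpow_neg_one, one_div]
  rw [h1]
  apply mul_le_mul_of_nonneg_right _ (by positivity)
  exact Real.rpow_le_rpow hn0.le hnN (by linarith)

theorem tSgHa : SgHaStmt := by
  intro s N hs _
  have hN : 0 ≤ (N : ℝ) ^ (1 - s) := Real.rpow_nonneg (Nat.cast_nonneg _) _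
  constructor
  · refine le_trans (Finset.sum_le_sum fun n hn => SgHa_pt s N n hs hn) ?_
    rw [← Finset.mul_sum]
    exact mul_le_mul_of_nonneg_left (SgHa_harm N) hN
  · have h1 : ∀ n ∈ Icc 1 N, (n.divisors.card : ℝ) * (n : ℝ) ^ (-s) ≤
        (N : ℝ) ^ (1 - s) * ((n.divisors.card : ℝ) * (1 / (n : ℝ))) := by
      intro n hn
      have h2 := mul_le_mul_of_nonneg_left (SgHa_pt s N n hs hn)
        (Nat.cast_nonneg (α := ℝ) n.divisors.card)
      refine le_trans h2 (le_of_eq ?_)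
      ring
    refine le_trans (Finset.sum_le_sum h1) ?_
    rw [← Finset.mul_sum]
    exact mul_le_mul_of_nonneg_left (SgHa_div N) hN

end Pool.Agent.Lib.BV
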