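import Pool.Agent.Lib.BV.SpecS

/-!
MP_00e23e_nt, Lib/BV, module SgHy: the hyperbola method.
-/

namespace Pool.Agent.Lib.BV

open Finset

/-- the pairs with product at most N -/
private def SgHy_P (N : ℕ) : Finset (ℕ × ℕ) :=
  (Icc 1 N ×ˢ Icc 1 N).filter (fun w => w.1 * w.2 ≤ N)

private theorem SgHy_mem (N a b : ℕ) :
    (a, b) ∈ SgHy_P N ↔ 1 ≤ a ∧ 1 ≤ b ∧ a * b ≤ N := by
  unfold SgHy_P
  simp only [Finset.mem_filter, Finset.mem_product, Finset.mem_Icc]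
  constructor
  · rintro ⟨⟨h1, h2⟩, h3⟩
    exact ⟨h1.1, h2.1, h3⟩
  · rintro ⟨ha, hb, h3⟩
    have ha' : a ≤ a * b := Nat.le_mul_of_pos_right a hb
    have hb' : b ≤ a * b := Nat.le_mul_of_pos_left b ha
    exact ⟨⟨⟨ha, by omega⟩, ⟨hb, by omega⟩⟩, h3⟩

private theorem SgHy_all (F G : ℕ → ℝ) (N : ℕ) :
    ∑ d ∈ Icc 1 N, ∑ w ∈ d.divisorsAntidiagonal, F w.1 * G w.2 =
      ∑ w ∈ SgHy_P N, F w.1 * G w.2 := by
  classical
  rw [← Finset.sum_fiberwise_of_maps_to (s := SgHy_P N) (t := Icc 1 N)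
    (g := fun w : ℕ × ℕ => w.1 * w.2)]
  · refine Finset.sum_congr rfl fun d hd => ?_
    rw [Finset.mem_Icc] at hd
    refine Finset.sum_congr ?_ fun _ _ => rfl
    ext ⟨a, b⟩
    rw [Finset.mem_filter, SgHy_mem, Nat.mem_divisorsAntidiagonal]
    simp only
    constructor
    · rintro ⟨h, h0⟩
      have ha : 0 < a := Nat.pos_of_ne_zero (by rintro rfl; omega)
      have hb : 0 < b := Nat.pos_of_ne_zero (by rintro rfl; omega)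
      omega
    · rintro ⟨-, h⟩
      omega
  · rintro ⟨a, b⟩ hw
    rw [SgHy_mem] at hw
    rw [Finset.mem_Icc]
    exact ⟨Nat.mul_pos hw.1 hw.2.1, hw.2.2⟩

private theorem SgHy_first (F G : ℕ → ℝ) (N A : ℕ) :
    ∑ w ∈ (SgHy_P N).filter (fun w => w.1 ≤ A), F w.1 * G w.2 =
      ∑ a ∈ Icc 1 A, F a * ∑ b ∈ Icc 1 (N / a), G b := by
  have h1 : ∑ a ∈ Icc 1 A, F a * ∑ b ∈ Icc 1 (N / a), G b =
      ∑ a ∈ Icc 1 A, ∑ b ∈ Icc 1 (N / a), F a * G b :=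
    Finset.sum_congr rfl fun a _ => Finset.mul_sum _ _ _
  rw [h1, Finset.sum_sigma']
  apply Finset.sum_nbij' (i := fun w : ℕ × ℕ => (⟨w.1, w.2⟩ : Σ _ : ℕ, ℕ))
    (j := fun p : Σ _ : ℕ, ℕ => (p.1, p.2))
  · rintro ⟨a, b⟩ hw
    rw [Finset.mem_filter, SgHy_mem] at hw
    simp only [Finset.mem_sigma, Finset.mem_Icc]
    refine ⟨⟨hw.1.1, hw.2⟩, hw.1.2.1, ?_⟩
    rw [Nat.le_div_iff_mul_le hw.1.1, mul_comm]
    exact hw.1.2.2
  · rintro ⟨a, b⟩ hp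
    simp only [Finset.mem_sigma, Finset.mem_Icc] at hp
    rw [Finset.mem_filter, SgHy_mem]
    have h2 := hp.2.2
    rw [Nat.le_div_iff_mul_le hp.1.1, mul_comm] at h2
    exact ⟨⟨hp.1.1, hp.2.1, h2⟩, hp.1.2⟩
  · rintro ⟨a, b⟩ _
    rfl
  · rintro ⟨a, b⟩ _
    rfl
  · rintro ⟨a, b⟩ _
    rfl

private theorem SgHy_second (F G : ℕ → ℝ) (N A B : ℕ) (h : N < (A + 1) * (B + 1)) :
    ∑ w ∈ (SgHy_P N).filter (fun w => ¬ w.1 ≤ A), F w.1 * G w.2 =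
      ∑ b ∈ Icc 1 B, G b * ∑ a ∈ Ioc A (N / b), F a := by
  have h1 : ∑ b ∈ Icc 1 B, G b * ∑ a ∈ Ioc A (N / b), F a =
      ∑ b ∈ Icc 1 B, ∑ a ∈ Ioc A (N / b), G b * F a :=
    Finset.sum_congr rfl fun a _ => Finset.mul_sum _ _ _
  rw [h1, Finset.sum_sigma']
  apply Finset.sum_nbij' (i := fun w : ℕ × ℕ => (⟨w.2, w.1⟩ : Σ _ : ℕ, ℕ))
    (j := fun p : Σ _ : ℕ, ℕ => (p.2, p.1))
  · rintro ⟨a, b⟩ hw
    rw [Finset.mem_filter, SgHy_mem] at hw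
    obtain ⟨⟨ha, hb, hab⟩, hA⟩ := hw
    simp only [not_le] at hA
    simp only [Finset.mem_sigma, Finset.mem_Icc, Finset.mem_Ioc]
    refine ⟨⟨hb, ?_⟩, hA, ?_⟩
    · have h2 : (A + 1) * b ≤ a * b := Nat.mul_le_mul_right b hA
      have h3 : (A + 1) * b < (A + 1) * (B + 1) := lt_of_le_of_lt (le_trans h2 hab) h
      have h4 := Nat.lt_of_mul_lt_mul_left h3
      omega
    · rw [Nat.le_div_iff_mul_le hb]
      exact hab
  · rintro ⟨b, a⟩ hp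
    simp only [Finset.mem_sigma, Finset.mem_Icc, Finset.mem_Ioc] at hp
    obtain ⟨⟨hb, hB⟩, hA, ha⟩ := hp
    rw [Nat.le_div_iff_mul_le hb] at ha
    rw [Finset.mem_filter, SgHy_mem]
    have ha1 : 1 ≤ a := Nat.lt_of_le_of_lt (Nat.zero_le A) hA
    exact ⟨⟨ha1, hb, ha⟩, not_le.mpr hA⟩
  · rintro ⟨a, b⟩ _
    rfl
  · rintro ⟨a, b⟩ _
    rfl
  · rintro ⟨a, b⟩ _
    exact mul_comm _ _

theorem tSgHy : SgHyStmt := by
  intro f g s N A B h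
  have h1 : sgp (sgc f g) s N = ∑ n ∈ Icc 1 N, ∑ w ∈ n.divisorsAntidiagonal,
      (f w.1 * (w.1 : ℝ) ^ (-s)) * (g w.2 * (w.2 : ℝ) ^ (-s)) := by
    unfold sgp sgc
    refine Finset.sum_congr rfl fun n _ => ?_
    rw [Finset.sum_mul]
    refine Finset.sum_congr rfl fun w hw => ?_
    rw [Nat.mem_divisorsAntidiagonal] at hw
    rw [← hw.1, Nat.cast_mul, Real.mul_rpow (Nat.cast_nonneg _) (Nat.cast_nonneg _)]
    ring
  rw [h1, SgHy_all (fun a => f a * (a : ℝ) ^ (-s)) (fun b => g b * (b : ℝ) ^ (-s)) N,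
    ← Finset.sum_filter_add_sum_filter_not (SgHy_P N) (fun w => w.1 ≤ A),
    SgHy_first (fun a => f a * (a : ℝ) ^ (-s)) (fun b => g b * (b : ℝ) ^ (-s)) N A,
    SgHy_second (fun a => f a * (a : ℝ) ^ (-s)) (fun b => g b * (b : ℝ) ^ (-s)) N A B h]
  rfl

end Pool.Agent.Lib.BV
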