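import Pool.Agent.Lib.BV.SpecS

/-!
MP_00e23e_nt, module SgLf: the limit is the value of the L-function at 1.
-/

namespace Pool.Agent.Lib.BV

open Finset

private lemma SgLf_sum {q : ℕ} [NeZero q] (χ : DirichletCharacter ℂ q)
    (hre : ∀ n : ℕ, (((χ (n : ZMod q)).re : ℝ) : ℂ) = χ (n : ZMod q)) (s : ℝ) (N : ℕ) :
    ((sgp (fun n => (χ (n : ZMod q)).re) s N : ℝ) : ℂ) =
      ∑ i ∈ range (N + 1), LSeries.term (fun n : ℕ => χ (n : ZMod q)) (s : ℂ) i := by
  unfold sgp
  have h1 : range (N + 1) = insert 0 (Icc 1 N) := by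
    ext n
    simp only [mem_range, mem_insert, mem_Icc]
    omega
  rw [h1, sum_insert (by simp), LSeries.term_zero, zero_add]
  push_cast
  refine sum_congr rfl fun n hn => ?_
  have hn1 : n ≠ 0 := by
    have := (mem_Icc.1 hn).1
    omega
  rw [LSeries.term_of_ne_zero hn1, hre n]
  rw [Complex.ofReal_cpow (Nat.cast_nonneg n)]
  push_cast
  rw [Complex.cpow_neg]
  rfl

theorem tSgLf (h1 : SgElStmt) (h2 : SgCtStmt) (h3 : SgChStmt) : SgLfStmt := by
  intro q _ χ hq hχ hχ2
  obtain ⟨-, hPB, hre⟩ := h3 q χ hq hχ hχ2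
  have key : ∀ s : ℝ, 1 < s → DirichletCharacter.LFunction χ (s : ℂ) =
      ((sgl (fun n => (χ (n : ZMod q)).re) s : ℝ) : ℂ) := by
    intro s hs
    have hs' : 1 < (s : ℂ).re := by simpa using hs
    rw [DirichletCharacter.LFunction_eq_LSeries χ hs']
    have hsum := (DirichletCharacter.LSeriesSummable_of_one_lt_re χ hs').hasSum
    have ht := hsum.tendsto_sum_nat
    have ht' := (Filter.tendsto_add_atTop_iff_nat 1).2 ht
    have hu : Filter.Tendsto (fun N => ((sgp (fun n => (χ (n : ZMod q)).re) s N : ℝ) : ℂ))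
        Filter.atTop (nhds ((sgl (fun n => (χ (n : ZMod q)).re) s : ℝ) : ℂ)) :=
      (Complex.continuous_ofReal.tendsto _).comp (h1 _ q s hPB (by linarith)).2.2
    have he : (fun N => ((sgp (fun n => (χ (n : ZMod q)).re) s N : ℝ) : ℂ)) =
        fun N => ∑ i ∈ range (N + 1), LSeries.term (fun n : ℕ => χ (n : ZMod q)) (s : ℂ) i :=
      funext fun N => SgLf_sum χ hre s N
    rw [he] at hu
    exact tendsto_nhds_unique ht' hu
  have hL : Filter.Tendsto (fun s : ℝ => DirichletCharacter.LFunction χ (s : ℂ))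
      (nhdsWithin 1 (Set.Ioi 1)) (nhds (DirichletCharacter.LFunction χ 1)) := by
    have hc : Continuous fun s : ℝ => DirichletCharacter.LFunction χ (s : ℂ) :=
      (DirichletCharacter.differentiable_LFunction hχ).continuous.comp Complex.continuous_ofReal
    have := hc.tendsto 1
    simp only [Complex.ofReal_one] at this
    exact this.mono_left nhdsWithin_le_nhds
  have hR : Filter.Tendsto (fun s : ℝ => ((sgl (fun n => (χ (n : ZMod q)).re) s : ℝ) : ℂ))
      (nhdsWithin 1 (Set.Ioi 1)) (nhds ((sgl (fun n => (χ (n : ZMod q)).re) 1 : ℝ) : ℂ)) := by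
    have hc : ContinuousAt (sgl (fun n => (χ (n : ZMod q)).re)) 1 :=
      (h2 _ q hPB).continuousAt (Ioi_mem_nhds one_pos)
    exact ((Complex.continuous_ofReal.tendsto _).comp hc.tendsto).mono_left nhdsWithin_le_nhds
  have heq : DirichletCharacter.LFunction χ 1 =
      ((sgl (fun n => (χ (n : ZMod q)).re) 1 : ℝ) : ℂ) := by
    refine tendsto_nhds_unique hL (hR.congr' ?_)
    filter_upwards [self_mem_nhdsWithin] with s hs
    exact (key s hs).symm
  refine ⟨heq, fun h0 => ?_⟩
  rw [h0, Complex.ofReal_zero] at heq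
  exact DirichletCharacter.LFunction_apply_one_ne_zero hχ heq

end Pool.Agent.Lib.BV
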