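import Pool.Agent.Lib.BV.SpecS

/-!
MP_00e23e_nt, module SgMu (theorem tSgMu): product formula for the convolution.
-/

namespace Pool.Agent.Lib.BV

open Finset

private lemma SgMu_sqrt_le (N : ℕ) : ((Nat.sqrt N : ℕ) : ℝ) ≤ (N : ℝ) ^ ((1 : ℝ) / 2) := by
  rw [← Real.sqrt_eq_rpow]
  apply Real.le_sqrt_of_sq_le
  have h := Nat.sqrt_le' N
  exact_mod_cast h

private lemma SgMu_le_sqrt (N : ℕ) : (N : ℝ) ^ ((1 : ℝ) / 2) ≤ ((Nat.sqrt N : ℕ) : ℝ) + 1 := by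
  rw [← Real.sqrt_eq_rpow]
  apply Real.sqrt_le_iff.mpr
  refine ⟨by positivity, ?_⟩
  have h := (Nat.lt_succ_sqrt' N).le
  have h2 : (N : ℝ) ≤ (((Nat.sqrt N).succ : ℕ) : ℝ) ^ 2 := by exact_mod_cast h
  push_cast at h2
  exact h2

private lemma SgMu_A1 (N : ℕ) (s : ℝ) (hN : 1 ≤ N) (hs : 1 / 2 < s) :
    (((Nat.sqrt N : ℕ) : ℝ) + 1) ^ (-s) ≤ (N : ℝ) ^ (-(s / 2)) := by
  have hN' : (1 : ℝ) ≤ N := by exact_mod_cast hN
  have h1 : ((N : ℝ) ^ ((1 : ℝ) / 2)) ^ (-s) = (N : ℝ) ^ (-(s / 2)) := by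
    rw [← Real.rpow_mul (by linarith)]
    congr 1
    ring
  rw [← h1]
  apply Real.rpow_le_rpow_of_nonpos
  · positivity
  · exact SgMu_le_sqrt N
  · linarith

private lemma SgMu_A2 (N : ℕ) (s : ℝ) (hs : 1 / 2 < s) (hs1 : s ≤ 1) :
    (((Nat.sqrt N : ℕ) : ℝ)) ^ (1 - s) ≤ (N : ℝ) ^ ((1 - s) / 2) := by
  have h1 : ((N : ℝ) ^ ((1 : ℝ) / 2)) ^ (1 - s) = (N : ℝ) ^ ((1 - s) / 2) := by
    rw [← Real.rpow_mul (Nat.cast_nonneg _)]
    congr 1
    ring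
  rw [← h1]
  apply Real.rpow_le_rpow (Nat.cast_nonneg _) (SgMu_sqrt_le N)
  linarith

private lemma SgMu_l (h1 : SgElStmt) {g : ℕ → ℝ} {R s : ℝ} (hg : SgPB g R) (hs : 0 < s) :
    |sgl g s| ≤ R := by
  have h := (h1 g R s hg hs).1 0
  have h2 : sgp g s 0 = 0 := by simp [sgp]
  rw [h2] at h
  simpa using h

private lemma SgMu_e1 (h1 : SgElStmt) {f g : ℕ → ℝ} {R s : ℝ} {N A : ℕ} (hf : ∀ n, |f n| ≤ 1)
    (hg : SgPB g R) (hR : 1 ≤ R) (hs : 0 < s) (hN : 1 ≤ N) (hA : A ≤ N) :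
    |∑ a ∈ Icc 1 A, f a * (a : ℝ) ^ (-s) * sgp g s (N / a) - sgl g s * sgp f s A| ≤
      R * ((A : ℝ) * (N : ℝ) ^ (-s)) := by
  have hN' : (1 : ℝ) ≤ N := by exact_mod_cast hN
  have h2 : ∑ a ∈ Icc 1 A, f a * (a : ℝ) ^ (-s) * sgp g s (N / a) - sgl g s * sgp f s A =
      ∑ a ∈ Icc 1 A, f a * (a : ℝ) ^ (-s) * (sgp g s (N / a) - sgl g s) := by
    unfold sgp
    rw [Finset.mul_sum, ← Finset.sum_sub_distrib]
    refine Finset.sum_congr rfl ?_
    intro a _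
    ring
  rw [h2]
  refine (Finset.abs_sum_le_sum_abs _ _).trans ?_
  have h3 : ∀ a ∈ Icc 1 A, |f a * (a : ℝ) ^ (-s) * (sgp g s (N / a) - sgl g s)| ≤
      R * (N : ℝ) ^ (-s) := by
    intro a ha
    have ha' := Finset.mem_Icc.mp ha
    have ha1 : (1 : ℝ) ≤ a := by exact_mod_cast ha'.1
    have hp : 0 < (a : ℝ) ^ (-s) := Real.rpow_pos_of_pos (by linarith) _
    rw [abs_mul, abs_mul, abs_of_pos hp, abs_sub_comm]
    have h4 := (h1 g R s hg hs).1 (N / a)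
    have h5 : (a : ℝ) ^ (-s) * (((N / a : ℕ) : ℝ) + 1) ^ (-s) ≤ (N : ℝ) ^ (-s) := by
      rw [← Real.mul_rpow (by linarith) (by positivity)]
      apply Real.rpow_le_rpow_of_nonpos (by linarith)
      · have h6 : N < a * (N / a + 1) := Nat.lt_mul_div_succ N (by omega)
        have h7 : (N : ℝ) < (a : ℝ) * (((N / a : ℕ) : ℝ) + 1) := by exact_mod_cast h6
        exact h7.le
      · linarith
    calc |f a| * (a : ℝ) ^ (-s) * |sgl g s - sgp g s (N / a)|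
        ≤ 1 * (a : ℝ) ^ (-s) * (R * (((N / a : ℕ) : ℝ) + 1) ^ (-s)) := by
          apply mul_le_mul _ h4 (abs_nonneg _) (by positivity)
          exact mul_le_mul_of_nonneg_right (hf a) hp.le
      _ = R * ((a : ℝ) ^ (-s) * (((N / a : ℕ) : ℝ) + 1) ^ (-s)) := by ring
      _ ≤ R * (N : ℝ) ^ (-s) := mul_le_mul_of_nonneg_left h5 (by linarith)
  refine (Finset.sum_le_sum h3).trans ?_
  simp only [Finset.sum_const, Nat.card_Icc, nsmul_eq_mul, Nat.add_sub_cancel]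
  exact le_of_eq (by ring)

private lemma SgMu_e2 (h1 : SgElStmt) {f g : ℕ → ℝ} {Q s : ℝ} {A : ℕ} (m : ℕ → ℕ)
    (hg : ∀ n, |g n| ≤ 1) (hf : SgPB f Q) (hQ : 1 ≤ Q) (hs : 0 < s) :
    |∑ b ∈ Icc 1 A, g b * (b : ℝ) ^ (-s) * ∑ a ∈ Ioc A (m b), f a * (a : ℝ) ^ (-s)| ≤
      (∑ b ∈ Icc 1 A, (b : ℝ) ^ (-s)) * (Q * ((A : ℝ) + 1) ^ (-s)) := by
  refine (Finset.abs_sum_le_sum_abs _ _).trans ?_
  rw [Finset.sum_mul]
  refine Finset.sum_le_sum ?_
  intro b _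
  have hp : 0 ≤ (b : ℝ) ^ (-s) := Real.rpow_nonneg (Nat.cast_nonneg _) _
  rw [abs_mul, abs_mul, abs_of_nonneg hp]
  have h4 := (h1 f Q s hf hs).2.1 A (m b)
  apply mul_le_mul _ h4 (abs_nonneg _) hp
  calc |g b| * (b : ℝ) ^ (-s) ≤ 1 * (b : ℝ) ^ (-s) := mul_le_mul_of_nonneg_right (hg b) hp
    _ = (b : ℝ) ^ (-s) := one_mul _

theorem tSgMu (h1 : SgElStmt) (h2 : SgHaStmt) (h3 : SgHyStmt) : SgMuStmt := by
  intro f g Q R s N hf hg hfQ hgR hQ hR hs hs1 hN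
  have hN' : (1 : ℝ) ≤ N := by exact_mod_cast hN
  have hN0 : (0 : ℝ) < N := by linarith
  have hs0 : 0 < s := by linarith
  have hAN : Nat.sqrt N ≤ N := Nat.sqrt_le_self N
  have hA1 : 1 ≤ Nat.sqrt N := Nat.sqrt_pos.mpr (by omega)
  have hlt : N < (Nat.sqrt N + 1) * (Nat.sqrt N + 1) := Nat.lt_succ_sqrt N
  have hhy := h3 f g s N (Nat.sqrt N) (Nat.sqrt N) hlt
  have hSle := SgMu_sqrt_le N
  have hp1 := SgMu_A1 N s hN hs
  have hp2 := SgMu_A2 N s hs hs1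
  set A := Nat.sqrt N with hAdef
  have hE1 := SgMu_e1 h1 (f := f) (g := g) (R := R) (s := s) (N := N) (A := A) hf hgR hR hs0 hN hAN
  have hE2 := SgMu_e2 h1 (f := f) (g := g) (Q := Q) (s := s) (A := A) (fun b => N / b) hg hfQ hQ hs0
  have hE3 := (h1 f Q s hfQ hs0).1 A
  have hgl := SgMu_l h1 hgR hs0
  have hA1' : (1 : ℝ) ≤ A := by exact_mod_cast hA1
  have hha := (h2 s A hs1 hA1).1
  set P : ℝ := (N : ℝ) ^ (1 / 2 - s) with hPdef
  have hP0 : 0 < P := Real.rpow_pos_of_pos hN0 _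
  have hlogN : 0 ≤ Real.log N := Real.log_nonneg hN'
  -- first error
  have hb1 : R * ((A : ℝ) * (N : ℝ) ^ (-s)) ≤ R * P := by
    refine mul_le_mul_of_nonneg_left ?_ (by linarith)
    calc (A : ℝ) * (N : ℝ) ^ (-s) ≤ (N : ℝ) ^ ((1 : ℝ) / 2) * (N : ℝ) ^ (-s) :=
          mul_le_mul_of_nonneg_right hSle (Real.rpow_nonneg hN0.le _)
      _ = P := by
          rw [← Real.rpow_add hN0]
          rfl
  -- third error
  have hb3 : |sgl g s * (sgl f s - sgp f s A)| ≤ R * (Q * P) := by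
    rw [abs_mul]
    apply mul_le_mul hgl _ (abs_nonneg _) (by linarith)
    refine hE3.trans ?_
    refine mul_le_mul_of_nonneg_left ?_ (by linarith)
    refine hp1.trans ?_
    exact Real.rpow_le_rpow_of_exponent_le hN' (by linarith)
  -- second error
  have hb2 : (∑ b ∈ Icc 1 A, (b : ℝ) ^ (-s)) * (Q * ((A : ℝ) + 1) ^ (-s)) ≤
      Q * (P * (1 + Real.log N)) := by
    have hA0 : (0 : ℝ) < A := by linarith
    have hlogA : Real.log A ≤ Real.log N := Real.log_le_log hA0 (by exact_mod_cast hAN)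
    have hlogA0 : 0 ≤ Real.log A := Real.log_nonneg hA1'
    have hx1 : ∑ b ∈ Icc 1 A, (b : ℝ) ^ (-s) ≤ (N : ℝ) ^ ((1 - s) / 2) * (1 + Real.log N) := by
      refine hha.trans ?_
      exact mul_le_mul hp2 (by linarith) (by linarith) (Real.rpow_nonneg hN0.le _)
    have hx2 : Q * ((A : ℝ) + 1) ^ (-s) ≤ Q * (N : ℝ) ^ (-(s / 2)) :=
      mul_le_mul_of_nonneg_left hp1 (by linarith)
    calc (∑ b ∈ Icc 1 A, (b : ℝ) ^ (-s)) * (Q * ((A : ℝ) + 1) ^ (-s))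
        ≤ ((N : ℝ) ^ ((1 - s) / 2) * (1 + Real.log N)) * (Q * (N : ℝ) ^ (-(s / 2))) := by
          apply mul_le_mul hx1 hx2
          · exact mul_nonneg (by linarith) (Real.rpow_nonneg (by linarith) _)
          · exact mul_nonneg (Real.rpow_nonneg hN0.le _) (by linarith)
      _ = Q * (((N : ℝ) ^ ((1 - s) / 2) * (N : ℝ) ^ (-(s / 2))) * (1 + Real.log N)) := by ring
      _ = Q * (P * (1 + Real.log N)) := by
          rw [← Real.rpow_add hN0]
          congr 3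
          ring_nf
  have hkey : sgp (sgc f g) s N - sgl f s * sgl g s =
      (∑ a ∈ Icc 1 A, f a * (a : ℝ) ^ (-s) * sgp g s (N / a) - sgl g s * sgp f s A) +
      ∑ b ∈ Icc 1 A, g b * (b : ℝ) ^ (-s) * ∑ a ∈ Ioc A (N / b), f a * (a : ℝ) ^ (-s) -
      sgl g s * (sgl f s - sgp f s A) := by
    rw [hhy]
    ring
  rw [hkey]
  have ht : ∀ u v w : ℝ, |u + v - w| ≤ |u| + |v| + |w| := by
    intro u v w
    exact (abs_sub _ _).trans (add_le_add_left (abs_add_le u v) _)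
  refine (ht _ _ _).trans ?_
  have hfin : R * P + Q * (P * (1 + Real.log N)) + R * (Q * P) ≤
      4 * Q * R * P * (1 + Real.log N) := by
    have hQR : 1 ≤ Q * R := by nlinarith
    have h11 : R * P ≤ Q * R * P * (1 + Real.log N) := by
      have : R ≤ Q * R := by nlinarith
      have h12 : R * P ≤ Q * R * P := mul_le_mul_of_nonneg_right this hP0.le
      have h13 : Q * R * P ≤ Q * R * P * (1 + Real.log N) :=
        le_mul_of_one_le_right (by positivity) (by linarith)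
      linarith
    have h14 : Q * (P * (1 + Real.log N)) ≤ Q * R * P * (1 + Real.log N) := by
      have h15 : Q ≤ Q * R := by nlinarith
      have h16 : Q * (P * (1 + Real.log N)) ≤ Q * R * (P * (1 + Real.log N)) :=
        mul_le_mul_of_nonneg_right h15 (by positivity)
      linarith
    have h17 : R * (Q * P) ≤ Q * R * P * (1 + Real.log N) := by
      have h18 : Q * R * P ≤ Q * R * P * (1 + Real.log N) :=
        le_mul_of_one_le_right (by positivity) (by linarith)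
      linarith
    have h19 : 0 ≤ Q * R * P * (1 + Real.log N) := by positivity
    linarith
  linarith

end Pool.Agent.Lib.BV
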