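import Pool.Agent.Lib.BV.SpecS

/-!
MP_00e23e_nt, Lib/BV, module SgNa: positivity of the convolution 1 * f for completely multiplicative
f with values in {-1, 0, 1}.
-/

namespace Pool.Agent.Lib.BV

open Finset

private lemma SgNa_pow {f : ℕ → ℝ} (hf : SgCM f) (p i : ℕ) : f (p ^ i) = f p ^ i := by
  induction i with
  | zero => simpa using hf.one
  | succ i ih => rw [pow_succ, hf.mul, ih, pow_succ]

private lemma SgNa_eq (f : ℕ → ℝ) (n : ℕ) : sgc f (fun _ => 1) n = ∑ d ∈ n.divisors, f d := by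
  unfold sgc
  rw [Nat.sum_divisorsAntidiagonal (f := fun a _ => f a * (1 : ℝ))]
  simp

private lemma SgNa_pp {f : ℕ → ℝ} (hf : SgCM f) {p : ℕ} (hp : p.Prime) (k : ℕ) :
    sgc f (fun _ => 1) (p ^ k) = ∑ i ∈ range (k + 1), f p ^ i := by
  rw [SgNa_eq, Nat.sum_divisors_prime_pow hp]
  exact Finset.sum_congr rfl (fun i _ => SgNa_pow hf p i)

private lemma SgNa_neg (k : ℕ) :
    ∑ i ∈ range (k + 1), (-1 : ℝ) ^ i = if Even k then 1 else 0 := by
  rw [neg_one_geom_sum]
  by_cases h : Even k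
  · rw [if_neg (by simpa [Nat.even_add_one] using h), if_pos h]
  · rw [if_pos (by simpa [Nat.even_add_one] using h), if_neg h]

private lemma SgNa_coprime {f : ℕ → ℝ} (hf : SgCM f) {a b : ℕ} (h : Nat.Coprime a b) :
    sgc f (fun _ => 1) (a * b) = sgc f (fun _ => 1) a * sgc f (fun _ => 1) b := by
  obtain ⟨F, hF⟩ : ∃ F : ArithmeticFunction ℝ, ∀ n, F n = f n := ⟨⟨f, hf.zero⟩, fun _ => rfl⟩
  have hM : F.IsMultiplicative :=
    ⟨by rw [hF]; exact hf.one, fun _ => by rw [hF, hF, hF]; exact hf.mul _ _⟩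
  have e : ∀ x : ℕ, (F * (ArithmeticFunction.zeta : ArithmeticFunction ℝ)) x =
      ∑ d ∈ x.divisors, f d := fun x => by
    rw [ArithmeticFunction.coe_mul_zeta_apply]
    exact Finset.sum_congr rfl (fun d _ => hF d)
  rw [SgNa_eq, SgNa_eq, SgNa_eq, ← e, ← e, ← e]
  exact (hM.mul ArithmeticFunction.isMultiplicative_zeta.natCast).2 h

theorem tSgNa : SgNaStmt := by
  intro f hf
  refine ⟨?_, ?_, ?_⟩
  · intro n
    induction n using Nat.recOnPosPrimePosCoprime with
    | prime_pow p n hp hn =>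
      rw [SgNa_pp hf hp]
      rcases hf.val p with h | h | h
      · rw [h]
        exact Finset.sum_nonneg (fun i _ => pow_nonneg le_rfl i)
      · rw [h]
        exact Finset.sum_nonneg (fun i _ => pow_nonneg zero_le_one i)
      · rw [h, SgNa_neg]
        split_ifs <;> norm_num
    | zero => rw [SgNa_eq]; simp
    | one => rw [SgNa_eq]; simp [hf.one]
    | coprime a b ha hb hab iha ihb =>
      rw [SgNa_coprime hf hab]
      exact mul_nonneg iha ihb
  · rw [SgNa_eq]; simp [hf.one]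
  · intro p i hp h
    rw [SgNa_pp hf hp, h, SgNa_neg]

end Pool.Agent.Lib.BV
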