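import Pool.Agent.Lib.BV.SpecS

/-!
MP_00e23e_nt, Lib/BV, module SgNb: positivity of the fourfold convolution 1 * f * g * f g.
-/

namespace Pool.Agent.Lib.BV

open Finset

private lemma SgNb_pow {f : ℕ → ℝ} (hf : SgCM f) (p i : ℕ) : f (p ^ i) = f p ^ i := by
  induction i with
  | zero => simpa using hf.one
  | succ i ih => rw [pow_succ, hf.mul, ih, pow_succ]

private lemma SgNb_af {f : ℕ → ℝ} (hf : SgCM f) :
    ∃ F : ArithmeticFunction ℝ, (∀ n, F n = f n) ∧ F.IsMultiplicative :=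
  ⟨⟨f, hf.zero⟩, fun _ => rfl, hf.one, fun _ => hf.mul _ _⟩

private lemma SgNb_mul {f g : ℕ → ℝ} (hf : SgCM f) (hg : SgCM g) : SgCM (fun n => f n * g n) where
  zero := by simp [hf.zero]
  one := by simp [hf.one, hg.one]
  mul m n := by simp only [hf.mul, hg.mul]; ring
  val n := by
    rcases hf.val n with h | h | h <;> rcases hg.val n with k | k | k <;> simp [h, k]

/-- Dirichlet products of arithmetic functions; the second factor may differ at 0 -/
private lemma SgNb_sgc {a b : ℕ → ℝ} {A B : ArithmeticFunction ℝ} (hA : ∀ n, A n = a n)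
    (hB : ∀ n, n ≠ 0 → B n = b n) (n : ℕ) : (A * B) n = sgc a b n := by
  rw [ArithmeticFunction.mul_apply]
  unfold sgc
  refine Finset.sum_congr rfl (fun w hw => ?_)
  rw [Nat.mem_divisorsAntidiagonal] at hw
  have h2 : w.2 ≠ 0 := fun h => hw.2 (by rw [← hw.1, h, mul_zero])
  rw [hA, hB _ h2]

/-- f is completely multiplicative: f * (f g) = f (1 * g) -/
private lemma SgNb_pull {f g : ℕ → ℝ} (hf : SgCM f) (n : ℕ) :
    sgc f (fun m => f m * g m) n = f n * sgc g (fun _ => 1) n := by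
  have h1 : sgc g (fun _ => 1) n = ∑ d ∈ n.divisors, g d := by
    unfold sgc
    rw [Nat.sum_divisorsAntidiagonal (f := fun a _ => g a * (1 : ℝ))]
    simp
  rw [h1]
  unfold sgc
  rw [Finset.mul_sum]
  rw [← Nat.sum_divisorsAntidiagonal' (f := fun _ b => f n * g b)]
  refine Finset.sum_congr rfl (fun w hw => ?_)
  rw [Nat.mem_divisorsAntidiagonal] at hw
  rw [← hw.1, hf.mul]
  ring

/-- nonnegativity at prime powers under a sign condition on f r at powers of p -/
private lemma SgNb_pp {f g : ℕ → ℝ} (hf : SgCM f) {p : ℕ} (hp : p.Prime)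
    (hr : ∀ n, 0 ≤ sgc g (fun _ => 1) n)
    (hc : ∀ i, 0 ≤ f (p ^ i) * sgc g (fun _ => 1) (p ^ i)) (k : ℕ) :
    0 ≤ sgc (sgc f (fun n => f n * g n)) (sgc g (fun _ => 1)) (p ^ k) := by
  rw [sgc]
  refine Finset.sum_nonneg (fun w hw => ?_)
  rw [Nat.mem_divisorsAntidiagonal] at hw
  have hd : w.1 ∣ p ^ k := ⟨w.2, hw.1.symm⟩
  obtain ⟨i, _, hi⟩ := (Nat.dvd_prime_pow hp).1 hd
  rw [SgNb_pull hf, hi]
  exact mul_nonneg (hc i) (hr _)

theorem tSgNb (h1 : SgNaStmt) : SgNbStmt := by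
  intro f g hf hg
  obtain ⟨F, hF, hFm⟩ := SgNb_af hf
  obtain ⟨G, hG, hGm⟩ := SgNb_af hg
  obtain ⟨H, hH, hHm⟩ := SgNb_af (SgNb_mul hf hg)
  obtain ⟨Z, hZ, hZm⟩ : ∃ Z : ArithmeticFunction ℝ, (∀ n, n ≠ 0 → Z n = 1) ∧
      Z.IsMultiplicative :=
    ⟨(ArithmeticFunction.zeta : ArithmeticFunction ℝ), fun n hn => by simp [hn],
      ArithmeticFunction.isMultiplicative_zeta.natCast⟩
  have hFH : ∀ n, (F * H) n = sgc f (fun n => f n * g n) n := fun n =>
    SgNb_sgc hF (fun m _ => hH m) n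
  have hGZ : ∀ n, (G * Z) n = sgc g (fun _ => 1) n := fun n => SgNb_sgc hG hZ n
  have hFZ : ∀ n, (F * Z) n = sgc f (fun _ => 1) n := fun n => SgNb_sgc hF hZ n
  have hH' : ∀ n, H n = g n * f n := fun n => by rw [hH]; ring
  have hGH : ∀ n, (G * H) n = sgc g (fun n => g n * f n) n := fun n =>
    SgNb_sgc hG (fun m _ => hH' m) n
  have hlam : ∀ n, ((F * H) * (G * Z)) n =
      sgc (sgc f (fun n => f n * g n)) (sgc g (fun _ => 1)) n := fun n =>
    SgNb_sgc hFH (fun m _ => hGZ m) n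
  have hlam' : ∀ n, ((F * H) * (G * Z)) n =
      sgc (sgc g (fun n => g n * f n)) (sgc f (fun _ => 1)) n := fun n => by
    rw [show (F * H) * (G * Z) = (G * H) * (F * Z) by ring]
    exact SgNb_sgc hGH (fun m _ => hFZ m) n
  have hm : ((F * H) * (G * Z)).IsMultiplicative := (hFm.mul hHm).mul (hGm.mul hZm)
  obtain ⟨rf0, rf1, rf2⟩ := h1 f hf
  obtain ⟨rg0, rg1, rg2⟩ := h1 g hg
  refine ⟨fun n => ?_, by rw [← hlam]; exact hm.1⟩
  induction n using Nat.recOnPosPrimePosCoprime with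
  | prime_pow p k hp hk =>
    have key : 0 ≤ f p ∨ 0 ≤ g p ∨ (f p = -1 ∧ g p = -1) := by
      rcases hf.val p with h | h | h
      · left; rw [h]
      · left; rw [h]; norm_num
      · rcases hg.val p with k | k | k
        · right; left; rw [k]
        · right; left; rw [k]; norm_num
        · exact Or.inr (Or.inr ⟨h, k⟩)
    rcases key with h | h | ⟨h, h'⟩
    · refine SgNb_pp hf hp rg0 (fun i => mul_nonneg ?_ (rg0 _)) k
      rw [SgNb_pow hf]
      exact pow_nonneg h i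
    · rw [← hlam, hlam']
      refine SgNb_pp hg hp rf0 (fun i => mul_nonneg ?_ (rf0 _)) k
      rw [SgNb_pow hg]
      exact pow_nonneg h i
    · refine SgNb_pp hf hp rg0 (fun i => ?_) k
      rw [rg2 p i hp h', SgNb_pow hf, h]
      split_ifs with he
      · rw [he.neg_one_pow]; norm_num
      · simp
  | zero => rw [← hlam]; simp
  | one => rw [← hlam, hm.1]; exact zero_le_one
  | coprime a b ha hb hab iha ihb =>
    rw [← hlam, hm.2 hab, hlam, hlam]
    exact mul_nonneg iha ihb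

end Pool.Agent.Lib.BV
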