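import Pool.Agent.Lib.BV.SpecS

/-!
MP_00e23e_nt, BV, module SgOn: the convolution 1 * f.
-/

namespace Pool.Agent.Lib.BV

open Finset

/-- tangent lines of the concave function x^(1-β) -/
lemma SgOn_tan {β u v : ℝ} (h0 : 0 < β) (h1 : β < 1) (hu : 0 < u) (hv : 0 < v) :
    v ^ (1 - β) ≤ u ^ (1 - β) + (1 - β) * (v - u) * u ^ (-β) := by
  have h2 := rpow_one_add_le_one_add_mul_self (s := v / u - 1) (p := 1 - β)
    (by
      have : 0 < v / u := by positivity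
      linarith) (by linarith) (by linarith)
  have h3 : 1 + (v / u - 1) = v / u := by ring
  rw [h3, Real.div_rpow hv.le hu.le] at h2
  have h4 : 0 < u ^ (1 - β) := Real.rpow_pos_of_pos hu _
  rw [div_le_iff₀ h4] at h2
  have h5 : u ^ (1 - β) = u * u ^ (-β) := by
    have h6 : (1 - β) = 1 + (-β) := by ring
    rw [h6, Real.rpow_add hu, Real.rpow_one]
  have h6 : (1 + (1 - β) * (v / u - 1)) * u ^ (1 - β) =
      u ^ (1 - β) + (1 - β) * (v - u) * u ^ (-β) := by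
    rw [h5]
    field_simp
  linarith

/-- bounds for the square root -/
lemma SgOn_sqrt (M : ℕ) (hM : 1 ≤ M) : 1 ≤ Nat.sqrt M ∧ M < (Nat.sqrt M + 1) * (Nat.sqrt M + 1) ∧
    ((Nat.sqrt M : ℕ) : ℝ) ≤ (M : ℝ) ^ ((1 : ℝ) / 2) ∧
    (M : ℝ) ^ ((1 : ℝ) / 2) ≤ ((Nat.sqrt M : ℕ) : ℝ) + 1 := by
  refine ⟨Nat.sqrt_pos.2 hM, Nat.lt_succ_sqrt M, ?_, ?_⟩
  · rw [← Real.sqrt_eq_rpow]
    exact Real.nat_sqrt_le_real_sqrt
  · rw [← Real.sqrt_eq_rpow]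
    exact Real.real_sqrt_le_nat_sqrt_succ

/-- negative powers of A + 1 -/
lemma SgOn_neg {M s : ℝ} {A : ℕ} (hM : 1 ≤ M) (hs : 0 ≤ s)
    (h : M ^ ((1 : ℝ) / 2) ≤ (A : ℝ) + 1) : ((A : ℝ) + 1) ^ (-s) ≤ M ^ (-(s / 2)) := by
  have h1 : 0 < M ^ ((1 : ℝ) / 2) := Real.rpow_pos_of_pos (by linarith) _
  have h2 := Real.rpow_le_rpow_of_nonpos h1 h (by linarith : -s ≤ 0)
  rw [← Real.rpow_mul (by linarith)] at h2
  have h3 : (1 : ℝ) / 2 * -s = -(s / 2) := by ring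
  rwa [h3] at h2

lemma SgOn_main (h1 : SgElStmt) (h3 : SgHyStmt) {β z : ℝ} (hb1 : 1 / 2 < β) (hb2 : β < 1)
    (hz0 : z ≤ 0) (hz1 : -(1 / (1 - β)) ≤ z)
    (hz2 : ∀ a N : ℕ, 1 ≤ a → a ≤ N →
      |∑ n ∈ Icc 1 (N / a), (n : ℝ) ^ (-β) - ((N : ℝ) / (a : ℝ)) ^ (1 - β) / (1 - β) - z| ≤
        4 * ((N : ℝ) / (a : ℝ)) ^ (-β))
    (hz3 : ∀ N : ℕ, ∑ n ∈ Icc 1 N, (n : ℝ) ^ (-β) ≤ (N : ℝ) ^ (1 - β) / (1 - β))
    (f : ℕ → ℝ) (Q : ℝ) (hf : ∀ n, |f n| ≤ 1) (hQ : SgPB f Q) (hQ1 : 1 ≤ Q) (M : ℕ) (hM : 1 ≤ M) :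
    |sgp (sgc f (fun _ => 1)) β M - sgl f 1 * ((M : ℝ) ^ (1 - β) / (1 - β)) - z * sgl f β| ≤
      7 * (Q * (M : ℝ) ^ (1 / 2 - β) / (1 - β)) := by
  have hb : 0 < 1 - β := by linarith
  have hMR : (1 : ℝ) ≤ M := by exact_mod_cast hM
  have hM0 : (0 : ℝ) < M := by linarith
  obtain ⟨a1, a2, a3, a4⟩ := SgOn_sqrt M hM
  have hy := h3 f (fun _ => 1) β M (Nat.sqrt M) (Nat.sqrt M) a2
  have hAM : Nat.sqrt M ≤ M := Nat.sqrt_le_self M
  generalize Nat.sqrt M = A at a1 a2 a3 a4 hy hAM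
  rw [hy]
  set X : ℝ := (M : ℝ) ^ (1 / 2 - β) with hX
  have hX0 : 0 < X := Real.rpow_pos_of_pos hM0 _
  have hMb : 0 < (M : ℝ) ^ (1 - β) := Real.rpow_pos_of_pos hM0 _
  -- first part
  have e1 : |∑ c ∈ Icc 1 A, f c * (c : ℝ) ^ (-β) * sgp (fun _ => 1) β (M / c) -
      ((M : ℝ) ^ (1 - β) / (1 - β) * sgp f 1 A + z * sgp f β A)| ≤ 4 * X := by
    have e2 : ((M : ℝ) ^ (1 - β) / (1 - β) * sgp f 1 A + z * sgp f β A) =
        ∑ c ∈ Icc 1 A, f c * (c : ℝ) ^ (-β) * (((M : ℝ) / c) ^ (1 - β) / (1 - β) + z) := by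
      unfold sgp
      rw [Finset.mul_sum, Finset.mul_sum, ← Finset.sum_add_distrib]
      refine Finset.sum_congr rfl fun c hc => ?_
      have hc0 : (0 : ℝ) < c := by exact_mod_cast (mem_Icc.1 hc).1
      have e3 : (c : ℝ) ^ (-(1 : ℝ)) = (c : ℝ) ^ (-β) / (c : ℝ) ^ (1 - β) := by
        rw [← Real.rpow_sub hc0]
        congr 1
        ring
      rw [e3, Real.div_rpow hM0.le hc0.le]
      ring
    rw [e2, ← Finset.sum_sub_distrib]
    have e4 : ∀ c ∈ Icc 1 A, |f c * (c : ℝ) ^ (-β) * sgp (fun _ => 1) β (M / c) -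
        f c * (c : ℝ) ^ (-β) * (((M : ℝ) / c) ^ (1 - β) / (1 - β) + z)| ≤
        4 * (M : ℝ) ^ (-β) := by
      intro c hc
      obtain ⟨hc1, hc2⟩ := mem_Icc.1 hc
      have hc0 : (0 : ℝ) < c := by exact_mod_cast hc1
      have e5 := hz2 c M hc1 (hc2.trans hAM)
      have e6 : sgp (fun _ => 1) β (M / c) = ∑ n ∈ Icc 1 (M / c), (n : ℝ) ^ (-β) := by
        unfold sgp
        exact Finset.sum_congr rfl fun n _ => one_mul _
      rw [e6, ← mul_sub, abs_mul, abs_mul, ← sub_sub]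
      have e7 : 0 < (c : ℝ) ^ (-β) := Real.rpow_pos_of_pos hc0 _
      rw [abs_of_pos e7]
      have e8 : |f c| * (c : ℝ) ^ (-β) ≤ (c : ℝ) ^ (-β) := by
        have := hf c
        nlinarith
      refine (mul_le_mul e8 e5 (abs_nonneg _) e7.le).trans (le_of_eq ?_)
      rw [Real.div_rpow hM0.le hc0.le]
      field_simp
    refine (Finset.abs_sum_le_sum_abs _ _).trans ((Finset.sum_le_sum e4).trans ?_)
    rw [Finset.sum_const, Nat.card_Icc, Nat.add_sub_cancel, nsmul_eq_mul]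
    have e9 : X = (M : ℝ) ^ ((1 : ℝ) / 2) * (M : ℝ) ^ (-β) := by
      rw [hX, ← Real.rpow_add hM0]
      congr 1
    rw [e9]
    have e10 : 0 < (M : ℝ) ^ (-β) := Real.rpow_pos_of_pos hM0 _
    nlinarith
  -- the limits
  have l1 := (h1 f Q 1 hQ one_pos).1 A
  have l2 := (h1 f Q β hQ (by linarith)).1 A
  have l3 := (h1 f Q β hQ (by linarith)).2.1 A
  have l4 : (M : ℝ) ^ (1 - β) / (1 - β) * |sgl f 1 - sgp f 1 A| ≤ Q * X / (1 - β) := by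
    have e1 : ((A : ℝ) + 1) ^ (-(1 : ℝ)) ≤ (M : ℝ) ^ (-((1 : ℝ) / 2)) :=
      SgOn_neg hMR zero_le_one a4
    have e2 : (M : ℝ) ^ (1 - β) * (M : ℝ) ^ (-((1 : ℝ) / 2)) = X := by
      rw [hX, ← Real.rpow_add hM0]
      congr 1
      ring
    have e3 : |sgl f 1 - sgp f 1 A| ≤ Q * (M : ℝ) ^ (-((1 : ℝ) / 2)) :=
      l1.trans (mul_le_mul_of_nonneg_left e1 (by linarith))
    have e4 : Q * X / (1 - β) = (M : ℝ) ^ (1 - β) / (1 - β) * (Q * (M : ℝ) ^ (-((1 : ℝ) / 2))) := by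
      rw [← e2]
      ring
    rw [e4]
    exact mul_le_mul_of_nonneg_left e3 (by positivity)
  have hAb : ((A : ℝ) + 1) ^ (-β) ≤ (M : ℝ) ^ (-(β / 2)) := SgOn_neg hMR (by linarith) a4
  have hAX : (M : ℝ) ^ (-(β / 2)) ≤ X := by
    rw [hX]
    exact Real.rpow_le_rpow_of_exponent_le hMR (by linarith)
  have l5 : |z * (sgl f β - sgp f β A)| ≤ Q * X / (1 - β) := by
    rw [abs_mul, abs_of_nonpos hz0]
    have e1 : |sgl f β - sgp f β A| ≤ Q * X :=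
      l2.trans (mul_le_mul_of_nonneg_left (hAb.trans hAX) (by linarith))
    have e2 : -z ≤ 1 / (1 - β) := by linarith
    refine (mul_le_mul e2 e1 (abs_nonneg _) (by positivity)).trans (le_of_eq ?_)
    ring
  -- second part
  have l6 : |∑ b ∈ Icc 1 A, (fun _ : ℕ => (1 : ℝ)) b * (b : ℝ) ^ (-β) *
      ∑ a ∈ Ioc A (M / b), f a * (a : ℝ) ^ (-β)| ≤ Q * X / (1 - β) := by
    have e1 : ∀ b ∈ Icc 1 A, |(fun _ : ℕ => (1 : ℝ)) b * (b : ℝ) ^ (-β) *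
        ∑ a ∈ Ioc A (M / b), f a * (a : ℝ) ^ (-β)| ≤ (b : ℝ) ^ (-β) * (Q * (M : ℝ) ^ (-(β / 2))) := by
      intro b _
      have e2 : 0 ≤ (b : ℝ) ^ (-β) := Real.rpow_nonneg (Nat.cast_nonneg _) _
      show |1 * (b : ℝ) ^ (-β) * ∑ a ∈ Ioc A (M / b), f a * (a : ℝ) ^ (-β)| ≤ _
      rw [one_mul, abs_mul, abs_of_nonneg e2]
      refine mul_le_mul_of_nonneg_left ?_ e2
      exact (l3 (M / b)).trans (mul_le_mul_of_nonneg_left hAb (by linarith))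
    refine (Finset.abs_sum_le_sum_abs _ _).trans ((Finset.sum_le_sum e1).trans ?_)
    rw [← Finset.sum_mul]
    have e3 : (A : ℝ) ^ (1 - β) ≤ (M : ℝ) ^ ((1 - β) / 2) := by
      have e4 := Real.rpow_le_rpow (Nat.cast_nonneg A) a3 hb.le
      rw [← Real.rpow_mul hM0.le] at e4
      have e5 : (1 : ℝ) / 2 * (1 - β) = (1 - β) / 2 := by ring
      rwa [e5] at e4
    have e6 : (M : ℝ) ^ ((1 - β) / 2) * (M : ℝ) ^ (-(β / 2)) = X := by
      rw [hX, ← Real.rpow_add hM0]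
      congr 1
      ring
    have e7 : 0 < (M : ℝ) ^ (-(β / 2)) := Real.rpow_pos_of_pos hM0 _
    have e8 : ∑ i ∈ Icc 1 A, (i : ℝ) ^ (-β) ≤ (M : ℝ) ^ ((1 - β) / 2) / (1 - β) :=
      (hz3 A).trans (div_le_div_of_nonneg_right e3 hb.le)
    refine (mul_le_mul_of_nonneg_right e8 (by positivity)).trans (le_of_eq ?_)
    rw [← e6]
    ring
  have l7 : X ≤ Q * X / (1 - β) := by
    rw [le_div_iff₀ hb]
    have e1 : 0 < β := by linarith
    nlinarith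
  -- combine
  have t1 : (M : ℝ) ^ (1 - β) / (1 - β) * |sgl f 1 - sgp f 1 A| =
      |(M : ℝ) ^ (1 - β) / (1 - β) * (sgl f 1 - sgp f 1 A)| := by
    rw [abs_mul, abs_of_pos (by positivity : 0 < (M : ℝ) ^ (1 - β) / (1 - β))]
  rw [t1] at l4
  have t2 : Q * (M : ℝ) ^ (1 / 2 - β) / (1 - β) = Q * X / (1 - β) := rfl
  rw [t2]
  generalize Q * X / (1 - β) = T at l4 l5 l6 l7 ⊢
  generalize ∑ c ∈ Icc 1 A, f c * (c : ℝ) ^ (-β) * sgp (fun _ => 1) β (M / c) = S1 at e1 ⊢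
  generalize ∑ b ∈ Icc 1 A, (fun _ : ℕ => (1 : ℝ)) b * (b : ℝ) ^ (-β) *
      ∑ a ∈ Ioc A (M / b), f a * (a : ℝ) ^ (-β) = S2 at l6 ⊢
  rw [abs_le] at e1 l4 l5 l6 ⊢
  have t3 : sgl f 1 * ((M : ℝ) ^ (1 - β) / (1 - β)) = (M : ℝ) ^ (1 - β) / (1 - β) * sgl f 1 :=
    mul_comm _ _
  rw [t3]
  rw [mul_sub] at l4 l5
  constructor <;> linarith [e1.1, e1.2, l4.1, l4.2, l5.1, l5.2, l6.1, l6.2]

theorem tSgOn (h1 : SgElStmt) (h2 : SgZStmt) (h3 : SgHyStmt) : SgOnStmt := by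
  intro β hb1 hb2
  obtain ⟨z, hz0, hz1, hz2, hz3⟩ := h2 β (by linarith) hb2
  refine ⟨z, hz0, fun f Q hf hQ hQ1 a N ha haN => ?_⟩
  have hb : 0 < 1 - β := by linarith
  have haR : (0 : ℝ) < a := by exact_mod_cast ha
  have hM1 : 1 ≤ N / a := (Nat.one_le_div_iff (by omega)).2 haN
  have hMy : ((N / a : ℕ) : ℝ) ≤ (N : ℝ) / a := Nat.cast_div_le
  have hyM : (N : ℝ) / a < ((N / a : ℕ) : ℝ) + 1 := by
    rw [div_lt_iff₀ haR]
    have h2 : N < (N / a + 1) * a := by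
      have h3 := Nat.div_add_mod N a
      have h4 := Nat.mod_lt N (show 0 < a by omega)
      nlinarith
    exact_mod_cast h2
  have hm := SgOn_main h1 h3 hb1 hb2 hz0 hz1 hz2 hz3 f Q hf hQ hQ1 (N / a) hM1
  have hMR : (1 : ℝ) ≤ ((N / a : ℕ) : ℝ) := by exact_mod_cast hM1
  have hL : |sgl f 1| ≤ Q := by
    have e1 := (h1 f Q 1 hQ one_pos).1 0
    have e2 : sgp f 1 0 = 0 := by
      unfold sgp
      simp
    rw [e2, sub_zero, Nat.cast_zero, zero_add, Real.one_rpow, mul_one] at e1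
    exact e1
  generalize sgp (sgc f fun _ => 1) β (N / a) = S at *
  generalize ((N / a : ℕ) : ℝ) = M at *
  generalize (N : ℝ) / (a : ℝ) = y at *
  have hM0 : 0 < M := by linarith
  have hy0 : 0 < y := by linarith
  have h4 := SgOn_tan (by linarith) hb2 hM0 hy0
  have h5 : M ^ (1 - β) ≤ y ^ (1 - β) := Real.rpow_le_rpow hM0.le hMy hb.le
  have h6 : 0 < M ^ (-β) := Real.rpow_pos_of_pos hM0 _
  have hX0 : 0 < y ^ (1 / 2 - β) := Real.rpow_pos_of_pos hy0 _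
  have h7 : (y ^ (1 - β) - M ^ (1 - β)) / (1 - β) ≤ M ^ (-β) := by
    rw [div_le_iff₀ hb]
    have h8 : (1 - β) * (y - M) * M ^ (-β) ≤ (1 - β) * 1 * M ^ (-β) := by
      refine mul_le_mul_of_nonneg_right ?_ h6.le
      exact mul_le_mul_of_nonneg_left (by linarith) hb.le
    linarith
  have h8 : 0 ≤ (y ^ (1 - β) - M ^ (1 - β)) / (1 - β) := div_nonneg (by linarith) hb.le
  have h9 : M ^ (1 / 2 - β) ≤ 2 * y ^ (1 / 2 - β) := by
    have h10 : M ^ (1 / 2 - β) ≤ (y / 2) ^ (1 / 2 - β) :=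
      Real.rpow_le_rpow_of_nonpos (by linarith) (by linarith) (by linarith)
    have h11 : (y / 2) ^ (1 / 2 - β) = y ^ (1 / 2 - β) * 2 ^ (β - 1 / 2) := by
      have h14 : (1 / 2 - β) = -(β - 1 / 2) := by ring
      rw [Real.div_rpow hy0.le (by norm_num)]
      nth_rewrite 2 [h14]
      rw [Real.rpow_neg (by norm_num : (0 : ℝ) ≤ 2), div_inv_eq_mul]
    have h12 : (2 : ℝ) ^ (β - 1 / 2) ≤ 2 := by
      have h13 := Real.rpow_le_rpow_of_exponent_le (by norm_num : (1 : ℝ) ≤ 2)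
        (show β - 1 / 2 ≤ 1 by linarith)
      rw [Real.rpow_one] at h13
      exact h13
    rw [h11] at h10
    nlinarith
  have h10 : M ^ (-β) ≤ M ^ (1 / 2 - β) :=
    Real.rpow_le_rpow_of_exponent_le hMR (by linarith)
  have h12 : |sgl f 1 * ((y ^ (1 - β) - M ^ (1 - β)) / (1 - β))| ≤
      Q * (2 * y ^ (1 / 2 - β)) := by
    rw [abs_mul, abs_of_nonneg h8]
    exact mul_le_mul hL (h7.trans (h10.trans h9)) h8 (by linarith)
  have h13 : Q * (2 * y ^ (1 / 2 - β)) ≤ 2 * (Q * y ^ (1 / 2 - β) / (1 - β)) := by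
    have e1 : Q * y ^ (1 / 2 - β) ≤ Q * y ^ (1 / 2 - β) / (1 - β) := by
      rw [le_div_iff₀ hb]
      have e2 : 0 < Q * y ^ (1 / 2 - β) := by positivity
      nlinarith
    linarith
  have h14 : Q * M ^ (1 / 2 - β) / (1 - β) ≤ 2 * (Q * y ^ (1 / 2 - β) / (1 - β)) := by
    have e1 : 2 * (Q * y ^ (1 / 2 - β) / (1 - β)) = Q * (2 * y ^ (1 / 2 - β)) / (1 - β) := by ring
    rw [e1]
    exact div_le_div_of_nonneg_right (mul_le_mul_of_nonneg_left h9 (by linarith)) hb.le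
  have h15 : 20 / (1 - β) * Q * y ^ (1 / 2 - β) = 20 * (Q * y ^ (1 / 2 - β) / (1 - β)) := by ring
  rw [h15]
  have h16 : 0 < Q * y ^ (1 / 2 - β) / (1 - β) := by positivity
  have h17 : sgl f 1 * ((y ^ (1 - β) - M ^ (1 - β)) / (1 - β)) =
      sgl f 1 * (y ^ (1 - β) / (1 - β)) - sgl f 1 * (M ^ (1 - β) / (1 - β)) := by ring
  rw [h17] at h12
  rw [abs_le] at hm h12 ⊢
  constructor <;> linarith [hm.1, hm.2, h12.1, h12.2]

end Pool.Agent.Lib.BV
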