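import Pool.Agent.Lib.BV.SpecS

/-! Module SgPc: character sums over intervals. -/

namespace Pool.Agent.Lib.BV

open Finset

theorem SgPc_range (q : ℕ) [NeZero q] (f : ZMod q → ℂ) :
    ∑ i ∈ range q, f (i : ZMod q) = ∑ a : ZMod q, f a := by
  refine Finset.sum_bij' (fun i _ => (i : ZMod q)) (fun a _ => a.val) ?_ ?_ ?_ ?_ ?_
  · intro i _; exact Finset.mem_univ _
  · intro a _; exact Finset.mem_range.2 (ZMod.val_lt a)
  · intro i hi
    exact ZMod.val_cast_of_lt (Finset.mem_range.1 hi)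
  · intro a _
    exact ZMod.natCast_zmod_val a
  · intro i _; rfl

theorem SgPc_block (q : ℕ) [NeZero q] (χ : DirichletCharacter ℂ q) (hχ : χ ≠ 1) (M : ℕ) :
    ∑ n ∈ Ioc M (M + q), χ (n : ZMod q) = 0 := by
  have h1 : Ioc M (M + q) = Ico (0 + (M + 1)) (q + (M + 1)) := by
    ext n
    rw [Finset.mem_Ioc, Finset.mem_Ico]
    omega
  rw [h1, ← Finset.sum_Ico_add' (fun n => χ ((n : ℕ) : ZMod q)) 0 q (M + 1), ← Finset.range_eq_Ico]
  have h2 : ∀ i : ℕ, χ ((i + (M + 1) : ℕ) : ZMod q)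
      = (fun a : ZMod q => χ (a + ((M + 1 : ℕ) : ZMod q))) (i : ZMod q) := by
    intro i
    rw [Nat.cast_add]
  rw [Finset.sum_congr rfl (fun i _ => h2 i), SgPc_range q (fun a : ZMod q => χ (a + ((M + 1 : ℕ) : ZMod q)))]
  have h3 := Equiv.sum_comp (Equiv.addRight ((M + 1 : ℕ) : ZMod q)) (fun a : ZMod q => χ a)
  have h4 : ∑ a : ZMod q, χ (a + ((M + 1 : ℕ) : ZMod q)) = ∑ a : ZMod q, χ a := h3
  rw [h4]
  exact MulChar.sum_eq_zero_of_ne_one hχ

theorem SgPc_norm (q : ℕ) [NeZero q] (χ : DirichletCharacter ℂ q) (hχ : χ ≠ 1) :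
    ∀ L M : ℕ, ‖∑ n ∈ Ioc M (M + L), χ (n : ZMod q)‖ ≤ q := by
  intro L
  induction L using Nat.strong_induction_on with
  | _ L ih =>
    intro M
    by_cases h : L < q
    · refine le_trans (norm_sum_le _ _) ?_
      have h1 : ∑ n ∈ Ioc M (M + L), ‖χ (n : ZMod q)‖ ≤ ∑ _n ∈ Ioc M (M + L), (1 : ℝ) :=
        Finset.sum_le_sum (fun n _ => DirichletCharacter.norm_le_one χ _)
      refine le_trans h1 ?_
      rw [Finset.sum_const, nsmul_eq_mul, mul_one, Nat.card_Ioc]
      have : M + L - M = L := by omega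
      rw [this]
      exact_mod_cast h.le
    · have h1 : Ioc M (M + L) = Ioc M ((M + q) + (L - q)) := by
        rw [show M + q + (L - q) = M + L by omega]
      rw [h1, ← Finset.sum_Ioc_consecutive _ (show M ≤ M + q by omega)
        (show M + q ≤ M + q + (L - q) by omega), SgPc_block q χ hχ M, zero_add]
      have hq : 0 < q := Nat.pos_of_ne_zero (NeZero.ne q)
      exact ih (L - q) (by omega) (M + q)

theorem tSgPc : SgPcStmt := by
  intro q χ M N hq hχ
  haveI : NeZero q := ⟨by omega⟩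
  by_cases h : N ≤ M
  · rw [Finset.Ioc_eq_empty (by omega), Finset.sum_empty, norm_zero]
    exact Nat.cast_nonneg _
  · have h1 := SgPc_norm q χ hχ (N - M) M
    rwa [show M + (N - M) = N by omega] at h1

end Pool.Agent.Lib.BV
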