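import Pool.Agent.Lib.BV.SpecS

/-! Module SgPd: the product of two real primitive characters. -/

namespace Pool.Agent.Lib.BV

open Finset

theorem SgPd_change (q m : ℕ) (hqm : q ∣ m) (χ : DirichletCharacter ℂ q) (n : ℕ)
    (hn : n.Coprime m) : DirichletCharacter.changeLevel hqm χ (n : ZMod m) = χ (n : ZMod q) := by
  have h := DirichletCharacter.changeLevel_eq_cast_of_dvd' χ hqm (a := (n : ℤ))
    (Nat.isCoprime_iff_coprime.2 hn)
  rw [Int.cast_natCast, Int.cast_natCast] at h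
  exact h

theorem SgPd_zero (q n : ℕ) (χ : DirichletCharacter ℂ q) (hn : ¬ n.Coprime q) :
    χ (n : ZMod q) = 0 := by
  apply χ.map_nonunit
  rw [ZMod.isUnit_iff_coprime]
  exact hn

theorem SgPd_ne_one (q : ℕ) (χ : DirichletCharacter ℂ q) (hq : 1 < q) (hp : χ.IsPrimitive) :
    χ ≠ 1 := by
  intro h
  haveI : NeZero q := ⟨by omega⟩
  rw [h, DirichletCharacter.isPrimitive_def, DirichletCharacter.conductor_one] at hp
  omega

theorem SgPd_theta (q r : ℕ) (χ : DirichletCharacter ℂ q)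
    (ψ : DirichletCharacter ℂ r) (n : ℕ) :
    (DirichletCharacter.changeLevel (Nat.dvd_mul_right q r) χ *
      DirichletCharacter.changeLevel (Nat.dvd_mul_left r q) ψ) (n : ZMod (q * r))
      = χ (n : ZMod q) * ψ (n : ZMod r) := by
  by_cases h : n.Coprime (q * r)
  · rw [MulChar.mul_apply, SgPd_change q (q * r) _ χ n h, SgPd_change r (q * r) _ ψ n h]
  · rw [SgPd_zero (q * r) n _ h]
    rw [Nat.coprime_mul_iff_right, not_and_or] at h
    rcases h with h | h
    · rw [SgPd_zero q n χ h, zero_mul]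
    · rw [SgPd_zero r n ψ h, mul_zero]

theorem SgPd_key (q r : ℕ) (hq : 1 < q) (hr : 1 < r) (χ : DirichletCharacter ℂ q)
    (ψ : DirichletCharacter ℂ r) (hχ : χ.IsPrimitive) (hψ : ψ.IsPrimitive) (hψ2 : ψ ^ 2 = 1)
    (hne : (fun n : ℕ => (χ (n : ZMod q)).re) ≠ (fun n : ℕ => (ψ (n : ZMod r)).re)) :
    DirichletCharacter.changeLevel (Nat.dvd_mul_right q r) χ *
      DirichletCharacter.changeLevel (Nat.dvd_mul_left r q) ψ ≠ 1 := by
  intro h
  haveI : NeZero (q * r) := ⟨by positivity⟩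
  set c1 := DirichletCharacter.changeLevel (Nat.dvd_mul_right q r) χ with hc1
  set c2 := DirichletCharacter.changeLevel (Nat.dvd_mul_left r q) ψ with hc2
  have h2 : c2 * c2 = 1 := by
    rw [← pow_two, hc2, ← map_pow, hψ2, map_one]
  have h3 : c1 = c2 := by
    have h4 : c1 * c2 * c2 = 1 * c2 := by rw [h]
    rwa [mul_assoc, h2, mul_one, one_mul] at h4
  have h5 : q = r := by
    have e1 : c1.conductor = χ.conductor := DirichletCharacter.conductor_changeLevel χ _
    have e2 : c2.conductor = ψ.conductor := DirichletCharacter.conductor_changeLevel ψ _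
    rw [(DirichletCharacter.isPrimitive_def χ).1 hχ] at e1
    rw [(DirichletCharacter.isPrimitive_def ψ).1 hψ] at e2
    exact e1.symm.trans ((congrArg DirichletCharacter.conductor h3).trans e2)
  subst h5
  have h6 : χ = ψ := DirichletCharacter.changeLevel_injective (Nat.dvd_mul_right q q) h3
  exact hne (by rw [h6])

theorem tSgPd (h1 : SgPcStmt) (h2 : SgChStmt) : SgPdStmt := by
  intro q r χ ψ hq hr hχ hψ hχ2 hψ2 hne M N
  have hθ := SgPd_key q r hq hr χ ψ hχ hψ hψ2 hne
  have hqr : 1 ≤ q * r := Nat.mul_pos (by omega) (by omega)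
  have hb := h1 (q * r) _ M N hqr hθ
  have hc := (h2 q χ hq (SgPd_ne_one q χ hq hχ) hχ2).2.2
  have hd := (h2 r ψ hr (SgPd_ne_one r ψ hr hψ) hψ2).2.2
  have e1 : ∀ n : ℕ, (((χ (n : ZMod q)).re * (ψ (n : ZMod r)).re : ℝ) : ℂ)
      = (DirichletCharacter.changeLevel (Nat.dvd_mul_right q r) χ *
      DirichletCharacter.changeLevel (Nat.dvd_mul_left r q) ψ) (n : ZMod (q * r)) := by
    intro n
    rw [SgPd_theta q r χ ψ n, Complex.ofReal_mul, hc n, hd n]
  have e2 : ((∑ n ∈ Ioc M N, (χ (n : ZMod q)).re * (ψ (n : ZMod r)).re : ℝ) : ℂ)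
      = ∑ n ∈ Ioc M N, (DirichletCharacter.changeLevel (Nat.dvd_mul_right q r) χ *
      DirichletCharacter.changeLevel (Nat.dvd_mul_left r q) ψ) (n : ZMod (q * r)) := by
    rw [Complex.ofReal_sum]
    exact Finset.sum_congr rfl (fun n _ => e1 n)
  rw [← e2, Complex.norm_real, Real.norm_eq_abs, Nat.cast_mul] at hb
  exact hb

end Pool.Agent.Lib.BV
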