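import Pool.Agent.Lib.BV.SpecS

/-! Module SgPo: the value at 1 is nonnegative. -/

namespace Pool.Agent.Lib.BV

open Finset

theorem SgPo_abs (f : ℕ → ℝ) (hf : SgCM f) (n : ℕ) : |f n| ≤ 1 := by
  rcases hf.val n with h | h | h <;> rw [h] <;> norm_num

theorem SgPo_low (r : ℕ → ℝ) (β : ℝ) (N : ℕ) (hr : ∀ n, 0 ≤ r n) (h1 : r 1 = 1) (hN : 1 ≤ N) :
    1 ≤ sgp r β N := by
  unfold sgp
  have h2 : r 1 * ((1 : ℕ) : ℝ) ^ (-β) = 1 := by
    rw [h1, Nat.cast_one, Real.one_rpow, one_mul]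
  calc (1 : ℝ) = r 1 * ((1 : ℕ) : ℝ) ^ (-β) := h2.symm
    _ ≤ ∑ n ∈ Icc 1 N, r n * (n : ℝ) ^ (-β) :=
      Finset.single_le_sum (f := fun n : ℕ => r n * (n : ℝ) ^ (-β))
        (fun n _ => mul_nonneg (hr n) (Real.rpow_nonneg (Nat.cast_nonneg n) _))
        (Finset.mem_Icc.2 ⟨le_refl 1, hN⟩)

theorem tSgPo (h1 : SgOnStmt) (h2 : SgNaStmt) : SgPoStmt := by
  intro f Q hf hPB
  by_contra hneg
  push Not at hneg
  obtain ⟨z, -, hz⟩ := h1 (3 / 4) (by norm_num) (by norm_num)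
  obtain ⟨hr, hr1, -⟩ := h2 f hf
  have hPB' : SgPB f (max Q 1) := fun M N => le_trans (hPB M N) (le_max_left _ _)
  set c := -(sgl f 1) with hc
  have hcpos : 0 < c := by rw [hc]; linarith
  set K := z * sgl f (3 / 4) + 80 * max Q 1 with hK
  obtain ⟨t, ht⟩ := exists_nat_gt (|K| / (4 * c))
  have ht0 : (0 : ℝ) < t := lt_of_le_of_lt (by positivity) ht
  have ht1 : 1 ≤ t := by
    have : 0 < t := by exact_mod_cast ht0
    omega
  have hN : 1 ≤ t ^ 4 := Nat.one_le_pow _ _ ht1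
  have hb := hz f (max Q 1) (SgPo_abs f hf) hPB' (le_max_right _ _) 1 (t ^ 4) le_rfl hN
  rw [Nat.div_one] at hb
  have hlow := SgPo_low (sgc f (fun _ => 1)) (3 / 4) (t ^ 4) hr hr1 hN
  have e1 : (((t ^ 4 : ℕ) : ℝ) / ((1 : ℕ) : ℝ)) = (t : ℝ) ^ 4 := by
    rw [Nat.cast_one, div_one, Nat.cast_pow]
  have e2 : ((t : ℝ) ^ 4) ^ (1 - (3 : ℝ) / 4) = t := by
    rw [← Real.rpow_natCast, ← Real.rpow_mul ht0.le]
    norm_num
  have e3 : ((t : ℝ) ^ 4) ^ ((1 : ℝ) / 2 - 3 / 4) ≤ 1 := by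
    apply Real.rpow_le_one_of_one_le_of_nonpos
    · exact_mod_cast hN
    · norm_num
  rw [e1, e2] at hb
  have e4 : 20 / (1 - (3 : ℝ) / 4) * max Q 1 * ((t : ℝ) ^ 4) ^ ((1 : ℝ) / 2 - 3 / 4)
      ≤ 80 * max Q 1 := by
    have h0 : (0 : ℝ) ≤ 20 / (1 - (3 : ℝ) / 4) * max Q 1 := by
      apply mul_nonneg (by norm_num)
      exact le_trans zero_le_one (le_max_right _ _)
    have := mul_le_mul_of_nonneg_left e3 h0
    have e5 : 20 / (1 - (3 : ℝ) / 4) * max Q 1 * 1 = 80 * max Q 1 := by ring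
    linarith
  have e6 := (abs_le.1 (le_trans hb e4)).2
  have e7 : sgl f 1 * ((t : ℝ) / (1 - 3 / 4)) = - (4 * c * t) := by
    rw [hc]; ring
  rw [e7] at e6
  have e8 : 4 * c * t ≤ K - 1 := by
    rw [hK]; linarith
  have e9 : |K| < 4 * c * t := by
    rw [div_lt_iff₀ (by positivity)] at ht
    linarith
  have e10 := le_abs_self K
  linarith

end Pool.Agent.Lib.BV
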