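import Pool.Agent.Lib.BV.SpecS

/-!
Module SgSi: the theorem of Siegel in abstract form.
-/

namespace Pool.Agent.Lib.BV

open Finset

private theorem SgSi_log (q q1 ε : ℝ) (hq : 1 ≤ q) (hq1 : 1 ≤ q1) (hε : 0 < ε) :
    3 + Real.log (q * q1) ≤ (3 + Real.log q1) * ((1 + 2 / ε) * q ^ (ε / 2)) := by
  have hl : 0 ≤ Real.log q := Real.log_nonneg hq
  have hl1 : 0 ≤ Real.log q1 := Real.log_nonneg hq1
  have h1 : Real.log q ≤ q ^ (ε / 2) / (ε / 2) := Real.log_le_rpow_div (by linarith) (by positivity)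
  have h2 : 1 ≤ q ^ (ε / 2) := Real.one_le_rpow hq (by positivity)
  have h3 : 1 + Real.log q ≤ (1 + 2 / ε) * q ^ (ε / 2) := by
    have : q ^ (ε / 2) / (ε / 2) = 2 / ε * q ^ (ε / 2) := by
      field_simp
    rw [this] at h1
    linarith
  rw [Real.log_mul (by linarith) (by linarith)]
  calc 3 + (Real.log q + Real.log q1) ≤ (3 + Real.log q1) * (1 + Real.log q) := by nlinarith
    _ ≤ (3 + Real.log q1) * ((1 + 2 / ε) * q ^ (ε / 2)) :=
        mul_le_mul_of_nonneg_left h3 (by linarith)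

private theorem SgSi_b (f : ℕ → ℝ) (q q1 β ε : ℝ) (hq : 1 ≤ q) (hq1 : 1 ≤ q1) (hε : 0 < ε)
    (hβ : 1 - ε / 200 ≤ β) (hβ1 : β < 1)
    (h : (1 - β) / (2 * (3 + Real.log q1) * (3 + Real.log (q * q1))) *
        (2 * (10 : ℝ) ^ 7 * q1 * q * (q * q1) / (1 - β)) ^ (-(17 * (1 - β))) ≤ sgl f 1) :
    (1 - β) / (2 * (3 + Real.log q1) ^ 2 * (1 + 2 / ε)) *
        (2 * (10 : ℝ) ^ 7 * q1 ^ 2 / (1 - β)) ^ (-(17 * (1 - β))) * q ^ (-ε) ≤ sgl f 1 := by
  have hl1 : 0 ≤ Real.log q1 := Real.log_nonneg hq1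
  have hq0 : 0 < q := by linarith
  have hq10 : 0 < q1 := by linarith
  have hb : 0 < 1 - β := by linarith
  have hqq : 1 ≤ q * q1 := by nlinarith
  have hl2 : 0 ≤ Real.log (q * q1) := Real.log_nonneg hqq
  refine le_trans ?_ h
  have e1 : 2 * (10 : ℝ) ^ 7 * q1 * q * (q * q1) / (1 - β) =
      (2 * (10 : ℝ) ^ 7 * q1 ^ 2 / (1 - β)) * q ^ 2 := by ring
  rw [e1, Real.mul_rpow (by positivity) (by positivity)]
  set W := (2 * (10 : ℝ) ^ 7 * q1 ^ 2 / (1 - β)) ^ (-(17 * (1 - β))) with hW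
  have hW0 : 0 < W := Real.rpow_pos_of_pos (by positivity) _
  have e2 : q ^ (-(ε / 2)) ≤ (q ^ 2) ^ (-(17 * (1 - β))) := by
    rw [← Real.rpow_natCast q 2, ← Real.rpow_mul hq0.le]
    apply Real.rpow_le_rpow_of_exponent_le hq
    push_cast
    nlinarith
  have e3 : (1 - β) / (2 * (3 + Real.log q1) ^ 2 * (1 + 2 / ε)) * q ^ (-(ε / 2)) ≤
      (1 - β) / (2 * (3 + Real.log q1) * (3 + Real.log (q * q1))) := by
    have h5 := SgSi_log q q1 ε hq hq1 hε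
    have h6 : 0 < q ^ (ε / 2) := Real.rpow_pos_of_pos hq0 _
    rw [Real.rpow_neg hq0.le, ← div_eq_mul_inv, div_div]
    apply div_le_div_of_nonneg_left hb.le (by positivity)
    calc 2 * (3 + Real.log q1) * (3 + Real.log (q * q1)) ≤
        2 * (3 + Real.log q1) * ((3 + Real.log q1) * ((1 + 2 / ε) * q ^ (ε / 2))) :=
          mul_le_mul_of_nonneg_left h5 (by positivity)
      _ = 2 * (3 + Real.log q1) ^ 2 * (1 + 2 / ε) * q ^ (ε / 2) := by ring
  have e4 : q ^ (-ε) = q ^ (-(ε / 2)) * q ^ (-(ε / 2)) := by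
    rw [← Real.rpow_add hq0]
    congr 1
    ring
  have h7 : 0 ≤ q ^ (-(ε / 2)) := Real.rpow_nonneg hq0.le _
  calc (1 - β) / (2 * (3 + Real.log q1) ^ 2 * (1 + 2 / ε)) * W * q ^ (-ε)
      = ((1 - β) / (2 * (3 + Real.log q1) ^ 2 * (1 + 2 / ε)) * q ^ (-(ε / 2))) *
        (W * q ^ (-(ε / 2))) := by rw [e4]; ring
    _ ≤ (1 - β) / (2 * (3 + Real.log q1) * (3 + Real.log (q * q1))) *
        (W * (q ^ 2) ^ (-(17 * (1 - β)))) := by
        apply mul_le_mul e3 (mul_le_mul_of_nonneg_left e2 hW0.le) (by positivity) (by positivity)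

private theorem SgSi_main (h1 : SgCtStmt) (h2 : SgPoStmt) (h3 : SgCaStmt) (h4 : SgCbStmt)
    (P : ℕ → (ℕ → ℝ) → Prop)
    (hP : ∀ q f, P q f → 1 < q ∧ SgCM f ∧ SgPB f q ∧ sgl f 1 ≠ 0)
    (hPP : ∀ q f q' f', P q f → P q' f' → f ≠ f' → SgPB (fun n => f n * f' n) ((q : ℝ) * q'))
    (ε : ℝ) (hε : 0 < ε) (hε1 : ε ≤ 1) :
    ∃ c : ℝ, 0 < c ∧ ∀ q f, P q f → c * (q : ℝ) ^ (-ε) ≤ sgl f 1 := by
  obtain ⟨β, hβd⟩ : ∃ β : ℝ, β = 1 - ε / 200 := ⟨_, rfl⟩
  have hβ : 7 / 8 ≤ β := by rw [hβd]; linarith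
  have hβ1 : β < 1 := by rw [hβd]; linarith
  have hb : 0 < 1 - β := by linarith
  by_cases hA : ∀ q f, P q f → 0 ≤ sgl f β
  · refine ⟨(1 - β) / 2 * (40 / (1 - β)) ^ (-(4 * (1 - β))), ?_, ?_⟩
    · have := Real.rpow_pos_of_pos (show 0 < 40 / (1 - β) by positivity) (-(4 * (1 - β)))
      positivity
    intro q f hf
    obtain ⟨hq, hcm, hpb, -⟩ := hP q f hf
    have hq1 : (1 : ℝ) ≤ q := by exact_mod_cast hq.le
    have h5 := h3 f q β hcm hpb hq1 hβ hβ1 (hA q f hf)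
    refine le_trans ?_ h5
    rw [mul_assoc]
    apply mul_le_mul_of_nonneg_left _ (by positivity)
    have e1 : 40 * (q : ℝ) / (1 - β) = (40 / (1 - β)) * q := by ring
    rw [e1, Real.mul_rpow (by positivity) (by positivity)]
    apply mul_le_mul_of_nonneg_left _ (Real.rpow_nonneg (by positivity) _)
    apply Real.rpow_le_rpow_of_exponent_le hq1
    rw [hβd]
    linarith
  · push Not at hA
    obtain ⟨q1, g, hg, hneg⟩ := hA
    obtain ⟨hq1, hcmg, hpbg, hne⟩ := hP q1 g hg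
    have hq1' : (1 : ℝ) ≤ q1 := by exact_mod_cast hq1.le
    have hpos : 0 < sgl g 1 := lt_of_le_of_ne (h2 g q1 hcmg hpbg) (Ne.symm hne)
    have hcont : ContinuousOn (sgl g) (Set.Icc β 1) :=
      (h1 g q1 hpbg).mono (fun s hs => by
        have := hs.1
        simp only [Set.mem_Ioi]
        linarith)
    obtain ⟨β1, hm, hz⟩ := intermediate_value_Icc hβ1.le hcont ⟨hneg.le, hpos.le⟩
    have hβ11 : β1 < 1 := by
      rcases lt_or_eq_of_le hm.2 with h | h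
      · exact h
      · rw [h] at hz
        exact absurd hz hne
    have hb1 : 0 < 1 - β1 := by linarith
    have hl1 : 0 ≤ Real.log (q1 : ℝ) := Real.log_nonneg hq1'
    have hc2 : 0 < (1 - β1) / (2 * (3 + Real.log q1) ^ 2 * (1 + 2 / ε)) *
        (2 * (10 : ℝ) ^ 7 * (q1 : ℝ) ^ 2 / (1 - β1)) ^ (-(17 * (1 - β1))) := by
      have : 0 < (2 * (10 : ℝ) ^ 7 * (q1 : ℝ) ^ 2 / (1 - β1)) ^ (-(17 * (1 - β1))) :=
        Real.rpow_pos_of_pos (by positivity) _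
      positivity
    refine ⟨min (sgl g 1) _, lt_min hpos hc2, ?_⟩
    intro q f hf
    obtain ⟨hq, hcm, hpb, -⟩ := hP q f hf
    have hq' : (1 : ℝ) ≤ q := by exact_mod_cast hq.le
    have hqe : 0 ≤ (q : ℝ) ^ (-ε) := Real.rpow_nonneg (by linarith) _
    by_cases hfg : f = g
    · subst hfg
      calc _ ≤ sgl f 1 * (q : ℝ) ^ (-ε) := mul_le_mul_of_nonneg_right (min_le_left _ _) hqe
        _ ≤ sgl f 1 * 1 := by
            apply mul_le_mul_of_nonneg_left _ hpos.le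
            exact Real.rpow_le_one_of_one_le_of_nonpos hq' (by linarith)
        _ = sgl f 1 := mul_one _
    · have h5 := h4 f g q1 q ((q : ℝ) * q1) β1 hcm hcmg hpbg hpb (hPP q f q1 g hf hg hfg) hq1' hq'
        (by nlinarith) (le_trans hβ hm.1) hβ11 hz
      have h6 := SgSi_b f q q1 β1 ε hq' hq1' hε (by rw [← hβd]; exact hm.1) hβ11 h5
      exact le_trans (mul_le_mul_of_nonneg_right (min_le_right _ _) hqe) h6

theorem tSgSi (h1 : SgCtStmt) (h2 : SgPoStmt) (h3 : SgCaStmt) (h4 : SgCbStmt) : SgSiStmt := by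
  intro P hP hPP ε hε
  rcases le_or_gt ε 1 with h | h
  · exact SgSi_main h1 h2 h3 h4 P hP hPP ε hε h
  · obtain ⟨c, hc, hcc⟩ := SgSi_main h1 h2 h3 h4 P hP hPP 1 one_pos le_rfl
    refine ⟨c, hc, fun q f hf => le_trans ?_ (hcc q f hf)⟩
    have hq : (1 : ℝ) ≤ q := by exact_mod_cast (hP q f hf).1.le
    exact mul_le_mul_of_nonneg_left
      (Real.rpow_le_rpow_of_exponent_le hq (by linarith)) hc.le

end Pool.Agent.Lib.BV
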