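import Pool.Agent.Lib.BV.SpecS

/-!
MP_00e23e_nt, BV, module SgZ: sums of n^(-b) against the integral.
-/

namespace Pool.Agent.Lib.BV

open Finset

/-- tangent lines of the concave function x^(1-β) -/
lemma SgZ_tan {β u v : ℝ} (h0 : 0 < β) (h1 : β < 1) (hu : 0 < u) (hv : 0 < v) :
    v ^ (1 - β) ≤ u ^ (1 - β) + (1 - β) * (v - u) * u ^ (-β) := by
  have h2 := rpow_one_add_le_one_add_mul_self (s := v / u - 1) (p := 1 - β)
    (by
      have : 0 < v / u := by positivity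
      linarith) (by linarith) (by linarith)
  have h3 : 1 + (v / u - 1) = v / u := by ring
  rw [h3, Real.div_rpow hv.le hu.le] at h2
  have h4 : 0 < u ^ (1 - β) := Real.rpow_pos_of_pos hu _
  rw [div_le_iff₀ h4] at h2
  have h5 : u ^ (1 - β) = u * u ^ (-β) := by
    have h6 : (1 - β) = 1 + (-β) := by ring
    rw [h6, Real.rpow_add hu, Real.rpow_one]
  have h6 : (1 + (1 - β) * (v / u - 1)) * u ^ (1 - β) =
      u ^ (1 - β) + (1 - β) * (v - u) * u ^ (-β) := by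
    rw [h5]
    field_simp
  linarith

/-- the difference between the sum and the integral -/
noncomputable def SgZ_D (β : ℝ) (M : ℕ) : ℝ :=
  ∑ n ∈ Icc 1 M, (n : ℝ) ^ (-β) - (M : ℝ) ^ (1 - β) / (1 - β)

lemma SgZ_succ (β : ℝ) (M : ℕ) : SgZ_D β (M + 1) - SgZ_D β M =
    ((M : ℝ) + 1) ^ (-β) - (((M : ℝ) + 1) ^ (1 - β) - (M : ℝ) ^ (1 - β)) / (1 - β) := by
  unfold SgZ_D
  rw [Finset.sum_Icc_succ_top (by omega)]
  push_cast
  ring

lemma SgZ_dec {β : ℝ} (h0 : 0 < β) (h1 : β < 1) (M : ℕ) : SgZ_D β (M + 1) ≤ SgZ_D β M := by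
  have h2 := SgZ_succ β M
  have hb : 0 < 1 - β := by linarith
  rcases Nat.eq_zero_or_pos M with h | h
  · subst h
    rw [Nat.cast_zero, zero_add (1 : ℝ), Real.one_rpow, Real.one_rpow, Real.zero_rpow hb.ne',
      sub_zero (1 : ℝ)] at h2
    have h3 : 1 ≤ 1 / (1 - β) := by
      rw [one_le_div hb]
      linarith
    linarith
  · have hM : (0 : ℝ) < M := by exact_mod_cast h
    have h3 := SgZ_tan h0 h1 (u := (M : ℝ) + 1) (v := M) (by linarith) hM
    have h4 : ((M : ℝ) + 1) ^ (-β) ≤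
        (((M : ℝ) + 1) ^ (1 - β) - (M : ℝ) ^ (1 - β)) / (1 - β) := by
      rw [le_div_iff₀ hb]
      linarith
    linarith

lemma SgZ_inc {β : ℝ} (h0 : 0 < β) (h1 : β < 1) (M : ℕ) (hM : 1 ≤ M) :
    SgZ_D β M - (M : ℝ) ^ (-β) ≤ SgZ_D β (M + 1) - ((M + 1 : ℕ) : ℝ) ^ (-β) := by
  have h2 := SgZ_succ β M
  have hb : 0 < 1 - β := by linarith
  have hMR : (0 : ℝ) < M := by exact_mod_cast hM
  have h3 := SgZ_tan h0 h1 (u := (M : ℝ)) (v := (M : ℝ) + 1) hMR (by linarith)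
  have h4 : (((M : ℝ) + 1) ^ (1 - β) - (M : ℝ) ^ (1 - β)) / (1 - β) ≤ (M : ℝ) ^ (-β) := by
    rw [div_le_iff₀ hb]
    linarith
  push_cast
  linarith

lemma SgZ_anti {β : ℝ} (h0 : 0 < β) (h1 : β < 1) : Antitone (SgZ_D β) :=
  antitone_nat_of_succ_le fun M => SgZ_dec h0 h1 M

lemma SgZ_mono {β : ℝ} (h0 : 0 < β) (h1 : β < 1) {M M' : ℕ} (hM : 1 ≤ M) (h : M ≤ M') :
    SgZ_D β M - (M : ℝ) ^ (-β) ≤ SgZ_D β M' - (M' : ℝ) ^ (-β) := by
  induction M', h using Nat.le_induction with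
  | base => exact le_refl _
  | succ k hk ih => exact ih.trans (SgZ_inc h0 h1 k (hM.trans hk))

lemma SgZ_zero {β : ℝ} (h1 : β < 1) : SgZ_D β 0 = 0 := by
  unfold SgZ_D
  rw [Nat.cast_zero, Real.zero_rpow (by linarith), zero_div, sub_zero]
  simp

lemma SgZ_one {β : ℝ} : SgZ_D β 1 = 1 - 1 / (1 - β) := by
  unfold SgZ_D
  rw [Finset.Icc_self, Finset.sum_singleton, Nat.cast_one, Real.one_rpow, Real.one_rpow]

lemma SgZ_low {β : ℝ} (h0 : 0 < β) (h1 : β < 1) {M M' : ℕ} (hM : 1 ≤ M) :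
    SgZ_D β M - (M : ℝ) ^ (-β) ≤ SgZ_D β M' := by
  rcases le_total M M' with h | h
  · have h2 := SgZ_mono h0 h1 hM h
    have h3 : 0 ≤ (M' : ℝ) ^ (-β) := Real.rpow_nonneg (Nat.cast_nonneg _) _
    linarith
  · have h2 := SgZ_anti h0 h1 h
    have h3 : 0 ≤ (M : ℝ) ^ (-β) := Real.rpow_nonneg (Nat.cast_nonneg _) _
    linarith

theorem tSgZ : SgZStmt := by
  intro β h0 h1
  have hb : 0 < 1 - β := by linarith
  have hbdd : BddBelow (Set.range (SgZ_D β)) := by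
    refine ⟨SgZ_D β 1 - ((1 : ℕ) : ℝ) ^ (-β), ?_⟩
    rintro _ ⟨M, rfl⟩
    exact SgZ_low h0 h1 (le_refl 1)
  have hz1 : ∀ M, ⨅ k, SgZ_D β k ≤ SgZ_D β M := fun M => ciInf_le hbdd M
  have hz2 : ∀ M : ℕ, 1 ≤ M → SgZ_D β M - (M : ℝ) ^ (-β) ≤ ⨅ k, SgZ_D β k := fun M hM =>
    le_ciInf fun k => SgZ_low h0 h1 hM
  refine ⟨⨅ k, SgZ_D β k, ?_, ?_, ?_, ?_⟩
  · have h2 := hz1 0
    rw [SgZ_zero h1] at h2
    exact h2
  · have h2 := hz2 1 (le_refl 1)
    rw [SgZ_one, Nat.cast_one, Real.one_rpow] at h2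
    linarith
  · intro a N ha haN
    have haR : (0 : ℝ) < a := by exact_mod_cast ha
    have hM1 : 1 ≤ N / a := (Nat.one_le_div_iff (by omega)).2 haN
    have hMy : ((N / a : ℕ) : ℝ) ≤ (N : ℝ) / a := Nat.cast_div_le
    have hyM : (N : ℝ) / a < ((N / a : ℕ) : ℝ) + 1 := by
      rw [div_lt_iff₀ haR]
      have h2 : N < (N / a + 1) * a := by
        have h3 := Nat.div_add_mod N a
        have h4 := Nat.mod_lt N (show 0 < a by omega)
        nlinarith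
      exact_mod_cast h2
    have h2 := hz1 (N / a)
    have h3 := hz2 (N / a) hM1
    have hD : ∑ n ∈ Icc 1 (N / a), (n : ℝ) ^ (-β) =
        SgZ_D β (N / a) + ((N / a : ℕ) : ℝ) ^ (1 - β) / (1 - β) := by
      unfold SgZ_D
      ring
    rw [hD]
    generalize (⨅ k, SgZ_D β k) = z at h2 h3
    generalize SgZ_D β (N / a) = d at h2 h3
    have hMR : (1 : ℝ) ≤ ((N / a : ℕ) : ℝ) := by exact_mod_cast hM1
    generalize ((N / a : ℕ) : ℝ) = M at *
    generalize (N : ℝ) / (a : ℝ) = y at *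
    have hM0 : 0 < M := by linarith
    have hy0 : 0 < y := by linarith
    have h4 := SgZ_tan h0 h1 hM0 hy0
    have h5 : M ^ (1 - β) ≤ y ^ (1 - β) := Real.rpow_le_rpow hM0.le hMy hb.le
    have h6 : 0 < M ^ (-β) := Real.rpow_pos_of_pos hM0 _
    have h7 : (y ^ (1 - β) - M ^ (1 - β)) / (1 - β) ≤ M ^ (-β) := by
      rw [div_le_iff₀ hb]
      have h8 : (1 - β) * (y - M) * M ^ (-β) ≤ (1 - β) * 1 * M ^ (-β) := by
        refine mul_le_mul_of_nonneg_right ?_ h6.le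
        exact mul_le_mul_of_nonneg_left (by linarith) hb.le
      linarith
    have h8 : 0 ≤ (y ^ (1 - β) - M ^ (1 - β)) / (1 - β) := div_nonneg (by linarith) hb.le
    have h9 : M ^ (-β) ≤ 2 * y ^ (-β) := by
      have h10 : M ^ (-β) ≤ (y / 2) ^ (-β) :=
        Real.rpow_le_rpow_of_nonpos (by linarith) (by linarith) (by linarith)
      have h11 : (y / 2) ^ (-β) = y ^ (-β) * 2 ^ β := by
        rw [Real.div_rpow hy0.le (by norm_num), Real.rpow_neg (by norm_num : (0 : ℝ) ≤ 2), div_inv_eq_mul]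
      have h12 : (2 : ℝ) ^ β ≤ 2 := by
        have h13 := Real.rpow_le_rpow_of_exponent_le (by norm_num : (1 : ℝ) ≤ 2) h1.le
        rw [Real.rpow_one] at h13
        exact h13
      have h13 : 0 < y ^ (-β) := Real.rpow_pos_of_pos hy0 _
      rw [h11] at h10
      nlinarith
    have h10 : (y ^ (1 - β) - M ^ (1 - β)) / (1 - β) =
        y ^ (1 - β) / (1 - β) - M ^ (1 - β) / (1 - β) := sub_div _ _ _
    rw [h10] at h7 h8
    rw [abs_le]
    constructor <;> linarith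
  · intro N
    have h2 : SgZ_D β N ≤ SgZ_D β 0 := SgZ_anti h0 h1 (Nat.zero_le N)
    rw [SgZ_zero h1] at h2
    unfold SgZ_D at h2
    linarith

end Pool.Agent.Lib.BV
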