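import Pool.Agent.Lib.BV.SpecS

/-!
MP_00e23e_nt, module Sie (theorem tSie): the theorem of Siegel, assembly.
-/

namespace Pool.Agent.Lib.BV

open Finset

private lemma Sie_ne_one {q : ℕ} (χ : DirichletCharacter ℂ q) (hq : 1 < q) (hχ : χ.IsPrimitive) :
    χ ≠ 1 := by
  haveI : NeZero q := ⟨by omega⟩
  intro h
  have h1 : χ.conductor = q := hχ
  rw [h, DirichletCharacter.conductor_one] at h1
  omega

theorem tSie (h1 : SgSiStmt) (h2 : SgChStmt) (h3 : SgPdStmt) (h4 : SgLfStmt) : SieStmt := by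
  intro ε hε
  obtain ⟨c, hc, hcc⟩ := h1
    (fun q f => ∃ χ : DirichletCharacter ℂ q, 1 < q ∧ χ.IsPrimitive ∧ χ ^ 2 = 1 ∧
      f = fun n : ℕ => (χ (n : ZMod q)).re)
    (by
      rintro q f ⟨χ, hq, hχ, hχ2, rfl⟩
      haveI : NeZero q := ⟨by omega⟩
      have hne := Sie_ne_one χ hq hχ
      have hch := h2 q χ hq hne hχ2
      exact ⟨hq, hch.1, hch.2.1, (h4 q χ hq hne hχ2).2⟩)
    (by
      rintro q f q' f' ⟨χ, hq, hχ, hχ2, rfl⟩ ⟨ψ, hq', hψ, hψ2, rfl⟩ hne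
      exact h3 q q' χ ψ hq hq' hχ hψ hχ2 hψ2 hne)
    ε hε
  refine ⟨c, hc, ?_⟩
  intro q _ χ hq hχ hχ2
  have hne := Sie_ne_one χ hq hχ
  have h5 := hcc q (fun n : ℕ => (χ (n : ZMod q)).re) ⟨χ, hq, hχ, hχ2, rfl⟩
  rw [(h4 q χ hq hne hχ2).1]
  simpa using h5

end Pool.Agent.Lib.BV
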