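import Pool.Agent.Lib.BV.SpecW

/-!
MP_00e23e_nt, BV, module Smb: summability of series with powers of the logarithm.
-/

namespace Pool.Agent.Lib.BV

open Finset

theorem Smb_log_le {n : ℕ} (hn : 1 ≤ n) {ε : ℝ} (hε : 0 < ε) :
    1 + Real.log n ≤ (1 + 1 / ε) * (n : ℝ) ^ ε := by
  have hn1 : (1 : ℝ) ≤ n := by exact_mod_cast hn
  have h1 := Real.log_le_rpow_div (by linarith : (0 : ℝ) ≤ n) hε
  have h2 : 1 ≤ (n : ℝ) ^ ε := Real.one_le_rpow hn1 hε.le
  have h3 : (n : ℝ) ^ ε / ε = 1 / ε * (n : ℝ) ^ ε := by ring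
  rw [h3] at h1
  linarith

theorem tSmb : SmbStmt := by
  intro f j s hf hs
  set ε : ℝ := (s.re - 1) / (2 * (j + 1)) with hε
  have hj : (0 : ℝ) < j + 1 := by positivity
  have hε0 : 0 < ε := by
    rw [hε]
    apply div_pos <;> linarith
  refine LSeriesSummable_of_le_const_mul_rpow (x := 1 + (s.re - 1) / 2) (by linarith)
    ⟨(1 + 1 / ε) ^ (j + 1), ?_⟩
  intro n hn
  have hn1 : 1 ≤ n := Nat.one_le_iff_ne_zero.2 hn
  have hnr : (1 : ℝ) ≤ n := by exact_mod_cast hn1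
  have hlog : 0 ≤ Real.log n := Real.log_nonneg hnr
  have h1 : ‖f n * ((Real.log n : ℝ) : ℂ) ^ j‖ ≤ (1 + Real.log n) ^ (j + 1) := by
    rw [norm_mul, norm_pow, Complex.norm_real, Real.norm_eq_abs, abs_of_nonneg hlog, pow_succ',
      ]
    exact mul_le_mul (hf n hn1) (pow_le_pow_left₀ hlog (by linarith) j) (by positivity)
      (by linarith)
  refine h1.trans ?_
  have h2 : (1 + Real.log n) ^ (j + 1) ≤ ((1 + 1 / ε) * (n : ℝ) ^ ε) ^ (j + 1) :=
    pow_le_pow_left₀ (by linarith) (Smb_log_le hn1 hε0) _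
  refine h2.trans (le_of_eq ?_)
  rw [mul_pow, ← Real.rpow_natCast ((n : ℝ) ^ ε) (j + 1), ← Real.rpow_mul (by linarith)]
  congr 2
  rw [hε]
  push_cast
  field_simp
  ring

end Pool.Agent.Lib.BV
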