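import Pool.Agent.Lib.BV.SpecF

/-!
MP_00e23e_nt, Lib/BV, module Smy: class sums of the sieve functions.
-/

namespace Pool.Agent.Lib.BV

open Finset Pool.Agent.Lib.EH3

/-- the general form -/
private lemma Smy_gen (h1 : LifStmt) (h2 : PbsStmt) (h4 : LvlStmt) {z d b l N N2 : ℕ}
    (hz : 2 ≤ z) (hd : 1 ≤ d) (hl : l.Coprime d) (hN : N ≤ N2) (T : ℕ → Finset (Finset ℕ))
    (c : ℕ → Finset ℕ → ℝ) (hT : ∀ i ∈ range z, ∀ s ∈ T i, s ⊆ pbl z d i)
    (hc : ∀ i ∈ range z, ∑ s ∈ T i, |c i s| ≤ (thr z i : ℝ) ^ (2 * (b + i) + 1)) :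
    |∑ n ∈ (Ioc N N2).filter (fun n => n ≡ l [MOD d]),
        ∏ i ∈ range z, ∑ s ∈ T i, c i s * dvi (∏ p ∈ s, p) n -
      ((N2 : ℝ) - N) / d * ∏ i ∈ range z, ∑ s ∈ T i, c i s / ((∏ p ∈ s, p : ℕ) : ℝ)| ≤
      2 * (z : ℝ) ^ (4 * b + 6) := by
  have h5 := h1 z (pbl z d) T c N N2 d l 1 hd hl hN le_rfl (Nat.coprime_one_left d)
    (fun i _ p hp => by
      unfold pbl at hp
      rw [Finset.mem_filter] at hp
      exact ⟨hp.2.1, hp.2.2, fun h6 => hp.2.1.one_lt.ne' (Nat.dvd_one.mp h6)⟩)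
    (fun i _ j _ hij => h2.1 z d i j hij) hT
  have h6 : (Ioc N N2).filter (fun n => n ≡ l [MOD d] ∧ 1 ∣ n) =
      (Ioc N N2).filter (fun n => n ≡ l [MOD d]) :=
    Finset.filter_congr fun n _ => and_iff_left (one_dvd n)
  rw [h6, Nat.cast_one, mul_one] at h5
  refine h5.trans (mul_le_mul_of_nonneg_left ?_ (by norm_num))
  refine (Finset.prod_le_prod (fun i _ => Finset.sum_nonneg fun s _ => abs_nonneg _) hc).trans ?_
  exact h4 z b (by omega)

private lemma Smy_card (h2 : PbsStmt) (h3 : CttStmt) {z d r : ℕ} (hz : 2 ≤ z) (j : ℕ) :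
    (((lowS (pbl z d j) r).card : ℕ) : ℝ) ≤ (thr z j : ℝ) ^ (r + 1) ∧
    ((((pbl z d j).powersetCard r).card : ℕ) : ℝ) ≤ (thr z j : ℝ) ^ r := by
  have h5 := h2.2.2.1 z d j (by omega)
  have h6 := h3 (pbl z d j) (thr z j) r h5
  refine ⟨h6.1.trans ?_, h6.2⟩
  refine pow_le_pow_right₀ ?_ (Nat.le_succ r)
  exact_mod_cast (by omega : 1 ≤ thr z j)

theorem tSmy (h1 : LifStmt) (h2 : PbsStmt) (h3 : CttStmt) (h4 : LvlStmt) : SmyStmt := by
  intro z d b l N N2 hz hd hl hN
  constructor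
  · refine Smy_gen h1 h2 h4 hz hd hl hN (fun j => lowS (pbl z d j) (2 * (b + j)))
      (fun j s => (-1 : ℝ) ^ s.card) (fun i _ s hs => ?_) (fun i _ => ?_)
    · unfold lowS at hs
      exact Finset.mem_powerset.mp (Finset.mem_filter.mp hs).1
    · have h5 : ∀ s ∈ lowS (pbl z d i) (2 * (b + i)), |(-1 : ℝ) ^ s.card| = 1 := by
        intro s _
        rw [abs_pow, abs_neg, abs_one, one_pow]
      rw [Finset.sum_congr rfl h5, Finset.sum_const, nsmul_eq_mul, mul_one]
      exact (Smy_card h2 h3 hz i).1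
  · intro i hi
    obtain ⟨T, hTi, hTj⟩ : ∃ T : ℕ → Finset (Finset ℕ),
        T i = (pbl z d i).powersetCard (2 * (b + i) + 1) ∧
        ∀ j, j ≠ i → T j = lowS (pbl z d j) (2 * (b + j)) :=
      ⟨fun j => if j = i then (pbl z d i).powersetCard (2 * (b + i) + 1) else
        lowS (pbl z d j) (2 * (b + j)), if_pos rfl, fun j hj => if_neg hj⟩
    obtain ⟨c, hci, hcj⟩ : ∃ c : ℕ → Finset ℕ → ℝ, (∀ s, c i s = 1) ∧
        ∀ j, j ≠ i → ∀ s, c j s = (-1 : ℝ) ^ s.card :=
      ⟨fun j s => if j = i then 1 else (-1 : ℝ) ^ s.card, fun s => if_pos rfl,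
        fun j hj s => if_neg hj⟩
    have hy : ∀ n, wf z d b i n * ∏ j ∈ (range z).erase i, yf z d b j n =
        ∏ j ∈ range z, ∑ s ∈ T j, c j s * dvi (∏ p ∈ s, p) n := by
      intro n
      rw [← Finset.mul_prod_erase (range z) _ hi]
      have e1 : wf z d b i n = ∑ s ∈ T i, c i s * dvi (∏ p ∈ s, p) n := by
        rw [hTi]
        exact Finset.sum_congr rfl fun s _ => by rw [hci, one_mul]
      have e2 : ∏ j ∈ (range z).erase i, yf z d b j n =
          ∏ j ∈ (range z).erase i, ∑ s ∈ T j, c j s * dvi (∏ p ∈ s, p) n := by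
        refine Finset.prod_congr rfl fun j hj => ?_
        have hji := Finset.ne_of_mem_erase hj
        rw [hTj j hji]
        exact Finset.sum_congr rfl fun s _ => by rw [hcj j hji]
      rw [e1, e2]
    have hY : Ud z d b i * ∏ j ∈ (range z).erase i, Yd z d b j =
        ∏ j ∈ range z, ∑ s ∈ T j, c j s / ((∏ p ∈ s, p : ℕ) : ℝ) := by
      rw [← Finset.mul_prod_erase (range z) _ hi]
      have e1 : Ud z d b i = ∑ s ∈ T i, c i s / ((∏ p ∈ s, p : ℕ) : ℝ) := by
        rw [hTi]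
        exact Finset.sum_congr rfl fun s _ => by rw [hci]
      have e2 : ∏ j ∈ (range z).erase i, Yd z d b j =
          ∏ j ∈ (range z).erase i, ∑ s ∈ T j, c j s / ((∏ p ∈ s, p : ℕ) : ℝ) := by
        refine Finset.prod_congr rfl fun j hj => ?_
        have hji := Finset.ne_of_mem_erase hj
        rw [hTj j hji]
        exact Finset.sum_congr rfl fun s _ => by rw [hcj j hji]
      rw [e1, e2]
    rw [hY, Finset.sum_congr rfl fun n _ => hy n]
    refine Smy_gen h1 h2 h4 hz hd hl hN T c (fun j _ s hs => ?_) (fun j _ => ?_)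
    · by_cases hji : j = i
      · rw [hji] at hs ⊢
        rw [hTi, Finset.mem_powersetCard] at hs
        exact hs.1
      · rw [hTj j hji] at hs
        unfold lowS at hs
        exact Finset.mem_powerset.mp (Finset.mem_filter.mp hs).1
    · by_cases hji : j = i
      · rw [hji, hTi]
        have h5 : ∀ s ∈ (pbl z d i).powersetCard (2 * (b + i) + 1), |c i s| = 1 := by
          intro s _
          rw [hci, abs_one]
        rw [Finset.sum_congr rfl h5, Finset.sum_const, nsmul_eq_mul, mul_one]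
        exact (Smy_card h2 h3 hz i).2
      · rw [hTj j hji]
        have h5 : ∀ s ∈ lowS (pbl z d j) (2 * (b + j)), |c j s| = 1 := by
          intro s _
          rw [hcj j hji, abs_pow, abs_neg, abs_one, one_pow]
        rw [Finset.sum_congr rfl h5, Finset.sum_const, nsmul_eq_mul, mul_one]
        exact (Smy_card h2 h3 hz j).1

end Pool.Agent.Lib.BV
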