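import Pool.Agent.Lib.BV.SpecW

namespace Pool.Agent.Lib.BV

open Finset

/-- the square root term is small -/
theorem Sw_sqrt (A : ℝ) (hA : 0 < A) : ∃ C : ℝ, 0 < C ∧ ∀ x : ℝ, 3 ≤ x →
    Real.sqrt x * Real.log x ≤ C * (x / (Real.log x) ^ A) := by
  have hA1 : 0 < A + 1 := by linarith
  obtain ⟨η, hη⟩ : ∃ η : ℝ, η = 1 / (2 * (A + 1)) := ⟨_, rfl⟩
  have hη0 : 0 < η := by rw [hη]; positivity
  refine ⟨(1 / η) ^ (A + 1), by positivity, fun x hx => ?_⟩
  have hx0 : 0 < x := by linarith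
  have hl : 0 < Real.log x := Real.log_pos (by linarith)
  have h1 : Real.log x ≤ x ^ η / η := Real.log_le_rpow_div hx0.le hη0
  have h2 : (Real.log x) ^ (A + 1) ≤ (1 / η) ^ (A + 1) * Real.sqrt x := by
    calc (Real.log x) ^ (A + 1) ≤ (x ^ η / η) ^ (A + 1) :=
          Real.rpow_le_rpow hl.le h1 hA1.le
      _ = (1 / η * x ^ η) ^ (A + 1) := by
          congr 1
          ring
      _ = (1 / η) ^ (A + 1) * (x ^ η) ^ (A + 1) :=
          Real.mul_rpow (by positivity) (by positivity)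
      _ = (1 / η) ^ (A + 1) * Real.sqrt x := by
          rw [← Real.rpow_mul hx0.le, Real.sqrt_eq_rpow]
          congr 2
          rw [hη]
          field_simp
  rw [mul_div_assoc', le_div_iff₀ (Real.rpow_pos_of_pos hl A)]
  have h3 : Real.log x * (Real.log x) ^ A = (Real.log x) ^ (A + 1) := by
    rw [Real.rpow_add hl, Real.rpow_one]
    ring
  calc Real.sqrt x * Real.log x * (Real.log x) ^ A
      = Real.sqrt x * (Real.log x * (Real.log x) ^ A) := by ring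
    _ = Real.sqrt x * (Real.log x) ^ (A + 1) := by rw [h3]
    _ ≤ Real.sqrt x * ((1 / η) ^ (A + 1) * Real.sqrt x) :=
        mul_le_mul_of_nonneg_left h2 (Real.sqrt_nonneg x)
    _ = (1 / η) ^ (A + 1) * (Real.sqrt x * Real.sqrt x) := by ring
    _ = (1 / η) ^ (A + 1) * x := by rw [Real.mul_self_sqrt hx0.le]

theorem Sw_chf {q : ℕ} (χ : DirichletCharacter ℂ q) (n : ℕ) : ‖chf χ n‖ ≤ 1 :=
  DirichletCharacter.norm_le_one χ _

theorem Sw_log (n : ℕ) : 0 ≤ Real.log (n : ℝ) := Real.log_natCast_nonneg n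

theorem Sw_f {q : ℕ} (χ : DirichletCharacter ℂ q) (n : ℕ) :
    ‖((ArithmeticFunction.vonMangoldt n : ℝ) : ℂ) * chf χ n‖ ≤ Real.log n := by
  rw [norm_mul, Complex.norm_real, Real.norm_of_nonneg ArithmeticFunction.vonMangoldt_nonneg]
  calc ArithmeticFunction.vonMangoldt n * ‖chf χ n‖ ≤ Real.log n * 1 :=
        mul_le_mul ArithmeticFunction.vonMangoldt_le_log (Sw_chf χ n) (norm_nonneg _) (Sw_log n)
    _ = Real.log n := mul_one _

theorem tSw (h1 : FkkStmt) (h2 : SmbStmt) (h3 : PrsStmt) (h4 : PpsStmt) : SwStmt := by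
  intro A B hA hB
  obtain ⟨i, hi⟩ : ∃ i : ℕ, i = ⌈A⌉₊ + 1 := ⟨_, rfl⟩
  have hi1 : 1 ≤ i := by omega
  have hiA : A ≤ ((i - 1 : ℕ) : ℝ) := by
    have : i - 1 = ⌈A⌉₊ := by omega
    rw [this]
    exact Nat.le_ceil A
  obtain ⟨C1, hC1, hF⟩ := h1 (2 * i - 1) (1 / B) (by positivity)
  obtain ⟨C2, hC2, hP⟩ := h3 i hi1
  obtain ⟨C4, hC4, hQ⟩ := h4
  obtain ⟨C5, hC5, hS⟩ := Sw_sqrt A hA
  have hlog4 : 0 < Real.log 4 := Real.log_pos (by norm_num)
  have h4A : 0 < (Real.log 4) ^ A := Real.rpow_pos_of_pos hlog4 A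
  refine ⟨C2 * (C1 + 1) + C4 * C5 + (Real.log 4) ^ A, by positivity, ?_⟩
  intro x q χ hx hq hqx hχ
  have hx0 : 0 < x := by linarith
  have hl : 0 < Real.log x := Real.log_pos (by linarith)
  have hX : 0 < x / (Real.log x) ^ A := div_pos hx0 (Real.rpow_pos_of_pos hl A)
  have hqr : (2 : ℝ) ≤ q := by exact_mod_cast hq
  by_cases hx4 : 4 ≤ x
  · -- the main case
    have hl1 : 1 ≤ Real.log x := by
      have h5 : Real.exp 1 ≤ x := by
        have := Real.exp_one_lt_d9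
        linarith
      have h6 := Real.log_le_log (Real.exp_pos 1) h5
      rwa [Real.log_exp] at h6
    have hK0 : (0 : ℝ) ≤ C1 * (q : ℝ) ^ (1 / B) := by positivity
    have hK : C1 * (q : ℝ) ^ (1 / B) ≤ C1 * Real.log x := by
      apply mul_le_mul_of_nonneg_left _ hC1.le
      calc (q : ℝ) ^ (1 / B) ≤ ((Real.log x) ^ B) ^ (1 / B) :=
            Real.rpow_le_rpow (by linarith) hqx (by positivity)
        _ = Real.log x := by
            rw [← Real.rpow_mul hl.le, mul_one_div_cancel hB.ne', Real.rpow_one]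
    -- the coefficients
    have hc1 : ∀ n : ℕ, ‖((ArithmeticFunction.vonMangoldt n : ℝ) : ℂ) * chf χ n *
        ((Real.log n : ℝ) : ℂ) ^ (2 * i - 1)‖ ≤ (1 + Real.log n) ^ (2 * i) := by
      intro n
      have hn := Sw_log n
      rw [norm_mul, norm_pow, Complex.norm_real, Real.norm_of_nonneg hn]
      calc ‖((ArithmeticFunction.vonMangoldt n : ℝ) : ℂ) * chf χ n‖ * Real.log n ^ (2 * i - 1)
          ≤ Real.log n * Real.log n ^ (2 * i - 1) :=
            mul_le_mul_of_nonneg_right (Sw_f χ n) (pow_nonneg hn _)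
        _ = Real.log n ^ (2 * i) := by
            rw [← pow_succ']
            congr 1
            omega
        _ ≤ (1 + Real.log n) ^ (2 * i) := pow_le_pow_left₀ hn (by linarith) _
    have hsum : ∀ s : ℂ, 1 < s.re → LSeriesSummable
        (fun n => ((ArithmeticFunction.vonMangoldt n : ℝ) : ℂ) * chf χ n *
          ((Real.log n : ℝ) : ℂ) ^ (2 * i - 1)) s := by
      intro s hs
      exact h2 (fun n => ((ArithmeticFunction.vonMangoldt n : ℝ) : ℂ) * chf χ n) (2 * i - 1) s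
        (fun n _ => by have := Sw_f χ n; linarith) hs
    have hLS : ∀ s : ℂ, 1 < s.re → s.re ≤ 2 → ‖LSeries
        (fun n => ((ArithmeticFunction.vonMangoldt n : ℝ) : ℂ) * chf χ n *
          ((Real.log n : ℝ) : ℂ) ^ (2 * i - 1)) s‖ ≤
        C1 * (q : ℝ) ^ (1 / B) * (|s.im| + 2) ^ ((1 : ℝ) / 2) := fun s hs1 hs2 =>
      hF q χ s hq hχ hs1 hs2
    have hmain := hP _ (C1 * (q : ℝ) ^ (1 / B)) hK0 hc1 hsum hLS x hx4
    have hps := hQ (chf χ) x hx4 (Sw_chf χ)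
    -- the coefficients in the range
    have hsqrt : 2 ≤ Real.sqrt x := by
      rw [show (2 : ℝ) = Real.sqrt 4 by
        rw [show (4 : ℝ) = 2 ^ 2 by norm_num, Real.sqrt_sq (by norm_num)]]
      exact Real.sqrt_le_sqrt hx4
    have hfl : 2 ≤ ⌊Real.sqrt x⌋₊ := Nat.le_floor (by exact_mod_cast hsqrt)
    have heq : ∑ n ∈ Ioc ⌊Real.sqrt x⌋₊ ⌊x⌋₊,
        (((ArithmeticFunction.vonMangoldt n : ℝ) : ℂ) * chf χ n *
          ((Real.log n : ℝ) : ℂ) ^ (2 * i - 1)) / ((Real.log n : ℝ) : ℂ) ^ (2 * i) =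
        ∑ n ∈ Ioc ⌊Real.sqrt x⌋₊ ⌊x⌋₊,
          ((ArithmeticFunction.vonMangoldt n / Real.log n : ℝ) : ℂ) * chf χ n := by
      apply Finset.sum_congr rfl
      intro n hn
      rw [Finset.mem_Ioc] at hn
      have hn3 : 3 ≤ n := by omega
      have hln : 0 < Real.log (n : ℝ) := Real.log_pos (by
        have : (3 : ℝ) ≤ n := by exact_mod_cast hn3
        linarith)
      have hlc : ((Real.log n : ℝ) : ℂ) ≠ 0 := by exact_mod_cast hln.ne'
      have h2i : ((Real.log n : ℝ) : ℂ) ^ (2 * i) =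
          ((Real.log n : ℝ) : ℂ) ^ (2 * i - 1) * ((Real.log n : ℝ) : ℂ) := by
        rw [← pow_succ]
        congr 1
        omega
      have hgen : ∀ (a b t : ℂ) (k : ℕ), t ≠ 0 → a * b * t ^ k / (t ^ k * t) = a / t * b := by
        intro a b t k ht
        field_simp
      rw [h2i, Complex.ofReal_div]
      exact hgen _ _ _ _ hlc
    rw [heq] at hmain
    -- the first bound
    have hb1 : C2 * (C1 * (q : ℝ) ^ (1 / B) + 1) * (x / (Real.log x) ^ i) ≤
        C2 * (C1 + 1) * (x / (Real.log x) ^ A) := by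
      have e1 : C1 * (q : ℝ) ^ (1 / B) + 1 ≤ (C1 + 1) * Real.log x := by nlinarith
      have e2 : (Real.log x) ^ i = Real.log x * (Real.log x) ^ (i - 1) := by
        rw [← pow_succ']
        congr 1
        omega
      have e3 : (Real.log x) ^ A ≤ (Real.log x) ^ (i - 1) := by
        rw [← Real.rpow_natCast]
        exact Real.rpow_le_rpow_of_exponent_le hl1 hiA
      have e4 : 0 < (Real.log x) ^ (i - 1) := pow_pos hl _
      have e5 : x / (Real.log x) ^ (i - 1) ≤ x / (Real.log x) ^ A :=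
        div_le_div_of_nonneg_left hx0.le (Real.rpow_pos_of_pos hl A) e3
      calc C2 * (C1 * (q : ℝ) ^ (1 / B) + 1) * (x / (Real.log x) ^ i)
          ≤ C2 * ((C1 + 1) * Real.log x) * (x / (Real.log x) ^ i) := by
            apply mul_le_mul_of_nonneg_right
            · exact mul_le_mul_of_nonneg_left e1 hC2.le
            · positivity
        _ = C2 * (C1 + 1) * (x / (Real.log x) ^ (i - 1)) := by
            rw [e2]
            field_simp
        _ ≤ C2 * (C1 + 1) * (x / (Real.log x) ^ A) :=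
            mul_le_mul_of_nonneg_left e5 (by positivity)
    have hb2 : C4 * (Real.sqrt x * Real.log x) ≤ C4 * C5 * (x / (Real.log x) ^ A) := by
      rw [mul_assoc]
      exact mul_le_mul_of_nonneg_left (hS x hx) hC4.le
    have htri : ‖∑ p ∈ (Icc 1 ⌊x⌋₊).filter Nat.Prime, chf χ p‖ ≤
        ‖∑ n ∈ Ioc ⌊Real.sqrt x⌋₊ ⌊x⌋₊,
          ((ArithmeticFunction.vonMangoldt n / Real.log n : ℝ) : ℂ) * chf χ n‖ +
        ‖∑ n ∈ Ioc ⌊Real.sqrt x⌋₊ ⌊x⌋₊,
          ((ArithmeticFunction.vonMangoldt n / Real.log n : ℝ) : ℂ) * chf χ n -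
          ∑ n ∈ (Icc 1 ⌊x⌋₊).filter Nat.Prime, chf χ n‖ := by
      have := norm_sub_le (∑ n ∈ Ioc ⌊Real.sqrt x⌋₊ ⌊x⌋₊,
          ((ArithmeticFunction.vonMangoldt n / Real.log n : ℝ) : ℂ) * chf χ n)
        (∑ n ∈ Ioc ⌊Real.sqrt x⌋₊ ⌊x⌋₊,
          ((ArithmeticFunction.vonMangoldt n / Real.log n : ℝ) : ℂ) * chf χ n -
          ∑ n ∈ (Icc 1 ⌊x⌋₊).filter Nat.Prime, chf χ n)
      rwa [sub_sub_cancel] at this
    show ‖∑ p ∈ (Icc 1 ⌊x⌋₊).filter Nat.Prime, chf χ p‖ ≤ _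
    nlinarith [htri, hmain, hps, hb1, hb2, mul_pos h4A hX]
  · -- small `x`
    rw [not_le] at hx4
    have hb : ‖∑ p ∈ (Icc 1 ⌊x⌋₊).filter Nat.Prime, χ (p : ZMod q)‖ ≤ 3 := by
      calc ‖∑ p ∈ (Icc 1 ⌊x⌋₊).filter Nat.Prime, χ (p : ZMod q)‖
          ≤ ∑ p ∈ (Icc 1 ⌊x⌋₊).filter Nat.Prime, ‖χ (p : ZMod q)‖ := norm_sum_le _ _
        _ ≤ ∑ p ∈ (Icc 1 ⌊x⌋₊).filter Nat.Prime, (1 : ℝ) :=
            Finset.sum_le_sum (fun p _ => DirichletCharacter.norm_le_one χ _)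
        _ = (((Icc 1 ⌊x⌋₊).filter Nat.Prime).card : ℝ) := by simp
        _ ≤ ((Icc 1 ⌊x⌋₊).card : ℝ) := by exact_mod_cast Finset.card_filter_le _ _
        _ ≤ 3 := by
            rw [Nat.card_Icc]
            have h5 : ⌊x⌋₊ < 4 := (Nat.floor_lt hx0.le).2 (by exact_mod_cast hx4)
            have h6 : ⌊x⌋₊ + 1 - 1 ≤ 3 := by omega
            exact_mod_cast h6
    have h3x : 3 ≤ (Real.log 4) ^ A * (x / (Real.log x) ^ A) := by
      rw [mul_div_assoc', le_div_iff₀ (Real.rpow_pos_of_pos hl A)]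
      have e1 : (Real.log x) ^ A ≤ (Real.log 4) ^ A :=
        Real.rpow_le_rpow hl.le (Real.log_le_log hx0 hx4.le) hA.le
      calc 3 * (Real.log x) ^ A ≤ x * (Real.log 4) ^ A :=
            mul_le_mul hx e1 (Real.rpow_nonneg hl.le A) hx0.le
        _ = (Real.log 4) ^ A * x := by ring
    have h7 : 0 ≤ C2 * (C1 + 1) * (x / (Real.log x) ^ A) := by positivity
    have h8 : 0 ≤ C4 * C5 * (x / (Real.log x) ^ A) := by positivity
    nlinarith [hb, h3x, h7, h8]

end Pool.Agent.Lib.BV
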