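import Pool.Agent.Lib.BV.SpecH

/-!
MP_00e23e_nt, BV, module Tai: tail sums with logarithms.
-/

namespace Pool.Agent.Lib.BV

open Finset

/-- the telescoping function -/
private noncomputable def Tai_H (j n : ℕ) : ℝ :=
  (Real.log ((n : ℝ) + 1) + (2 * j + 2)) ^ j / n

private theorem Tai_step (j n : ℕ) (hn : 1 ≤ n) :
    (Real.log ((n : ℝ) + 1)) ^ j / (n : ℝ) ^ 2 ≤ 8 * (Tai_H j n - Tai_H j (n + 1)) := by
  unfold Tai_H
  set a : ℝ := 2 * j + 2 with ha
  have ha2 : 2 ≤ a := by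
    have : (0 : ℝ) ≤ j := Nat.cast_nonneg j
    linarith
  have hn' : (1 : ℝ) ≤ n := by exact_mod_cast hn
  have hL0 : 0 ≤ Real.log ((n : ℝ) + 1) := Real.log_nonneg (by linarith)
  set L : ℝ := Real.log ((n : ℝ) + 1) with hL
  -- the next logarithm
  have hL1 : Real.log (((n + 1 : ℕ) : ℝ) + 1) ≤ L + 1 / ((n : ℝ) + 1) := by
    have h1 : (((n + 1 : ℕ) : ℝ) + 1) = ((n : ℝ) + 1) * (1 + 1 / ((n : ℝ) + 1)) := by
      push_cast
      field_simp
    rw [h1, Real.log_mul (by positivity) (by positivity)]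
    have h2 := Real.log_le_sub_one_of_pos (x := 1 + 1 / ((n : ℝ) + 1)) (by positivity)
    linarith
  have hLn : 0 ≤ Real.log (((n + 1 : ℕ) : ℝ) + 1) := Real.log_nonneg (by push_cast; linarith)
  have hLa : 0 < L + a := by linarith
  -- the quotient
  have h1 : Real.log (((n + 1 : ℕ) : ℝ) + 1) + a ≤ (L + a) * (1 + 1 / (((n : ℝ) + 1) * a)) := by
    have h2 : (L + a) * (1 / (((n : ℝ) + 1) * a)) ≥ 1 / ((n : ℝ) + 1) := by
      rw [mul_one_div, ge_iff_le, div_le_div_iff₀ (by positivity) (by positivity)]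
      nlinarith
    nlinarith
  have h2 : (Real.log (((n + 1 : ℕ) : ℝ) + 1) + a) ^ j ≤
      (L + a) ^ j * (1 + 1 / (((n : ℝ) + 1) * a)) ^ j := by
    rw [← mul_pow]
    exact pow_le_pow_left₀ (by linarith) h1 j
  have h3 : (1 + 1 / (((n : ℝ) + 1) * a)) ^ j ≤ 1 + 3 / 4 / ((n : ℝ) + 1) := by
    have h4 : (1 + 1 / (((n : ℝ) + 1) * a)) ^ j ≤
        Real.exp (1 / (2 * ((n : ℝ) + 1))) := by
      have h5 : 1 + 1 / (((n : ℝ) + 1) * a) ≤ Real.exp (1 / (((n : ℝ) + 1) * a)) := by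
        have := Real.add_one_le_exp (1 / (((n : ℝ) + 1) * a))
        linarith
      calc (1 + 1 / (((n : ℝ) + 1) * a)) ^ j ≤ (Real.exp (1 / (((n : ℝ) + 1) * a))) ^ j :=
            pow_le_pow_left₀ (by positivity) h5 j
        _ = Real.exp (j * (1 / (((n : ℝ) + 1) * a))) := by rw [← Real.exp_nat_mul]
        _ ≤ Real.exp (1 / (2 * ((n : ℝ) + 1))) := by
            apply Real.exp_le_exp.mpr
            rw [mul_one_div, div_le_div_iff₀ (by positivity) (by positivity)]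
            have : (0 : ℝ) ≤ j := Nat.cast_nonneg j
            rw [ha]
            nlinarith
    have h6 : Real.exp (1 / (2 * ((n : ℝ) + 1))) ≤ 1 + 3 / 4 / ((n : ℝ) + 1) := by
      have h7 := Real.add_one_le_exp (-(1 / (2 * ((n : ℝ) + 1))))
      have h8 : Real.exp (1 / (2 * ((n : ℝ) + 1))) * Real.exp (-(1 / (2 * ((n : ℝ) + 1)))) = 1 := by
        rw [← Real.exp_add]
        simp
      have h9 : 0 < Real.exp (1 / (2 * ((n : ℝ) + 1))) := Real.exp_pos _
      have h10 : Real.exp (1 / (2 * ((n : ℝ) + 1))) * (1 - 1 / (2 * ((n : ℝ) + 1))) ≤ 1 := by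
        refine le_trans (mul_le_mul_of_nonneg_left ?_ h9.le) (le_of_eq h8)
        linarith
      have h11 : (1 : ℝ) ≤ (1 + 3 / 4 / ((n : ℝ) + 1)) * (1 - 1 / (2 * ((n : ℝ) + 1))) := by
        have h12 : (1 + 3 / 4 / ((n : ℝ) + 1)) * (1 - 1 / (2 * ((n : ℝ) + 1))) =
            1 + (2 * ((n : ℝ) + 1) - 3) / (8 * ((n : ℝ) + 1) ^ 2) := by
          field_simp
          ring
        rw [h12]
        have : 0 ≤ (2 * ((n : ℝ) + 1) - 3) / (8 * ((n : ℝ) + 1) ^ 2) :=
          div_nonneg (by linarith) (by positivity)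
        linarith
      have h13 : 0 < 1 - 1 / (2 * ((n : ℝ) + 1)) := by
        have : 1 / (2 * ((n : ℝ) + 1)) ≤ 1 / 2 := by
          apply one_div_le_one_div_of_le (by norm_num)
          linarith
        linarith
      exact le_of_mul_le_mul_right (h10.trans h11) h13
    exact h4.trans h6
  have hp0 : 0 ≤ (L + a) ^ j := by positivity
  have h14 : (Real.log (((n + 1 : ℕ) : ℝ) + 1) + a) ^ j ≤
      (L + a) ^ j * (1 + 3 / 4 / ((n : ℝ) + 1)) :=
    h2.trans (mul_le_mul_of_nonneg_left h3 hp0)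
  have h15 : (Real.log (((n + 1 : ℕ) : ℝ) + 1) + a) ^ j / ((n + 1 : ℕ) : ℝ) ≤
      (L + a) ^ j * (1 + 3 / 4 / ((n : ℝ) + 1)) / ((n : ℝ) + 1) := by
    push_cast at h14 ⊢
    exact div_le_div_of_nonneg_right h14 (by positivity)
  have h16 : L ^ j ≤ (L + a) ^ j := pow_le_pow_left₀ hL0 (by linarith) j
  have h17 : L ^ j / (n : ℝ) ^ 2 ≤ (L + a) ^ j / (n : ℝ) ^ 2 :=
    div_le_div_of_nonneg_right h16 (by positivity)
  have h18 : (L + a) ^ j / (n : ℝ) ^ 2 ≤
      8 * ((L + a) ^ j / n - (L + a) ^ j * (1 + 3 / 4 / ((n : ℝ) + 1)) / ((n : ℝ) + 1)) := by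
    have h19 : 8 * ((L + a) ^ j / n - (L + a) ^ j * (1 + 3 / 4 / ((n : ℝ) + 1)) / ((n : ℝ) + 1)) -
        (L + a) ^ j / (n : ℝ) ^ 2 = (L + a) ^ j *
          (((n : ℝ) ^ 2 + 6 * n - 1) / ((n : ℝ) ^ 2 * ((n : ℝ) + 1) ^ 2)) := by
      field_simp
      ring
    have h20 : 0 ≤ (L + a) ^ j *
        (((n : ℝ) ^ 2 + 6 * n - 1) / ((n : ℝ) ^ 2 * ((n : ℝ) + 1) ^ 2)) := by
      apply mul_nonneg hp0
      apply div_nonneg _ (by positivity)
      nlinarith
    linarith
  linarith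

theorem tTai : TaiStmt := by
  intro j
  have hlog2 : 0 < Real.log 2 := Real.log_pos (by norm_num)
  refine ⟨8 * (1 + (2 * j + 2) / Real.log 2) ^ j, by positivity, ?_⟩
  intro N M hN
  have hN' : (1 : ℝ) ≤ N := by exact_mod_cast hN
  have hL : Real.log 2 ≤ Real.log ((N : ℝ) + 1) :=
    Real.log_le_log (by norm_num) (by linarith)
  have hH : ∀ n, 0 ≤ Tai_H j n := by
    intro n
    unfold Tai_H
    have : 0 ≤ Real.log ((n : ℝ) + 1) := Real.log_nonneg (by
      have : (0 : ℝ) ≤ n := Nat.cast_nonneg n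
      linarith)
    positivity
  have hsum : ∀ k : ℕ, ∑ n ∈ Ico N (N + k), (Real.log ((n : ℝ) + 1)) ^ j / (n : ℝ) ^ 2 ≤
      8 * (Tai_H j N - Tai_H j (N + k)) := by
    intro k
    induction k with
    | zero => simp
    | succ k ih =>
      rw [← add_assoc, Finset.sum_Ico_succ_top (by omega)]
      have := Tai_step j (N + k) (by omega)
      linarith
  have hmain : ∑ n ∈ Icc N M, (Real.log ((n : ℝ) + 1)) ^ j / (n : ℝ) ^ 2 ≤ 8 * Tai_H j N := by
    rcases le_or_gt N (M + 1) with h | h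
    · obtain ⟨k, hk⟩ := Nat.exists_eq_add_of_le h
      have h1 : Icc N M = Ico N (N + k) := by
        ext n
        rw [Finset.mem_Icc, Finset.mem_Ico]
        omega
      rw [h1]
      have h2 := hsum k
      have h3 := hH (N + k)
      linarith
    · have h1 : Icc N M = ∅ := Finset.Icc_eq_empty (by omega)
      rw [h1, Finset.sum_empty]
      have := hH N
      linarith
  refine hmain.trans ?_
  have h4 : Tai_H j N ≤ (1 + (2 * j + 2) / Real.log 2) ^ j * ((Real.log ((N : ℝ) + 1)) ^ j / N) := by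
    unfold Tai_H
    rw [mul_div_assoc', ← mul_pow]
    apply div_le_div_of_nonneg_right _ (by positivity)
    have h6 : 0 ≤ Real.log ((N : ℝ) + 1) := Real.log_nonneg (by linarith)
    apply pow_le_pow_left₀ (by positivity)
    have h5 : (2 * (j : ℝ) + 2) / Real.log 2 * Real.log ((N : ℝ) + 1) ≥ 2 * j + 2 := by
      rw [ge_iff_le, div_mul_eq_mul_div, le_div_iff₀ hlog2]
      exact mul_le_mul_of_nonneg_left hL (by positivity)
    linarith
  linarith

end Pool.Agent.Lib.BV
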