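import Pool.Agent.Lib.BV.SpecC

/-!
MP_00e23e_nt, BV, module Tdy: dyadic sum of 1/phi.
-/

namespace Pool.Agent.Lib.BV

open Finset Pool.Agent.Lib.EH3

lemma Tdy_prod {n : ℕ} (s : Finset ℕ) (hs : s ∈ n.primeFactors.powerset) :
    (((∏ p ∈ s, p).totient : ℕ) : ℝ) = ∏ p ∈ s, ((p : ℝ) - 1) := by
  have hp : ∀ p ∈ s, p.Prime := fun p hp => Nat.prime_of_mem_primeFactors (mem_powerset.1 hs hp)
  have h1 := Nat.totient_mul_prod_primeFactors (∏ p ∈ s, p)
  rw [Nat.primeFactors_prod hp, mul_comm] at h1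
  have h2 : 0 < ∏ p ∈ s, p := Finset.prod_pos fun p h => (hp p h).pos
  have h3 := Nat.eq_of_mul_eq_mul_left h2 h1
  rw [h3, Nat.cast_prod]
  refine Finset.prod_congr rfl fun p h => ?_
  rw [Nat.cast_sub (hp p h).one_lt.le, Nat.cast_one]

lemma Tdy_le (d : ℕ) (hd : 1 ≤ d) :
    (d : ℝ) / (d.totient : ℝ) ≤ ∑ k ∈ d.divisors, 1 / (k.totient : ℝ) := by
  have hφ : (0 : ℝ) < d.totient := by exact_mod_cast Nat.totient_pos.2 hd
  have hp : ∀ p ∈ d.primeFactors, (1 : ℝ) < p := fun p hp => by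
    exact_mod_cast (Nat.prime_of_mem_primeFactors hp).one_lt
  have hpos : (0 : ℝ) < ∏ p ∈ d.primeFactors, ((p : ℝ) - 1) :=
    Finset.prod_pos fun p h => by linarith [hp p h]
  have h1 : (d.totient : ℝ) * ∏ p ∈ d.primeFactors, (p : ℝ) =
      d * ∏ p ∈ d.primeFactors, ((p : ℝ) - 1) := by
    have h2 := Nat.totient_mul_prod_primeFactors d
    have h3 : ((d.totient * ∏ p ∈ d.primeFactors, p : ℕ) : ℝ) =
        ((d * ∏ p ∈ d.primeFactors, (p - 1) : ℕ) : ℝ) := by rw [h2]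
    rw [Nat.cast_mul, Nat.cast_mul, Nat.cast_prod, Nat.cast_prod] at h3
    rw [h3]
    congr 1
    refine Finset.prod_congr rfl fun p h => ?_
    rw [Nat.cast_sub (Nat.prime_of_mem_primeFactors h).one_lt.le, Nat.cast_one]
  have h4 : (d : ℝ) / (d.totient : ℝ) = ∏ p ∈ d.primeFactors, (1 + 1 / ((p : ℝ) - 1)) := by
    have h5 : ∏ p ∈ d.primeFactors, (1 + 1 / ((p : ℝ) - 1)) =
        (∏ p ∈ d.primeFactors, (p : ℝ)) / ∏ p ∈ d.primeFactors, ((p : ℝ) - 1) := by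
      rw [← Finset.prod_div_distrib]
      refine Finset.prod_congr rfl fun p h => ?_
      have h6 : (p : ℝ) - 1 ≠ 0 := by linarith [hp p h]
      field_simp
      ring
    rw [h5, div_eq_div_iff hφ.ne' hpos.ne', ← h1]
    ring
  have h5 : ∀ s ∈ d.primeFactors.powerset, ∏ p ∈ s, (1 / ((p : ℝ) - 1)) =
      1 / (((∏ p ∈ s, p).totient : ℕ) : ℝ) := by
    intro s hs
    rw [Tdy_prod s hs, Finset.prod_div_distrib, Finset.prod_const_one]
  rw [h4, Finset.prod_one_add, Finset.sum_congr rfl h5]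
  have hinj : ∀ s ∈ d.primeFactors.powerset, ∀ t ∈ d.primeFactors.powerset,
      (∏ p ∈ s, p) = (∏ p ∈ t, p) → s = t := by
    intro s hs t ht hst
    have e1 := Nat.primeFactors_prod (s := s)
      (fun p hp => Nat.prime_of_mem_primeFactors (mem_powerset.1 hs hp))
    have e2 := Nat.primeFactors_prod (s := t)
      (fun p hp => Nat.prime_of_mem_primeFactors (mem_powerset.1 ht hp))
    rw [← e1, ← e2, hst]
  rw [← Finset.sum_image (f := fun k : ℕ => 1 / (k.totient : ℝ)) (g := fun s => ∏ p ∈ s, p) hinj]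
  refine sum_le_sum_of_subset_of_nonneg ?_ fun k _ _ => by positivity
  intro k hk
  obtain ⟨s, hs, rfl⟩ := mem_image.1 hk
  refine Nat.mem_divisors.2 ⟨?_, by omega⟩
  exact (Finset.prod_dvd_prod_of_subset _ _ _ (mem_powerset.1 hs)).trans
    (Nat.prod_primeFactors_dvd d)

lemma Tdy_sum (h : TotStmt) (D : ℕ) :
    ∑ d ∈ Icc 1 D, (d : ℝ) / (d.totient : ℝ) ≤ 4 * D := by
  have h1 : ∑ d ∈ Icc 1 D, (d : ℝ) / (d.totient : ℝ) ≤
      ∑ d ∈ Icc 1 D, ∑ k ∈ Icc 1 D, if k ∣ d then 1 / (k.totient : ℝ) else 0 := by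
    refine Finset.sum_le_sum fun d hd => ?_
    obtain ⟨hd1, hd2⟩ := mem_Icc.1 hd
    refine (Tdy_le d hd1).trans ?_
    rw [← Finset.sum_filter]
    refine sum_le_sum_of_subset_of_nonneg ?_ fun k _ _ => by positivity
    intro k hk
    have h2 := Nat.dvd_of_mem_divisors hk
    have h3 := Nat.le_of_dvd hd1 h2
    exact mem_filter.2 ⟨mem_Icc.2 ⟨Nat.pos_of_mem_divisors hk, by omega⟩, h2⟩
  rw [Finset.sum_comm] at h1
  have h2 : ∀ k ∈ Icc 1 D, (∑ d ∈ Icc 1 D, if k ∣ d then 1 / (k.totient : ℝ) else 0) ≤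
      D * (1 / ((k : ℝ) * (k.totient : ℝ))) := by
    intro k hk
    have hk1 := (mem_Icc.1 hk).1
    rw [← Finset.sum_filter, Finset.sum_const, nsmul_eq_mul]
    have h3 : ((Icc 1 D).filter (fun x => k ∣ x)).card = D / k := Nat.Ioc_filter_dvd_card_eq_div D k
    rw [h3]
    have h4 : ((D / k : ℕ) : ℝ) ≤ (D : ℝ) / k := Nat.cast_div_le
    have h5 : (D : ℝ) * (1 / ((k : ℝ) * (k.totient : ℝ))) = (D : ℝ) / k * (1 / (k.totient : ℝ)) := by
      rw [mul_one_div, div_mul_div_comm, mul_one]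
    rw [h5]
    exact mul_le_mul_of_nonneg_right h4 (by positivity)
  refine h1.trans ((Finset.sum_le_sum h2).trans ?_)
  rw [← Finset.mul_sum]
  have h3 := h.2 D
  have h4 : (0 : ℝ) ≤ D := Nat.cast_nonneg _
  nlinarith

theorem tTdy (h : TotStmt) : TdyStmt := by
  intro D
  rcases Nat.eq_zero_or_pos D with h0 | h0
  · subst h0
    simp
  have hD : (0 : ℝ) < D := by exact_mod_cast h0
  have h1 : ∑ d ∈ Ioc (D / 2) D, 1 / (d.totient : ℝ) ≤
      ∑ d ∈ Ioc (D / 2) D, (2 / (D : ℝ)) * ((d : ℝ) / (d.totient : ℝ)) := by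
    refine Finset.sum_le_sum fun d hd => ?_
    obtain ⟨hd1, hd2⟩ := mem_Ioc.1 hd
    have h2 : (D : ℝ) ≤ 2 * d := by
      have : D ≤ 2 * d := by omega
      exact_mod_cast this
    have h3 : (2 / (D : ℝ)) * ((d : ℝ) / (d.totient : ℝ)) =
        (2 * (d : ℝ) / D) * (1 / (d.totient : ℝ)) := by ring
    rw [h3]
    have h4 : 1 ≤ 2 * (d : ℝ) / D := by
      rw [one_le_div hD]
      exact h2
    have h5 : 0 ≤ 1 / (d.totient : ℝ) := by positivity
    nlinarith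
  refine h1.trans ?_
  rw [← Finset.mul_sum]
  have h2 : ∑ d ∈ Ioc (D / 2) D, (d : ℝ) / (d.totient : ℝ) ≤
      ∑ d ∈ Icc 1 D, (d : ℝ) / (d.totient : ℝ) := by
    refine sum_le_sum_of_subset_of_nonneg ?_ fun k _ _ => by positivity
    intro k hk
    obtain ⟨hk1, hk2⟩ := mem_Ioc.1 hk
    exact mem_Icc.2 ⟨by omega, hk2⟩
  have h3 := h2.trans (Tdy_sum h D)
  calc 2 / (D : ℝ) * ∑ d ∈ Ioc (D / 2) D, (d : ℝ) / (d.totient : ℝ) ≤ 2 / (D : ℝ) * (4 * D) :=
        mul_le_mul_of_nonneg_left h3 (by positivity)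
    _ = 8 := by
        field_simp
        norm_num

end Pool.Agent.Lib.BV
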