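import Pool.Agent.Lib.BV.SpecE
import Pool.Agent.Lib.BV.Tdy

/-!
MP_00e23e_nt, BV, module Tdl: the sum of 1/phi over a < d ≤ D.
-/

namespace Pool.Agent.Lib.BV

open Finset Pool.Agent.Lib.EH3

theorem tTdl (h : TotStmt) : TdlStmt := by
  intro a D ha
  have ha' : (0 : ℝ) < a := by exact_mod_cast ha
  have h1 : ∑ d ∈ Ioc a D, 1 / (d.totient : ℝ) ≤
      ∑ d ∈ Ioc a D, (1 / (a : ℝ)) * ((d : ℝ) / (d.totient : ℝ)) := by
    refine Finset.sum_le_sum fun d hd => ?_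
    obtain ⟨hd1, hd2⟩ := mem_Ioc.1 hd
    have h2 : (a : ℝ) ≤ d := by exact_mod_cast hd1.le
    have h3 : (1 / (a : ℝ)) * ((d : ℝ) / (d.totient : ℝ)) =
        ((d : ℝ) / a) * (1 / (d.totient : ℝ)) := by ring
    rw [h3]
    have h4 : 1 ≤ (d : ℝ) / a := by
      rw [one_le_div ha']
      exact h2
    have h5 : 0 ≤ 1 / (d.totient : ℝ) := by positivity
    nlinarith
  refine h1.trans ?_
  rw [← Finset.mul_sum]
  have h2 : ∑ d ∈ Ioc a D, (d : ℝ) / (d.totient : ℝ) ≤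
      ∑ d ∈ Icc 1 D, (d : ℝ) / (d.totient : ℝ) := by
    refine sum_le_sum_of_subset_of_nonneg ?_ fun k _ _ => by positivity
    intro k hk
    obtain ⟨hk1, hk2⟩ := mem_Ioc.1 hk
    exact mem_Icc.2 ⟨by omega, hk2⟩
  have h3 := h2.trans (Tdy_sum h D)
  calc 1 / (a : ℝ) * ∑ d ∈ Ioc a D, (d : ℝ) / (d.totient : ℝ) ≤ 1 / (a : ℝ) * (4 * D) :=
        mul_le_mul_of_nonneg_left h3 (by positivity)
    _ = 4 * ((D : ℝ) / a) := by ring

end Pool.Agent.Lib.BV
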