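import Pool.Agent.Lib.BV.SpecB

/-!
MP_00e23e_nt, Lib/BV, module Tot: sums of 1/φ.
-/

namespace Pool.Agent.Lib.BV

open Finset Pool.Agent.Lib.EH3

/-- a sum over the factorizations of the numbers up to D is at most the square of the sum -/
theorem Tot_sq (G : ℕ → ℝ) (hG : ∀ a, 0 ≤ G a) (D : ℕ) :
    ∑ d ∈ Icc 1 D, ∑ w ∈ d.divisorsAntidiagonal, G w.1 * G w.2 ≤ (∑ a ∈ Icc 1 D, G a) ^ 2 := by
  classical
  have h1 : (∑ a ∈ Icc 1 D, G a) ^ 2 = ∑ w ∈ Icc 1 D ×ˢ Icc 1 D, G w.1 * G w.2 := by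
    rw [sq, Finset.sum_mul_sum, Finset.sum_product]
  rw [h1]
  have h2 : ∑ w ∈ (Icc 1 D ×ˢ Icc 1 D).filter (fun w => w.1 * w.2 ≤ D), G w.1 * G w.2 ≤
      ∑ w ∈ Icc 1 D ×ˢ Icc 1 D, G w.1 * G w.2 :=
    Finset.sum_le_sum_of_subset_of_nonneg (Finset.filter_subset _ _)
      (fun w _ _ => mul_nonneg (hG _) (hG _))
  refine le_trans (le_of_eq ?_) h2
  rw [← Finset.sum_fiberwise_of_maps_to (t := Icc 1 D) (g := fun w : ℕ × ℕ => w.1 * w.2)]
  · refine Finset.sum_congr rfl fun d hd => ?_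
    rw [Finset.mem_Icc] at hd
    refine Finset.sum_congr ?_ fun _ _ => rfl
    ext ⟨a, b⟩
    simp only [Nat.mem_divisorsAntidiagonal, Finset.mem_filter, Finset.mem_product,
      Finset.mem_Icc]
    constructor
    · rintro ⟨h, h0⟩
      have ha : 0 < a := Nat.pos_of_ne_zero (by rintro rfl; omega)
      have hb : 0 < b := Nat.pos_of_ne_zero (by rintro rfl; omega)
      have ha' : a ≤ a * b := Nat.le_mul_of_pos_right a hb
      have hb' : b ≤ a * b := Nat.le_mul_of_pos_left b ha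
      omega
    · rintro ⟨-, h⟩
      omega
  · intro w hw
    simp only [Finset.mem_filter, Finset.mem_product, Finset.mem_Icc] at hw
    rw [Finset.mem_Icc]
    exact ⟨Nat.mul_pos hw.1.1.1 hw.1.2.1, hw.2⟩

theorem Tot_tau (d : ℕ) (hd : 1 ≤ d) : (d : ℝ) ≤ (d.divisors.card : ℝ) * (d.totient : ℝ) := by
  have h1 : d ≤ d.divisors.card * d.totient := by
    conv_lhs => rw [← Nat.sum_totient d]
    rw [← smul_eq_mul]
    refine Finset.sum_le_card_nsmul _ _ _ fun k hk => ?_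
    exact Nat.le_of_dvd (Nat.totient_pos.2 hd)
      (Nat.totient_dvd_of_dvd (Nat.dvd_of_mem_divisors hk))
  exact_mod_cast h1

theorem Tot_phi (d : ℕ) (hd : 1 ≤ d) :
    1 / (d.totient : ℝ) ≤ (d.divisors.card : ℝ) / d := by
  have h1 : (0 : ℝ) < d.totient := by exact_mod_cast Nat.totient_pos.2 hd
  have h2 : (0 : ℝ) < d := by exact_mod_cast hd
  rw [div_le_div_iff₀ h1 h2, one_mul]
  exact Tot_tau d hd

theorem Tot_card (d : ℕ) : (d.divisors.card : ℝ) = ∑ _w ∈ d.divisorsAntidiagonal, (1 : ℝ) := by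
  rw [Nat.sum_divisorsAntidiagonal (fun _ _ => (1 : ℝ)), Finset.sum_const, nsmul_eq_mul, mul_one]

theorem tTot : TotStmt := by
  constructor
  · intro D hD
    have h1 : ∑ a ∈ Icc 1 D, 1 / (a : ℝ) ≤ 1 + Real.log D := by
      have h2 := harmonic_le_one_add_log D
      rw [harmonic_eq_sum_Icc] at h2
      push_cast at h2
      refine le_trans (le_of_eq ?_) h2
      refine Finset.sum_congr rfl fun a _ => ?_
      rw [one_div]
    have h0 : 0 ≤ ∑ a ∈ Icc 1 D, 1 / (a : ℝ) := Finset.sum_nonneg fun a _ => by positivity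
    refine le_trans ?_ (pow_le_pow_left₀ h0 h1 2)
    refine le_trans ?_ (Tot_sq (fun a => 1 / (a : ℝ)) (fun a => by positivity) D)
    refine Finset.sum_le_sum fun d hd => ?_
    rw [Finset.mem_Icc] at hd
    refine (Tot_phi d hd.1).trans (le_of_eq ?_)
    rw [Tot_card, Finset.sum_div]
    refine Finset.sum_congr rfl fun w hw => ?_
    rw [Nat.mem_divisorsAntidiagonal] at hw
    rw [← hw.1]
    push_cast
    rw [one_div_mul_one_div]
  · intro D
    have h1 : ∑ a ∈ Icc 1 D, 1 / (a : ℝ) ^ 2 ≤ 2 := sum_sq_inv_nat D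
    have h0 : 0 ≤ ∑ a ∈ Icc 1 D, 1 / (a : ℝ) ^ 2 := Finset.sum_nonneg fun a _ => by positivity
    have h3 : (∑ a ∈ Icc 1 D, 1 / (a : ℝ) ^ 2) ^ 2 ≤ 4 := by nlinarith
    refine le_trans ?_ h3
    refine le_trans ?_ (Tot_sq (fun a => 1 / (a : ℝ) ^ 2) (fun a => by positivity) D)
    refine Finset.sum_le_sum fun d hd => ?_
    rw [Finset.mem_Icc] at hd
    have h2 : (0 : ℝ) < d := by exact_mod_cast hd.1
    have h4 : 1 / ((d : ℝ) * (d.totient : ℝ)) = (1 / (d : ℝ)) * (1 / (d.totient : ℝ)) := by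
      rw [one_div_mul_one_div]
    rw [h4]
    refine (mul_le_mul_of_nonneg_left (Tot_phi d hd.1) (by positivity)).trans (le_of_eq ?_)
    rw [Tot_card, Finset.sum_div, Finset.mul_sum]
    refine Finset.sum_congr rfl fun w hw => ?_
    rw [Nat.mem_divisorsAntidiagonal] at hw
    rw [one_div_mul_one_div, one_div_mul_one_div, ← mul_pow, ← sq, ← Nat.cast_mul, hw.1]

end Pool.Agent.Lib.BV
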