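import Pool.Agent.Lib.BV.SpecH

/-!
MP_00e23e_nt, directory Lib/BV, module Trl: the trivial lower bound for a Dirichlet L-series in the half plane
of absolute convergence.
-/

namespace Pool.Agent.Lib.BV

open Finset

private theorem Trl_DS0 {q : ℕ} (χ : DirichletCharacter ℂ q) (s : ℂ) :
    DS (chf χ) 0 s = LSeries (fun n : ℕ => χ (n : ZMod q)) s := by
  unfold DS
  apply LSeries_congr
  intro n hn
  simp [chf]

private theorem Trl_zeta (σ : ℝ) (hσ : 1 < σ) :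
    ∑' n : ℕ, 1 / ((n : ℝ) + 1) ^ σ ≤ 1 + 1 / (σ - 1) := by
  have h := ZetaAsymptotics.zeta_limit_aux1 hσ
  have h2 : 0 ≤ ZetaAsymptotics.termTSum σ := tsum_nonneg fun n => ZetaAsymptotics.term_nonneg _ _
  have h3 : 0 ≤ σ * ZetaAsymptotics.termTSum σ := mul_nonneg (by linarith) h2
  linarith

private theorem Trl_norm (f : ℕ → ℂ) (hf : ∀ n, ‖f n‖ ≤ 1) (s : ℂ) (hs : 1 < s.re) :
    ‖LSeries f s‖ ≤ 1 + 1 / (s.re - 1) := by
  have hsum : Summable fun n : ℕ => ‖LSeries.term f s n‖ :=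
    (LSeriesSummable_of_bounded_of_one_lt_re (m := 1) (fun n _ => hf n) hs).norm
  have hz : Summable fun n : ℕ => 1 / ((n : ℝ) + 1) ^ s.re := by
    have := (summable_nat_add_iff 1).mpr (Real.summable_one_div_nat_rpow.mpr hs)
    exact_mod_cast this
  unfold LSeries
  calc ‖∑' n, LSeries.term f s n‖ ≤ ∑' n, ‖LSeries.term f s n‖ := norm_tsum_le_tsum_norm hsum
    _ = ∑' n : ℕ, ‖LSeries.term f s (n + 1)‖ := by
        rw [hsum.tsum_eq_zero_add]; simp
    _ ≤ ∑' n : ℕ, 1 / ((n : ℝ) + 1) ^ s.re := by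
        apply Summable.tsum_le_tsum _ ((summable_nat_add_iff 1).mpr hsum) hz
        intro n
        rw [LSeries.norm_term_eq, if_neg (Nat.succ_ne_zero n)]
        have h1 : (0 : ℝ) < ((n : ℝ) + 1) ^ s.re := Real.rpow_pos_of_pos (by positivity) _
        push_cast
        gcongr
        exact hf _
    _ ≤ _ := Trl_zeta _ hs

theorem tTrl : TrlStmt := by
  intro q χ s hq h1 h2
  rw [Trl_DS0]
  have hm := DirichletCharacter.LSeries.mul_mu_eq_one χ h1
  have hn := congrArg norm hm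
  rw [norm_mul, norm_one] at hn
  have hb : ‖LSeries ((fun n : ℕ => χ (n : ZMod q)) *
      (fun n : ℕ => ((ArithmeticFunction.moebius n : ℤ) : ℂ))) s‖ ≤ 1 + 1 / (s.re - 1) := by
    apply Trl_norm _ _ s h1
    intro n
    simp only [Pi.mul_apply, norm_mul]
    have ha : ‖χ (n : ZMod q)‖ ≤ 1 := χ.norm_le_one _
    have hc : ‖((ArithmeticFunction.moebius n : ℤ) : ℂ)‖ ≤ 1 := by
      rw [Complex.norm_intCast]
      exact_mod_cast ArithmeticFunction.abs_moebius_le_one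
    calc ‖χ (n : ZMod q)‖ * ‖((ArithmeticFunction.moebius n : ℤ) : ℂ)‖ ≤ 1 * 1 :=
          mul_le_mul ha hc (norm_nonneg _) zero_le_one
      _ = 1 := one_mul 1
  have hd : 0 < s.re - 1 := by linarith
  have hL : 0 ≤ ‖LSeries (fun n : ℕ => χ (n : ZMod q)) s‖ := norm_nonneg _
  have h3 : (1 : ℝ) ≤ ‖LSeries (fun n : ℕ => χ (n : ZMod q)) s‖ * (1 + 1 / (s.re - 1)) :=
    hn.symm.le.trans (mul_le_mul_of_nonneg_left hb hL)
  have h4 : 1 + 1 / (s.re - 1) ≤ 2 / (s.re - 1) := by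
    rw [le_div_iff₀ hd, add_mul, one_div_mul_cancel hd.ne']
    linarith
  have h5 : (1 : ℝ) ≤ ‖LSeries (fun n : ℕ => χ (n : ZMod q)) s‖ * (2 / (s.re - 1)) :=
    h3.trans (mul_le_mul_of_nonneg_left h4 hL)
  rw [← mul_div_assoc, le_div_iff₀ hd] at h5
  linarith

end Pool.Agent.Lib.BV
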