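import Pool.Agent.Lib.BV.SpecH

/-!
MP_00e23e_nt, BV, module Trv: the Dirichlet series of the principal character.
-/

namespace Pool.Agent.Lib.BV

open Finset

lemma Trv_split (q : ℕ) (hq : 1 ≤ q) (s : ℂ) (hs : 1 < s.re) :
    DS (chf (1 : DirichletCharacter ℂ q)) 0 s =
      DS (fun n => chf (1 : DirichletCharacter ℂ q) n - (q.totient : ℂ) / q) 0 s +
        (q.totient : ℂ) / q * DS (fun _ => 1) 0 s := by
  have h1 : DS (chf (1 : DirichletCharacter ℂ q)) 0 s =
      LSeries (chf (1 : DirichletCharacter ℂ q)) s := by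
    unfold DS
    simp only [pow_zero, mul_one]
  have h2 : DS (fun n => chf (1 : DirichletCharacter ℂ q) n - (q.totient : ℂ) / q) 0 s =
      LSeries (chf (1 : DirichletCharacter ℂ q) - fun _ => (q.totient : ℂ) / q) s := by
    unfold DS
    simp only [pow_zero, mul_one]
    rfl
  have h3 : DS (fun _ => 1) 0 s = LSeries (fun _ => 1) s := by
    unfold DS
    simp only [pow_zero, mul_one]
  have h4 : (fun _ : ℕ => (q.totient : ℂ) / q) = ((q.totient : ℂ) / q) • (fun _ : ℕ => (1 : ℂ)) := by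
    funext n
    simp
  have s1 : LSeriesSummable (chf (1 : DirichletCharacter ℂ q)) s :=
    LSeriesSummable_of_bounded_of_one_lt_re (m := 1)
      (fun n _ => DirichletCharacter.norm_le_one _ _) hs
  have s2 : LSeriesSummable (fun _ : ℕ => (q.totient : ℂ) / q) s :=
    LSeriesSummable_of_bounded_of_one_lt_re (m := ‖(q.totient : ℂ) / q‖)
      (fun n _ => le_rfl) hs
  rw [h1, h2, h3, LSeries_sub s1 s2]
  have h5 : LSeries (fun _ : ℕ => (q.totient : ℂ) / q) s =
      (q.totient : ℂ) / q * LSeries (fun _ => 1) s := by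
    rw [h4, LSeries_smul]
  rw [h5]
  ring

theorem tTrv (h1 : SerStmt) (h2 : ZseStmt) (h3 : ChbStmt) : TrvStmt := by
  obtain ⟨C1, hC1, H1⟩ := h1 0
  obtain ⟨C2, hC2, H2⟩ := h2 0
  refine ⟨C1 + C2 + 1, by positivity, fun q s hq hs1 hs2 => ?_⟩
  have hq0 : (0 : ℝ) < q := by exact_mod_cast (by omega : 0 < q)
  have hq2 : (2 : ℝ) ≤ q := by exact_mod_cast hq
  have e1 := H1 _ q s hq2 (h3.2 q (by omega)) hs1 hs2
  have e2 := H2 s hs1 hs2
  simp only [zero_add, pow_one, Nat.factorial_zero, Nat.cast_one] at e1 e2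
  have hell : ell 2 s.im ≤ ell q s.im := by
    unfold ell
    refine Real.log_le_log (by positivity) ?_
    exact mul_le_mul_of_nonneg_right hq2 (by positivity)
  have hell0 : 0 ≤ ell q s.im := by
    unfold ell
    refine Real.log_nonneg ?_
    have : 0 ≤ |s.im| := abs_nonneg _
    nlinarith
  have hn : ‖(q.totient : ℂ) / q‖ ≤ 1 := by
    rw [norm_div, Complex.norm_natCast, Complex.norm_natCast, div_le_one hq0]
    exact_mod_cast Nat.totient_le q
  have e3 : ‖DS (fun _ => 1) 0 s‖ ≤ 1 / ‖s - 1‖ + C2 * ell q s.im := by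
    have e4 : DS (fun _ => 1) 0 s = (DS (fun _ => 1) 0 s - 1 / (s - 1)) + 1 / (s - 1) := by ring
    rw [e4]
    refine (norm_add_le _ _).trans ?_
    have e5 : ‖(1 : ℂ) / (s - 1)‖ = 1 / ‖s - 1‖ := by rw [norm_div, norm_one]
    rw [e5]
    have e6 : C2 * ell 2 s.im ≤ C2 * ell q s.im := mul_le_mul_of_nonneg_left hell hC2.le
    linarith
  rw [Trv_split q (by omega) s hs1]
  refine (norm_add_le _ _).trans ?_
  rw [norm_mul]
  have e7 : ‖(q.totient : ℂ) / q‖ * ‖DS (fun _ => 1) 0 s‖ ≤ 1 / ‖s - 1‖ + C2 * ell q s.im :=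
    (mul_le_of_le_one_left (norm_nonneg _) hn).trans e3
  have e8 : 0 ≤ 1 / ‖s - 1‖ := by positivity
  have e9 : 0 ≤ C1 * (1 / ‖s - 1‖) := mul_nonneg hC1.le e8
  have e10 : 0 ≤ C2 * (1 / ‖s - 1‖) := mul_nonneg hC2.le e8
  have e11 : (C1 + C2 + 1) * (1 / ‖s - 1‖ + ell q s.im) = C1 * (1 / ‖s - 1‖) +
      C2 * (1 / ‖s - 1‖) + 1 / ‖s - 1‖ + C1 * ell q s.im + C2 * ell q s.im + ell q s.im := by ring
  rw [e11]
  linarith

end Pool.Agent.Lib.BV
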