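import Pool.Agent.Lib.BV.SpecD

/-!
MP_00e23e_nt, Lib/BV, module Ty2: the type II sum over all blocks, sharper form.
-/

namespace Pool.Agent.Lib.BV

open Finset Pool.Agent.Lib.EH3

private theorem Ty2_del_sum {ι : Type} (s : Finset ι) (c : ℕ → Prop) (F : ι → ℕ → ℂ)
    (N d l : ℕ) : del c (fun n => ∑ i ∈ s, F i n) N d l = ∑ i ∈ s, del c (F i) N d l := by
  unfold del
  rw [← Finset.mul_sum]
  congr 1
  rw [Finset.sum_comm]
  refine Finset.sum_congr rfl fun χ _ => ?_
  rw [← Finset.mul_sum]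
  congr 1
  unfold cs
  rw [Finset.sum_comm]
  exact Finset.sum_congr rfl fun n _ => Finset.sum_mul _ _ _

private theorem Ty2_blk_ne {P n : ℕ} (h : blk P n ≠ 0) : P < n ∧ n ≤ 2 * P := by
  unfold blk at h
  split_ifs at h with h1
  · exact h1.2
  · exact absurd rfl h

private theorem Ty2_bj_ne {P j n : ℕ} (h : bj P j n ≠ 0) :
    2 ^ j * P < n ∧ n ≤ 2 ^ (j + 1) * P := by
  unfold bj at h
  split_ifs at h with h1
  · exact h1
  · exact absurd rfl h

/-- the support of one block -/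
private theorem Ty2_supp (h2 : GriStmt) (x η y : ℝ) (P j n : ℕ) (hx : 4 ≤ x) (hη : 0 < η)
    (hη2 : η ≤ 1 / 2) (hP : 1 ≤ P) (hy : y ≤ x) (hn : FJ η (cut η y P j) P j n ≠ 0) :
    n ≤ 4 * ⌊x⌋₊ := by
  have h1 : ∃ w ∈ n.divisorsAntidiagonal, (if gi η P w.1 + gi η (2 ^ j * P) w.2 < cut η y P j then
      blk P w.1 * bj P j w.2 else 0) ≠ 0 := by
    by_contra hcon
    push Not at hcon
    exact hn (Finset.sum_eq_zero hcon)
  obtain ⟨w, hw, hne⟩ := h1
  have hw1 := (Nat.mem_divisorsAntidiagonal.1 hw).1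
  by_cases hT : gi η P w.1 + gi η (2 ^ j * P) w.2 < cut η y P j
  · rw [if_pos hT] at hne
    have ha := Ty2_blk_ne (left_ne_zero_of_mul hne)
    have hb := Ty2_bj_ne (right_ne_zero_of_mul hne)
    have h3 := (h2 η y P j w.1 w.2 hη hP ha.1 ha.2 hb.1 hb.2).2.1 hT
    have h4 : (n : ℝ) = (w.1 : ℝ) * w.2 := by
      rw [← hw1]
      push_cast
      rfl
    have h5 : Real.exp (2 * η) ≤ 3 := by
      have e1 : Real.exp (2 * η) ≤ Real.exp 1 := Real.exp_le_exp.2 (by linarith)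
      have e2 := Real.exp_one_lt_d9
      linarith
    have h6 : (n : ℝ) ≤ x * 3 := by
      rw [h4]
      refine h3.trans ?_
      calc y * Real.exp (2 * η) ≤ x * Real.exp (2 * η) :=
            mul_le_mul_of_nonneg_right hy (Real.exp_pos _).le
        _ ≤ x * 3 := mul_le_mul_of_nonneg_left h5 (by linarith)
    have h7 : x < (⌊x⌋₊ : ℝ) + 1 := Nat.lt_floor_add_one x
    have h8 : (n : ℝ) ≤ ((4 * ⌊x⌋₊ : ℕ) : ℝ) := by
      push_cast
      linarith
    exact_mod_cast h8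
  · rw [if_neg hT] at hne
    exact absurd rfl hne

/-- the geometric sum -/
private theorem Ty2_geo (x : ℝ) (P : ℕ) (J : ℕ) :
    (∑ j ∈ range J, if (2 : ℝ) ^ j * (P : ℝ) ^ 2 ≤ x then Real.sqrt ((2 : ℝ) ^ j) * (P : ℝ) else 0) ≤
      (Real.sqrt 2 + 1) * (Real.sqrt ((2 : ℝ) ^ J) * (P : ℝ)) ∧
    (∑ j ∈ range J, if (2 : ℝ) ^ j * (P : ℝ) ^ 2 ≤ x then Real.sqrt ((2 : ℝ) ^ j) * (P : ℝ) else 0) ≤
      4 * Real.sqrt x := by
  have h2 : Real.sqrt 2 ^ 2 = 2 := Real.sq_sqrt (by norm_num)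
  have h20 : 0 ≤ Real.sqrt 2 := Real.sqrt_nonneg 2
  have h22 : Real.sqrt 2 ≤ 2 := by nlinarith
  induction J with
  | zero =>
    rw [Finset.sum_range_zero]
    exact ⟨by positivity, by positivity⟩
  | succ J ih =>
    rw [Finset.sum_range_succ]
    have hP0 : (0 : ℝ) ≤ P := Nat.cast_nonneg P
    set a : ℝ := Real.sqrt ((2 : ℝ) ^ J) * (P : ℝ) with ha
    have ha0 : 0 ≤ a := by positivity
    have hs : Real.sqrt ((2 : ℝ) ^ (J + 1)) * (P : ℝ) = Real.sqrt 2 * a := by
      rw [ha, pow_succ, Real.sqrt_mul (by positivity)]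
      ring
    rw [hs]
    have h1s : 1 ≤ Real.sqrt 2 := by
      rw [Real.one_le_sqrt]
      norm_num
    by_cases hc : (2 : ℝ) ^ J * (P : ℝ) ^ 2 ≤ x
    · rw [if_pos hc]
      have hax : a ≤ Real.sqrt x := by
        apply Real.le_sqrt_of_sq_le
        rw [ha, mul_pow, Real.sq_sqrt (by positivity)]
        exact hc
      constructor
      · have e1 : (Real.sqrt 2 + 1) * (Real.sqrt 2 * a) = (Real.sqrt 2 + 1) * a + a := by
          have : (Real.sqrt 2 + 1) * (Real.sqrt 2 * a) = (Real.sqrt 2 ^ 2 + Real.sqrt 2) * a := by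
            ring
          rw [this, h2]
          ring
        rw [e1]
        linarith [ih.1]
      · have e1 : (Real.sqrt 2 + 1) * a + a ≤ 4 * a := by nlinarith
        linarith [ih.1]
    · rw [if_neg hc, add_zero]
      refine ⟨ih.1.trans ?_, ih.2⟩
      have e1 : a ≤ Real.sqrt 2 * a := le_mul_of_one_le_left ha0 h1s
      exact mul_le_mul_of_nonneg_left e1 (by positivity)

theorem tTy2 (h1 : TyjStmt) (h2 : GriStmt) : Ty2Stmt := by
  obtain ⟨C, hC, hT⟩ := h1
  refine ⟨4 * C, by positivity, ?_⟩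
  intro x η z K J Q D y l hx hη hη2 hz hQ hD hy
  have hz0 : (0 : ℝ) < z := by exact_mod_cast (by omega : 0 < z)
  have hz2 : (2 : ℝ) ≤ z := by exact_mod_cast hz
  have hQ0 : (0 : ℝ) < Q := by exact_mod_cast (by omega : 0 < Q)
  have hlogz : 0 < Real.log z := Real.log_pos (by linarith)
  have hlogD : 0 ≤ Real.log D := Real.log_natCast_nonneg D
  have hlogη : 0 ≤ Real.log (1 / η) := by
    apply Real.log_nonneg
    rw [le_div_iff₀ hη]
    linarith
  have hx0 : 0 < x := by linarith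
  set B : ℝ := (1 + Real.log D) ^ 2 * (Real.sqrt x / Q + Real.sqrt (x / z) * (1 + Real.log D)) + D
    with hB
  have hB0 : 0 ≤ B := by positivity
  -- one block
  have hblk : ∀ k ∈ range K, ∀ j ∈ range J,
      ∑ d ∈ Icc 1 D, ‖del (fun c => Q < c)
        (fun n => (FJ η (cut η (y d) (z * 2 ^ k) j) (z * 2 ^ k) j n : ℂ)) (4 * ⌊x⌋₊) d (l d)‖ ≤
      (C * (1 + Real.log (1 / η)) * B / Real.log ((z : ℝ) * 2 ^ k)) *
        (if (2 : ℝ) ^ j * ((z * 2 ^ k : ℕ) : ℝ) ^ 2 ≤ x then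
          Real.sqrt ((2 : ℝ) ^ j) * ((z * 2 ^ k : ℕ) : ℝ) else 0) := by
    intro k _ j _
    have hcast : (z : ℝ) * 2 ^ k = ((z * 2 ^ k : ℕ) : ℝ) := by push_cast; ring
    rw [hcast]
    set P : ℕ := z * 2 ^ k with hP
    have hzP : z ≤ P := Nat.le_mul_of_pos_right z (by positivity)
    have hP2 : 2 ≤ P := hz.trans hzP
    have hzP' : (z : ℝ) ≤ P := by exact_mod_cast hzP
    have hP0 : (0 : ℝ) < P := by linarith
    by_cases hc : (2 : ℝ) ^ j * (P : ℝ) ^ 2 ≤ x
    · rw [if_pos hc]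
      refine (hT x η P j Q D (4 * ⌊x⌋₊) (fun d => cut η (y d) P j) l hη hη2 hP2 hc hQ hD
        (fun d n hn => Ty2_supp h2 x η (y d) P j n hx hη hη2 (by omega) (hy d) hn)).trans ?_
      have e1 : Real.log z ≤ Real.log P := Real.log_le_log hz0 hzP'
      have e2 : Real.sqrt (x / P) ≤ Real.sqrt (x / z) := by
        apply Real.sqrt_le_sqrt
        exact div_le_div_of_nonneg_left hx0.le hz0 hzP'
      have e3 : (1 + Real.log D) ^ 2 * (Real.sqrt x / Q + Real.sqrt (x / P) * (1 + Real.log D)) +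
          D ≤ B := by
        rw [hB]
        have e4 : Real.sqrt (x / P) * (1 + Real.log D) ≤ Real.sqrt (x / z) * (1 + Real.log D) :=
          mul_le_mul_of_nonneg_right e2 (by linarith)
        have e5 : (1 + Real.log D) ^ 2 *
            (Real.sqrt x / Q + Real.sqrt (x / P) * (1 + Real.log D)) ≤ (1 + Real.log D) ^ 2 *
            (Real.sqrt x / Q + Real.sqrt (x / z) * (1 + Real.log D)) :=
          mul_le_mul_of_nonneg_left (by linarith) (by positivity)
        linarith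
      have e8 : 0 < Real.log P := lt_of_lt_of_le hlogz e1
      calc C * (1 + Real.log (1 / η)) * (Real.sqrt ((2 : ℝ) ^ j) * (P : ℝ) / Real.log P) *
            ((1 + Real.log D) ^ 2 * (Real.sqrt x / Q + Real.sqrt (x / P) * (1 + Real.log D)) + D)
          ≤ C * (1 + Real.log (1 / η)) * (Real.sqrt ((2 : ℝ) ^ j) * (P : ℝ) / Real.log P) * B :=
            mul_le_mul_of_nonneg_left e3 (by positivity)
        _ = (C * (1 + Real.log (1 / η)) * B / Real.log P) *
            (Real.sqrt ((2 : ℝ) ^ j) * (P : ℝ)) := by ring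
    · rw [if_neg hc, mul_zero]
      refine le_of_eq (Finset.sum_eq_zero fun d _ => ?_)
      have e1 : cut η (y d) P j = 0 := by
        unfold cut
        rw [if_neg]
        intro h
        exact hc (h.trans (hy d))
      have e2 : (fun n => (FJ η (cut η (y d) P j) P j n : ℂ)) = fun _ => 0 := by
        funext n
        rw [e1]
        unfold FJ
        rw [Finset.sum_eq_zero]
        · exact Complex.ofReal_zero
        · intro w _
          exact if_neg (Nat.not_lt_zero _)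
      rw [e2]
      unfold del cs
      simp
  -- all blocks
  have hall : ∀ d ∈ Icc 1 D,
      ‖del (fun c => Q < c) (fun n => (FY η z K J (y d) n : ℂ)) (4 * ⌊x⌋₊) d (l d)‖ ≤
      ∑ k ∈ range K, ∑ j ∈ range J, ‖del (fun c => Q < c)
        (fun n => (FJ η (cut η (y d) (z * 2 ^ k) j) (z * 2 ^ k) j n : ℂ)) (4 * ⌊x⌋₊) d (l d)‖ := by
    intro d _
    have e1 : (fun n => (FY η z K J (y d) n : ℂ)) = fun n => ∑ k ∈ range K,
        (fun k n => ∑ j ∈ range J, (fun j n =>
          (FJ η (cut η (y d) (z * 2 ^ k) j) (z * 2 ^ k) j n : ℂ)) j n) k n := by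
      funext n
      unfold FY
      rw [Complex.ofReal_sum]
      exact Finset.sum_congr rfl fun k _ => Complex.ofReal_sum _ _
    rw [e1, Ty2_del_sum]
    refine (norm_sum_le _ _).trans (Finset.sum_le_sum fun k _ => ?_)
    dsimp only
    rw [Ty2_del_sum (range J) (fun c => Q < c) (fun j n =>
      (FJ η (cut η (y d) (z * 2 ^ k) j) (z * 2 ^ k) j n : ℂ))]
    exact norm_sum_le _ _
  refine (Finset.sum_le_sum hall).trans ?_
  rw [Finset.sum_comm]
  have hk : ∀ k ∈ range K, ∑ d ∈ Icc 1 D, ∑ j ∈ range J, ‖del (fun c => Q < c)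
        (fun n => (FJ η (cut η (y d) (z * 2 ^ k) j) (z * 2 ^ k) j n : ℂ)) (4 * ⌊x⌋₊) d (l d)‖ ≤
      4 * C * (1 + Real.log (1 / η)) * Real.sqrt x * B * (1 / Real.log ((z : ℝ) * 2 ^ k)) := by
    intro k hk
    rw [Finset.sum_comm]
    refine (Finset.sum_le_sum fun j hj => hblk k hk j hj).trans ?_
    rw [← Finset.mul_sum]
    have h3 : 0 < Real.log ((z : ℝ) * 2 ^ k) := by
      refine hlogz.trans_le (Real.log_le_log hz0 ?_)
      exact le_mul_of_one_le_right hz0.le (one_le_pow₀ (by norm_num))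
    calc C * (1 + Real.log (1 / η)) * B / Real.log ((z : ℝ) * 2 ^ k) *
          ∑ i ∈ range J, (if (2 : ℝ) ^ i * ((z * 2 ^ k : ℕ) : ℝ) ^ 2 ≤ x then
            Real.sqrt ((2 : ℝ) ^ i) * ((z * 2 ^ k : ℕ) : ℝ) else 0)
        ≤ C * (1 + Real.log (1 / η)) * B / Real.log ((z : ℝ) * 2 ^ k) * (4 * Real.sqrt x) :=
          mul_le_mul_of_nonneg_left (Ty2_geo x (z * 2 ^ k) J).2 (by positivity)
      _ = 4 * C * (1 + Real.log (1 / η)) * Real.sqrt x * B * (1 / Real.log ((z : ℝ) * 2 ^ k)) := by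
          ring
  refine (Finset.sum_le_sum hk).trans (le_of_eq ?_)
  rw [← Finset.mul_sum]
  ring

end Pool.Agent.Lib.BV
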