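import Pool.Agent.Lib.BV.SpecC

/-!
MP_00e23e_nt, Lib/BV, module Tyj: the type II sum for one block (separated variables).
-/

namespace Pool.Agent.Lib.BV

open Finset Pool.Agent.Lib.EH3

private theorem Tyj_s4 (y : ℝ) : Real.sqrt (4 * y) = 2 * Real.sqrt y := by
  rw [Real.sqrt_mul (by norm_num), show (4 : ℝ) = 2 ^ 2 by norm_num,
    Real.sqrt_sq (by norm_num)]

/-- the bound for the factor in the bilinear estimate -/
private theorem Tyj_fac (x : ℝ) (P j Q D e : ℕ) (hP : 2 ≤ P)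
    (hPx : (2 : ℝ) ^ j * (P : ℝ) ^ 2 ≤ x) (hQ : 1 ≤ Q) (he : 1 ≤ e) :
    Real.sqrt (((2 * P : ℕ) : ℝ) * ((2 ^ (j + 1) * P : ℕ) : ℝ)) / Q +
      (Real.sqrt ((2 * P : ℕ) : ℝ) + Real.sqrt ((2 ^ (j + 1) * P : ℕ) : ℝ)) *
        (1 + Real.log ((D / e : ℕ) : ℝ)) + ((D / e : ℕ) : ℝ) ≤
      4 * (Real.sqrt x / Q + Real.sqrt (x / P) * (1 + Real.log D)) + (D : ℝ) / e := by
  have hP0 : (0 : ℝ) < P := by exact_mod_cast (by omega : 0 < P)
  have hQ0 : (0 : ℝ) < Q := by exact_mod_cast (by omega : 0 < Q)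
  have he0 : (0 : ℝ) < e := by exact_mod_cast (by omega : 0 < e)
  have hj1 : (1 : ℝ) ≤ 2 ^ j := one_le_pow₀ (by norm_num)
  have hx0 : 0 < x := lt_of_lt_of_le (by positivity) hPx
  have hxP : 0 ≤ x / P := by positivity
  have hPP : (2 : ℝ) ^ j * P ≤ x / P := by
    rw [le_div_iff₀ hP0]
    nlinarith
  have hP1 : (P : ℝ) ≤ (2 : ℝ) ^ j * P := le_mul_of_one_le_left hP0.le hj1
  have e1 : Real.sqrt (((2 * P : ℕ) : ℝ) * ((2 ^ (j + 1) * P : ℕ) : ℝ)) ≤ 4 * Real.sqrt x := by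
    have h1 : Real.sqrt (((2 * P : ℕ) : ℝ) * ((2 ^ (j + 1) * P : ℕ) : ℝ)) ≤
        Real.sqrt (4 * x) := by
      apply Real.sqrt_le_sqrt
      push_cast
      calc 2 * (P : ℝ) * (2 ^ (j + 1) * (P : ℝ)) = 4 * ((2 : ℝ) ^ j * (P : ℝ) ^ 2) := by ring
        _ ≤ 4 * x := by linarith
    rw [Tyj_s4] at h1
    have h2 := Real.sqrt_nonneg x
    linarith
  have e2 : Real.sqrt ((2 * P : ℕ) : ℝ) ≤ 2 * Real.sqrt (x / P) := by
    rw [← Tyj_s4]
    apply Real.sqrt_le_sqrt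
    push_cast
    linarith
  have e3 : Real.sqrt ((2 ^ (j + 1) * P : ℕ) : ℝ) ≤ 2 * Real.sqrt (x / P) := by
    rw [← Tyj_s4]
    apply Real.sqrt_le_sqrt
    push_cast
    have h1 : (2 : ℝ) ^ (j + 1) * P = 2 * ((2 : ℝ) ^ j * P) := by ring
    rw [h1]
    linarith
  have e4 : ((D / e : ℕ) : ℝ) ≤ (D : ℝ) / e := Nat.cast_div_le
  have e5 : Real.log ((D / e : ℕ) : ℝ) ≤ Real.log D := by
    rcases Nat.eq_zero_or_pos (D / e) with h | h
    · rw [h]
      simp only [Nat.cast_zero, Real.log_zero]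
      exact Real.log_natCast_nonneg D
    · apply Real.log_le_log (by exact_mod_cast h)
      exact_mod_cast Nat.div_le_self D e
  have e6 : 0 ≤ Real.log ((D / e : ℕ) : ℝ) := Real.log_natCast_nonneg _
  have e7 : (Real.sqrt ((2 * P : ℕ) : ℝ) + Real.sqrt ((2 ^ (j + 1) * P : ℕ) : ℝ)) *
        (1 + Real.log ((D / e : ℕ) : ℝ)) ≤ (4 * Real.sqrt (x / P)) * (1 + Real.log D) := by
    apply mul_le_mul _ _ _ _
    · linarith
    · linarith
    · linarith
    · positivity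
  have e8 : Real.sqrt (((2 * P : ℕ) : ℝ) * ((2 ^ (j + 1) * P : ℕ) : ℝ)) / Q ≤
      4 * (Real.sqrt x / Q) := by
    rw [← mul_div_assoc]
    exact div_le_div_of_nonneg_right e1 hQ0.le
  linarith

private theorem Tyj_swap (s t : Finset ℕ) (u : ℕ → Finset ℕ) (a b : ℕ → ℝ)
    (F : (d q : ℕ) → DirichletCharacter ℂ q → ℕ → ℝ) :
    ∑ d ∈ s, b d * ∑ q ∈ u d, ∑ χ ∈ prim q, ∑ h ∈ t, a h * F d q χ h =
      ∑ h ∈ t, a h * ∑ d ∈ s, b d * ∑ q ∈ u d, ∑ χ ∈ prim q, F d q χ h := by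
  have h1 : ∀ d ∈ s, b d * ∑ q ∈ u d, ∑ χ ∈ prim q, ∑ h ∈ t, a h * F d q χ h =
      ∑ h ∈ t, a h * (b d * ∑ q ∈ u d, ∑ χ ∈ prim q, F d q χ h) := by
    intro d _
    have h2 : ∑ q ∈ u d, ∑ χ ∈ prim q, ∑ h ∈ t, a h * F d q χ h =
        ∑ h ∈ t, a h * ∑ q ∈ u d, ∑ χ ∈ prim q, F d q χ h := by
      have h3 : ∀ q ∈ u d, ∑ χ ∈ prim q, ∑ h ∈ t, a h * F d q χ h =
          ∑ h ∈ t, a h * ∑ χ ∈ prim q, F d q χ h := by
        intro q _
        rw [Finset.sum_comm]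
        exact Finset.sum_congr rfl fun h _ => (Finset.mul_sum _ _ _).symm
      rw [Finset.sum_congr rfl h3, Finset.sum_comm]
      exact Finset.sum_congr rfl fun h _ => (Finset.mul_sum _ _ _).symm
    rw [h2, Finset.mul_sum]
    exact Finset.sum_congr rfl fun h _ => by ring
  rw [Finset.sum_congr rfl h1, Finset.sum_comm]
  exact Finset.sum_congr rfl fun h _ => (Finset.mul_sum _ _ _).symm

private theorem Tyj_log (η : ℝ) (hη : 0 < η) (hη2 : η ≤ 1 / 2) :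
    4 * (1 + Real.log ((⌊Real.log 2 / η⌋₊ : ℝ) + 1)) ≤ 8 * (1 + Real.log (1 / η)) := by
  have h2 : (2 : ℝ) ≤ 1 / η := by
    rw [le_div_iff₀ hη]
    linarith
  have hl2 : Real.log 2 ≤ 1 := by
    have := Real.log_two_lt_d9
    linarith
  have hl2' : 0 ≤ Real.log 2 := Real.log_nonneg (by norm_num)
  have h3 : (⌊Real.log 2 / η⌋₊ : ℝ) ≤ 1 / η :=
    (Nat.floor_le (div_nonneg hl2' hη.le)).trans (div_le_div_of_nonneg_right hl2 hη.le)
  have h4 : Real.log ((⌊Real.log 2 / η⌋₊ : ℝ) + 1) ≤ Real.log (2 * (1 / η)) := by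
    apply Real.log_le_log
    · have : (0 : ℝ) ≤ (⌊Real.log 2 / η⌋₊ : ℝ) := Nat.cast_nonneg _
      linarith
    · linarith
  rw [Real.log_mul (by norm_num) (by positivity)] at h4
  have h5 : 0 ≤ Real.log (1 / η) := Real.log_nonneg (by linarith)
  linarith

private theorem Tyj_dec (s : Finset ℕ) (p : ℕ → Prop) (i1 i2 : DecidablePred p) :
    @Finset.filter ℕ p i1 s = @Finset.filter ℕ p i2 s := by
  have h : i1 = i2 := Subsingleton.elim _ _
  rw [h]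

theorem tTyj (h1 : SewStmt) (h2 : NrwStmt) (h3 : InjStmt) (h4 : Pr2Stmt) (h5 : BilStmt)
    (h6 : TotStmt) : TyjStmt := by
  obtain ⟨C, hC, hN⟩ := h2
  refine ⟨6400 * C, by positivity, ?_⟩
  intro x η P j Q D N T l hη hη2 hP hPx hQ hD hFN
  have hP0 : (0 : ℝ) < P := by exact_mod_cast (by omega : 0 < P)
  have hP2 : (2 : ℝ) ≤ P := by exact_mod_cast hP
  have hQ0 : (0 : ℝ) < Q := by exact_mod_cast (by omega : 0 < Q)
  have hlogP : 0 < Real.log P := Real.log_pos (by linarith)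
  have hlogD : 0 ≤ Real.log D := Real.log_natCast_nonneg D
  set N1 : ℕ := ⌊Real.log 2 / η⌋₊ with hN1
  set K : ℝ := C * (Real.sqrt ((2 : ℝ) ^ j) * (P : ℝ) / Real.log P) with hK
  have hK0 : 0 ≤ K := by positivity
  set S : ℝ := Real.sqrt x / Q + Real.sqrt (x / P) * (1 + Real.log D) with hS
  have hS0 : 0 ≤ S := by positivity
  obtain ⟨g, hg0, hg1, hg2⟩ := h1 η P j hη (by omega)
  rw [← hN1] at hg1 hg2
  -- the character sums of one modulus
  have hcs : ∀ (d q : ℕ) (χ : DirichletCharacter ℂ q),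
      ‖cs (fun n => (FJ η (T d) P j n : ℂ)) N d χ‖ ≤
      ∑ h ∈ range (2 * N1 + 2), g h * (‖cs (aw η N1 P h) (2 * P) d χ‖ *
        ‖cs (bw η N1 P j h) (2 ^ (j + 1) * P) d χ‖) := by
    intro d q χ
    obtain ⟨c, hc1, hc2⟩ := hg2 (T d) N (hFN d)
    rw [hc2 d q χ]
    refine (norm_sum_le _ _).trans (Finset.sum_le_sum fun h hh => ?_)
    rw [norm_mul, norm_mul]
    exact mul_le_mul_of_nonneg_right (hc1 h hh) (by positivity)
  have hd : ∀ d ∈ Icc 1 D,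
      ‖del (fun c => Q < c) (fun n => (FJ η (T d) P j n : ℂ)) N d (l d)‖ ≤
      (1 / (d.totient : ℝ)) * ∑ q ∈ d.divisors.filter (fun q => Q < q), ∑ χ ∈ prim q,
        ∑ h ∈ range (2 * N1 + 2), g h * (‖cs (aw η N1 P h) (2 * P) d χ‖ *
        ‖cs (bw η N1 P j h) (2 ^ (j + 1) * P) d χ‖) := by
    intro d hd
    have e := h3 (fun c => Q < c) (fun n => (FJ η (T d) P j n : ℂ)) N d (l d)
      (Finset.mem_Icc.1 hd).1
    rw [Tyj_dec d.divisors (fun c => Q < c) _ (fun c => Nat.decLt Q c)] at e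
    refine e.trans ?_
    refine mul_le_mul_of_nonneg_left ?_ (by positivity)
    exact Finset.sum_le_sum fun q _ => Finset.sum_le_sum fun χ _ => hcs d q χ
  refine (Finset.sum_le_sum hd).trans ?_
  rw [Tyj_swap (Icc 1 D) (range (2 * N1 + 2)) (fun d => d.divisors.filter (fun q => Q < q)) g
    (fun d => 1 / (d.totient : ℝ)) (fun d q χ h => ‖cs (aw η N1 P h) (2 * P) d χ‖ *
        ‖cs (bw η N1 P j h) (2 ^ (j + 1) * P) d χ‖)]
  -- the bound for one `h`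
  have hh : ∀ h ∈ range (2 * N1 + 2), g h * ∑ d ∈ Icc 1 D, (1 / (d.totient : ℝ)) *
      ∑ q ∈ d.divisors.filter (fun q => Q < q), ∑ χ ∈ prim q,
        ‖cs (aw η N1 P h) (2 * P) d χ‖ * ‖cs (bw η N1 P j h) (2 ^ (j + 1) * P) d χ‖ ≤
      g h * (800 * K * ((1 + Real.log D) ^ 2 * S + D)) := by
    intro h _
    refine mul_le_mul_of_nonneg_left ?_ (hg0 h)
    refine (h4 _ _ (2 * P) (2 ^ (j + 1) * P) D Q).trans ?_
    have f1 : ∀ e ∈ Icc 1 D, (1 / (e.totient : ℝ)) * ∑ q ∈ Ioc Q (D / e),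
        (1 / (q.totient : ℝ)) * ∑ χ ∈ prim q, ‖cs (aw η N1 P h) (2 * P) e χ‖ *
          ‖cs (bw η N1 P j h) (2 ^ (j + 1) * P) e χ‖ ≤
        (800 * K * S) * (1 / (e.totient : ℝ)) +
          (200 * K * D) * (1 / ((e : ℝ) * (e.totient : ℝ))) := by
      intro e he
      have he1 : 1 ≤ e := (Finset.mem_Icc.1 he).1
      have he0 : (0 : ℝ) < e := by exact_mod_cast he1
      have he2 : (0 : ℝ) < e.totient := by exact_mod_cast Nat.totient_pos.2 he1
      have e0 : ∑ q ∈ Ioc Q (D / e), (1 / (q.totient : ℝ)) * ∑ χ ∈ prim q,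
          ‖cs (aw η N1 P h) (2 * P) e χ‖ * ‖cs (bw η N1 P j h) (2 ^ (j + 1) * P) e χ‖ ≤
          200 * K * (4 * S + (D : ℝ) / e) := by
        refine (h5 Q (D / e) (2 * P) _ e _ _ hQ).trans ?_
        have e1 := hN η N1 P j h hP
        have e2 := Tyj_fac x P j Q D e hP hPx hQ he1
        apply mul_le_mul _ e2 _ (by positivity)
        · exact mul_le_mul_of_nonneg_left e1 (by norm_num)
        · have e3 : 0 ≤ Real.log ((D / e : ℕ) : ℝ) := Real.log_natCast_nonneg _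
          positivity
      refine (mul_le_mul_of_nonneg_left e0 (by positivity)).trans (le_of_eq ?_)
      field_simp
      ring
    refine (Finset.sum_le_sum f1).trans ?_
    rw [Finset.sum_add_distrib, ← Finset.mul_sum, ← Finset.mul_sum]
    have f2 := h6.1 D hD
    have f3 := h6.2 D
    have f4 : (800 * K * S) * ∑ e ∈ Icc 1 D, 1 / (e.totient : ℝ) ≤
        (800 * K * S) * (1 + Real.log D) ^ 2 := mul_le_mul_of_nonneg_left f2 (by positivity)
    have f5 : (200 * K * D) * ∑ e ∈ Icc 1 D, 1 / ((e : ℝ) * (e.totient : ℝ)) ≤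
        (200 * K * D) * 4 := mul_le_mul_of_nonneg_left f3 (by positivity)
    refine (add_le_add f4 f5).trans (le_of_eq ?_)
    ring
  refine (Finset.sum_le_sum hh).trans ?_
  rw [← Finset.sum_mul]
  have h7 := hg1.trans (Tyj_log η hη hη2)
  refine (mul_le_mul_of_nonneg_right h7 (by positivity)).trans (le_of_eq ?_)
  rw [hK]
  ring

end Pool.Agent.Lib.BV
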