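import Pool.Agent.Lib.BV.SpecF

namespace Pool.Agent.Lib.BV

open Finset Pool.Agent.Lib.EH3

theorem tUb (h1 : ClfStmt) (h2 : MnsStmt) : UbStmt := by
  obtain ⟨C, hC, hM⟩ := h2
  refine ⟨C, hC, fun z d l N N2 hz hd hl hN => ?_⟩
  have hA := (h1 z d 1 l N N2 hz hd hl hN).1
  have hB := (hM z d 1 hz hd).2.1
  have hd0 : (0 : ℝ) < (d : ℝ) := by exact_mod_cast hd
  have hφ : (0 : ℝ) < (d.totient : ℝ) := by exact_mod_cast Nat.totient_pos.mpr (by omega)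
  have hz2 : (2 : ℝ) ≤ (z : ℝ) := by exact_mod_cast hz
  have hlog : 0 < Real.log z := Real.log_pos (by linarith)
  have hX : (0 : ℝ) ≤ ((N2 : ℝ) - N) / d := by
    refine div_nonneg ?_ hd0.le
    have : (N : ℝ) ≤ (N2 : ℝ) := by exact_mod_cast hN
    linarith
  have h3 : ((N2 : ℝ) - N) / d * ∏ j ∈ range z, Yd z d 1 j ≤
      C * (((N2 : ℝ) - N) / ((d.totient : ℝ) * Real.log z)) := by
    calc ((N2 : ℝ) - N) / d * ∏ j ∈ range z, Yd z d 1 j ≤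
        ((N2 : ℝ) - N) / d * (C * (((d : ℝ) / (d.totient : ℝ)) / Real.log z)) :=
          mul_le_mul_of_nonneg_left hB hX
      _ = C * (((N2 : ℝ) - N) / ((d.totient : ℝ) * Real.log z)) := by
          field_simp
  have h4 : 2 * (z : ℝ) ^ (4 * 1 + 6) ≤ (z : ℝ) ^ 16 := by
    have h5 : (z : ℝ) ^ 16 = (z : ℝ) ^ 6 * (z : ℝ) ^ (4 * 1 + 6) := by ring
    have h6 : (2 : ℝ) ≤ (z : ℝ) ^ 6 := by
      have h7 : (2 : ℝ) ^ 6 ≤ (z : ℝ) ^ 6 := pow_le_pow_left₀ (by norm_num) hz2 6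
      linarith
    rw [h5]
    exact mul_le_mul_of_nonneg_right h6 (by positivity)
  exact hA.trans (add_le_add h3 h4)

end Pool.Agent.Lib.BV
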