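import Pool.Agent.Lib.BV.SpecH

/-!
MP_00e23e_nt, BV, module Zkk: bounds for the series with coefficients (Λ(n) - 1) (log n)^j.
-/

namespace Pool.Agent.Lib.BV

open Finset

theorem Zkk_chf : chf (1 : DirichletCharacter ℂ 1) = fun _ => 1 := by
  funext n
  unfold chf
  exact MulChar.one_apply (isUnit_of_subsingleton _)

theorem Zkk_ell_ge (t : ℝ) : 1 ≤ ell 2 t := by
  unfold ell
  have h1 : Real.log 4 ≤ Real.log (2 * (|t| + 2)) :=
    Real.log_le_log (by norm_num) (by nlinarith [abs_nonneg t])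
  have h2 : Real.log 4 = 2 * Real.log 2 := by
    rw [show (4 : ℝ) = 2 ^ 2 by norm_num, Real.log_pow]
    norm_num
  have := Real.log_two_gt_d9
  linarith

/-- abscissa of absolute convergence of a series with powers of the logarithm -/
theorem Zkk_absc (f : ℕ → ℂ) (hf : LSeries.abscissaOfAbsConv f ≤ 1) (j : ℕ) :
    LSeries.abscissaOfAbsConv (fun n => f n * ((Real.log n : ℝ) : ℂ) ^ j) ≤ 1 := by
  induction j with
  | zero => simpa using hf
  | succ j ih =>
    have h : (fun n : ℕ => f n * ((Real.log n : ℝ) : ℂ) ^ (j + 1)) =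
        LSeries.logMul (fun n => f n * ((Real.log n : ℝ) : ℂ) ^ j) := by
      funext n
      show f n * ((Real.log n : ℝ) : ℂ) ^ (j + 1) =
        Complex.log n * (f n * ((Real.log n : ℝ) : ℂ) ^ j)
      rw [Complex.ofReal_log (Nat.cast_nonneg n), Complex.ofReal_natCast]
      ring
    rw [h, LSeries.abscissaOfAbsConv_logMul]
    exact ih

theorem Zkk_summable (f : ℕ → ℂ) (hf : LSeries.abscissaOfAbsConv f ≤ 1) (j : ℕ) {s : ℂ}
    (hs : 1 < s.re) : LSeriesSummable (fun n => f n * ((Real.log n : ℝ) : ℂ) ^ j) s := by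
  apply LSeriesSummable_of_abscissaOfAbsConv_lt_re
  refine lt_of_le_of_lt (Zkk_absc f hf j) ?_
  exact_mod_cast hs

theorem Zkk_pole (j : ℕ) (s : ℂ) (ht : 1 ≤ |s.im|) :
    ‖(j.factorial : ℂ) / (s - 1) ^ (j + 1)‖ ≤ j.factorial := by
  have h1 : 1 ≤ ‖s - 1‖ := by
    have := Complex.abs_im_le_norm (s - 1)
    simp only [Complex.sub_im, Complex.one_im, sub_zero] at this
    linarith
  rw [norm_div, norm_pow, Complex.norm_natCast]
  exact div_le_self (by positivity) (one_le_pow₀ h1)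

theorem Zkk_log_pow (N : ℕ) (hN : 1 ≤ N) (t : ℝ) :
    ell 2 t ^ N ≤ (2 * N) ^ N * 2 * (|t| + 2) ^ ((1 : ℝ) / 2) := by
  unfold ell
  have hN0 : (0 : ℝ) < N := by exact_mod_cast hN
  have hy : 0 ≤ 2 * (|t| + 2) := by positivity
  have hε : (0 : ℝ) < 1 / (2 * N) := by positivity
  have h1 := Real.log_le_rpow_div hy hε
  have h0 : 0 ≤ Real.log (2 * (|t| + 2)) := Real.log_nonneg (by nlinarith [abs_nonneg t])
  have h2 : Real.log (2 * (|t| + 2)) ^ N ≤ ((2 * (|t| + 2)) ^ ((1 : ℝ) / (2 * N)) / (1 / (2 * N))) ^ N :=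
    pow_le_pow_left₀ h0 h1 N
  refine h2.trans ?_
  have h3 : ((2 * (|t| + 2)) ^ ((1 : ℝ) / (2 * N)) / (1 / (2 * (N : ℝ)))) ^ N =
      (2 * N) ^ N * (2 * (|t| + 2)) ^ ((1 : ℝ) / 2) := by
    rw [div_pow, ← Real.rpow_natCast ((2 * (|t| + 2)) ^ ((1 : ℝ) / (2 * N))) N, ← Real.rpow_mul hy,
      one_div_pow, div_div_eq_mul_div, div_one, mul_comm]
    congr 2
    field_simp
  rw [h3, Real.mul_rpow (by norm_num) (by positivity), mul_assoc]
  apply mul_le_mul_of_nonneg_left _ (by positivity)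
  apply mul_le_mul_of_nonneg_right _ (by positivity)
  calc (2 : ℝ) ^ ((1 : ℝ) / 2) ≤ 2 ^ (1 : ℝ) :=
        Real.rpow_le_rpow_of_exponent_le (by norm_num) (by norm_num)
    _ = 2 := Real.rpow_one 2

theorem tZkk (h1 : CptStmt) (h2 : RecStmt) (h3 : ZseStmt) (h4 : ZloStmt) : ZkkStmt := by
  intro j
  obtain ⟨Ca, hCa, hcpt⟩ := h1 j
  choose Cz hCz hz using h3
  obtain ⟨c, hc, hlo⟩ := h4
  obtain ⟨a, ha, hrec⟩ := h2 (fun m => (m.factorial + Cz m) / c)
    (fun m => by have := hCz m; positivity) j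
  have hB0 : 0 ≤ (a + (j.factorial + Cz j)) *
      ((2 * ((11 * (j + 1) : ℕ) : ℝ)) ^ (11 * (j + 1)) * 2) := by
    have := hCz j
    positivity
  refine ⟨Ca + (a + (j.factorial + Cz j)) *
      ((2 * ((11 * (j + 1) : ℕ) : ℝ)) ^ (11 * (j + 1)) * 2), by linarith, ?_⟩
  intro s hs1 hs2
  have hR : 1 ≤ (|s.im| + 2) ^ ((1 : ℝ) / 2) :=
    Real.one_le_rpow (by linarith [abs_nonneg s.im]) (by norm_num)
  rcases le_total |s.im| 1 with ht | ht
  · refine (hcpt s hs1 hs2 ht).trans ?_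
    calc Ca = Ca * 1 := (mul_one _).symm
      _ ≤ Ca * (|s.im| + 2) ^ ((1 : ℝ) / 2) := mul_le_mul_of_nonneg_left hR hCa.le
      _ ≤ _ := mul_le_mul_of_nonneg_right (by linarith) (by linarith)
  have hL1 : 1 ≤ ell 2 s.im := Zkk_ell_ge s.im
  have hDS : ∀ m : ℕ, ‖DS (fun _ => 1) m s‖ ≤ (m.factorial + Cz m) * ell 2 s.im ^ (m + 1) := by
    intro m
    have h5 := hz m s hs1 hs2
    have h6 := Zkk_pole m s ht
    have h7 := norm_add_le (DS (fun _ => 1) m s - (m.factorial : ℂ) / (s - 1) ^ (m + 1))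
      ((m.factorial : ℂ) / (s - 1) ^ (m + 1))
    rw [sub_add_cancel] at h7
    have h8 : 1 ≤ ell 2 s.im ^ (m + 1) := one_le_pow₀ hL1
    have h9 : (m.factorial : ℝ) ≤ m.factorial * ell 2 s.im ^ (m + 1) :=
      le_mul_of_one_le_right (by positivity) h8
    rw [add_mul]
    linarith
  have hLS : ‖LS (fun _ => 1) j s‖ ≤ a * (ell 2 s.im ^ 11) ^ (j + 1) := by
    have h5 := hrec 1 1 s (ell 2 s.im ^ 11) le_rfl hs1 (by positivity)
    rw [Zkk_chf] at h5
    apply h5
    intro m hm1 _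
    have h6 := hlo s hs1 hs2 ht
    have h7 := hDS m
    have h8 : ell 2 s.im ^ (m + 8) ≤ ell 2 s.im ^ (11 * m) :=
      pow_le_pow_right₀ hL1 (by omega)
    have h9 : (0 : ℝ) ≤ m.factorial + Cz m := by have := hCz m; positivity
    have hn : 0 ≤ ‖DS (fun _ => 1) 0 s‖ := norm_nonneg _
    calc ‖DS (fun _ => 1) m s‖ ≤ (m.factorial + Cz m) * ell 2 s.im ^ (m + 1) := h7
      _ = (m.factorial + Cz m) / c * (ell 2 s.im ^ (m + 1) * c) := by field_simp
      _ ≤ (m.factorial + Cz m) / c * (ell 2 s.im ^ (m + 1) *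
          (‖DS (fun _ => 1) 0 s‖ * ell 2 s.im ^ 7)) := by
          apply mul_le_mul_of_nonneg_left _ (by positivity)
          exact mul_le_mul_of_nonneg_left h6 (by positivity)
      _ = (m.factorial + Cz m) / c * (ell 2 s.im ^ (m + 8) * ‖DS (fun _ => 1) 0 s‖) := by ring
      _ ≤ (m.factorial + Cz m) / c * (ell 2 s.im ^ (11 * m) * ‖DS (fun _ => 1) 0 s‖) := by
          apply mul_le_mul_of_nonneg_left _ (by positivity)
          exact mul_le_mul_of_nonneg_right h8 hn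
      _ = (m.factorial + Cz m) / c * (ell 2 s.im ^ 11) ^ m * ‖DS (fun _ => 1) 0 s‖ := by
          rw [← pow_mul]; ring
  have habs1 : LSeries.abscissaOfAbsConv (fun _ : ℕ => (1 : ℂ)) ≤ 1 := by
    apply LSeries.abscissaOfAbsConv_le_of_forall_lt_LSeriesSummable'
    intro y hy
    have hy1 : (1 : ℝ) < y := by exact_mod_cast hy
    have := (LSeriesSummable_one_iff (s := (y : ℂ))).2 (by simpa using hy1)
    exact this
  have habsL : LSeries.abscissaOfAbsConv
      (fun n : ℕ => ((ArithmeticFunction.vonMangoldt n : ℝ) : ℂ) * 1) ≤ 1 := by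
    apply LSeries.abscissaOfAbsConv_le_of_forall_lt_LSeriesSummable'
    intro y hy
    have hy1 : (1 : ℝ) < y := by exact_mod_cast hy
    have := ArithmeticFunction.LSeriesSummable_vonMangoldt (s := (y : ℂ)) (by simpa using hy1)
    simpa using this
  have hsub : LSeries (fun n => (((ArithmeticFunction.vonMangoldt n : ℝ) : ℂ) - 1) *
      ((Real.log n : ℝ) : ℂ) ^ j) s = LS (fun _ => 1) j s - DS (fun _ => 1) j s := by
    unfold LS DS
    rw [← LSeries_sub (Zkk_summable _ habsL j hs1) (Zkk_summable _ habs1 j hs1)]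
    congr 1
    funext n
    simp only [Pi.sub_apply]
    ring
  rw [hsub]
  refine (norm_sub_le _ _).trans ?_
  have h5 := hDS j
  have h6 : ell 2 s.im ^ (j + 1) ≤ ell 2 s.im ^ (11 * (j + 1)) :=
    pow_le_pow_right₀ hL1 (by omega)
  have h7 := Zkk_log_pow (11 * (j + 1)) (by omega) s.im
  have h8 : (0 : ℝ) ≤ j.factorial + Cz j := by have := hCz j; positivity
  rw [← pow_mul] at hLS
  calc ‖LS (fun _ => 1) j s‖ + ‖DS (fun _ => 1) j s‖ ≤
      a * ell 2 s.im ^ (11 * (j + 1)) + (j.factorial + Cz j) * ell 2 s.im ^ (11 * (j + 1)) :=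
        add_le_add hLS (h5.trans (mul_le_mul_of_nonneg_left h6 h8))
    _ = (a + (j.factorial + Cz j)) * ell 2 s.im ^ (11 * (j + 1)) := by ring
    _ ≤ (a + (j.factorial + Cz j)) * ((2 * ((11 * (j + 1) : ℕ) : ℝ)) ^ (11 * (j + 1)) * 2 *
        (|s.im| + 2) ^ ((1 : ℝ) / 2)) := mul_le_mul_of_nonneg_left h7 (by linarith)
    _ = (a + (j.factorial + Cz j)) * ((2 * ((11 * (j + 1) : ℕ) : ℝ)) ^ (11 * (j + 1)) * 2) *
        (|s.im| + 2) ^ ((1 : ℝ) / 2) := by ring
    _ ≤ _ := mul_le_mul_of_nonneg_right (by linarith) (by linarith)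

end Pool.Agent.Lib.BV
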