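import Pool.Agent.Lib.BV.SpecH

/-!
MP_00e23e_nt, BV, module Zlo: lower bound for the Riemann zeta function near the line Re s = 1.
-/

namespace Pool.Agent.Lib.BV

open Finset

theorem Zlo_chf : chf (1 : DirichletCharacter ℂ 1) = fun _ => 1 := by
  funext n
  unfold chf
  exact MulChar.one_apply (isUnit_of_subsingleton _)

theorem Zlo_ell_ge (t : ℝ) : 1 ≤ ell 2 t := by
  unfold ell
  have h1 : Real.log 4 ≤ Real.log (2 * (|t| + 2)) :=
    Real.log_le_log (by norm_num) (by nlinarith [abs_nonneg t])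
  have h2 : Real.log 4 = 2 * Real.log 2 := by
    rw [show (4 : ℝ) = 2 ^ 2 by norm_num, Real.log_pow]
    norm_num
  have := Real.log_two_gt_d9
  linarith

theorem Zlo_ell_two (t : ℝ) : ell 2 (2 * t) ≤ 2 * ell 2 t := by
  unfold ell
  have h1 : Real.log (2 * (|2 * t| + 2)) ≤ Real.log ((2 * (|t| + 2)) ^ 2) := by
    apply Real.log_le_log (by positivity)
    rw [abs_mul, abs_two]
    nlinarith [abs_nonneg t]
  rw [Real.log_pow] at h1
  exact_mod_cast h1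

theorem Zlo_pole (j : ℕ) (s : ℂ) (ht : 1 ≤ |s.im|) :
    ‖(j.factorial : ℂ) / (s - 1) ^ (j + 1)‖ ≤ j.factorial := by
  have h1 : 1 ≤ ‖s - 1‖ := by
    have := Complex.abs_im_le_norm (s - 1)
    simp only [Complex.sub_im, Complex.one_im, sub_zero] at this
    linarith
  rw [norm_div, norm_pow, Complex.norm_natCast]
  exact div_le_self (by positivity) (one_le_pow₀ h1)

theorem tZlo (h1 : GloStmt) (h2 : ZseStmt) : ZloStmt := by
  obtain ⟨C0, hC0, hz0⟩ := h2 0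
  obtain ⟨C1, hC1, hz1⟩ := h2 1
  refine ⟨1 / (128 * (1 + C1) ^ 3 * (1 + 2 * C0)), by positivity, ?_⟩
  intro s hs1 hs2 ht
  have hL1 : 1 ≤ ell 2 s.im := Zlo_ell_ge s.im
  have hV : 1 ≤ (1 + C1) * ell 2 s.im ^ 2 := by
    have : 1 ≤ ell 2 s.im ^ 2 := one_le_pow₀ hL1
    nlinarith
  have hW : 1 ≤ (1 + 2 * C0) * ell 2 s.im := by nlinarith
  have hA : ∀ σ : ℝ, 1 < σ → σ ≤ 2 →
      ‖DS (chf (1 : DirichletCharacter ℂ 1)) 1 (σ + s.im * Complex.I)‖ ≤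
        (1 + C1) * ell 2 s.im ^ 2 := by
    intro σ h1σ h2σ
    have hre : ((σ : ℂ) + s.im * Complex.I).re = σ := by simp
    have him : ((σ : ℂ) + s.im * Complex.I).im = s.im := by simp
    have h3 := hz1 ((σ : ℂ) + s.im * Complex.I) (by rw [hre]; exact h1σ) (by rw [hre]; exact h2σ)
    have h4 := Zlo_pole 1 ((σ : ℂ) + s.im * Complex.I) (by rw [him]; exact ht)
    rw [him] at h3
    rw [Zlo_chf]
    have h5 : ‖DS (fun _ => 1) 1 ((σ : ℂ) + s.im * Complex.I)‖ ≤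
        ‖DS (fun _ => 1) 1 ((σ : ℂ) + s.im * Complex.I) -
          (Nat.factorial 1 : ℂ) / ((σ : ℂ) + s.im * Complex.I - 1) ^ (1 + 1)‖ +
        ‖(Nat.factorial 1 : ℂ) / ((σ : ℂ) + s.im * Complex.I - 1) ^ (1 + 1)‖ := by
      have := norm_add_le (DS (fun _ => 1) 1 ((σ : ℂ) + s.im * Complex.I) -
          (Nat.factorial 1 : ℂ) / ((σ : ℂ) + s.im * Complex.I - 1) ^ (1 + 1))
          ((Nat.factorial 1 : ℂ) / ((σ : ℂ) + s.im * Complex.I - 1) ^ (1 + 1))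
      rwa [sub_add_cancel] at this
    have h6 : 1 ≤ ell 2 s.im ^ 2 := one_le_pow₀ hL1
    have h7 : ((Nat.factorial 1 : ℕ) : ℝ) = 1 := by simp
    rw [h7] at h4
    have h8 : (1 + C1) * ell 2 s.im ^ 2 = ell 2 s.im ^ 2 + C1 * ell 2 s.im ^ (1 + 1) := by ring
    rw [h8]
    linarith
  have hB : ∀ σ : ℝ, 1 < σ → σ ≤ 2 →
      ‖DS (chf ((1 : DirichletCharacter ℂ 1) ^ 2)) 0 (σ + 2 * s.im * Complex.I)‖ ≤
        (1 + 2 * C0) * ell 2 s.im := by
    intro σ h1σ h2σ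
    have hre : ((σ : ℂ) + 2 * s.im * Complex.I).re = σ := by simp
    have him : ((σ : ℂ) + 2 * s.im * Complex.I).im = 2 * s.im := by simp
    have h3 := hz0 ((σ : ℂ) + 2 * s.im * Complex.I) (by rw [hre]; exact h1σ)
      (by rw [hre]; exact h2σ)
    have h4 := Zlo_pole 0 ((σ : ℂ) + 2 * s.im * Complex.I) (by
      rw [him, abs_mul, abs_two]; linarith)
    rw [him] at h3
    rw [one_pow, Zlo_chf]
    have h5 : ‖DS (fun _ => 1) 0 ((σ : ℂ) + 2 * s.im * Complex.I)‖ ≤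
        ‖DS (fun _ => 1) 0 ((σ : ℂ) + 2 * s.im * Complex.I) -
          (Nat.factorial 0 : ℂ) / ((σ : ℂ) + 2 * s.im * Complex.I - 1) ^ (0 + 1)‖ +
        ‖(Nat.factorial 0 : ℂ) / ((σ : ℂ) + 2 * s.im * Complex.I - 1) ^ (0 + 1)‖ := by
      have := norm_add_le (DS (fun _ => 1) 0 ((σ : ℂ) + 2 * s.im * Complex.I) -
          (Nat.factorial 0 : ℂ) / ((σ : ℂ) + 2 * s.im * Complex.I - 1) ^ (0 + 1))
          ((Nat.factorial 0 : ℂ) / ((σ : ℂ) + 2 * s.im * Complex.I - 1) ^ (0 + 1))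
      rwa [sub_add_cancel] at this
    have h6 := Zlo_ell_two s.im
    have h7 : ((Nat.factorial 0 : ℕ) : ℝ) = 1 := by simp
    rw [h7] at h4
    simp only [zero_add, pow_one] at h3 h4 h5
    have h8 : C0 * ell 2 (2 * s.im) ≤ C0 * (2 * ell 2 s.im) :=
      mul_le_mul_of_nonneg_left h6 hC0.le
    have h9 : (1 + 2 * C0) * ell 2 s.im = ell 2 s.im + C0 * (2 * ell 2 s.im) := by ring
    rw [h9]
    linarith
  have key := h1 1 1 s.im ((1 + C1) * ell 2 s.im ^ 2) ((1 + 2 * C0) * ell 2 s.im) le_rfl hV hW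
    hA hB s.re hs1 hs2
  rw [Complex.re_add_im, Zlo_chf] at key
  rw [div_le_iff₀ (by positivity)]
  calc (1 : ℝ) ≤ 128 * ‖DS (fun _ => 1) 0 s‖ * ((1 + C1) * ell 2 s.im ^ 2) ^ 3 *
        ((1 + 2 * C0) * ell 2 s.im) := key
    _ = ‖DS (fun _ => 1) 0 s‖ * ell 2 s.im ^ 7 * (128 * (1 + C1) ^ 3 * (1 + 2 * C0)) := by ring

end Pool.Agent.Lib.BV
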