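import Pool.Agent.Lib.BV.SpecH

namespace Pool.Agent.Lib.BV

open Finset

private lemma Zse_term (j : ℕ) (s : ℂ) (n : ℕ) (hn : 1 ≤ n) :
    LSeries.term (fun n : ℕ => (1 : ℂ) * ((Real.log n : ℝ) : ℂ) ^ j) s n = gg j s n := by
  rw [LSeries.term_of_ne_zero (by omega)]
  unfold gg
  rw [Complex.cpow_neg, one_mul, div_eq_mul_inv]
  push_cast
  rfl

private lemma Zse_logMul (j : ℕ) :
    (fun n : ℕ => (1 : ℂ) * ((Real.log n : ℝ) : ℂ) ^ j) = LSeries.logMul^[j] (fun _ => (1 : ℂ)) := by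
  induction j with
  | zero => funext n; simp
  | succ j ih =>
    rw [Function.iterate_succ_apply', ← ih]
    funext n
    show (1 : ℂ) * ((Real.log n : ℝ) : ℂ) ^ (j + 1) =
      Complex.log n * ((1 : ℂ) * ((Real.log n : ℝ) : ℂ) ^ j)
    rw [Complex.natCast_log]
    ring

private lemma Zse_summable (j : ℕ) (s : ℂ) (hs : 1 < s.re) :
    LSeriesSummable (fun n : ℕ => (1 : ℂ) * ((Real.log n : ℝ) : ℂ) ^ j) s := by
  rw [Zse_logMul]
  apply LSeriesSummable_of_abscissaOfAbsConv_lt_re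
  rw [LSeries.absicssaOfAbsConv_logPowMul]
  have h : LSeries.abscissaOfAbsConv (fun _ : ℕ => (1 : ℂ)) = 1 := LSeries.abscissaOfAbsConv_one
  rw [h]
  exact_mod_cast hs

private lemma Zse_cont (j : ℕ) (s : ℂ) : ContinuousOn (gg j s) (Set.Ioi 0) := by
  unfold gg
  intro u hu
  have hu' : 0 < u := hu
  apply ContinuousAt.continuousWithinAt
  apply ContinuousAt.mul
  · apply ContinuousAt.pow
    exact (Complex.continuous_ofReal.continuousAt).comp (Real.continuousAt_log hu'.ne')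
  · have h1 : ContinuousAt (fun z : ℂ => z ^ (-s)) (u : ℂ) := by
      apply continuousAt_cpow_const
      left
      simpa using hu'
    exact ContinuousAt.comp (f := fun u : ℝ => (u : ℂ)) h1 Complex.continuous_ofReal.continuousAt

private lemma Zse_bound (j : ℕ) (s : ℂ) (n : ℕ) (u : ℝ) (hn : 1 ≤ n) (hu : (n : ℝ) ≤ u)
    (hu' : u ≤ (n : ℝ) + 1) (hs : 1 ≤ s.re) :
    ‖gg j s u‖ ≤ (Real.log ((n : ℝ) + 1)) ^ j / n := by
  have hn' : (1 : ℝ) ≤ n := by exact_mod_cast hn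
  have hu0 : 0 < u := by linarith
  unfold gg
  rw [norm_mul, norm_pow, Complex.norm_real, Complex.norm_cpow_eq_rpow_re_of_pos hu0]
  have h1 : ‖Real.log u‖ ≤ Real.log ((n : ℝ) + 1) := by
    rw [Real.norm_of_nonneg (Real.log_nonneg (by linarith))]
    exact Real.log_le_log hu0 hu'
  have h2 : u ^ (-s).re ≤ 1 / n := by
    have h3 : u ^ (-s).re ≤ u ^ (-1 : ℝ) := by
      apply Real.rpow_le_rpow_of_exponent_le (by linarith)
      simp
      exact hs
    have h4 : u ^ (-1 : ℝ) = 1 / u := by rw [Real.rpow_neg_one, one_div]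
    rw [h4] at h3
    exact h3.trans (one_div_le_one_div_of_le (by linarith) hu)
  calc ‖Real.log u‖ ^ j * u ^ (-s).re ≤ (Real.log ((n : ℝ) + 1)) ^ j * (1 / n) := by
        apply mul_le_mul (pow_le_pow_left₀ (norm_nonneg _) h1 j) h2 (by positivity)
        apply pow_nonneg
        exact Real.log_nonneg (by linarith)
    _ = _ := by ring

/-- the n-th difference -/
private noncomputable def Zse_c (j : ℕ) (s : ℂ) (n : ℕ) : ℂ :=
  gg j s n - ∫ u in (n : ℝ)..((n : ℝ) + 1), gg j s u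

private lemma Zse_int (j : ℕ) (s : ℂ) (n : ℕ) (hn : 1 ≤ n) :
    IntervalIntegrable (gg j s) MeasureTheory.volume (n : ℝ) ((n : ℝ) + 1) := by
  apply ContinuousOn.intervalIntegrable
  apply (Zse_cont j s).mono
  intro u hu
  rw [Set.uIcc_of_le (by linarith)] at hu
  have hn' : (1 : ℝ) ≤ n := by exact_mod_cast hn
  show 0 < u
  linarith [hu.1]

private lemma Zse_c_head (j : ℕ) (s : ℂ) (n : ℕ) (hn : 1 ≤ n) (hs : 1 ≤ s.re) :
    ‖Zse_c j s n‖ ≤ 2 * ((Real.log ((n : ℝ) + 1)) ^ j / n) := by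
  unfold Zse_c
  have h1 : ‖gg j s n‖ ≤ (Real.log ((n : ℝ) + 1)) ^ j / n :=
    Zse_bound j s n n hn le_rfl (by linarith) hs
  have h2 : ‖∫ u in (n : ℝ)..((n : ℝ) + 1), gg j s u‖ ≤
      (Real.log ((n : ℝ) + 1)) ^ j / n * |(n : ℝ) + 1 - n| := by
    apply intervalIntegral.norm_integral_le_of_norm_le_const
    intro u hu
    rw [Set.uIoc_of_le (by linarith)] at hu
    exact Zse_bound j s n u hn hu.1.le hu.2 hs
  have h3 : |(n : ℝ) + 1 - n| = 1 := by
    rw [add_sub_cancel_left, abs_one]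
  rw [h3, mul_one] at h2
  calc _ ≤ ‖gg j s n‖ + ‖∫ u in (n : ℝ)..((n : ℝ) + 1), gg j s u‖ := norm_sub_le _ _
    _ ≤ _ := by linarith

private lemma Zse_c_tail (j : ℕ) (C : ℝ) (hC : ∀ (n : ℕ) (u : ℝ) (s : ℂ), 1 ≤ n → (n : ℝ) ≤ u →
      u ≤ (n : ℝ) + 1 → 1 ≤ s.re → s.re ≤ 2 →
    ‖gg j s u - gg j s n‖ ≤ C * ((|s.im| + 2) * (Real.log ((n : ℝ) + 1)) ^ j / (n : ℝ) ^ 2))
    (s : ℂ) (n : ℕ) (hn : 1 ≤ n) (hs : 1 ≤ s.re) (hs2 : s.re ≤ 2) :
    ‖Zse_c j s n‖ ≤ C * ((|s.im| + 2) * (Real.log ((n : ℝ) + 1)) ^ j / (n : ℝ) ^ 2) := by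
  unfold Zse_c
  have h0 : gg j s n = ∫ _u in (n : ℝ)..((n : ℝ) + 1), gg j s n := by
    rw [intervalIntegral.integral_const, add_sub_cancel_left, one_smul]
  have h1 : gg j s n - ∫ u in (n : ℝ)..((n : ℝ) + 1), gg j s u =
      ∫ u in (n : ℝ)..((n : ℝ) + 1), (gg j s n - gg j s u) := by
    rw [intervalIntegral.integral_sub intervalIntegrable_const (Zse_int j s n hn), ← h0]
  rw [h1]
  have h2 : ‖∫ u in (n : ℝ)..((n : ℝ) + 1), (gg j s n - gg j s u)‖ ≤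
      C * ((|s.im| + 2) * (Real.log ((n : ℝ) + 1)) ^ j / (n : ℝ) ^ 2) * |(n : ℝ) + 1 - n| := by
    apply intervalIntegral.norm_integral_le_of_norm_le_const
    intro u hu
    rw [Set.uIoc_of_le (by linarith)] at hu
    rw [norm_sub_rev]
    exact hC n u s hn hu.1.le hu.2 hs hs2
  have h3 : |(n : ℝ) + 1 - n| = 1 := by
    rw [add_sub_cancel_left, abs_one]
  rw [h3, mul_one] at h2
  exact h2

private lemma Zse_sum_inv (N : ℕ) :
    ∑ n ∈ Icc 1 N, (1 : ℝ) / n ≤ 1 + Real.log N := by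
  have h := harmonic_le_one_add_log N
  rw [harmonic_eq_sum_Icc] at h
  push_cast at h
  simpa [one_div] using h

private lemma Zse_lim (j : ℕ) (s : ℂ) (hs : 1 < s.re)
    (hG : MeasureTheory.IntegrableOn (gg j s) (Set.Ioi 1) ∧
      ∫ u in Set.Ioi (1 : ℝ), gg j s u = (j.factorial : ℂ) / (s - 1) ^ (j + 1)) :
    Filter.Tendsto (fun M : ℕ => ∑ n ∈ Icc 1 M, Zse_c j s n) Filter.atTop
      (nhds (DS (fun _ => 1) j s - (j.factorial : ℂ) / (s - 1) ^ (j + 1))) := by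
  have h1 : Filter.Tendsto (fun M : ℕ => ∑ n ∈ Icc 1 M, gg j s n) Filter.atTop
      (nhds (DS (fun _ => 1) j s)) := by
    have h := (Zse_summable j s hs).hasSum.tendsto_sum_nat
    have h' := h.comp (Filter.tendsto_add_atTop_nat 1)
    have h'' : DS (fun _ => 1) j s =
        ∑' n, LSeries.term (fun n : ℕ => (1 : ℂ) * ((Real.log n : ℝ) : ℂ) ^ j) s n := rfl
    rw [h'']
    refine h'.congr ?_
    intro M
    show ∑ i ∈ range (M + 1), LSeries.term (fun n : ℕ => (1 : ℂ) * ((Real.log n : ℝ) : ℂ) ^ j) s i = _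
    rw [Finset.range_eq_Ico, Finset.sum_eq_sum_Ico_succ_bot (by omega : 0 < M + 1)]
    rw [LSeries.term_zero, zero_add]
    have h3 : Ico (0 + 1) (M + 1) = Icc 1 M := by
      ext x; simp only [mem_Ico, mem_Icc]; omega
    rw [h3]
    apply Finset.sum_congr rfl
    intro n hn
    exact Zse_term j s n (mem_Icc.1 hn).1
  have h2 : Filter.Tendsto (fun M : ℕ => ∑ n ∈ Icc 1 M, ∫ u in (n : ℝ)..((n : ℝ) + 1), gg j s u)
      Filter.atTop (nhds ((j.factorial : ℂ) / (s - 1) ^ (j + 1))) := by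
    rw [← hG.2]
    have hb : Filter.Tendsto (fun M : ℕ => (M : ℝ) + 1) Filter.atTop Filter.atTop :=
      Filter.tendsto_atTop_add_const_right _ _ tendsto_natCast_atTop_atTop
    have h := MeasureTheory.intervalIntegral_tendsto_integral_Ioi 1 hG.1 hb
    refine h.congr ?_
    intro M
    have h4 := intervalIntegral.sum_integral_adjacent_intervals (f := gg j s)
      (μ := MeasureTheory.volume) (a := fun k : ℕ => (k : ℝ) + 1) (n := M) (by
        intro k _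
        have h5 := Zse_int j s (k + 1) (by omega)
        push_cast at h5 ⊢
        exact h5)
    have h6 : ((0 : ℕ) : ℝ) + 1 = 1 := by norm_num
    simp only [h6] at h4
    rw [← h4]
    have h3 : Icc 1 M = Ico 1 (M + 1) := by
      ext x; simp only [mem_Ico, mem_Icc]; omega
    rw [h3, Finset.sum_Ico_eq_sum_range]
    apply Finset.sum_congr (by simp)
    intro k _
    push_cast
    rw [add_comm (1 : ℝ) (k : ℝ)]
  have h5 := h1.sub h2
  refine h5.congr ?_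
  intro M
  rw [← Finset.sum_sub_distrib]
  rfl

private lemma Zse_total (j : ℕ) (C1 C2 : ℝ) (hC1 : 0 < C1) (hC2 : 0 < C2)
    (hG : ∀ (n : ℕ) (u : ℝ) (s : ℂ), 1 ≤ n → (n : ℝ) ≤ u →
      u ≤ (n : ℝ) + 1 → 1 ≤ s.re → s.re ≤ 2 →
    ‖gg j s u - gg j s n‖ ≤ C1 * ((|s.im| + 2) * (Real.log ((n : ℝ) + 1)) ^ j / (n : ℝ) ^ 2))
    (hT : ∀ N M : ℕ, 1 ≤ N →
    ∑ n ∈ Icc N M, (Real.log ((n : ℝ) + 1)) ^ j / (n : ℝ) ^ 2 ≤ C2 * ((Real.log ((N : ℝ) + 1)) ^ j / N))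
    (s : ℂ) (hs : 1 < s.re) (hs2 : s.re ≤ 2) (M : ℕ) :
    ‖∑ n ∈ Icc 1 M, Zse_c j s n‖ ≤ 2 ^ j * (6 + C1 * C2) * (ell 2 s.im) ^ (j + 1) := by
  have ht : 0 ≤ |s.im| := abs_nonneg _
  set X : ℝ := 2 * (|s.im| + 2) with hX
  have hX4 : 4 ≤ X := by rw [hX]; linarith
  have hell : ell 2 s.im = Real.log X := rfl
  set L : ℝ := Real.log X with hL
  have hL1 : 1 ≤ L := by
    rw [hL, Real.le_log_iff_exp_le (by linarith)]
    have := Real.exp_one_lt_d9
    linarith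
  set N : ℕ := ⌈X⌉₊ with hN
  have hNX : X ≤ N := Nat.le_ceil X
  have hNX' : (N : ℝ) < X + 1 := Nat.ceil_lt_add_one (by linarith)
  have hN1 : 1 ≤ N := by
    have : (1 : ℝ) ≤ N := by linarith
    exact_mod_cast this
  have hX0 : 0 < X := by linarith
  have hlog : ∀ y : ℝ, 0 < y → y ≤ X + 3 → Real.log y ≤ 2 * L := by
    intro y hy hy'
    have h1 : y ≤ X ^ 2 := by nlinarith
    have h2 : Real.log y ≤ Real.log (X ^ 2) := Real.log_le_log hy h1
    rw [Real.log_pow] at h2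
    push_cast at h2
    exact h2
  -- the head
  have hhead : ∑ n ∈ Icc 1 N, ‖Zse_c j s n‖ ≤ 2 ^ j * 6 * L ^ (j + 1) := by
    have h1 : ∀ n ∈ Icc 1 N, ‖Zse_c j s n‖ ≤ 2 * (2 * L) ^ j * (1 / n) := by
      intro n hn
      rw [mem_Icc] at hn
      have hn0 : (1 : ℝ) ≤ n := by exact_mod_cast hn.1
      have hnN : (n : ℝ) ≤ N := by exact_mod_cast hn.2
      have h2 := Zse_c_head j s n hn.1 hs.le
      have h3 : Real.log ((n : ℝ) + 1) ≤ 2 * L := hlog _ (by linarith) (by linarith)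
      have h4 : (Real.log ((n : ℝ) + 1)) ^ j ≤ (2 * L) ^ j :=
        pow_le_pow_left₀ (Real.log_nonneg (by linarith)) h3 j
      calc ‖Zse_c j s n‖ ≤ 2 * ((Real.log ((n : ℝ) + 1)) ^ j / n) := h2
        _ ≤ 2 * ((2 * L) ^ j / n) := by gcongr
        _ = _ := by ring
    have h5 := Zse_sum_inv N
    have h6 : Real.log N ≤ 2 * L := hlog _ (by linarith) (by linarith)
    calc ∑ n ∈ Icc 1 N, ‖Zse_c j s n‖ ≤ ∑ n ∈ Icc 1 N, 2 * (2 * L) ^ j * (1 / (n : ℝ)) :=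
          Finset.sum_le_sum h1
      _ = 2 * (2 * L) ^ j * ∑ n ∈ Icc 1 N, (1 / (n : ℝ)) := by rw [Finset.mul_sum]
      _ ≤ 2 * (2 * L) ^ j * (3 * L) := by
          apply mul_le_mul_of_nonneg_left _ (by positivity)
          linarith
      _ = 2 ^ j * 6 * L ^ (j + 1) := by rw [mul_pow]; ring
  -- the tail
  have htail : ∑ n ∈ Icc (N + 1) M, ‖Zse_c j s n‖ ≤ 2 ^ j * (C1 * C2) * L ^ (j + 1) := by
    have h1 : ∀ n ∈ Icc (N + 1) M, ‖Zse_c j s n‖ ≤
        C1 * (|s.im| + 2) * ((Real.log ((n : ℝ) + 1)) ^ j / (n : ℝ) ^ 2) := by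
      intro n hn
      rw [mem_Icc] at hn
      have h2 := Zse_c_tail j C1 hG s n (by omega) hs.le hs2
      calc _ ≤ _ := h2
        _ = _ := by ring
    have h3 := hT (N + 1) M (by omega)
    push_cast at h3
    have h4 : Real.log ((N : ℝ) + 1 + 1) ≤ 2 * L := hlog _ (by linarith) (by linarith)
    have h5 : (Real.log ((N : ℝ) + 1 + 1)) ^ j ≤ (2 * L) ^ j :=
      pow_le_pow_left₀ (Real.log_nonneg (by linarith)) h4 j
    have h6 : (|s.im| + 2) / ((N : ℝ) + 1) ≤ 1 := by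
      rw [div_le_one (by linarith)]
      rw [hX] at hNX
      linarith
    calc ∑ n ∈ Icc (N + 1) M, ‖Zse_c j s n‖
        ≤ ∑ n ∈ Icc (N + 1) M, C1 * (|s.im| + 2) * ((Real.log ((n : ℝ) + 1)) ^ j / (n : ℝ) ^ 2) :=
          Finset.sum_le_sum h1
      _ = C1 * (|s.im| + 2) * ∑ n ∈ Icc (N + 1) M, (Real.log ((n : ℝ) + 1)) ^ j / (n : ℝ) ^ 2 := by
          rw [Finset.mul_sum]
      _ ≤ C1 * (|s.im| + 2) * (C2 * ((Real.log ((N : ℝ) + 1 + 1)) ^ j / ((N : ℝ) + 1))) := by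
          apply mul_le_mul_of_nonneg_left h3 (by positivity)
      _ = C1 * C2 * (Real.log ((N : ℝ) + 1 + 1)) ^ j * ((|s.im| + 2) / ((N : ℝ) + 1)) := by ring
      _ ≤ C1 * C2 * (2 * L) ^ j * 1 := by
          apply mul_le_mul _ h6 (by positivity) (by positivity)
          apply mul_le_mul_of_nonneg_left h5 (by positivity)
      _ ≤ C1 * C2 * (2 * L) ^ j * L := by
          apply mul_le_mul_of_nonneg_left hL1 (by positivity)
      _ = _ := by rw [mul_pow]; ring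
  have hsub : Icc 1 M ⊆ Icc 1 N ∪ Icc (N + 1) M := by
    intro x hx
    simp only [mem_Icc, mem_union] at hx ⊢
    omega
  have hdis : Disjoint (Icc 1 N) (Icc (N + 1) M) := by
    rw [Finset.disjoint_left]
    intro x hx hx'
    simp only [mem_Icc] at hx hx'
    omega
  rw [hell]
  calc ‖∑ n ∈ Icc 1 M, Zse_c j s n‖ ≤ ∑ n ∈ Icc 1 M, ‖Zse_c j s n‖ := norm_sum_le _ _
    _ ≤ ∑ n ∈ Icc 1 N ∪ Icc (N + 1) M, ‖Zse_c j s n‖ :=
        Finset.sum_le_sum_of_subset_of_nonneg hsub (fun _ _ _ => norm_nonneg _)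
    _ = ∑ n ∈ Icc 1 N, ‖Zse_c j s n‖ + ∑ n ∈ Icc (N + 1) M, ‖Zse_c j s n‖ :=
        Finset.sum_union hdis
    _ ≤ 2 ^ j * 6 * L ^ (j + 1) + 2 ^ j * (C1 * C2) * L ^ (j + 1) := add_le_add hhead htail
    _ = _ := by ring

theorem tZse (h1 : TaiStmt) (h2 : GdiStmt) (h3 : GinStmt) : ZseStmt := by
  intro j
  obtain ⟨C2, hC2, hT⟩ := h1 j
  obtain ⟨C1, hC1, hG⟩ := h2 j
  refine ⟨2 ^ j * (6 + C1 * C2), by positivity, ?_⟩
  intro s hs hs2
  have hlim := Zse_lim j s hs (h3 j s hs)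
  apply le_of_tendsto hlim.norm
  apply Filter.Eventually.of_forall
  intro M
  exact Zse_total j C1 C2 hC1 hC2 hG hT s hs hs2 M

end Pool.Agent.Lib.BV
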