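import Pool.Agent.Lib.BV.Spl
import Pool.Agent.Lib.BV.Ptw
import Pool.Agent.Lib.BV.Bnf
import Pool.Agent.Lib.BV.Hly
import Pool.Agent.Lib.BV.Pbs
import Pool.Agent.Lib.BV.Pws
import Pool.Agent.Lib.BV.Apc
import Pool.Agent.Lib.BV.Lif
import Pool.Agent.Lib.BV.Esy
import Pool.Agent.Lib.BV.Ctt
import Pool.Agent.Lib.BV.Lvl
import Pool.Agent.Lib.BV.Smy
import Pool.Agent.Lib.BV.Clf
import Pool.Agent.Lib.BV.Msb
import Pool.Agent.Lib.BV.Mpr
import Pool.Agent.Lib.BV.Mns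
import Pool.Agent.Lib.BV.Fl
import Pool.Agent.Lib.BV.Mea
import Pool.Agent.Lib.BV.Ryy
import Pool.Agent.Lib.BV.Tot
import Pool.Agent.Lib.BV.Tdy
import Pool.Agent.Lib.BV.Asy
import Pool.Agent.Lib.BV.Pmt
import Pool.Agent.Lib.BV.Dda
import Pool.Agent.Lib.BV.Cv
import Pool.Agent.Lib.BV.Scv
import Pool.Agent.Lib.BV.Cww
import Pool.Agent.Lib.BV.Dew
import Pool.Agent.Lib.BV.Gri
import Pool.Agent.Lib.BV.Fyy
import Pool.Agent.Lib.BV.Gyy
import Pool.Agent.Lib.BV.Sqr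
import Pool.Agent.Lib.BV.Ub
import Pool.Agent.Lib.BV.Gys
import Pool.Agent.Lib.BV.Ddb
import Pool.Agent.Lib.BV.Cnd
import Pool.Agent.Lib.BV.Tai
import Pool.Agent.Lib.BV.Gdi
import Pool.Agent.Lib.BV.Ser
import Pool.Agent.Lib.BV.Chb
import Pool.Agent.Lib.BV.Idr
import Pool.Agent.Lib.BV.Rec
import Pool.Agent.Lib.BV.Glo
import Pool.Agent.Lib.BV.Lo1
import Pool.Agent.Lib.BV.Gin
import Pool.Agent.Lib.BV.Zse
import Pool.Agent.Lib.BV.Trv
import Pool.Agent.Lib.BV.Lo2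
import Pool.Agent.Lib.BV.Trl
import Pool.Agent.Lib.BV.Lnk
import Pool.Agent.Lib.BV.SgAb
import Pool.Agent.Lib.BV.SgEl
import Pool.Agent.Lib.BV.SgCt
import Pool.Agent.Lib.BV.SgZ
import Pool.Agent.Lib.BV.SgHy
import Pool.Agent.Lib.BV.SgOn
import Pool.Agent.Lib.BV.SgNa
import Pool.Agent.Lib.BV.SgPo
import Pool.Agent.Lib.BV.SgCa
import Pool.Agent.Lib.BV.SgHa
import Pool.Agent.Lib.BV.SgMu
import Pool.Agent.Lib.BV.SgFo
import Pool.Agent.Lib.BV.SgNb
import Pool.Agent.Lib.BV.SgUp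
import Pool.Agent.Lib.BV.SgCb
import Pool.Agent.Lib.BV.SgSi
import Pool.Agent.Lib.BV.SgPc
import Pool.Agent.Lib.BV.SgCh
import Pool.Agent.Lib.BV.SgPd
import Pool.Agent.Lib.BV.SgLf
import Pool.Agent.Lib.BV.Sie
import Pool.Agent.Lib.BV.LoF
import Pool.Agent.Lib.BV.Fkk
import Pool.Agent.Lib.BV.Smb
import Pool.Agent.Lib.BV.Ker
import Pool.Agent.Lib.BV.Per
import Pool.Agent.Lib.BV.Uns
import Pool.Agent.Lib.BV.Pas
import Pool.Agent.Lib.BV.Prs
import Pool.Agent.Lib.BV.Pps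
import Pool.Agent.Lib.BV.Sw
import Pool.Agent.Lib.BV.Lpc
import Pool.Agent.Lib.BV.Lsw
import Pool.Agent.Lib.BV.Lct
import Pool.Agent.Lib.BV.Lmo
import Pool.Agent.Lib.BV.Lbl
import Pool.Agent.Lib.BV.Lft
import Pool.Agent.Lib.BV.Low
import Pool.Agent.Lib.BV.Cpt
import Pool.Agent.Lib.BV.Zlo
import Pool.Agent.Lib.BV.Zkk
import Pool.Agent.Lib.BV.Lir
import Pool.Agent.Lib.BV.Pnt
import Pool.Agent.Lib.BV.Mtm
import Pool.Agent.Lib.BV.Ddc
import Pool.Agent.Lib.BV.Dfu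
import Pool.Agent.Lib.BV.Sew
import Pool.Agent.Lib.BV.Rou
import Pool.Agent.Lib.BV.Pri
import Pool.Agent.Lib.BV.Nrw
import Pool.Agent.Lib.BV.Inj
import Pool.Agent.Lib.BV.Pr2
import Pool.Agent.Lib.BV.Far
import Pool.Agent.Lib.BV.Gau
import Pool.Agent.Lib.BV.Ort
import Pool.Agent.Lib.BV.Lsm
import Pool.Agent.Lib.BV.Blk
import Pool.Agent.Lib.BV.Bil
import Pool.Agent.Lib.BV.Tyj
import Pool.Agent.Lib.BV.Ty2
import Pool.Agent.Lib.BV.Ksm
import Pool.Agent.Lib.BV.Ddd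
import Pool.Agent.Lib.BV.Dya
import Pool.Agent.Lib.BV.Btt
import Pool.Agent.Lib.BV.Dyb
import Pool.Agent.Lib.BV.Dyc
import Pool.Agent.Lib.BV.Fin
import Pool.Agent.Lib.BV.Tdl
import Pool.Agent.Lib.BV.Exa
import Pool.Agent.Lib.BV.Exb
import Pool.Agent.Lib.BV.Ext

/-!
Composition of the modules of Lib/BV: the final theorem (statement ExtStmt in SpecE).
-/

namespace Pool.Agent.Lib.BV

theorem aSpl : SplStmt := tSpl
theorem aPtw : PtwStmt := tPtw aSpl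
theorem aBnf : BnfStmt := tBnf
theorem aHly : HlyStmt := tHly
theorem aPbs : PbsStmt := tPbs
theorem aPws : PwsStmt := tPws aBnf aHly aPbs
theorem aApc : ApcStmt := tApc
theorem aLif : LifStmt := tLif aApc
theorem aEsy : EsyStmt := tEsy
theorem aCtt : CttStmt := tCtt aEsy
theorem aLvl : LvlStmt := tLvl aPbs
theorem aSmy : SmyStmt := tSmy aLif aPbs aCtt aLvl
theorem aClf : ClfStmt := tClf aPws aSmy
theorem aMsb : MsbStmt := tMsb
theorem aMpr : MprStmt := tMpr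
theorem aMns : MnsStmt := tMns aBnf aEsy aPbs aMsb aMpr
theorem aFl : FlStmt := tFl aClf aMns
theorem aMea : MeaStmt := tMea
theorem aRyy : RyyStmt := tRyy aFl aMea
theorem aTot : TotStmt := tTot
theorem aTdy : TdyStmt := tTdy aTot
theorem aAsy : AsyStmt := tAsy
theorem aPmt : PmtStmt := tPmt aAsy
theorem aDda : DdaStmt := tDda aRyy aTdy aPmt
theorem aCv : CvStmt := tCv
theorem aScv : ScvStmt := tScv aCv
theorem aCww : CwwStmt := tCww aCv
theorem aDew : DewStmt := tDew aCv aScv aCww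
theorem aGri : GriStmt := tGri
theorem aFyy : FyyStmt := tFyy aCv aScv aCww aGri
theorem aGyy : GyyStmt := tGyy aDew aFyy
theorem aSqr : SqrStmt := tSqr aApc
theorem aUb : UbStmt := tUb aClf aMns
theorem aGys : GysStmt := tGys aGyy aSqr aUb
theorem aDdb : DdbStmt := tDdb aGys aTdy aPmt aAsy
theorem aCnd : CndStmt := tCnd
theorem aTai : TaiStmt := tTai
theorem aGdi : GdiStmt := tGdi
theorem aSer : SerStmt := tSer aTai aGdi
theorem aChb : ChbStmt := tChb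
theorem aIdr : IdrStmt := tIdr
theorem aRec : RecStmt := tRec aIdr
theorem aGlo : GloStmt := tGlo
theorem aLo1 : Lo1Stmt := tLo1 aGlo aSer aChb
theorem aGin : GinStmt := tGin
theorem aZse : ZseStmt := tZse aTai aGdi aGin
theorem aTrv : TrvStmt := tTrv aSer aZse aChb
theorem aLo2 : Lo2Stmt := tLo2 aGlo aSer aChb aTrv
theorem aTrl : TrlStmt := tTrl
theorem aLnk : LnkStmt := tLnk aSer aChb
theorem aSgAb : SgAbStmt := tSgAb
theorem aSgEl : SgElStmt := tSgEl aSgAb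
theorem aSgCt : SgCtStmt := tSgCt aSgEl
theorem aSgZ : SgZStmt := tSgZ
theorem aSgHy : SgHyStmt := tSgHy
theorem aSgOn : SgOnStmt := tSgOn aSgEl aSgZ aSgHy
theorem aSgNa : SgNaStmt := tSgNa
theorem aSgPo : SgPoStmt := tSgPo aSgOn aSgNa
theorem aSgCa : SgCaStmt := tSgCa aSgOn aSgNa
theorem aSgHa : SgHaStmt := tSgHa
theorem aSgMu : SgMuStmt := tSgMu aSgEl aSgHa aSgHy
theorem aSgFo : SgFoStmt := tSgFo aSgEl aSgHa aSgHy aSgOn aSgMu
theorem aSgNb : SgNbStmt := tSgNb aSgNa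
theorem aSgUp : SgUpStmt := tSgUp aSgEl aSgHa
theorem aSgCb : SgCbStmt := tSgCb aSgFo aSgNb aSgUp aSgPo
theorem aSgSi : SgSiStmt := tSgSi aSgCt aSgPo aSgCa aSgCb
theorem aSgPc : SgPcStmt := tSgPc
theorem aSgCh : SgChStmt := tSgCh aSgPc
theorem aSgPd : SgPdStmt := tSgPd aSgPc aSgCh
theorem aSgLf : SgLfStmt := tSgLf aSgEl aSgCt aSgCh
theorem aSie : SieStmt := tSie aSgSi aSgCh aSgPd aSgLf
theorem aLoF : LoFStmt := tLoF aLo1 aLo2 aTrl aLnk aSie
theorem aFkk : FkkStmt := tFkk aSer aChb aRec aLoF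
theorem aSmb : SmbStmt := tSmb
theorem aKer : KerStmt := tKer
theorem aPer : PerStmt := tPer aKer
theorem aUns : UnsStmt := tUns
theorem aPas : PasStmt := tPas
theorem aPrs : PrsStmt := tPrs aPer aUns aPas
theorem aPps : PpsStmt := tPps
theorem aSw : SwStmt := tSw aFkk aSmb aPrs aPps
theorem aLpc : LpcStmt := tLpc
theorem aLsw : LswStmt := tLsw aSw aLpc
theorem aLct : LctStmt := tLct
theorem aLmo : LmoStmt := tLmo
theorem aLbl : LblStmt := tLbl aLmo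
theorem aLft : LftStmt := tLft aGri aLbl
theorem aLow : LowStmt := tLow aCnd aLsw aLct aLft
theorem aCpt : CptStmt := tCpt
theorem aZlo : ZloStmt := tZlo aGlo aZse
theorem aZkk : ZkkStmt := tZkk aCpt aRec aZse aZlo
theorem aLir : LirStmt := tLir
theorem aPnt : PntStmt := tPnt aZkk aSmb aPrs aPps aLir
theorem aMtm : MtmStmt := tMtm aPnt
theorem aDdc : DdcStmt := tDdc aLow aMtm aTdy aPmt aAsy
theorem aDfu : DfuStmt := tDfu
theorem aSew : SewStmt := tSew aGri aDfu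
theorem aRou : RouStmt := tRou
theorem aPri : PriStmt := tPri
theorem aNrw : NrwStmt := tNrw aRou aPri
theorem aInj : InjStmt := tInj
theorem aPr2 : Pr2Stmt := tPr2
theorem aFar : FarStmt := tFar
theorem aGau : GauStmt := tGau
theorem aOrt : OrtStmt := tOrt
theorem aLsm : LsmStmt := tLsm aFar aGau aOrt
theorem aBlk : BlkStmt := tBlk aLsm
theorem aBil : BilStmt := tBil aBlk
theorem aTyj : TyjStmt := tTyj aSew aNrw aInj aPr2 aBil aTot
theorem aTy2 : Ty2Stmt := tTy2 aTyj aGri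
theorem aKsm : KsmStmt := tKsm
theorem aDdd : DddStmt := tDdd aTy2 aKsm aPmt aAsy
theorem aDya : DyaStmt := tDya aPtw aDda aDdb aDdc aDdd
theorem aBtt : BttStmt := tBtt aUb
theorem aDyb : DybStmt := tDyb aDya aBtt aTdy
theorem aDyc : DycStmt := tDyc aDyb
theorem aFin : FinStmt := tFin aDyc
theorem aTdl : TdlStmt := tTdl aTot
theorem aExa : ExaStmt := tExa aBtt aTdl
theorem aExb : ExbStmt := tExb aTdl
theorem aExt : ExtStmt := tExt aFin aExa aExb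

end Pool.Agent.Lib.BV
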