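import Pool.Agent.Lib.BV.SpecD

/-!
MP_00e23e_nt, directory Lib/BV, module Ddd: the large conductors, summed over a dyadic block of moduli.
-/

namespace Pool.Agent.Lib.BV

open Finset Pool.Agent.Lib.EH3 Pool.Agent.Results.MP_00e23e_nt

private theorem Ddd_log16 : (2.72 : ℝ) ≤ Real.log 16 := by
  have h : Real.log 16 = 4 * Real.log 2 := by
    rw [show (16 : ℝ) = 2 ^ 4 by norm_num, Real.log_pow]; norm_num
  rw [h]; have := Real.log_two_gt_d9; linarith

private theorem Ddd_loglog (K : ℝ) (hK : 16 ≤ K) : 1 ≤ Real.log (Real.log K) := by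
  have h16 := Real.log_le_log (by norm_num) hK
  have h2 := Ddd_log16
  rw [Real.le_log_iff_exp_le (by linarith)]
  have h1 : Real.exp 1 < 2.7182818286 := Real.exp_one_lt_d9
  linarith

private theorem Ddd_log400 : Real.log 400 ≤ 6 := by
  have h4 : Real.exp 1 > 2.7182818283 := Real.exp_one_gt_d9
  rw [Real.log_le_iff_le_exp (by norm_num)]
  have h5 : Real.exp 6 = (Real.exp 1) ^ 6 := by
    rw [← Real.exp_nat_mul]; norm_num
  rw [h5]
  calc (400 : ℝ) ≤ (2.718 : ℝ) ^ 6 := by norm_num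
    _ ≤ (Real.exp 1) ^ 6 := pow_le_pow_left₀ (by norm_num) (by linarith) 6

theorem tDdd (h1 : Ty2Stmt) (h2 : KsmStmt) (h3 : PmtStmt) (h4 : AsyStmt) : DddStmt := by
  intro A hA
  obtain ⟨C2, hC2, ht⟩ := h1
  obtain ⟨xa, hxa16, hpm⟩ := h3 A hA
  obtain ⟨xb, hxb16, has⟩ := h4 A (2 * A + 16) hA (by positivity)
  refine ⟨512 * C2, max xa xb, by positivity, hxa16.trans (le_max_left _ _), ?_⟩
  intro x K0 D y l hx hK0 hK0' hD hDK hy hl
  have hxa : xa ≤ x := (le_max_left _ _).trans hx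
  have hxb : xb ≤ x := (le_max_right _ _).trans hx
  obtain ⟨p1, p2, p3, p4, p5, p6, p7, p8, p9, p10⟩ := hpm x K0 hxa hK0 hK0'
  obtain ⟨a1, a2, a3, a4⟩ := has x hxb
  have a1' := a1 K0 hK0 hK0'
  have hx16 : 16 ≤ x := hxa16.trans hxa
  have hx0 : 0 < x := by linarith
  have hx1 : 1 ≤ x := by linarith
  have hK0pos : 0 < K0 := by linarith
  have hL0 : 0 < Real.log x := by linarith
  have hL1 : 1 ≤ Real.log x := by linarith
  have hκ0 : 0 < Real.log K0 := Real.log_pos (by linarith)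
  have hκ1 : 1 ≤ Real.log K0 := by
    have := Real.log_le_log (by norm_num) hK0
    linarith [Ddd_log16]
  have hll := Ddd_loglog K0 hK0
  have hZ2 : (2 : ℝ) ≤ (zz x K0 : ℝ) := by exact_mod_cast p1
  generalize hz : zz x K0 = z at *
  have hZ0 : (0 : ℝ) < (z : ℝ) := by linarith
  have hZ1 : (1 : ℝ) ≤ (z : ℝ) := by linarith
  have hlz : 0 < Real.log (z : ℝ) := Real.log_pos (by linarith)
  have hsx : 0 < Real.sqrt x := Real.sqrt_pos.mpr hx0
  have hss : Real.sqrt x * Real.sqrt x = x := Real.mul_self_sqrt hx0.le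
  have hη : (0 : ℝ) < 1 / K0 := by positivity
  have hη2 : 1 / K0 ≤ (1 : ℝ) / 2 := by
    apply one_div_le_one_div_of_le (by norm_num); linarith
  -- powers of the logarithm
  have hP4 : 0 < (Real.log x) ^ (A + 4) := Real.rpow_pos_of_pos hL0 _
  have hP2 : 0 < (Real.log x) ^ (A + 2) := Real.rpow_pos_of_pos hL0 _
  have hP8 : 0 < (Real.log x) ^ (A + 8) := Real.rpow_pos_of_pos hL0 _
  have hP0 : 0 < (Real.log x) ^ A := Real.rpow_pos_of_pos hL0 _
  have h41 : (1 : ℝ) ≤ (Real.log x) ^ (A + 4) := Real.one_le_rpow hL1 (by linarith)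
  have hQ1 : 1 ≤ ⌊(Real.log x) ^ (A + 4)⌋₊ := (Nat.one_le_floor_iff _).mpr h41
  have hQ2 : (Real.log x) ^ (A + 4) / 2 ≤ (⌊(Real.log x) ^ (A + 4)⌋₊ : ℝ) := by
    have h5 := Nat.lt_floor_add_one ((Real.log x) ^ (A + 4))
    have h6 : (1 : ℝ) ≤ (⌊(Real.log x) ^ (A + 4)⌋₊ : ℝ) := by exact_mod_cast hQ1
    linarith
  have hty := ht x (1 / K0) z (KK x K0) (JJ x) ⌊(Real.log x) ^ (A + 4)⌋₊ D y l (by linarith) hη hη2
    p1 hQ1 hD (fun d => (hy d).2)
  refine (sum_le_sum_of_subset_of_nonneg ?_ (fun _ _ _ => norm_nonneg _)).trans (hty.trans ?_)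
  · intro d hd
    have := mem_Ioc.mp hd
    exact mem_Icc.mpr ⟨by omega, this.2⟩
  -- the sum over k
  have hS : ∑ k ∈ range (KK x K0), 1 / Real.log ((z : ℝ) * 2 ^ k) ≤
      16 * Real.log (Real.log K0) := by
    refine (h2 z (KK x K0) p1).trans ?_
    have e1 : Real.log ((z : ℝ) * 2 ^ (KK x K0)) ≤ Real.log x := Real.log_le_log (by positivity) p8
    have e0 : 0 < Real.log ((z : ℝ) * 2 ^ (KK x K0)) := by
      apply Real.log_pos
      have h7 : (1 : ℝ) ≤ 2 ^ (KK x K0) := one_le_pow₀ (by norm_num)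
      exact lt_of_lt_of_le (by linarith) (le_mul_of_one_le_right hZ0.le h7)
    have e2 : Real.log ((z : ℝ) * 2 ^ (KK x K0)) / Real.log z ≤ 400 * Real.log K0 := by
      rw [div_le_iff₀ hlz]
      have e3 : Real.log x ≤ Real.log z * (400 * Real.log K0) := by
        rwa [div_le_iff₀ (by positivity)] at p3
      linarith
    have e4 : Real.log (Real.log ((z : ℝ) * 2 ^ (KK x K0)) / Real.log z) ≤
        Real.log (400 * Real.log K0) := Real.log_le_log (by positivity) e2
    rw [Real.log_mul (by norm_num) hκ0.ne'] at e4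
    linarith [Ddd_log400]
  have hS0 : 0 ≤ ∑ k ∈ range (KK x K0), 1 / Real.log ((z : ℝ) * 2 ^ k) := by
    apply sum_nonneg
    intro k _
    apply one_div_nonneg.mpr
    apply Real.log_nonneg
    exact one_le_mul_of_one_le_of_one_le hZ1 (one_le_pow₀ (by norm_num))
  -- the bracket
  have hDr : (1 : ℝ) ≤ D := by exact_mod_cast hD
  have hDs : (D : ℝ) ≤ Real.sqrt x := by
    have e5 : (1 : ℝ) ≤ K0 * Real.log x := one_le_mul_of_one_le_of_one_le (by linarith) hL1
    calc (D : ℝ) = D * 1 := (mul_one _).symm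
      _ ≤ D * (K0 * Real.log x) := mul_le_mul_of_nonneg_left e5 (by linarith)
      _ = (D : ℝ) * K0 * Real.log x := by ring
      _ ≤ _ := hDK
  have hsx_le : Real.sqrt x ≤ x := by
    have e6 : 1 ≤ Real.sqrt x := by rw [Real.one_le_sqrt]; exact hx1
    calc Real.sqrt x = Real.sqrt x * 1 := (mul_one _).symm
      _ ≤ Real.sqrt x * Real.sqrt x := mul_le_mul_of_nonneg_left e6 hsx.le
      _ = x := hss
  have hlD0 : 0 ≤ Real.log (D : ℝ) := Real.log_nonneg hDr
  have hlD : 1 + Real.log (D : ℝ) ≤ 2 * Real.log x := by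
    have := Real.log_le_log (by linarith) (hDs.trans hsx_le)
    linarith
  have hlD2 : (1 + Real.log (D : ℝ)) ^ 2 ≤ 4 * (Real.log x) ^ 2 := by
    calc (1 + Real.log (D : ℝ)) ^ 2 ≤ (2 * Real.log x) ^ 2 := pow_le_pow_left₀ (by linarith) hlD 2
      _ = _ := by ring
  have hq : Real.sqrt x / (⌊(Real.log x) ^ (A + 4)⌋₊ : ℝ) ≤
      2 * (Real.sqrt x / (Real.log x) ^ (A + 4)) := by
    calc Real.sqrt x / (⌊(Real.log x) ^ (A + 4)⌋₊ : ℝ) ≤
        Real.sqrt x / ((Real.log x) ^ (A + 4) / 2) :=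
          div_le_div_of_nonneg_left hsx.le (by positivity) hQ2
      _ = _ := by field_simp
  have hzz : Real.sqrt (x / z) ≤ Real.sqrt x / (Real.log x) ^ (A + 8) := by
    rw [Real.sqrt_div hx0.le]
    refine div_le_div_of_nonneg_left hsx.le hP8 ?_
    apply Real.le_sqrt_of_sq_le
    have e7 : ((Real.log x) ^ (A + 8)) ^ 2 = (Real.log x) ^ (2 * A + 16) := by
      rw [← Real.rpow_natCast, ← Real.rpow_mul hL0.le]
      congr 1; push_cast; ring
    rw [e7]
    refine a2.trans ?_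
    rw [← Real.exp_log hZ0]
    exact Real.exp_le_exp.mpr p4
  have h48 : (Real.log x) ^ (A + 8) = (Real.log x) ^ (A + 4) * (Real.log x) ^ 4 := by
    rw [show A + 8 = (A + 4) + ((4 : ℕ) : ℝ) by push_cast; ring, Real.rpow_add hL0,
      Real.rpow_natCast]
  have h24 : (Real.log x) ^ (A + 4) = (Real.log x) ^ (A + 2) * (Real.log x) ^ 2 := by
    rw [show A + 4 = (A + 2) + ((2 : ℕ) : ℝ) by push_cast; ring, Real.rpow_add hL0,
      Real.rpow_natCast]
  have h02 : (Real.log x) ^ (A + 2) = (Real.log x) ^ A * (Real.log x) ^ 2 := by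
    rw [show A + 2 = A + ((2 : ℕ) : ℝ) by push_cast; ring, Real.rpow_add hL0,
      Real.rpow_natCast]
  have hzb : Real.sqrt (x / z) * (1 + Real.log (D : ℝ)) ≤
      2 * (Real.sqrt x / (Real.log x) ^ (A + 4)) := by
    calc Real.sqrt (x / z) * (1 + Real.log (D : ℝ))
        ≤ (Real.sqrt x / (Real.log x) ^ (A + 8)) * (2 * Real.log x) :=
          mul_le_mul hzz hlD (by linarith) (by positivity)
      _ = 2 * (Real.sqrt x / (Real.log x) ^ (A + 4)) * (1 / (Real.log x) ^ 3) := by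
          rw [h48]; field_simp
      _ ≤ 2 * (Real.sqrt x / (Real.log x) ^ (A + 4)) * 1 := by
          refine mul_le_mul_of_nonneg_left ?_ (by positivity)
          rw [div_le_one (by positivity)]
          exact one_le_pow₀ hL1
      _ = _ := mul_one _
  have hE : (1 + Real.log (D : ℝ)) ^ 2 * (Real.sqrt x / (⌊(Real.log x) ^ (A + 4)⌋₊ : ℝ) +
      Real.sqrt (x / z) * (1 + Real.log (D : ℝ))) + D ≤
      16 * (Real.sqrt x / (Real.log x) ^ (A + 2)) + D := by
    have e8 : Real.sqrt x / (⌊(Real.log x) ^ (A + 4)⌋₊ : ℝ) +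
      Real.sqrt (x / z) * (1 + Real.log (D : ℝ)) ≤ 4 * (Real.sqrt x / (Real.log x) ^ (A + 4)) := by
      linarith
    have e9 : 0 ≤ Real.sqrt x / (⌊(Real.log x) ^ (A + 4)⌋₊ : ℝ) +
      Real.sqrt (x / z) * (1 + Real.log (D : ℝ)) := by positivity
    have e10 := mul_le_mul hlD2 e8 e9 (by positivity)
    have e11 : 4 * (Real.log x) ^ 2 * (4 * (Real.sqrt x / (Real.log x) ^ (A + 4))) =
        16 * (Real.sqrt x / (Real.log x) ^ (A + 2)) := by
      rw [h24]; field_simp; ring
    linarith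
  have hE0 : 0 ≤ (1 + Real.log (D : ℝ)) ^ 2 * (Real.sqrt x / (⌊(Real.log x) ^ (A + 4)⌋₊ : ℝ) +
      Real.sqrt (x / z) * (1 + Real.log (D : ℝ))) + D := by positivity
  have hη3 : 1 + Real.log (1 / (1 / K0)) ≤ 2 * Real.log K0 := by
    rw [one_div_one_div]; linarith
  have hη4 : 0 ≤ 1 + Real.log (1 / (1 / K0)) := by
    rw [one_div_one_div]; linarith
  -- the final estimate
  have hκL : Real.log K0 * Real.log (Real.log K0) ≤ Real.log x := by
    have e12 : Real.log (Real.log K0) ≤ Real.log K0 := by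
      have := Real.log_le_sub_one_of_pos hκ0
      linarith
    have e13 : Real.log K0 ≤ Real.sqrt (Real.log x) := by linarith
    calc Real.log K0 * Real.log (Real.log K0) ≤ Real.log K0 * Real.log K0 :=
          mul_le_mul_of_nonneg_left e12 hκ0.le
      _ ≤ Real.sqrt (Real.log x) * Real.sqrt (Real.log x) :=
          mul_le_mul e13 e13 hκ0.le (Real.sqrt_nonneg _)
      _ = Real.log x := Real.mul_self_sqrt hL0.le
  have hw0 : 0 ≤ Real.log K0 * Real.log (Real.log K0) := mul_nonneg hκ0.le (by linarith)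
  have hmain1 : (Real.log K0 * Real.log (Real.log K0)) * (x / (Real.log x) ^ (A + 2)) ≤
      x / (Real.log x) ^ A := by
    calc (Real.log K0 * Real.log (Real.log K0)) * (x / (Real.log x) ^ (A + 2))
        ≤ Real.log x * (x / (Real.log x) ^ (A + 2)) :=
          mul_le_mul_of_nonneg_right hκL (by positivity)
      _ = x / (Real.log x) ^ A * (1 / Real.log x) := by
          rw [h02]; field_simp
      _ ≤ x / (Real.log x) ^ A * 1 := by
          refine mul_le_mul_of_nonneg_left ?_ (by positivity)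
          rw [div_le_one hL0]; exact hL1
      _ = _ := mul_one _
  have hmain2 : Real.sqrt x * D ≤ x / (K0 * Real.log x) := by
    rw [le_div_iff₀ (by positivity)]
    calc Real.sqrt x * D * (K0 * Real.log x) = ((D : ℝ) * K0 * Real.log x) * Real.sqrt x := by ring
      _ ≤ Real.sqrt x * Real.sqrt x := mul_le_mul_of_nonneg_right hDK hsx.le
      _ = x := hss
  have hmain3 := mul_le_mul_of_nonneg_left hmain2 hw0
  have hb1 : C2 * (1 + Real.log (1 / (1 / K0))) ≤ C2 * (2 * Real.log K0) :=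
    mul_le_mul_of_nonneg_left hη3 hC2.le
  have hb2 : Real.sqrt x * ∑ k ∈ range (KK x K0), 1 / Real.log ((z : ℝ) * 2 ^ k) ≤
      Real.sqrt x * (16 * Real.log (Real.log K0)) := mul_le_mul_of_nonneg_left hS hsx.le
  have hb12 := mul_le_mul hb1 hb2 (mul_nonneg hsx.le hS0) (by positivity)
  have hll0 : 0 ≤ Real.log (Real.log K0) := by linarith
  have hb3 := mul_le_mul hb12 hE hE0 (by positivity)
  refine hb3.trans ?_
  have hfin : C2 * (2 * Real.log K0) * (Real.sqrt x * (16 * Real.log (Real.log K0))) *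
      (16 * (Real.sqrt x / (Real.log x) ^ (A + 2)) + D) =
      (32 * C2) * (16 * ((Real.log K0 * Real.log (Real.log K0)) * (x / (Real.log x) ^ (A + 2))) +
        (Real.log K0 * Real.log (Real.log K0)) * (Real.sqrt x * D)) := by
    have e14 : x / (Real.log x) ^ (A + 2) =
        Real.sqrt x * (Real.sqrt x / (Real.log x) ^ (A + 2)) := by
      rw [← mul_div_assoc, hss]
    rw [e14]; ring
  rw [hfin]
  have hMBe : MB A x K0 = x / (Real.log x) ^ A + (Real.log K0 * Real.log (Real.log K0)) *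
      (x / (K0 * Real.log x)) := by
    unfold MB; ring
  rw [hMBe]
  have e15 : 0 ≤ (Real.log K0 * Real.log (Real.log K0)) * (x / (K0 * Real.log x)) :=
    mul_nonneg hw0 (by positivity)
  calc (32 * C2) * (16 * ((Real.log K0 * Real.log (Real.log K0)) * (x / (Real.log x) ^ (A + 2))) +
        (Real.log K0 * Real.log (Real.log K0)) * (Real.sqrt x * D))
      ≤ (32 * C2) * (16 * (x / (Real.log x) ^ A) + 16 * ((Real.log K0 * Real.log (Real.log K0)) *
          (x / (K0 * Real.log x)))) := by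
        refine mul_le_mul_of_nonneg_left ?_ (by positivity)
        linarith
    _ = _ := by ring

end Pool.Agent.Lib.BV
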