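import Pool.Agent.Lib.BV.SpecC

/-!
MP_00e23e_nt, BV, module Dfu: finite Fourier expansion of cut offs with a uniform majorant.
-/

namespace Pool.Agent.Lib.BV

open Finset Pool.Agent.Lib.EH3

/-- the coefficients -/
noncomputable def Dfu_c (N0 T h : ℕ) : ℂ :=
  (1 / (2 * (N0 : ℂ) + 2)) * GG T (-((h : ℝ) / (2 * (N0 : ℝ) + 2)))

/-- the majorant -/
noncomputable def Dfu_g (N0 h : ℕ) : ℝ :=
  if h = 0 then 1 else if h < 2 * N0 + 2 then
    (1 / 2) * (1 / (h : ℝ) + 1 / (2 * (N0 : ℝ) + 2 - h)) else 0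

lemma Dfu_round {M h : ℕ} (h0 : 0 < h) (hM : h < M) :
    1 / |(-((h : ℝ) / M)) - round (-((h : ℝ) / M))| ≤ (M : ℝ) / h + (M : ℝ) / ((M : ℝ) - h) := by
  have hMR : (0 : ℝ) < M := by exact_mod_cast (h0.trans hM)
  have hhR : (0 : ℝ) < h := by exact_mod_cast h0
  have hlt : (h : ℝ) < M := by exact_mod_cast hM
  have h1 : (h : ℝ) / M < 1 := by rw [div_lt_one hMR]; exact hlt
  have h2 : 0 < (h : ℝ) / M := by positivity
  have h3 : Int.fract (-((h : ℝ) / M)) = 1 - (h : ℝ) / M := by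
    rw [Int.fract_eq_iff]
    refine ⟨by linarith, by linarith, -1, ?_⟩
    push_cast
    ring
  rw [abs_sub_round_eq_min, h3]
  have h4 : 1 - (1 - (h : ℝ) / M) = (h : ℝ) / M := by ring
  rw [h4]
  have h5 : 1 / ((h : ℝ) / M) = (M : ℝ) / h := by rw [one_div_div]
  have h6 : 1 / (1 - (h : ℝ) / M) = (M : ℝ) / ((M : ℝ) - h) := by
    have h7 : 1 - (h : ℝ) / M = ((M : ℝ) - h) / M := by field_simp
    rw [h7, one_div_div]
  have h8 : 0 ≤ (M : ℝ) / h := by positivity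
  have h9 : 0 ≤ (M : ℝ) / ((M : ℝ) - h) := div_nonneg hMR.le (by linarith)
  rcases min_choice (1 - (h : ℝ) / M) ((h : ℝ) / M) with h10 | h10
  · rw [h10, h6]
    linarith
  · rw [h10, h5]
    linarith

lemma Dfu_norm (N0 T h : ℕ) (h0 : 0 < h) (hM : h < 2 * N0 + 2) :
    ‖Dfu_c N0 T h‖ ≤ (1 / 2) * (1 / (h : ℝ) + 1 / (2 * (N0 : ℝ) + 2 - h)) := by
  have hMR : (0 : ℝ) < 2 * (N0 : ℝ) + 2 := by positivity
  have hhR : (0 : ℝ) < h := by exact_mod_cast h0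
  have hlt : (h : ℝ) < 2 * (N0 : ℝ) + 2 := by exact_mod_cast hM
  have h1 := Dfu_round h0 hM
  push_cast at h1
  have h2 := norm_GG_mul_le T (-((h : ℝ) / (2 * (N0 : ℝ) + 2)))
  set t : ℝ := -((h : ℝ) / (2 * (N0 : ℝ) + 2)) with ht
  have h3 : 0 < |t - round t| := by
    rcases eq_or_lt_of_le (abs_nonneg (t - round t)) with h4 | h4
    · exfalso
      have h5 : Int.fract t = 1 - (h : ℝ) / (2 * (N0 : ℝ) + 2) := by
        rw [Int.fract_eq_iff]
        refine ⟨?_, ?_, -1, ?_⟩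
        · rw [sub_nonneg, div_le_one hMR]
          exact hlt.le
        · have : 0 < (h : ℝ) / (2 * (N0 : ℝ) + 2) := by positivity
          linarith
        · rw [ht]
          push_cast
          ring
      rw [abs_sub_round_eq_min, h5] at h4
      have h6 : (h : ℝ) / (2 * (N0 : ℝ) + 2) < 1 := by rw [div_lt_one hMR]; exact hlt
      have h7 : 0 < (h : ℝ) / (2 * (N0 : ℝ) + 2) := by positivity
      have h8 : 0 < min (1 - (h : ℝ) / (2 * (N0 : ℝ) + 2)) (1 - (1 - (h : ℝ) / (2 * (N0 : ℝ) + 2))) :=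
        lt_min (by linarith) (by linarith)
      linarith
    · exact h4
  have h4 : ‖GG T t‖ ≤ (1 / 2) * (1 / |t - round t|) := by
    rw [one_div_mul_one_div, le_div_iff₀ (by positivity)]
    linarith
  have h5 : ‖Dfu_c N0 T h‖ = (1 / (2 * (N0 : ℝ) + 2)) * ‖GG T t‖ := by
    unfold Dfu_c
    rw [norm_mul]
    congr 1
    rw [norm_div, norm_one]
    have h6 : (2 * (N0 : ℂ) + 2) = (((2 * (N0 : ℝ) + 2 : ℝ)) : ℂ) := by push_cast; ring
    rw [h6, Complex.norm_real, Real.norm_of_nonneg hMR.le]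
  rw [h5]
  have h6 : (1 / (2 * (N0 : ℝ) + 2)) * ((1 / 2) * ((2 * (N0 : ℝ) + 2) / h +
      (2 * (N0 : ℝ) + 2) / (2 * (N0 : ℝ) + 2 - h))) =
      (1 / 2) * (1 / (h : ℝ) + 1 / (2 * (N0 : ℝ) + 2 - h)) := by
    have h7 : (2 * (N0 : ℝ) + 2 - h) ≠ 0 := by linarith
    field_simp
  rw [← h6]
  refine mul_le_mul_of_nonneg_left ?_ (by positivity)
  refine h4.trans ?_
  exact mul_le_mul_of_nonneg_left h1 (by norm_num)

lemma Dfu_zero (N0 T : ℕ) (hT : T ≤ 2 * N0 + 1) : ‖Dfu_c N0 T 0‖ ≤ 1 := by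
  have hMR : (0 : ℝ) < 2 * (N0 : ℝ) + 2 := by positivity
  unfold Dfu_c
  have h6 : (2 * (N0 : ℂ) + 2) = (((2 * (N0 : ℝ) + 2 : ℝ)) : ℂ) := by push_cast; ring
  rw [norm_mul, norm_div, norm_one, h6, Complex.norm_real, Real.norm_of_nonneg hMR.le]
  have h1 := norm_GG_le T (-(((0 : ℕ) : ℝ) / (2 * (N0 : ℝ) + 2)))
  rw [one_div, inv_mul_le_iff₀ hMR]
  refine h1.trans ?_
  have h2 : (T : ℝ) ≤ 2 * (N0 : ℝ) + 1 := by exact_mod_cast hT
  linarith

lemma Dfu_le (N0 T h : ℕ) (hT : T ≤ 2 * N0 + 1) (hh : h < 2 * N0 + 2) :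
    ‖Dfu_c N0 T h‖ ≤ Dfu_g N0 h := by
  unfold Dfu_g
  by_cases h0 : h = 0
  · rw [if_pos h0, h0]
    exact Dfu_zero N0 T hT
  · rw [if_neg h0, if_pos hh]
    exact Dfu_norm N0 T h (Nat.pos_of_ne_zero h0) hh

lemma Dfu_nonneg (N0 h : ℕ) : 0 ≤ Dfu_g N0 h := by
  unfold Dfu_g
  split_ifs with h0 h1
  · norm_num
  · have h2 : (h : ℝ) < 2 * (N0 : ℝ) + 2 := by exact_mod_cast h1
    have h3 : 0 ≤ 1 / (2 * (N0 : ℝ) + 2 - h) := by
      refine div_nonneg (by norm_num) (by linarith)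
    positivity
  · exact le_rfl

lemma Dfu_harm (n : ℕ) : ∑ k ∈ range n, 1 / ((k : ℝ) + 1) ≤ 1 + Real.log n := by
  have h1 := harmonic_le_one_add_log n
  have h2 : ((harmonic n : ℚ) : ℝ) = ∑ k ∈ range n, 1 / ((k : ℝ) + 1) := by
    unfold harmonic
    push_cast
    exact Finset.sum_congr rfl fun k _ => (one_div _).symm
  rw [← h2]
  exact h1

lemma Dfu_sum (N0 : ℕ) : ∑ h ∈ range (2 * N0 + 2), Dfu_g N0 h ≤
    4 * (1 + Real.log ((N0 : ℝ) + 1)) := by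
  have h1 : ∑ k ∈ range (2 * N0 + 1), Dfu_g N0 (k + 1) =
      ∑ k ∈ range (2 * N0 + 1), (1 / 2) * (1 / ((k : ℝ) + 1) +
        1 / (((2 * N0 + 1 - 1 - k : ℕ) : ℝ) + 1)) := by
    refine Finset.sum_congr rfl fun k hk => ?_
    have hk' := mem_range.1 hk
    unfold Dfu_g
    rw [if_neg (by omega), if_pos (by omega)]
    have h3 : ((2 * N0 + 1 - 1 - k : ℕ) : ℝ) = 2 * (N0 : ℝ) - k := by
      rw [Nat.add_sub_cancel, Nat.cast_sub (by omega)]
      push_cast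
      ring
    rw [h3]
    push_cast
    have h4 : 2 * (N0 : ℝ) + 2 - ((k : ℝ) + 1) = 2 * (N0 : ℝ) - k + 1 := by ring
    rw [h4]
  have h2 : ∑ k ∈ range (2 * N0 + 1), (1 / 2) * (1 / ((k : ℝ) + 1) +
        1 / (((2 * N0 + 1 - 1 - k : ℕ) : ℝ) + 1)) = ∑ k ∈ range (2 * N0 + 1), 1 / ((k : ℝ) + 1) := by
    rw [← Finset.mul_sum, Finset.sum_add_distrib,
      Finset.sum_range_reflect (fun k : ℕ => 1 / ((k : ℝ) + 1)) (2 * N0 + 1)]
    ring
  have h3 := Dfu_harm (2 * N0 + 1)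
  have h4 : Real.log ((2 * N0 + 1 : ℕ) : ℝ) ≤ Real.log 2 + Real.log ((N0 : ℝ) + 1) := by
    rw [← Real.log_mul (by norm_num) (by positivity)]
    refine Real.log_le_log (by positivity) ?_
    push_cast
    linarith
  have h5 : Real.log 2 ≤ 1 := by
    have := Real.log_two_lt_d9
    linarith
  have h6 : 0 ≤ Real.log ((N0 : ℝ) + 1) := Real.log_nonneg (by
    have : (0 : ℝ) ≤ N0 := Nat.cast_nonneg _
    linarith)
  rw [Finset.sum_range_succ' (fun h => Dfu_g N0 h) (2 * N0 + 1), h1, h2]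
  have h7 : Dfu_g N0 0 = 1 := by
    unfold Dfu_g
    rw [if_pos rfl]
  linarith

lemma Dfu_id (N0 T i j : ℕ) (hT : T ≤ 2 * N0 + 1) (hi : i ≤ N0) (hj : j ≤ N0) :
    ∑ h ∈ range (2 * N0 + 2), Dfu_c N0 T h * ee ((h : ℝ) * ((i : ℝ) + j) / (2 * (N0 : ℝ) + 2)) =
      if i + j < T then 1 else 0 := by
  have hMR : (0 : ℝ) < 2 * (N0 : ℝ) + 2 := by positivity
  have h1 : ∀ h ∈ range (2 * N0 + 2), Dfu_c N0 T h *
      ee ((h : ℝ) * ((i : ℝ) + j) / (2 * (N0 : ℝ) + 2)) =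
      (1 / (2 * (N0 : ℂ) + 2)) * ∑ k ∈ range T,
        ee ((h : ℝ) * ((((i : ℤ) + j - k : ℤ) : ℝ) / ((2 * N0 + 2 : ℕ) : ℝ))) := by
    intro h _
    unfold Dfu_c GG
    rw [mul_assoc, Finset.sum_mul]
    congr 1
    refine Finset.sum_congr rfl fun k _ => ?_
    rw [← ee_add]
    congr 1
    push_cast
    field_simp
    ring
  rw [Finset.sum_congr rfl h1, ← Finset.mul_sum, Finset.sum_comm]
  have h2 : ∀ k ∈ range T, ∑ h ∈ range (2 * N0 + 2),
      ee ((h : ℝ) * ((((i : ℤ) + j - k : ℤ) : ℝ) / ((2 * N0 + 2 : ℕ) : ℝ))) =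
      if k = i + j then ((2 * N0 + 2 : ℕ) : ℂ) else 0 := by
    intro k hk
    have hk' := mem_range.1 hk
    rw [orth (by omega)]
    by_cases hkt : k = i + j
    · rw [if_pos hkt, if_pos]
      rw [hkt]
      push_cast
      rw [sub_self]
      exact dvd_zero _
    · rw [if_neg hkt, if_neg]
      intro hdvd
      have h3 := Int.eq_zero_of_abs_lt_dvd hdvd (by
        rw [abs_lt]
        constructor <;> omega)
      omega
  rw [Finset.sum_congr rfl h2, Finset.sum_ite_eq']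
  have hne : (2 * (N0 : ℂ) + 2) ≠ 0 := by
    have h6 : (2 * (N0 : ℂ) + 2) = (((2 * (N0 : ℝ) + 2 : ℝ)) : ℂ) := by push_cast; ring
    rw [h6]
    exact_mod_cast hMR.ne'
  by_cases hij : i + j < T
  · rw [if_pos (mem_range.2 hij), if_pos hij]
    push_cast
    field_simp
  · rw [if_neg (fun h => hij (mem_range.1 h)), if_neg hij, mul_zero]

theorem tDfu : DfuStmt := by
  intro N0
  refine ⟨Dfu_g N0, Dfu_nonneg N0, Dfu_sum N0, fun T => ?_⟩
  refine ⟨Dfu_c N0 (min T (2 * N0 + 1)), fun h hh => ?_, fun i j hi hj => ?_⟩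
  · exact Dfu_le N0 _ h (min_le_right _ _) (mem_range.1 hh)
  · rw [Dfu_id N0 _ i j (min_le_right _ _) hi hj]
    by_cases h1 : i + j < T
    · rw [if_pos h1, if_pos (lt_min h1 (by omega))]
    · rw [if_neg h1, if_neg (fun h => h1 (h.trans_le (min_le_left _ _)))]

end Pool.Agent.Lib.BV
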