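import Pool.Agent.Lib.BV.SpecF

/-!
MP_00e23e_nt, module Mns: the main terms of the fundamental lemma.
-/

namespace Pool.Agent.Lib.BV

open Finset Pool.Agent.Lib.EH3

private lemma Mns_exp (t : ℝ) (h0 : 0 ≤ t) (h1 : t ≤ 1 / 2) : Real.exp (-(2 * t)) ≤ 1 - t := by
  have h2 : 1 + 2 * t ≤ Real.exp (2 * t) := by
    have := Real.add_one_le_exp (2 * t)
    linarith
  have h3 : 1 ≤ Real.exp (2 * t) * (1 - t) := by
    have h4 : (1 + 2 * t) * (1 - t) ≤ Real.exp (2 * t) * (1 - t) :=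
      mul_le_mul_of_nonneg_right h2 (by linarith)
    nlinarith
  rw [Real.exp_neg]
  rw [inv_le_iff_one_le_mul₀ (Real.exp_pos _), mul_comm]
  exact h3

private lemma Mns_geom (n : ℕ) : ∑ j ∈ range n, Real.exp (-(2 * (j : ℝ) + 1)) ≤ 1 := by
  have h1 : ∀ j : ℕ, Real.exp (-(2 * (j : ℝ) + 1)) ≤ (1 / 2 : ℝ) ^ (j + 1) := by
    intro j
    have h2 : Real.exp (-(2 * (j : ℝ) + 1)) ≤ Real.exp (-1) ^ (j + 1) := by
      rw [← Real.exp_nat_mul]
      refine Real.exp_le_exp.2 ?_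
      push_cast
      have : (0 : ℝ) ≤ j := Nat.cast_nonneg j
      linarith
    refine h2.trans (pow_le_pow_left₀ (Real.exp_pos _).le ?_ _)
    rw [Real.exp_neg, one_div]
    refine inv_anti₀ two_pos ?_
    have := Real.add_one_le_exp (1 : ℝ)
    linarith
  have h3 : ∑ j ∈ range n, (1 / 2 : ℝ) ^ (j + 1) = 1 - (1 / 2) ^ n := by
    induction n with
    | zero => simp
    | succ n ih => rw [sum_range_succ, ih]; ring
  calc ∑ j ∈ range n, Real.exp (-(2 * (j : ℝ) + 1)) ≤ ∑ j ∈ range n, (1 / 2 : ℝ) ^ (j + 1) :=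
        sum_le_sum fun j _ => h1 j
    _ = 1 - (1 / 2) ^ n := h3
    _ ≤ 1 := by
        have : (0 : ℝ) ≤ (1 / 2) ^ n := by positivity
        linarith

private lemma Mns_block (hB : BnfStmt) (hE : EsyStmt) (κ : ℝ) (hκ : 1 ≤ κ)
    (hM : ∀ t : ℕ, ∑ p ∈ (Ioc (Nat.sqrt t) t).filter Nat.Prime, 1 / (p : ℝ) ≤ κ)
    (z d b j : ℕ) :
    0 < ∏ p ∈ pbl z d j, (1 - 1 / (p : ℝ)) ∧
    ∏ p ∈ pbl z d j, (1 - 1 / (p : ℝ)) ≤ Yd z d b j ∧
    Yd z d b j ≤ (∏ p ∈ pbl z d j, (1 - 1 / (p : ℝ))) + Ud z d b j ∧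
    0 ≤ Ud z d b j ∧
    Ud z d b j ≤ (Real.exp (2 * κ) * Real.exp (Real.exp 1 * κ)) * Real.exp (-(b : ℝ)) *
      Real.exp (-(2 * (j : ℝ) + 1)) * ∏ p ∈ pbl z d j, (1 - 1 / (p : ℝ)) := by
  have hmem : ∀ p ∈ pbl z d j, p.Prime := fun p hp => ((mem_filter.1 hp).2).1
  have hx0 : ∀ p : ℕ, (0 : ℝ) ≤ 1 / (p : ℝ) := fun p => by positivity
  have hx2 : ∀ p ∈ pbl z d j, 1 / (p : ℝ) ≤ 1 / 2 := by
    intro p hp
    refine one_div_le_one_div_of_le two_pos ?_
    exact_mod_cast (hmem p hp).two_le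
  have hsum : ∑ p ∈ pbl z d j, 1 / (p : ℝ) ≤ κ := by
    refine le_trans ?_ (hM (thr z j))
    refine sum_le_sum_of_subset_of_nonneg ?_ fun i _ _ => hx0 i
    intro p hp
    rw [pbl, mem_filter] at hp
    exact mem_filter.2 ⟨hp.1, hp.2.1⟩
  have hprod : ∀ s : Finset ℕ, ∏ p ∈ s, 1 / (p : ℝ) = 1 / ((∏ p ∈ s, p : ℕ) : ℝ) := by
    intro s
    rw [prod_div_distrib, prod_const_one, Nat.cast_prod]
  have hWpos : 0 < ∏ p ∈ pbl z d j, (1 - 1 / (p : ℝ)) := by
    refine prod_pos fun p hp => ?_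
    have := hx2 p hp
    linarith
  have hWlow : Real.exp (-(2 * κ)) ≤ ∏ p ∈ pbl z d j, (1 - 1 / (p : ℝ)) := by
    calc Real.exp (-(2 * κ)) ≤ Real.exp (∑ p ∈ pbl z d j, -(2 * (1 / (p : ℝ)))) := by
          refine Real.exp_le_exp.2 ?_
          rw [sum_neg_distrib, ← mul_sum]
          linarith
      _ = ∏ p ∈ pbl z d j, Real.exp (-(2 * (1 / (p : ℝ)))) := Real.exp_sum _ _
      _ ≤ ∏ p ∈ pbl z d j, (1 - 1 / (p : ℝ)) :=
          prod_le_prod (fun p _ => (Real.exp_pos _).le)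
            fun p hp => Mns_exp _ (hx0 p) (hx2 p hp)
  obtain ⟨hb1, hb2⟩ := hB (b + j) (pbl z d j) (fun p => 1 / (p : ℝ))
    (fun p hp => ⟨hx0 p, (hx2 p hp).trans (by norm_num)⟩)
  have hYd : ∑ s ∈ lowS (pbl z d j) (2 * (b + j)), (-1 : ℝ) ^ s.card * ∏ p ∈ s, 1 / (p : ℝ) =
      Yd z d b j := by
    rw [Yd]
    refine sum_congr rfl fun s _ => ?_
    rw [hprod, mul_one_div]
  have hUd : ∑ s ∈ (pbl z d j).powersetCard (2 * (b + j) + 1), ∏ p ∈ s, 1 / (p : ℝ) =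
      Ud z d b j := by
    rw [Ud]
    exact sum_congr rfl fun s _ => hprod s
  have hb1' : ∏ p ∈ pbl z d j, (1 - 1 / (p : ℝ)) ≤ Yd z d b j := by
    rw [← hYd]
    exact hb1
  have hb2' : Yd z d b j ≤ (∏ p ∈ pbl z d j, (1 - 1 / (p : ℝ))) + Ud z d b j := by
    rw [← hYd, ← hUd]
    exact hb2
  refine ⟨hWpos, hb1', hb2', ?_, ?_⟩
  · rw [← hUd]
    exact sum_nonneg fun s _ => prod_nonneg fun p _ => hx0 p
  · set r := 2 * (b + j) + 1 with hr
    have h1 : Ud z d b j ≤ κ ^ r / (r.factorial : ℝ) := by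
      rw [← hUd]
      refine (hE.1 (pbl z d j) (fun p => 1 / (p : ℝ)) r hx0).trans ?_
      refine div_le_div_of_nonneg_right ?_ (Nat.cast_nonneg _)
      exact pow_le_pow_left₀ (sum_nonneg fun p _ => hx0 p) hsum r
    have h2 : κ ^ r / (r.factorial : ℝ) ≤ Real.exp (-(r : ℝ)) * Real.exp (Real.exp 1 * κ) := by
      have h3 := Real.pow_div_factorial_le_exp (Real.exp 1 * κ)
        (mul_nonneg (Real.exp_pos _).le (by linarith)) r
      rw [mul_pow, ← Real.exp_nat_mul, mul_one, mul_div_assoc] at h3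
      calc κ ^ r / (r.factorial : ℝ)
          = Real.exp (-(r : ℝ)) * (Real.exp (r : ℝ) * (κ ^ r / (r.factorial : ℝ))) := by
            rw [← mul_assoc, ← Real.exp_add, neg_add_cancel, Real.exp_zero, one_mul]
        _ ≤ Real.exp (-(r : ℝ)) * Real.exp (Real.exp 1 * κ) :=
            mul_le_mul_of_nonneg_left h3 (Real.exp_pos _).le
    have h4 : Real.exp (-(r : ℝ)) ≤ Real.exp (-(b : ℝ)) * Real.exp (-(2 * (j : ℝ) + 1)) := by
      rw [← Real.exp_add]
      refine Real.exp_le_exp.2 ?_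
      rw [hr]
      push_cast
      have : (0 : ℝ) ≤ b := Nat.cast_nonneg b
      linarith
    have h5 : 1 ≤ Real.exp (2 * κ) * ∏ p ∈ pbl z d j, (1 - 1 / (p : ℝ)) := by
      calc (1 : ℝ) = Real.exp (2 * κ) * Real.exp (-(2 * κ)) := by
            rw [← Real.exp_add, add_neg_cancel, Real.exp_zero]
        _ ≤ _ := mul_le_mul_of_nonneg_left hWlow (Real.exp_pos _).le
    have h6 : (0 : ℝ) ≤ Real.exp (-(b : ℝ)) * Real.exp (-(2 * (j : ℝ) + 1)) *
        Real.exp (Real.exp 1 * κ) := by positivity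
    calc Ud z d b j ≤ Real.exp (-(r : ℝ)) * Real.exp (Real.exp 1 * κ) := h1.trans h2
      _ ≤ Real.exp (-(b : ℝ)) * Real.exp (-(2 * (j : ℝ) + 1)) * Real.exp (Real.exp 1 * κ) :=
          mul_le_mul_of_nonneg_right h4 (Real.exp_pos _).le
      _ ≤ (Real.exp (-(b : ℝ)) * Real.exp (-(2 * (j : ℝ) + 1)) * Real.exp (Real.exp 1 * κ)) *
          (Real.exp (2 * κ) * ∏ p ∈ pbl z d j, (1 - 1 / (p : ℝ))) :=
          le_mul_of_one_le_right h6 h5
      _ = _ := by ring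

theorem tMns (hB : BnfStmt) (hE : EsyStmt) (hP : PbsStmt) (hM : MsbStmt) (hR : MprStmt) :
    MnsStmt := by
  obtain ⟨κ, hκ, hM⟩ := hM
  set c : ℝ := Real.exp (2 * κ) * Real.exp (Real.exp 1 * κ) with hc
  have hc0 : 0 < c := by positivity
  refine ⟨(c + 1) * Real.exp c, by positivity, fun z d b hz hd => ?_⟩
  have hblk := fun j => Mns_block hB hE κ hκ hM z d b j
  set W : ℕ → ℝ := fun j => ∏ p ∈ pbl z d j, (1 - 1 / (p : ℝ)) with hW
  have hW0 : ∀ j, 0 < W j := fun j => (hblk j).1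
  have hY0 : ∀ j, 0 < Yd z d b j := fun j => (hW0 j).trans_le (hblk j).2.1
  have hU0 : ∀ j, 0 ≤ Ud z d b j := fun j => (hblk j).2.2.2.1
  let v : ℕ → ℝ := fun j => c * Real.exp (-(b : ℝ)) * Real.exp (-(2 * (j : ℝ) + 1))
  have hv0 : ∀ j, 0 ≤ v j := fun j => by positivity
  have hUv : ∀ j, Ud z d b j ≤ v j * W j := fun j => (hblk j).2.2.2.2
  have hb : Real.exp (-(b : ℝ)) ≤ 1 := by
    rw [Real.exp_le_one_iff]
    simp
  have hvs : ∑ j ∈ range z, v j ≤ c * Real.exp (-(b : ℝ)) := by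
    have h1 : ∑ j ∈ range z, v j =
        c * Real.exp (-(b : ℝ)) * ∑ j ∈ range z, Real.exp (-(2 * (j : ℝ) + 1)) := by
      rw [mul_sum]
    rw [h1]
    exact mul_le_of_le_one_right (by positivity) (Mns_geom z)
  have hvs' : ∑ j ∈ range z, v j ≤ c :=
    hvs.trans (mul_le_of_le_one_right hc0.le hb)
  have hprodW : ∏ j ∈ range z, W j ≤ ((d : ℝ) / (d.totient : ℝ)) / Real.log z := by
    have h1 := hP.2.1 z d (fun p => 1 - 1 / (p : ℝ)) (by omega)
    have h2 := hR z d hz hd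
    rw [← h1] at h2
    exact h2
  have hprodY : ∏ j ∈ range z, Yd z d b j ≤
      Real.exp c * (((d : ℝ) / (d.totient : ℝ)) / Real.log z) := by
    calc ∏ j ∈ range z, Yd z d b j ≤ ∏ j ∈ range z, (W j * Real.exp (v j)) := by
          refine prod_le_prod (fun j _ => (hY0 j).le) fun j _ => ?_
          have h1 := (hblk j).2.2.1
          have h2 : W j + v j * W j ≤ W j * Real.exp (v j) := by
            have h3 := mul_le_mul_of_nonneg_left (Real.add_one_le_exp (v j)) (hW0 j).le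
            linarith
          have h4 := hUv j
          linarith
      _ = (∏ j ∈ range z, W j) * Real.exp (∑ j ∈ range z, v j) := by
          rw [prod_mul_distrib, Real.exp_sum]
      _ ≤ (∏ j ∈ range z, W j) * Real.exp c :=
          mul_le_mul_of_nonneg_left (Real.exp_le_exp.2 hvs') (prod_nonneg fun j _ => (hW0 j).le)
      _ ≤ (((d : ℝ) / (d.totient : ℝ)) / Real.log z) * Real.exp c :=
          mul_le_mul_of_nonneg_right hprodW (Real.exp_pos _).le
      _ = _ := mul_comm _ _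
  have hQ0 : 0 ≤ ((d : ℝ) / (d.totient : ℝ)) / Real.log z :=
    le_trans (prod_nonneg fun j _ => (hW0 j).le) hprodW
  refine ⟨fun j => (hY0 j).le, hprodY.trans ?_, ?_⟩
  · refine mul_le_mul_of_nonneg_right ?_ hQ0
    exact le_mul_of_one_le_left (Real.exp_pos _).le (by linarith)
  · calc ∑ i ∈ range z, Ud z d b i * ∏ j ∈ (range z).erase i, Yd z d b j
        ≤ ∑ i ∈ range z, v i * ∏ j ∈ range z, Yd z d b j := by
          refine sum_le_sum fun i hi => ?_
          rw [← mul_prod_erase (range z) _ hi, ← mul_assoc]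
          refine mul_le_mul_of_nonneg_right ?_ (prod_nonneg fun j _ => (hY0 j).le)
          exact (hUv i).trans (mul_le_mul_of_nonneg_left (hblk i).2.1 (hv0 i))
      _ = (∑ i ∈ range z, v i) * ∏ j ∈ range z, Yd z d b j := by rw [sum_mul]
      _ ≤ (c * Real.exp (-(b : ℝ))) *
          (Real.exp c * (((d : ℝ) / (d.totient : ℝ)) / Real.log z)) :=
          mul_le_mul hvs hprodY (prod_nonneg fun j _ => (hY0 j).le) (by positivity)
      _ = c * (Real.exp c * Real.exp (-(b : ℝ)) *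
          (((d : ℝ) / (d.totient : ℝ)) / Real.log z)) := by ring
      _ ≤ (c + 1) * (Real.exp c * Real.exp (-(b : ℝ)) *
          (((d : ℝ) / (d.totient : ℝ)) / Real.log z)) := by
          refine mul_le_mul_of_nonneg_right (by linarith) ?_
          exact mul_nonneg (by positivity) hQ0
      _ = _ := by ring

end Pool.Agent.Lib.BV
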