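import Pool.Agent.Lib.BV.SpecH

namespace Pool.Agent.Lib.BV

open Finset

private theorem Pps_term {n : ℕ} (hn : 2 ≤ n) (z : ℂ) (hz : ‖z‖ ≤ 1) :
    ‖((ArithmeticFunction.vonMangoldt n / Real.log n : ℝ) : ℂ) * z -
      (if n.Prime then z else 0)‖ ≤
      (if n.Prime then 0 else ArithmeticFunction.vonMangoldt n) / Real.log 2 := by
  have hn2 : (2 : ℝ) ≤ n := by exact_mod_cast hn
  have hl2 : 0 < Real.log 2 := Real.log_pos (by norm_num)
  have hln : Real.log 2 ≤ Real.log n := Real.log_le_log (by norm_num) hn2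
  by_cases hp : n.Prime
  · rw [if_pos hp, if_pos hp, ArithmeticFunction.vonMangoldt_apply_prime hp,
      div_self (by linarith), Complex.ofReal_one, one_mul, sub_self, norm_zero, zero_div]
  · rw [if_neg hp, if_neg hp, sub_zero, norm_mul, Complex.norm_real, Real.norm_eq_abs,
      abs_of_nonneg (div_nonneg ArithmeticFunction.vonMangoldt_nonneg (by linarith))]
    calc ArithmeticFunction.vonMangoldt n / Real.log n * ‖z‖
        ≤ ArithmeticFunction.vonMangoldt n / Real.log n * 1 :=
          mul_le_mul_of_nonneg_left hz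
            (div_nonneg ArithmeticFunction.vonMangoldt_nonneg (by linarith))
      _ = ArithmeticFunction.vonMangoldt n / Real.log n := mul_one _
      _ ≤ ArithmeticFunction.vonMangoldt n / Real.log 2 :=
          div_le_div_of_nonneg_left ArithmeticFunction.vonMangoldt_nonneg hl2 hln

theorem tPps : PpsStmt := by
  have hl2 : 0 < Real.log 2 := Real.log_pos (by norm_num)
  refine ⟨2 / Real.log 2 + 1, by positivity, ?_⟩
  intro f x hx hf
  set N := ⌊x⌋₊ with hN
  set M := ⌊Real.sqrt x⌋₊ with hM
  have hs2 : 2 ≤ Real.sqrt x := by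
    rw [show (2 : ℝ) = Real.sqrt 4 by
      rw [show (4 : ℝ) = 2 ^ 2 by norm_num, Real.sqrt_sq (by norm_num)]]
    exact Real.sqrt_le_sqrt hx
  have hsx : Real.sqrt x ≤ x := by
    have h1 : Real.sqrt x * Real.sqrt x = x := Real.mul_self_sqrt (by linarith)
    nlinarith
  have hM2 : 2 ≤ M := Nat.le_floor (by exact_mod_cast hs2)
  have hMN : M ≤ N := Nat.floor_le_floor hsx
  have hMs : (M : ℝ) ≤ Real.sqrt x := Nat.floor_le (Real.sqrt_nonneg x)
  have hlog : 1 ≤ Real.log x := by
    have h1 : Real.log 4 ≤ Real.log x := Real.log_le_log (by norm_num) hx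
    have h2 : Real.log 4 = 2 * Real.log 2 := by
      rw [show (4 : ℝ) = 2 ^ 2 by norm_num, Real.log_pow]
      norm_num
    have h3 := Real.log_two_gt_d9
    linarith
  -- split the primes
  have hsplit : ∑ n ∈ (Icc 1 N).filter Nat.Prime, f n =
      ∑ n ∈ (Icc 1 M).filter Nat.Prime, f n + ∑ n ∈ Ioc M N, if n.Prime then f n else 0 := by
    rw [Finset.sum_filter, Finset.sum_filter]
    have h1 : Icc 1 N = Icc 1 M ∪ Ioc M N := by
      ext n
      simp only [Finset.mem_Icc, Finset.mem_union, Finset.mem_Ioc]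
      omega
    have h2 : Disjoint (Icc 1 M) (Ioc M N) := by
      rw [Finset.disjoint_left]
      intro n hn hn'
      rw [Finset.mem_Icc] at hn
      rw [Finset.mem_Ioc] at hn'
      omega
    rw [h1, Finset.sum_union h2]
  rw [hsplit]
  have hre : ∑ n ∈ Ioc M N, ((ArithmeticFunction.vonMangoldt n / Real.log n : ℝ) : ℂ) * f n -
      (∑ n ∈ (Icc 1 M).filter Nat.Prime, f n + ∑ n ∈ Ioc M N, if n.Prime then f n else 0) =
      ∑ n ∈ Ioc M N, (((ArithmeticFunction.vonMangoldt n / Real.log n : ℝ) : ℂ) * f n -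
        (if n.Prime then f n else 0)) - ∑ n ∈ (Icc 1 M).filter Nat.Prime, f n := by
    rw [Finset.sum_sub_distrib]
    ring
  rw [hre]
  -- the first part
  have hA : ‖∑ n ∈ Ioc M N, (((ArithmeticFunction.vonMangoldt n / Real.log n : ℝ) : ℂ) * f n -
        (if n.Prime then f n else 0))‖ ≤ 2 / Real.log 2 * (Real.sqrt x * Real.log x) := by
    calc _ ≤ ∑ n ∈ Ioc M N, ‖((ArithmeticFunction.vonMangoldt n / Real.log n : ℝ) : ℂ) * f n -
        (if n.Prime then f n else 0)‖ := norm_sum_le _ _
      _ ≤ ∑ n ∈ Ioc M N,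
          (if n.Prime then 0 else ArithmeticFunction.vonMangoldt n) / Real.log 2 := by
          apply Finset.sum_le_sum
          intro n hn
          rw [Finset.mem_Ioc] at hn
          exact Pps_term (by omega) (f n) (hf n)
      _ ≤ ∑ n ∈ Ioc 0 N,
          (if n.Prime then 0 else ArithmeticFunction.vonMangoldt n) / Real.log 2 := by
          apply Finset.sum_le_sum_of_subset_of_nonneg
          · intro n hn
            rw [Finset.mem_Ioc] at hn ⊢
            omega
          · intro n _ _
            apply div_nonneg _ hl2.le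
            split_ifs
            · exact le_refl _
            · exact ArithmeticFunction.vonMangoldt_nonneg
      _ = (Chebyshev.psi x - Chebyshev.theta x) / Real.log 2 := by
          rw [Chebyshev.psi_sub_theta_eq_sum_not_prime, ← Finset.sum_div, Finset.sum_filter]
          congr 1
          apply Finset.sum_congr rfl
          intro n _
          by_cases hp : n.Prime <;> simp [hp]
      _ ≤ (2 * Real.sqrt x * Real.log x) / Real.log 2 := by
          apply div_le_div_of_nonneg_right _ hl2.le
          exact (le_abs_self _).trans (Chebyshev.abs_psi_sub_theta_le_sqrt_mul_log (by linarith))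
      _ = _ := by ring
  have hB : ‖∑ n ∈ (Icc 1 M).filter Nat.Prime, f n‖ ≤ Real.sqrt x * Real.log x := by
    calc _ ≤ ∑ n ∈ (Icc 1 M).filter Nat.Prime, ‖f n‖ := norm_sum_le _ _
      _ ≤ ∑ n ∈ (Icc 1 M).filter Nat.Prime, (1 : ℝ) := Finset.sum_le_sum fun n _ => hf n
      _ = (((Icc 1 M).filter Nat.Prime).card : ℝ) := by simp
      _ ≤ ((Icc 1 M).card : ℝ) := by
          exact_mod_cast Finset.card_filter_le _ _
      _ = (M : ℝ) := by simp
      _ ≤ Real.sqrt x := hMs
      _ = Real.sqrt x * 1 := (mul_one _).symm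
      _ ≤ Real.sqrt x * Real.log x := mul_le_mul_of_nonneg_left hlog (Real.sqrt_nonneg x)
  calc _ ≤ _ := norm_sub_le _ _
    _ ≤ 2 / Real.log 2 * (Real.sqrt x * Real.log x) + Real.sqrt x * Real.log x :=
        add_le_add hA hB
    _ = _ := by ring

end Pool.Agent.Lib.BV
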