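import Pool.Agent.Lib.BV.SpecS

/-!
MP_00e23e_nt, Lib/BV, module SgUp: upper bound at 1.
-/

namespace Pool.Agent.Lib.BV

open Finset

theorem tSgUp (h1 : SgElStmt) (h2 : SgHaStmt) : SgUpStmt := by
  intro f Q hf hQ hQ1
  have hN : 1 ≤ ⌊Q⌋₊ := by
    rw [Nat.one_le_floor_iff]
    exact hQ1
  have hNQ : (⌊Q⌋₊ : ℝ) ≤ Q := Nat.floor_le (by linarith)
  have hNR : (1 : ℝ) ≤ (⌊Q⌋₊ : ℝ) := by exact_mod_cast hN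
  have a1 := (h1 f Q 1 hQ one_pos).1 ⌊Q⌋₊
  have a2 := (h2 1 ⌊Q⌋₊ le_rfl hN).1
  have a3 : |sgp f 1 ⌊Q⌋₊| ≤ ∑ n ∈ Icc 1 ⌊Q⌋₊, (n : ℝ) ^ (-(1 : ℝ)) := by
    unfold sgp
    refine (Finset.abs_sum_le_sum_abs _ _).trans (Finset.sum_le_sum fun n _ => ?_)
    have h3 : 0 ≤ (n : ℝ) ^ (-(1 : ℝ)) := Real.rpow_nonneg (Nat.cast_nonneg n) _
    rw [abs_mul, abs_of_nonneg h3]
    calc |f n| * (n : ℝ) ^ (-(1 : ℝ)) ≤ 1 * (n : ℝ) ^ (-(1 : ℝ)) :=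
          mul_le_mul_of_nonneg_right (hf n) h3
      _ = (n : ℝ) ^ (-(1 : ℝ)) := one_mul _
  have a4 : Q * ((⌊Q⌋₊ : ℝ) + 1) ^ (-(1 : ℝ)) ≤ 1 := by
    rw [Real.rpow_neg_one, ← div_eq_mul_inv, div_le_one (by linarith)]
    exact (Nat.lt_floor_add_one Q).le
  have a5 : Real.log (⌊Q⌋₊ : ℝ) ≤ Real.log Q := Real.log_le_log (by linarith) hNQ
  rw [sub_self, Real.rpow_zero, one_mul] at a2
  have a6 : |sgl f 1| ≤ |sgl f 1 - sgp f 1 ⌊Q⌋₊| + |sgp f 1 ⌊Q⌋₊| := by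
    have h3 := abs_add_le (sgl f 1 - sgp f 1 ⌊Q⌋₊) (sgp f 1 ⌊Q⌋₊)
    rw [sub_add_cancel] at h3
    exact h3
  linarith

end Pool.Agent.Lib.BV
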