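import Pool.Agent.Lib.EH3.LS2
import Pool.Agent.Lib.EH.Defs

/-!
MP_00e23e_nt, directory Lib/BV (architect helper3): Bombieri-Vinogradov with second term
sqrt(x) D (loglog x)^2 (paper proof: note 1819). Part 1: definitions, large sieve, characters,
Brun sieve, decomposition, separation of variables, type II sums.

RULES. Module X: file Pool/Agent/Lib/BV/X.lean, first line `import Pool.Agent.Lib.BV.SpecA` (the Spec file
that contains XStmt, plus the library files named in the docstring), then `namespace Pool.Agent.Lib.BV` and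
`open Finset Pool.Agent.Lib.EH3`, private lemmas with names starting with X_, final theorem
`theorem tX (h1 : AStmt) ... : XStmt`; the statements listed under Uses are hypotheses of your theorem,
in this order. The docstring contains a complete proof. Never use congr!. Every module below 60 s.
-/

namespace Pool.Agent.Lib.BV

open Finset Pool.Agent.Lib.EH3

/-- all prime factors of n are > z -/
def Rough (z n : ℕ) : Prop := ∀ p : ℕ, p.Prime → p ∣ n → z < p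

/-- sum of f over n ≤ N, n ≡ l mod d -/
noncomputable def cls (f : ℕ → ℂ) (N d l : ℕ) : ℂ :=
  ∑ n ∈ (Icc 1 N).filter (fun n => n ≡ l [MOD d]), f n

/-- the character sum of f over n ≤ N, (n, e) = 1 -/
noncomputable def cs (f : ℕ → ℂ) (N e : ℕ) {q : ℕ} (χ : DirichletCharacter ℂ q) : ℂ :=
  ∑ n ∈ (Icc 1 N).filter (fun n => n.Coprime e), f n * χ (n : ZMod q)

open Classical in
/-- the primitive characters mod q -/
noncomputable def prim (q : ℕ) : Finset (DirichletCharacter ℂ q) :=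
  univ.filter (fun χ => χ.IsPrimitive)

/-- the l^2 norm of a up to N -/
noncomputable def nrm (a : ℕ → ℂ) (N : ℕ) : ℝ := Real.sqrt (∑ n ∈ Icc 1 N, ‖a n‖ ^ 2)

open Classical in
/-- the contribution of the characters mod d whose conductor satisfies c to the sum of f over the
n ≤ N, n ≡ l mod d -/
noncomputable def del (c : ℕ → Prop) (f : ℕ → ℂ) (N d l : ℕ) : ℂ :=
  (1 / (d.totient : ℂ)) *
    ∑ χ ∈ univ.filter (fun χ : DirichletCharacter ℂ d => c χ.conductor),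
      χ ((l : ZMod d)⁻¹) * cs f N 1 χ

/-! ### Large sieve -/

/-- Module Far (theorem tFar). Imports also Pool.Agent.Lib.EH4.Spc (EH4.tSpc : EH4.SpcStmt). Uses: nothing.
Proof. J = the pairs (q, b) (a sigma type, see the proof of EH4.tLsq in Lib/EH4/Lsq.lean, which does the
same with special coefficients) with 2 ≤ q ≤ Q, b < q coprime to q, θ = b/q, δ = 1/Q^2 (EH4.tSpc),
h = N + Q^2, S_j = ∑_n a_n ee(n θ_j). ∑_j |S_j|^2 = ∑_n a_n ∑_j conj(S_j) ee(n θ_j) ≤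
(∑ |a_n|^2)^(1/2) (∑_{n < 2h} |∑_j conj(S_j) ee(n θ_j)|^2)^(1/2) ≤ (∑ |a_n|^2)^(1/2) (20 h ∑_j |S_j|^2)^(1/2)
by EH3.dual_ls; square and cancel (if ∑_j |S_j|^2 = 0 trivial). -/
def FarStmt : Prop :=
  ∀ (Q N : ℕ) (a : ℕ → ℂ), 1 ≤ Q →
    ∑ q ∈ Icc 2 Q, ∑ b ∈ (range q).filter (fun b => b.Coprime q),
      ‖∑ n ∈ Icc 1 N, a n * ee (n * ((b : ℝ) / q))‖ ^ 2 ≤
      20 * ((N : ℝ) + (Q : ℝ) ^ 2) * ∑ n ∈ Icc 1 N, ‖a n‖ ^ 2

/-- Module Gau (theorem tGau). Uses: nothing.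
Proof. e = ZMod.stdAddChar (e(j) = exp(2 π i j/q)), G = gaussSum χ⁻¹ e. χ⁻¹ is primitive
(DirichletCharacter.conductor_inv), so gaussSum_mulShift_of_isPrimitive gives
gaussSum χ⁻¹ (e.mulShift n) = χ n * G, which is the second part (the sum over ZMod q is the sum over
b ∈ range q, and χ⁻¹ b = 0 unless b is coprime to q). Parseval: ∑_{n : ZMod q} |χ(n) G|^2 = φ(q) |G|^2 and
this is ∑_n |∑_b χ⁻¹(b) e(n b)|^2 = q ∑_b |χ⁻¹(b)|^2 = q φ(q) (orthogonality of additive characters: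
AddChar.sum_mulShift or EH3.orth). So |G|^2 = q. -/
def GauStmt : Prop :=
  ∀ (q : ℕ) (χ : DirichletCharacter ℂ q), 1 ≤ q → χ.IsPrimitive →
    ∃ G : ℂ, ‖G‖ ^ 2 = q ∧ ∀ n : ℕ, χ (n : ZMod q) * G =
      ∑ b ∈ (range q).filter (fun b => b.Coprime q), χ⁻¹ (b : ZMod q) * ee (n * ((b : ℝ) / q))

/-- Module Ort (theorem tOrt). Uses: nothing.
Proof. Expand |∑_b χ⁻¹(b) S_b|^2 = ∑_{b,b'} χ⁻¹(b) conj(χ⁻¹(b')) S_b conj(S_b') and
conj(χ⁻¹(b')) = χ(b') (b' coprime to q); ∑_χ χ⁻¹(b) χ(b') = φ(q) [b = b' mod q]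
(DirichletCharacter.sum_char_inv_mul_char_eq, with χ⁻¹(b) = χ(b⁻¹)). -/
def OrtStmt : Prop :=
  ∀ (q : ℕ) (S : ℕ → ℂ), 1 ≤ q →
    ∑ χ : DirichletCharacter ℂ q,
      ‖∑ b ∈ (range q).filter (fun b => b.Coprime q), χ⁻¹ (b : ZMod q) * S b‖ ^ 2 =
      (q.totient : ℝ) * ∑ b ∈ (range q).filter (fun b => b.Coprime q), ‖S b‖ ^ 2

/-- Module Lsm (theorem tLsm). Uses: Far, Gau, Ort.
Proof. Fix q; A(χ) = ∑ a_n χ(n), S_b = ∑ a_n ee(n b/q). For χ primitive: A(χ) G = ∑_b χ⁻¹(b) S_b, so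
q |A(χ)|^2 = |∑_b χ⁻¹(b) S_b|^2. Sum over the primitive χ (a subset of all χ) and use Ort:
q ∑_{χ ∈ prim q} |A(χ)|^2 ≤ φ(q) ∑_b |S_b|^2. Divide by φ(q) > 0, sum over 2 ≤ q ≤ Q and use Far. -/
def LsmStmt : Prop :=
  ∀ (Q N : ℕ) (a : ℕ → ℂ), 1 ≤ Q →
    ∑ q ∈ Icc 2 Q, (q : ℝ) / (q.totient : ℝ) *
      ∑ χ ∈ prim q, ‖∑ n ∈ Icc 1 N, a n * χ (n : ZMod q)‖ ^ 2 ≤
      20 * ((N : ℝ) + (Q : ℝ) ^ 2) * ∑ n ∈ Icc 1 N, ‖a n‖ ^ 2

/-- Module Blk (theorem tBlk). Uses: Lsm.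
Proof. cs a M e χ is the sum over n ≤ M of a'(n) χ(n) with a' = a on the n coprime to e and 0 otherwise,
and ∑ |a'|^2 ≤ (nrm a M)^2. For q > Q1: 1/φ(q) ≤ (1/Q1) q/φ(q). Cauchy-Schwarz over the pairs (q, χ) (twice, or
once over a sigma type) and Lsm with Q = R: the left side is ≤ (1/Q1) (20 (M + R^2))^(1/2) (20 (N + R^2))^(1/2)
nrm a nrm b, and ((M + R^2)(N + R^2))^(1/2) ≤ (√M + R)(√N + R) = √(MN) + R(√M + √N) + R^2, R ≤ 2 Q1, R^2/Q1 ≤ 2R. -/
def BlkStmt : Prop :=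
  ∀ (Q1 R M N e : ℕ) (a b : ℕ → ℂ), 1 ≤ Q1 → R ≤ 2 * Q1 →
    ∑ q ∈ Ioc Q1 R, (1 / (q.totient : ℝ)) * ∑ χ ∈ prim q, ‖cs a M e χ‖ * ‖cs b N e χ‖ ≤
      20 * (nrm a M * nrm b N) *
        (Real.sqrt ((M : ℝ) * N) / Q1 + 2 * (Real.sqrt M + Real.sqrt N) + 2 * R)

/-- Module Bil (theorem tBil). Uses: Blk.
Proof. Induction: the function F(Q0, R) on the left is additive over intervals. Strong induction on R/Q0, or:
for i ≥ 0 let Q_i = Q0 2^i; Ioc Q0 R is the disjoint union of Ioc Q_i (min(Q_{i+1}, R)) over the i with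
Q_i < R; the number of these i is ≤ 1 + log R/log 2. Blk for each i (Q1 = Q_i): the sum of 1/Q_i is ≤ 2/Q0,
the sum of min(Q_{i+1}, R) is ≤ R + (R + R/2 + ...) ≤ 4 R (Q_i < R). Total ≤ 20 nrm nrm (2 √(MN)/Q0 + 2 (√M + √N)
(1 + log R/log 2) + 8 R). -/
def BilStmt : Prop :=
  ∀ (Q0 R M N e : ℕ) (a b : ℕ → ℂ), 1 ≤ Q0 →
    ∑ q ∈ Ioc Q0 R, (1 / (q.totient : ℝ)) * ∑ χ ∈ prim q, ‖cs a M e χ‖ * ‖cs b N e χ‖ ≤
      200 * (nrm a M * nrm b N) *
        (Real.sqrt ((M : ℝ) * N) / Q0 + (Real.sqrt M + Real.sqrt N) * (1 + Real.log R) + R)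

/-! ### Characters -/

/-- Module Spl (theorem tSpl). Uses: nothing.
Proof. (1) For (l,d) = 1: cls f N d l = (1/φ(d)) ∑_χ χ(l⁻¹) cs f N 1 χ, by
DirichletCharacter.sum_char_inv_mul_char_eq (n ≡ l mod d iff (n : ZMod d) = l). (2) Split the sum over χ according
to conductor = 1 (i.e. χ = 1, DirichletCharacter.eq_one_iff_conductor_eq_one; its term is the sum over
(n,d) = 1), 1 < conductor ≤ Q, conductor > Q; the conductor is not 0. -/
def SplStmt : Prop :=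
  ∀ (f : ℕ → ℂ) (N d l Q : ℕ), 1 ≤ d → l.Coprime d → 1 ≤ Q →
    cls f N d l = (1 / (d.totient : ℂ)) * ∑ n ∈ (Icc 1 N).filter (fun n => n.Coprime d), f n +
      del (fun c => 1 < c ∧ c ≤ Q) f N d l + del (fun c => Q < c) f N d l

open Classical in
/-- Module Inj (theorem tInj). Uses: nothing.
Proof. The map χ ↦ (conductor of χ, primitive character of χ) is injective on the characters mod d
(χ = changeLevel of its primitive character, DirichletCharacter.changeLevel_primitiveCharacter; two χ with equal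
sigma pairs are equal), its values are pairs (q, χ1) with q | d, χ1 ∈ prim q
(primitiveCharacter_isPrimitive, conductor_dvd_level). (1) If F is a nonnegative function on such
pairs, the sum of F over the χ with conductor in c is at most the sum over all pairs with q | d, c q
(Finset.sum_image and sum_le_sum_of_subset_of_nonneg on Finset.sigma). (2) cs f N 1 χ = cs f N d χ1 for
χ1 the primitive character of χ: χ(n) = χ1(n) if (n,d) = 1 (primitiveCharacter_apply_of_isCoprime or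
changeLevel_eq_cast_of_dvd') and χ(n) = 0 otherwise. |χ(l⁻¹)| ≤ 1. -/
def InjStmt : Prop :=
  ∀ (c : ℕ → Prop) (f : ℕ → ℂ) (N d l : ℕ), 1 ≤ d →
    ‖del c f N d l‖ ≤ (1 / (d.totient : ℝ)) *
      ∑ q ∈ d.divisors.filter c, ∑ χ ∈ prim q, ‖cs f N d χ‖

/-- Module Cnd (theorem tCnd). Uses: nothing.
Proof. Injection χ ↦ (conductor, primitive character) as in Inj into the pairs (q, χ1), 1 < q ≤ Q, q | d,
χ1 mod q; there are φ(q) ≤ q characters mod q (Nat.card, card_eq_totient_of_hasEnoughRootsOfUnity), and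
∑_{q ≤ Q} q ≤ Q^2. -/
def CndStmt : Prop :=
  ∀ d Q : ℕ, 1 ≤ d →
    ((Finset.univ.filter (fun χ : DirichletCharacter ℂ d => 1 < χ.conductor ∧ χ.conductor ≤ Q)).card : ℝ) ≤
      (Q : ℝ) ^ 2

/-- Module Uni (theorem tUni). Uses: Spl, Cnd.
Proof. The reduced classes mod d: ∑_{(n,d)=1} f n = ∑_{l' ∈ range d, (l',d)=1} cls f N d l', so by Spl
del (Q < ·) f N d l = (1/φ(d)) ∑_{l'} (cls f N d l - cls f N d l') - del (1 < · ≤ Q) f N d l. The first term is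
≤ E. For χ ≠ 1 mod d: cs f N 1 χ = ∑_{l' ∈ range d, (l',d)=1} χ(l') cls f N d l' = ∑_{l'} χ(l') (cls f N d l' -
cls f N d 1) because ∑_{l'} χ(l') = 0 (DirichletCharacter or MulChar.sum_eq_zero_of_ne_one), so
|cs f N 1 χ| ≤ φ(d) E; there are at most Q^2 characters with 1 < conductor ≤ Q by Cnd, so the second term is
≤ Q^2 E. (For d = 1 the class of l' = 0 is reduced: use l' ∈ range d with l'.Coprime d.) -/
def UniStmt : Prop :=
  ∀ (f : ℕ → ℂ) (N d l Q : ℕ) (E : ℝ), 1 ≤ d → 1 ≤ Q → l.Coprime d →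
    (∀ l₁ l₂ : ℕ, l₁.Coprime d → l₂.Coprime d → ‖cls f N d l₁ - cls f N d l₂‖ ≤ E) →
    ‖del (fun c => Q < c) f N d l‖ ≤ (1 + (Q : ℝ) ^ 2) * E

/-- Module Smg (theorem tSmg). Uses: Spl, Cnd.
Proof. Spl: del (Q < ·) = cls - mean - del (1 < · ≤ Q); |cls| ≤ E, |mean| ≤ G/φ(d), every |cs g N 1 χ| ≤ G, and
at most Q^2 characters with 1 < conductor ≤ Q (Cnd): the last term is ≤ Q^2 G/φ(d). -/
def SmgStmt : Prop :=
  ∀ (g : ℕ → ℂ) (N d l Q : ℕ) (E G : ℝ), 1 ≤ d → 1 ≤ Q → l.Coprime d →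
    ∑ n ∈ (Icc 1 N).filter (fun n => n ≡ l [MOD d]), ‖g n‖ ≤ E → ∑ n ∈ Icc 1 N, ‖g n‖ ≤ G →
    ‖del (fun c => Q < c) g N d l‖ ≤ E + (1 + (Q : ℝ) ^ 2) * (G / (d.totient : ℝ))

/-- Module Prm (theorem tPrm). Uses: Inj.
Proof. By Inj ‖del‖ ≤ (1/φ(d)) ∑_{q | d, Q < q} ∑_{χ ∈ prim q} |cs f N d χ|. Write d = q e; φ(q) φ(e) ≤ φ(q e)
(Nat.totient_super_multiplicative) and cs f N (q e) χ = cs f N e χ for χ mod q (χ(n) = 0 if (n,q) > 1).
The map (d, q) ↦ (e, q), e = d/q, is a bijection from the pairs q | d, 1 ≤ d ≤ D, Q < q onto the pairs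
1 ≤ e ≤ D, Q < q ≤ D/e. -/
def PrmStmt : Prop :=
  ∀ (f : ℕ → ℂ) (N D Q : ℕ) (l : ℕ → ℕ),
    ∑ d ∈ Icc 1 D, ‖del (fun c => Q < c) f N d (l d)‖ ≤
      ∑ e ∈ Icc 1 D, (1 / (e.totient : ℝ)) * ∑ q ∈ Ioc Q (D / e), (1 / (q.totient : ℝ)) *
        ∑ χ ∈ prim q, ‖cs f N e χ‖

end Pool.Agent.Lib.BV
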