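import Pool.Agent.Lib.BV.SpecA

/-!
MP_00e23e_nt, directory Lib/BV (architect helper3), part 2: elementary sums, Brun's pure sieve, the
decomposition of the primes into bilinear forms, separation of variables. Rules: see SpecA.lean
(first line of the modules of this part: `import Pool.Agent.Lib.BV.SpecB`).
-/

namespace Pool.Agent.Lib.BV

open Finset Pool.Agent.Lib.EH3

open Classical in
/-- indicator of the numbers without prime factor ≤ z -/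
noncomputable def rr (z n : ℕ) : ℝ := if Rough z n then 1 else 0

/-- number of prime factors in (P, 2P], with multiplicity -/
def Om (P n : ℕ) : ℕ := (n.primeFactorsList.filter (fun p => P < p ∧ p ≤ 2 * P)).length

/-- indicator of the primes in (P, 2P] -/
noncomputable def blk (P n : ℕ) : ℝ := if n.Prime ∧ P < n ∧ n ≤ 2 * P then 1 else 0

open Classical in
/-- 1/(1 + Om) on the numbers all of whose prime factors are > P -/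
noncomputable def bb (P n : ℕ) : ℝ := if Rough P n then 1 / (1 + (Om P n : ℝ)) else 0

/-- the convolution blk * bb -/
noncomputable def cv (P n : ℕ) : ℝ := ∑ w ∈ n.divisorsAntidiagonal, blk P w.1 * bb P w.2

/-- index of n on the logarithmic grid of step η -/
noncomputable def lg (η : ℝ) (n : ℕ) : ℕ := ⌊Real.log n / η⌋₊

/-- the part of blk * bb with separated variables: sum of the grid indices ≤ N0 -/
noncomputable def FF (η : ℝ) (N0 P n : ℕ) : ℝ :=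
  ∑ w ∈ n.divisorsAntidiagonal, if lg η w.1 + lg η w.2 ≤ N0 then blk P w.1 * bb P w.2 else 0

/-! ### Elementary sums -/

/-- Module Tot (theorem tTot). Uses: nothing. (EH3.sum_sq_inv_nat: ∑_{k ≤ m} 1/k^2 ≤ 2.)
Proof. (1) d = ∑_{k | d} φ(k) (Nat.sum_totient) ≤ τ(d) φ(d) because φ(k) ≤ φ(d) for k | d (Nat.totient_dvd_of_dvd).
(2) 1/φ(d) ≤ τ(d)/d, and ∑_{d ≤ D} τ(d)/d = ∑_{a b ≤ D} 1/(a b) ≤ (∑_{a ≤ D} 1/a)^2 ≤ (1 + log D)^2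
(harmonic_le_one_add_log). (3) 1/(e φ(e)) ≤ τ(e)/e^2 and ∑_{e ≤ D} τ(e)/e^2 ≤ (∑ 1/a^2)^2 ≤ 4. -/
def TotStmt : Prop :=
  (∀ D : ℕ, 1 ≤ D → ∑ d ∈ Icc 1 D, 1 / (d.totient : ℝ) ≤ (1 + Real.log D) ^ 2) ∧
  (∀ D : ℕ, ∑ e ∈ Icc 1 D, 1 / ((e : ℝ) * (e.totient : ℝ)) ≤ 4)

/-- Module Rou (theorem tRou). Uses: nothing.
Proof. f = indicator of the rough numbers (completely multiplicative: a divisor of a rough number is
rough, a product of rough numbers is rough). S = ∑_{m ≤ M} f(m). For m ≤ M: log M = log m + log(M/m),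
log(M/m) ≤ M/m, log m = ∑_{q | m} Λ(q) (ArithmeticFunction.vonMangoldt_sum). So
S log M ≤ ∑_{m ≤ M} f(m) ∑_{q | m} Λ(q) + M ∑_{m ≤ M} f(m)/m, and writing m = q m', f(m) ≤ f(m'), the first sum is
≤ ∑_{m' ≤ M} f(m') ψ(M/m') ≤ C0 M ∑ f(m')/m' (Chebyshev.psi_le_const_mul_self). Moreover
(∑_{m ≤ M} f(m)/m) (∑_{k ≤ P} 1/k) ≤ ∑_{n ≤ M P} 1/n ≤ 1 + log(M P) ≤ 1 + 2 log M ≤ 4 log M: the map
(m, k) ↦ m k is injective on rough m, k ≤ P (all prime factors of k are ≤ P, all of m are > P: k is the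
P-smooth part of m k; e.g. if m k = m' k' then m is coprime to k', so m | m', and conversely), and
∑_{k ≤ P} 1/k ≥ log P. So S log M ≤ (C0 + 1) M (4 log M)/log P; divide by log M > 0. -/
def RouStmt : Prop :=
  ∃ C : ℝ, 0 < C ∧ ∀ P M : ℕ, 2 ≤ P → P ≤ M →
    ∑ m ∈ Icc 1 M, rr P m ≤ C * ((M : ℝ) / Real.log P)

/-- Module Pri (theorem tPri). Uses: nothing.
Proof. log P times the number of primes in (P, 2P] is ≤ θ(2P) ≤ log 4 (2P) (Chebyshev.theta_le_log4_mul_x), log 4 ≤ 2.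
Also the number is ≤ P trivially, not needed. -/
def PriStmt : Prop :=
  ∀ P : ℕ, 2 ≤ P → ∑ n ∈ Icc 1 (2 * P), blk P n ≤ 4 * ((P : ℝ) / Real.log P)

/-- Module Apc (theorem tApc; numbers in a progression). Uses: nothing.
Proof. (1) k and d coprime: n ≡ l mod d and k | n is one class mod d k (Nat.chineseRemainder), so the number of
such n ≤ N is N/(d k) up to 1 (Nat.count_modEq_card or EH.count_bound; the number of n in Icc 1 N in one class mod m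
is ⌊N/m⌋ or ⌊N/m⌋ + 1). (2) If p | k, p | d and k | n ≡ l mod d then p | l, excluded. (3) N ≤ N': the same for
an interval. -/
def ApcStmt : Prop :=
  (∀ N d l k : ℕ, 1 ≤ d → 1 ≤ k → k.Coprime d →
    |(((Icc 1 N).filter (fun n => n ≡ l [MOD d] ∧ k ∣ n)).card : ℝ) - (N : ℝ) / (d * k)| ≤ 1) ∧
  (∀ N d l k : ℕ, 1 ≤ d → l.Coprime d → ¬ k.Coprime d →
    (Icc 1 N).filter (fun n => n ≡ l [MOD d] ∧ k ∣ n) = ∅) ∧
  (∀ N N' d l : ℕ, 1 ≤ d → N ≤ N' →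
    (((Ioc N N').filter (fun n => n ≡ l [MOD d])).card : ℝ) ≤ ((N' : ℝ) - N) / d + 1)

open Classical in
/-- Module Sqr (theorem tSqr). Uses: Apc.
Proof. n ≤ X, p^2 | n gives p ≤ √X. For each prime p > z with p ≤ √X the number of n ≤ X, n ≡ l mod d, p^2 | n is 0 if
p | d (second part of Apc with k = p^2) and ≤ X/(d p^2) + 1 otherwise (first part). ∑_{p > z} 1/p^2 ≤ 1/z
(∑_{n > z} 1/n^2 ≤ ∑ 1/((n-1) n) = 1/z). -/
def SqrStmt : Prop :=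
  ∀ X z d l : ℕ, 1 ≤ z → 1 ≤ d → l.Coprime d →
    (((Icc 1 X).filter (fun n => n ≡ l [MOD d] ∧ ∃ p : ℕ, p.Prime ∧ z < p ∧ p ^ 2 ∣ n)).card : ℝ) ≤
      (X : ℝ) / (z * d) + Real.sqrt X

/-! ### Brun's pure sieve -/

/-- Module Bon (theorem tBon; Bonferroni). Uses: nothing.
Proof. m = 0: the sum is 1 for r ≥ 1 (only j = 0 counts) and 0 for r = 0, choose 0 r accordingly. m ≥ 1: for r = 0
trivial; for r ≥ 1 ∑_{j<r} (-1)^j C(m,j) = (-1)^(r-1) C(m-1,r-1) (induction on r by Pascal, or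
Int.alternating_sum_range_choose_eq_choose) and C(m-1,r-1) ≤ C(m,r) if r ≤ m, = 0 if r > m. -/
def BonStmt : Prop :=
  ∀ m r : ℕ, |(if m = 0 then (1 : ℝ) else 0) - ∑ j ∈ range r, (-1 : ℝ) ^ j * (m.choose j : ℝ)| ≤
    (m.choose r : ℝ)

/-- Module Esy (theorem tEsy). Uses: nothing.
Proof. Induction on S: E_r(S ∪ {a}) = E_r(S) + x_a E_(r-1)(S) (Finset.powersetCard_succ_insert) and
s^r/r! + x s^(r-1)/(r-1)! ≤ (s + x)^r/r! for s, x ≥ 0. Second part: card of powersetCard is choose,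
∑_{j ≤ r} C(m,j) ≤ (m+1)^r by induction on r (or C(m,j) ≤ C(r,j) m^j for j ≤ r). -/
def EsyStmt : Prop :=
  (∀ (S : Finset ℕ) (x : ℕ → ℝ) (r : ℕ), (∀ i, 0 ≤ x i) →
    ∑ s ∈ S.powersetCard r, ∏ i ∈ s, x i ≤ (∑ i ∈ S, x i) ^ r / (r.factorial : ℝ)) ∧
  (∀ m r : ℕ, ∑ j ∈ range (r + 1), (m.choose j : ℝ) ≤ ((m : ℝ) + 1) ^ r)

/-- Module Bru (theorem tBru). Uses: Bon, Esy, Apc.
Proof. Pz = the primes ≤ z; for n ≥ 1 let m(n) = number of p ∈ Pz dividing n, so rr z n = [m(n) = 0] and for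
j ≥ 0: C(m(n), j) = ∑_{s ∈ powersetCard j Pz} [∏ s | n] (∏ s | n iff all p ∈ s divide n:
Finset.prod_primes_dvd). By Bon |rr z n - ∑_{j<r} (-1)^j ∑_s [∏ s | n]| ≤ ∑_{s ∈ powersetCard r Pz} [∏ s | n].
Sum over n ≤ N, n ≡ l mod d: by Apc the number of n with ∏ s | n is N/(d ∏ s) + θ, |θ| ≤ 1, if ∏ s is coprime to
d and 0 otherwise. So the class sum is T + error, T = ∑_{j<r} (-1)^j ∑_{s, coprime} N/(d ∏ s) independent of l,
|error| ≤ ∑_{j ≤ r} C(|Pz|, j) + (N/d) ∑_{s ∈ powersetCard r Pz} 1/∏ s ≤ (z+1)^r + (N/d) (1 + log z)^r/r!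
(Esy; |Pz| ≤ z; ∑_{p ≤ z} 1/p ≤ ∑_{n ≤ z} 1/n ≤ 1 + log z). The difference for l, l' is ≤ twice this. -/
def BruStmt : Prop :=
  ∀ z r N d l l' : ℕ, 1 ≤ z → 1 ≤ d → l.Coprime d → l'.Coprime d →
    ‖cls (fun n => (rr z n : ℂ)) N d l - cls (fun n => (rr z n : ℂ)) N d l'‖ ≤
      2 * ((z : ℝ) + 1) ^ r + 2 * ((N : ℝ) / d) * ((1 + Real.log z) ^ r / (r.factorial : ℝ))

/-! ### The decomposition -/

/-- Module Cv (theorem tCv). Uses: nothing.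
Proof. The nonzero terms of cv P n are the (p, m), n = p m, p prime, P < p ≤ 2P, all prime factors of m
> P; then n is Rough P, Om P n = 1 + Om P m, and the term is 1/(1 + Om P m) = 1/Om P n. If n is Rough P then
every prime p | n in (P, 2P] gives a term. So cv P n = ω/Om P n with ω the number of primes p | n in
(P, 2P] if n is Rough P and ω ≥ 1, and cv P n = 0 otherwise. 1 ≤ ω ≤ Om P n (Om counts with multiplicity), with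
equality if p^2 does not divide n for the primes p > P. -/
def CvStmt : Prop :=
  ∀ P n : ℕ, 1 ≤ P → 1 ≤ n → 0 ≤ cv P n ∧ cv P n ≤ 1 ∧
    (cv P n ≠ 0 → Rough P n ∧ ∃ p : ℕ, p.Prime ∧ p ∣ n ∧ P < p ∧ p ≤ 2 * P) ∧
    (Rough P n → (∃ p : ℕ, p.Prime ∧ p ∣ n ∧ P < p ∧ p ≤ 2 * P) →
      (∀ p : ℕ, p.Prime → P < p → ¬ p ^ 2 ∣ n) → cv P n = 1)

/-- Module Scv (theorem tScv). Uses: Cv.
Proof. If cv (z 2^k) n ≠ 0 ≠ cv (z 2^k') n with k < k' then some prime p | n has p ≤ 2 z 2^k ≤ z 2^k' but n is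
Rough (z 2^k'), a contradiction. So at most one term is nonzero and it is ≤ 1. -/
def ScvStmt : Prop :=
  ∀ z K n : ℕ, 1 ≤ z → 1 ≤ n → ∑ k ∈ range K, cv (z * 2 ^ k) n ≤ 1

open Classical in
/-- Module Dec (theorem tDec). Uses: Cv, Scv.
Proof. E = [n prime] - rr z n + ∑_k cv(z 2^k) n. n = 1: E = 0 - 1 + 0, and n ≤ z 2^K. If n is not Rough z then
cv (z 2^k) n = 0 (Rough (z 2^k) n implies Rough z n) and E = [n prime]; a prime n that is not Rough z has n ≤ z.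
n prime, Rough z: cv (z 2^k) n = 1 for the k with z 2^k < n ≤ 2 z 2^k (it exists with k < K iff n ≤ z 2^K), all
others 0, so E = 1 if n ≤ z 2^K and 0 if n > z 2^K. n ≥ 2 composite, Rough z: the least prime factor p
satisfies p^2 ≤ n ≤ (z 2^K)^2, so p ≤ z 2^K and z 2^k < p ≤ z 2^(k+1) for a k < K; n is Rough (z 2^k) (p is the
least prime factor); by Scv the sum is in [0,1], so |E| ≤ 1; and if no prime q > z has q^2 | n then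
cv (z 2^k) n = 1 by Cv, the sum is 1 and E = 0. -/
def DecStmt : Prop :=
  ∀ z K n : ℕ, 1 ≤ z → 1 ≤ n → n ≤ (z * 2 ^ K) ^ 2 →
    |(if n.Prime then (1 : ℝ) else 0) - rr z n + ∑ k ∈ range K, cv (z * 2 ^ k) n| ≤
      (if n ≤ z * 2 ^ K then (1 : ℝ) else 0) +
      (if ∃ p : ℕ, p.Prime ∧ z < p ∧ p ^ 2 ∣ n then (1 : ℝ) else 0)

/-! ### Separation of variables -/

/-- Module Dft (theorem tDft). Uses: nothing.
Proof. M = 2 N0 + 2, c_h = (1/M) ∑_{k=0}^{N0} ee(-(h k)/M). ∑_h c_h ee(h t/M) = ∑_{k ≤ N0} (1/M) ∑_h ee(h (t-k)/M) =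
number of k ≤ N0 with k ≡ t mod M (EH3.orth), for t = i + j ≤ 2 N0 < M this is [t ≤ N0]. Bound:
|c_0| ≤ 1; for 1 ≤ h < M the geometric sum is ≤ 2/|1 - ee(h/M)| ≤ 2/(4 ‖h/M‖) (EH3.norm_ee_sub_one:
4|x| ≤ ‖ee x - 1‖ for |x| ≤ 1/2), ‖h/M‖ = min(h, M-h)/M, so |c_h| ≤ 1/(2 min(h, M-h)) and
∑_{h ≥ 1} |c_h| ≤ ∑_{h=1}^{M-1} (1/2)(1/h + 1/(M-h)) = ∑_{h=1}^{M-1} 1/h ≤ 1 + log M ≤ 1 + log 2 + log(N0+1).
Total ≤ 2 + log 2 + log(N0 + 1) ≤ 4 (1 + log(N0+1)). -/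
def DftStmt : Prop :=
  ∀ N0 : ℕ, ∃ c : ℕ → ℂ, ∑ h ∈ range (2 * N0 + 2), ‖c h‖ ≤ 4 * (1 + Real.log ((N0 : ℝ) + 1)) ∧
    ∀ i j : ℕ, i ≤ N0 → j ≤ N0 →
      ∑ h ∈ range (2 * N0 + 2), c h * ee ((h : ℝ) * ((i : ℝ) + j) / (2 * (N0 : ℝ) + 2)) =
        if i + j ≤ N0 then 1 else 0

/-- Module Grd (theorem tGrd). Uses: nothing.
Proof. (1) lg p + lg m ≤ (log p + log m)/η ≤ log x/η and the floor is the largest integer below. (2)
log p < η (lg p + 1), same for m, so log p + log m < η (N0 + 2) ≤ log x + 2 η. (3) log m ≤ log x. -/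
def GrdStmt : Prop :=
  ∀ (x η : ℝ), 1 ≤ x → 0 < η → ∀ p m : ℕ, 1 ≤ p → 1 ≤ m →
    ((p : ℝ) * m ≤ x → lg η p + lg η m ≤ ⌊Real.log x / η⌋₊) ∧
    (lg η p + lg η m ≤ ⌊Real.log x / η⌋₊ → (p : ℝ) * m ≤ x * Real.exp (2 * η)) ∧
    ((m : ℝ) ≤ x → lg η m ≤ ⌊Real.log x / η⌋₊)

/-- Module Ffs (theorem tFfs). Uses: Grd, Cv.
Proof. The terms of FF are the terms of cv (all ≥ 0) with lg + lg ≤ N0, so 0 ≤ FF ≤ cv. For n ≤ x all pairs satisfy the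
condition (Grd (1)), so FF = cv. If FF ≠ 0 some pair satisfies it and n ≤ x e^(2 η) by Grd (2). -/
def FfsStmt : Prop :=
  ∀ (x η : ℝ) (P n : ℕ), 1 ≤ x → 0 < η → 1 ≤ P → 1 ≤ n →
    0 ≤ FF η ⌊Real.log x / η⌋₊ P n ∧ FF η ⌊Real.log x / η⌋₊ P n ≤ cv P n ∧
    ((n : ℝ) ≤ x → FF η ⌊Real.log x / η⌋₊ P n = cv P n) ∧
    (FF η ⌊Real.log x / η⌋₊ P n ≠ 0 → (n : ℝ) ≤ x * Real.exp (2 * η))

/-- the two factors of the separated form -/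
noncomputable def ah (η : ℝ) (N0 P h n : ℕ) : ℂ :=
  (blk P n : ℂ) * ee ((h : ℝ) * (lg η n : ℝ) / (2 * (N0 : ℝ) + 2))

noncomputable def bh (η : ℝ) (N0 P h n : ℕ) : ℂ :=
  (bb P n : ℂ) * ee ((h : ℝ) * (lg η n : ℝ) / (2 * (N0 : ℝ) + 2))

/-- Module Sep (theorem tSep). Uses: Grd, Ffs, Dft.
Proof. c from Dft. N' = ⌊x e^(2η)⌋, N0 = ⌊log x/η⌋, Y = ⌊x e^(2η)/P⌋. cs FF N' e χ = sum over pairs (p, m), p m = n ≤ N',
(p m, e) = 1, of [lg p + lg m ≤ N0] blk p bb m χ(p) χ(m) (Finset.sum over divisorsAntidiagonal; χ(pm) = χ(p)χ(m),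
p m coprime to e iff both are). On the right, for h fixed, the product cs(ah) cs(bh) is the sum over p ≤ 2P, m ≤ Y,
(p,e) = (m,e) = 1, of blk p bb m ee(h (lg p + lg m)/M) χ(p)χ(m); multiply by c_h and sum: blk p ≠ 0 gives
P < p ≤ 2P ≤ x, so lg p ≤ N0 (Grd (3)), m ≤ Y gives m ≤ x e^(2η)/P ≤ x (e^(2η) ≤ e ≤ P for η ≤ 1/2, P ≥ 3), so
lg m ≤ N0, and Dft gives [lg p + lg m ≤ N0]. The pairs with [..] = 1, blk p ≠ 0 are the same on both sides: they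
satisfy p m ≤ x e^(2η) (Grd (2)), hence p m ≤ N' and m ≤ x e^(2η)/p ≤ x e^(2η)/P, m ≤ Y. (2) norms: |ah| = blk ≤ 1,
blk^2 = blk; |bh| = bb, bb^2 ≤ rr P. -/
def SepStmt : Prop :=
  ∀ (x η : ℝ) (P : ℕ), 1 ≤ x → 0 < η → η ≤ 1 / 2 → 3 ≤ P → (2 * P : ℝ) ≤ x →
    ∃ c : ℕ → ℂ, ∑ h ∈ range (2 * ⌊Real.log x / η⌋₊ + 2), ‖c h‖ ≤
        4 * (1 + Real.log ((⌊Real.log x / η⌋₊ : ℝ) + 1)) ∧
      ∀ (e q : ℕ) (χ : DirichletCharacter ℂ q),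
        cs (fun n => (FF η ⌊Real.log x / η⌋₊ P n : ℂ)) ⌊x * Real.exp (2 * η)⌋₊ e χ =
          ∑ h ∈ range (2 * ⌊Real.log x / η⌋₊ + 2), c h *
            (cs (ah η ⌊Real.log x / η⌋₊ P h) (2 * P) e χ *
              cs (bh η ⌊Real.log x / η⌋₊ P h) ⌊x * Real.exp (2 * η) / P⌋₊ e χ)

/-- Module Nrm (theorem tNrm). Uses: Rou, Pri.
Proof. |ah|^2 = blk^2 = blk, so nrm^2 ≤ 4 P/log P (Pri). |bh|^2 = bb^2 ≤ rr P, so nrm^2 ≤ C Y/log P (Rou, P ≤ Y).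
Product: nrm nrm ≤ (4 C P Y)^(1/2)/log P, and P Y ≤ x e^(2η) ≤ 3 x for Y = ⌊x e^(2η)/P⌋; P ≤ Y because
P^2 ≤ x e^(2η) (P natural). -/
def NrmStmt : Prop :=
  ∃ C : ℝ, 0 < C ∧ ∀ (x η : ℝ) (N0 P h : ℕ), 1 ≤ x → 0 < η → η ≤ 1 / 2 → 2 ≤ P → (P : ℝ) ^ 2 ≤ x →
    nrm (ah η N0 P h) (2 * P) * nrm (bh η N0 P h) ⌊x * Real.exp (2 * η) / P⌋₊ ≤
      C * (Real.sqrt x / Real.log P)

/-- Module Tyb (theorem tTyb; type II sum for one block P). Uses: Sep, Nrm, Prm, Bil, Tot.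
Proof. f = FF η N0 P, N0 = ⌊log x/η⌋, N' = ⌊x e^(2η)⌋, M = 2P, Y = ⌊x e^(2η)/P⌋. Prm, then Sep and the triangle
inequality: the left side is ≤ ∑_h |c_h| ∑_{e ≤ D} (1/φ(e)) ∑_{q ∈ Ioc Q (D/e)} (1/φ(q)) ∑_χ |cs ah| |cs bh|. Bil (R = D/e ≤ D) and
Nrm: the inner double sum is ≤ 200 C (√x/log P) (√(M Y)/Q + (√M + √Y)(1 + log D) + D/e), M Y ≤ 2 x e^(2η) ≤ 6 x,
√M + √Y ≤ √(2P) + √(3x/P) ≤ 4 √(x/P) (P ≤ x/P). Tot: ∑_e 1/φ(e) ≤ (1 + log D)^2, ∑_e 1/(e φ(e)) ≤ 4.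
(P^2 ≤ x and P ≥ 3 give 2 P ≤ x.) -/
def TybStmt : Prop :=
  ∃ C : ℝ, 0 < C ∧ ∀ (x η : ℝ) (P Q D : ℕ) (l : ℕ → ℕ), 1 ≤ x → 0 < η → η ≤ 1 / 2 → 3 ≤ P →
    (P : ℝ) ^ 2 ≤ x → 1 ≤ Q → 1 ≤ D →
    ∑ d ∈ Icc 1 D, ‖del (fun c => Q < c) (fun n => (FF η ⌊Real.log x / η⌋₊ P n : ℂ))
        ⌊x * Real.exp (2 * η)⌋₊ d (l d)‖ ≤
      C * (1 + Real.log ((⌊Real.log x / η⌋₊ : ℝ) + 1)) * (Real.sqrt x / Real.log P) *
        ((1 + Real.log D) ^ 2 * (Real.sqrt x / Q + Real.sqrt (x / P) * (1 + Real.log D)) + D)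

end Pool.Agent.Lib.BV
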