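import Pool.Agent.Lib.BV.SpecB

/-!
MP_00e23e_nt, directory Lib/BV (architect helper3), part 3: the sharp form (improvements of
helper72: maximum over y, local windows, fundamental lemma). Final theorem: for D log x ≤ √x,
sum over d ≤ D of max over l, y ≤ x of |E(y;d,l)| ≤ C (x L^-A + √x D (log(2 + √x/(D log x)))^2).
Blocks: p in (P, 2P], m in (2^j P, 2^(j+1) P], P = z 2^k. Rules: see SpecA.lean (first line of the
modules of this part: `import Pool.Agent.Lib.BV.SpecC`).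
-/

namespace Pool.Agent.Lib.BV

open Finset Pool.Agent.Lib.EH3

/-- index of n on the logarithmic grid of step η with origin B -/
noncomputable def gi (η : ℝ) (B n : ℕ) : ℕ := ⌊Real.log ((n : ℝ) / B) / η⌋₊

/-- number of allowed values of the sum of the grid indices for the condition p m ≤ y -/
noncomputable def cut (η y : ℝ) (P j : ℕ) : ℕ :=
  if (2 : ℝ) ^ j * (P : ℝ) ^ 2 ≤ y then ⌊Real.log (y / ((2 : ℝ) ^ j * (P : ℝ) ^ 2)) / η⌋₊ + 1 else 0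

/-- bb restricted to the block (2^j P, 2^(j+1) P] -/
noncomputable def bj (P j n : ℕ) : ℝ := if 2 ^ j * P < n ∧ n ≤ 2 ^ (j + 1) * P then bb P n else 0

/-- one block with separated variables -/
noncomputable def FJ (η : ℝ) (T P j n : ℕ) : ℝ :=
  ∑ w ∈ n.divisorsAntidiagonal,
    if gi η P w.1 + gi η (2 ^ j * P) w.2 < T then blk P w.1 * bj P j w.2 else 0

/-- the convolution blk * bb with second variable ≥ 2 -/
noncomputable def cw (P n : ℕ) : ℝ :=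
  ∑ w ∈ n.divisorsAntidiagonal, if 2 ≤ w.2 then blk P w.1 * bb P w.2 else 0

/-- sum of all blocks for the cut y -/
noncomputable def FY (η : ℝ) (z K J : ℕ) (y : ℝ) (n : ℕ) : ℝ :=
  ∑ k ∈ range K, ∑ j ∈ range J, FJ η (cut η y (z * 2 ^ k) j) (z * 2 ^ k) j n

open Classical in
/-- primes up to y -/
noncomputable def PY (y : ℝ) (n : ℕ) : ℝ := if n.Prime ∧ (n : ℝ) ≤ y then 1 else 0

open Classical in
/-- rough numbers up to y -/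
noncomputable def RY (z : ℕ) (y : ℝ) (n : ℕ) : ℝ := if (n : ℝ) ≤ y then rr z n else 0

/-- the two factors of the separated form -/
noncomputable def aw (η : ℝ) (N1 P h n : ℕ) : ℂ :=
  (blk P n : ℂ) * ee ((h : ℝ) * (gi η P n : ℝ) / (2 * (N1 : ℝ) + 2))

noncomputable def bw (η : ℝ) (N1 P j h n : ℕ) : ℂ :=
  (bj P j n : ℂ) * ee ((h : ℝ) * (gi η (2 ^ j * P) n : ℝ) / (2 * (N1 : ℝ) + 2))

/-! ### Decomposition and separation -/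

/-- Module Cww (theorem tCww). Uses: Cv.
Proof. (1) cw P n = cv P n minus the term m = 1, i.e. cw P n = cv P n if n is not a prime in (P, 2P] (the pair (n, 1)
contributes blk P n * bb P 1), and cw P n = 0 if n is prime (m ≥ 2 and p m = n prime is impossible), so
0 ≤ cw P n ≤ cv P n ≤ 1, and cw P n = cv P n if n is not prime. (2) bj: for m ≥ 2 with bb P m ≠ 0 (Rough P m)
we have m > P, so ∑_{j < J} bj P j m = bb P m if 2 ≤ m ≤ 2^J P (exactly one j with 2^j P < m ≤ 2^(j+1) P) and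
bj P j 1 = 0. -/
def CwwStmt : Prop :=
  (∀ P n : ℕ, 1 ≤ P → 1 ≤ n → 0 ≤ cw P n ∧ cw P n ≤ cv P n ∧ (n.Prime → cw P n = 0) ∧
    (¬ n.Prime → cw P n = cv P n)) ∧
  (∀ P J m : ℕ, 1 ≤ P → 2 ≤ m → m ≤ 2 ^ J * P → ∑ j ∈ range J, bj P j m = bb P m) ∧
  (∀ P J m : ℕ, 1 ≤ P → 0 ≤ ∑ j ∈ range J, bj P j m ∧ ∑ j ∈ range J, bj P j m ≤ bb P m) ∧
  (∀ P j m : ℕ, 1 ≤ P → m ≤ 1 → bj P j m = 0)

open Classical in
/-- Module Dew (theorem tDew). Uses: Cv, Scv, Cww.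
Proof. E = [n prime] - rr z n + ∑_k cw(z 2^k) n. n = 1: E = 0 - 1 + 0 (cw P 1 = 0) and n ≤ z. n not Rough z: all
cw (z 2^k) n ≤ cv (z 2^k) n = 0 and E = [n prime]; a prime that is not Rough z has n ≤ z. n prime, n > z: E = 1 - 1
+ 0 = 0. n ≥ 2 composite, Rough z: cw = cv; the least prime factor p has p^2 ≤ n ≤ (z 2^K)^2, so
z 2^k < p ≤ z 2^(k+1) for some k < K, n is Rough (z 2^k), the sum is in [0,1] by Scv, and it is 1 if no prime q > z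
has q^2 | n (Cv). -/
def DewStmt : Prop :=
  ∀ z K n : ℕ, 1 ≤ z → 1 ≤ n → n ≤ (z * 2 ^ K) ^ 2 →
    |(if n.Prime then (1 : ℝ) else 0) - rr z n + ∑ k ∈ range K, cw (z * 2 ^ k) n| ≤
      (if n ≤ z then (1 : ℝ) else 0) +
      (if ∃ p : ℕ, p.Prime ∧ z < p ∧ p ^ 2 ∣ n then (1 : ℝ) else 0)

/-- Module Gri (theorem tGri). Uses: nothing.
Proof. Let P < p ≤ 2P, B = 2^j P < m ≤ 2B. u = log(p/P), v = log(m/B) are in (0, log 2], and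
u + v = log(p m/(2^j P^2)). (1) p m ≤ y: then 2^j P^2 ≤ y, gi + gi ≤ (u + v)/η ≤ log(y/(2^j P^2))/η, so gi + gi ≤ the
floor < cut. (2) gi + gi < cut: then cut ≠ 0, so 2^j P^2 ≤ y, gi + gi ≤ log(y/(2^j P^2))/η, and
u + v < η (gi + gi + 2) ≤ log(y/(2^j P^2)) + 2 η. (3) u, v ≤ log 2. -/
def GriStmt : Prop :=
  ∀ (η y : ℝ) (P j p m : ℕ), 0 < η → 1 ≤ P → P < p → p ≤ 2 * P → 2 ^ j * P < m → m ≤ 2 ^ (j + 1) * P →
    ((p : ℝ) * m ≤ y → gi η P p + gi η (2 ^ j * P) m < cut η y P j) ∧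
    (gi η P p + gi η (2 ^ j * P) m < cut η y P j → (p : ℝ) * m ≤ y * Real.exp (2 * η)) ∧
    gi η P p ≤ ⌊Real.log 2 / η⌋₊ ∧ gi η (2 ^ j * P) m ≤ ⌊Real.log 2 / η⌋₊

/-- Module Fyy (theorem tFyy). Uses: Cv, Scv, Cww, Gri.
Proof. For one P: S_P(n) = ∑_{j<J} FJ η (cut η y P j) P j n is a sum over the pairs (p, m), p m = n, of blk P p times
the sum over j of bj P j m [gi + gi < cut]; at most one j has bj P j m ≠ 0. So 0 ≤ S_P ≤ cw P n ≤ cv P n. Sum over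
P = z 2^k: ≤ 1 by Scv, and 0 unless n is Rough (z 2^k) for some k, hence Rough z: ≤ rr z n. If n ≤ y ≤ 2^J: for every
pair with blk P p bb P m ≠ 0, m ≥ 2, we have m ≤ n ≤ 2^J ≤ 2^J P, so m lies in one block j < J, and the cut condition
holds by Gri (1): S_P = cw P n. If FY ≠ 0 some pair satisfies the cut condition and n = p m ≤ y e^(2η) by Gri (2). -/
def FyyStmt : Prop :=
  ∀ (η y : ℝ) (z K J n : ℕ), 0 < η → 1 ≤ z → 1 ≤ n → y ≤ (2 : ℝ) ^ J →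
    0 ≤ FY η z K J y n ∧ FY η z K J y n ≤ rr z n ∧
    ((n : ℝ) ≤ y → FY η z K J y n = ∑ k ∈ range K, cw (z * 2 ^ k) n) ∧
    (FY η z K J y n ≠ 0 → (n : ℝ) ≤ y * Real.exp (2 * η))

open Classical in
/-- Module Gyy (theorem tGyy). Uses: Dew, Fyy.
Proof. n ≤ y: PY = [n prime], RY = rr z n, FY = ∑ cw, so Dew (n ≤ y ≤ (z 2^K)^2). n > y: PY = RY = 0 and
0 ≤ FY ≤ rr z n, FY = 0 unless n ≤ y e^(2η). -/
def GyyStmt : Prop :=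
  ∀ (η y : ℝ) (z K J n : ℕ), 0 < η → 1 ≤ z → 1 ≤ n → y ≤ (2 : ℝ) ^ J → y ≤ ((z : ℝ) * 2 ^ K) ^ 2 →
    |PY y n - RY z y n + FY η z K J y n| ≤
      (if n ≤ z then (1 : ℝ) else 0) +
      (if (n : ℝ) ≤ y ∧ ∃ p : ℕ, p.Prime ∧ z < p ∧ p ^ 2 ∣ n then (1 : ℝ) else 0) +
      (if y < (n : ℝ) ∧ (n : ℝ) ≤ y * Real.exp (2 * η) then rr z n else 0)

/-- Module Dfu (theorem tDfu). Uses: nothing. (Compare Dft of SpecB, landed: Lib/BV/Dft.lean.)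
Proof. M = 2 N1 + 2, for T ≤ 2 N1 + 1 c_h = (1/M) ∑_{k < T} ee(-(h k)/M), for T ≥ 2 N1 + 1 the same with T replaced by
2 N1 + 1. ∑_h c_h ee(h t/M) = [t < T] for 0 ≤ t ≤ 2 N1 < M (EH3.orth). |c_0| ≤ 1 =: g_0, and for 1 ≤ h < M the geometric
sum is ≤ 2/|1 - ee(h/M)| ≤ 2/(4 min(h, M-h)/M) (EH3.norm_ee_sub_one), so |c_h| ≤ 1/(2 min(h, M-h)) ≤ g_h :=
(1/2)(1/h + 1/(M-h)), for every T. ∑_h g_h = 1 + ∑_{h=1}^{M-1} 1/h ≤ 2 + log M ≤ 4 (1 + log(N1+1)). -/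
def DfuStmt : Prop :=
  ∀ N1 : ℕ, ∃ g : ℕ → ℝ, (∀ h, 0 ≤ g h) ∧
    ∑ h ∈ range (2 * N1 + 2), g h ≤ 4 * (1 + Real.log ((N1 : ℝ) + 1)) ∧
    ∀ T : ℕ, ∃ c : ℕ → ℂ, (∀ h ∈ range (2 * N1 + 2), ‖c h‖ ≤ g h) ∧
      ∀ i j : ℕ, i ≤ N1 → j ≤ N1 →
        ∑ h ∈ range (2 * N1 + 2), c h * ee ((h : ℝ) * ((i : ℝ) + j) / (2 * (N1 : ℝ) + 2)) =
          if i + j < T then 1 else 0

/-- Module Sew (theorem tSew). Uses: Gri, Dfu. (Compare Lib/BV/Sep.lean, landed.)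
Proof. N1 = ⌊log 2/η⌋, g from Dfu (depends on N1 only), c from Dfu for T. cs FJ N' e χ = sum over the pairs (p, m),
p m = n ≤ N', (p m, e) = 1, of [gi p + gi m < T] blk p bj m χ(p) χ(m). By the hypothesis on N' and nonnegativity of the
terms every pair with [..] = 1, blk p bj m ≠ 0 has p m ≤ N', so this is the sum over all p ≤ 2P, m ≤ 2^(j+1) P, coprime to
e; there gi p, gi m ≤ N1 (Gri (3)) and Dfu gives [gi p + gi m < T] = ∑_h c_h ee(h (gi p + gi m)/M). -/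
def SewStmt : Prop :=
  ∀ (η : ℝ) (P j : ℕ), 0 < η → 1 ≤ P →
    ∃ g : ℕ → ℝ, (∀ h, 0 ≤ g h) ∧
      ∑ h ∈ range (2 * ⌊Real.log 2 / η⌋₊ + 2), g h ≤ 4 * (1 + Real.log ((⌊Real.log 2 / η⌋₊ : ℝ) + 1)) ∧
      ∀ (T N' : ℕ), (∀ n : ℕ, FJ η T P j n ≠ 0 → n ≤ N') →
        ∃ c : ℕ → ℂ, (∀ h ∈ range (2 * ⌊Real.log 2 / η⌋₊ + 2), ‖c h‖ ≤ g h) ∧
          ∀ (e q : ℕ) (χ : DirichletCharacter ℂ q),
            cs (fun n => (FJ η T P j n : ℂ)) N' e χ =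
              ∑ h ∈ range (2 * ⌊Real.log 2 / η⌋₊ + 2), c h *
                (cs (aw η ⌊Real.log 2 / η⌋₊ P h) (2 * P) e χ *
                  cs (bw η ⌊Real.log 2 / η⌋₊ P j h) (2 ^ (j + 1) * P) e χ)

/-- Module Nrw (theorem tNrw). Uses: Rou, Pri.
Proof. |aw|^2 = blk, so nrm^2 ≤ 4 P/log P (Pri). |bw|^2 = bj^2 ≤ rr P, so nrm^2 ≤ C 2^(j+1) P/log P (Rou with
M = 2^(j+1) P). Product ≤ (8 C 2^j)^(1/2) P/log P. -/
def NrwStmt : Prop :=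
  ∃ C : ℝ, 0 < C ∧ ∀ (η : ℝ) (N1 P j h : ℕ), 2 ≤ P →
    nrm (aw η N1 P h) (2 * P) * nrm (bw η N1 P j h) (2 ^ (j + 1) * P) ≤
      C * (Real.sqrt ((2 : ℝ) ^ j) * (P : ℝ) / Real.log P)

/-- Module Pr2 (theorem tPr2). Uses: nothing. (Compare Lib/BV/Prm.lean, landed.)
Proof. Write d = q e; φ(q) φ(e) ≤ φ(q e) and cs a M (q e) χ = cs a M e χ for χ mod q. The map (d, q) ↦ (d/q, q) is a
bijection from the pairs q | d, 1 ≤ d ≤ D, Q < q onto the pairs 1 ≤ e ≤ D, Q < q ≤ D/e. -/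
def Pr2Stmt : Prop :=
  ∀ (a b : ℕ → ℂ) (M N D Q : ℕ),
    ∑ d ∈ Icc 1 D, (1 / (d.totient : ℝ)) * ∑ q ∈ d.divisors.filter (fun q => Q < q),
        ∑ χ ∈ prim q, ‖cs a M d χ‖ * ‖cs b N d χ‖ ≤
      ∑ e ∈ Icc 1 D, (1 / (e.totient : ℝ)) * ∑ q ∈ Ioc Q (D / e), (1 / (q.totient : ℝ)) *
        ∑ χ ∈ prim q, ‖cs a M e χ‖ * ‖cs b N e χ‖

/-- Module Tyj (theorem tTyj; type II sum, one block). Uses: Sew, Nrw, Inj, Pr2, Bil, Tot.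
Proof. Sew with N' = N (hypothesis: FJ ≠ 0 implies n ≤ N, for all T d). For each d: Inj with c = (Q < ·) gives
‖del‖ ≤ (1/φ(d)) ∑_{q | d, Q < q} ∑_χ |cs FJ N d χ| ≤ ∑_h g_h (1/φ(d)) ∑_q ∑_χ |cs aw d| |cs bw d|. Sum over d, Pr2, then for
each e Bil (R = D/e ≤ D) and Nrw: the inner sum is ≤ 200 C (√(2^j) P/log P) (√(M M')/Q + (√M + √M')(1 + log D) + D/e),
M = 2P, M' = 2^(j+1) P: √(M M') = 2 √(2^j) P ≤ 2 √x, √M + √M' ≤ 2 √(2^(j+1) P) ≤ 3 √(x/P). Tot: ∑_e 1/φ(e) ≤ (1 + log D)^2,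
∑_e 1/(e φ(e)) ≤ 4. ∑ g_h ≤ 4 (1 + log(1/η + 1)) ≤ 12 (1 + log(1/η)) (η ≤ 1/2, log 2 ≤ 1). -/
def TyjStmt : Prop :=
  ∃ C : ℝ, 0 < C ∧ ∀ (x η : ℝ) (P j Q D N : ℕ) (T l : ℕ → ℕ), 0 < η → η ≤ 1 / 2 → 2 ≤ P →
    (2 : ℝ) ^ j * (P : ℝ) ^ 2 ≤ x → 1 ≤ Q → 1 ≤ D →
    (∀ d n : ℕ, FJ η (T d) P j n ≠ 0 → n ≤ N) →
    ∑ d ∈ Icc 1 D, ‖del (fun c => Q < c) (fun n => (FJ η (T d) P j n : ℂ)) N d (l d)‖ ≤
      C * (1 + Real.log (1 / η)) * (Real.sqrt ((2 : ℝ) ^ j) * (P : ℝ) / Real.log P) *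
        ((1 + Real.log D) ^ 2 * (Real.sqrt x / Q + Real.sqrt (x / P) * (1 + Real.log D)) + D)

/-- Module Tys (theorem tTys; type II sum, all blocks). Uses: Tyj, Gri.
Proof. del is additive in f (a finite sum), so the left side is ≤ ∑_k ∑_j of the left sides of Tyj with T d =
cut η (y d) P j, P = z 2^k, N = 4⌊x⌋. If 2^j P^2 > x then cut = 0 (y d ≤ x) and FJ = 0. Otherwise Tyj applies: FJ ≠ 0
implies n ≤ y d e^(2η) (Gri (2)) ≤ x e ≤ 4⌊x⌋ (x ≥ 4). P ≥ z: log P ≥ log z, √(x/P) ≤ √(x/z).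
∑_{j : 2^j P^2 ≤ x} √(2^j) P ≤ 4 √x (geometric series with ratio √2: the terms, from the largest one ≤ √x downwards, are
≤ √x 2^(-i/2)). Sum over k < K gives the factor K. -/
def TysStmt : Prop :=
  ∃ C : ℝ, 0 < C ∧ ∀ (x η : ℝ) (z K J Q D : ℕ) (y : ℕ → ℝ) (l : ℕ → ℕ), 4 ≤ x → 0 < η → η ≤ 1 / 2 →
    2 ≤ z → 1 ≤ Q → 1 ≤ D → (∀ d, y d ≤ x) →
    ∑ d ∈ Icc 1 D, ‖del (fun c => Q < c) (fun n => (FY η z K J (y d) n : ℂ)) (4 * ⌊x⌋₊) d (l d)‖ ≤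
      C * (1 + Real.log (1 / η)) * ((K : ℝ) * Real.sqrt x / Real.log z) *
        ((1 + Real.log D) ^ 2 * (Real.sqrt x / Q + Real.sqrt (x / z) * (1 + Real.log D)) + D)

/-! ### Class sums and means -/

/-- Module Mea (theorem tMea). Uses: nothing.
Proof. ∑_{(n,d)=1} f n = ∑_{l' ∈ range d, (l',d)=1} cls f N d l' (φ(d) classes), so the left side is
(1/φ(d)) ∑_{l'} (cls f N d l - cls f N d l'). -/
def MeaStmt : Prop :=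
  ∀ (f : ℕ → ℂ) (N d l : ℕ) (E : ℝ), 1 ≤ d → l.Coprime d →
    (∀ l₁ l₂ : ℕ, l₁.Coprime d → l₂.Coprime d → ‖cls f N d l₁ - cls f N d l₂‖ ≤ E) →
    ‖cls f N d l - (1 / (d.totient : ℂ)) * ∑ n ∈ (Icc 1 N).filter (fun n => n.Coprime d), f n‖ ≤ E

/-- Module Tdy (theorem tTdy). Uses: Tot.
Proof. d/φ(d) = ∏_{p | d} (1 + 1/(p-1)) = ∑_{s ⊆ primeFactors d} ∏_{p ∈ s} 1/(p-1) ≤ ∑_{k | d} 1/φ(k) (s ↦ ∏ s injective into
the divisors, φ(∏ s) = ∏ (p-1)). So ∑_{d ≤ D} d/φ(d) ≤ ∑_{k ≤ D} (1/φ(k)) ⌊D/k⌋ ≤ D ∑ 1/(k φ(k)) ≤ 4 D (Tot). For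
D/2 < d ≤ D: 1/φ(d) ≤ (2/D) d/φ(d). -/
def TdyStmt : Prop :=
  ∀ D : ℕ, ∑ d ∈ Ioc (D / 2) D, 1 / (d.totient : ℝ) ≤ 8

end Pool.Agent.Lib.BV
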