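import Pool.Agent.Lib.BV.SpecB

/-!
MP_00e23e_nt, directory Lib/BV, part F (helper72): the fundamental lemma (Brun-Hooley sieve) for the
numbers without prime factor ≤ z in residue classes, with relative error exp(-b) at level z^(16 b).
Rules: see SpecA.lean; first line of the modules of this part: `import Pool.Agent.Lib.BV.SpecF`
(plus the files named in the docstring). The statements listed under Uses are hypotheses, in this order.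

Plan. The primes p ≤ z not dividing d are cut into the blocks pbl z d j, j < z (blocks with large j are
empty); in block j Bonferroni is used with at most 2 (b + j) primes. x_j = [no prime of block j divides n],
y_j = truncated sum ≥ x_j, y_j - x_j ≤ w_j = number of (2 (b + j) + 1)-subsets of block j all of whose
elements divide n; ∏ x ≤ ∏ y ≤ ∏ x + ∑_i w_i ∏_{j ≠ i} y_j (Hooley).
-/

namespace Pool.Agent.Lib.BV

open Finset Pool.Agent.Lib.EH3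

/-- thresholds z, sqrt z, sqrt (sqrt z), ... (rounded down) -/
def thr (z : ℕ) : ℕ → ℕ
  | 0 => z
  | j + 1 => Nat.sqrt (thr z j)

/-- block j: the primes p with thr z (j+1) < p ≤ thr z j not dividing d -/
def pbl (z d j : ℕ) : Finset ℕ :=
  (Ioc (thr z (j + 1)) (thr z j)).filter (fun p => p.Prime ∧ ¬ p ∣ d)

/-- the subsets of S with at most r elements -/
def lowS (S : Finset ℕ) (r : ℕ) : Finset (Finset ℕ) := S.powerset.filter (fun s => s.card ≤ r)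

/-- the indicator of k ∣ n -/
noncomputable def dvi (k n : ℕ) : ℝ := if k ∣ n then 1 else 0

/-- y_j as a function of n -/
noncomputable def yf (z d b j n : ℕ) : ℝ :=
  ∑ s ∈ lowS (pbl z d j) (2 * (b + j)), (-1 : ℝ) ^ s.card * dvi (∏ p ∈ s, p) n

/-- w_j as a function of n -/
noncomputable def wf (z d b j n : ℕ) : ℝ :=
  ∑ s ∈ (pbl z d j).powersetCard (2 * (b + j) + 1), dvi (∏ p ∈ s, p) n

/-- the mean of y_j -/
noncomputable def Yd (z d b j : ℕ) : ℝ :=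
  ∑ s ∈ lowS (pbl z d j) (2 * (b + j)), (-1 : ℝ) ^ s.card / ((∏ p ∈ s, p : ℕ) : ℝ)

/-- the mean of w_j -/
noncomputable def Ud (z d b j : ℕ) : ℝ :=
  ∑ s ∈ (pbl z d j).powersetCard (2 * (b + j) + 1), 1 / ((∏ p ∈ s, p : ℕ) : ℝ)

/-- Module Bnf (theorem tBnf; Bonferroni inequalities for real numbers). Uses: nothing.
Proof. T_r(S) = ∑_{s ⊆ S, |s| ≤ r} (-1)^|s| ∏_s x. Claim (-1)^r (T_r(S) - ∏_S (1 - x)) ≥ 0 for all r, by induction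
on S: T_r(S ∪ {a}) = T_r(S) - x_a T_(r-1)(S) (T_(-1) = 0). So ∏ (1 - x) ≤ T_(2R), and T_(2R) = T_(2R+1) + e_(2R+1)
≤ ∏ (1 - x) + e_(2R+1). (Private lemmas bonf_S, bonf_E, bonf_alt of Lib/MP_9f2731_nt/BT/Bonf.lean are exactly
this and can be copied.) -/
def BnfStmt : Prop :=
  ∀ (R : ℕ) (S : Finset ℕ) (x : ℕ → ℝ), (∀ p ∈ S, 0 ≤ x p ∧ x p ≤ 1) →
    ∏ p ∈ S, (1 - x p) ≤ ∑ s ∈ lowS S (2 * R), (-1 : ℝ) ^ s.card * ∏ p ∈ s, x p ∧
    ∑ s ∈ lowS S (2 * R), (-1 : ℝ) ^ s.card * ∏ p ∈ s, x p ≤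
      ∏ p ∈ S, (1 - x p) + ∑ s ∈ S.powersetCard (2 * R + 1), ∏ p ∈ s, x p

/-- Module Hly (theorem tHly; Hooley's inequality). Uses: nothing.
Proof. Induction on J. With X, Y the products over j < J and E = ∑_{i<J} w_i ∏_{j ∈ range J \ i} y_j ≥ 0 (w_i ≥ y_i - x_i ≥ 0,
y_j ≥ 0): Y y_J ≤ Y x_J + Y w_J ≤ (X + E) x_J + w_J Y ≤ X x_J + E y_J + w_J Y, and the sum for J + 1 is
E y_J + w_J Y. First part: Finset.prod_le_prod. -/
def HlyStmt : Prop :=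
  ∀ (J : ℕ) (x y w : ℕ → ℝ), (∀ j ∈ range J, 0 ≤ x j ∧ x j ≤ y j ∧ y j ≤ x j + w j) →
    ∏ j ∈ range J, x j ≤ ∏ j ∈ range J, y j ∧
    ∏ j ∈ range J, y j ≤ ∏ j ∈ range J, x j + ∑ i ∈ range J, w i * ∏ j ∈ (range J).erase i, y j

/-- Module Lif (theorem tLif; class sums of a product of linear forms). Uses: Apc.
Proof. Induction on J, for all k. J = 0: the number of n ∈ Ioc N N2, n ≡ l mod d, k ∣ n, is the difference of the
numbers for Icc 1 N2 and Icc 1 N, each N/(d k) up to 1 by Apc (1): error ≤ 2. J → J + 1: the factor j = J is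
∑_{s ∈ T J} c J s [∏ s ∣ n]; exchange the sums; for s ∈ T J the n with k ∣ n and ∏ s ∣ n are the n with k ∏ s ∣ n
(k and ∏ s are coprime: the primes of s ⊆ B J do not divide k; Nat.Coprime.mul_dvd_of_dvd_of_dvd), k ∏ s is
coprime to d, and no prime of B i, i < J, divides k ∏ s (B i and B J are disjoint: a prime dividing ∏ s is in s,
Prime.dvd_finset_prod_iff / Nat.prime_dvd_prime_iff_eq). So the sum is ∑_s c J s (X/(k ∏ s) M ± 2 A), with M, A the products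
over j < J, and X/(k ∏ s) M sums to X/k M ∑_s c J s/∏ s; the error is ≤ 2 A ∑_s |c J s|. -/
def LifStmt : Prop :=
  ∀ (J : ℕ) (B : ℕ → Finset ℕ) (T : ℕ → Finset (Finset ℕ)) (c : ℕ → Finset ℕ → ℝ)
    (N N2 d l k : ℕ), 1 ≤ d → l.Coprime d → N ≤ N2 → 1 ≤ k → k.Coprime d →
    (∀ i ∈ range J, ∀ p ∈ B i, p.Prime ∧ ¬ p ∣ d ∧ ¬ p ∣ k) →
    (∀ i ∈ range J, ∀ j ∈ range J, i ≠ j → Disjoint (B i) (B j)) →
    (∀ i ∈ range J, ∀ s ∈ T i, s ⊆ B i) →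
    |∑ n ∈ (Ioc N N2).filter (fun n => n ≡ l [MOD d] ∧ k ∣ n),
        ∏ i ∈ range J, ∑ s ∈ T i, c i s * dvi (∏ p ∈ s, p) n -
      ((N2 : ℝ) - N) / (d * k) * ∏ i ∈ range J, ∑ s ∈ T i, c i s / ((∏ p ∈ s, p : ℕ) : ℝ)| ≤
      2 * ∏ i ∈ range J, ∑ s ∈ T i, |c i s|

/-- Module Pbs (theorem tPbs; the blocks). Uses: nothing.
Proof. thr z is antitone (Nat.sqrt_le_self), so the intervals Ioc (thr z (j+1)) (thr z j) are disjoint: (1). Every prime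
p ≤ z lies in one of them with j < z: thr z (j+1) < thr z j if thr z j ≥ 2 (Nat.sqrt_lt_self), so thr z j ≤ max 1 (z - j)
by induction and thr z z ≤ 1 < p ≤ thr z 0; take the least j with thr z (j+1) < p (Nat.find): (2) by
Finset.prod_biUnion. (3) thr z j ≥ 1 for z ≥ 1 (Nat.sqrt_pos); pbl ⊆ Icc 2 (thr z j). (4) induction: thr z (j+1) ^ 2 ≤ thr z j
(Nat.sqrt_le'). -/
def PbsStmt : Prop :=
  (∀ z d i j : ℕ, i ≠ j → Disjoint (pbl z d i) (pbl z d j)) ∧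
  (∀ (z d : ℕ) (f : ℕ → ℝ), 1 ≤ z → ∏ j ∈ range z, ∏ p ∈ pbl z d j, f p =
      ∏ p ∈ (Icc 1 z).filter (fun p => p.Prime ∧ ¬ p ∣ d), f p) ∧
  (∀ z d j : ℕ, 1 ≤ z → (pbl z d j).card + 1 ≤ thr z j) ∧
  (∀ z j : ℕ, thr z j ^ 2 ^ j ≤ z)

/-- Module Ctt (theorem tCtt). Uses: Esy.
Proof. The number of subsets with at most r elements is ∑_{j ≤ r} choose |S| j ≤ (|S| + 1)^r ≤ t^r (Esy (2)); the
number with exactly r elements is one of the terms. -/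
def CttStmt : Prop :=
  ∀ (S : Finset ℕ) (t r : ℕ), S.card + 1 ≤ t →
    ((lowS S r).card : ℝ) ≤ (t : ℝ) ^ r ∧ ((S.powersetCard r).card : ℝ) ≤ (t : ℝ) ^ r

/-- Module Lvl (theorem tLvl). Uses: Pbs.
Proof. z ≥ 1, all thr z j ≥ 1 (or the product is 0). log (thr z j) ≤ log z/2^j by Pbs (4). ∑_{j<J} (2b + 1 + 2j)/2^j =
4b + 6 - (4b + 6 + 4J)/2^J ≤ 4b + 6 (induction on J). So the logarithm of the product is ≤ (4b + 6) log z. -/
def LvlStmt : Prop :=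
  ∀ z b : ℕ, 1 ≤ z → ∏ j ∈ range z, (thr z j : ℝ) ^ (2 * (b + j) + 1) ≤ (z : ℝ) ^ (4 * b + 6)

/-- Module Msb (theorem tMsb). Imports also Pool.Agent.Lib.MP_9f2731_nt.BT.Mert. Uses: nothing.
Proof. BT.tMert with ε = 1: for real z ≥ z₀ the sum over ⌊z⌋ < p ≤ ⌊z^2⌋ is ≤ log 2 + 1. Take z = √t
(Real.nat_floor_real_sqrt_eq_nat_sqrt) for t ≥ z₀^2; for t < z₀^2 the sum is ≤ ∑_{n ≤ z₀^2} 1/n ≤ z₀^2 + 1 (bounded number of
terms ≤ 1). κ = the maximum of the two bounds and 1. -/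
def MsbStmt : Prop :=
  ∃ κ : ℝ, 1 ≤ κ ∧ ∀ t : ℕ, ∑ p ∈ (Ioc (Nat.sqrt t) t).filter Nat.Prime, 1 / (p : ℝ) ≤ κ

/-- Module Mpr (theorem tMpr). Uses: nothing.
Proof. (1) log z ≤ ∑_{n ≤ z} 1/n ≤ ∏_{p ≤ z} (1 - 1/p)⁻¹: Mathlib
EulerProduct.summable_and_hasSum_smoothNumbers_prod_primesBelow_geometric (f = n ↦ 1/n as a monoid with zero hom to ℝ,
N = z + 1; every 1 ≤ n ≤ z is in smoothNumbers (z + 1)), or by hand. So ∏_{p ≤ z} (1 - 1/p) ≤ 1/log z. (2) The product over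
the p ≤ z not dividing d is the full product divided by the product over the p ≤ z dividing d, and the latter is
≥ ∏_{p ∣ d} (1 - 1/p) = φ(d)/d (Nat.totient_eq_mul_prod_factors; factors in (0,1], subset of d.primeFactors). -/
def MprStmt : Prop :=
  ∀ z d : ℕ, 2 ≤ z → 1 ≤ d →
    ∏ p ∈ (Icc 1 z).filter (fun p => p.Prime ∧ ¬ p ∣ d), (1 - 1 / (p : ℝ)) ≤
      ((d : ℝ) / (d.totient : ℝ)) / Real.log z

/-- Module Mns (theorem tMns; the main terms). Uses: Bnf, Esy, Pbs, Msb, Mpr.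
Proof. κ from Msb; the sum of 1/p over pbl z d j is ≤ κ (thr z (j+1) = sqrt (thr z j)). W_j = ∏_{pbl} (1 - 1/p) ≥ 4^(-κ) because
1 - t ≥ 4^(-t) for 0 ≤ t ≤ 1/2 (or 1 - t ≥ exp (-2t) for 0 ≤ t ≤ 1/2, then 4^(-κ) is replaced by e^(-2κ)). Bnf with x p = 1/p
(∏_s 1/p = 1/∏ s): W_j ≤ Yd ≤ W_j + Ud, so Yd > 0. With r = 2 (b + j) + 1: Ud ≤ κ^r/r! (Esy (1)) = e^(-r) (eκ)^r/r! ≤
e^(-r) exp (eκ) (Real.pow_div_factorial_le_exp). u_j = Ud/W_j ≤ c e^(-r), c = e^(2κ) exp (eκ), and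
∑_j u_j ≤ c e^(-2b) ∑_j e^(-2j-1) ≤ c e^(-2b) ≤ c e^(-b). So ∏ Yd ≤ ∏ W_j ∏ (1 + u_j) ≤ ∏ W_j exp (∑ u_j) ≤ e^c ∏ W_j, and
∏_{j<z} W_j ≤ (d/φ(d))/log z by Pbs (2) and Mpr. Third part: Ud_i ∏_{j≠i} Yd_j = (Ud_i/Yd_i) ∏ Yd ≤ u_i ∏ Yd
(Finset.mul_prod_erase), sum ≤ c e^(-b) e^c (d/φ(d))/log z. -/
def MnsStmt : Prop :=
  ∃ C : ℝ, 0 < C ∧ ∀ z d b : ℕ, 2 ≤ z → 1 ≤ d →
    (∀ j, 0 ≤ Yd z d b j) ∧
    ∏ j ∈ range z, Yd z d b j ≤ C * (((d : ℝ) / (d.totient : ℝ)) / Real.log z) ∧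
    ∑ i ∈ range z, Ud z d b i * ∏ j ∈ (range z).erase i, Yd z d b j ≤
      C * Real.exp (-(b : ℝ)) * (((d : ℝ) / (d.totient : ℝ)) / Real.log z)

/-- Module Pws (theorem tPws; pointwise). Uses: Bnf, Hly, Pbs.
Proof. x p = dvi p n ∈ {0,1}; for a set s of primes ∏_{p ∈ s} dvi p n = dvi (∏ s) n (Finset.prod_primes_dvd or induction).
x_j = ∏_{p ∈ pbl z d j} (1 - dvi p n). Bnf: 0 ≤ x_j ≤ yf ≤ x_j + wf, so Hly applies with J = z. By Pbs (2) with f p = 1 - dvi p n,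
∏_{j<z} x_j is the product over the primes p ≤ z not dividing d, which is rr z n: it is 1 if no such p divides n and
0 otherwise, and a prime p ∣ d does not divide n (n ≡ l mod d would give p ∣ l). n ≥ 1. -/
def PwsStmt : Prop :=
  ∀ z d b l n : ℕ, 2 ≤ z → 1 ≤ d → l.Coprime d → 1 ≤ n → n ≡ l [MOD d] →
    rr z n ≤ ∏ j ∈ range z, yf z d b j n ∧
    ∏ j ∈ range z, yf z d b j n ≤
      rr z n + ∑ i ∈ range z, wf z d b i n * ∏ j ∈ (range z).erase i, yf z d b j n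

/-- Module Smy (theorem tSmy; class sums). Uses: Lif, Pbs, Ctt, Lvl.
Proof. (1) Lif with J = z, k = 1, B = pbl z d, T j = lowS (pbl z d j) (2 (b + j)), c j s = (-1)^|s| (c/∏ s as in Yd). The error is ≤
2 ∏ |T j| ≤ 2 ∏ (thr z j)^(2 (b+j)) ≤ 2 ∏ (thr z j)^(2(b+j)+1) ≤ 2 z^(4b+6) by Ctt (Pbs (3)), thr z j ≥ 1 and Lvl. (2) The same with T i
replaced by powersetCard (2(b+i)+1) (pbl z d i) and c i s = 1 (T and c as functions of j with `if j = i`): the product over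
range z is the factor i times the product over the erase (Finset.mul_prod_erase); error ≤ 2 ∏ (thr z j)^(2(b+j)+1). -/
def SmyStmt : Prop :=
  ∀ z d b l N N2 : ℕ, 2 ≤ z → 1 ≤ d → l.Coprime d → N ≤ N2 →
    |∑ n ∈ (Ioc N N2).filter (fun n => n ≡ l [MOD d]), ∏ j ∈ range z, yf z d b j n -
      ((N2 : ℝ) - N) / d * ∏ j ∈ range z, Yd z d b j| ≤ 2 * (z : ℝ) ^ (4 * b + 6) ∧
    ∀ i ∈ range z,
      |∑ n ∈ (Ioc N N2).filter (fun n => n ≡ l [MOD d]),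
          wf z d b i n * ∏ j ∈ (range z).erase i, yf z d b j n -
        ((N2 : ℝ) - N) / d * (Ud z d b i * ∏ j ∈ (range z).erase i, Yd z d b j)| ≤
        2 * (z : ℝ) ^ (4 * b + 6)

/-- Module Clf (theorem tClf). Uses: Pws, Smy.
Proof. S = ∑ rr z n over the class, Y = ∑ ∏ yf, E = ∑_n ∑_i wf ∏ yf = ∑_i ∑_n. Pws: S ≤ Y ≤ S + E (n > N gives n ≥ 1). Smy:
|Y - X ∏ Yd| ≤ 2 z^(4b+6), E ≤ X ∑_i Ud ∏ Yd + z 2 z^(4b+6), X = (N2 - N)/d. -/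
def ClfStmt : Prop :=
  ∀ z d b l N N2 : ℕ, 2 ≤ z → 1 ≤ d → l.Coprime d → N ≤ N2 →
    ∑ n ∈ (Ioc N N2).filter (fun n => n ≡ l [MOD d]), rr z n ≤
      ((N2 : ℝ) - N) / d * ∏ j ∈ range z, Yd z d b j + 2 * (z : ℝ) ^ (4 * b + 6) ∧
    |∑ n ∈ (Ioc N N2).filter (fun n => n ≡ l [MOD d]), rr z n -
      ((N2 : ℝ) - N) / d * ∏ j ∈ range z, Yd z d b j| ≤
      ((N2 : ℝ) - N) / d * ∑ i ∈ range z, Ud z d b i * ∏ j ∈ (range z).erase i, Yd z d b j +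
        2 * ((z : ℝ) + 1) * (z : ℝ) ^ (4 * b + 6)

/-- THE FUNDAMENTAL LEMMA. Module Fl (theorem tFl). Uses: Clf, Mns.
Proof. Clf for l and l2, triangle inequality, Mns (3): (N2 - N)/d (d/φ(d)) = (N2 - N)/φ(d) (d.totient > 0); the error is
4 (z + 1) z^(4b+6) ≤ z^4 z^(4b+6) (4 (z + 1) ≤ z^4 for z ≥ 2) ≤ z^(16 b) because 4b + 10 ≤ 16 b for b ≥ 1. -/
def FlStmt : Prop :=
  ∃ C : ℝ, 0 < C ∧ ∀ z b d l l2 N N2 : ℕ, 2 ≤ z → 1 ≤ b → 1 ≤ d → l.Coprime d →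
    l2.Coprime d → N ≤ N2 →
    |∑ n ∈ (Ioc N N2).filter (fun n => n ≡ l [MOD d]), rr z n -
      ∑ n ∈ (Ioc N N2).filter (fun n => n ≡ l2 [MOD d]), rr z n| ≤
      C * (((N2 : ℝ) - N) / (d.totient : ℝ) * (Real.exp (-(b : ℝ)) / Real.log z)) +
        (z : ℝ) ^ (16 * b)

/-- Module Ub (theorem tUb; upper bound sieve). Uses: Clf, Mns.
Proof. Clf (1) with b = 1 and Mns (2); 2 z^10 ≤ z^16. -/
def UbStmt : Prop :=
  ∃ C : ℝ, 0 < C ∧ ∀ z d l N N2 : ℕ, 2 ≤ z → 1 ≤ d → l.Coprime d → N ≤ N2 →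
    ∑ n ∈ (Ioc N N2).filter (fun n => n ≡ l [MOD d]), rr z n ≤
      C * (((N2 : ℝ) - N) / ((d.totient : ℝ) * Real.log z)) + (z : ℝ) ^ 16

end Pool.Agent.Lib.BV
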