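import Pool.Agent.Lib.BV.SpecC
import Pool.Agent.Lib.BV.SpecF
import Pool.Agent.Lib.EH.Basic

/-!
MP_00e23e_nt, directory Lib/BV (architect helper3), part D: assembly of the theorem
sum over d ≤ D of max over l, y ≤ x of |E(y;d,l)| ≤ C (x L^-A + √x D log K loglog K),
K = 16 + √x/(D log x), for D log x ≤ √x. Rules: see SpecA.lean (first line of the modules of this
part: `import Pool.Agent.Lib.BV.SpecD`).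
-/

namespace Pool.Agent.Lib.BV

open Finset Pool.Agent.Lib.EH3 Pool.Agent.Results.MP_00e23e_nt

/-- the number of primes up to x -/
noncomputable def npr (x : ℝ) : ℝ := (((Icc 1 ⌊x⌋₊).filter Nat.Prime).card : ℝ)

/-- Siegel-Walfisz for primes (proved in part W) -/
def SwStmt : Prop :=
  ∀ A B : ℝ, 0 < A → 0 < B → ∃ C : ℝ, 0 < C ∧ ∀ (x : ℝ) (q : ℕ) (χ : DirichletCharacter ℂ q),
    3 ≤ x → 2 ≤ q → (q : ℝ) ≤ (Real.log x) ^ B → χ.IsPrimitive →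
    ‖∑ p ∈ (Icc 1 ⌊x⌋₊).filter Nat.Prime, χ (p : ZMod q)‖ ≤ C * (x / (Real.log x) ^ A)

/-- the prime number theorem with error x (log x)^-A (proved in part W) -/
def PntStmt : Prop :=
  ∀ A : ℝ, 0 < A → ∃ C : ℝ, 0 < C ∧ ∀ x : ℝ, 3 ≤ x → |npr x - li x| ≤ C * (x / (Real.log x) ^ A)

/-- low conductors of the bilinear part (proved in part L) -/
def LowStmt : Prop :=
  ∀ A B : ℝ, 0 < A → 0 < B → ∃ C x0 : ℝ, 0 < C ∧ ∀ (x η : ℝ) (z K J Q d l : ℕ) (y : ℝ), x0 ≤ x →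
    0 < η → η ≤ 1 / 2 → Real.sqrt (Real.log x) ≤ Real.log z → (K : ℝ) ≤ Real.log x → 1 ≤ d →
    (d : ℝ) ≤ x → (Q : ℝ) ≤ (Real.log x) ^ B → y ≤ x →
    ‖del (fun c => 1 < c ∧ c ≤ Q) (fun n => (FY η z K J y n : ℂ)) (4 * ⌊x⌋₊) d l‖ ≤
      (1 / (d.totient : ℝ)) * (C * (x / (Real.log x) ^ A))

/-- the error function of the decomposition -/
noncomputable def GY (η : ℝ) (z K J : ℕ) (y : ℝ) (n : ℕ) : ℝ := PY y n - RY z y n + FY η z K J y n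

/-! ### Parameters -/

noncomputable def zz (x K0 : ℝ) : ℕ := ⌊Real.exp (Real.log x / (200 * Real.log K0))⌋₊
noncomputable def b0 (K0 : ℝ) : ℕ := ⌈2 * Real.log K0⌉₊
noncomputable def KK (x K0 : ℝ) : ℕ := ⌈Real.log (Real.sqrt x / (zz x K0 : ℝ)) / Real.log 2⌉₊
noncomputable def JJ (x : ℝ) : ℕ := ⌈2 * Real.log x⌉₊

/-- the bound of the dyadic theorem -/
noncomputable def MB (A x K0 : ℝ) : ℝ :=
  x / (Real.log x) ^ A + x / (K0 * Real.log x) * (Real.log K0 * Real.log (Real.log K0))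

/-- Module Asy (theorem tAsy). Uses: nothing.
Proof. log x/(loglog x)^2, √(log x) etc. tend to infinity faster than powers of loglog x; with L = log x, u = log L:
isLittleO_log_rpow_atTop, isLittleO of u^A against e^u. (1) κ = log K0 ≤ A loglog x, so it suffices that
400 A loglog x ≤ √L for large x. (2) L^B ≤ exp(√L) for large x; (3) L^B ≤ x^(1/8). -/
def AsyStmt : Prop :=
  ∀ A B : ℝ, 0 < A → 0 < B → ∃ x0 : ℝ, 16 ≤ x0 ∧ ∀ x : ℝ, x0 ≤ x →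
    (∀ K0 : ℝ, 16 ≤ K0 → K0 ≤ (Real.log x) ^ A → 400 * Real.log K0 ≤ Real.sqrt (Real.log x)) ∧
    (Real.log x) ^ B ≤ Real.exp (Real.sqrt (Real.log x)) ∧
    (Real.log x) ^ B ≤ x ^ ((1 : ℝ) / 8) ∧ 100 ≤ Real.log x

/-- Module Pmt (theorem tPmt; the parameters). Uses: Asy.
Proof. κ = log K0 ≥ log 16 ≥ 2.7 > 1, L = log x, by Asy (B = 1) 400 κ ≤ √L, L ≥ 100. z = zz: exp(L/(200κ)) ≥ exp(2√L) so
z ≥ 2, z ≥ exp(L/(200κ))/2, log z ≥ L/(200κ) - log 2 ≥ L/(400κ) ≥ √L. z^(16 b) ≤ exp(16 (2κ+1) L/(200κ)) ≤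
exp(48 L/200) ≤ x^(1/4) (b ≤ 2κ + 1 ≤ 3κ). b ≥ 2κ: exp(-b) ≤ K0^(-2). K = KK: z 2^K ≥ √x by the definition of the ceiling,
and z 2^K ≤ max(z, 2√x) = 2√x ≤ x; K ≤ log(√x)/log 2 + 1 ≤ L. J: 2^J ≥ 2^(2L) ≥ x (2 log 2 ≥ 1). -/
def PmtStmt : Prop :=
  ∀ A : ℝ, 0 < A → ∃ x0 : ℝ, 16 ≤ x0 ∧ ∀ x K0 : ℝ, x0 ≤ x → 16 ≤ K0 → K0 ≤ (Real.log x) ^ A →
    2 ≤ zz x K0 ∧ 1 ≤ b0 K0 ∧ Real.log x / (400 * Real.log K0) ≤ Real.log (zz x K0) ∧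
    Real.sqrt (Real.log x) ≤ Real.log (zz x K0) ∧ (zz x K0 : ℝ) ^ (16 * b0 K0) ≤ x ^ ((1 : ℝ) / 4) ∧
    Real.exp (-(b0 K0 : ℝ)) ≤ 1 / K0 ^ 2 ∧ x ≤ ((zz x K0 : ℝ) * 2 ^ (KK x K0)) ^ 2 ∧
    (zz x K0 : ℝ) * 2 ^ (KK x K0) ≤ x ∧ (KK x K0 : ℝ) ≤ Real.log x ∧ x ≤ (2 : ℝ) ^ (JJ x)

/-! ### Pieces -/

/-- Module Ty2 (theorem tTy2; as Tys, sharper). Uses: Tyj, Gri.
Proof. As tTys (Lib/BV/Tys.lean), but keep 1/log P = 1/log(z 2^k) instead of estimating it by 1/log z. -/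
def Ty2Stmt : Prop :=
  ∃ C : ℝ, 0 < C ∧ ∀ (x η : ℝ) (z K J Q D : ℕ) (y : ℕ → ℝ) (l : ℕ → ℕ), 4 ≤ x → 0 < η → η ≤ 1 / 2 →
    2 ≤ z → 1 ≤ Q → 1 ≤ D → (∀ d, y d ≤ x) →
    ∑ d ∈ Icc 1 D, ‖del (fun c => Q < c) (fun n => (FY η z K J (y d) n : ℂ)) (4 * ⌊x⌋₊) d (l d)‖ ≤
      C * (1 + Real.log (1 / η)) *
        (Real.sqrt x * ∑ k ∈ range K, 1 / Real.log ((z : ℝ) * 2 ^ k)) *
        ((1 + Real.log D) ^ 2 * (Real.sqrt x / Q + Real.sqrt (x / z) * (1 + Real.log D)) + D)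

/-- Module Ksm (theorem tKsm). Uses: nothing.
Proof. a = log z, h = log 2: for k ≥ 1: 1/(a + k h) ≤ (1/h) log((a + k h)/(a + (k-1) h)) (log(1 - t) ≤ -t with
t = h/(a + k h)); telescoping over 1 ≤ k < K; the term k = 0 is 1/log z ≤ 1/log 2 ≤ 2. 1/log 2 ≤ 2. -/
def KsmStmt : Prop :=
  ∀ z K : ℕ, 2 ≤ z → ∑ k ∈ range K, 1 / Real.log ((z : ℝ) * 2 ^ k) ≤
    2 + 2 * Real.log (Real.log ((z : ℝ) * 2 ^ K) / Real.log z)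

/-- Module Ryy (theorem tRyy). Uses: Fl, Mea.
Proof. Mea with f = RY z y (as complex), N: for every reduced l', cls f N d l' = the sum of rr z n over n ∈ Ioc 0 ⌊y⌋,
n ≡ l' mod d (⌊y⌋ ≤ N), so Fl with N = 0, N2 = ⌊y⌋ ≤ y bounds the differences. -/
def RyyStmt : Prop :=
  ∃ C : ℝ, 0 < C ∧ ∀ (y : ℝ) (z b d l N : ℕ), 0 ≤ y → ⌊y⌋₊ ≤ N → 2 ≤ z → 1 ≤ b → 1 ≤ d → l.Coprime d →
    ‖cls (fun n => (RY z y n : ℂ)) N d l -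
      (1 / (d.totient : ℂ)) * ∑ n ∈ (Icc 1 N).filter (fun n => n.Coprime d), (RY z y n : ℂ)‖ ≤
      C * (y / (d.totient : ℝ) * (Real.exp (-(b : ℝ)) / Real.log z)) + (z : ℝ) ^ (16 * b)

/-- Module Gys (theorem tGys). Uses: Gyy, Sqr, Ub.
Proof. Sum Gyy over n ≡ l mod d, n ≤ N. n ≤ z: at most z/d + 1 numbers. Squares: Sqr with X = ⌊y⌋. Third part: the
n ∈ Ioc ⌊y⌋ ⌊y e^(2η)⌋: Ub with N2 - N ≤ y (e^(2η) - 1) + 1 ≤ 4 η y + 1 (e^t - 1 ≤ 2t for 0 ≤ t ≤ 1). -/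
def GysStmt : Prop :=
  ∃ C : ℝ, 0 < C ∧ ∀ (η y : ℝ) (z K J d l N : ℕ), 0 < η → η ≤ 1 / 2 → 2 ≤ z → 2 ≤ y →
    y ≤ (2 : ℝ) ^ J → y ≤ ((z : ℝ) * 2 ^ K) ^ 2 → 1 ≤ d → l.Coprime d →
    ∑ n ∈ (Icc 1 N).filter (fun n => n ≡ l [MOD d]), |GY η z K J y n| ≤
      ((z : ℝ) / d + 1) + (y / (z * d) + Real.sqrt y) +
      C * ((4 * η * y + 1) / ((d.totient : ℝ) * Real.log z)) + (z : ℝ) ^ 16

/-- Module Ptw (theorem tPtw; the pointwise inequality). Uses: Spl.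
Proof. N = 4⌊x⌋ ≥ ⌊y⌋. PY = RY - FY + GY pointwise, hence cls PY = cls RY - cls FY + cls GY and the same for the means
m(f) = (1/φ(d)) ∑_{n ≤ N, (n,d)=1} f n. primeCount y d l = cls PY N d l, and m(PY) = (npr y - #{p ∣ d, p ≤ y})/φ(d). So
err y d l = (cls RY - m RY) - (cls FY - m FY) + cls GY - m GY + (npr y - #{p ∣ d, p ≤ y} - li y)/φ(d); Spl for FY. -/
def PtwStmt : Prop :=
  ∀ (x η y : ℝ) (z K J Q d l : ℕ), 4 ≤ x → 2 ≤ y → y ≤ x → 1 ≤ d → l.Coprime d → 1 ≤ Q →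
    |err y d l| ≤
      ‖cls (fun n => (RY z y n : ℂ)) (4 * ⌊x⌋₊) d l -
        (1 / (d.totient : ℂ)) * ∑ n ∈ (Icc 1 (4 * ⌊x⌋₊)).filter (fun n => n.Coprime d), (RY z y n : ℂ)‖ +
      ∑ n ∈ (Icc 1 (4 * ⌊x⌋₊)).filter (fun n => n ≡ l [MOD d]), |GY η z K J y n| +
      (1 / (d.totient : ℝ)) * ∑ n ∈ Icc 1 (4 * ⌊x⌋₊), |GY η z K J y n| +
      ‖del (fun c => 1 < c ∧ c ≤ Q) (fun n => (FY η z K J y n : ℂ)) (4 * ⌊x⌋₊) d l‖ +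
      ‖del (fun c => Q < c) (fun n => (FY η z K J y n : ℂ)) (4 * ⌊x⌋₊) d l‖ +
      (1 / (d.totient : ℝ)) * (|npr y - li y| + (d.primeFactors.card : ℝ))

/-- Module Mtm (theorem tMtm; main term). Uses: Pnt.
Proof. y ≤ √x: |npr y - li y| ≤ 3 y ≤ 3 √x ≤ C x/(log x)^A (EH.li_le; npr y ≤ y). √x < y ≤ x, y ≥ 3 (x ≥ 16): Pnt:
C y/(log y)^A ≤ C x 2^A/(log x)^A. -/
def MtmStmt : Prop :=
  ∀ A : ℝ, 0 < A → ∃ C : ℝ, 0 < C ∧ ∀ x y : ℝ, 16 ≤ x → 2 ≤ y → y ≤ x →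
    |npr y - li y| ≤ C * (x / (Real.log x) ^ A)

/-- Module Btt (theorem tBtt; Brun-Titchmarsh). Uses: Ub.
Proof. z = ⌊x^(1/64)⌋ ≥ 2 for x large, log z ≥ (log x)/128, z^16 ≤ x^(1/4). primeCount y d l ≤ z + ∑ rr z n over
n ∈ Ioc 0 ⌊y⌋, n ≡ l (a prime > z is Rough z), ≤ z + C x/(φ(d) log z) + z^16, and z + z^16 ≤ 2 x^(1/4) ≤ √x/log x ≤
x/(φ(d) log x) for x large (φ(d) ≤ d ≤ √x). li y ≤ li x ≤ √x/log 2 + 2 x/log x ≤ 4 x/log x (split the integral at √x). -/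
def BttStmt : Prop :=
  ∃ C x0 : ℝ, 0 < C ∧ 16 ≤ x0 ∧ ∀ (x y : ℝ) (d l : ℕ), x0 ≤ x → 2 ≤ y → y ≤ x → 1 ≤ d →
    (d : ℝ) ≤ Real.sqrt x → l.Coprime d → |err y d l| ≤ C * (x / ((d.totient : ℝ) * Real.log x))

/-! ### The dyadic theorem -/

/-- Module Dda (theorem tDda). Uses: Ryy, Tdy, Pmt.
Proof. z = zz x K0, b = b0 K0, N = 4⌊x⌋. Ryy and Tdy: the sum is ≤ 8 C x exp(-b)/log z + D z^(16b) ≤
8 C x K0^(-2) 400 κ/L + D x^(1/4) (y d ≤ x), κ = log K0 ≤ K0, D x^(1/4) ≤ x^(3/4)/(K0 L) ≤ x/(K0 L); and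
x/(K0 L) ≤ MB because log K0 loglog K0 ≥ 1 for K0 ≥ 16. -/
def DdaStmt : Prop :=
  ∀ A : ℝ, 0 < A → ∃ C x0 : ℝ, 0 < C ∧ 16 ≤ x0 ∧ ∀ (x K0 : ℝ) (D : ℕ) (y : ℕ → ℝ) (l : ℕ → ℕ), x0 ≤ x →
    16 ≤ K0 → K0 ≤ (Real.log x) ^ A → 1 ≤ D → (D : ℝ) * K0 * Real.log x ≤ Real.sqrt x →
    (∀ d, 2 ≤ y d ∧ y d ≤ x) → (∀ d, (l d).Coprime d) →
    ∑ d ∈ Ioc (D / 2) D, ‖cls (fun n => (RY (zz x K0) (y d) n : ℂ)) (4 * ⌊x⌋₊) d (l d) -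
        (1 / (d.totient : ℂ)) *
          ∑ n ∈ (Icc 1 (4 * ⌊x⌋₊)).filter (fun n => n.Coprime d), (RY (zz x K0) (y d) n : ℂ)‖ ≤
      C * MB A x K0

/-- Module Ddb (theorem tDdb). Uses: Gys, Tdy, Pmt, Asy.
Proof. η = 1/K0. Gys for (d, l d), and for (1, 0) (the sum over all n ≤ N is the class sum mod 1). With ∑ 1/d ≤ ∑ 1/φ(d) ≤ 8 over
the block and at most D terms: the total is ≤ 8 z + D + 8 x/z + D √x + 8 C (4x/K0 + 1)/log z + D z^16 +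
8 (z + 1 + x/z + √x + C (4x/K0 + 1)/log z + z^16). z^16 ≤ x^(1/4), x/z ≤ x exp(-√L) ≤ x/L^A (Asy), √x ≤ x/L^A,
D √x ≤ x/(K0 L), (x/K0)/log z ≤ 400 κ x/(K0 L) ≤ 400 MB. -/
def DdbStmt : Prop :=
  ∀ A : ℝ, 0 < A → ∃ C x0 : ℝ, 0 < C ∧ 16 ≤ x0 ∧ ∀ (x K0 : ℝ) (D : ℕ) (y : ℕ → ℝ) (l : ℕ → ℕ), x0 ≤ x →
    16 ≤ K0 → K0 ≤ (Real.log x) ^ A → 1 ≤ D → (D : ℝ) * K0 * Real.log x ≤ Real.sqrt x →
    (∀ d, 2 ≤ y d ∧ y d ≤ x) → (∀ d, (l d).Coprime d) →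
    ∑ d ∈ Ioc (D / 2) D,
      (∑ n ∈ (Icc 1 (4 * ⌊x⌋₊)).filter (fun n => n ≡ l d [MOD d]),
          |GY (1 / K0) (zz x K0) (KK x K0) (JJ x) (y d) n| +
        (1 / (d.totient : ℝ)) * ∑ n ∈ Icc 1 (4 * ⌊x⌋₊),
          |GY (1 / K0) (zz x K0) (KK x K0) (JJ x) (y d) n|) ≤ C * MB A x K0

/-- Module Ddc (theorem tDdc; low conductors and main term). Uses: Low, Mtm, Tdy, Pmt, Asy.
Proof. Low with B = A + 4, Q = ⌊L^(A+4)⌋, η = 1/K0 (Pmt: √L ≤ log z, K ≤ L; d ≤ D ≤ √x ≤ x) and Mtm with A: the sum is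
≤ ∑ (1/φ(d)) (C x/L^A + C' x/L^A + 2 L) ≤ 8 (...) (EH.card_primeFactors_le: number of prime factors ≤ 2 log d ≤ 2 L;
2 L ≤ x/L^A for large x). -/
def DdcStmt : Prop :=
  ∀ A : ℝ, 0 < A → ∃ C x0 : ℝ, 0 < C ∧ 16 ≤ x0 ∧ ∀ (x K0 : ℝ) (D : ℕ) (y : ℕ → ℝ) (l : ℕ → ℕ), x0 ≤ x →
    16 ≤ K0 → K0 ≤ (Real.log x) ^ A → 1 ≤ D → (D : ℝ) * K0 * Real.log x ≤ Real.sqrt x →
    (∀ d, 2 ≤ y d ∧ y d ≤ x) → (∀ d, (l d).Coprime d) →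
    ∑ d ∈ Ioc (D / 2) D,
      (‖del (fun c => 1 < c ∧ c ≤ ⌊(Real.log x) ^ (A + 4)⌋₊)
          (fun n => (FY (1 / K0) (zz x K0) (KK x K0) (JJ x) (y d) n : ℂ)) (4 * ⌊x⌋₊) d (l d)‖ +
        (1 / (d.totient : ℝ)) * (|npr (y d) - li (y d)| + (d.primeFactors.card : ℝ))) ≤ C * MB A x K0

/-- Module Ddd (theorem tDdd; large conductors). Uses: Ty2, Ksm, Pmt, Asy.
Proof. Ty2 with η = 1/K0, Q = ⌊L^(A+4)⌋ ≥ L^(A+4)/2, D (the sum over Ioc (D/2) D is at most the sum over Icc 1 D). Ksm: the sum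
over k is ≤ 2 + 2 log(log(z 2^K)/log z) ≤ 2 + 2 log(400 κ) (log(z 2^K) ≤ L, log z ≥ L/(400 κ)) ≤ C (1 + log κ) ≤ C' loglog K0,
1 + log K0 ≤ 2 log K0. The bracket: (1 + L)^2 (2 √x/L^(A+4) + √(x/z) (1 + L)) + D; √(1/z) ≤ exp(-√L/2)·... ≤ L^(-(A+8)) for
large x (z ≥ exp √L, Asy with B = 2A + 16). So the total is ≤ C κ loglog K0 (x L^2 L^(-A-4)·8 + √x D), κ loglog K0 ≤ L, and
√x D ≤ x/(K0 L). -/
def DddStmt : Prop :=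
  ∀ A : ℝ, 0 < A → ∃ C x0 : ℝ, 0 < C ∧ 16 ≤ x0 ∧ ∀ (x K0 : ℝ) (D : ℕ) (y : ℕ → ℝ) (l : ℕ → ℕ), x0 ≤ x →
    16 ≤ K0 → K0 ≤ (Real.log x) ^ A → 1 ≤ D → (D : ℝ) * K0 * Real.log x ≤ Real.sqrt x →
    (∀ d, 2 ≤ y d ∧ y d ≤ x) → (∀ d, (l d).Coprime d) →
    ∑ d ∈ Ioc (D / 2) D,
      ‖del (fun c => ⌊(Real.log x) ^ (A + 4)⌋₊ < c)
          (fun n => (FY (1 / K0) (zz x K0) (KK x K0) (JJ x) (y d) n : ℂ)) (4 * ⌊x⌋₊) d (l d)‖ ≤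
      C * MB A x K0

/-- Module Dya (theorem tDya; the dyadic theorem). Uses: Ptw, Dda, Ddb, Ddc, Ddd.
Proof. Ptw with η = 1/K0, z = zz x K0, K = KK x K0, J = JJ x, Q = ⌊L^(A+4)⌋ ≥ 1, summed over d ∈ Ioc (D/2) D. -/
def DyaStmt : Prop :=
  ∀ A : ℝ, 0 < A → ∃ C x0 : ℝ, 0 < C ∧ 16 ≤ x0 ∧ ∀ (x K0 : ℝ) (D : ℕ) (y : ℕ → ℝ) (l : ℕ → ℕ), x0 ≤ x →
    16 ≤ K0 → K0 ≤ (Real.log x) ^ A → 1 ≤ D → (D : ℝ) * K0 * Real.log x ≤ Real.sqrt x →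
    (∀ d, 2 ≤ y d ∧ y d ≤ x) → (∀ d, (l d).Coprime d) →
    ∑ d ∈ Ioc (D / 2) D, |err (y d) d (l d)| ≤ C * MB A x K0

/-! ### Sum over the dyadic blocks -/

/-- the quantity K of the final theorem -/
noncomputable def Kf (x : ℝ) (D : ℕ) : ℝ := 16 + Real.sqrt x / ((D : ℝ) * Real.log x)

/-- Module Dyb (theorem tDyb; one dyadic block, uniform form). Uses: Dya, Btt, Tdy.
Proof. L = log x, A' = A + 2 in Dya, K1 = √x/(D L) ≥ 1. Case K1 < 16: Btt and Tdy: the sum is ≤ 8 C x/L, and √x D = x/(K1 L)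
≥ x/(16 L), Kf ≥ 16 so log Kf loglog Kf ≥ 1. Case K1 ≥ 16: K0 = min(K1, L^A') (≥ 16 for x large). Dya: the sum is ≤
C (x/L^A' + x/(K0 L) ω(K0)), ω(K) = log K loglog K. If K0 = K1: x/(K1 L) = √x D and ω(K1) ≤ ω(Kf). If K0 = L^A' the
second term is ≤ x L^(-1-A') A' loglog x log(A' loglog x) ≤ x/L^A' for x large. -/
def DybStmt : Prop :=
  ∀ A : ℝ, 0 < A → ∃ C x0 : ℝ, 0 < C ∧ 16 ≤ x0 ∧ ∀ (x : ℝ) (D : ℕ) (y : ℕ → ℝ) (l : ℕ → ℕ), x0 ≤ x →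
    1 ≤ D → (D : ℝ) * Real.log x ≤ Real.sqrt x → (∀ d, 2 ≤ y d ∧ y d ≤ x) → (∀ d, (l d).Coprime d) →
    ∑ d ∈ Ioc (D / 2) D, |err (y d) d (l d)| ≤
      C * (x / (Real.log x) ^ (A + 2) +
        Real.sqrt x * D * (Real.log (Kf x D) * Real.log (Real.log (Kf x D))))

/-- Module Dyc (theorem tDyc; all d ≤ D, x large). Uses: Dyb.
Proof. Icc 1 D is the disjoint union of the blocks Ioc (D_i/2) D_i, D_i = D/2^i (natural division), i with D_i ≥ 1 (at most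
L of them since 2^i ≤ D ≤ √x); strong induction on D is another way to organize this. For D_i ≥ 1: D_i ≤ D/2^i and D_i > D/2^(i+1)
so Kf x D_i ≤ 2^(i+1) Kf x D, and ω(2^(i+1) K) ≤ (i+2)^2 ω(K) for K ≥ 16, ω(K) = log K loglog K (log(2^(i+1) K) ≤ (i+2) log K,
log((i+2) log K) ≤ (i+2) loglog K because loglog K ≥ 1). ∑ (i+2)^2/2^i ≤ 30. The first terms: L x/L^(A+2) ≤ x/L^A. -/
def DycStmt : Prop :=
  ∀ A : ℝ, 0 < A → ∃ C x0 : ℝ, 0 < C ∧ 16 ≤ x0 ∧ ∀ (x : ℝ) (D : ℕ) (y : ℕ → ℝ) (l : ℕ → ℕ), x0 ≤ x →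
    1 ≤ D → (D : ℝ) * Real.log x ≤ Real.sqrt x → (∀ d, 2 ≤ y d ∧ y d ≤ x) → (∀ d, (l d).Coprime d) →
    ∑ d ∈ Icc 1 D, |err (y d) d (l d)| ≤
      C * (x / (Real.log x) ^ A + Real.sqrt x * D * (Real.log (Kf x D) * Real.log (Real.log (Kf x D))))

/-- Module Fin (theorem tFin; the final theorem). Uses: Dyc.
Proof. For every d ≥ 1 take l d in [1,d], coprime to d, with maxErr (y d) d = |err (y d) d (l d)| (EH.exists_maxErr), and Dyc for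
x ≥ x0. For 16 ≤ x < x0: maxErr (y d) d ≤ 2 y d ≤ 2 x0 (EH.maxErr_le), D ≤ √x0, so the left side is ≤ 2 x0^2 and x/(log x)^A ≥
16/(log x0)^A > 0; the second term is ≥ 0. (l must be defined for d = 0 too: l 0 = 1.) -/
def FinStmt : Prop :=
  ∀ A : ℝ, 0 < A → ∃ C : ℝ, ∀ (x : ℝ) (D : ℕ) (y : ℕ → ℝ), 16 ≤ x → 1 ≤ D →
    (D : ℝ) * Real.log x ≤ Real.sqrt x → (∀ d, 2 ≤ y d ∧ y d ≤ x) →
    ∑ d ∈ Icc 1 D, maxErr (y d) d ≤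
      C * (x / (Real.log x) ^ A + Real.sqrt x * D * (Real.log (Kf x D) * Real.log (Real.log (Kf x D))))

end Pool.Agent.Lib.BV
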