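import Pool.Agent.Lib.BV.SpecD

/-!
MP_00e23e_nt, directory Lib/BV (architect helper3), part E: the final theorem for all D ≥ 1.
Rules: see SpecA.lean (first line of the modules of this part: `import Pool.Agent.Lib.BV.SpecE`).
-/

namespace Pool.Agent.Lib.BV

open Finset Pool.Agent.Lib.EH3 Pool.Agent.Results.MP_00e23e_nt

/-- Module Tdl (theorem tTdl). Uses: Tot.
Proof. As in Lib/BV/Tdy.lean: ∑_{d ≤ D} d/φ(d) ≤ 4 D. For d > a: 1/φ(d) ≤ (1/a) d/φ(d). -/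
def TdlStmt : Prop :=
  ∀ a D : ℕ, 1 ≤ a → ∑ d ∈ Ioc a D, 1 / (d.totient : ℝ) ≤ 4 * ((D : ℝ) / a)

/-- Module Exa (theorem tExa; √x/log x < d ≤ √x). Uses: Btt, Tdl.
Proof. For each d pick l with maxErr (y d) d = |err (y d) d l| (EH.exists_maxErr) and apply Btt: the sum is ≤
C (x/log x) ∑_{a < d ≤ D} 1/φ(d) ≤ C (x/log x) 4 D/a ≤ 8 C √x D because a ≥ √x/(2 log x). -/
def ExaStmt : Prop :=
  ∃ C x0 : ℝ, 0 < C ∧ 16 ≤ x0 ∧ ∀ (x : ℝ) (a D : ℕ) (y : ℕ → ℝ), x0 ≤ x → 1 ≤ a →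
    Real.sqrt x ≤ 2 * ((a : ℝ) * Real.log x) → (D : ℝ) ≤ Real.sqrt x → (∀ d, 2 ≤ y d ∧ y d ≤ x) →
    ∑ d ∈ Ioc a D, maxErr (y d) d ≤ C * (Real.sqrt x * D)

/-- Module Exb (theorem tExb; d > √x). Uses: Tdl.
Proof. For d > a, 1 ≤ l ≤ d: primeCount y d l ≤ y/d + 1 ≤ x/a + 1 ≤ 2 √x + 1 (a ≥ √x/2; numbers ≤ y in one class mod d, the
smallest is l ≥ 1: at most y/d + 1), li y ≤ 2 x (EH.li_le). So the sum is ≤ D (2 √x + 1) + 2 x ∑_{a < d ≤ D} 1/φ(d) ≤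
3 √x D + 8 x D/a ≤ 19 √x D. (maxErr via EH.exists_maxErr.) -/
def ExbStmt : Prop :=
  ∀ (x : ℝ) (a D : ℕ) (y : ℕ → ℝ), 16 ≤ x → 1 ≤ a → Real.sqrt x ≤ 2 * (a : ℝ) →
    (∀ d, 2 ≤ y d ∧ y d ≤ x) → ∑ d ∈ Ioc a D, maxErr (y d) d ≤ 20 * (Real.sqrt x * D)

/-- Module Ext (theorem tExt; the final theorem). Uses: Fin, Exa, Exb.
Proof. ω(K) = log K loglog K ≥ 1 for K ≥ 16, monotone; Kf ≥ 16. x0 from Exa. x < x0: maxErr ≤ 2 x0 (EH.maxErr_le), so the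
left side is ≤ 2 x0 D ≤ x0 √x D (√x ≥ 4). x ≥ x0 (also take x0 so large that √x ≥ 2 log x): D0 = ⌊√x/log x⌋ ≥ 1, D1 = ⌊√x⌋.
D ≤ D0: Fin. D > D0: ∑_{d ≤ D0} ≤ C (x/L^A + √x D0 ω(Kf x D0)) with Kf x D0 ≤ 18 (D0 ≥ √x/(2L)), ω(Kf x D0) ≤ ω(18) ≤ 4 ≤
4 ω(Kf x D); ∑_{D0 < d ≤ min(D, D1)} ≤ C √x D (Exa, D0 ≥ √x/(2L)); ∑_{D1 < d ≤ D} ≤ 20 √x D (Exb, D1 ≥ √x/2), empty if D ≤ D1. -/
def ExtStmt : Prop :=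
  ∀ A : ℝ, 0 < A → ∃ C : ℝ, ∀ (x : ℝ) (D : ℕ) (y : ℕ → ℝ), 16 ≤ x → 1 ≤ D → (∀ d, 2 ≤ y d ∧ y d ≤ x) →
    ∑ d ∈ Icc 1 D, maxErr (y d) d ≤
      C * (x / (Real.log x) ^ A + Real.sqrt x * D * (Real.log (Kf x D) * Real.log (Real.log (Kf x D))))

end Pool.Agent.Lib.BV
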