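import Mathlib

/-!
MP_00e23e_nt, directory Lib/BV (architect helper3), part H: Siegel-Walfisz and the prime number
theorem with error x (log x)^-A, by bounds for Dirichlet series in the half plane Re s > 1 only.
Rules: see SpecA.lean. First line of the modules of this part: `import Pool.Agent.Lib.BV.SpecH`,
namespace Pool.Agent.Lib.BV, `open Finset`.
-/

namespace Pool.Agent.Lib.BV

open Finset

/-- bounded by 1 with partial sums bounded by Q -/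
def BPS (f : ℕ → ℂ) (Q : ℝ) : Prop := (∀ n, ‖f n‖ ≤ 1) ∧ ∀ N : ℕ, ‖∑ n ∈ Icc 1 N, f n‖ ≤ Q

/-- Dirichlet series with weights (log n)^j -/
noncomputable def DS (f : ℕ → ℂ) (j : ℕ) (s : ℂ) : ℂ :=
  LSeries (fun n => f n * ((Real.log n : ℝ) : ℂ) ^ j) s

/-- Dirichlet series with coefficients Λ(n) f(n) (log n)^j -/
noncomputable def LS (f : ℕ → ℂ) (j : ℕ) (s : ℂ) : ℂ :=
  LSeries (fun n => ((ArithmeticFunction.vonMangoldt n : ℝ) : ℂ) * f n * ((Real.log n : ℝ) : ℂ) ^ j) s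

/-- log(q(|t| + 2)) -/
noncomputable def ell (q t : ℝ) : ℝ := Real.log (q * (|t| + 2))

/-- the function n ↦ χ(n) -/
noncomputable def chf {q : ℕ} (χ : DirichletCharacter ℂ q) (n : ℕ) : ℂ := χ (n : ZMod q)

/-- the function (log u)^j u^(-s) -/
noncomputable def gg (j : ℕ) (s : ℂ) (u : ℝ) : ℂ := ((Real.log u : ℝ) : ℂ) ^ j * (u : ℂ) ^ (-s)

/-! ### Upper bounds -/

/-- Module Tai (theorem tTai). Uses: nothing.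
Proof. (log(n+1))^j ≤ C_j (log(N+1))^j (n/N)^(1/2) for n ≥ N ≥ 1 (for j ≥ 1: log(n+1)/log(N+1) ≤ 1 + log(2n/N)/log 2,
and (1 + 2 log(2 v))^j ≤ C_j v^(1/2) for v ≥ 1), and ∑_{n ≥ N} n^(-3/2) ≤ 4 N^(-1/2) (N ≥ 1, comparison with the
integral or telescoping n^(-3/2) ≤ 4 (n^(-1/2) - (n+1)^(-1/2))). -/
def TaiStmt : Prop :=
  ∀ j : ℕ, ∃ C : ℝ, 0 < C ∧ ∀ N M : ℕ, 1 ≤ N →
    ∑ n ∈ Icc N M, (Real.log ((n : ℝ) + 1)) ^ j / (n : ℝ) ^ 2 ≤ C * ((Real.log ((N : ℝ) + 1)) ^ j / N)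

/-- Module Gdi (theorem tGdi). Uses: nothing.
Proof. gg j s has derivative (j (log v)^(j-1) - s (log v)^j) v^(-s-1) at v > 0; for n ≤ v ≤ n+1 its norm is
≤ (j (log(n+1))^(j-1) + |s| (log(n+1))^j) v^(-σ-1) ≤ C_j (|t| + 2) (log(n+1))^j n^(-2) (log(n+1) ≥ log 2, |s| ≤ |t| + 2,
v^(-σ-1) ≤ n^(-2)). Mean value inequality (Convex.norm_image_sub_le_of_norm_deriv_le or norm_image_sub_le
on segments [n, u]). -/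
def GdiStmt : Prop :=
  ∀ j : ℕ, ∃ C : ℝ, 0 < C ∧ ∀ (n : ℕ) (u : ℝ) (s : ℂ), 1 ≤ n → (n : ℝ) ≤ u → u ≤ (n : ℝ) + 1 →
    1 ≤ s.re → s.re ≤ 2 →
    ‖gg j s u - gg j s n‖ ≤ C * ((|s.im| + 2) * (Real.log ((n : ℝ) + 1)) ^ j / (n : ℝ) ^ 2)

/-- Module Ser (theorem tSer). Uses: Tai, Gdi.
Proof. X = Q (|t| + 2) ≥ 4, N = ⌈X⌉. The series converges absolutely (1 < σ). Head: ∑_{n ≤ N} (log n)^j n^(-σ) ≤
(log N)^j (1 + log N), log N ≤ log(2X) ≤ 2 ell. Tail: for M > N summation by parts with F(n) = ∑_{m ≤ n} f m: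
∑_{N < n ≤ M} f n g(n) = F(M) g(M) - F(N) g(N+1) - ∑_{n=N+1}^{M-1} F(n) (g(n+1) - g(n)), g = gg j s, norm
≤ Q (2 sup |g| + ∑_{n > N} |g(n+1) - g(n)|) ≤ C Q (|t| + 2) (log(N+2))^j/N ≤ C' ell^j (Gdi, Tai; |g(n)| ≤ (log n)^j/n, and
(log n)^j/n ≤ C (log(N+1))^j/N for n > N). Let M tend to infinity. ell ≥ log 4 ≥ 1. -/
def SerStmt : Prop :=
  ∀ j : ℕ, ∃ C : ℝ, 0 < C ∧ ∀ (f : ℕ → ℂ) (Q : ℝ) (s : ℂ), 2 ≤ Q → BPS f Q → 1 < s.re → s.re ≤ 2 →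
    ‖DS f j s‖ ≤ C * (ell Q s.im) ^ (j + 1)

/-- Module Gin (theorem tGin). Uses: nothing.
Proof. Substitute u = e^v: ∫_0^∞ v^j e^(-(s-1) v) dv = j!/(s-1)^(j+1) (Complex.integral_cpow_mul_exp_neg_mul_Ioi,
Complex.Gamma_nat_eq_factorial); integrability from the real case (integrable of v^j e^(-c v) on (0,∞)). Change of
variables: MeasureTheory.integral_comp_mul_deriv_Ioi or integral_image_eq_integral_abs_deriv_smul with Real.exp. -/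
def GinStmt : Prop :=
  ∀ (j : ℕ) (s : ℂ), 1 < s.re → MeasureTheory.IntegrableOn (gg j s) (Set.Ioi 1) ∧
    ∫ u in Set.Ioi (1 : ℝ), gg j s u = (j.factorial : ℂ) / (s - 1) ^ (j + 1)

/-- Module Zse (theorem tZse). Uses: Tai, Gdi, Gin.
Proof. N = ⌈2 (|t| + 2)⌉. DS 1 j s = ∑_{n ≤ N} g(n) + ∑_{n > N} (g(n) - ∫_n^{n+1} g) + ∫_{N+1}^∞ g, where
∫_{N+1}^∞ g = j!/(s-1)^(j+1) - ∫_1^{N+1} g (Gin). |g(n) - ∫_n^{n+1} g| ≤ C (|t| + 2) (log(n+1))^j/n^2 (Gdi), summed over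
n > N: ≤ C' (log(N+2))^j (Tai). Head ≤ (log N)^j (1 + log N), |∫_1^{N+1} g| ≤ (log(N+1))^(j+1). log(N+2) ≤ 3 ell 2 t. -/
def ZseStmt : Prop :=
  ∀ j : ℕ, ∃ C : ℝ, 0 < C ∧ ∀ s : ℂ, 1 < s.re → s.re ≤ 2 →
    ‖DS (fun _ => 1) j s - (j.factorial : ℂ) / (s - 1) ^ (j + 1)‖ ≤ C * (ell 2 s.im) ^ (j + 1)

/-- Module Chb (theorem tChb). Uses: nothing.
Proof. χ ≠ 1: the sum of χ over q consecutive integers is 0 (MulChar.sum_eq_zero_of_ne_one on ZMod q), so a partial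
sum has norm ≤ q (split N = a q + r, at most q - 1 remaining terms of norm ≤ 1). Second part: the same for χ_0 - φ(q)/q,
whose sum over a period is φ(q) - q φ(q)/q = 0, and |χ_0(n) - φ(q)/q| ≤ 1. -/
def ChbStmt : Prop :=
  (∀ (q : ℕ) (χ : DirichletCharacter ℂ q), 1 ≤ q → χ ≠ 1 → BPS (chf χ) q) ∧
  (∀ q : ℕ, 1 ≤ q → BPS (fun n => chf (1 : DirichletCharacter ℂ q) n - (q.totient : ℂ) / q) q)

/-- Module Trv (theorem tTrv). Uses: Ser, Zse, Chb.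
Proof. DS χ_0 0 s = DS (χ_0 - φ(q)/q) 0 s + (φ(q)/q) DS 1 0 s; Ser with Chb for the first (Q = q ≥ 2), Zse with j = 0 for
the second: ≤ 1/|s-1| + C ell 2 t, and ell 2 t ≤ ell q t. -/
def TrvStmt : Prop :=
  ∃ C : ℝ, 0 < C ∧ ∀ (q : ℕ) (s : ℂ), 2 ≤ q → 1 < s.re → s.re ≤ 2 →
    ‖DS (chf (1 : DirichletCharacter ℂ q)) 0 s‖ ≤ C * (1 / ‖s - 1‖ + ell q s.im)

/-! ### Lower bounds -/

/-- Module Glo (theorem tGlo). Uses: nothing.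
Proof. L(s) = DS χ 0 s = LSeries χ s. DirichletCharacter.norm_LSeries_product_ge_one (x = u, 0 < u ≤ 1):
|L(1+u, χ_0)|^3 |L(1+u+it, χ)|^4 |L(1+u+2it, χ^2)| ≥ 1 and |L(1+u, χ_0)| ≤ ζ(1+u) ≤ 1 + 1/u ≤ 2/u, so
|L(1+u+it)| ≥ c1 u^(3/4) W^(-1/4), c1 = 8^(-1/4). Put u = (c1/(2V))^4/W ≤ 1. If σ ≥ 1+u: |L(σ+it)| ≥ c1 u^(3/4) W^(-1/4). If
σ < 1+u: the derivative of L is - DS χ 1 (LSeries_deriv; log n as a complex number), so |L(σ+it)| ≥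
|L(1+u+it)| - u V ≥ c1 u^(3/4) W^(-1/4) - u V = (c1/2) u^(3/4) W^(-1/4) by the choice of u, and
(c1/2) u^(3/4) W^(-1/4) = c1^4/(16 V^3 W) = 1/(128 V^3 W). -/
def GloStmt : Prop :=
  ∀ (q : ℕ) (χ : DirichletCharacter ℂ q) (t V W : ℝ), 1 ≤ q → 1 ≤ V → 1 ≤ W →
    (∀ σ : ℝ, 1 < σ → σ ≤ 2 → ‖DS (chf χ) 1 (σ + t * Complex.I)‖ ≤ V) →
    (∀ σ : ℝ, 1 < σ → σ ≤ 2 → ‖DS (chf (χ ^ 2)) 0 (σ + 2 * t * Complex.I)‖ ≤ W) →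
    ∀ σ : ℝ, 1 < σ → σ ≤ 2 → 1 ≤ 128 * ‖DS (chf χ) 0 (σ + t * Complex.I)‖ * V ^ 3 * W

/-- Module Lo1 (theorem tLo1). Uses: Glo, Ser, Chb.
Proof. Glo with V = max 1 (C ell^2), W = max 1 (C ell q (2t)) ≤ C' ell q t (ell q (2t) ≤ 2 ell q t, ell ≥ 1). χ ≠ 1 because
χ^2 ≠ 1. -/
def Lo1Stmt : Prop :=
  ∃ c : ℝ, 0 < c ∧ ∀ (q : ℕ) (χ : DirichletCharacter ℂ q) (s : ℂ), 2 ≤ q → χ ^ 2 ≠ 1 → 1 < s.re → s.re ≤ 2 →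
    c ≤ ‖DS (chf χ) 0 s‖ * (ell q s.im) ^ 7

/-- Module Lo2 (theorem tLo2). Uses: Glo, Ser, Chb, Trv.
Proof. If χ^2 ≠ 1 as in Lo1 (1 + 1/|t| ≥ 1). If χ^2 = 1: W = C (1/|2t| + ell q (2t)) ≤ C' ell (1 + 1/|t|) by Trv
(|σ + 2it - 1| ≥ 2|t|). -/
def Lo2Stmt : Prop :=
  ∃ c : ℝ, 0 < c ∧ ∀ (q : ℕ) (χ : DirichletCharacter ℂ q) (s : ℂ), 2 ≤ q → χ ≠ 1 → s.im ≠ 0 → 1 < s.re →
    s.re ≤ 2 → c ≤ ‖DS (chf χ) 0 s‖ * (ell q s.im) ^ 7 * (1 + 1 / |s.im|)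

/-- Module Zlo (theorem tZlo). Uses: Glo, Zse.
Proof. Glo with q = 1, χ = 1 (chf = 1 everywhere): V = 1 + C ell^2 (|j!/(s-1)^(j+1)| ≤ 1 for |t| ≥ 1), W the same with ell. -/
def ZloStmt : Prop :=
  ∃ c : ℝ, 0 < c ∧ ∀ s : ℂ, 1 < s.re → s.re ≤ 2 → 1 ≤ |s.im| →
    c ≤ ‖DS (fun _ => 1) 0 s‖ * (ell 2 s.im) ^ 7

/-- Module Trl (theorem tTrl). Uses: nothing.
Proof. L(s,χ) times the L-series of χ μ is 1 (DirichletCharacter.LSeries.mul_mu_eq_one), the latter has norm ≤ ζ(σ) ≤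
1 + 1/(σ-1) ≤ 2/(σ-1) (1 < σ ≤ 2). -/
def TrlStmt : Prop :=
  ∀ (q : ℕ) (χ : DirichletCharacter ℂ q) (s : ℂ), 1 ≤ q → 1 < s.re → s.re ≤ 2 →
    (s.re - 1) / 2 ≤ ‖DS (chf χ) 0 s‖

/-! ### Logarithmic derivatives -/

/-- Module Idr (theorem tIdr). Uses: nothing.
Proof. For n ≥ 1: χ(n) (log n)^(j+1) = ∑_{a b = n} Λ(a) χ(a) χ(b) (log a + log b)^j (log n = ∑_{a | n} Λ(a),
ArithmeticFunction.vonMangoldt_sum; χ(a)χ(b) = χ(n); log a + log b = log n) = ∑_i C(j,i) ∑_{a b = n}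
[Λ(a) χ(a) (log a)^i] [χ(b) (log b)^(j-i)] (add_pow). So the coefficient function of the left is a linear combination of
convolutions (LSeries.convolution); all series converge absolutely for Re s > 1 (LSeries_convolution,
LSeriesSummable of log powers: compare with n^δ; LSeries_sum / LSeries_add / smul). -/
def IdrStmt : Prop :=
  ∀ (q : ℕ) (χ : DirichletCharacter ℂ q) (j : ℕ) (s : ℂ), 1 ≤ q → 1 < s.re →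
    DS (chf χ) (j + 1) s = ∑ i ∈ range (j + 1), (j.choose i : ℂ) * (LS (chf χ) i s * DS (chf χ) (j - i) s)

/-- Module Rec (theorem tRec). Uses: Idr.
Proof. Strong induction on j. D_m = DS m, D_0 ≠ 0 (DirichletCharacter.LSeries_ne_zero_of_one_lt_re). By Idr the term i = j
gives LS j * D_0 = D_(j+1) - ∑_{i<j} C(j,i) LS i * D_(j-i). Divide by |D_0|: |D_(j+1)|/|D_0| ≤ Cf(j+1) V^(j+1),
|LS i| ≤ a_i V^(i+1) and |D_(j-i)|/|D_0| ≤ Cf(j-i) V^(j-i), product of powers V^(j+1). a_j depends on Cf only. -/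
def RecStmt : Prop :=
  ∀ (Cf : ℕ → ℝ), (∀ m, 0 ≤ Cf m) → ∀ j : ℕ, ∃ a : ℝ, 0 < a ∧
    ∀ (q : ℕ) (χ : DirichletCharacter ℂ q) (s : ℂ) (V : ℝ), 1 ≤ q → 1 < s.re → 0 ≤ V →
      (∀ m : ℕ, 1 ≤ m → m ≤ j + 1 → ‖DS (chf χ) m s‖ ≤ Cf m * V ^ m * ‖DS (chf χ) 0 s‖) →
      ‖LS (chf χ) j s‖ ≤ a * V ^ (j + 1)

/-- Module Cpt (theorem tCpt; near s = 1). Uses: nothing.
Proof. g(s) = (s-1) ζ(s), g(1) = 1: entire (DirichletCharacter.LFunctionTrivChar₁ with n = 1, differentiable_LFunctionTrivChar₁,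
or removable singularity) and without zeros on Re s ≥ 1 (riemannZeta_ne_zero_of_one_le_re). w = dslope g 1 is entire
and w(s) = ζ(s) - 1/(s-1) for s ≠ 1. h = - g'/g - w is analytic on the open set U = {g ≠ 0}, which contains the compact
rectangle R = [1,2] x [-1,1], so iteratedDeriv j h is continuous on U and bounded on R. For Re s > 1: the L-series of
Λ - 1 is -ζ'/ζ - ζ = h(s) (LSeries_vonMangoldt_eq_deriv_riemannZeta_div), and the L-series of (Λ - 1) (log n)^j is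
(-1)^j times its j-th derivative (LSeries_iteratedDeriv, logMul iterated). -/
def CptStmt : Prop :=
  ∀ j : ℕ, ∃ C : ℝ, 0 < C ∧ ∀ s : ℂ, 1 < s.re → s.re ≤ 2 → |s.im| ≤ 1 →
    ‖LSeries (fun n => (((ArithmeticFunction.vonMangoldt n : ℝ) : ℂ) - 1) *
      ((Real.log n : ℝ) : ℂ) ^ j) s‖ ≤ C

/-- Module Zkk (theorem tZkk). Uses: Cpt, Rec, Zse, Zlo.
Proof. |t| ≤ 1: Cpt. |t| ≥ 1: Rec with q = 1, χ = 1 (chf = 1), V = ell^11: |DS m| ≤ m! + C_m ell^(m+1) ≤ C ell^(m+1) ≤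
(C/c) ell^(m+8) |DS 0| ≤ (C/c) V^m |DS 0| (Zlo; m + 8 ≤ 11 m, ell ≥ 1), so |LS 1 j| ≤ a ell^(11(j+1)), |DS 1 j| ≤ C ell^(j+1), and
ell^(11(j+1)) ≤ C' (|t| + 2)^(1/2). -/
def ZkkStmt : Prop :=
  ∀ j : ℕ, ∃ C : ℝ, 0 < C ∧ ∀ s : ℂ, 1 < s.re → s.re ≤ 2 →
    ‖LSeries (fun n => (((ArithmeticFunction.vonMangoldt n : ℝ) : ℂ) - 1) *
      ((Real.log n : ℝ) : ℂ) ^ j) s‖ ≤ C * (|s.im| + 2) ^ ((1 : ℝ) / 2)

/-! ### From series to sums -/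

/-- Module Ker (theorem tKer). Uses: nothing.
Proof. g(u) = u e^(-σ u) for u ≥ 0, 0 for u < 0 is continuous and integrable; its Fourier transform is
∫_0^∞ u e^(-(σ + 2 π i ξ) u) du = 1/(σ + 2 π i ξ)^2 (Complex.integral_cpow_mul_exp_neg_mul_Ioi), which is integrable
(norm 1/(σ^2 + 4 π^2 ξ^2)). Fourier inversion (MeasureTheory.Integrable.fourierInv_fourier_eq). -/
def KerStmt : Prop :=
  ∀ σ : ℝ, 0 < σ → ∀ u : ℝ,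
    ∫ ξ : ℝ, Complex.exp (2 * Real.pi * ξ * u * Complex.I) / ((σ : ℂ) + 2 * Real.pi * ξ * Complex.I) ^ 2 =
      if 0 ≤ u then ((u * Real.exp (-σ * u) : ℝ) : ℂ) else 0

/-- Module Per (theorem tPer; Perron). Uses: Ker.
Proof. σ = 1 + 1/log y for y ≥ e, σ = 2 for 1 ≤ y < e; y^σ ≤ e^2 y in both cases. ∑_{n ≤ y} c_n log(y/n) =
∑_n c_n (y/n)^σ ∫ e^(2 π i ξ log(y/n))/(σ + 2 π i ξ)^2 dξ (Ker with u = log(y/n); zero for n > y) =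
y^σ ∫ LSeries c (σ + 2 π i ξ) y^(2 π i ξ)/(σ + 2 π i ξ)^2 dξ (interchange: ∑ |c_n| n^(-σ) < ∞ and 1/|σ + 2 π i ξ|^2 integrable:
integral_tsum or hasSum_integral_of_summable_integral_norm). The norm is ≤ e^2 y K ∫ (2 π |ξ| + 2)^(1/2)/(1 + 4 π^2 ξ^2) dξ. -/
def PerStmt : Prop :=
  ∃ C : ℝ, 0 < C ∧ ∀ (c : ℕ → ℂ) (K : ℝ), 0 ≤ K → (∀ s : ℂ, 1 < s.re → LSeriesSummable c s) →
    (∀ s : ℂ, 1 < s.re → s.re ≤ 2 → ‖LSeries c s‖ ≤ K * (|s.im| + 2) ^ ((1 : ℝ) / 2)) →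
    ∀ y : ℝ, 1 ≤ y → ‖∑ n ∈ Icc 1 ⌊y⌋₊, c n * ((Real.log (y / n) : ℝ) : ℂ)‖ ≤ C * K * y

/-- Module Uns (theorem tUns). Uses: nothing.
Proof. W(y) = ∑_{n ≤ y} c_n log(y/n), δ = (1 + log u)^(-i) ∈ (0,1], T = ∑_{n ≤ u} c_n:
T log(1+δ) = W(u(1+δ)) - W(u) - ∑_{u < n ≤ u(1+δ)} c_n log(u(1+δ)/n). |W(u(1+δ))| + |W(u)| ≤ 3 K u. The last sum: at most
u δ + 1 terms, each ≤ (1 + log(2u))^(2i) log(1+δ). log(1+δ) ≥ δ/2. So |T| ≤ 6 K u (1 + log u)^i +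
(u δ + 1)(1 + log 2u)^(2i) ≤ 6 K u (1 + log u)^i + 4^i (u (1 + log u)^i + (1 + log u)^(2i)), and (1 + log u)^i ≤ C_i u. -/
def UnsStmt : Prop :=
  ∀ i : ℕ, ∃ C : ℝ, 0 < C ∧ ∀ (c : ℕ → ℂ) (K : ℝ), 0 ≤ K →
    (∀ n : ℕ, ‖c n‖ ≤ (1 + Real.log n) ^ (2 * i)) →
    (∀ y : ℝ, 1 ≤ y → ‖∑ n ∈ Icc 1 ⌊y⌋₊, c n * ((Real.log (y / n) : ℝ) : ℂ)‖ ≤ K * y) →
    ∀ u : ℝ, 1 ≤ u → ‖∑ n ∈ Icc 1 ⌊u⌋₊, c n‖ ≤ C * (K + 1) * (u * (1 + Real.log u) ^ i)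

/-- Module Pas (theorem tPas). Uses: nothing.
Proof. Summation by parts with the decreasing positive weights w(n) = (log n)^(-2i) on n > √x (n ≥ 2): the norm of the
left side is ≤ 2 w(⌊√x⌋+1) max_{u ≤ x} |T(u)| ≤ 2 (log √x)^(-2i) K x (1 + log x)^i ≤ 2 4^i 2^i K x (log x)^(-i) (x ≥ 3: log x ≥ 1). -/
def PasStmt : Prop :=
  ∀ i : ℕ, 1 ≤ i → ∃ C : ℝ, 0 < C ∧ ∀ (c : ℕ → ℂ) (K : ℝ), 0 ≤ K →
    (∀ u : ℝ, 1 ≤ u → ‖∑ n ∈ Icc 1 ⌊u⌋₊, c n‖ ≤ K * (u * (1 + Real.log u) ^ i)) →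
    ∀ x : ℝ, 4 ≤ x → ‖∑ n ∈ Ioc ⌊Real.sqrt x⌋₊ ⌊x⌋₊, c n / ((Real.log n : ℝ) : ℂ) ^ (2 * i)‖ ≤
      C * K * (x / (Real.log x) ^ i)

/-- Module Pps (theorem tPps; prime powers). Uses: nothing.
Proof. The n in the sum that are not prime have Λ(n) ≠ 0 only for n = p^a, a ≥ 2, p ≤ √x; Λ(n)/log n ≤ 1. Their number is at
most √x times the number of exponents a ≤ log x/log 2; or: the sum of Λ(n)/log 2 over them is (ψ(x) - θ(x))/log 2 ≤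
2 √x log x/log 2 (Chebyshev.psi_sub_theta_le). Primes p ≤ √x: at most √x. -/
def PpsStmt : Prop :=
  ∃ C : ℝ, 0 < C ∧ ∀ (f : ℕ → ℂ) (x : ℝ), 4 ≤ x → (∀ n, ‖f n‖ ≤ 1) →
    ‖∑ n ∈ Ioc ⌊Real.sqrt x⌋₊ ⌊x⌋₊, ((ArithmeticFunction.vonMangoldt n / Real.log n : ℝ) : ℂ) * f n -
      ∑ n ∈ (Icc 1 ⌊x⌋₊).filter Nat.Prime, f n‖ ≤ C * (Real.sqrt x * Real.log x)

end Pool.Agent.Lib.BV
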