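import Pool.Agent.Lib.BV.SpecD

/-!
MP_00e23e_nt, directory Lib/BV (architect helper3; this part helper63), part L: the low conductors of
the bilinear part (LowStmt of SpecD). Rules: see SpecA.lean (first line of the modules of this part:
`import Pool.Agent.Lib.BV.SpecL`, then `namespace Pool.Agent.Lib.BV`, `open Finset Pool.Agent.Lib.EH3`).
-/

namespace Pool.Agent.Lib.BV

open Finset Pool.Agent.Lib.EH3

/-- Module Lmo (theorem tLmo). Uses: nothing.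
Proof. p ↦ gi η P p = ⌊log(p/P)/η⌋ is monotone on p > P ≥ 1 (η > 0), so the p ∈ (P, 2P] with gi η P p + g < T form an
initial segment of (P, 2P]. Take u = the largest such p, or u = P if there is none (e.g. Nat.findGreatest, or
induction on the right end of the interval). -/
def LmoStmt : Prop :=
  ∀ (η : ℝ) (P T g : ℕ), 0 < η → 1 ≤ P → ∃ u : ℕ, P ≤ u ∧ u ≤ 2 * P ∧
    ∀ p : ℕ, P < p → p ≤ 2 * P → (gi η P p + g < T ↔ p ≤ u)

/-- Module Lbl (theorem tLbl; one block as a double sum). Uses: Lmo.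
Proof. cs FJ N 1 χ = ∑_{n ≤ N} χ(n) ∑_{p m = n} [gi p + gi m < T] blk P p bj P j m (n coprime to 1 always). All terms are
≥ 0, so by the hypothesis every pair (p, m) with a nonzero term has p m ≤ N; hence the sum is
∑_{m ∈ Ioc (2^j P) (2^(j+1) P)} bj P j m χ(m) ∑_{p ∈ Ioc P (2P) prime, gi p + gi m < T} χ(p) (compare Lib/BV/Sew.lean and
Lib/BV/Sep.lean for the exchange; here only the pairs with bj P j m ≠ 0 occur, one can put bj P j m inside).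
By Lmo with g = gi η (2^j P) m the inner sum runs over the primes in Ioc P u, P ≤ u ≤ 2P, so its norm is ≤ E.
0 ≤ bj ≤ 1, |χ(m)| ≤ 1, and there are 2^j P values of m. (E ≥ 0 because a norm is ≤ E for u = P.) -/
def LblStmt : Prop :=
  ∀ (η E : ℝ) (T P j N q : ℕ) (χ : DirichletCharacter ℂ q), 0 < η → 1 ≤ P →
    (∀ n : ℕ, FJ η T P j n ≠ 0 → n ≤ N) →
    (∀ u : ℕ, P ≤ u → u ≤ 2 * P → ‖∑ p ∈ (Ioc P u).filter Nat.Prime, χ (p : ZMod q)‖ ≤ E) →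
    ‖cs (fun n => (FJ η T P j n : ℂ)) N 1 χ‖ ≤ (2 : ℝ) ^ j * (P : ℝ) * E

/-- Module Lpc (theorem tLpc; primitive characters on primes). Uses: nothing.
Proof. χ(p) = χ.primitiveCharacter(p) if the prime p does not divide d (compare Lib/BV/Inj.lean, part (2)), so
the difference of the sums has at most #{p prime, p | d} nonzero terms, each of them χ(p) - χ1(p) = - χ1(p) of norm ≤ 1
(χ(p) = 0 for p | d). The number of primes dividing d is ≤ 2 log d (EH.card_primeFactors_le). -/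
def LpcStmt : Prop :=
  ∀ (d u : ℕ) (χ : DirichletCharacter ℂ d), 1 ≤ d →
    ‖∑ p ∈ (Icc 1 u).filter Nat.Prime, χ (p : ZMod d) -
      ∑ p ∈ (Icc 1 u).filter Nat.Prime, χ.primitiveCharacter (p : ZMod χ.conductor)‖ ≤ 2 * Real.log d

/-- Module Lsw (theorem tLsw; Siegel-Walfisz on a block). Uses: Sw, Lpc.
Proof. C1 = the constant of Sw for (2A, 2B). x0 such that for x ≥ x0, v = √(log x): v ≥ log 3 and
exp(v) ≥ v^(2A+2) = (log x)^(A+1) (isLittleO, or Asy-like; v ≥ 1). By hypothesis P ≥ exp(v), so P ≥ 3, and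
for w ∈ {P, u}: log w ≥ v, hence (log w)^(2B) ≥ (log x)^B ≥ q = conductor of χ, 2 ≤ q, and Sw (real w, ⌊w⌋ = w) gives
|∑_{p ≤ w} χ1(p)| ≤ C1 w/(log w)^(2A) ≤ 2 C1 P/(log x)^A. By Lpc |∑_{p ≤ w} χ(p)| ≤ 2 C1 P/(log x)^A + 2 log d, and
log d ≤ log x ≤ P/(log x)^A because P ≥ exp(v) ≥ (log x)^(A+1). The sum over Ioc P u is the difference of the sums for
w = u and w = P: total ≤ (4 C1 + 4) P/(log x)^A. -/
def LswStmt : Prop :=
  ∀ A B : ℝ, 0 < A → 0 < B → ∃ C x0 : ℝ, 0 < C ∧ 3 ≤ x0 ∧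
    ∀ (x : ℝ) (P d u : ℕ) (χ : DirichletCharacter ℂ d), x0 ≤ x →
      Real.sqrt (Real.log x) ≤ Real.log P → 1 ≤ d → (d : ℝ) ≤ x → 1 < χ.conductor →
      (χ.conductor : ℝ) ≤ (Real.log x) ^ B → P ≤ u → u ≤ 2 * P →
      ‖∑ p ∈ (Ioc P u).filter Nat.Prime, χ (p : ZMod d)‖ ≤ C * ((P : ℝ) / (Real.log x) ^ A)

/-- Module Lct (theorem tLct; number of blocks). Uses: nothing.
Proof. Terms with 2^j (z 2^k)^2 > x are ≤ 0 and can be dropped (replaced by 0). For the others 2^j ≤ x and 2^k ≤ x (z ≥ 1,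
2^k ≤ (2^k)^2), so j, k ≤ log x/log 2 ≤ 2 log x (log 2 ≥ 1/2); b k j ≤ [k ≤ 2 log x][j ≤ 2 log x] E, and there are at most
⌊2 log x⌋ + 1 ≤ 1 + 2 log x values of k < K, and of j < J. -/
def LctStmt : Prop :=
  ∀ (x E : ℝ) (z K J : ℕ) (b : ℕ → ℕ → ℝ), 1 ≤ x → 1 ≤ z → 0 ≤ E → (∀ k j, b k j ≤ E) →
    (∀ k j, x < (2 : ℝ) ^ j * ((z : ℝ) * 2 ^ k) ^ 2 → b k j ≤ 0) →
    ∑ k ∈ range K, ∑ j ∈ range J, b k j ≤ (1 + 2 * Real.log x) ^ 2 * E

/-- Module Lft (theorem tLft; character sums of FY). Uses: Gri, Lbl.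
Proof. cs is additive in f (finite sums), so ‖cs FY N 1 χ‖ ≤ ∑_k ∑_j ‖cs FJ η (cut η y P j) P j N 1 χ‖, P = z 2^k. If
x < 2^j P^2 then y < 2^j P^2, cut = 0 and FJ = 0, cs = 0. Otherwise apply Lbl with E k: the hypothesis FJ ≠ 0 → n ≤ 4⌊x⌋:
some pair (p, m), p m = n, has blk P p ≠ 0, bj P j m ≠ 0 and gi + gi < cut, so n ≤ y e^(2η) ≤ x e ≤ 4⌊x⌋ by Gri (2)
(4 ≤ x; if y < 0 the cut is 0), compare tTys (Lib/BV/Tys.lean). So the term is ≤ 2^j P E k if 2^j P^2 ≤ x, and 0 otherwise. -/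
def LftStmt : Prop :=
  ∀ (x η y : ℝ) (z K J q : ℕ) (χ : DirichletCharacter ℂ q) (E : ℕ → ℝ), 4 ≤ x → 0 < η → η ≤ 1 / 2 → y ≤ x →
    1 ≤ z →
    (∀ k u : ℕ, z * 2 ^ k ≤ u → u ≤ 2 * (z * 2 ^ k) →
      ‖∑ p ∈ (Ioc (z * 2 ^ k) u).filter Nat.Prime, χ (p : ZMod q)‖ ≤ E k) →
    ‖cs (fun n => (FY η z K J y n : ℂ)) (4 * ⌊x⌋₊) 1 χ‖ ≤
      ∑ k ∈ range K, ∑ j ∈ range J,
        if (2 : ℝ) ^ j * ((z : ℝ) * 2 ^ k) ^ 2 ≤ x then (2 : ℝ) ^ j * ((z : ℝ) * 2 ^ k) * E k else 0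

/-- Module Low (theorem tLow : LowStmt, statement in SpecD). Uses: Cnd, Lsw, Lct, Lft.
Proof. A' = A + 2B + 2, C1, x0 from Lsw for (A', B), x0 ≥ e^4. ‖del‖ ≤ (1/φ(d)) ∑_{χ, 1 < cond ≤ Q} ‖cs FY (4⌊x⌋) 1 χ‖ (|χ(l⁻¹)| ≤ 1), and
there are at most Q^2 ≤ (log x)^(2B) characters (Cnd). For each of them Lft with E k = C1 z 2^k/(log x)^A' (Lsw with
P = z 2^k: log P ≥ log z ≥ √(log x); z ≥ 1 since log z > 0) and Lct with b k j = the terms, E = C1 x/(log x)^A': the sum is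
≤ (1 + 2 log x)^2 C1 x/(log x)^A' ≤ 9 C1 x (log x)^(2 - A'). Total ≤ (1/φ(d)) 9 C1 x (log x)^(2B + 2 - A'). -/
def Low2Stmt : Prop := LowStmt

end Pool.Agent.Lib.BV
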