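import Mathlib

/-!
MP_00e23e_nt, directory Lib/BV (Bombieri-Vinogradov), part S (helper58): the theorem of Siegel,
L(1,χ) ≥ c q^(-ε) for real primitive χ mod q (section 7 of note 1819). Elementary: only finite sums
and the limits of sums over n ≤ N of f(n) n^(-s), s > 0 real.

RULES. Module X: file Pool/Agent/Lib/BV/X.lean, first line `import Pool.Agent.Lib.BV.SpecS`, then
`namespace Pool.Agent.Lib.BV` and `open Finset`, private lemmas with names starting with X_, final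
theorem `theorem tX (h1 : AStmt) ... : XStmt`; the statements listed under Uses are hypotheses of your
theorem, in this order. The docstring contains a complete proof. Never use congr!. Every module below
60 s.
-/

namespace Pool.Agent.Lib.BV

open Finset

/-- real completely multiplicative functions with values in {-1, 0, 1} -/
structure SgCM (f : ℕ → ℝ) : Prop where
  zero : f 0 = 0
  one : f 1 = 1
  mul : ∀ m n : ℕ, f (m * n) = f m * f n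
  val : ∀ n : ℕ, f n = 0 ∨ f n = 1 ∨ f n = -1

/-- all sums of f over intervals are bounded by Q -/
def SgPB (f : ℕ → ℝ) (Q : ℝ) : Prop := ∀ M N : ℕ, |∑ n ∈ Ioc M N, f n| ≤ Q

/-- the sum of f(n) n^(-s) over n ≤ N -/
noncomputable def sgp (f : ℕ → ℝ) (s : ℝ) (N : ℕ) : ℝ := ∑ n ∈ Icc 1 N, f n * (n : ℝ) ^ (-s)

/-- the limit of the sums of f(n) n^(-s) over n ≤ N -/
noncomputable def sgl (f : ℕ → ℝ) (s : ℝ) : ℝ :=
  Filter.limUnder Filter.atTop (sgp f s)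

/-- Dirichlet convolution -/
noncomputable def sgc (f g : ℕ → ℝ) (n : ℕ) : ℝ := ∑ w ∈ n.divisorsAntidiagonal, f w.1 * g w.2

/-! ### Limits -/

/-- Module SgAb (theorem tSgAb). Uses: nothing. (Summation by parts.)
Proof. S(n) = ∑_{m ∈ Ioc M n} f m, |S(n)| ≤ Q, so Q ≥ 0. If N ≤ M the sum is empty. For N > M, by induction on N,
∑_{n ∈ Ioc M N} f n w n = S(N) w(N) + ∑_{n ∈ Ico (M+1) N} S(n) (w n - w(n+1)), hence
|..| ≤ Q (w N + ∑_{n ∈ Ico (M+1) N} (w n - w(n+1))) = Q w(M+1). -/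
def SgAbStmt : Prop :=
  ∀ (f w : ℕ → ℝ) (Q : ℝ) (M N : ℕ), SgPB f Q → (∀ n, M < n → 0 ≤ w n) →
    (∀ m n, M < m → m ≤ n → w n ≤ w m) → |∑ n ∈ Ioc M N, f n * w n| ≤ Q * w (M + 1)

/-- Module SgEl (theorem tSgEl). Uses: SgAb.
Proof. Second part: SgAb with w n = n^(-s) (decreasing for n ≥ 1). sgp f s N - sgp f s M is the sum over Ioc M N
(M ≤ N), so by the second part and Q (M+1)^(-s) → 0 the sequence sgp f s is Cauchy, hence convergent: third part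
(Filter.Tendsto.limUnder_eq or CauchySeq.tendsto_limUnder). First part: let N' → ∞ in |sgp f s N' - sgp f s N| ≤
Q (N+1)^(-s). -/
def SgElStmt : Prop :=
  ∀ (f : ℕ → ℝ) (Q s : ℝ), SgPB f Q → 0 < s →
    (∀ N : ℕ, |sgl f s - sgp f s N| ≤ Q * ((N : ℝ) + 1) ^ (-s)) ∧
    (∀ M N : ℕ, |∑ n ∈ Ioc M N, f n * (n : ℝ) ^ (-s)| ≤ Q * ((M : ℝ) + 1) ^ (-s)) ∧
    Filter.Tendsto (sgp f s) Filter.atTop (nhds (sgl f s))

/-- Module SgCt (theorem tSgCt). Uses: SgEl.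
Proof. Let b > 0. For s ≥ b: |sgl f s - sgp f s N| ≤ Q (N+1)^(-s) ≤ Q (N+1)^(-b) → 0, so sgp f · N → sgl f
uniformly on [b, ∞) (TendstoUniformlyOn.continuousOn), and s ↦ sgp f s N is continuous (finite sum, positive
bases). Every s > 0 is interior to [s/2, ∞). -/
def SgCtStmt : Prop :=
  ∀ (f : ℕ → ℝ) (Q : ℝ), SgPB f Q → ContinuousOn (sgl f) (Set.Ioi 0)

/-! ### Zeta and divisor sums -/

/-- Module SgZ (theorem tSgZ). Uses: nothing.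
Proof. (0) For 0 < u ≤ v: (v-u) v^(-β) ≤ (v^(1-β) - u^(1-β))/(1-β) ≤ (v-u) u^(-β) (mean value theorem, or
integral of t^(-β)). D(M) = ∑_{n ≤ M} n^(-β) - M^(1-β)/(1-β). By (0) with u = M, v = M+1:
(M+1)^(-β) - M^(-β) ≤ D(M+1) - D(M) ≤ 0 for M ≥ 1, D(1) = 1 - 1/(1-β) ≤ 0. So D is decreasing on M ≥ 1 and
D(M) + (1 - M^(-β)) is increasing, so D(M) ≥ D(1) - 1 = -1/(1-β); z = lim D(M) (infimum), -1/(1-β) ≤ z ≤ 0, and
0 ≤ D(M) - z ≤ M^(-β) (sum the differences from M to infinity). Last part: D(N) ≤ D(1) ≤ 0 for N ≥ 1, N = 0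
trivial (0^(1-β) = 0). Middle part: y = N/a (real), M = N/a (natural quotient) = floor y ≥ 1, M ≤ y < M+1 ≤ 2M.
0 ≤ (y^(1-β) - M^(1-β))/(1-β) ≤ M^(-β) by (0). The error is ≤ 2 M^(-β) ≤ 2 (y/2)^(-β) ≤ 4 y^(-β). -/
def SgZStmt : Prop :=
  ∀ β : ℝ, 0 < β → β < 1 → ∃ z : ℝ, z ≤ 0 ∧ -(1 / (1 - β)) ≤ z ∧
    (∀ a N : ℕ, 1 ≤ a → a ≤ N →
      |∑ n ∈ Icc 1 (N / a), (n : ℝ) ^ (-β) - ((N : ℝ) / (a : ℝ)) ^ (1 - β) / (1 - β) - z| ≤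
        4 * ((N : ℝ) / (a : ℝ)) ^ (-β)) ∧
    ∀ N : ℕ, ∑ n ∈ Icc 1 N, (n : ℝ) ^ (-β) ≤ (N : ℝ) ^ (1 - β) / (1 - β)

/-- Module SgHa (theorem tSgHa). Uses: nothing.
Proof. n^(-s) = n^(-1) n^(1-s) ≤ N^(1-s) n^(-1) (n ≤ N, 1 - s ≥ 0), and ∑_{n ≤ N} 1/n ≤ 1 + log N (Mathlib:
harmonic_le_one_add_log). Second part: ∑_{n ≤ N} d(n)/n = ∑_{u v ≤ N} 1/(u v) ≤ (∑_{u ≤ N} 1/u)^2 ≤ (1 + log N)^2. -/
def SgHaStmt : Prop :=
  ∀ (s : ℝ) (N : ℕ), s ≤ 1 → 1 ≤ N →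
    ∑ n ∈ Icc 1 N, (n : ℝ) ^ (-s) ≤ (N : ℝ) ^ (1 - s) * (1 + Real.log N) ∧
    ∑ n ∈ Icc 1 N, (n.divisors.card : ℝ) * (n : ℝ) ^ (-s) ≤ (N : ℝ) ^ (1 - s) * (1 + Real.log N) ^ 2

/-! ### Convolutions -/

/-- Module SgHy (theorem tSgHy; hyperbola method). Uses: nothing.
Proof. n^(-s) = a^(-s) b^(-s) for n = a b, so the left side is the sum of (f(a) a^(-s)) (g(b) b^(-s)) over all
pairs a, b ≥ 1 with a b ≤ N. The pairs with a ≤ A give the first sum (b ≤ N/a iff a b ≤ N). A pair with a > A has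
(A+1) b ≤ a b ≤ N < (A+1)(B+1), so b ≤ B: these give the second sum. -/
def SgHyStmt : Prop :=
  ∀ (f g : ℕ → ℝ) (s : ℝ) (N A B : ℕ), N < (A + 1) * (B + 1) →
    sgp (sgc f g) s N =
      ∑ a ∈ Icc 1 A, f a * (a : ℝ) ^ (-s) * sgp g s (N / a) +
      ∑ b ∈ Icc 1 B, g b * (b : ℝ) ^ (-s) * ∑ a ∈ Ioc A (N / b), f a * (a : ℝ) ^ (-s)

/-- Module SgOn (theorem tSgOn). Uses: SgEl, SgZ, SgHy.
Proof. z from SgZ. y = N/a real, M = N/a natural quotient, 1 ≤ M ≤ y < M+1 ≤ 2M. SgHy with N := M,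
g := 1, A = B = sqrt M (Nat.sqrt; A ≥ 1, A ≤ √M < A+1). First part: by SgZ with (a, N) := (c, M),
∑_{c ≤ A} f(c) c^(-β) (∑_{n ≤ M/c} n^(-β)) = (M^(1-β)/(1-β)) sgp f 1 A + z sgp f β A + E,
|E| ≤ ∑_{c ≤ A} c^(-β) 4 (M/c)^(-β) = 4 A M^(-β) ≤ 4 M^(1/2-β). By SgEl |sgp f 1 A - sgl f 1| ≤ Q/(A+1) ≤
Q M^(-1/2), |sgp f β A - sgl f β| ≤ Q (A+1)^(-β) ≤ Q M^(-β/2) ≤ Q M^(1/2-β) (β ≤ 1). Second part: ≤
∑_{b ≤ A} b^(-β) Q (A+1)^(-β) ≤ Q M^(-β/2) A^(1-β)/(1-β) ≤ Q M^(1/2-β)/(1-β) (last part of SgZ). With |z| ≤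
1/(1-β), 4 ≤ 4 Q/(1-β): the formula holds for M with error (7/(1-β)) Q M^(1/2-β) ≤ (14/(1-β)) Q y^(1/2-β)
(M ≥ y/2). Finally |sgl f 1| ≤ Q (SgEl, N = 0) and 0 ≤ (y^(1-β) - M^(1-β))/(1-β) ≤ M^(-β) ≤ 2 y^(-β) ≤ 2 y^(1/2-β)
(mean value theorem). -/
def SgOnStmt : Prop :=
  ∀ β : ℝ, 1 / 2 < β → β < 1 → ∃ z : ℝ, z ≤ 0 ∧ ∀ (f : ℕ → ℝ) (Q : ℝ), (∀ n, |f n| ≤ 1) → SgPB f Q →
    1 ≤ Q → ∀ a N : ℕ, 1 ≤ a → a ≤ N →
      |sgp (sgc f (fun _ => 1)) β (N / a) -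
          sgl f 1 * (((N : ℝ) / (a : ℝ)) ^ (1 - β) / (1 - β)) - z * sgl f β| ≤
        (20 / (1 - β)) * Q * ((N : ℝ) / (a : ℝ)) ^ (1 / 2 - β)

/-- Module SgMu (theorem tSgMu). Uses: SgEl, SgHa, SgHy.
Proof. SgHy with A = B = Nat.sqrt N (1 ≤ A ≤ √N < A+1). First part: sgp g s (N/a) = sgl g s + e_a,
|e_a| ≤ R (⌊N/a⌋ + 1)^(-s) ≤ R (N/a)^(-s); ∑_{a ≤ A} a^(-s) R (N/a)^(-s) = R A N^(-s) ≤ R N^(1/2-s). And
sgl g s (sgp f s A - sgl f s): |sgl g s| ≤ R (SgEl with N = 0), |sgp f s A - sgl f s| ≤ Q (A+1)^(-s) ≤ Q N^(-s/2) ≤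
Q N^(1/2-s). Second part: ≤ ∑_{b ≤ A} b^(-s) Q (A+1)^(-s) ≤ Q N^(-s/2) A^(1-s) (1 + log A) ≤ Q N^(1/2-s) (1 + log N)
(SgHa). -/
def SgMuStmt : Prop :=
  ∀ (f g : ℕ → ℝ) (Q R s : ℝ) (N : ℕ), (∀ n, |f n| ≤ 1) → (∀ n, |g n| ≤ 1) → SgPB f Q → SgPB g R →
    1 ≤ Q → 1 ≤ R → 1 / 2 < s → s ≤ 1 → 1 ≤ N →
    |sgp (sgc f g) s N - sgl f s * sgl g s| ≤ 4 * Q * R * (N : ℝ) ^ (1 / 2 - s) * (1 + Real.log N)

/-- Module SgFo (theorem tSgFo). Uses: SgEl, SgHa, SgHy, SgOn, SgMu.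
Proof. h = sgc f (f g), r = sgc g 1; |h(n)|, |r(n)| ≤ d(n) (number of divisors). SgHy with f := h, g := r,
A = B = Nat.sqrt N (1 ≤ A ≤ √N < A + 1 ≤ 2A). First part: by SgOn (sgl g β = 0)
sgp r β (N/a) = sgl g 1 (N/a)^(1-β)/(1-β) + e_a, |e_a| ≤ (20/(1-β)) Q (N/a)^(1/2-β), so the first part is
sgl g 1 (N^(1-β)/(1-β)) sgp h 1 A + E1, |E1| ≤ (20/(1-β)) Q N^(1/2-β) ∑_{a ≤ A} d(a) a^(-1/2) ≤
(20/(1-β)) Q N^(1/2-β) A^(1/2) (1 + log N)^2 (SgHa) ≤ (20/(1-β)) Q N^(3/4-β) (1 + log N)^2. By SgMu (s = 1)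
|sgp h 1 A - sgl f 1 sgl (f g) 1| ≤ 4 R S A^(-1/2) (1 + log A) ≤ 6 R S N^(-1/4) (1 + log N), and |sgl g 1| ≤ Q: error
(6/(1-β)) Q R S N^(3/4-β) (1 + log N). Second part: for b ≤ A, N/b ≥ A, the inner sum is sgp h β (N/b) - sgp h β A,
by SgMu ≤ 8 R S A^(1/2-β) (1 + log N); ∑_{b ≤ A} d(b) b^(-β) ≤ A^(1-β) (1 + log N)^2; product
8 R S A^(3/2-2β) (1 + log N)^3 ≤ 12 R S N^(3/4-β) (1 + log N)^3 (A ≥ √N/2, 3/2 - 2β in (-1/2, 0)). Total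
(38/(1-β)) Q R S N^(3/4-β) (1 + log N)^3. -/
def SgFoStmt : Prop :=
  ∀ (f g : ℕ → ℝ) (Q R S β : ℝ) (N : ℕ), (∀ n, |f n| ≤ 1) → (∀ n, |g n| ≤ 1) → SgPB g Q → SgPB f R →
    SgPB (fun n => f n * g n) S → 1 ≤ Q → 1 ≤ R → 1 ≤ S → 3 / 4 < β → β < 1 → sgl g β = 0 → 1 ≤ N →
    |sgp (sgc (sgc f (fun n => f n * g n)) (sgc g (fun _ => 1))) β N -
        sgl g 1 * sgl f 1 * sgl (fun n => f n * g n) 1 * ((N : ℝ) ^ (1 - β) / (1 - β))| ≤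
      (60 / (1 - β)) * Q * R * S * (N : ℝ) ^ (3 / 4 - β) * (1 + Real.log N) ^ 3

/-! ### Positivity -/

/-- Module SgNa (theorem tSgNa). Uses: nothing.
Proof. r = sgc f 1, r(n) = ∑_{d | n} f d (n ≥ 1), r(0) = 0, r(1) = f 1 = 1. r is multiplicative (convolution of
multiplicative functions: ArithmeticFunction.IsMultiplicative.mul with the arithmetic functions ⟨f, zero⟩ and
zeta), and r(p^k) = ∑_{i ≤ k} f(p)^i ≥ 0 for f(p) in {0, 1, -1}. So r ≥ 0 (multiplicative functions with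
nonnegative values at prime powers: see DirichletCharacter.zetaMul_nonneg for the same argument, or
Nat.recOnPosPrimePosCoprime). Second part of the statement: r(p^i) for f(p) = -1 is 1 for i even, 0 for i odd. -/
def SgNaStmt : Prop :=
  ∀ f : ℕ → ℝ, SgCM f → (∀ n, 0 ≤ sgc f (fun _ => 1) n) ∧ sgc f (fun _ => 1) 1 = 1 ∧
    ∀ p i : ℕ, p.Prime → f p = -1 → sgc f (fun _ => 1) (p ^ i) = if Even i then 1 else 0

/-- Module SgNb (theorem tSgNb). Uses: SgNa.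
Proof. F, G, H, Z = arithmetic functions of f, g, f g, 1 (Z = zeta cast to ℝ). lam = (F * H) * (G * Z) (products =
Dirichlet convolutions) is multiplicative, lam(1) = 1. As f is completely multiplicative,
F * H = f (Z * G) pointwise, i.e. (F * H)(n) = f(n) r_g(n), r_g = sgc g 1; similarly (G * H)(n) = g(n) r_f(n), and by
commutativity lam = (f r_g) * r_g = (g r_f) * r_f. At p^k: if f(p) ∈ {0, 1}, lam(p^k) = ∑_{i+j=k} f(p)^i r_g(p^i)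
r_g(p^j) ≥ 0 (SgNa); if g(p) ∈ {0, 1} the same with f and g exchanged; if f(p) = g(p) = -1: f(p)^i r_g(p^i) =
(-1)^i [i even] ≥ 0 (last part of SgNa), so all terms are ≥ 0. Hence lam ≥ 0 everywhere (Nat.recOnPosPrimePosCoprime;
n = 0 gives 0). -/
def SgNbStmt : Prop :=
  ∀ f g : ℕ → ℝ, SgCM f → SgCM g →
    (∀ n, 0 ≤ sgc (sgc f (fun n => f n * g n)) (sgc g (fun _ => 1)) n) ∧
    sgc (sgc f (fun n => f n * g n)) (sgc g (fun _ => 1)) 1 = 1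

/-- Module SgUp (theorem tSgUp). Uses: SgEl, SgHa.
Proof. N = floor Q ≥ 1. |sgp f 1 N| ≤ ∑_{n ≤ N} n^(-1) ≤ 1 + log N ≤ 1 + log Q (SgHa with s = 1), and
|sgl f 1 - sgp f 1 N| ≤ Q (N+1)^(-1) ≤ 1. -/
def SgUpStmt : Prop :=
  ∀ (f : ℕ → ℝ) (Q : ℝ), (∀ n, |f n| ≤ 1) → SgPB f Q → 1 ≤ Q → |sgl f 1| ≤ 3 + Real.log Q

/-- Module SgPo (theorem tSgPo). Uses: SgOn, SgNa.
Proof. Replace Q by max Q 1. β = 3/4, a = 1 in SgOn: for all N ≥ 1, 1 ≤ sgp (sgc f 1) β N (the term n = 1 is 1, the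
others are ≥ 0 by SgNa) ≤ 4 sgl f 1 N^(1/4) + z sgl f β + 80 Q. If sgl f 1 < 0 this fails for N large. -/
def SgPoStmt : Prop :=
  ∀ (f : ℕ → ℝ) (Q : ℝ), SgCM f → SgPB f Q → 0 ≤ sgl f 1

/-! ### The two cases -/

/-- Module SgCa (theorem tSgCa). Uses: SgOn, SgNa.
Proof. SgOn with a = 1, z ≤ 0 ≤ sgl f β: 1 ≤ sgp (sgc f 1) β N ≤ sgl f 1 N^(1-β)/(1-β) + (20/(1-β)) Q N^(1/2-β).
Put w = 40 Q/(1-β) ≥ 320, N = ceil (w^3). N^(1/2-β) ≤ N^(-3/8) ≤ w^(-9/8) ≤ w^(-1), so the last term is ≤ 1/2 and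
sgl f 1 ≥ ((1-β)/2) N^(-(1-β)), N ≤ w^3 + 1 ≤ w^4. -/
def SgCaStmt : Prop :=
  ∀ (f : ℕ → ℝ) (Q β : ℝ), SgCM f → SgPB f Q → 1 ≤ Q → 7 / 8 ≤ β → β < 1 → 0 ≤ sgl f β →
    (1 - β) / 2 * (40 * Q / (1 - β)) ^ (-(4 * (1 - β))) ≤ sgl f 1

/-- Module SgCb (theorem tSgCb). Uses: SgFo, SgNb, SgUp, SgPo.
Proof. SgFo and SgNb: 1 ≤ sgl g 1 sgl f 1 sgl (f g) 1 N^(1-β)/(1-β) + E, E = (60/(1-β)) Q R S N^(3/4-β) (1 + log N)^3.
N^(3/4-β) ≤ N^(-1/8), log N ≤ 48 N^(1/48) (Real.log_le_rpow_div), so (1 + log N)^3 ≤ (49 N^(1/48))^3 =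
117649 N^(1/16) and E ≤ (w/2) N^(-1/16), w = 2 10^7 Q R S/(1-β) (60 * 117649 ≤ 10^7). N = ceil (w^16): E ≤ 1/2,
N ≤ w^16 + 1 ≤ w^17. The product f g is SgCM; by SgPo all three values at 1 are ≥ 0, by SgUp sgl g 1 ≤ 3 + log Q,
sgl (f g) 1 ≤ 3 + log S. So 1/2 ≤ (3 + log Q)(3 + log S) sgl f 1 w^(17(1-β))/(1-β). -/
def SgCbStmt : Prop :=
  ∀ (f g : ℕ → ℝ) (Q R S β : ℝ), SgCM f → SgCM g → SgPB g Q → SgPB f R →
    SgPB (fun n => f n * g n) S → 1 ≤ Q → 1 ≤ R → 1 ≤ S → 7 / 8 ≤ β → β < 1 → sgl g β = 0 →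
    (1 - β) / (2 * (3 + Real.log Q) * (3 + Real.log S)) *
        (2 * (10 : ℝ) ^ 7 * Q * R * S / (1 - β)) ^ (-(17 * (1 - β))) ≤ sgl f 1

/-- Module SgSi (theorem tSgSi). Uses: SgCt, SgPo, SgCa, SgCb.
Proof. We may assume ε ≤ 1 (q^(-ε) ≤ q^(-1) for ε ≥ 1). β = 1 - ε/200 ≥ 7/8. Case 1: sgl f β ≥ 0 for all P q f.
SgCa with Q = q: c = ((1-β)/2) (40/(1-β))^(-4(1-β)), 4(1-β) = ε/50 ≤ ε. Case 2: P q1 g with sgl g β < 0. sgl g 1 > 0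
(SgPo, ≠ 0), so by SgCt and the intermediate value theorem sgl g β1 = 0 for some β1 in (β, 1). Let P q f. If f = g:
c ≤ sgl g 1 suffices. If f ≠ g: SgCb with Q = q1, R = q, S = q q1 (the function f g), β1: (3 + log(q q1)) ≤ (3 + log q1)
(1 + log q), 1 + log q ≤ (1 + 2/ε) q^(ε/2), and (q^2)^(-17(1-β1)) ≥ q^(-34 ε/200) ≥ q^(-ε/2). So
c = min (sgl g 1) ((1-β1)/(2 (3 + log q1)^2 (1 + 2/ε)) (2 10^7 q1^2/(1-β1))^(-17(1-β1))). -/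
def SgSiStmt : Prop :=
  ∀ P : ℕ → (ℕ → ℝ) → Prop,
    (∀ q f, P q f → 1 < q ∧ SgCM f ∧ SgPB f q ∧ sgl f 1 ≠ 0) →
    (∀ q f q' f', P q f → P q' f' → f ≠ f' → SgPB (fun n => f n * f' n) ((q : ℝ) * q')) →
    ∀ ε : ℝ, 0 < ε → ∃ c : ℝ, 0 < c ∧ ∀ q f, P q f → c * (q : ℝ) ^ (-ε) ≤ sgl f 1

/-! ### Characters -/

/-- Module SgPc (theorem tSgPc). Uses: nothing.
Proof. The sum over q consecutive n is ∑_{a : ZMod q} χ a = 0 (MulChar.sum_eq_zero_of_ne_one; n ↦ (n : ZMod q) is a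
bijection from any q consecutive integers onto ZMod q). Split Ioc M N into blocks of length q from the left (strong
induction on N - M); the rest has < q terms of absolute value ≤ 1. -/
def SgPcStmt : Prop :=
  ∀ (q : ℕ) (χ : DirichletCharacter ℂ q) (M N : ℕ), 1 ≤ q → χ ≠ 1 →
    ‖∑ n ∈ Ioc M N, χ (n : ZMod q)‖ ≤ q

/-- Module SgCh (theorem tSgCh). Uses: SgPc.
Proof. χ a = 0 for non-units, (χ a)^2 = (χ^2) a = 1 for units, so χ a ∈ {0, 1, -1} is real: last part. SgCM follows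
(χ 0 = 0 as q ≠ 1), SgPB from SgPc and |re z| ≤ |z|. -/
def SgChStmt : Prop :=
  ∀ (q : ℕ) (χ : DirichletCharacter ℂ q), 1 < q → χ ≠ 1 → χ ^ 2 = 1 →
    SgCM (fun n => (χ (n : ZMod q)).re) ∧ SgPB (fun n => (χ (n : ZMod q)).re) q ∧
    ∀ n : ℕ, (((χ (n : ZMod q)).re : ℝ) : ℂ) = χ (n : ZMod q)

/-- Module SgPd (theorem tSgPd). Uses: SgPc, SgCh.
Proof. θ = changeLevel χ * changeLevel ψ (level q r). If θ = 1 then changeLevel χ = (changeLevel ψ)⁻¹ =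
changeLevel ψ (its square is changeLevel (ψ^2) = 1), so q = conductor χ = conductor ψ = r
(DirichletCharacter.conductor_changeLevel) and, after subst, χ = ψ (changeLevel_injective), contradiction. So θ ≠ 1 and
SgPc bounds the sums of θ(n) by q r. θ(n) = χ(n) ψ(n) for all n (both sides are 0 if n is not coprime to q r), and
re(χ(n) ψ(n)) = re χ(n) re ψ(n) as both are real (SgCh; primitive of modulus > 1 implies ≠ 1). -/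
def SgPdStmt : Prop :=
  ∀ (q r : ℕ) (χ : DirichletCharacter ℂ q) (ψ : DirichletCharacter ℂ r), 1 < q → 1 < r →
    χ.IsPrimitive → ψ.IsPrimitive → χ ^ 2 = 1 → ψ ^ 2 = 1 →
    (fun n : ℕ => (χ (n : ZMod q)).re) ≠ (fun n : ℕ => (ψ (n : ZMod r)).re) →
    SgPB (fun n => (χ (n : ZMod q)).re * (ψ (n : ZMod r)).re) ((q : ℝ) * r)

/-- Module SgLf (theorem tSgLf). Uses: SgEl, SgCt, SgCh.
Proof. f = re χ (SgCh: χ = f real, SgPB f q). For real s > 1: LFunction χ s = LSeries χ s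
(DirichletCharacter.LFunction_eq_LSeries) = ∑' χ(n) n^(-s), absolutely convergent, so its finite sums sgp f s N
converge to it: LFunction χ s = sgl f s (SgEl, uniqueness of limits), in particular it is real. LFunction χ is
continuous at 1 (DirichletCharacter.differentiable_LFunction, χ ≠ 1), sgl f is continuous at 1 (SgCt); let s → 1 from
the right: LFunction χ 1 = sgl f 1. It is ≠ 0 by DirichletCharacter.LFunction_apply_one_ne_zero. -/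
def SgLfStmt : Prop :=
  ∀ (q : ℕ) [NeZero q] (χ : DirichletCharacter ℂ q), 1 < q → χ ≠ 1 → χ ^ 2 = 1 →
    DirichletCharacter.LFunction χ 1 = ((sgl (fun n => (χ (n : ZMod q)).re) 1 : ℝ) : ℂ) ∧
    sgl (fun n => (χ (n : ZMod q)).re) 1 ≠ 0

/-- Module Sie (theorem tSie; Siegel). Uses: SgSi, SgCh, SgPd, SgLf.
Proof. SgSi with P q f: there are NeZero q and a primitive χ mod q, 1 < q, χ^2 = 1, f = re χ. Primitive and q > 1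
imply χ ≠ 1 (conductor_one). First hypothesis: SgCh, SgLf. Second: SgPd. Then SgLf. -/
def SieStmt : Prop :=
  ∀ ε : ℝ, 0 < ε → ∃ c : ℝ, 0 < c ∧ ∀ (q : ℕ) [NeZero q] (χ : DirichletCharacter ℂ q), 1 < q →
    χ.IsPrimitive → χ ^ 2 = 1 → c * (q : ℝ) ^ (-ε) ≤ (DirichletCharacter.LFunction χ 1).re

end Pool.Agent.Lib.BV
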