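import Pool.Agent.Lib.BV.SpecH
import Pool.Agent.Lib.BV.SpecD

/-!
MP_00e23e_nt, directory Lib/BV, part W (helper41): Siegel-Walfisz theorem and prime number theorem
(SwStmt and PntStmt of SpecD) from the statements of SpecH (helper3) and Siegel's theorem (helper58,
SieWStmt is his interface). Rules: see SpecA.lean. First line of the modules of this part:
`import Pool.Agent.Lib.BV.SpecW`, namespace Pool.Agent.Lib.BV, `open Finset`. Statements under Uses are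
hypotheses, in this order.

Module Sw (theorem tSw : ... → SwStmt; Siegel-Walfisz for sums over primes). Uses: Fkk, Smb, Prs, Pps.
Proof. i = ⌈A⌉ + 1, c n = Λ(n) χ(n) (log n)^(2i-1) (so LSeries c = LS (chf χ) (2i-1) by definition). ‖c n‖ ≤ (log n)^(2i) ≤
(1 + log n)^(2i) (vonMangoldt_le_log; n = 0: c 0 = 0 as Λ(0) = 0), summable by Smb (f = Λ χ). Fkk with
j = 2i-1, ε = 1/B: ‖LSeries c s‖ ≤ K (|im s|+2)^(1/2), K = C1 q^(1/B) ≤ C1 log x (q ≤ (log x)^B). For x ≥ 4 Prs gives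
‖∑_{√x < n ≤ x} c n/(log n)^(2i)‖ ≤ C2 (C1 log x + 1) x/(log x)^i ≤ C3 x/(log x)^(i-1) ≤ C3 x/(log x)^A (log x ≥ 1), and
c n/(log n)^(2i) = Λ(n)/log n * χ(n) (n ≥ 3, log n ≠ 0). Pps with f = chf χ: the sum over the primes differs by at most
C4 √x log x ≤ C5 x/(log x)^A. For 3 ≤ x < 4 the left side is ≤ 3.

Module Pnt (theorem tPnt : ... → PntStmt; prime number theorem). Uses: Zkk, Smb, Prs, Pps, Lir.
Proof. i = ⌈A⌉ ≥ 1, c n = (Λ(n) - 1) (log n)^(2i-1): ‖c n‖ ≤ (1 + log n)^(2i), summable by Smb (f = Λ - 1), and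
‖LSeries c s‖ ≤ K (|im s|+2)^(1/2) by Zkk (j = 2i-1), K constant. For x ≥ 4 Prs: |∑_{√x < n ≤ x} (Λ(n) - 1)/log n| ≤
C x/(log x)^i ≤ C x/(log x)^A. Pps with f = 1: ∑_{√x < n ≤ x} Λ(n)/log n differs from the number of primes ≤ x by at most
C √x log x; Lir: ∑_{√x < n ≤ x} 1/log n differs from li x by at most 10 √x. √x log x ≤ C x/(log x)^A. For 3 ≤ x < 4: the left
side is ≤ 3 + li 4 (0 ≤ li x ≤ li 4).
-/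

namespace Pool.Agent.Lib.BV

open Finset

/-- Siegel's theorem (interface of helper58) -/
def SieWStmt : Prop :=
  ∀ ε : ℝ, 0 < ε → ∃ c : ℝ, 0 < c ∧ ∀ (q : ℕ) [NeZero q] (χ : DirichletCharacter ℂ q), 1 < q →
    χ.IsPrimitive → χ ^ 2 = 1 → c * (q : ℝ) ^ (-ε) ≤ (DirichletCharacter.LFunction χ 1).re

/-- Module Lnk (theorem tLnk). Uses: Ser, Chb.
Proof. For Re s > 1: DS (chf χ) 0 s = LSeries χ s = LFunction χ s (the factor (log n)^0 is 1;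
DirichletCharacter.LFunction_eq_LSeries), and the derivative of s ↦ LSeries χ s is -LSeries (logMul χ) s =
-DS (chf χ) 1 s (LSeries_hasDerivAt / LSeries_deriv, abscissa of absolute convergence ≤ 1;
logMul f n = Complex.log n * f n and Complex.log n = Real.log n). By Ser (j = 1, Q = q, BPS (chf χ) q by Chb) its norm
is ≤ C (ell q (im s))^2 ≤ C (ell q 1)^2 on the convex set {1 < re s ≤ 2, |im s| ≤ 1}. Mean value inequality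
(Convex.norm_image_sub_le_of_norm_hasDerivWithin_le): ‖L(s) - L(1+η)‖ ≤ C (ell q 1)^2 ‖s - (1+η)‖ for 0 < η ≤ 1. Let η tend
to 0 from the right: LFunction χ is continuous (DirichletCharacter.differentiable_LFunction, χ ≠ 1). -/
def LnkStmt : Prop :=
  ∃ C : ℝ, 0 < C ∧ ∀ (q : ℕ) [NeZero q] (χ : DirichletCharacter ℂ q) (s : ℂ), 2 ≤ q → χ ≠ 1 → 1 < s.re →
    s.re ≤ 2 → |s.im| ≤ 1 →
    ‖DS (chf χ) 0 s - DirichletCharacter.LFunction χ 1‖ ≤ C * ‖s - 1‖ * (ell q 1) ^ 2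

/-- Module LoF (theorem tLoF). Uses: Lo1, Lo2, Trl, Lnk, SieW.
Proof. χ ≠ 1 (χ is primitive and q ≥ 2: DirichletCharacter.conductor_one, the conductor of 1 is 1). Facts: for q ≥ 2,
ell q t ≥ log 4 ≥ 1, and ell q 1 = log(3q) ≤ log((2q)^2) ≤ 2 ell q t; q^ε ≥ 1.
(A) χ^2 ≠ 1: Lo1: c1 ≤ ‖DS‖ ell^7 ≤ ‖DS‖ q^ε ell^9.
(B) χ^2 = 1. Let c3 be the constant of SieW for ε, C that of Lnk, κ = min(1, c3/(2C)), d0 = κ q^(-ε)/(ell q 1)^2 ≤ 1.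
(B1) ‖s - 1‖ ≤ d0: then |im s| ≤ 1 and by Lnk ‖DS‖ ≥ ‖LFunction χ 1‖ - C d0 (ell q 1)^2 ≥ c3 q^(-ε) - C κ q^(-ε) ≥
(c3/2) q^(-ε).
(B2) |im s| ≥ d0/2: Lo2: c2 ≤ ‖DS‖ ell^7 (1 + 2/d0) ≤ ‖DS‖ ell^7 (3/d0), and 1/d0 = q^ε (ell q 1)^2/κ ≤ 4 q^ε ell^2/κ.
(B3) otherwise ‖s - 1‖ > d0 and |im s| < d0/2, so re s - 1 ≥ ‖s - 1‖ - |im s| > d0/2, and Trl gives ‖DS‖ ≥ d0/4 =
κ q^(-ε)/(4 (ell q 1)^2) ≥ κ q^(-ε)/(16 ell^2).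
In all cases c ≤ ‖DS‖ q^ε ell^9 with c = min(c1, c3/2, c2 κ/12, κ/16). -/
def LoFStmt : Prop :=
  ∀ ε : ℝ, 0 < ε → ∃ c : ℝ, 0 < c ∧ ∀ (q : ℕ) (χ : DirichletCharacter ℂ q) (s : ℂ), 2 ≤ q → χ.IsPrimitive →
    1 < s.re → s.re ≤ 2 → c ≤ ‖DS (chf χ) 0 s‖ * (q : ℝ) ^ ε * (ell q s.im) ^ 9

/-- Module Fkk (theorem tFkk). Uses: Ser, Chb, Rec, LoF.
Proof. ε' = ε/(2(j+1)), c from LoF for ε', C_m from Ser (choose them as a function of m), Cf m = C_m/c,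
V = ell^11 q^ε', ell = ell q (im s) ≥ 1. For m ≥ 1: ‖DS χ m s‖ ≤ C_m ell^(m+1) ≤ (C_m/c) ell^(m+1) ‖DS χ 0 s‖ q^ε' ell^9 ≤
(C_m/c) V^m ‖DS χ 0 s‖, because m + 10 ≤ 11 m and q^ε' ≤ (q^ε')^m. Rec: ‖LS χ j s‖ ≤ a V^(j+1) = a ell^(11(j+1)) q^(ε/2). Finally
ell q t = log q + log(|t|+2) ≤ (1 + log q)(1 + log(|t|+2)), (1 + log q)^(11(j+1)) ≤ C q^(ε/2) and
(1 + log(|t|+2))^(11(j+1)) ≤ C (|t|+2)^(1/2) (Real.log_le_rpow_div or isLittleO; e.g. 1 + log v ≤ (1 + 1/δ) v^δ for v ≥ 1). -/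
def FkkStmt : Prop :=
  ∀ (j : ℕ) (ε : ℝ), 0 < ε → ∃ C : ℝ, 0 < C ∧ ∀ (q : ℕ) (χ : DirichletCharacter ℂ q) (s : ℂ), 2 ≤ q →
    χ.IsPrimitive → 1 < s.re → s.re ≤ 2 →
    ‖LS (chf χ) j s‖ ≤ C * (q : ℝ) ^ ε * (|s.im| + 2) ^ ((1 : ℝ) / 2)

/-- Module Smb (theorem tSmb). Uses: nothing.
Proof. For n ≥ 1: ‖f n (log n)^j‖ ≤ (1 + log n)^(j+1) ≤ C n^δ with δ = (re s - 1)/2, and
LSeriesSummable_of_le_const_mul_rpow. -/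
def SmbStmt : Prop :=
  ∀ (f : ℕ → ℂ) (j : ℕ) (s : ℂ), (∀ n : ℕ, 1 ≤ n → ‖f n‖ ≤ 1 + Real.log n) → 1 < s.re →
    LSeriesSummable (fun n => f n * ((Real.log n : ℝ) : ℂ) ^ j) s

/-- Module Prs (theorem tPrs). Uses: Per, Uns, Pas.
Proof. Per: the smoothed sums are ≤ C1 K y for y ≥ 1. Uns (with K replaced by C1 K): ‖∑_{n ≤ u} c n‖ ≤
C2 (C1 K + 1) u (1 + log u)^i. Pas with K replaced by C2 (C1 K + 1). -/
def PrsStmt : Prop :=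
  ∀ i : ℕ, 1 ≤ i → ∃ C : ℝ, 0 < C ∧ ∀ (c : ℕ → ℂ) (K : ℝ), 0 ≤ K →
    (∀ n : ℕ, ‖c n‖ ≤ (1 + Real.log n) ^ (2 * i)) → (∀ s : ℂ, 1 < s.re → LSeriesSummable c s) →
    (∀ s : ℂ, 1 < s.re → s.re ≤ 2 → ‖LSeries c s‖ ≤ K * (|s.im| + 2) ^ ((1 : ℝ) / 2)) →
    ∀ x : ℝ, 4 ≤ x → ‖∑ n ∈ Ioc ⌊Real.sqrt x⌋₊ ⌊x⌋₊, c n / ((Real.log n : ℝ) : ℂ) ^ (2 * i)‖ ≤
      C * (K + 1) * (x / (Real.log x) ^ i)

/-- Module Lir (theorem tLir). Uses: nothing.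
Proof. a = ⌊√x⌋ ≥ 2, b = ⌊x⌋. 1/log is decreasing on t > 1: for n ≥ 3, ∫_n^{n+1} dt/log t ≤ 1/log n ≤ ∫_{n-1}^n dt/log t
(AntitoneOn.sum_le_integral_Ico and AntitoneOn.integral_le_sum_Ico), so |∑_{a < n ≤ b} 1/log n - ∫_a^b dt/log t| ≤
1/log a ≤ 2. ∫_2^a dt/log t ≤ a/log 2 ≤ 2 √x, ∫_b^x dt/log t ≤ 1/log 2 ≤ 2 (b ≥ 4). Total ≤ 2 √x + 4 ≤ 10 √x. -/
def LirStmt : Prop :=
  ∀ x : ℝ, 4 ≤ x → |∑ n ∈ Ioc ⌊Real.sqrt x⌋₊ ⌊x⌋₊, (1 / Real.log (n : ℝ)) -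
    Pool.Agent.Results.MP_00e23e_nt.li x| ≤ 10 * Real.sqrt x

end Pool.Agent.Lib.BV
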