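import Pool.Agent.Lib.BV.SpecB

namespace Pool.Agent.Lib.BV

open Finset Pool.Agent.Lib.EH3

private lemma Sqr_term (h : ApcStmt) {X d l p : ℕ} (hd : 1 ≤ d) (hl : l.Coprime d)
    (hp : p.Prime) :
    (((Icc 1 X).filter (fun n => n ≡ l [MOD d] ∧ p ^ 2 ∣ n)).card : ℝ) ≤
      (X : ℝ) / d * ((p : ℝ) ^ 2)⁻¹ + 1 := by
  have hX : (0 : ℝ) ≤ (X : ℝ) / d * ((p : ℝ) ^ 2)⁻¹ := by positivity
  by_cases hc : (p ^ 2).Coprime d
  · have h1 := h.1 X d l (p ^ 2) hd (Nat.one_le_iff_ne_zero.2 (pow_ne_zero 2 hp.ne_zero)) hc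
    have h2 := (abs_le.1 h1).2
    have h3 : (X : ℝ) / (d * ((p ^ 2 : ℕ) : ℝ)) = (X : ℝ) / d * ((p : ℝ) ^ 2)⁻¹ := by
      push_cast
      rw [div_mul_eq_div_div, div_eq_mul_inv ((X : ℝ) / d)]
    rw [h3] at h2
    linarith
  · rw [h.2.1 X d l (p ^ 2) hd hl hc]
    simp only [card_empty, Nat.cast_zero]
    linarith

theorem tSqr (h : ApcStmt) : SqrStmt := by
  classical
  intro X z d l hz hd hl
  set s : ℕ := X.sqrt with hs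
  have hsub : (Icc 1 X).filter (fun n => n ≡ l [MOD d] ∧ ∃ p : ℕ, p.Prime ∧ z < p ∧ p ^ 2 ∣ n) ⊆
      ((Ioc z s).filter Nat.Prime).biUnion
        (fun p => (Icc 1 X).filter (fun n => n ≡ l [MOD d] ∧ p ^ 2 ∣ n)) := by
    intro n hn
    rw [mem_filter] at hn
    obtain ⟨hn1, hn2, p, hp, hzp, hpn⟩ := hn
    rw [mem_Icc] at hn1
    rw [mem_biUnion]
    refine ⟨p, ?_, ?_⟩
    · rw [mem_filter, mem_Ioc]
      refine ⟨⟨hzp, ?_⟩, hp⟩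
      rw [hs, Nat.le_sqrt']
      exact (Nat.le_of_dvd (by omega) hpn).trans hn1.2
    · rw [mem_filter, mem_Icc]
      exact ⟨hn1, hn2, hpn⟩
  have h1 : (((Icc 1 X).filter (fun n => n ≡ l [MOD d] ∧ ∃ p : ℕ, p.Prime ∧ z < p ∧ p ^ 2 ∣ n)).card : ℝ) ≤
      ∑ p ∈ (Ioc z s).filter Nat.Prime,
        (((Icc 1 X).filter (fun n => n ≡ l [MOD d] ∧ p ^ 2 ∣ n)).card : ℝ) := by
    have := (card_le_card hsub).trans card_biUnion_le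
    exact_mod_cast this
  refine h1.trans ?_
  have h2 : ∑ p ∈ (Ioc z s).filter Nat.Prime,
        (((Icc 1 X).filter (fun n => n ≡ l [MOD d] ∧ p ^ 2 ∣ n)).card : ℝ) ≤
      ∑ p ∈ (Ioc z s).filter Nat.Prime, ((X : ℝ) / d * ((p : ℝ) ^ 2)⁻¹ + 1) :=
    sum_le_sum fun p hp => Sqr_term h hd hl (mem_filter.1 hp).2
  refine h2.trans ?_
  have hXd : (0 : ℝ) ≤ (X : ℝ) / d := by positivity
  have h3 : ∑ p ∈ (Ioc z s).filter Nat.Prime, ((X : ℝ) / d * ((p : ℝ) ^ 2)⁻¹ + 1) ≤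
      ∑ p ∈ Ioc z s, ((X : ℝ) / d * ((p : ℝ) ^ 2)⁻¹ + 1) :=
    sum_le_sum_of_subset_of_nonneg (filter_subset _ _) fun p _ _ => by positivity
  refine h3.trans ?_
  rw [sum_add_distrib, ← mul_sum]
  by_cases hzs : z ≤ s
  · have h4 : ∑ i ∈ Ioc z s, ((i : ℝ) ^ 2)⁻¹ ≤ (z : ℝ)⁻¹ - (s : ℝ)⁻¹ :=
      sum_Ioc_inv_sq_le_sub (by omega) hzs
    have h5 : ∑ i ∈ Ioc z s, ((i : ℝ) ^ 2)⁻¹ ≤ (z : ℝ)⁻¹ := by
      have : (0 : ℝ) ≤ (s : ℝ)⁻¹ := by positivity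
      linarith
    have h6 : (X : ℝ) / d * ∑ i ∈ Ioc z s, ((i : ℝ) ^ 2)⁻¹ ≤ (X : ℝ) / (z * d) := by
      calc _ ≤ (X : ℝ) / d * (z : ℝ)⁻¹ := mul_le_mul_of_nonneg_left h5 hXd
        _ = _ := by rw [mul_comm (z : ℝ) d, div_mul_eq_div_div, div_eq_mul_inv ((X : ℝ) / d)]
    have h7 : ∑ i ∈ Ioc z s, (1 : ℝ) ≤ Real.sqrt X := by
      rw [sum_const, Nat.card_Ioc, nsmul_eq_mul, mul_one]
      have : ((s - z : ℕ) : ℝ) ≤ (s : ℝ) := by exact_mod_cast Nat.sub_le s z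
      exact this.trans (Real.nat_sqrt_le_real_sqrt)
    exact add_le_add h6 h7
  · rw [Ioc_eq_empty (by omega)]
    simp only [sum_empty, mul_zero, add_zero]
    positivity

end Pool.Agent.Lib.BV
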